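import Mathlib

/-!
# Algebraically closed subfields of `ℂ` of bounded transcendence degree

For a set `S` of real numbers there is a subfield `K` of `ℂ` containing `S`, stable under complex
conjugation and under taking roots of polynomials, in which any finite family of algebraically
independent real numbers has at most `#S` members.
-/

open Polynomial

namespace Pool.Agent.Helper730_PP

/-- A subfield of `ℂ` stable under conjugation and relatively algebraically closed. -/
structure GoodField (K : Subfield ℂ) : Prop where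
  conj_mem : ∀ x ∈ K, (starRingEnd ℂ) x ∈ K
  root_mem : ∀ p : ℂ[X], p ≠ 0 → (∀ k, p.coeff k ∈ K) → ∀ x, p.eval x = 0 → x ∈ K

theorem exists_goodField (S : Set ℝ) : ∃ K : Subfield ℂ, GoodField K ∧ (∀ s ∈ S, (s : ℂ) ∈ K) ∧
    ∀ {ι : Type} [Fintype ι] (t : ι → ℝ), AlgebraicIndependent ℚ t → (∀ i, (t i : ℂ) ∈ K) →
      (Fintype.card ι : ℕ∞) ≤ S.encard := by
  set S' : Set ℂ := (fun x : ℝ => (x : ℂ)) '' S with hS'
  set F : IntermediateField ℚ ℂ := IntermediateField.adjoin ℚ S' with hF
  set L : IntermediateField F ℂ := algebraicClosure F ℂ with hL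
  have hmem : ∀ x, x ∈ L.toSubfield ↔ IsAlgebraic F x := fun x => mem_algebraicClosure_iff
  have hreal : ∀ y : F, (starRingEnd ℂ) (y : ℂ) = y := by
    intro y
    have h1 : F ≤ (IsScalarTower.toAlgHom ℚ ℝ ℂ).fieldRange := by
      rw [hF, IntermediateField.adjoin_le_iff]
      rintro _ ⟨s, _, rfl⟩
      exact ⟨s, rfl⟩
    obtain ⟨r, hr⟩ := h1 y.2
    rw [← hr]
    exact Complex.conj_ofReal r
  let σ : ℂ →ₐ[F] ℂ :=
    { (starRingEnd ℂ) with
      commutes' := fun y => hreal y }
  refine ⟨L.toSubfield, ⟨?_, ?_⟩, ?_, ?_⟩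
  · intro x hx
    rw [hmem] at hx ⊢
    exact hx.algHom σ
  · intro p hp hc x hx
    rw [hmem]
    have h1 : p ∈ Polynomial.lifts (algebraMap L ℂ) := by
      rw [Polynomial.lifts_iff_coeff_lifts]
      intro k
      exact ⟨⟨p.coeff k, hc k⟩, rfl⟩
    obtain ⟨p', hp'⟩ := Polynomial.mem_lifts _ |>.mp h1
    have h2 : IsAlgebraic L x := by
      refine ⟨p', ?_, ?_⟩
      · rintro rfl
        apply hp
        rw [← hp', Polynomial.map_zero]
      · rw [← Polynomial.eval_map_algebraMap, hp', hx]
    exact h2.restrictScalars F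
  · intro s hs
    rw [hmem]
    have : (s : ℂ) ∈ F := IntermediateField.subset_adjoin ℚ S' ⟨s, hs, rfl⟩
    exact isAlgebraic_algebraMap (⟨(s : ℂ), this⟩ : F)
  · intro ι _ t ht htK
    have hinj : Function.Injective (algebraMap ℝ ℂ) := FaithfulSMul.algebraMap_injective ℝ ℂ
    have ht' : AlgebraicIndependent ℚ (fun i => (t i : ℂ)) := by
      have := ht.map' (f := IsScalarTower.toAlgHom ℚ ℝ ℂ) hinj
      exact this
    have hind : (AlgebraicIndependent.matroid ℚ ℂ).Indep (Set.range fun i => (t i : ℂ)) := by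
      rw [AlgebraicIndependent.matroid_indep_iff]
      exact ht'.coe_range
    have hsub : (Set.range fun i => (t i : ℂ)) ⊆ (AlgebraicIndependent.matroid ℚ ℂ).closure S' := by
      rintro _ ⟨i, rfl⟩
      rw [AlgebraicIndependent.matroid_closure_eq]
      have h1 := (hmem _).mp (htK i)
      rw [IntermediateField.isAlgebraic_adjoin_iff] at h1
      exact h1
    have h1 := hind.encard_le_eRk_of_subset hsub
    rw [Matroid.eRk_closure_eq] at h1
    have h2 := h1.trans ((AlgebraicIndependent.matroid ℚ ℂ).eRk_le_encard S')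
    have h3 : S'.encard ≤ S.encard := Set.encard_image_le _ _
    refine le_trans ?_ (h2.trans h3)
    rw [← Set.image_univ, Function.Injective.encard_image ht'.injective, Set.encard_univ,
      ENat.card_eq_coe_fintype_card]

theorem exists_algebraicIndependent (ι : Type) [Finite ι] :
    ∃ t : ι → ℝ, AlgebraicIndependent ℚ t := by
  obtain ⟨B, hB⟩ := exists_isTranscendenceBasis ℚ ℝ
  have hinf : Infinite B := by
    rcases isEmpty_or_nonempty B with hE | hN
    · exfalso
      have h1 := hB.isAlgebraic
      have h2 := Algebra.IsAlgebraic.cardinalMk_le_max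
        (Algebra.adjoin ℚ (Set.range ((↑) : B → ℝ))) ℝ
      have h3 : (Set.range ((↑) : B → ℝ)) = ∅ := Set.range_eq_empty _
      rw [h3, Algebra.adjoin_empty] at h2
      have h4 : Cardinal.mk (⊥ : Subalgebra ℚ ℝ) ≤ Cardinal.aleph0 := by
        have : Function.Surjective (fun q : ℚ => (algebraMap ℚ (⊥ : Subalgebra ℚ ℝ)) q) := by
          rintro ⟨x, hx⟩
          obtain ⟨q, rfl⟩ := Algebra.mem_bot.mp hx
          exact ⟨q, rfl⟩
        exact (Cardinal.mk_le_of_surjective this).trans (Cardinal.mk_le_aleph0)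
      rw [Cardinal.mk_real, max_eq_right h4] at h2
      exact absurd h2 (not_le.mpr Cardinal.aleph0_lt_continuum)
    · have h1 := hB.lift_cardinalMk_eq_max_lift
      simp only [Cardinal.lift_id, Cardinal.mk_real] at h1
      rw [Cardinal.infinite_iff]
      by_contra hcon
      push Not at hcon
      have h2 : Cardinal.continuum ≤ Cardinal.aleph0 := by
        rw [h1]
        exact sup_le (sup_le (Cardinal.mk_le_aleph0) hcon.le) le_rfl
      exact absurd h2 (not_le.mpr Cardinal.aleph0_lt_continuum)
  obtain ⟨n, ⟨e⟩⟩ := Finite.exists_equiv_fin ι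
  let g : ℕ ↪ B := Infinite.natEmbedding B
  refine ⟨fun i => (g (e i : ℕ) : ℝ), ?_⟩
  have := hB.1.comp (fun i => g (e i : ℕ)) (by
    intro i j hij
    have h1 := g.injective hij
    exact e.injective (Fin.ext h1))
  exact this

end Pool.Agent.Helper730_PP
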