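import Pool.Agent.Helper730_PP.Reduce

/-!
# One robustly bad balanced plant refutes generic pole placement (`p = 2`)
-/

open Polynomial Matrix

namespace Pool.Agent.Helper730_PP

noncomputable section

/-- The matrix, in terms of the coefficients of `P`, of the linear map sending `(z, v)` of degree at
most `n` to the coefficients of `z P₀ + v P₁` of index `≥ n / 2`. -/
def gramA (m n : ℕ) : Matrix (Fin (m + 2) × Fin (2 * n + 1)) (Fin 2 × Fin (n + 1))
    (MvPolynomial (CoeffIdx m 2 n) ℝ) :=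
  Matrix.of fun x y =>
    if h : (y.2 : ℕ) ≤ n / 2 + x.2 ∧ n / 2 + x.2 - y.2 ≤ n then
      MvPolynomial.X (y.1, x.1, ⟨n / 2 + x.2 - y.2, Nat.lt_succ_of_le h.2⟩) else 0

/-- The Gram determinant. -/
def gramPoly (m n : ℕ) : MvPolynomial (CoeffIdx m 2 n) ℝ := ((gramA m n)ᵀ * gramA m n).det

/-- The matrix at a given `P`. -/
def gramAt {m : ℕ} (n : ℕ) (P : PolyMat 2 (m + 2)) :
    Matrix (Fin (m + 2) × Fin (2 * n + 1)) (Fin 2 × Fin (n + 1)) ℝ :=
  Matrix.of fun x y => (X ^ (y.2 : ℕ) * P y.1 x.1).coeff (n / 2 + x.2)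

theorem gramA_eval {m n : ℕ} {P : PolyMat 2 (m + 2)} (hP : ∀ i j, (P i j).natDegree ≤ n) :
    (gramA m n).map (MvPolynomial.eval (coeffVec n P)) = gramAt n P := by
  refine Matrix.ext fun x y => ?_
  simp only [Matrix.map_apply, gramA, gramAt, Matrix.of_apply]
  rw [coeff_X_pow_mul']
  by_cases h1 : (y.2 : ℕ) ≤ n / 2 + x.2
  · rw [if_pos h1]
    by_cases h2 : n / 2 + x.2 - y.2 ≤ n
    · rw [dif_pos ⟨h1, h2⟩, MvPolynomial.eval_X]
      rfl
    · rw [dif_neg (fun h => h2 h.2), map_zero]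
      rw [coeff_eq_zero_of_natDegree_lt (lt_of_le_of_lt (hP _ _) (by omega))]
  · rw [if_neg h1, dif_neg (fun h => h1 h.1), map_zero]

theorem gramPoly_eval {m n : ℕ} {P : PolyMat 2 (m + 2)} (hP : ∀ i j, (P i j).natDegree ≤ n) :
    MvPolynomial.eval (coeffVec n P) (gramPoly m n) = ((gramAt n P)ᵀ * gramAt n P).det := by
  unfold gramPoly
  rw [RingHom.map_det, RingHom.mapMatrix_apply, Matrix.map_mul, Matrix.transpose_map,
    gramA_eval hP]

theorem gramAt_mulVec {m n : ℕ} (P : PolyMat 2 (m + 2)) (x : Fin 2 × Fin (n + 1) → ℝ)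
    (y : Fin (m + 2) × Fin (2 * n + 1)) :
    (gramAt n P *ᵥ x) y = ((∑ l : Fin (n + 1), C (x (0, l)) * X ^ (l : ℕ)) * P 0 y.1
      + (∑ l : Fin (n + 1), C (x (1, l)) * X ^ (l : ℕ)) * P 1 y.1).coeff (n / 2 + y.2) := by
  simp only [Matrix.mulVec, dotProduct, gramAt, Matrix.of_apply]
  rw [Fintype.sum_prod_type, Fin.sum_univ_two, coeff_add, Finset.sum_mul, Finset.sum_mul,
    finsetSum_coeff, finsetSum_coeff]
  congr 1 <;>
  · refine Finset.sum_congr rfl fun l _ => ?_
    rw [mul_assoc, coeff_C_mul, mul_comm]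

theorem sum_coeff_eq {n : ℕ} {z : ℝ[X]} (hz : z.natDegree ≤ n) :
    ∑ l : Fin (n + 1), C (z.coeff l) * X ^ (l : ℕ) = z := by
  conv_rhs => rw [z.as_sum_range' (n + 1) (Nat.lt_succ_of_le hz)]
  rw [Finset.sum_range]
  refine Finset.sum_congr rfl fun l _ => ?_
  rw [C_mul_X_pow_eq_monomial]

theorem injective_of_gram {m n : ℕ} {P : PolyMat 2 (m + 2)}
    (hP : ∀ i j, (P i j).natDegree ≤ n)
    (hg : MvPolynomial.eval (coeffVec n P) (gramPoly m n) ≠ 0)
    (z v : ℝ[X]) (hz : z.natDegree ≤ n) (hv : v.natDegree ≤ n)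
    (h : ∀ j k, n / 2 ≤ k → (z * P 0 j + v * P 1 j).coeff k = 0) : z = 0 ∧ v = 0 := by
  rw [gramPoly_eval hP] at hg
  set x : Fin 2 × Fin (n + 1) → ℝ := fun y => ((![z, v] : Fin 2 → ℝ[X]) y.1).coeff y.2 with hx
  have h0 : gramAt n P *ᵥ x = 0 := by
    funext y
    rw [gramAt_mulVec]
    have e1 : ∑ l : Fin (n + 1), C (x (0, l)) * X ^ (l : ℕ) = z := sum_coeff_eq hz
    have e2 : ∑ l : Fin (n + 1), C (x (1, l)) * X ^ (l : ℕ) = v := sum_coeff_eq hv
    rw [e1, e2]
    exact h _ _ (Nat.le_add_right _ _)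
  have h1 : ((gramAt n P)ᵀ * gramAt n P) *ᵥ x = 0 := by
    rw [← Matrix.mulVec_mulVec, h0, Matrix.mulVec_zero]
  have h2 : x = 0 := Matrix.eq_zero_of_mulVec_eq_zero hg h1
  constructor
  · ext k
    rw [coeff_zero]
    by_cases hk : k ≤ n
    · exact congrFun h2 (0, ⟨k, Nat.lt_succ_of_le hk⟩)
    · exact coeff_eq_zero_of_natDegree_lt (by omega)
  · ext k
    rw [coeff_zero]
    by_cases hk : k ≤ n
    · exact congrFun h2 (1, ⟨k, Nat.lt_succ_of_le hk⟩)
    · exact coeff_eq_zero_of_natDegree_lt (by omega)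

/-- The reference point with rows `(X^⌊n/2⌋, 0, …)` and `(0, X^⌈n/2⌉, 0, …)`. -/
def refPt (m n : ℕ) : PolyMat 2 (m + 2) :=
  Matrix.of ![Pi.single 0 (X ^ (n / 2)), Pi.single 1 (X ^ (n - n / 2))]

theorem refPt_zero (m n : ℕ) (j : Fin (m + 2)) :
    refPt m n 0 j = if j = 0 then X ^ (n / 2) else 0 := by
  show (Pi.single 0 (X ^ (n / 2)) : Fin (m + 2) → ℝ[X]) j = _
  rw [Pi.single_apply]

theorem refPt_one (m n : ℕ) (j : Fin (m + 2)) :
    refPt m n 1 j = if j = 1 then X ^ (n - n / 2) else 0 := by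
  show (Pi.single 1 (X ^ (n - n / 2)) : Fin (m + 2) → ℝ[X]) j = _
  rw [Pi.single_apply]

theorem refPt_zero_deg (m n : ℕ) (j : Fin (m + 2)) : (refPt m n 0 j).natDegree ≤ n / 2 := by
  rw [refPt_zero]; split_ifs <;> simp

theorem refPt_one_deg (m n : ℕ) (j : Fin (m + 2)) : (refPt m n 1 j).natDegree ≤ n - n / 2 := by
  rw [refPt_one]; split_ifs <;> simp

theorem refPt_deg (m n : ℕ) (i : Fin 2) (j : Fin (m + 2)) : (refPt m n i j).natDegree ≤ n := by
  fin_cases i
  · exact (refPt_zero_deg m n j).trans (by omega)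
  · exact (refPt_one_deg m n j).trans (by omega)

theorem minor_deg_le {m n : ℕ} {P : PolyMat 2 (m + 2)} (h0 : ∀ j, (P 0 j).natDegree ≤ n / 2)
    (h1 : ∀ j, (P 1 j).natDegree ≤ n - n / 2) (e : Fin 2 → Fin (m + 2)) :
    (fullMinor P e).natDegree ≤ n := by
  rw [fullMinor_two]
  have k0 := h0 (e 0)
  have k1 := h1 (e 1)
  have l0 := h0 (e 1)
  have l1 := h1 (e 0)
  refine (natDegree_sub_le _ _).trans (max_le ?_ ?_)
  · exact natDegree_mul_le.trans (by omega)
  · exact natDegree_mul_le.trans (by omega)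

theorem refPt_mem (m n : ℕ) : refPt m n ∈ coeffSpace m 2 n := by
  refine ⟨refPt_deg m n, minor_deg_le (refPt_zero_deg m n) (refPt_one_deg m n), ![0, 1], ?_⟩
  have h01 : (0 : Fin (m + 2)) ≠ 1 := by
    intro h
    have := congrArg Fin.val h
    simp at this
  have hm : fullMinor (refPt m n) ![0, 1] = X ^ n := by
    rw [fullMinor_two]
    simp only [Matrix.cons_val_zero, Matrix.cons_val_one, refPt_zero, refPt_one, if_true,
      if_neg h01, if_neg h01.symm]
    rw [← pow_add, show n / 2 + (n - n / 2) = n by omega]; ring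
  rw [hm]
  exact ⟨pow_ne_zero _ X_ne_zero, natDegree_X_pow n⟩

theorem gram_refPt (m n : ℕ) :
    MvPolynomial.eval (coeffVec n (refPt m n)) (gramPoly m n) ≠ 0 := by
  rw [gramPoly_eval (refPt_deg m n)]
  intro hdet
  obtain ⟨x, hx, h0⟩ := Matrix.exists_mulVec_eq_zero_iff.mpr hdet
  apply hx
  have h1 : gramAt n (refPt m n) *ᵥ x = 0 := by
    rw [← Matrix.mulVec_mulVec] at h0
    have h2 : (gramAt n (refPt m n) *ᵥ x) ⬝ᵥ (gramAt n (refPt m n) *ᵥ x) = 0 := by
      have h3 : x ⬝ᵥ ((gramAt n (refPt m n))ᵀ *ᵥ (gramAt n (refPt m n) *ᵥ x)) = 0 := by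
        rw [h0, dotProduct_zero]
      rw [Matrix.mulVec_transpose, dotProduct_comm, ← Matrix.dotProduct_mulVec] at h3
      exact h3
    exact dotProduct_self_eq_zero.mp h2
  have h01 : (0 : Fin (m + 2)) ≠ 1 := by
    intro h
    have := congrArg Fin.val h
    simp at this
  have hc : ∀ (i : Fin 2) (k : ℕ) (hk : k < n + 1),
      (∑ l : Fin (n + 1), C (x (i, l)) * X ^ (l : ℕ) : ℝ[X]).coeff k = x (i, ⟨k, hk⟩) := by
    intro i k hk
    rw [finsetSum_coeff, Finset.sum_eq_single ⟨k, hk⟩]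
    · rw [coeff_C_mul_X_pow, if_pos rfl]
    · intro b _ hb
      rw [coeff_C_mul_X_pow, if_neg]
      intro h
      exact hb (Fin.ext h.symm)
    · intro h; exact absurd (Finset.mem_univ _) h
  funext ⟨i, l⟩
  fin_cases i
  · have h2 := congrFun h1 (0, ⟨(l : ℕ), by omega⟩)
    rw [gramAt_mulVec] at h2
    simp only [refPt_zero, refPt_one, if_true, if_neg h01, mul_zero, add_zero,
      Pi.zero_apply] at h2
    rw [Nat.add_comm (n / 2) (l : ℕ), coeff_mul_X_pow, hc 0 l l.2] at h2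
    exact h2
  · have h2 := congrFun h1 (1, ⟨n - n / 2 - n / 2 + (l : ℕ), by have := l.2; omega⟩)
    rw [gramAt_mulVec] at h2
    simp only [refPt_zero, refPt_one, if_true, if_neg h01.symm, mul_zero, zero_add,
      Pi.zero_apply] at h2
    rw [show n / 2 + (n - n / 2 - n / 2 + (l : ℕ)) = (l : ℕ) + (n - n / 2) by omega,
      coeff_mul_X_pow, hc 1 l l.2] at h2
    exact h2

/-- Restriction of a polynomial in the coefficients to an affine line. -/
theorem eval_line {ι : Type*} (f : MvPolynomial ι ℝ) (a b : ι → ℝ) (t : ℝ) :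
    (MvPolynomial.aeval (fun i => (C (a i) + X * C (b i) : ℝ[X])) f).eval t
      = MvPolynomial.eval (fun i => a i + t * b i) f := by
  induction f using MvPolynomial.induction_on with
  | C r => simp
  | add p q hp hq => rw [map_add, eval_add, hp, hq, map_add]
  | mul_X p i hp => simp only [map_mul, MvPolynomial.aeval_X, eval_mul, hp, MvPolynomial.eval_X,
      eval_add, eval_C, eval_X]

/-- A pair of rows as a `2 × N` matrix, entrywise. -/
theorem two_apply_zero {N : ℕ} (x y : Fin N → ℝ[X]) : two x y 0 = x := rfl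

theorem two_apply_one {N : ℕ} (x y : Fin N → ℝ[X]) : two x y 1 = y := rfl

theorem vform_comb {m : ℕ} (P₂ : PolyMat m (m + 2)) (x y : Fin (m + 2) → ℝ[X])
    (u v w z : ℝ[X]) :
    vform P₂ (fun j => u * x j + v * y j) (fun j => w * x j + z * y j)
      = (u * z - v * w) * vform P₂ x y := by
  have e1 : (fun j => u * x j + v * y j) = u • x + v • y := by
    funext j; simp
  have e2 : (fun j => w * x j + z * y j) = w • x + z • y := by
    funext j; simp
  rw [e1, e2, vform_add_left, vform_add_right, vform_add_right, vform_smul_left, vform_smul_left,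
    vform_smul_left, vform_smul_left, vform_smul_right, vform_smul_right, vform_smul_right,
    vform_smul_right, vform_self, vform_self, vform_swap P₂ y x]
  ring

/-- One balanced plant which is bad for `φ`, robustly in every direction, refutes generic real pole
placement. -/
theorem not_generic_of_bad {m n q : ℕ} (a b : Fin (m + 2) → ℝ[X]) (φ : ℝ[X])
    (hφ : φ.natDegree = n + q)
    (ha : ∀ j, (a j).natDegree ≤ n / 2) (hb : ∀ j, (b j).natDegree ≤ n - n / 2)
    (hbad : ∀ a' b' : Fin (m + 2) → ℝ[X], (∀ j, (a' j).natDegree ≤ n / 2) →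
      (∀ j, (b' j).natDegree ≤ n - n / 2) →
      ∃ ε : ℝ, 0 < ε ∧ ∀ t : ℝ, 0 < t → t < ε → ∀ P₂ : PolyMat m (m + 2),
        HasMcMillanDegree P₂ q → ∀ c : ℝ, c ≠ 0 →
        vform P₂ (fun j => a j + C t * a' j) (fun j => b j + C t * b' j) ≠ C c * φ) :
    ¬ GenericRealPolePlacement m 2 n q := by
  rintro ⟨S, hdense, hprop⟩
  obtain ⟨P, hP, hg, f, hfS, hf⟩ := hdense (gramPoly m n) ⟨refPt m n, refPt_mem m n, gram_refPt m n⟩
  obtain ⟨Q, u, v, w, z, δ, hδ, hdet, k0, k1, b0, b1, pu, pv, pw, pz⟩ :=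
    exists_reduction hP (injective_of_gram hP.1 hg)
  obtain ⟨ε, hε, hbadε⟩ := hbad (fun j => Q 0 j - a j) (fun j => Q 1 j - b j)
    (fun j => (natDegree_sub_le _ _).trans (max_le (b0 j) (ha j)))
    (fun j => (natDegree_sub_le _ _).trans (max_le (b1 j) (hb j)))
  -- the family
  set at' : ℝ → Fin (m + 2) → ℝ[X] := fun t j => a j + C t * (Q 0 j - a j) with hat
  set bt' : ℝ → Fin (m + 2) → ℝ[X] := fun t j => b j + C t * (Q 1 j - b j) with hbt
  set Pt : ℝ → PolyMat 2 (m + 2) := fun t =>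
    two (fun j => u * at' t j + v * bt' t j) (fun j => w * at' t j + z * bt' t j) with hPt
  have hat_deg : ∀ t j, (at' t j).natDegree ≤ n / 2 := fun t j =>
    (natDegree_add_le _ _).trans (max_le (ha j) (natDegree_C_mul_le _ _ |>.trans
      ((natDegree_sub_le _ _).trans (max_le (b0 j) (ha j)))))
  have hbt_deg : ∀ t j, (bt' t j).natDegree ≤ n - n / 2 := fun t j =>
    (natDegree_add_le _ _).trans (max_le (hb j) (natDegree_C_mul_le _ _ |>.trans
      ((natDegree_sub_le _ _).trans (max_le (b1 j) (hb j)))))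
  have hmul : ∀ {x g : ℝ[X]} {e : ℕ}, (x = 0 ∨ x.natDegree + e ≤ n) → g.natDegree ≤ e →
      (x * g).natDegree ≤ n := by
    intro x g e hx hg
    rcases hx with rfl | hx
    · simp
    · exact natDegree_mul_le.trans (by omega)
  have hPt_deg : ∀ t i j, (Pt t i j).natDegree ≤ n := by
    intro t i j
    fin_cases i
    · exact (natDegree_add_le _ _).trans
        (max_le (hmul pu (hat_deg t j)) (hmul pv (hbt_deg t j)))
    · exact (natDegree_add_le _ _).trans
        (max_le (hmul pw (hat_deg t j)) (hmul pz (hbt_deg t j)))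
  have hat1 : at' 1 = Q 0 := by
    funext j; rw [hat]; simp
  have hbt1 : bt' 1 = Q 1 := by
    funext j; rw [hbt]; simp
  have hP1 : Pt 1 = P := by
    rw [hPt]
    simp only [hat1, hbt1]
    refine Matrix.ext fun i j => ?_
    fin_cases i
    · exact (k0 j).symm
    · exact (k1 j).symm
  -- coefficient vectors along the family
  have hcv : ∀ t x, coeffVec n (Pt t) x
      = coeffVec n (Pt 0) x + t * (coeffVec n (Pt 1) x - coeffVec n (Pt 0) x) := by
    intro t ⟨i, j, k⟩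
    have hrow : ∀ (x y : ℝ[X]), x * at' t j + y * bt' t j
        = (x * at' 0 j + y * bt' 0 j) + C t * ((x * at' 1 j + y * bt' 1 j)
          - (x * at' 0 j + y * bt' 0 j)) := by
      intro x y
      rw [hat, hbt]
      simp only [C_0, C_1]
      ring
    fin_cases i
    · show (u * at' t j + v * bt' t j).coeff k = (u * at' 0 j + v * bt' 0 j).coeff k
        + t * ((u * at' 1 j + v * bt' 1 j).coeff k - (u * at' 0 j + v * bt' 0 j).coeff k)
      rw [hrow, coeff_add, coeff_C_mul, coeff_sub]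
    · show (w * at' t j + z * bt' t j).coeff k = (w * at' 0 j + z * bt' 0 j).coeff k
        + t * ((w * at' 1 j + z * bt' 1 j).coeff k - (w * at' 0 j + z * bt' 0 j).coeff k)
      rw [hrow, coeff_add, coeff_C_mul, coeff_sub]
  set F : ℝ[X] := MvPolynomial.aeval (fun x => (C (coeffVec n (Pt 0) x)
    + X * C (coeffVec n (Pt 1) x - coeffVec n (Pt 0) x) : ℝ[X])) f with hF
  have hFt : ∀ t, F.eval t = MvPolynomial.eval (coeffVec n (Pt t)) f := by
    intro t
    rw [hF, eval_line]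
    congr 2
    funext x
    exact (hcv t x).symm
  have hF1 : F.eval 1 ≠ 0 := by rw [hFt, hP1]; exact hf
  -- the McMillan degree along the family
  have hminor : ∀ t e, fullMinor (Pt t) e
      = C δ * (at' t (e 0) * bt' t (e 1) - at' t (e 1) * bt' t (e 0)) := by
    intro t e
    rw [fullMinor_two, ← hdet]
    show (u * at' t (e 0) + v * bt' t (e 0)) * (w * at' t (e 1) + z * bt' t (e 1))
      - (u * at' t (e 1) + v * bt' t (e 1)) * (w * at' t (e 0) + z * bt' t (e 0)) = _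
    ring
  obtain ⟨-, -, e, he, hen⟩ := hP
  have hminor_deg : ∀ t e, (fullMinor (Pt t) e).natDegree ≤ n := by
    intro t e
    rw [hminor]
    refine (natDegree_C_mul_le _ _).trans ((natDegree_sub_le _ _).trans (max_le ?_ ?_))
    · have k0 := hat_deg t (e 0)
      have k1 := hbt_deg t (e 1)
      exact natDegree_mul_le.trans (by omega)
    · have k0 := hat_deg t (e 1)
      have k1 := hbt_deg t (e 0)
      exact natDegree_mul_le.trans (by omega)
  set G0 : ℝ[X] := a (e 0) * b (e 1) - a (e 1) * b (e 0) with hG0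
  set G1 : ℝ[X] := a (e 0) * (Q 1 (e 1) - b (e 1)) + (Q 0 (e 0) - a (e 0)) * b (e 1)
    - a (e 1) * (Q 1 (e 0) - b (e 0)) - (Q 0 (e 1) - a (e 1)) * b (e 0) with hG1
  set G2 : ℝ[X] := (Q 0 (e 0) - a (e 0)) * (Q 1 (e 1) - b (e 1))
    - (Q 0 (e 1) - a (e 1)) * (Q 1 (e 0) - b (e 0)) with hG2
  set G : ℝ[X] := C (G0.coeff n) + X * C (G1.coeff n) + X ^ 2 * C (G2.coeff n) with hG
  have hGt : ∀ t, (fullMinor (Pt t) e).coeff n = δ * G.eval t := by
    intro t
    rw [hminor, coeff_C_mul]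
    congr 1
    have : at' t (e 0) * bt' t (e 1) - at' t (e 1) * bt' t (e 0)
        = G0 + C t * G1 + C (t ^ 2) * G2 := by
      rw [hat, hbt, hG0, hG1, hG2, C_pow]
      ring
    rw [this, coeff_add, coeff_add, coeff_C_mul, coeff_C_mul, hG]
    simp only [eval_add, eval_mul, eval_C, eval_X, eval_pow]
  have hG1' : G.eval 1 ≠ 0 := by
    intro h
    have h2 := hGt 1
    rw [h, mul_zero, hP1, ← hen] at h2
    exact he (leadingCoeff_eq_zero.mp h2)
  have hFG : F * G ≠ 0 := by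
    intro h
    have := congrArg (eval 1) h
    rw [eval_mul, eval_zero] at this
    exact (mul_ne_zero hF1 hG1') this
  obtain ⟨t, ht, htr⟩ : ∃ t ∈ Set.Ioo (0 : ℝ) ε, t ∉ (F * G).roots.toFinset :=
    (Set.Ioo_infinite hε).exists_notMem_finset _
  have ht0 : (F * G).eval t ≠ 0 := by
    intro h
    apply htr
    rw [Multiset.mem_toFinset, mem_roots hFG]
    exact h
  rw [eval_mul] at ht0
  have htF : F.eval t ≠ 0 := left_ne_zero_of_mul ht0
  have htG : G.eval t ≠ 0 := right_ne_zero_of_mul ht0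
  have hmemt : Pt t ∈ coeffSpace m 2 n := by
    refine ⟨hPt_deg t, hminor_deg t, e, ?_⟩
    have hc : (fullMinor (Pt t) e).coeff n ≠ 0 := by
      rw [hGt]; exact mul_ne_zero hδ htG
    refine ⟨?_, le_antisymm (hminor_deg t e) (le_natDegree_of_ne_zero hc)⟩
    intro h
    rw [h, coeff_zero] at hc
    exact hc rfl
  obtain ⟨P₂, hP₂, -, c, hc, hcφ⟩ := hprop (Pt t) hmemt ⟨f, hfS, by rw [← hFt]; exact htF⟩ φ hφ
  rw [det_stack_eq_vform] at hcφ
  have hv : vform P₂ (Pt t 0) (Pt t 1) = C δ * vform P₂ (at' t) (bt' t) := by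
    rw [← hdet]
    exact vform_comb P₂ (at' t) (bt' t) u v w z
  rw [hv] at hcφ
  refine hbadε t ht.1 ht.2 P₂ hP₂ (c / δ) (div_ne_zero hc hδ) ?_
  have h5 : C δ⁻¹ * (C δ * vform P₂ (at' t) (bt' t)) = C δ⁻¹ * (C c * φ) := by rw [hcφ]
  rw [← mul_assoc, ← C_mul, inv_mul_cancel₀ hδ, C_1, one_mul, ← mul_assoc, ← C_mul] at h5
  rw [div_eq_inv_mul]
  exact h5

end

end Pool.Agent.Helper730_PP
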