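import Pool.Agent.Helper730_PP.Balanced
import Pool.Agent.Helper730_PP.Bad

/-!
# One robustly bad balanced plant refutes generic pole placement (all `m` and `p`)
-/

open Polynomial Matrix

namespace Pool.Agent.Helper730_PP

noncomputable section

theorem det_stack_mul {m p : ℕ} (P₂ : PolyMat m (m + p)) (T : Matrix (Fin p) (Fin p) ℝ[X])
    (Q : PolyMat p (m + p)) : (stack P₂ (T * Q)).det = T.det * (stack P₂ Q).det := by
  set M : Matrix (Fin (m + p)) (Fin (m + p)) ℝ[X] :=
    (Matrix.fromBlocks (1 : Matrix (Fin m) (Fin m) ℝ[X]) 0 0 T).submatrix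
      (finSumFinEquiv (m := m) (n := p)).symm (finSumFinEquiv (m := m) (n := p)).symm with hM
  have hdet : M.det = T.det := by
    rw [hM, Matrix.det_submatrix_equiv_self, Matrix.det_fromBlocks_zero₂₁, Matrix.det_one, one_mul]
  have hmul : stack P₂ (T * Q) = M * stack P₂ Q := by
    refine Matrix.ext fun i j => ?_
    rw [Matrix.mul_apply, Fin.sum_univ_add]
    refine Fin.addCases (fun i => ?_) (fun i => ?_) i
    · rw [stack_castAdd, hM]
      simp only [Matrix.submatrix_apply, finSumFinEquiv_symm_apply_castAdd,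
        finSumFinEquiv_symm_apply_natAdd, Matrix.fromBlocks_apply₁₁, Matrix.fromBlocks_apply₁₂,
        Matrix.zero_apply, zero_mul, Finset.sum_const_zero, add_zero, stack_castAdd]
      rw [Finset.sum_eq_single i]
      · rw [Matrix.one_apply_eq, one_mul]
      · intro b _ hb
        rw [Matrix.one_apply_ne (Ne.symm hb), zero_mul]
      · intro h; exact absurd (Finset.mem_univ _) h
    · rw [stack_natAdd, hM]
      simp only [Matrix.submatrix_apply, finSumFinEquiv_symm_apply_castAdd,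
        finSumFinEquiv_symm_apply_natAdd, Matrix.fromBlocks_apply₂₁, Matrix.fromBlocks_apply₂₂,
        Matrix.zero_apply, zero_mul, Finset.sum_const_zero, zero_add, stack_natAdd]
      exact Matrix.mul_apply
  rw [hmul, Matrix.det_mul, hdet]

/-- The affine family of plants. -/
def aff {p N : ℕ} (Q0 Q' : Matrix (Fin p) (Fin N) ℝ[X]) (t : ℝ) : Matrix (Fin p) (Fin N) ℝ[X] :=
  Matrix.of fun i j => Q0 i j + C t * Q' i j

theorem not_generic_of_badG {m p n q : ℕ} (hp : 0 < p) (Q0 : PolyMat p (m + p)) (φ : ℝ[X])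
    (hφ : φ.natDegree = n + q) (hQ0 : ∀ i j, (Q0 i j).natDegree ≤ bal p n i)
    (hbad : ∀ Q' : PolyMat p (m + p), (∀ i j, (Q' i j).natDegree ≤ bal p n i) →
      ∃ ε : ℝ, 0 < ε ∧ ∀ t : ℝ, 0 < t → t < ε → ∀ P₂ : PolyMat m (m + p),
        HasMcMillanDegree P₂ q → ∀ c : ℝ, c ≠ 0 → (stack P₂ (aff Q0 Q' t)).det ≠ C c * φ) :
    ¬ GenericRealPolePlacement m p n q := by
  rintro ⟨S, hdense, hprop⟩
  obtain ⟨P, hP, hg, f, hfS, hf⟩ :=
    hdense ((genMat m p n (n / p)).det * (genMat m p n (n / p + 1)).det)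
      ⟨refP m p n, refP_mem m p n hp, by
        have hd : ∀ i j, (refP m p n i j).natDegree ≤ n := fun i j =>
          (refP_deg m p n i j).trans (bal_le_n p n i)
        rw [map_mul, genPoly_eval hd, genPoly_eval hd]
        exact mul_ne_zero (genAt_refP m p n _) (genAt_refP m p n _)⟩
  rw [map_mul, genPoly_eval hP.1, genPoly_eval hP.1] at hg
  obtain ⟨T, Q, hT, hPQ, hQ, hTdeg⟩ := exists_balanced hp hP (left_ne_zero_of_mul hg)
    (right_ne_zero_of_mul hg)
  obtain ⟨δ, hδ0, hδ⟩ : ∃ δ : ℝ, δ ≠ 0 ∧ T.det = C δ := by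
    obtain ⟨δ, hδ, h⟩ := Polynomial.isUnit_iff.mp hT
    exact ⟨δ, hδ.ne_zero, h.symm⟩
  set Q' : PolyMat p (m + p) := Matrix.of fun i j => Q i j - Q0 i j with hQ'
  have hQ'deg : ∀ i j, (Q' i j).natDegree ≤ bal p n i := fun i j =>
    (natDegree_sub_le _ _).trans (max_le (hQ i j) (hQ0 i j))
  obtain ⟨ε, hε, hbadε⟩ := hbad Q' hQ'deg
  set Pt : ℝ → PolyMat p (m + p) := fun t => T * aff Q0 Q' t with hPt
  have haff_deg : ∀ t i j, (aff Q0 Q' t i j).natDegree ≤ bal p n i := fun t i j =>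
    (natDegree_add_le _ _).trans (max_le (hQ0 i j) ((natDegree_C_mul_le _ _).trans (hQ'deg i j)))
  have hPt_deg : ∀ t i j, (Pt t i j).natDegree ≤ n := by
    intro t i j
    show ((T * aff Q0 Q' t) i j).natDegree ≤ n
    rw [Matrix.mul_apply]
    refine natDegree_sum_le_of_forall_le _ _ fun l _ => ?_
    rcases hTdeg i l with h | h
    · rw [h]; simp
    · have := haff_deg t l j
      exact natDegree_mul_le.trans (by omega)
  have haff1 : aff Q0 Q' 1 = Q := by
    refine Matrix.ext fun i j => ?_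
    show Q0 i j + C 1 * (Q i j - Q0 i j) = Q i j
    rw [C_1]; ring
  have hP1 : Pt 1 = P := by
    rw [hPt]
    simp only [haff1]
    exact hPQ.symm
  have hlin : ∀ t i j, Pt t i j = Pt 0 i j + C t * (Pt 1 i j - Pt 0 i j) := by
    intro t i j
    show (T * aff Q0 Q' t) i j = (T * aff Q0 Q' 0) i j
      + C t * ((T * aff Q0 Q' 1) i j - (T * aff Q0 Q' 0) i j)
    rw [Matrix.mul_apply, Matrix.mul_apply, Matrix.mul_apply, ← Finset.sum_sub_distrib,
      Finset.mul_sum, ← Finset.sum_add_distrib]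
    refine Finset.sum_congr rfl fun l _ => ?_
    unfold aff
    simp only [Matrix.of_apply, C_0, C_1]
    ring
  have hcv : ∀ t x, coeffVec n (Pt t) x
      = coeffVec n (Pt 0) x + t * (coeffVec n (Pt 1) x - coeffVec n (Pt 0) x) := by
    intro t ⟨i, j, k⟩
    show (Pt t i j).coeff k = (Pt 0 i j).coeff k + t * ((Pt 1 i j).coeff k - (Pt 0 i j).coeff k)
    rw [hlin, coeff_add, coeff_C_mul, coeff_sub]
  set F : ℝ[X] := MvPolynomial.aeval (fun x => (C (coeffVec n (Pt 0) x)
    + X * C (coeffVec n (Pt 1) x - coeffVec n (Pt 0) x) : ℝ[X])) f with hF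
  have hFt : ∀ t, F.eval t = MvPolynomial.eval (coeffVec n (Pt t)) f := by
    intro t
    rw [hF, eval_line]
    congr 2
    funext x
    exact (hcv t x).symm
  have hF1 : F.eval 1 ≠ 0 := by rw [hFt, hP1]; exact hf
  -- the McMillan degree along the family
  have hminor : ∀ t e, fullMinor (Pt t) e = C δ * fullMinor (aff Q0 Q' t) e := by
    intro t e
    unfold fullMinor
    rw [← hδ, ← Matrix.det_mul]
    rfl
  obtain ⟨-, -, e, he, hen⟩ := hP
  have hminor_deg : ∀ t e, (fullMinor (Pt t) e).natDegree ≤ n := by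
    intro t e
    rw [hminor]
    refine (natDegree_C_mul_le _ _).trans ?_
    have := fullMinor_deg_le (haff_deg t) e
    rwa [sum_bal p n hp] at this
  set G : ℝ[X] := (Matrix.of fun i j : Fin p => (C ((Q0 i (e j)).coeff (bal p n i))
    + X * C ((Q' i (e j)).coeff (bal p n i)) : ℝ[X])).det with hG
  have hGt : ∀ t, (fullMinor (Pt t) e).coeff n = δ * G.eval t := by
    intro t
    rw [hminor, coeff_C_mul]
    congr 1
    have h1 := (det_coeff_sum ((aff Q0 Q' t).submatrix id e) (bal p n)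
      fun i j => haff_deg t i (e j)).2
    rw [sum_bal p n hp] at h1
    unfold fullMinor
    rw [h1, hG]
    have h2 : ∀ (A : Matrix (Fin p) (Fin p) ℝ[X]), A.det.eval t = (A.map (eval t)).det := by
      intro A
      have := RingHom.map_det (evalRingHom t) A
      exact this
    rw [h2]
    congr 1
    refine Matrix.ext fun i j => ?_
    simp only [Matrix.map_apply, Matrix.of_apply, Matrix.submatrix_apply, id, aff, coeff_add,
      coeff_C_mul, eval_add, eval_C, eval_mul, eval_X]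
  have hG1' : G.eval 1 ≠ 0 := by
    intro h
    have h2 := hGt 1
    rw [h, mul_zero, hP1, ← hen] at h2
    exact he (leadingCoeff_eq_zero.mp h2)
  have hFG : F * G ≠ 0 := by
    intro h
    have := congrArg (eval 1) h
    rw [eval_mul, eval_zero] at this
    exact (mul_ne_zero hF1 hG1') this
  obtain ⟨t, ht, htr⟩ : ∃ t ∈ Set.Ioo (0 : ℝ) ε, t ∉ (F * G).roots.toFinset :=
    (Set.Ioo_infinite hε).exists_notMem_finset _
  have ht0 : (F * G).eval t ≠ 0 := by
    intro h
    apply htr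
    rw [Multiset.mem_toFinset, mem_roots hFG]
    exact h
  rw [eval_mul] at ht0
  have htF : F.eval t ≠ 0 := left_ne_zero_of_mul ht0
  have htG : G.eval t ≠ 0 := right_ne_zero_of_mul ht0
  have hmemt : Pt t ∈ coeffSpace m p n := by
    refine ⟨hPt_deg t, hminor_deg t, e, ?_⟩
    have hc : (fullMinor (Pt t) e).coeff n ≠ 0 := by
      rw [hGt]; exact mul_ne_zero hδ0 htG
    refine ⟨?_, le_antisymm (hminor_deg t e) (le_natDegree_of_ne_zero hc)⟩
    intro h
    rw [h, coeff_zero] at hc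
    exact hc rfl
  obtain ⟨P₂, hP₂, -, c, hc, hcφ⟩ := hprop (Pt t) hmemt ⟨f, hfS, by rw [← hFt]; exact htF⟩ φ hφ
  have hPtt : Pt t = T * aff Q0 Q' t := rfl
  rw [hPtt, det_stack_mul, hδ] at hcφ
  refine hbadε t ht.1 ht.2 P₂ hP₂ (c / δ) (div_ne_zero hc hδ0) ?_
  have h5 : C δ⁻¹ * (C δ * (stack P₂ (aff Q0 Q' t)).det) = C δ⁻¹ * (C c * φ) := by rw [hcφ]
  rw [← mul_assoc, ← C_mul, inv_mul_cancel₀ hδ0, C_1, one_mul, ← mul_assoc, ← C_mul] at h5
  rw [div_eq_inv_mul]
  exact h5

end

end Pool.Agent.Helper730_PP
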