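import Pool.Agent.Helper730_PP.RowRed

/-!
# Balanced row reduction of generic points of the coefficient space
-/

open Polynomial Matrix

namespace Pool.Agent.Helper730_PP

noncomputable section

theorem exists_minor_ne_zero {F : Type} [Field F] {p N : ℕ} (L : Matrix (Fin p) (Fin N) F)
    (h : ∀ α : Fin p → F, (∀ j, ∑ i, α i * L i j = 0) → α = 0) :
    ∃ e : Fin p → Fin N, (L.submatrix id e).det ≠ 0 := by
  set v : Fin N → (Fin p → F) := fun j i => L i j with hv
  obtain ⟨κ, a, hainj, hspan, hli⟩ := exists_linearIndependent' F v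
  have hspanv : Submodule.span F (Set.range v) = ⊤ := by
    by_contra hne
    obtain ⟨f, hf0, hf⟩ := Submodule.exists_le_ker_of_lt_top _ (lt_top_iff_ne_top.mpr hne)
    apply hf0
    have h1 : (fun i => f (Pi.single i 1)) = (0 : Fin p → F) := by
      apply h
      intro j
      have h2 : f (v j) = 0 := by
        have := hf (Submodule.subset_span (Set.mem_range_self j))
        simpa using this
      rw [← h2]
      conv_rhs => rw [LinearMap.pi_apply_eq_sum_univ f (v j)]
      refine Finset.sum_congr rfl fun i _ => ?_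
      rw [smul_eq_mul, hv, mul_comm]
      congr 2
      funext k
      rw [Pi.single_apply]
      simp [eq_comm]
    ext i
    simpa using congrFun h1 i
  have hfin : Finite κ := Finite.of_injective a hainj
  let _ : Fintype κ := Fintype.ofFinite κ
  have hcard : Fintype.card κ = Fintype.card (Fin p) := by
    have h1 := Module.finrank_eq_card_basis (Module.Basis.mk hli (by rw [hspan, hspanv]))
    rw [Module.finrank_fintype_fun_eq_card] at h1
    exact h1.symm
  obtain ⟨e⟩ : Nonempty (Fin p ≃ κ) := ⟨Fintype.equivOfCardEq hcard.symm⟩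
  refine ⟨fun i => a (e i), ?_⟩
  intro h0
  obtain ⟨w, hw, hw0⟩ := Matrix.exists_mulVec_eq_zero_iff.mpr h0
  apply hw
  have h1 : ∑ s, w s • (v ∘ a) (e s) = 0 := by
    rw [← hw0]
    funext r
    simp only [Matrix.mulVec, dotProduct, Finset.sum_apply, Pi.smul_apply, smul_eq_mul]
    exact Finset.sum_congr rfl fun s _ => mul_comm _ _
  have h2 : ∑ x, w (e.symm x) • (v ∘ a) x = 0 := by
    rw [← h1, ← Equiv.sum_comp e]
    exact Finset.sum_congr rfl fun s _ => by rw [Equiv.symm_apply_apply]
  have h3 := Fintype.linearIndependent_iff.mp hli (fun x => w (e.symm x)) h2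
  funext s
  have h4 := h3 (e s)
  simpa using h4

/-- The balanced row degrees. -/
def bal (p n : ℕ) (i : Fin p) : ℕ := (n + i) / p

theorem bal_ge (p n : ℕ) (i : Fin p) : n / p ≤ bal p n i :=
  Nat.div_le_div_right (Nat.le_add_right _ _)

theorem bal_le (p n : ℕ) (i : Fin p) : bal p n i ≤ n / p + 1 := by
  unfold bal
  have hp : 0 < p := i.pos
  rw [← Nat.add_div_right _ hp]
  exact Nat.div_le_div_right (by have := i.2; omega)

theorem bal_eq (p n : ℕ) (i : Fin p) :
    bal p n i = n / p + if (i : ℕ) < p - n % p then 0 else 1 := by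
  have hp : 0 < p := i.pos
  have h1 := Nat.mod_add_div n p
  have h2 := Nat.mod_lt n hp
  have hi := i.2
  unfold bal
  split_ifs with h
  · rw [Nat.add_zero]
    have : n + i = (n % p + i) + p * (n / p) := by omega
    rw [this, Nat.add_mul_div_left _ _ hp, Nat.div_eq_of_lt (by omega), Nat.zero_add]
  · have : n + i = (n % p + i - p) + p * (n / p + 1) := by
      rw [Nat.mul_add, Nat.mul_one]; omega
    rw [this, Nat.add_mul_div_left _ _ hp, Nat.div_eq_of_lt (by omega), Nat.zero_add]

theorem card_bal (p n : ℕ) (hp : 0 < p) :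
    (Finset.univ.filter fun i : Fin p => bal p n i = n / p).card = p - n % p := by
  have h1 : (Finset.univ.filter fun i : Fin p => bal p n i = n / p)
      = Finset.univ.filter fun i : Fin p => (i : ℕ) < p - n % p := by
    ext i
    simp only [Finset.mem_filter, Finset.mem_univ, true_and]
    rw [bal_eq]
    split_ifs with h
    · simp [h]
    · simp [h]
  rw [h1]
  have h2 := Nat.mod_lt n hp
  rw [Fin.card_filter_val_lt]
  omega

theorem sum_bal (p n : ℕ) (hp : 0 < p) : ∑ i, bal p n i = n := by
  have h1 : ∀ i : Fin p, bal p n i = n / p + if bal p n i = n / p then 0 else 1 := by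
    intro i
    have h1 := bal_ge p n i
    have h2 := bal_le p n i
    split_ifs with h <;> omega
  rw [Finset.sum_congr rfl fun i _ => h1 i, Finset.sum_add_distrib, Finset.sum_const,
    Finset.card_univ, Fintype.card_fin, Finset.sum_ite, Finset.sum_const_zero, zero_add,
    Finset.sum_const, smul_eq_mul, smul_eq_mul, mul_one]
  have h2 := Finset.card_filter_add_card_filter_not (s := (Finset.univ : Finset (Fin p)))
    (fun i => bal p n i = n / p)
  rw [card_bal p n hp, Finset.card_univ, Fintype.card_fin] at h2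
  have h3 := Nat.mod_lt n hp
  have h4 := Nat.mod_add_div n p
  omega

/-- The inclusion of the first `p` columns. -/
def colIdx (m p : ℕ) (j : Fin p) : Fin (m + p) := ⟨j, by have := j.2; omega⟩

/-- The positions `(i, l)` with `κ ≤ bal i + l`. -/
abbrev Allowed (p n κ : ℕ) : Type := {x : Fin p × Fin (p * n + 1) // κ ≤ bal p n x.1 + x.2}

/-- The matrix, in terms of the coefficients of `P`, of the map sending `z` (supported on allowed
positions) to the coefficients of index `≥ κ` of the first `p` columns of `z P`. -/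
def genMat (m p n κ : ℕ) : Matrix (Allowed p n κ) (Allowed p n κ)
    (MvPolynomial (CoeffIdx m p n) ℝ) :=
  Matrix.of fun x y =>
    if h : (y.1.2 : ℕ) ≤ bal p n x.1.1 + x.1.2 ∧ bal p n x.1.1 + x.1.2 - y.1.2 ≤ n then
      MvPolynomial.X (y.1.1, colIdx m p x.1.1,
        ⟨bal p n x.1.1 + x.1.2 - y.1.2, Nat.lt_succ_of_le h.2⟩) else 0

/-- The matrix at a given `P`. -/
def genAt {m p : ℕ} (n κ : ℕ) (P : PolyMat p (m + p)) :
    Matrix (Allowed p n κ) (Allowed p n κ) ℝ :=
  Matrix.of fun x y => (X ^ (y.1.2 : ℕ) * P y.1.1 (colIdx m p x.1.1)).coeff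
    (bal p n x.1.1 + x.1.2)

theorem genMat_eval {m p n κ : ℕ} {P : PolyMat p (m + p)} (hP : ∀ i j, (P i j).natDegree ≤ n) :
    (genMat m p n κ).map (MvPolynomial.eval (coeffVec n P)) = genAt n κ P := by
  refine Matrix.ext fun x y => ?_
  simp only [Matrix.map_apply, genMat, genAt, Matrix.of_apply]
  rw [coeff_X_pow_mul']
  by_cases h1 : (y.1.2 : ℕ) ≤ bal p n x.1.1 + x.1.2
  · rw [if_pos h1]
    by_cases h2 : bal p n x.1.1 + x.1.2 - y.1.2 ≤ n
    · rw [dif_pos ⟨h1, h2⟩, MvPolynomial.eval_X]
      rfl
    · rw [dif_neg (fun h => h2 h.2), map_zero]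
      rw [coeff_eq_zero_of_natDegree_lt (lt_of_le_of_lt (hP _ _) (by omega))]
  · rw [if_neg h1, dif_neg (fun h => h1 h.1), map_zero]

theorem genPoly_eval {m p n κ : ℕ} {P : PolyMat p (m + p)} (hP : ∀ i j, (P i j).natDegree ≤ n) :
    MvPolynomial.eval (coeffVec n P) (genMat m p n κ).det = (genAt n κ P).det := by
  rw [RingHom.map_det, RingHom.mapMatrix_apply, genMat_eval hP]

/-- Injectivity when the determinant does not vanish. -/
theorem inj_of_gen {m p n κ : ℕ} {P : PolyMat p (m + p)} (hg : (genAt n κ P).det ≠ 0)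
    (z : Fin p → ℝ[X]) (hz : ∀ i, (z i).natDegree ≤ p * n)
    (hz0 : ∀ (i : Fin p) (l : ℕ), bal p n i + l < κ → (z i).coeff l = 0)
    (h : ∀ j k, κ ≤ k → (∑ i, z i * P i j).coeff k = 0) : z = 0 := by
  set x : Allowed p n κ → ℝ := fun y => (z y.1.1).coeff y.1.2 with hx
  have h0 : genAt n κ P *ᵥ x = 0 := by
    funext y
    simp only [Matrix.mulVec, dotProduct, genAt, Matrix.of_apply, Pi.zero_apply]
    have h1 := h (colIdx m p y.1.1) (bal p n y.1.1 + y.1.2) y.2
    rw [← h1, finsetSum_coeff]
    have h2 : ∀ i, z i = ∑ l : Fin (p * n + 1), C ((z i).coeff l) * X ^ (l : ℕ) := by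
      intro i
      conv_lhs => rw [(z i).as_sum_range' (p * n + 1) (Nat.lt_succ_of_le (hz i))]
      rw [Finset.sum_range]
      exact Finset.sum_congr rfl fun l _ => by rw [C_mul_X_pow_eq_monomial]
    have h3 : ∀ i, (z i * P i (colIdx m p y.1.1)).coeff (bal p n y.1.1 + y.1.2)
        = ∑ l : Fin (p * n + 1), (X ^ (l : ℕ) * P i (colIdx m p y.1.1)).coeff
          (bal p n y.1.1 + y.1.2) * (z i).coeff l := by
      intro i
      conv_lhs => rw [h2 i]
      rw [Finset.sum_mul, finsetSum_coeff]
      refine Finset.sum_congr rfl fun l _ => ?_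
      rw [mul_assoc, coeff_C_mul, mul_comm]
    rw [Finset.sum_congr rfl fun i _ => h3 i]
    set F : Fin p × Fin (p * n + 1) → ℝ := fun w =>
      (X ^ (w.2 : ℕ) * P w.1 (colIdx m p y.1.1)).coeff (bal p n y.1.1 + y.1.2)
        * (z w.1).coeff w.2 with hF
    have e1 : ∑ w : Allowed p n κ, F w.1
        = ∑ w ∈ Finset.univ.filter (fun w : Fin p × Fin (p * n + 1) => κ ≤ bal p n w.1 + w.2),
          F w := (Finset.sum_subtype _ (by simp) F).symm
    have e2 : ∑ w ∈ Finset.univ.filter
        (fun w : Fin p × Fin (p * n + 1) => κ ≤ bal p n w.1 + w.2), F w = ∑ w, F w := by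
      refine Finset.sum_subset (Finset.filter_subset _ _) fun w _ hw => ?_
      rw [Finset.mem_filter] at hw
      rw [hF]
      simp only
      rw [hz0 w.1 w.2 (by
        by_contra hc
        exact hw ⟨Finset.mem_univ _, by omega⟩), mul_zero]
    have e3 : ∑ w, F w = ∑ i, ∑ l, F (i, l) := Fintype.sum_prod_type F
    exact e1.trans (e2.trans e3)
  have h1 : x = 0 := Matrix.eq_zero_of_mulVec_eq_zero hg h0
  funext i
  ext l
  simp only [Pi.zero_apply, coeff_zero]
  by_cases hl : bal p n i + l < κ
  · exact hz0 i l hl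
  · by_cases hl2 : l ≤ p * n
    · exact congrFun h1 ⟨(i, ⟨l, by omega⟩), by simp only; omega⟩
    · exact coeff_eq_zero_of_natDegree_lt (lt_of_le_of_lt (hz i) (by omega))

/-- The reference point with entries `x ^ bal i` on the diagonal. -/
def refP (m p n : ℕ) : PolyMat p (m + p) :=
  Matrix.of fun i => Pi.single (colIdx m p i) (X ^ bal p n i)

theorem colIdx_injective (m p : ℕ) : Function.Injective (colIdx m p) := fun i j h => by
  have h1 : (colIdx m p i).1 = (colIdx m p j).1 := by rw [h]
  exact Fin.ext h1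

theorem refP_apply (m p n : ℕ) (i j : Fin p) :
    refP m p n i (colIdx m p j) = if i = j then X ^ bal p n i else 0 := by
  show (Pi.single (colIdx m p i) (X ^ bal p n i) : Fin (m + p) → ℝ[X]) (colIdx m p j) = _
  rw [Pi.single_apply]
  by_cases h : i = j
  · rw [if_pos h, if_pos (by rw [h])]
  · rw [if_neg h, if_neg (fun h' => h (colIdx_injective m p h').symm)]

theorem refP_deg (m p n : ℕ) (i : Fin p) (j : Fin (m + p)) :
    (refP m p n i j).natDegree ≤ bal p n i := by
  show ((Pi.single (colIdx m p i) (X ^ bal p n i) : Fin (m + p) → ℝ[X]) j).natDegree ≤ _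
  rw [Pi.single_apply]
  split_ifs <;> simp

theorem bal_le_n (p n : ℕ) (i : Fin p) : bal p n i ≤ n := by
  have hp : 0 < p := i.pos
  have h1 := Finset.single_le_sum (f := bal p n) (fun _ _ => Nat.zero_le _) (Finset.mem_univ i)
  rwa [sum_bal p n hp] at h1

theorem fullMinor_deg_le {m p : ℕ} {P : PolyMat p (m + p)} {d : Fin p → ℕ}
    (hd : ∀ i j, (P i j).natDegree ≤ d i) (e : Fin p → Fin (m + p)) :
    (fullMinor P e).natDegree ≤ ∑ i, d i :=
  (det_coeff_sum _ d fun i j => hd i (e j)).1

theorem refP_mem (m p n : ℕ) (hp : 0 < p) : refP m p n ∈ coeffSpace m p n := by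
  refine ⟨fun i j => (refP_deg m p n i j).trans (bal_le_n p n i), fun e => ?_, colIdx m p, ?_⟩
  · have := fullMinor_deg_le (refP_deg m p n) e
    rwa [sum_bal p n hp] at this
  · have h1 : (refP m p n).submatrix id (colIdx m p) = Matrix.diagonal fun i => X ^ bal p n i := by
      refine Matrix.ext fun i j => ?_
      rw [Matrix.submatrix_apply, id, refP_apply, Matrix.diagonal_apply]
    have h2 : fullMinor (refP m p n) (colIdx m p) = X ^ n := by
      unfold fullMinor
      rw [h1, Matrix.det_diagonal, Finset.prod_pow_eq_pow_sum, sum_bal p n hp]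
    rw [h2]
    exact ⟨pow_ne_zero _ X_ne_zero, natDegree_X_pow n⟩

theorem genAt_refP (m p n κ : ℕ) : (genAt n κ (refP m p n)).det ≠ 0 := by
  have h1 : genAt n κ (refP m p n) = 1 := by
    refine Matrix.ext fun x y => ?_
    simp only [genAt, Matrix.of_apply]
    rw [refP_apply, Matrix.one_apply]
    by_cases h : y.1.1 = x.1.1
    · rw [if_pos h, ← pow_add, coeff_X_pow, h]
      by_cases h2 : x = y
      · rw [if_pos h2, if_pos (by rw [h2]; ring)]
      · rw [if_neg h2, if_neg]
        intro h3
        apply h2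
        apply Subtype.ext
        apply Prod.ext
        · exact h.symm
        · apply Fin.ext
          omega
    · rw [if_neg h, mul_zero, coeff_zero, if_neg]
      intro h2
      exact h (by rw [h2])
  rw [h1, Matrix.det_one]
  exact one_ne_zero

/-- Balanced row reduction. -/
theorem exists_balanced {m p n : ℕ} (hp : 0 < p) {P : PolyMat p (m + p)}
    (hP : P ∈ coeffSpace m p n) (hg1 : (genAt n (n / p) P).det ≠ 0)
    (hg2 : (genAt n (n / p + 1) P).det ≠ 0) :
    ∃ (T : Matrix (Fin p) (Fin p) ℝ[X]) (Q : PolyMat p (m + p)), IsUnit T.det ∧ P = T * Q ∧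
      (∀ i j, (Q i j).natDegree ≤ bal p n i) ∧
      (∀ i j, T i j = 0 ∨ (T i j).natDegree + bal p n j ≤ n) := by
  obtain ⟨hdeg, hmin, e, he, hen⟩ := hP
  obtain ⟨T, Q, d, hT, hPQ, hQ, hred⟩ := rowredG (p * n) P (fun _ => n) (by simp) hdeg ⟨e, he⟩
  have hTdeg : ∀ i j, T i j = 0 ∨ (T i j).natDegree + d j ≤ n := by
    intro i
    refine predictableG hQ hred (T i) fun j => ?_
    have h1 := hdeg i j
    rw [hPQ, Matrix.mul_apply] at h1
    exact h1
  -- the degree sum
  obtain ⟨δ, hδ0, hδ⟩ : ∃ δ : ℝ, δ ≠ 0 ∧ T.det = C δ := by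
    obtain ⟨δ, hδ, h⟩ := Polynomial.isUnit_iff.mp hT
    exact ⟨δ, hδ.ne_zero, h.symm⟩
  have hsum : ∑ i, d i ≤ n := by
    obtain ⟨e', he'⟩ := exists_minor_ne_zero (Matrix.of fun i j => (Q i j).coeff (d i)) hred
    have h1 := (det_coeff_sum (Q.submatrix id e') d fun i j => hQ i (e' j)).2
    have h2 : fullMinor P e' = C δ * (Q.submatrix id e').det := by
      unfold fullMinor
      rw [← hδ, ← Matrix.det_mul]
      congr 1
      rw [hPQ]
      ext i j; simp [Matrix.mul_apply]
    have h3 : (fullMinor P e').coeff (∑ i, d i) ≠ 0 := by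
      rw [h2, coeff_C_mul, h1]
      exact mul_ne_zero hδ0 he'
    exact (le_natDegree_of_ne_zero h3).trans (hmin e')
  -- rows of the inverse
  have hinv : T⁻¹ * P = Q := by
    rw [hPQ, ← Matrix.mul_assoc, Matrix.nonsing_inv_mul _ hT, Matrix.one_mul]
  have hinvdeg : ∀ i j, (T⁻¹ i j).natDegree ≤ p * n := by
    intro i j
    have h1 : T⁻¹ = C δ⁻¹ • T.adjugate := by
      rw [Matrix.inv_def, hδ]
      congr 1
      rw [Ring.inverse_of_isUnit (by rw [← hδ]; exact hT)]
      have : IsUnit (C δ : ℝ[X]) := by rw [← hδ]; exact hT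
      apply (Units.eq_inv_of_mul_eq_one_left _).symm
      rw [IsUnit.unit_spec, ← C_mul, mul_inv_cancel₀ hδ0, C_1]
    rw [h1, Matrix.smul_apply, smul_eq_mul]
    refine (natDegree_C_mul_le _ _).trans ?_
    rw [Matrix.adjugate_apply]
    have h2 := (det_coeff_sum (T.updateRow j (Pi.single i 1)) (fun _ => n) ?_).1
    · simpa using h2
    · intro a b
      by_cases hab : a = j
      · rw [hab, Matrix.updateRow_self, Pi.single_apply]
        split_ifs <;> simp
      · rw [Matrix.updateRow_ne hab]
        rcases hTdeg a b with h | h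
        · rw [h]; simp
        · omega
  have hQrow : ∀ (α : Fin p → ℝ) (j : Fin (m + p)),
      ∑ i, (∑ l, C (α l) * T⁻¹ l i) * P i j = ∑ l, C (α l) * Q l j := by
    intro α j
    have h1 : ∀ l, Q l j = ∑ i, T⁻¹ l i * P i j := fun l => by
      conv_lhs => rw [← hinv]
      rw [Matrix.mul_apply]
    have h3 : ∑ l, C (α l) * Q l j = ∑ l, ∑ i, C (α l) * (T⁻¹ l i * P i j) :=
      Finset.sum_congr rfl fun l _ => by rw [h1 l, Finset.mul_sum]
    rw [h3, Finset.sum_comm]
    refine Finset.sum_congr rfl fun i _ => ?_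
    rw [Finset.sum_mul]
    exact Finset.sum_congr rfl fun l _ => by rw [mul_assoc]
  have hcomb0 : ∀ α : Fin p → ℝ, (fun i => ∑ l, C (α l) * T⁻¹ l i) = 0 → α = 0 := by
    intro α h
    have h1 : (fun l => C (α l)) ᵥ* T⁻¹ = 0 := by
      funext i
      exact congrFun h i
    have h2 : ((fun l => C (α l)) ᵥ* T⁻¹) ᵥ* T = (fun l => C (α l)) := by
      rw [Matrix.vecMul_vecMul, Matrix.nonsing_inv_mul _ hT, Matrix.vecMul_one]
    rw [h1, Matrix.zero_vecMul] at h2
    funext l
    have := congrFun h2 l
    simpa using this.symm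
  -- all degrees are at least `n / p`
  have hlow : ∀ i, n / p ≤ d i := by
    intro i0
    by_contra hlt
    push Not at hlt
    have h1 : (Pi.single i0 1 : Fin p → ℝ) = 0 := by
      apply hcomb0
      refine inj_of_gen hg1 _ ?_ ?_ ?_
      · intro i
        refine natDegree_sum_le_of_forall_le _ _ fun l _ => ?_
        exact (natDegree_C_mul_le _ _).trans (hinvdeg l i)
      · intro i l hl
        have := bal_ge p n i
        omega
      · intro j k hk
        rw [hQrow]
        have h2 : ∑ l, C ((Pi.single i0 1 : Fin p → ℝ) l) * Q l j = Q i0 j := by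
          rw [Finset.sum_eq_single i0]
          · simp
          · intro b _ hb; simp [Pi.single_eq_of_ne hb]
          · intro h; exact absurd (Finset.mem_univ _) h
        rw [h2]
        exact coeff_eq_zero_of_natDegree_lt (lt_of_le_of_lt (hQ i0 j) (by omega))
    have h2 := congrFun h1 i0
    simp at h2
  -- at most `p - n % p` degrees are equal to `n / p`
  have hcard : Fintype.card {i : Fin p // d i = n / p}
      ≤ Fintype.card {i : Fin p // bal p n i = n / p} := by
    by_contra hlt
    push Not at hlt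
    set B : Matrix {i : Fin p // bal p n i = n / p} {i : Fin p // d i = n / p} ℝ :=
      Matrix.of fun j i => (T⁻¹ i.1 j.1).coeff 0 with hB
    obtain ⟨w, hw, hw0⟩ : ∃ w ≠ 0, B *ᵥ w = 0 := by
      have h1 : ¬ Function.Injective B.mulVecLin := by
        intro hinj
        have := LinearMap.finrank_le_finrank_of_injective hinj
        rw [Module.finrank_fintype_fun_eq_card, Module.finrank_fintype_fun_eq_card] at this
        omega
      rw [← LinearMap.ker_eq_bot, ← ne_eq, Submodule.ne_bot_iff] at h1
      obtain ⟨w, hw, hw0⟩ := h1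
      exact ⟨w, hw0, hw⟩
    apply hw
    set α : Fin p → ℝ := fun i => if h : d i = n / p then w ⟨i, h⟩ else 0 with hα
    have h1 : α = 0 := by
      apply hcomb0
      refine inj_of_gen hg2 _ ?_ ?_ ?_
      · intro i
        refine natDegree_sum_le_of_forall_le _ _ fun l _ => ?_
        exact (natDegree_C_mul_le _ _).trans (hinvdeg l i)
      · intro i l hl
        have h2 := bal_ge p n i
        have h3 : bal p n i = n / p := by omega
        have h4 : l = 0 := by omega
        subst h4
        have h5 := congrFun hw0 ⟨i, h3⟩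
        simp only [Matrix.mulVec, dotProduct, hB, Matrix.of_apply, Pi.zero_apply] at h5
        rw [finsetSum_coeff, ← h5]
        rw [← Finset.sum_subset (Finset.filter_subset (fun i => d i = n / p) Finset.univ)]
        · rw [Finset.sum_subtype (Finset.univ.filter fun i => d i = n / p)
            (p := fun i => d i = n / p) (by simp)]
          refine Finset.sum_congr rfl fun x _ => ?_
          rw [coeff_C_mul, hα]
          simp only
          rw [dif_pos x.2, mul_comm]
        · intro x _ hx
          have : ¬ d x = n / p := fun h => hx (by simpa using h)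
          rw [hα]
          simp only
          rw [dif_neg this]; simp
      · intro j k hk
        rw [hQrow, finsetSum_coeff]
        refine Finset.sum_eq_zero fun l _ => ?_
        rw [coeff_C_mul, hα]
        simp only
        by_cases h : d l = n / p
        · rw [coeff_eq_zero_of_natDegree_lt (lt_of_le_of_lt (hQ l j) (by omega)), mul_zero]
        · rw [dif_neg h, zero_mul]
    funext x
    have h2 := congrFun h1 x.1
    rw [hα] at h2
    simp only [dif_pos x.2, Pi.zero_apply] at h2
    simpa using h2
  -- the degrees are balanced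
  have hc1 : (Finset.univ.filter fun i : Fin p => d i = n / p).card
      ≤ (Finset.univ.filter fun i : Fin p => bal p n i = n / p).card := by
    rwa [Fintype.card_subtype, Fintype.card_subtype] at hcard
  rw [card_bal p n hp] at hc1
  have hmod := Nat.mod_lt n hp
  have hdiv := Nat.mod_add_div n p
  set s1 := Finset.univ.filter fun i : Fin p => d i = n / p with hs1
  have hlow2 : ∀ i, n / p + (if d i = n / p then 0 else 1) ≤ d i := by
    intro i
    have := hlow i
    split_ifs with h <;> omega
  have hsum2 : ∑ i, (n / p + (if d i = n / p then 0 else 1)) = p * (n / p) + (p - s1.card) := by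
    rw [Finset.sum_add_distrib, Finset.sum_const, Finset.card_univ, Fintype.card_fin,
      Finset.sum_ite, Finset.sum_const_zero, zero_add,
      Finset.sum_const, smul_eq_mul, smul_eq_mul, mul_one]
    have h2 := Finset.card_filter_add_card_filter_not (s := (Finset.univ : Finset (Fin p)))
      (fun i => d i = n / p)
    rw [Finset.card_univ, Fintype.card_fin, ← hs1] at h2
    omega
  have hge : ∑ i, (n / p + (if d i = n / p then 0 else 1)) ≤ ∑ i, d i :=
    Finset.sum_le_sum fun i _ => hlow2 i
  have hs1card : s1.card = p - n % p := by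
    have h1 : s1.card ≤ p := by
      have := Finset.card_le_univ s1
      rwa [Fintype.card_fin] at this
    have h2 : p * (n / p) + (p - s1.card) ≤ n := by
      rw [← hsum2]; exact hge.trans hsum
    omega
  have hdeq : ∀ i, d i = n / p + (if d i = n / p then 0 else 1) := by
    have h1 : ∑ i, d i = ∑ i, (n / p + (if d i = n / p then 0 else 1)) := by
      apply le_antisymm _ hge
      rw [hsum2]; omega
    intro i
    exact ((Finset.sum_eq_sum_iff_of_le fun i _ => hlow2 i).mp h1.symm i
      (Finset.mem_univ i)).symm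
  -- reorder
  have hcardeq : Fintype.card {i : Fin p // bal p n i = n / p}
      = Fintype.card {i : Fin p // d i = n / p} := by
    rw [Fintype.card_subtype, Fintype.card_subtype, card_bal p n hp, ← hs1, hs1card]
  set f : {i : Fin p // bal p n i = n / p} ≃ {i : Fin p // d i = n / p} :=
    Fintype.equivOfCardEq hcardeq with hf
  set σ : Equiv.Perm (Fin p) := f.extendSubtype with hσ
  have hσd : ∀ i, d (σ i) = bal p n i := by
    intro i
    by_cases h : bal p n i = n / p
    · rw [h]
      exact f.extendSubtype_mem i h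
    · have h1 : ¬ d (σ i) = n / p := f.extendSubtype_not_mem i h
      have h2 := hdeq (σ i)
      rw [if_neg h1] at h2
      have h3 := bal_ge p n i
      have h4 := bal_le p n i
      omega
  refine ⟨T.submatrix id σ, Q.submatrix σ id, ?_, ?_, ?_, ?_⟩
  · have h1 : (T.submatrix id σ).det = ((Equiv.Perm.sign σ : ℤˣ) : ℤ) * T.det :=
      Matrix.det_permute' σ T
    rw [h1]
    refine IsUnit.mul ?_ hT
    rcases Int.units_eq_one_or (Equiv.Perm.sign σ) with h | h <;> rw [h] <;> simp
  · rw [Matrix.submatrix_mul_equiv T Q id σ id, ← hPQ, Matrix.submatrix_id_id]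
  · intro i j
    rw [← hσd i]
    exact hQ (σ i) j
  · intro i j
    rw [← hσd j]
    exact hTdeg i (σ j)

end

end Pool.Agent.Helper730_PP
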