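import Mathlib

/-!
# The numerical inequality behind the parameter count
-/

namespace Pool.Agent.Helper730_PP

theorem trunc_sum {κ κ' : Type*} [Fintype κ'] (T : Finset κ) (f : κ → ℕ) (g : κ' → ℕ) :
    ((∑ i ∈ T, ∑ l, (f i - g l) : ℕ) : ℤ) = Fintype.card κ' * ∑ i ∈ T, (f i : ℤ)
      - T.card * ∑ l, (g l : ℤ) + ((∑ i ∈ T, ∑ l, (g l - f i) : ℕ) : ℤ) := by
  have key : ∀ x y : ℕ, ((x - y : ℕ) : ℤ) = x - y + ((y - x : ℕ) : ℤ) := by
    intro x y; omega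
  have h1 : ((∑ i ∈ T, ∑ l, (f i - g l) : ℕ) : ℤ)
      = ∑ i ∈ T, ∑ l, ((f i : ℤ) - g l + ((g l - f i : ℕ) : ℤ)) := by
    rw [Nat.cast_sum]
    refine Finset.sum_congr rfl fun i _ => ?_
    rw [Nat.cast_sum]
    exact Finset.sum_congr rfl fun l _ => key _ _
  have h2 : ((∑ i ∈ T, ∑ l, (g l - f i) : ℕ) : ℤ) = ∑ i ∈ T, ∑ l, ((g l - f i : ℕ) : ℤ) := by
    rw [Nat.cast_sum]
    exact Finset.sum_congr rfl fun i _ => Nat.cast_sum _ _
  rw [h1, h2]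
  simp only [Finset.sum_add_distrib, Finset.sum_sub_distrib, Finset.sum_const, Finset.card_univ,
    nsmul_eq_mul, Finset.mul_sum]

theorem sum_comp_le {κ κ' : Type*} [Fintype κ] [Fintype κ'] (f : κ → κ')
    (hf : Function.Injective f) (F : κ' → ℕ) : ∑ k, F (f k) ≤ ∑ k, F k := by
  classical
  rw [← Finset.sum_image (s := Finset.univ) (g := f) (f := F) fun a _ b _ h => hf h]
  exact Finset.sum_le_sum_of_subset (Finset.subset_univ _)

theorem numeric_int {a b e q Q n1 q0 Nν Lam W ST γ D N1 N2 N3 N4 N5 P1 P2 P3 P4 P5 P6 P7 P8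
    Eν Eh Eδ E1 E2 E3 : ℤ}
    (p1 : 0 ≤ (2 * a + 2 * b - 1) * (q - Q)) (p2 : 0 ≤ e * (a + e - b))
    (p3 : 0 ≤ (b - 1 - e) * γ) (p4 : 0 ≤ (a + e + 1 - 3 * b) * q0)
    (p5 : 0 ≤ (2 * a - 4 * b + 2 * e) * (Q - n1 - q0)) (p6 : 0 ≤ (2 * b - 1) * (Q - ST))
    (p7 : 0 ≤ (2 * b - 2 * e) * (Lam - Nν - γ - W))
    (h1 : N1 + 2 * P2 ≤ 2 * P1) (h2 : N2 ≤ 2 * γ)
    (h3 : N3 + 2 * P3 ≤ 2 * ((a + b) * (n1 + (2 * b - e)))) (h4 : N4 + P5 ≤ 2 * P4)
    (h5 : N5 ≤ 2 * P6 + P7 + P8) (e1 : E1 ≤ Eν) (e2 : E2 ≤ Eδ) (e3 : E3 ≤ e * n1 + Eh)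
    (t1 : P1 = b * (Nν + (b - 1)) - (b - 1) * W)
    (t2 : P2 = (b - 1) * (Nν + (b - 1)) - (b - 1) * Nν + Eν)
    (t3 : P3 = (2 * b - e) * (n1 + (2 * b - e)) - (2 * b - e) * n1 + Eh)
    (t4 : P4 = (2 * b - e) * (Q + 2 * b) - 2 * b * n1 + E3)
    (t5 : P5 = 2 * b * (Q + 2 * b) - 2 * b * Q + Eδ)
    (t6 : P6 = (b - 1) * (e * D + q0 + e) - e * Nν + E1)
    (t7 : P7 = (2 * b - 1) * ((2 * b - 2 * e) * D + ST + (2 * b - 2 * e))
      - (2 * b - 2 * e) * Lam + E2)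
    (t8 : P8 + 2 * b * n1 = 2 * (a - b + e) * (b * (D + 1) - W))
    (hD : (2 * (a + b) - 1) * q + 4 * (a * b) + 2 * W ≤ 2 * (b * D) + 1) :
    N1 + N2 + N3 + N4 + N5 < 2 * (a + b) * (b * (D + 1) - W) := by
  have t8' : P8 = 2 * (a - b + e) * (b * (D + 1) - W) - 2 * b * n1 := by linarith
  subst t1 t2 t3 t4 t5 t6 t7 t8'
  have k1 : N1 + N2 + N3 + N4 + N5 ≤ 2 * (b * (Nν + (b - 1)) - (b - 1) * W)
      - 2 * ((b - 1) * (Nν + (b - 1)) - (b - 1) * Nν + E1) + 2 * γ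
      + 2 * ((a + b) * (n1 + (2 * b - e)))
      - 2 * ((2 * b - e) * (n1 + (2 * b - e)) - (2 * b - e) * n1 + (E3 - e * n1))
      + 2 * ((2 * b - e) * (Q + 2 * b) - 2 * b * n1 + E3)
      - (2 * b * (Q + 2 * b) - 2 * b * Q + E2)
      + 2 * ((b - 1) * (e * D + q0 + e) - e * Nν + E1)
      + ((2 * b - 1) * ((2 * b - 2 * e) * D + ST + (2 * b - 2 * e)) - (2 * b - 2 * e) * Lam + E2)
      + (2 * (a - b + e) * (b * (D + 1) - W) - 2 * b * n1) := by linarith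
  refine lt_of_le_of_lt k1 ?_
  nlinarith [p1, p2, p3, p4, p5, p6, p7, hD]

theorem numeric {a b c e s ss q D γ : ℕ} {w : Fin b → ℕ} (hw : ∀ i, w i ≤ 1)
    {δ : Fin (2 * b) → ℕ} {δ0 : Fin e → ℕ} {h : Fin s → ℕ} {hs : Fin ss → ℕ}
    {ν : Fin (b - 1) → ℕ} {lam : Fin (2 * b - 1) → ℕ} {T : Finset (Fin (2 * b))}
    (hb : 0 < b) (hc : c = a + b) (hss : ss + s = c) (hse : s + e = 2 * b)
    (hT : 2 * e + T.card = 2 * b) (he : e ≤ b - 1) (ha : 3 * b ≤ a + 2) (ha2 : 2 * b ≤ a)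
    (hsum : ∑ i, hs i = ∑ i, h i) (hdeg : ∑ i, h i + ∑ i, δ0 i ≤ ∑ i, δ i)
    (hq : ∑ i, δ i ≤ q)
    (hν : ∀ (j : Fin e) (l : Fin (b - 1)), (l : ℕ) = j → ν l ≤ D + δ0 j)
    (hlam : ∀ (l : Fin (2 * b - 1)) (i : Fin (2 * b)), (i : ℕ) = l + 1 → lam l ≤ D + δ i)
    (hh : ∀ (j : Fin s) (i : Fin (2 * b)), (i : ℕ) = j + e → h j ≤ δ i)
    (hΛ : ∑ i, ν i + γ + ∑ i, w i ≤ ∑ i, lam i)
    (hD : (2 * c - 1) * q + 4 * (a * b) + 2 * ∑ i, w i ≤ 2 * (b * D) + 1)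
    {N1 N2 N3 N4 N5 : ℕ}
    (h1 : N1 + 2 * ∑ i, ∑ l, (ν i + 1 - ν l) ≤ 2 * ∑ i, ∑ l, (ν i + 1 - w l))
    (h2 : N2 ≤ 2 * γ)
    (h3 : N3 + 2 * ∑ i, ∑ l, (h i + 1 - h l) ≤ 2 * ∑ i, c * (h i + 1))
    (h4 : N4 + ∑ k, ∑ l, (δ k + 1 - δ l) ≤ ∑ k, 2 * ∑ j, (δ k + 1 - h j))
    (h5 : N5 ≤ ∑ j, 2 * ∑ l, (D + δ0 j + 1 - ν l) + ∑ k ∈ T, ∑ l, (D + δ k + 1 - lam l)
      + ∑ i, 2 * ∑ l, (D + 1 - w i - hs l)) :
    N1 + N2 + N3 + N4 + N5 < 2 * c * ∑ i, (D + 1 - w i) := by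
  -- excess terms
  set Eν : ℕ := ∑ i, ∑ l, (ν l - (ν i + 1)) with hEν
  set Eh : ℕ := ∑ i, ∑ l, (h l - (h i + 1)) with hEh
  set Eδ : ℕ := ∑ i, ∑ l, (δ l - (δ i + 1)) with hEδ
  set E1 : ℕ := ∑ j, ∑ l, (ν l - (D + δ0 j + 1)) with hE1
  set E2 : ℕ := ∑ k ∈ T, ∑ l, (lam l - (D + δ k + 1)) with hE2
  set E3 : ℕ := ∑ k, ∑ j, (h j - (δ k + 1)) with hE3
  have e1 : E1 ≤ Eν := by
    refine le_trans ?_ (sum_comp_le (Fin.castLE he) (Fin.castLE_injective he)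
      fun i => ∑ l, (ν l - (ν i + 1)))
    refine Finset.sum_le_sum fun j _ => Finset.sum_le_sum fun l _ => ?_
    have := hν j (Fin.castLE he j) rfl
    omega
  have e2 : E2 ≤ Eδ := by
    refine (Finset.sum_le_sum_of_subset (Finset.subset_univ T)).trans ?_
    refine Finset.sum_le_sum fun k _ => ?_
    have hinj : Function.Injective
        (fun l : Fin (2 * b - 1) => (⟨l + 1, by omega⟩ : Fin (2 * b))) := by
      intro x y hxy
      have := congrArg Fin.val hxy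
      simp only at this
      exact Fin.ext (by omega)
    refine le_trans ?_ (sum_comp_le _ hinj fun l => δ l - (δ k + 1))
    refine Finset.sum_le_sum fun l _ => ?_
    have := hlam l ⟨l + 1, by omega⟩ rfl
    omega
  have e3 : E3 ≤ e * ∑ i, h i + Eh := by
    have hes : e + s = 2 * b := by omega
    have h6 : E3 = ∑ k : Fin (e + s), ∑ j, (h j - (δ (finCongr hes k) + 1)) :=
      (Equiv.sum_comp (finCongr hes) fun k => ∑ j, (h j - (δ k + 1))).symm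
    rw [h6, Fin.sum_univ_add]
    refine add_le_add ?_ ?_
    · calc ∑ i : Fin e, ∑ j, (h j - (δ (finCongr hes (Fin.castAdd s i)) + 1))
          ≤ ∑ _i : Fin e, ∑ j, h j := Finset.sum_le_sum fun _ _ =>
            Finset.sum_le_sum fun _ _ => Nat.sub_le _ _
        _ = _ := by simp
    · refine Finset.sum_le_sum fun i _ => Finset.sum_le_sum fun j _ => ?_
      have := hh i (finCongr hes (Fin.natAdd e i)) (by simp [add_comm])
      omega
  -- the sums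
  have t1 := trunc_sum Finset.univ (fun i => ν i + 1) w
  have t2 := trunc_sum Finset.univ (fun i => ν i + 1) ν
  have t3 := trunc_sum Finset.univ (fun i => h i + 1) h
  have t4 := trunc_sum Finset.univ (fun k => δ k + 1) h
  have t5 := trunc_sum Finset.univ (fun k => δ k + 1) δ
  have t6 := trunc_sum Finset.univ (fun j => D + δ0 j + 1) ν
  have t7 := trunc_sum T (fun k => D + δ k + 1) lam
  have z1 : ∑ i : Fin (b - 1), ∑ l, (w l - (ν i + 1)) = 0 :=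
    Finset.sum_eq_zero fun i _ => Finset.sum_eq_zero fun l _ => by have := hw l; omega
  have hST : ∑ k ∈ T, δ k ≤ ∑ k, δ k := Finset.sum_le_sum_of_subset (Finset.subset_univ T)
  have hqD : q ≤ D := by
    by_contra hcon
    push Not at hcon
    have h7 : 2 * b * D + 2 * b ≤ 2 * b * q := by
      have := Nat.mul_le_mul_left (2 * b) hcon
      rw [Nat.mul_succ] at this
      exact this
    have h8 : 2 * b * q ≤ (2 * c - 1) * q := Nat.mul_le_mul_right q (by omega)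
    have h9 : 2 * (b * D) = 2 * b * D := by ring
    omega
  have hsle : ∀ (i : Fin b) (l : Fin ss), hs l ≤ D + 1 - w i := by
    intro i l
    have h6 := Finset.single_le_sum (f := hs) (fun _ _ => Nat.zero_le _) (Finset.mem_univ l)
    have := hw i
    omega
  have t8 : (∑ i, 2 * ∑ l, (D + 1 - w i - hs l) : ℕ) + 2 * b * ∑ i, h i
      = 2 * ss * ∑ i, (D + 1 - w i) := by
    have h6 : ∀ i, ∑ l, (D + 1 - w i - hs l) + ∑ l, hs l = ss * (D + 1 - w i) := by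
      intro i
      rw [← Finset.sum_add_distrib, Finset.sum_congr rfl fun l _ => Nat.sub_add_cancel (hsle i l)]
      simp
    calc _ = ∑ i, 2 * ∑ l, (D + 1 - w i - hs l) + ∑ _i : Fin b, 2 * ∑ l, hs l := by
          rw [hsum]; simp; ring
      _ = ∑ i, 2 * (∑ l, (D + 1 - w i - hs l) + ∑ l, hs l) := by
          rw [← Finset.sum_add_distrib]
          exact Finset.sum_congr rfl fun i _ => by ring
      _ = _ := by
          rw [Finset.sum_congr rfl fun i _ => by rw [h6 i], ← Finset.mul_sum, ← Finset.mul_sum]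
          ring
  have t9 : ∑ i, (D + 1 - w i) + ∑ i, w i = b * (D + 1) := by
    rw [← Finset.sum_add_distrib, Finset.sum_congr rfl fun i _ =>
      Nat.sub_add_cancel (show w i ≤ D + 1 by have := hw i; omega)]
    simp
  have t10 : ∑ i, c * (h i + 1) = c * (∑ i, h i + s) := by
    rw [← Finset.mul_sum, Finset.sum_add_distrib]
    simp
  have t11 : ∑ k, 2 * ∑ j, (δ k + 1 - h j) = 2 * ∑ k, ∑ j, (δ k + 1 - h j) := by
    rw [Finset.mul_sum]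
  have t12 : ∑ j, 2 * ∑ l, (D + δ0 j + 1 - ν l) = 2 * ∑ j, ∑ l, (D + δ0 j + 1 - ν l) := by
    rw [Finset.mul_sum]
  rw [t10] at h3
  rw [t11] at h4
  rw [t12] at h5
  simp only [Finset.card_univ, Fintype.card_fin] at t1 t2 t3 t4 t5 t6 t7
  rw [z1] at t1
  rw [← hEν] at t2
  rw [← hEh] at t3
  rw [← hE3] at t4
  rw [← hEδ] at t5
  rw [← hE1] at t6
  rw [← hE2] at t7
  -- abbreviations
  generalize hP1 : ∑ i, ∑ l, (ν i + 1 - w l) = P1 at *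
  generalize hP2 : ∑ i, ∑ l, (ν i + 1 - ν l) = P2 at *
  generalize hP3 : ∑ i, ∑ l, (h i + 1 - h l) = P3 at *
  generalize hP4 : ∑ k, ∑ j, (δ k + 1 - h j) = P4 at *
  generalize hP5 : ∑ k, ∑ l, (δ k + 1 - δ l) = P5 at *
  generalize hP6 : ∑ j, ∑ l, (D + δ0 j + 1 - ν l) = P6 at *
  generalize hP7 : ∑ k ∈ T, ∑ l, (D + δ k + 1 - lam l) = P7 at *
  generalize hP8 : ∑ i, 2 * ∑ l, (D + 1 - w i - hs l) = P8 at *
  generalize hP9 : ∑ i, (D + 1 - w i) = P9 at *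
  push_cast [Finset.sum_add_distrib, Finset.sum_const, Finset.card_univ, Fintype.card_fin,
    nsmul_eq_mul] at t1 t2 t3 t4 t5 t6 t7
  simp only [← Nat.cast_sum] at t1 t2 t3 t4 t5 t6 t7
  clear hP1 hP2 hP3 hP4 hP5 hP6 hP7 hP8 hP9 z1 hsle hh hlam hν hw t10 t11 t12
  clear_value Eν Eh Eδ E1 E2 E3
  rw [hsum] at *
  generalize hNν : ∑ i, ν i = Nν at *
  generalize hW : ∑ i, w i = W at *
  generalize hn1 : ∑ i, h i = n1 at *
  generalize hQ : ∑ i, δ i = Q at *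
  generalize hq0 : ∑ i, δ0 i = q0 at *
  generalize hLam : ∑ i, lam i = Lam at *
  generalize hSTT : ∑ k ∈ T, δ k = ST at *
  generalize hTc : T.card = tc at *
  have hq00 : e = 0 → q0 = 0 := by
    intro h0
    subst h0
    rw [← hq0]
    simp
  have c1 : ((b - 1 : ℕ) : ℤ) = b - 1 := by omega
  have c2 : ((2 * b - 1 : ℕ) : ℤ) = 2 * b - 1 := by omega
  have c3 : (((2 * c - 1) * q : ℕ) : ℤ) = (2 * c - 1) * q := by
    push_cast [show 1 ≤ 2 * c by omega]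
    ring
  have c4 : (s : ℤ) = 2 * b - e := by omega
  have c5 : (ss : ℤ) = a - b + e := by omega
  have c6 : (tc : ℤ) = 2 * b - 2 * e := by omega
  have c7 : (c : ℤ) = a + b := by omega
  have f1 : (0 : ℤ) ≤ q - Q := by omega
  have f2 : (0 : ℤ) ≤ (e : ℤ) := by omega
  have f3 : (0 : ℤ) ≤ (a : ℤ) + e - b := by omega
  have f4 : (0 : ℤ) ≤ (b : ℤ) - 1 - e := by omega
  have f5 : (0 : ℤ) ≤ (γ : ℤ) := by omega
  have f6 : (0 : ℤ) ≤ 2 * (a : ℤ) - 4 * b + 2 * e := by omega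
  have f7 : (0 : ℤ) ≤ (Q : ℤ) - n1 - q0 := by omega
  have f8 : (0 : ℤ) ≤ (Q : ℤ) - ST := by omega
  have f9 : (0 : ℤ) ≤ (Lam : ℤ) - Nν - γ - W := by omega
  have f10 : (0 : ℤ) ≤ ((a : ℤ) + e + 1 - 3 * b) * q0 := by
    rcases Nat.eq_zero_or_pos e with h0 | h0
    · rw [hq00 h0]; simp
    · exact mul_nonneg (by omega) (by omega)
  have hD' : (2 * ((a : ℤ) + b) - 1) * q + 4 * (a * b) + 2 * W ≤ 2 * (b * D) + 1 := by
    rw [← c7, ← c3]; exact_mod_cast hD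
  have t9' : (P9 : ℤ) = b * (D + 1) - W := by
    have : ((P9 + W : ℕ) : ℤ) = b * (D + 1) := by rw [t9]; push_cast; ring
    push_cast at this
    linear_combination this
  have t8' : ((P8 + 2 * b * n1 : ℕ) : ℤ) = ((2 * ss * P9 : ℕ) : ℤ) := by rw [t8]
  have key := @numeric_int a b e q Q n1 q0 Nν Lam W ST γ D N1 N2 N3 N4 N5 P1 P2 P3 P4 P5 P6 P7 P8
    Eν Eh Eδ E1 E2 E3 (mul_nonneg (by omega) f1) (mul_nonneg f2 f3) (mul_nonneg f4 f5) f10
    (mul_nonneg f6 f7) (mul_nonneg (by omega) f8) (mul_nonneg (by omega) f9)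
    (by exact_mod_cast h1) (by exact_mod_cast h2)
    (by rw [← c4, ← c7]; exact_mod_cast h3) (by exact_mod_cast h4) (by exact_mod_cast h5)
    (by exact_mod_cast e1) (by exact_mod_cast e2) (by exact_mod_cast e3)
    (by rw [t1, c1]; ring) (by rw [t2, c1]; ring) (by rw [t3, c4]; ring) (by rw [t4, c4]; ring)
    (by rw [t5]; ring) (by rw [t6, c1]; ring) (by rw [t7, c2, c6]; ring)
    (by
      push_cast at t8'
      rw [t9', c5] at t8'
      linear_combination t8') hD'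
  have : ((N1 + N2 + N3 + N4 + N5 : ℕ) : ℤ) < ((2 * c * P9 : ℕ) : ℤ) := by
    push_cast
    rw [t9', c7]
    exact key
  exact_mod_cast this

end Pool.Agent.Helper730_PP
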