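import Pool.Agent.Helper730_PP.HullData
import Pool.Agent.Helper730_PP.Numeric

/-!
# A generic complex matrix is injective on real lattices of small degree: corank one
-/

open Polynomial

namespace Pool.Agent.Helper730_PP

noncomputable section

variable {b c : ℕ}

/-- The action of a complex polynomial matrix. -/
def Ac (A : Fin b → Fin c → ℂ[X]) : (Fin c → ℂ[X]) →ₗ[ℂ[X]] (Fin b → ℂ[X]) :=
  LinearMap.pi fun i => dotL (A i)

theorem Ac_apply (A : Fin b → Fin c → ℂ[X]) (z : Fin c → ℂ[X]) (i : Fin b) :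
    Ac A z i = ∑ j, z j * A i j := rfl

/-- The same on real vectors. -/
def Ar (A : Fin b → Fin c → ℂ[X]) :
    (Fin c × Fin 2 → ℝ[X]) →ₗ[ℝ[X]] (Fin b × Fin 2 → ℝ[X]) where
  toFun v := rx (Ac A (cx v))
  map_add' u v := by rw [cx_add, map_add, rx_add]
  map_smul' p v := by rw [cx_smul, map_smul, rx_io_smul, RingHom.id_apply]

theorem Ar_apply (A : Fin b → Fin c → ℂ[X]) (v : Fin c × Fin 2 → ℝ[X]) :
    Ar A v = rx (Ac A (cx v)) := rfl

theorem cx_Ar (A : Fin b → Fin c → ℂ[X]) (v : Fin c × Fin 2 → ℝ[X]) :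
    cx (Ar A v) = Ac A (cx v) := by rw [Ar_apply, cx_rx]

theorem Ar_rotL (A : Fin b → Fin c → ℂ[X]) (ζ : ℂ) (v : Fin c × Fin 2 → ℝ[X]) :
    Ar A (rotL _ ζ v) = rotL _ ζ (Ar A v) := by
  apply cx_injective
  rw [cx_Ar, cx_rotL, cx_rotL, cx_Ar, map_smul]

theorem Ac_mem_Lv {A : Fin b → Fin c → ℂ[X]} {w : Fin b → ℕ} {D : ℕ}
    (hA : ∀ i j k, D + 1 ≤ k + w i → (A i j).coeff k = 0) {z : Fin c → ℂ[X]} {t : ℕ}
    (hz : z ∈ Lv ℂ w0 (t + 1)) : Ac A z ∈ Lv ℂ w (D + t + 1) := by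
  intro i k hk
  rw [Ac_apply, finsetSum_coeff]
  refine Finset.sum_eq_zero fun j _ => ?_
  rw [coeff_mul]
  refine Finset.sum_eq_zero fun x hx => ?_
  rw [Finset.HasAntidiagonal.mem_antidiagonal] at hx
  by_cases h : t + 1 ≤ x.1
  · rw [hz j _ (by simpa using h), zero_mul]
  · rw [hA i j x.2 (by omega), mul_zero]

theorem Ar_mem_Lv {A : Fin b → Fin c → ℂ[X]} {w : Fin b → ℕ} {D : ℕ}
    (hA : ∀ i j k, D + 1 ≤ k + w i → (A i j).coeff k = 0) {z : Fin c × Fin 2 → ℝ[X]} {t : ℕ}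
    (hz : z ∈ Lv ℝ (w2 w0) (t + 1)) : Ar A z ∈ Lv ℝ (w2 w) (D + t + 1) := by
  rw [← cx_mem_Lv, cx_Ar]
  exact Ac_mem_Lv hA (cx_mem_Lv.mpr hz)

/-- The matrix with given real entries. -/
def mat (a : (Fin b × Fin c) × Fin 2 → ℝ[X]) : Fin b → Fin c → ℂ[X] := fun i j => cx a (i, j)

/-- Evaluation of the matrix at a vector, as a function of the matrix. -/
def Ev (v : Fin c × Fin 2 → ℝ[X]) :
    ((Fin b × Fin c) × Fin 2 → ℝ[X]) →ₗ[ℝ[X]] (Fin b × Fin 2 → ℝ[X]) where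
  toFun a := Ar (mat a) v
  map_add' x y := by
    apply cx_injective
    rw [cx_add, cx_Ar, cx_Ar, cx_Ar]
    funext i
    rw [Pi.add_apply, Ac_apply, Ac_apply, Ac_apply, ← Finset.sum_add_distrib]
    refine Finset.sum_congr rfl fun j _ => ?_
    show cx v j * cx (x + y) (i, j) = cx v j * cx x (i, j) + cx v j * cx y (i, j)
    rw [cx_add, Pi.add_apply, mul_add]
  map_smul' p x := by
    apply cx_injective
    rw [RingHom.id_apply, cx_smul, cx_Ar, cx_Ar]
    funext i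
    rw [Pi.smul_apply, Ac_apply, Ac_apply, smul_eq_mul, Finset.mul_sum]
    refine Finset.sum_congr rfl fun j _ => ?_
    show cx v j * cx (p • x) (i, j) = io p * (cx v j * cx x (i, j))
    rw [cx_smul, Pi.smul_apply, smul_eq_mul]
    ring

theorem Ev_apply (v : Fin c × Fin 2 → ℝ[X]) (a : (Fin b × Fin c) × Fin 2 → ℝ[X]) :
    Ev v a = Ar (mat a) v := rfl

theorem dl_add {κ : Type*} (y z : κ → ℂ[X]) : dl (y + z) = dl y + dl z := by
  funext ⟨j, s⟩
  fin_cases s
  · exact reP_add _ _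
  · show - imP (y j + z j) = - imP (y j) + - imP (z j)
    rw [imP_add, neg_add]

theorem dl_io_smul {κ : Type*} (p : ℝ[X]) (z : κ → ℂ[X]) : dl (io p • z) = p • dl z := by
  funext ⟨j, s⟩
  fin_cases s
  · show reP (io p * z j) = p * reP (z j)
    rw [reP_mul, reP_io, imP_io, zero_mul, sub_zero]
  · show - imP (io p * z j) = p * - imP (z j)
    rw [imP_mul, reP_io, imP_io, zero_mul, add_zero, mul_neg]

/-- The functional `A ↦ Re (h · A u)`, as a function of `u`. -/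
def Mh (h : Fin b → ℂ[X]) :
    (Fin c × Fin 2 → ℝ[X]) →ₗ[ℝ[X]] ((Fin b × Fin c) × Fin 2 → ℝ[X]) where
  toFun u := dl fun x => h x.1 * cx u x.2
  map_add' u v := by
    rw [← dl_add]
    congr 1
    funext x
    rw [cx_add, Pi.add_apply, Pi.add_apply, mul_add]
  map_smul' p u := by
    rw [RingHom.id_apply, ← dl_io_smul]
    congr 1
    funext x
    rw [cx_smul, Pi.smul_apply, Pi.smul_apply, smul_eq_mul, smul_eq_mul]
    ring

theorem Mh_apply (h : Fin b → ℂ[X]) (u : Fin c × Fin 2 → ℝ[X]) :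
    Mh h u = dl fun x : Fin b × Fin c => h x.1 * cx u x.2 := rfl

theorem dotL_Mh (h : Fin b → ℂ[X]) (u : Fin c × Fin 2 → ℝ[X])
    (a : (Fin b × Fin c) × Fin 2 → ℝ[X]) :
    dotL (Mh h u) a = dotL (dl h) (Ar (mat a) u) := by
  rw [Mh_apply, dotL_dl, dotL_dl, cx_Ar]
  congr 1
  rw [dotL_apply, dotL_apply, Fintype.sum_prod_type]
  refine Finset.sum_congr rfl fun i _ => ?_
  rw [Ac_apply, Finset.sum_mul]
  refine Finset.sum_congr rfl fun j _ => ?_
  show cx a (i, j) * (h i * cx u j) = cx u j * cx a (i, j) * h i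
  ring

theorem isRat_Mh {F₁ : Subfield ℝ} {h : Fin b → ℂ[X]} (hh : IsRat (cplx F₁) h)
    {u : Fin c × Fin 2 → ℝ[X]} (hu : IsRat F₁ u) : IsRat F₁ (Mh h u) := by
  rw [Mh_apply]
  refine isRat_dl fun x k => ?_
  rw [coeff_mul]
  exact (cplx F₁).sum_mem fun y _ => (cplx F₁).mul_mem (hh _ _) (isRat_cx.mpr hu _ _)

/-- The rows of the matrix. -/
def rowL (i : Fin b) :
    ((Fin b × Fin c) × Fin 2 → ℝ[X]) →ₗ[ℝ[X]] (Fin c × Fin 2 → ℝ[X]) where
  toFun a := fun x => a ((i, x.1), x.2)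
  map_add' _ _ := rfl
  map_smul' _ _ := rfl

theorem cx_rowL (i : Fin b) (a : (Fin b × Fin c) × Fin 2 → ℝ[X]) :
    cx (rowL i a) = mat a i := rfl

/-- The genericity property: `A` is not generated by fewer than `M` real parameters. -/
def Gen (A : Fin b → Fin c → ℂ[X]) (M : ℕ) : Prop :=
  ∀ S : Finset ℝ, (∀ F₁ : Subfield ℝ, (∀ s ∈ S, s ∈ F₁) → ∀ i j k, (A i j).coeff k ∈ cplx F₁) →
    M ≤ S.card

theorem no_corank_one {a b c q D : ℕ} (hb : 0 < b) (hc : c = a + b) (ha : 3 * b ≤ a + 2)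
    (ha2 : 2 * b ≤ a) {w w' : Fin b → ℕ} (hw : ∀ i, w i + w' i = 1)
    (hD : (2 * c - 1) * q + 4 * (a * b) + 2 * ∑ i, w i ≤ 2 * (b * D) + 1)
    {A : Fin b → Fin c → ℂ[X]} (hA : ∀ i j k, D + 1 ≤ k + w i → (A i j).coeff k = 0)
    (hgen : Gen A (2 * c * ∑ i, (D + 1 - w i)))
    {δ : Fin (2 * b) → ℕ} (hδ : Monotone δ) (hδq : ∑ k, δ k ≤ q)
    {η0 : Fin (2 * b) → Fin c × Fin 2 → ℝ[X]} (hη0 : RB (w2 w0) δ η0) (k0 : Fin (2 * b))
    (hli0 : ∀ p : Fin (2 * b) → ℝ[X], p k0 = 0 → ∑ k, p k • Ar A (η0 k) = 0 → p = 0)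
    (hdep0 : ∃ p : Fin (2 * b) → ℝ[X], p k0 ≠ 0 ∧ ∑ k, p k • Ar A (η0 k) = 0) : False := by
  classical
  obtain ⟨lam, ρ, ν, μ, γ, h', ζ, S1, S2, hζ, hlam, hρ, hρlat, hν, hμ, hμlat, hΛ, hS1, hS2, hrat,
    hperp⟩ := exists_dual_data hb w w' hw (fun k => Ar A (η0 k)) k0 hli0 hdep0
  -- the rotated family
  set η : Fin (2 * b) → Fin c × Fin 2 → ℝ[X] := fun k => rotL _ ζ (η0 k) with hηdef
  have hη : RB (w2 w0) δ η := hη0.rot hζ
  set B : Fin (2 * b) → Fin b × Fin 2 → ℝ[X] := fun k => Ar A (η k) with hBdef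
  have hB : ∀ k, B k = rotL _ ζ (Ar A (η0 k)) := fun k => Ar_rotL A ζ (η0 k)
  have hBsum : ∀ p : Fin (2 * b) → ℝ[X], ∑ k, p k • B k = 0 → ∑ k, p k • Ar A (η0 k) = 0 := by
    intro p hp
    have h1 : ∑ k, p k • B k = rotL _ ζ (∑ k, p k • Ar A (η0 k)) := by
      rw [map_sum]
      exact Finset.sum_congr rfl fun k _ => by rw [hB, map_smul]
    rw [h1] at hp
    have h2 := congrArg (rotL _ ζ⁻¹) hp
    rwa [rotL_rotL, inv_mul_cancel₀ hζ, rotL_one, map_zero] at h2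
  have hli : ∀ p : Fin (2 * b) → ℝ[X], p k0 = 0 → ∑ k, p k • B k = 0 → p = 0 :=
    fun p hp h => hli0 p hp (hBsum p h)
  have hBperp : ∀ k, dotL (dl h') (B k) = 0 := fun k => by rw [hB]; exact hperp k
  have hUperp : ∀ u ∈ lat η, dotL (dl h') (Ar A u) = 0 := by
    intro u hu
    obtain ⟨p, rfl⟩ := mem_lat.mp hu
    rw [map_sum, map_sum]
    refine Finset.sum_eq_zero fun k _ => ?_
    rw [map_smul, map_smul]
    have := hBperp k
    rw [hBdef] at this
    simp only at this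
    rw [this, smul_zero]
  obtain ⟨e, δ0, ω, s, h, ss, hs, ξs, T, S3, S4, hδ0, hω, hωlat, hh, hξs, hker, hcc, hsum, hse, hT,
    hdeg, hhδ, hS3, hS4, hUrat⟩ := exists_hull_data hδ hη
  -- membership in the lattices of the functional
  have hmemρ : ∀ v : Fin b × Fin 2 → ℝ[X], v ∈ lat ρ ↔ dotL (dl h') v = 0 := by
    intro v
    rw [hρlat, mem_perp_lat]
    exact ⟨fun h => h (), fun h _ => h⟩
  have hmemμ : ∀ z : Fin b → ℂ[X], z ∈ lat μ ↔ dotL h' z = 0 := by
    intro z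
    rw [hμlat, mem_perp_lat]
    exact ⟨fun h => h (), fun h _ => h⟩
  have hC : ∀ (A' : Fin b → Fin c → ℂ[X]), (∀ u ∈ lat η, dotL (dl h') (Ar A' u) = 0) →
      ∀ z ∈ cmax (lat η), Ac A' z ∈ lat μ := by
    intro A' hA' z hz
    rw [hmemμ]
    have h1 := hA' _ hz.1
    have h2 := hA' _ hz.2
    rw [dotL_dl, cx_Ar, cx_rx] at h1 h2
    rw [map_smul, map_smul, smul_eq_mul, reP_mul, reP_II, imP_II, zero_mul, one_mul,
      zero_sub, neg_eq_zero] at h2
    rw [← io_reP_imP (dotL h' (Ac A' z)), h1, h2]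
    simp
  -- injectivity on the complex part
  have hinj : ∀ z ∈ cmax (lat η), Ac A z = 0 → z = 0 := by
    intro z hz hz0
    obtain ⟨p, hp⟩ := mem_lat.mp hz.1
    obtain ⟨p', hp'⟩ := mem_lat.mp hz.2
    have h1 : ∑ k, p k • B k = 0 := by
      have h2 : Ar A (∑ k, p k • η k) = 0 := by
        rw [hp, Ar_apply, cx_rx, hz0, rx_zero]
      rw [map_sum] at h2
      rw [← h2]
      exact Finset.sum_congr rfl fun k _ => (map_smul _ _ _).symm
    have h1' : ∑ k, p' k • B k = 0 := by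
      have h2 : Ar A (∑ k, p' k • η k) = 0 := by
        rw [hp', Ar_apply, cx_rx, map_smul, hz0, smul_zero, rx_zero]
      rw [map_sum] at h2
      rw [← h2]
      exact Finset.sum_congr rfl fun k _ => (map_smul _ _ _).symm
    have h3 := hli (fun k => p' k0 * p k - p k0 * p' k) (by ring) (by
      have : ∑ k, (p' k0 * p k - p k0 * p' k) • B k
          = p' k0 • ∑ k, p k • B k - p k0 • ∑ k, p' k • B k := by
        rw [Finset.smul_sum, Finset.smul_sum, ← Finset.sum_sub_distrib]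
        exact Finset.sum_congr rfl fun k _ => by rw [sub_smul, mul_smul, mul_smul]
      rw [this, h1, h1', smul_zero, smul_zero, sub_zero])
    have h4 : p' k0 • rx z = p k0 • rx (II • z) := by
      rw [← hp, ← hp', Finset.smul_sum, Finset.smul_sum]
      refine Finset.sum_congr rfl fun k _ => ?_
      have h5 := congrFun h3 k
      simp only [Pi.zero_apply] at h5
      rw [smul_smul, smul_smul, sub_eq_zero.mp h5]
    have h5 := congrArg cx h4
    rw [cx_smul, cx_smul, cx_rx, cx_rx, smul_smul, ← sub_eq_zero, ← sub_smul] at h5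
    rcases smul_eq_zero.mp h5 with h6 | h6
    · have h7 : io (p' k0) + II * io (- p k0) = 0 := by
        rw [map_neg]
        linear_combination h6
      obtain ⟨h8, h9⟩ := io_II_eq_zero h7
      have h10 := hli p (neg_eq_zero.mp h9) h1
      have h11 : rx z = 0 := by rw [← hp, h10]; simp
      rw [← cx_rx z, h11, cx_zero]
    · exact h6
  have hωmem : ∀ j, ω j ∈ cmax (lat η) := fun j => by
    rw [← hωlat]; exact Submodule.subset_span ⟨j, rfl⟩
  have hωli : LinearIndependent ℂ[X] fun j => Ac A (ω j) := by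
    rw [Fintype.linearIndependent_iff]
    intro g hg
    have h1 : Ac A (∑ j, g j • ω j) = 0 := by
      rw [map_sum, ← hg]
      exact Finset.sum_congr rfl fun j _ => map_smul _ _ _
    have h2 := hinj _ (Submodule.sum_mem _ fun j _ => Submodule.smul_mem _ _ (hωmem j)) h1
    have h3 := hω.li
    rw [Fintype.linearIndependent_iff] at h3
    exact h3 g h2
  have he : e ≤ b - 1 := by
    have h1 := card_le_of_torsion (f := μ) hωli (fun j => ⟨1, one_ne_zero, by
      rw [one_smul]; exact hC A hUperp _ (hωmem j)⟩)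
    rwa [Fintype.card_fin, Fintype.card_fin] at h1
  have hνle : ∀ (j : Fin e) (l : Fin (b - 1)), (l : ℕ) = j → ν l ≤ D + δ0 j := by
    intro j l hl
    have h1 := hωli.comp (Fin.castLE j.2 : Fin (j + 1) → Fin e) (Fin.castLE_injective _)
    refine hμ.le_of_li hν (by rw [Fintype.card_fin]; omega) _ h1 fun k => ?_
    rw [mem_lev]
    refine ⟨hC A hUperp _ (hωmem _), ?_⟩
    have h2 : δ0 (Fin.castLE j.2 k) ≤ δ0 j := hδ0 (by
      rw [Fin.le_def, Fin.val_castLE]; exact Nat.lt_succ_iff.mp k.2)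
    exact Lv_mono (by omega) (Ac_mem_Lv hA (hω.fil (Fin.castLE j.2 k)))
  have hlamle : ∀ (l : Fin (2 * b - 1)) (i : Fin (2 * b)), (i : ℕ) = l + 1 → lam l ≤ D + δ i := by
    intro l i hi
    have h1 : LinearIndependent ℝ[X] (fun k : {k : Fin (2 * b) // k ≤ i ∧ k ≠ k0} => B k) :=
      li_of_fun (fun k => k ≤ i ∧ k ≠ k0) B fun p hp h => hli p (hp k0 (by simp)) h
    refine hρ.le_of_li hlam ?_ _ h1 fun k => ?_
    · have h2 : (Finset.univ.filter fun k : Fin (2 * b) => k ≤ i ∧ k ≠ k0)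
          = (Finset.Iic i).erase k0 := by
        ext k
        simp only [Finset.mem_filter, Finset.mem_univ, true_and, Finset.mem_erase,
          Finset.mem_Iic]
        exact and_comm
      rw [Fintype.card_subtype, h2]
      have h3 := Finset.pred_card_le_card_erase (s := Finset.Iic i) (a := k0)
      rw [Fin.card_Iic] at h3
      omega
    · rw [mem_lev, hmemρ]
      refine ⟨hBperp k, ?_⟩
      have h2 := hδ k.2.1
      exact Lv_mono (by omega) (Ar_mem_Lv hA (hη.fil k))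
  -- the space of matrices
  set F₄ : Subfield ℝ := Subfield.closure ((S1 ∪ S2 ∪ S3 ∪ S4 : Finset ℝ) : Set ℝ) with hF₄
  have hF : ∀ x ∈ S1 ∪ S2 ∪ S3 ∪ S4, x ∈ F₄ := fun x hx =>
    Subfield.subset_closure (Finset.mem_coe.mpr hx)
  have hratF := hrat F₄ (fun x hx => hF x (by simp [hx])) (fun x hx => hF x (by simp [hx]))
  have hUratF := hUrat F₄ (fun x hx => hF x (by simp [hx])) (fun x hx => hF x (by simp [hx]))
  set wA : Fin b × Fin c → ℕ := fun x => w x.1 with hwA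
  set 𝓐 : Submodule ℝ ((Fin b × Fin c) × Fin 2 → ℝ[X]) :=
    lev (perp ((lat η).map (Mh h'))) (w2 wA) (D + 1) with h𝓐
  have h𝓐D : Dfn F₄ 𝓐 := Dfn.perp_map hUratF (Mh h') (fun v hv => isRat_Mh hratF hv) _ _
  have h𝓐perp : ∀ a' ∈ 𝓐, ∀ u ∈ lat η, dotL (dl h') (Ar (mat a') u) = 0 := by
    intro a' ha' u hu
    rw [h𝓐, mem_lev] at ha'
    rw [← dotL_Mh]
    exact ha'.1 _ ⟨u, hu, rfl⟩
  have h𝓐deg : ∀ a' ∈ 𝓐, ∀ i j k, D + 1 ≤ k + w i → (mat a' i j).coeff k = 0 := by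
    intro a' ha' i j k hk
    rw [h𝓐, mem_lev] at ha'
    exact (cx_mem_Lv.mpr ha'.2) (i, j) k hk
  have hmatA : mat (rx fun x : Fin b × Fin c => A x.1 x.2) = A := by
    funext i j
    show cx (rx fun x : Fin b × Fin c => A x.1 x.2) (i, j) = A i j
    rw [cx_rx]
  have hA𝓐 : (rx fun x : Fin b × Fin c => A x.1 x.2) ∈ 𝓐 := by
    rw [h𝓐, mem_lev]
    refine ⟨?_, ?_⟩
    · rintro _ ⟨u, hu, rfl⟩
      rw [dotL_Mh, hmatA]
      exact hUperp u hu
    · rw [rx_mem_Lv]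
      intro x k hk
      exact hA x.1 x.2 k hk
  obtain ⟨S5, hS5, hS5F⟩ := exists_params_mem h𝓐D hA𝓐
  -- the dimension
  have hdim : Module.finrank ℝ 𝓐 ≤ ∑ j, 2 * ∑ l, (D + δ0 j + 1 - ν l)
      + ∑ k ∈ T, ∑ l, (D + δ k + 1 - lam l) + ∑ i, 2 * ∑ l, (D + 1 - w i - hs l) := by
    have hfin𝓐 : Module.Finite ℝ 𝓐 := by rw [h𝓐]; infer_instance
    set vec : Fin e ⊕ {k // k ∈ T} → Fin c × Fin 2 → ℝ[X] :=
      Sum.elim (fun j => rx (ω j)) (fun k => η k) with hvec
    set TT : Fin e ⊕ {k // k ∈ T} → Submodule ℝ (Fin b × Fin 2 → ℝ[X]) :=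
      Sum.elim (fun j => lev (rl (lat μ)) (w2 w) (D + δ0 j + 1))
        (fun k => lev (lat ρ) (w2 w) (D + δ k + 1)) with hTT
    have hTTfin : ∀ x, Module.Finite ℝ (TT x) := by
      rintro (j | k)
      · show Module.Finite ℝ (lev (rl (lat μ)) (w2 w) (D + δ0 j + 1))
        infer_instance
      · show Module.Finite ℝ (lev (lat ρ) (w2 w) (D + δ k + 1))
        infer_instance
    have h1 := finrank_le_sum 𝓐 Finset.univ (fun x => (Ev (b := b) (vec x)).restrictScalars ℝ) TT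
      (by
        intro a' ha' x
        rcases x with j | k
        · show Ar (mat a') (rx (ω j)) ∈ lev (rl (lat μ)) (w2 w) (D + δ0 j + 1)
          rw [mem_lev, mem_rl, cx_Ar, cx_rx]
          refine ⟨hC _ (h𝓐perp a' ha') _ (hωmem j), Ar_mem_Lv (h𝓐deg a' ha') ?_⟩
          exact rx_mem_Lv.mpr (hω.fil j)
        · show Ar (mat a') (η k) ∈ lev (lat ρ) (w2 w) (D + δ k + 1)
          rw [mem_lev, hmemρ]
          exact ⟨h𝓐perp a' ha' _ (Submodule.subset_span ⟨k, rfl⟩),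
            Ar_mem_Lv (h𝓐deg a' ha') (hη.fil k)⟩)
    set W2 : Submodule ℝ ((Fin b × Fin c) × Fin 2 → ℝ[X]) :=
      𝓐 ⊓ ⨅ x ∈ (Finset.univ : Finset (Fin e ⊕ {k // k ∈ T})),
        LinearMap.ker ((Ev (b := b) (vec x)).restrictScalars ℝ) with hW2
    have hfinW2 : Module.Finite ℝ W2 :=
      Submodule.finiteDimensional_of_le (inf_le_left : W2 ≤ 𝓐)
    have hW2mem : ∀ a' ∈ W2, a' ∈ 𝓐 ∧ ∀ x, Ar (mat a') (vec x) = 0 := by
      intro a' ha'
      refine ⟨ha'.1, fun x => ?_⟩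
      have h2 := ha'.2
      rw [SetLike.mem_coe, Submodule.mem_iInf] at h2
      have h3 := h2 x
      rw [Submodule.mem_iInf] at h3
      exact h3 (Finset.mem_univ x)
    have h2 := finrank_le_sum W2 Finset.univ
      (fun i : Fin b => (rowL (c := c) i).restrictScalars ℝ)
      (fun i => lev (rl (lat ξs)) (w2 w0) (D + 1 - w i)) (by
        intro a' ha' i
        obtain ⟨h3, h4⟩ := hW2mem a' ha'
        show rowL i a' ∈ lev (rl (lat ξs)) (w2 w0) (D + 1 - w i)
        rw [mem_lev, mem_rl, cx_rowL, ← cx_mem_Lv, cx_rowL]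
        refine ⟨hker _ (fun j => ?_) (fun k hk => ?_), ?_⟩
        · have h5 := congrArg (fun v => cx v i) (h4 (Sum.inl j))
          simp only [cx_Ar, cx_zero, Pi.zero_apply] at h5
          rw [dotL_comm]
          show Ac (mat a') (ω j) i = 0
          rw [← h5, hvec]
          show Ac (mat a') (ω j) i = Ac (mat a') (cx (rx (ω j))) i
          rw [cx_rx]
        · have h5 := congrArg (fun v => cx v i) (h4 (Sum.inr ⟨k, hk⟩))
          simp only [cx_Ar, cx_zero, Pi.zero_apply] at h5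
          rw [dotL_comm]
          exact h5
        · intro j k hk
          exact h𝓐deg a' h3 i j k (by
            have : D + 1 - w i ≤ k := by simpa using hk
            omega))
    have h3 : (W2 ⊓ ⨅ i ∈ (Finset.univ : Finset (Fin b)),
        LinearMap.ker ((rowL (c := c) i).restrictScalars ℝ)
          : Submodule ℝ ((Fin b × Fin c) × Fin 2 → ℝ[X])) = ⊥ := by
      rw [eq_bot_iff]
      rintro a' ⟨-, ha'⟩
      rw [Submodule.mem_bot]
      funext ⟨⟨i, j⟩, r⟩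
      rw [SetLike.mem_coe, Submodule.mem_iInf] at ha'
      have h4 := ha' i
      rw [Submodule.mem_iInf] at h4
      have h5 := h4 (Finset.mem_univ i)
      exact congrFun h5 (j, r)
    rw [h3, finrank_bot, zero_add] at h2
    have h4 : ∀ i : Fin b, Module.finrank ℝ (lev (rl (lat ξs)) (w2 w0) (D + 1 - w i))
        = 2 * ∑ l, (D + 1 - w i - hs l) := fun i => finrank_lev_rl hξs _
    rw [Finset.sum_congr rfl fun i _ => h4 i] at h2
    have h5 : ∑ x, Module.finrank ℝ (TT x) = ∑ j, 2 * ∑ l, (D + δ0 j + 1 - ν l)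
        + ∑ k ∈ T, ∑ l, (D + δ k + 1 - lam l) := by
      rw [Fintype.sum_sum_type]
      congr 1
      · exact Finset.sum_congr rfl fun j _ => finrank_lev_rl hμ _
      · rw [← Finset.sum_coe_sort T]
        exact Finset.sum_congr rfl fun k _ => hρ.finrank_lev _
    rw [h5] at h1
    omega
  -- conclusion
  have hfinal := hgen (S1 ∪ S2 ∪ S3 ∪ S4 ∪ S5) (by
    intro F₁ hF₁ i j k
    have hle : F₄ ≤ F₁ := by
      rw [hF₄, Subfield.closure_le]
      intro x hx
      exact hF₁ x (Finset.mem_union_left _ (Finset.mem_coe.mp hx))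
    have h1 := hS5F F₁ hle fun x hx => hF₁ x (Finset.mem_union_right _ hx)
    have h2 := isRat_cx.mpr h1 (i, j) k
    rwa [cx_rx] at h2)
  have hcard : (S1 ∪ S2 ∪ S3 ∪ S4 ∪ S5).card ≤ S1.card + S2.card + S3.card + S4.card + S5.card := by
    have h1 := Finset.card_union_le (S1 ∪ S2 ∪ S3 ∪ S4) S5
    have h2 := Finset.card_union_le (S1 ∪ S2 ∪ S3) S4
    have h3 := Finset.card_union_le (S1 ∪ S2) S3
    have h4 := Finset.card_union_le S1 S2
    omega
  have hw1 : ∀ i, w i ≤ 1 := fun i => by have := hw i; omega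
  have hnum := numeric hw1 hb hc hcc hse hT he ha ha2 hsum hdeg hδq hνle hlamle hhδ hΛ hD hS1 hS2
    hS3 hS4 (hS5.trans hdim)
  omega

end

end Pool.Agent.Helper730_PP
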