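import Pool.Agent.Helper730_PP.WForm

/-!
# Compactness for a family of pairings, and the case `m = 2`
-/

open Polynomial Matrix Topology

namespace Pool.Agent.Helper730_PP

noncomputable section

theorem CC.prod {T : Type*} [TopologicalSpace T] {ι : Type*} (s : Finset ι) {P : ι → T → ℝ[X]}
    (hP : ∀ i ∈ s, CC (P i)) : CC fun t => ∏ i ∈ s, P i t := by
  classical
  induction s using Finset.induction_on with
  | empty => simp only [Finset.prod_empty]; exact CC.const 1
  | insert a s ha ih =>
    simp only [Finset.prod_insert ha]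
    exact (hP a (Finset.mem_insert_self a s)).mul
      (ih fun i hi => hP i (Finset.mem_insert_of_mem hi))

theorem CC.det {T : Type*} [TopologicalSpace T] {k : ℕ} {M : T → Matrix (Fin k) (Fin k) ℝ[X]}
    (hM : ∀ i j, CC fun t => M t i j) : CC fun t => (M t).det := by
  simp only [Matrix.det_apply']
  exact CC.sum _ fun σ _ => (CC.const _).mul (CC.prod _ fun i _ => hM _ _)

theorem pairing_smul {N : ℕ} (V M : Fin N → Fin N → ℝ[X]) (c : ℝ) :
    pairing (fun i j => C c * V i j) M = C c * pairing V M := by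
  unfold pairing
  rw [Finset.mul_sum]
  refine Finset.sum_congr rfl fun i _ => ?_
  rw [Finset.mul_sum]
  refine Finset.sum_congr rfl fun j _ => ?_
  ring

theorem robustG {N d q : ℕ} (M : ℝ → Fin N → Fin N → ℝ[X]) (hM : ∀ i j, CC fun t => M t i j)
    (φ : ℝ[X]) (hφ : φ.natDegree = d) (hφ0 : φ ≠ 0)
    (hno : ∀ V : Fin N → Fin N → ℝ[X], (∀ i j, (V i j).natDegree ≤ q) → IsPlucker V →
      ∀ τ : ℝ, pairing V (M 0) = C τ * φ → ∀ i j, V i j = 0) :
    ∃ ε : ℝ, 0 < ε ∧ ∀ t : ℝ, |t| < ε → ∀ V : Fin N → Fin N → ℝ[X],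
      (∀ i j, (V i j).natDegree ≤ q) → IsPlucker V → ∀ τ : ℝ,
      pairing V (M t) = C τ * φ → ∀ i j, V i j = 0 := by
  have hlead : φ.coeff d ≠ 0 := by
    rw [← hφ]; exact fun h => hφ0 (leadingCoeff_eq_zero.mp h)
  set K : Set (FormPar N q) := {x | ‖x‖ = 1} ∩ {x | IsPlucker (toForm x)} with hK
  have hclosed : IsClosed {x : FormPar N q | IsPlucker (toForm x)} := by
    have h1 : {x : FormPar N q | IsPlucker (toForm x)} =
        (⋂ i, ⋂ j, {x : FormPar N q | toForm x i j + toForm x j i = 0}) ∩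
        ⋂ i, ⋂ j, ⋂ k, ⋂ l, {x : FormPar N q | toForm x i j * toForm x k l
          - toForm x i k * toForm x j l + toForm x i l * toForm x j k = 0} := by
      ext x
      simp only [IsPlucker, Set.mem_ofPred_eq, Set.mem_inter_iff, Set.mem_iInter]
      refine and_congr ?_ Iff.rfl
      refine forall_congr' fun i => forall_congr' fun j => ?_
      rw [eq_neg_iff_add_eq_zero]
    rw [h1]
    refine IsClosed.inter ?_ ?_
    · exact isClosed_iInter fun i => isClosed_iInter fun j =>
        ((toForm_CC i j).add (toForm_CC j i)).isClosed_eq_zero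
    · exact isClosed_iInter fun i => isClosed_iInter fun j => isClosed_iInter fun k =>
        isClosed_iInter fun l =>
        ((((toForm_CC i j).mul (toForm_CC k l)).sub ((toForm_CC i k).mul (toForm_CC j l))).add
          ((toForm_CC i l).mul (toForm_CC j k))).isClosed_eq_zero
  have hKc : IsCompact K := by
    have h1 : {x : FormPar N q | ‖x‖ = 1} = Metric.sphere 0 1 := by
      ext x; simp
    rw [hK, h1]
    exact (isCompact_sphere _ _).inter_right hclosed
  -- the value, with the multiple of `φ` removed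
  set G : FormPar N q × ℝ → ℝ[X] := fun y => pairing (toForm y.1) (M y.2) with hG
  have hGC : CC G := by
    have hT : ∀ i j, CC fun y : FormPar N q × ℝ => toForm y.1 i j := fun i j r =>
      (toForm_CC i j r).comp continuous_fst
    have hMt : ∀ i j, CC fun y : FormPar N q × ℝ => M y.2 i j := fun i j r =>
      (hM i j r).comp continuous_snd
    exact CC.sum _ fun i _ => CC.sum _ fun j _ => (hT i j).mul (hMt i j)
  set R : FormPar N q × ℝ → ℝ[X] := fun y => G y - C ((G y).coeff d / φ.coeff d) * φ with hR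
  have hRC : CC R := hGC.sub ((CC.C_comp ((hGC d).div_const _)).mul (CC.const _))
  have hopen : IsOpen {y | R y ≠ 0} := hRC.isClosed_eq_zero.isOpen_compl
  have hsub : K ×ˢ ({0} : Set ℝ) ⊆ {y | R y ≠ 0} := by
    rintro ⟨x, t⟩ ⟨hx, ht⟩
    rw [Set.mem_singleton_iff] at ht
    simp only at ht hx
    subst ht
    intro h0
    have h1 : pairing (toForm x) (M 0) = C ((G (x, 0)).coeff d / φ.coeff d) * φ :=
      sub_eq_zero.mp h0
    have h3 := hno (toForm x) (toForm_natDegree x) hx.2 _ h1
    have h4 := toForm_eq_zero x h3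
    have h5 : ‖x‖ = 1 := hx.1
    rw [h4, norm_zero] at h5
    exact zero_ne_one h5
  obtain ⟨u, v, -, hv, hKu, h0v, huv⟩ := generalized_tube_lemma hKc isCompact_singleton hopen hsub
  obtain ⟨ε, hε, hball⟩ := Metric.isOpen_iff.mp hv 0 (h0v (Set.mem_singleton 0))
  refine ⟨ε, hε, fun t ht V hVd hVP τ hτ => ?_⟩
  obtain ⟨x, hx⟩ := toForm_surj V hVd
  have hxV : toForm x = V := by funext i j; exact hx i j
  by_contra hne
  have hx0 : x ≠ 0 := by
    rintro rfl
    apply hne
    intro i j
    rw [← hx i j]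
    have := toForm_smul (0 : ℝ) (0 : FormPar N q) i j
    rw [zero_smul] at this
    rw [this, C_0, zero_mul]
  have hnx : ‖x‖ ≠ 0 := norm_ne_zero_iff.mpr hx0
  set x' : FormPar N q := ‖x‖⁻¹ • x with hx'
  have hform : toForm x' = fun i j => C ‖x‖⁻¹ * V i j := by
    funext i j; rw [hx', toForm_smul, hx i j]
  have hxK : x' ∈ K := by
    refine ⟨?_, ?_⟩
    · show ‖x'‖ = 1
      rw [hx', norm_smul, norm_inv, norm_norm, inv_mul_cancel₀ hnx]
    · show IsPlucker (toForm x')
      rw [hform]
      refine ⟨fun i j => ?_, fun i j k l => ?_⟩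
      · simp only
        rw [hVP.1 i j]; ring
      · linear_combination (C ‖x‖⁻¹) ^ 2 * hVP.2 i j k l
  have htv : t ∈ v := hball (by simpa using ht)
  have h1 : R (x', t) ≠ 0 := huv (Set.mk_mem_prod (hKu hxK) htv)
  apply h1
  have h2 : G (x', t) = C (‖x‖⁻¹ * τ) * φ := by
    rw [hG]
    simp only
    rw [hform, pairing_smul, hτ, C_mul]; ring
  rw [hR]
  simp only
  rw [h2, coeff_C_mul, mul_div_cancel_right₀ _ hlead, sub_self]

/-- The case `m = 2`: a balanced plant without nonzero solutions refutes generic real pole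
placement. -/
theorem not_generic_of_no_solution_two {p n q : ℕ} (hp : 0 < p) (Q0 : PolyMat p (2 + p))
    (φ : ℝ[X]) (hφ : φ.natDegree = n + q) (hφ0 : φ ≠ 0)
    (hQ0 : ∀ i j, (Q0 i j).natDegree ≤ bal p n i)
    (hno : ∀ V : Fin (2 + p) → Fin (2 + p) → ℝ[X], (∀ i j, (V i j).natDegree ≤ q) →
      IsPlucker V → ∀ τ : ℝ, pairing V (wentry Q0) = C τ * φ → ∀ i j, V i j = 0) :
    ¬ GenericRealPolePlacement 2 p n q := by
  refine not_generic_of_badG hp Q0 φ hφ hQ0 fun Q' _ => ?_
  have haff0 : aff Q0 Q' 0 = Q0 := by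
    refine Matrix.ext fun i j => ?_
    show Q0 i j + C 0 * Q' i j = Q0 i j
    rw [C_0, zero_mul, add_zero]
  obtain ⟨ε, hε, h⟩ := robustG (fun t => wentry (aff Q0 Q' t)) (fun i j => by
    unfold wentry wform
    refine CC.det fun k l => ?_
    refine Fin.addCases (fun k => ?_) (fun k => ?_) k
    · simp only [stack_castAdd]
      exact CC.const _
    · simp only [stack_natAdd]
      exact (CC.const _).add ((CC.C_comp continuous_id).mul (CC.const _))) φ hφ hφ0 (by
    simp only [haff0]
    exact hno)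
  refine ⟨ε, hε, fun t ht0 ht P₂ hP₂ c _ heq => ?_⟩
  have h1 := h t (by rw [abs_of_pos ht0]; exact ht) (minors2 P₂) (minors2_natDegree hP₂)
    (minors2_isPlucker P₂) (2 * c) (by
      rw [← two_det_stack, heq, C_mul, mul_assoc]; rfl)
  obtain ⟨i, j, hij⟩ := exists_minors2_ne hP₂
  exact hij (h1 i j)

end

end Pool.Agent.Helper730_PP
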