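import Pool.Agent.Helper730_PP.Kernel
import Pool.Agent.Helper730_PP.RobustG

/-!
# The real plant with a given complex kernel vector
-/

open Polynomial Matrix

namespace Pool.Agent.Helper730_PP

noncomputable section

/-- The real part of a complex polynomial. -/
def reP (g : ℂ[X]) : ℝ[X] := ∑ k ∈ Finset.range (g.natDegree + 1), C (g.coeff k).re * X ^ k

/-- The imaginary part of a complex polynomial. -/
def imP (g : ℂ[X]) : ℝ[X] := ∑ k ∈ Finset.range (g.natDegree + 1), C (g.coeff k).im * X ^ k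

theorem reP_coeff (g : ℂ[X]) (k : ℕ) : (reP g).coeff k = (g.coeff k).re := by
  unfold reP
  rw [finsetSum_coeff]
  simp only [coeff_C_mul_X_pow]
  rw [Finset.sum_ite_eq (Finset.range (g.natDegree + 1)) k fun k => (g.coeff k).re]
  split_ifs with h
  · rfl
  · rw [Finset.mem_range, not_lt] at h
    rw [coeff_eq_zero_of_natDegree_lt (by omega)]; rfl

theorem imP_coeff (g : ℂ[X]) (k : ℕ) : (imP g).coeff k = (g.coeff k).im := by
  unfold imP
  rw [finsetSum_coeff]
  simp only [coeff_C_mul_X_pow]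
  rw [Finset.sum_ite_eq (Finset.range (g.natDegree + 1)) k fun k => (g.coeff k).im]
  split_ifs with h
  · rfl
  · rw [Finset.mem_range, not_lt] at h
    rw [coeff_eq_zero_of_natDegree_lt (by omega)]; rfl

theorem reP_natDegree (g : ℂ[X]) : (reP g).natDegree ≤ g.natDegree := by
  rw [natDegree_le_iff_coeff_eq_zero]
  intro k hk
  rw [reP_coeff, coeff_eq_zero_of_natDegree_lt hk]; rfl

theorem imP_natDegree (g : ℂ[X]) : (imP g).natDegree ≤ g.natDegree := by
  rw [natDegree_le_iff_coeff_eq_zero]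
  intro k hk
  rw [imP_coeff, coeff_eq_zero_of_natDegree_lt hk]; rfl

theorem io_II_coeff (a b : ℝ[X]) (k : ℕ) :
    (io a + II * io b).coeff k = ⟨a.coeff k, b.coeff k⟩ := by
  unfold II
  rw [coeff_add, coeff_C_mul, io_coeff, io_coeff]
  apply Complex.ext <;> simp

theorem io_reP_imP (g : ℂ[X]) : io (reP g) + II * io (imP g) = g := by
  ext1 k
  rw [io_II_coeff, reP_coeff, imP_coeff]

theorem io_unique {a b a' b' : ℝ[X]} (h : io a + II * io b = io a' + II * io b') :
    a = a' ∧ b = b' := by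
  have h1 : ∀ k, (⟨a.coeff k, b.coeff k⟩ : ℂ) = ⟨a'.coeff k, b'.coeff k⟩ := fun k => by
    rw [← io_II_coeff, ← io_II_coeff, h]
  constructor
  · ext k; exact congrArg Complex.re (h1 k)
  · ext k; exact congrArg Complex.im (h1 k)

theorem io_II_eq_zero {a b : ℝ[X]} (h : io a + II * io b = 0) : a = 0 ∧ b = 0 := by
  apply io_unique
  rw [h, map_zero, mul_zero, add_zero]

variable {c N : ℕ}

/-- The first real row of a complex row. -/
def rowRe (e : Fin c × Fin 2 ≃ Fin N) (A : Fin c → ℂ[X]) : Fin N → ℝ[X] := fun x =>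
  if (e.symm x).2 = 0 then reP (A (e.symm x).1) else -imP (A (e.symm x).1)

/-- The second real row of a complex row. -/
def rowIm (e : Fin c × Fin 2 ≃ Fin N) (A : Fin c → ℂ[X]) : Fin N → ℝ[X] := fun x =>
  if (e.symm x).2 = 0 then imP (A (e.symm x).1) else reP (A (e.symm x).1)

theorem rowRe_natDegree (e : Fin c × Fin 2 ≃ Fin N) {A : Fin c → ℂ[X]} {d : ℕ}
    (h : ∀ j, (A j).natDegree ≤ d) (x : Fin N) : (rowRe e A x).natDegree ≤ d := by
  unfold rowRe
  split_ifs
  · exact (reP_natDegree _).trans (h _)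
  · rw [natDegree_neg]; exact (imP_natDegree _).trans (h _)

theorem rowIm_natDegree (e : Fin c × Fin 2 ≃ Fin N) {A : Fin c → ℂ[X]} {d : ℕ}
    (h : ∀ j, (A j).natDegree ≤ d) (x : Fin N) : (rowIm e A x).natDegree ≤ d := by
  unfold rowIm
  split_ifs
  · exact (imP_natDegree _).trans (h _)
  · exact (reP_natDegree _).trans (h _)

theorem row_dot (e : Fin c × Fin 2 ≃ Fin N) (A : Fin c → ℂ[X]) (z : Fin N → ℝ[X]) :
    io (rowRe e A ⬝ᵥ z) + II * io (rowIm e A ⬝ᵥ z)
      = ∑ j, A j * (io (z (e (j, 0))) + II * io (z (e (j, 1)))) := by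
  have h1 : rowRe e A ⬝ᵥ z = ∑ j, (reP (A j) * z (e (j, 0)) - imP (A j) * z (e (j, 1))) := by
    simp only [dotProduct]
    rw [← Equiv.sum_comp e, Fintype.sum_prod_type]
    refine Finset.sum_congr rfl fun j _ => ?_
    rw [Fin.sum_univ_two]
    unfold rowRe
    simp only [Equiv.symm_apply_apply, if_true, Fin.isValue, one_ne_zero, if_false]
    ring
  have h2 : rowIm e A ⬝ᵥ z = ∑ j, (imP (A j) * z (e (j, 0)) + reP (A j) * z (e (j, 1))) := by
    simp only [dotProduct]
    rw [← Equiv.sum_comp e, Fintype.sum_prod_type]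
    refine Finset.sum_congr rfl fun j _ => ?_
    rw [Fin.sum_univ_two]
    unfold rowIm
    simp only [Equiv.symm_apply_apply, if_true, Fin.isValue, one_ne_zero, if_false]
  rw [h1, h2, map_sum, map_sum, Finset.mul_sum, ← Finset.sum_add_distrib]
  refine Finset.sum_congr rfl fun j _ => ?_
  conv_rhs => rw [← io_reP_imP (A j)]
  rw [map_sub, map_add, map_mul, map_mul, map_mul, map_mul]
  linear_combination (-(io (imP (A j)) * io (z (e (j, 1))))) * II_sq

/-- The numbering of the real rows. -/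
def rowEquiv (b : ℕ) : Fin b × Fin 2 ≃ Fin (2 * b) :=
  finProdFinEquiv.trans (finCongr (Nat.mul_comm b 2))

theorem rowEquiv_val (b : ℕ) (x : Fin b × Fin 2) :
    (rowEquiv b x : ℕ) = x.2 + 2 * x.1 := rfl

/-- The real plant of a family of complex rows. -/
def realP {b : ℕ} (e : Fin (b + 1) × Fin 2 ≃ Fin (2 + 2 * b)) (A : Fin b → Fin (b + 1) → ℂ[X]) :
    PolyMat (2 * b) (2 + 2 * b) :=
  Matrix.of fun r => if ((rowEquiv b).symm r).2 = 0 then rowRe e (A ((rowEquiv b).symm r).1)
    else rowIm e (A ((rowEquiv b).symm r).1)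

theorem realP_apply {b : ℕ} (e : Fin (b + 1) × Fin 2 ≃ Fin (2 + 2 * b))
    (A : Fin b → Fin (b + 1) → ℂ[X]) (r : Fin (2 * b)) :
    realP e A r = if ((rowEquiv b).symm r).2 = 0 then rowRe e (A ((rowEquiv b).symm r).1)
      else rowIm e (A ((rowEquiv b).symm r).1) := rfl

theorem realP_natDegree {b : ℕ} (e : Fin (b + 1) × Fin 2 ≃ Fin (2 + 2 * b))
    {A : Fin b → Fin (b + 1) → ℂ[X]} {d : Fin b → ℕ} (h : ∀ i j, (A i j).natDegree ≤ d i)
    (r : Fin (2 * b)) (x : Fin (2 + 2 * b)) :
    (realP e A r x).natDegree ≤ d ((rowEquiv b).symm r).1 := by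
  rw [realP_apply]
  split_ifs
  · exact rowRe_natDegree e (h _) x
  · exact rowIm_natDegree e (h _) x

theorem realP_dot_iff {b : ℕ} (e : Fin (b + 1) × Fin 2 ≃ Fin (2 + 2 * b))
    (A : Fin b → Fin (b + 1) → ℂ[X]) (z : Fin (2 + 2 * b) → ℝ[X]) :
    (∀ r, realP e A r ⬝ᵥ z = 0) ↔
      ∀ i, ∑ j, A i j * (io (z (e (j, 0))) + II * io (z (e (j, 1)))) = 0 := by
  constructor
  · intro h i
    have h0 := h (rowEquiv b (i, 0))
    have h1 := h (rowEquiv b (i, 1))
    rw [realP_apply, Equiv.symm_apply_apply] at h0 h1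
    simp only [if_true, Fin.isValue, one_ne_zero, if_false] at h0 h1
    rw [← row_dot, h0, h1, map_zero, mul_zero, add_zero]
  · intro h r
    obtain ⟨h0, h1⟩ := io_II_eq_zero ((row_dot e (A ((rowEquiv b).symm r).1) z).trans
      (h ((rowEquiv b).symm r).1))
    rw [realP_apply]
    split_ifs
    · exact h0
    · exact h1

theorem realP_injective {b nc : ℕ} (e : Fin (b + 1) × Fin 2 ≃ Fin (2 + 2 * b))
    {A : Fin b → Fin (b + 1) → ℂ[X]}
    (hA : ∀ i (j : Fin b) r, bal b nc j ≤ r →
        (A i j.castSucc).coeff r = if i = j ∧ r = bal b nc j then 1 else 0)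
    (z : Fin (2 + 2 * b) → ℝ[X]) (hz : ∀ r, realP e A r ⬝ᵥ z = 0)
    (h0 : z (e (Fin.last b, 0)) = 0) (h1 : z (e (Fin.last b, 1)) = 0) : z = 0 := by
  rw [realP_dot_iff] at hz
  set ζ : Fin (b + 1) → ℂ[X] := fun j => io (z (e (j, 0))) + II * io (z (e (j, 1))) with hζ
  have hlast : ζ (Fin.last b) = 0 := by
    rw [hζ]
    simp only
    rw [h0, h1, map_zero, mul_zero, add_zero]
  have hzero : ∀ j, ζ j = 0 := by
    by_contra hcon
    push Not at hcon
    obtain ⟨j0, hj0⟩ := hcon
    obtain ⟨i0, hi0⟩ : ∃ i0 : Fin b, ζ i0.castSucc ≠ 0 := by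
      revert hj0
      refine Fin.lastCases ?_ (fun i => ?_) j0
      · intro h; exact absurd hlast h
      · intro h; exact ⟨i, h⟩
    set w : Fin b → ℕ := fun i => if ζ i.castSucc = 0 then 0 else
      (ζ i.castSucc).natDegree + bal b nc i + 1 with hw
    obtain ⟨i1, -, hmax⟩ := Finset.exists_max_image Finset.univ w ⟨i0, Finset.mem_univ i0⟩
    have hwi0 : w i0 = (ζ i0.castSucc).natDegree + bal b nc i0 + 1 := by rw [hw]; simp [hi0]
    have hi1 : ζ i1.castSucc ≠ 0 := by
      intro h
      have h2 : w i1 = 0 := by rw [hw]; simp [h]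
      have h3 := hmax i0 (Finset.mem_univ i0)
      omega
    have hwi1 : w i1 = (ζ i1.castSucc).natDegree + bal b nc i1 + 1 := by rw [hw]; simp [hi1]
    have h2 := hz i1
    rw [Fin.sum_univ_castSucc] at h2
    have h3 : io (z (e (Fin.last b, 0))) + II * io (z (e (Fin.last b, 1))) = 0 := hlast
    rw [h3, mul_zero, add_zero] at h2
    have h4 := congrArg (fun g => g.coeff ((ζ i1.castSucc).natDegree + bal b nc i1)) h2
    simp only [coeff_zero, finsetSum_coeff] at h4
    rw [Finset.sum_eq_single i1] at h4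
    · have hd : (A i1 i1.castSucc).natDegree ≤ bal b nc i1 := by
        rw [natDegree_le_iff_coeff_eq_zero]
        intro r hr
        rw [hA i1 i1 r hr.le, if_neg]
        rintro ⟨-, h⟩
        omega
      have h5 : (A i1 i1.castSucc * ζ i1.castSucc).coeff
          ((ζ i1.castSucc).natDegree + bal b nc i1) = 0 := h4
      rw [add_comm, coeff_mul_add_eq_of_natDegree_le hd le_rfl, hA i1 i1 _ le_rfl,
        if_pos ⟨rfl, rfl⟩, one_mul] at h5
      exact hi1 (leadingCoeff_eq_zero.mp h5)
    · intro i _ hi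
      show (A i1 i.castSucc * ζ i.castSucc).coeff _ = 0
      by_cases hz0 : ζ i.castSucc = 0
      · rw [hz0, mul_zero, coeff_zero]
      · have h5 := hmax i (Finset.mem_univ i)
        have h6 : w i = (ζ i.castSucc).natDegree + bal b nc i + 1 := by rw [hw]; simp [hz0]
        rw [coeff_mul]
        refine Finset.sum_eq_zero fun x hx => ?_
        rw [Finset.HasAntidiagonal.mem_antidiagonal] at hx
        by_cases hx1 : bal b nc i ≤ x.1
        · rw [hA i1 i x.1 hx1, if_neg (fun h => hi h.1.symm), zero_mul]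
        · rw [coeff_eq_zero_of_natDegree_lt (p := ζ i.castSucc) (by omega), mul_zero]
    · intro h; exact absurd (Finset.mem_univ _) h
  funext x
  obtain ⟨⟨j, s⟩, rfl⟩ := e.surjective x
  obtain ⟨h2, h3⟩ := io_II_eq_zero (hzero j)
  fin_cases s
  · exact h2
  · exact h3

/-- The real plant with a given generic complex kernel vector. -/
theorem exists_plant {b nc : ℕ} (hb : 0 < b) (e : Fin (b + 1) × Fin 2 ≃ Fin (2 + 2 * b))
    (u v : Fin (b + 1) → ℝ[X]) (hu : ∀ j, (u j).natDegree ≤ nc) (hv : ∀ j, (v j).natDegree ≤ nc)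
    (hind : AlgebraicIndependent ℚ (fpar nc fun j => io (u j) + II * io (v j)))
    (hlead : (u (Fin.last b)).coeff nc ≠ 0)
    (a b' : Fin (2 + 2 * b) → ℝ[X])
    (ha0 : ∀ j, a (e (j, 0)) = u j) (ha1 : ∀ j, a (e (j, 1)) = v j)
    (hb0 : ∀ j, b' (e (j, 0)) = -v j) (hb1 : ∀ j, b' (e (j, 1)) = u j) :
    ∃ (P : PolyMat (2 * b) (2 + 2 * b)) (d : ℝ), d ≠ 0 ∧
      (∀ r x, (P r x).natDegree ≤ bal b nc ((rowEquiv b).symm r).1) ∧
      ∀ i j, wentry P i j = C d * (a i * b' j - b' i * a j) := by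
  set f : Fin (b + 1) → ℂ[X] := fun j => io (u j) + II * io (v j) with hf
  have hfd : ∀ j, (f j).natDegree ≤ nc := by
    intro j
    rw [hf]
    refine (natDegree_add_le _ _).trans (max_le ?_ ?_)
    · rw [io_natDegree]; exact hu j
    · unfold II
      refine (natDegree_C_mul_le _ _).trans ?_
      rw [io_natDegree]; exact hv j
  obtain ⟨c0, hc0⟩ := exists_bezout hb hfd hind
  obtain ⟨A, hA1, hA2, hA3⟩ := exists_rows hb hfd hind
  set P := realP e A with hP
  have hza : ∀ j, io (a (e (j, 0))) + II * io (a (e (j, 1))) = f j := fun j => by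
    rw [ha0, ha1]
  have hzb : ∀ j, io (b' (e (j, 0))) + II * io (b' (e (j, 1))) = II * f j := fun j => by
    rw [hb0, hb1, map_neg, hf]
    simp only
    linear_combination (-io (v j)) * II_sq
  have hPa : ∀ r, P r ⬝ᵥ a = 0 := by
    rw [hP, realP_dot_iff]
    intro i
    rw [← hA1 i]
    exact Finset.sum_congr rfl fun j _ => by rw [hza]
  have hPb : ∀ r, P r ⬝ᵥ b' = 0 := by
    rw [hP, realP_dot_iff]
    intro i
    have : ∑ j, A i j * (II * f j) = II * ∑ j, A i j * f j := by
      rw [Finset.mul_sum]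
      exact Finset.sum_congr rfl fun j _ => by ring
    rw [hA1 i, mul_zero] at this
    rw [← this]
    exact Finset.sum_congr rfl fun j _ => by rw [hzb]
  set g0 := rowRe e c0 with hg0
  set g1 := rowIm e c0 with hg1
  have hga : g0 ⬝ᵥ a = 1 ∧ g1 ⬝ᵥ a = 0 := by
    apply io_unique
    rw [hg0, hg1, row_dot, map_one, map_zero, mul_zero, add_zero, ← hc0]
    exact Finset.sum_congr rfl fun j _ => by rw [hza]
  have hgb : g0 ⬝ᵥ b' = 0 ∧ g1 ⬝ᵥ b' = 1 := by
    apply io_unique
    rw [hg0, hg1, row_dot, map_one, map_zero, zero_add, ← hc0, Finset.mul_sum]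
    exact Finset.sum_congr rfl fun j _ => by rw [hzb]; ring
  set D := wform P g0 g1 with hD
  have hent := wentry_dual hPa hPb hga.1 hgb.1 hga.2 hgb.2
  -- the constant
  set x0 := e (Fin.last b, 0) with hx0
  set x1 := e (Fin.last b, 1) with hx1
  have hval := hent x0 x1
  have hsq : a x0 * b' x1 - b' x0 * a x1 = u (Fin.last b) ^ 2 + v (Fin.last b) ^ 2 := by
    rw [hx0, hx1, ha0, ha1, hb0, hb1]; ring
  rw [hsq, ← hD] at hval
  have hne : wentry P x0 x1 ≠ 0 := by
    intro h
    unfold wentry wform at h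
    obtain ⟨z, hz, hz0⟩ := Matrix.exists_mulVec_eq_zero_iff.mpr h
    apply hz
    refine realP_injective (nc := nc) e hA3 z (fun r => ?_) ?_ ?_
    · have := congrFun hz0 (Fin.natAdd 2 r)
      simp only [Matrix.mulVec, Pi.zero_apply] at this
      rw [stack_natAdd] at this
      exact this
    · have := congrFun hz0 (Fin.castAdd (2 * b) 0)
      simp only [Matrix.mulVec, Pi.zero_apply] at this
      rw [stack_castAdd, two_apply_zero, single_one_dotProduct] at this
      exact this
    · have := congrFun hz0 (Fin.castAdd (2 * b) 1)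
      simp only [Matrix.mulVec, Pi.zero_apply] at this
      rw [stack_castAdd, two_apply_one, single_one_dotProduct] at this
      exact this
  have hdeg : (wentry P x0 x1).natDegree ≤ 2 * nc := by
    unfold wentry wform
    have h1 := (det_coeff_sum (stack (two (Pi.single x0 1) (Pi.single x1 1)) P)
      (Fin.append (fun _ => 0) fun r => bal b nc ((rowEquiv b).symm r).1) ?_).1
    · refine h1.trans ?_
      rw [Fin.sum_univ_add]
      simp only [Fin.append_left, Fin.append_right, Finset.sum_const_zero, zero_add]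
      rw [← Equiv.sum_comp (rowEquiv b), Fintype.sum_prod_type]
      simp only [Equiv.symm_apply_apply, Fin.sum_univ_two]
      rw [Finset.sum_add_distrib, sum_bal b nc hb]
      omega
    · intro i j
      refine Fin.addCases (fun i => ?_) (fun i => ?_) i
      · rw [stack_castAdd, Fin.append_left]
        fin_cases i
        · show ((Pi.single x0 1 : Fin (2 + 2 * b) → ℝ[X]) j).natDegree ≤ 0
          rw [Pi.single_apply]; split_ifs <;> simp
        · show ((Pi.single x1 1 : Fin (2 + 2 * b) → ℝ[X]) j).natDegree ≤ 0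
          rw [Pi.single_apply]; split_ifs <;> simp
      · rw [stack_natAdd, Fin.append_right]
        exact realP_natDegree e hA2 i j
  have hD0 : D ≠ 0 := by
    intro h
    rw [h, zero_mul] at hval
    exact hne hval
  have hlc : (u (Fin.last b) ^ 2 + v (Fin.last b) ^ 2).coeff (2 * nc) ≠ 0 := by
    have h1 : (u (Fin.last b) ^ 2).coeff (2 * nc) = (u (Fin.last b)).coeff nc ^ 2 := by
      rw [pow_two, two_mul, coeff_mul_add_eq_of_natDegree_le (hu _) (hu _), pow_two]
    have h2 : (v (Fin.last b) ^ 2).coeff (2 * nc) = (v (Fin.last b)).coeff nc ^ 2 := by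
      rw [pow_two, two_mul, coeff_mul_add_eq_of_natDegree_le (hv _) (hv _), pow_two]
    rw [coeff_add, h1, h2]
    have h3 : 0 < (u (Fin.last b)).coeff nc ^ 2 := by positivity
    have h4 := sq_nonneg ((v (Fin.last b)).coeff nc)
    linarith
  have hsq0 : u (Fin.last b) ^ 2 + v (Fin.last b) ^ 2 ≠ 0 := by
    intro h
    rw [h, coeff_zero] at hlc
    exact hlc rfl
  have hDdeg : D.natDegree = 0 := by
    have h1 := natDegree_mul hD0 hsq0
    rw [← hval] at h1
    have h2 := le_natDegree_of_ne_zero hlc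
    omega
  refine ⟨P, D.coeff 0, ?_, realP_natDegree e hA2, fun i j => ?_⟩
  · intro h
    apply hD0
    rw [eq_C_of_natDegree_eq_zero hDdeg, h, C_0]
  · rw [hent i j]
    congr 1
    exact eq_C_of_natDegree_eq_zero hDdeg

end

end Pool.Agent.Helper730_PP
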