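import Pool.Agent.Helper730_PP.FCount
import Pool.Agent.Helper730_PP.Dual

/-!
# Complex polynomial vectors as real ones
-/

open Polynomial

namespace Pool.Agent.Helper730_PP

noncomputable section

variable {ι : Type*}

theorem reP_of {g : ℂ[X]} {a b : ℝ[X]} (h : g = io a + II * io b) : reP g = a ∧ imP g = b := by
  apply io_unique
  rw [io_reP_imP, h]

theorem reP_add (f g : ℂ[X]) : reP (f + g) = reP f + reP g := by
  ext k
  rw [coeff_add, reP_coeff, reP_coeff, reP_coeff, coeff_add, Complex.add_re]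

theorem imP_add (f g : ℂ[X]) : imP (f + g) = imP f + imP g := by
  ext k
  rw [coeff_add, imP_coeff, imP_coeff, imP_coeff, coeff_add, Complex.add_im]

theorem reP_imP_mul (f g : ℂ[X]) : reP (f * g) = reP f * reP g - imP f * imP g ∧
    imP (f * g) = reP f * imP g + imP f * reP g := by
  apply reP_of
  conv_lhs => rw [← io_reP_imP f, ← io_reP_imP g]
  rw [map_sub, map_add, map_mul, map_mul, map_mul, map_mul]
  linear_combination (io (imP f) * io (imP g)) * II_sq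

theorem reP_mul (f g : ℂ[X]) : reP (f * g) = reP f * reP g - imP f * imP g :=
  (reP_imP_mul f g).1

theorem imP_mul (f g : ℂ[X]) : imP (f * g) = reP f * imP g + imP f * reP g :=
  (reP_imP_mul f g).2

theorem reP_io (a : ℝ[X]) : reP (io a) = a := (reP_of (a := a) (b := 0) (by simp)).1

theorem imP_io (a : ℝ[X]) : imP (io a) = 0 := (reP_of (a := a) (b := 0) (by simp)).2

theorem reP_II : reP II = 0 := (reP_of (a := 0) (b := 1) (by simp)).1

theorem imP_II : imP II = 1 := (reP_of (a := 0) (b := 1) (by simp)).2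

theorem reP_zero : reP 0 = 0 := (reP_of (a := 0) (b := 0) (by simp)).1

theorem imP_zero : imP 0 = 0 := (reP_of (a := 0) (b := 0) (by simp)).2

theorem reP_sum {κ : Type*} (s : Finset κ) (f : κ → ℂ[X]) :
    reP (∑ k ∈ s, f k) = ∑ k ∈ s, reP (f k) := by
  ext l
  rw [reP_coeff, finsetSum_coeff, finsetSum_coeff, Complex.re_sum]
  exact Finset.sum_congr rfl fun k _ => (reP_coeff _ _).symm

theorem imP_sum {κ : Type*} (s : Finset κ) (f : κ → ℂ[X]) :
    imP (∑ k ∈ s, f k) = ∑ k ∈ s, imP (f k) := by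
  ext l
  rw [imP_coeff, finsetSum_coeff, finsetSum_coeff, Complex.im_sum]
  exact Finset.sum_congr rfl fun k _ => (imP_coeff _ _).symm

/-- The complex vector of a real one. -/
def cx (v : ι × Fin 2 → ℝ[X]) : ι → ℂ[X] := fun j => io (v (j, 0)) + II * io (v (j, 1))

/-- The real vector of a complex one. -/
def rx (z : ι → ℂ[X]) : ι × Fin 2 → ℝ[X] := fun x =>
  if x.2 = 0 then reP (z x.1) else imP (z x.1)

theorem cx_rx (z : ι → ℂ[X]) : cx (rx z) = z := by
  funext j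
  exact io_reP_imP (z j)

theorem rx_cx (v : ι × Fin 2 → ℝ[X]) : rx (cx v) = v := by
  funext ⟨j, s⟩
  have h := reP_of (g := cx v j) rfl
  fin_cases s
  · exact h.1
  · exact h.2

theorem cx_injective : Function.Injective (cx : (ι × Fin 2 → ℝ[X]) → ι → ℂ[X]) :=
  fun a b h => by rw [← rx_cx a, h, rx_cx]

theorem rx_injective : Function.Injective (rx : (ι → ℂ[X]) → ι × Fin 2 → ℝ[X]) :=
  fun a b h => by rw [← cx_rx a, h, cx_rx]

theorem cx_coeff (v : ι × Fin 2 → ℝ[X]) (j : ι) (k : ℕ) :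
    (cx v j).coeff k = ⟨(v (j, 0)).coeff k, (v (j, 1)).coeff k⟩ := io_II_coeff _ _ _

theorem cx_add (u v : ι × Fin 2 → ℝ[X]) : cx (u + v) = cx u + cx v := by
  funext j
  simp only [cx, Pi.add_apply, map_add]
  ring

theorem cx_zero : cx (0 : ι × Fin 2 → ℝ[X]) = 0 := by
  funext j
  simp [cx]

theorem cx_smul (p : ℝ[X]) (v : ι × Fin 2 → ℝ[X]) : cx (p • v) = io p • cx v := by
  funext j
  simp only [cx, Pi.smul_apply, smul_eq_mul, map_mul]
  ring

theorem cx_sum {κ : Type*} (s : Finset κ) (v : κ → ι × Fin 2 → ℝ[X]) :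
    cx (∑ k ∈ s, v k) = ∑ k ∈ s, cx (v k) := by
  classical
  induction s using Finset.induction_on with
  | empty => simp [cx_zero]
  | insert a s ha ih => rw [Finset.sum_insert ha, Finset.sum_insert ha, cx_add, ih]

theorem rx_add (u v : ι → ℂ[X]) : rx (u + v) = rx u + rx v :=
  cx_injective (by rw [cx_add, cx_rx, cx_rx, cx_rx])

theorem rx_zero : rx (0 : ι → ℂ[X]) = 0 := cx_injective (by rw [cx_rx, cx_zero])

theorem rx_io_smul (p : ℝ[X]) (v : ι → ℂ[X]) : rx (io p • v) = p • rx v :=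
  cx_injective (by rw [cx_rx, cx_smul, cx_rx])

theorem rx_sum {κ : Type*} (s : Finset κ) (v : κ → ι → ℂ[X]) :
    rx (∑ k ∈ s, v k) = ∑ k ∈ s, rx (v k) :=
  cx_injective (by rw [cx_rx, cx_sum]; exact Finset.sum_congr rfl fun k _ => (cx_rx _).symm)

theorem rx_neg (v : ι → ℂ[X]) : rx (-v) = - rx v := by
  have h : rx (-v) + rx v = 0 := by rw [← rx_add, neg_add_cancel, rx_zero]
  exact eq_neg_of_add_eq_zero_left h

theorem rx_smul (p : ℂ[X]) (v : ι → ℂ[X]) :
    rx (p • v) = reP p • rx v + imP p • rx (II • v) := by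
  apply cx_injective
  rw [cx_add, cx_rx, cx_smul, cx_smul, cx_rx, cx_rx, smul_smul, ← add_smul, mul_comm (io (imP p)),
    io_reP_imP]

/-- The weights of the real vector. -/
abbrev w2 (w : ι → ℕ) : ι × Fin 2 → ℕ := fun x => w x.1

theorem cx_mem_Lv {w : ι → ℕ} {t : ℕ} {v : ι × Fin 2 → ℝ[X]} :
    cx v ∈ Lv ℂ w t ↔ v ∈ Lv ℝ (w2 w) t := by
  rw [mem_Lv, mem_Lv]
  constructor
  · rintro h ⟨j, s⟩ k hk
    have h1 := h j k hk
    rw [cx_coeff] at h1
    fin_cases s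
    · exact congrArg Complex.re h1
    · exact congrArg Complex.im h1
  · intro h j k hk
    rw [cx_coeff, h (j, 0) k hk, h (j, 1) k hk]
    rfl

theorem rx_mem_Lv {w : ι → ℕ} {t : ℕ} {z : ι → ℂ[X]} :
    rx z ∈ Lv ℝ (w2 w) t ↔ z ∈ Lv ℂ w t := by
  rw [← cx_mem_Lv, cx_rx]

/-- The real lattice of a complex one. -/
def rl (Λ : Submodule ℂ[X] (ι → ℂ[X])) : Submodule ℝ[X] (ι × Fin 2 → ℝ[X]) where
  carrier := {v | cx v ∈ Λ}
  add_mem' := by
    intro a b ha hb
    show cx (a + b) ∈ Λ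
    rw [cx_add]; exact Λ.add_mem ha hb
  zero_mem' := by
    show cx 0 ∈ Λ
    rw [cx_zero]; exact Λ.zero_mem
  smul_mem' := by
    intro c v hv
    show cx (c • v) ∈ Λ
    rw [cx_smul]; exact Λ.smul_mem _ hv

theorem mem_rl {Λ : Submodule ℂ[X] (ι → ℂ[X])} {v : ι × Fin 2 → ℝ[X]} :
    v ∈ rl Λ ↔ cx v ∈ Λ := Iff.rfl

/-- The largest complex lattice inside a real one. -/
def cmax (U : Submodule ℝ[X] (ι × Fin 2 → ℝ[X])) : Submodule ℂ[X] (ι → ℂ[X]) where
  carrier := {z | rx z ∈ U ∧ rx (II • z) ∈ U}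
  add_mem' := by
    rintro a b ⟨ha, ha'⟩ ⟨hb, hb'⟩
    refine ⟨?_, ?_⟩
    · rw [rx_add]; exact U.add_mem ha hb
    · rw [smul_add, rx_add]; exact U.add_mem ha' hb'
  zero_mem' := by
    refine ⟨?_, ?_⟩
    · rw [rx_zero]; exact U.zero_mem
    · rw [smul_zero, rx_zero]; exact U.zero_mem
  smul_mem' := by
    rintro p z ⟨hz, hz'⟩
    refine ⟨?_, ?_⟩
    · rw [rx_smul]
      exact U.add_mem (U.smul_mem _ hz) (U.smul_mem _ hz')
    · rw [smul_comm, rx_smul, smul_smul, II_sq, neg_smul, one_smul, rx_neg]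
      exact U.add_mem (U.smul_mem _ hz') (U.smul_mem _ (U.neg_mem hz))

theorem mem_cmax {U : Submodule ℝ[X] (ι × Fin 2 → ℝ[X])} {z : ι → ℂ[X]} :
    z ∈ cmax U ↔ rx z ∈ U ∧ rx (II • z) ∈ U := Iff.rfl

theorem rl_cmax_le (U : Submodule ℝ[X] (ι × Fin 2 → ℝ[X])) : rl (cmax U) ≤ U := by
  intro v hv
  have := hv.1
  rwa [rx_cx] at this

/-- The real family of a complex one. -/
def rfam {κ : Type*} (η : κ → ι → ℂ[X]) : κ × Fin 2 → ι × Fin 2 → ℝ[X] := fun x =>
  if x.2 = 0 then rx (η x.1) else rx (II • η x.1)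

theorem rfam_zero {κ : Type*} (η : κ → ι → ℂ[X]) (k : κ) : rfam η (k, 0) = rx (η k) := rfl

theorem rfam_one {κ : Type*} (η : κ → ι → ℂ[X]) (k : κ) : rfam η (k, 1) = rx (II • η k) := rfl

theorem cx_sum_rfam {κ : Type*} [Fintype κ] (η : κ → ι → ℂ[X]) (p : κ × Fin 2 → ℝ[X]) :
    cx (∑ x, p x • rfam η x) = ∑ k, (io (p (k, 0)) + II * io (p (k, 1))) • η k := by
  rw [cx_sum, Fintype.sum_prod_type]
  refine Finset.sum_congr rfl fun k _ => ?_
  rw [Fin.sum_univ_two, cx_smul, cx_smul, rfam_zero, rfam_one, cx_rx, cx_rx, smul_smul,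
    ← add_smul, mul_comm II]

theorem RB.real {κ : Type*} [Fintype κ] {w : ι → ℕ} {δ : κ → ℕ} {η : κ → ι → ℂ[X]}
    (h : RB w δ η) : RB (w2 w) (fun x : κ × Fin 2 => δ x.1) (rfam η) := by
  refine ⟨?_, ?_⟩
  · rintro ⟨k, s⟩
    fin_cases s
    · exact rx_mem_Lv.mpr (h.fil k)
    · refine rx_mem_Lv.mpr ?_
      have h1 := smul_mem_Lv (t := δ k + 1) (h.fil k) (p := II) (fun l hl => by
        unfold II; rw [coeff_C, if_neg (by omega)])
      exact h1
  · rintro p t hp ⟨k, s⟩ l hl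
    rw [← cx_mem_Lv, cx_sum_rfam] at hp
    have h1 := h.pd _ t hp k l hl
    rw [io_II_coeff] at h1
    fin_cases s
    · exact congrArg Complex.re h1
    · exact congrArg Complex.im h1

theorem lat_rfam {κ : Type*} [Fintype κ] (η : κ → ι → ℂ[X]) : lat (rfam η) = rl (lat η) := by
  ext v
  rw [mem_lat, mem_rl, mem_lat]
  constructor
  · rintro ⟨p, rfl⟩
    exact ⟨_, (cx_sum_rfam η p).symm⟩
  · rintro ⟨P, hP⟩
    refine ⟨fun x => if x.2 = 0 then reP (P x.1) else imP (P x.1), ?_⟩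
    apply cx_injective
    rw [cx_sum_rfam, ← hP]
    refine Finset.sum_congr rfl fun k _ => ?_
    rw [if_pos rfl, if_neg (by simp), io_reP_imP]

theorem sum_fin2 {κ : Type*} [Fintype κ] (f : κ → ℕ) : ∑ x : κ × Fin 2, f x.1 = 2 * ∑ k, f k := by
  rw [Fintype.sum_prod_type, Finset.mul_sum]
  exact Finset.sum_congr rfl fun k _ => by rw [Fin.sum_univ_two]; ring

theorem finrank_lev_rl {κ : Type*} [Fintype κ] {w : ι → ℕ} {δ : κ → ℕ} {η : κ → ι → ℂ[X]}
    (h : RB w δ η) (t : ℕ) :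
    Module.finrank ℝ (lev (rl (lat η)) (w2 w) t) = 2 * ∑ k, (t - δ k) := by
  rw [← lat_rfam, h.real.finrank_lev, sum_fin2 fun k => t - δ k]

/-! ### Rationality -/

/-- The complex numbers with real and imaginary part in `F₁`. -/
def cplx (F₁ : Subfield ℝ) : Subfield ℂ where
  carrier := {z | z.re ∈ F₁ ∧ z.im ∈ F₁}
  mul_mem' := by
    rintro a b ⟨h1, h2⟩ ⟨h3, h4⟩
    refine ⟨?_, ?_⟩
    · rw [Complex.mul_re]; exact F₁.sub_mem (F₁.mul_mem h1 h3) (F₁.mul_mem h2 h4)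
    · rw [Complex.mul_im]; exact F₁.add_mem (F₁.mul_mem h1 h4) (F₁.mul_mem h2 h3)
  one_mem' := ⟨F₁.one_mem, F₁.zero_mem⟩
  add_mem' := by
    rintro a b ⟨h1, h2⟩ ⟨h3, h4⟩
    refine ⟨?_, ?_⟩
    · rw [Complex.add_re]; exact F₁.add_mem h1 h3
    · rw [Complex.add_im]; exact F₁.add_mem h2 h4
  zero_mem' := ⟨F₁.zero_mem, F₁.zero_mem⟩
  neg_mem' := by
    rintro a ⟨h1, h2⟩
    refine ⟨?_, ?_⟩
    · rw [Complex.neg_re]; exact F₁.neg_mem h1
    · rw [Complex.neg_im]; exact F₁.neg_mem h2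
  inv_mem' := by
    rintro a ⟨h1, h2⟩
    have h3 : Complex.normSq a ∈ F₁ := by
      rw [Complex.normSq_apply]; exact F₁.add_mem (F₁.mul_mem h1 h1) (F₁.mul_mem h2 h2)
    refine ⟨?_, ?_⟩
    · rw [Complex.inv_re]; exact F₁.div_mem h1 h3
    · rw [Complex.inv_im]; exact F₁.div_mem (F₁.neg_mem h2) h3

theorem mem_cplx {F₁ : Subfield ℝ} {z : ℂ} : z ∈ cplx F₁ ↔ z.re ∈ F₁ ∧ z.im ∈ F₁ := Iff.rfl

theorem cplx_mono {F₁ F₂ : Subfield ℝ} (h : F₁ ≤ F₂) : cplx F₁ ≤ cplx F₂ :=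
  fun _ hz => ⟨h hz.1, h hz.2⟩

theorem isRat_cx {F₁ : Subfield ℝ} {v : ι × Fin 2 → ℝ[X]} :
    IsRat (cplx F₁) (cx v) ↔ IsRat F₁ v := by
  constructor
  · rintro h ⟨j, s⟩ k
    have h1 := h j k
    rw [cx_coeff, mem_cplx] at h1
    fin_cases s
    · exact h1.1
    · exact h1.2
  · intro h j k
    rw [cx_coeff, mem_cplx]
    exact ⟨h (j, 0) k, h (j, 1) k⟩

/-- The complex functional extending a real one. -/
def cfun {F₁ : Subfield ℝ} (π : ℝ →ₗ[F₁] F₁) : ℂ →ₗ[cplx F₁] cplx F₁ where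
  toFun z := ⟨⟨π z.re, π z.im⟩, (π z.re).2, (π z.im).2⟩
  map_add' a b := by
    apply Subtype.ext
    apply Complex.ext
    · show ((π (a + b).re : F₁) : ℝ) = (π a.re : ℝ) + (π b.re : ℝ)
      rw [Complex.add_re, map_add]; rfl
    · show ((π (a + b).im : F₁) : ℝ) = (π a.im : ℝ) + (π b.im : ℝ)
      rw [Complex.add_im, map_add]; rfl
  map_smul' c z := by
    obtain ⟨c, hc⟩ := c
    have key : ∀ (a : ℝ) (ha : a ∈ F₁) (x : ℝ), ((π (a * x) : F₁) : ℝ) = a * (π x : ℝ) := by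
      intro a ha x
      have h := map_smul π (⟨a, ha⟩ : F₁) x
      have h2 := congrArg (fun y : F₁ => (y : ℝ)) h
      exact h2
    apply Subtype.ext
    apply Complex.ext
    · show ((π (c * z).re : F₁) : ℝ) = (c * (⟨π z.re, π z.im⟩ : ℂ)).re
      rw [Complex.mul_re, map_sub, Complex.mul_re]
      push_cast
      rw [key _ hc.1, key _ hc.2]
    · show ((π (c * z).im : F₁) : ℝ) = (c * (⟨π z.re, π z.im⟩ : ℂ)).im
      rw [Complex.mul_im, map_add, Complex.mul_im]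
      push_cast
      rw [key _ hc.1, key _ hc.2]

theorem cx_Pv {F₁ : Subfield ℝ} (π : ℝ →ₗ[F₁] F₁) (v : ι × Fin 2 → ℝ[X]) :
    cx (Pv π v) = Pv (cfun π) (cx v) :=
  ext_coeff fun j k => by
    rw [cx_coeff, Pv_coeff, Pv_coeff, Pv_coeff, cx_coeff]
    rfl

theorem Dfn.real {F₁ : Subfield ℝ} {w : ι → ℕ} {t : ℕ} {Λ : Submodule ℂ[X] (ι → ℂ[X])}
    (h : Dfn (cplx F₁) (lev Λ w t)) : Dfn F₁ (lev (rl Λ) (w2 w) t) := by
  intro π v hv
  rw [mem_lev, mem_rl, ← cx_mem_Lv, ← mem_lev] at hv ⊢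
  rw [cx_Pv]
  exact h _ _ hv

/-! ### Positivity, and the rank of an orthogonal lattice -/

theorem sum_sq_eq_zero [Fintype ι] {v : ι → ℝ[X]} (h : ∑ j, v j * v j = 0) : v = 0 := by
  funext j
  refine Polynomial.funext fun x => ?_
  have h1 := congrArg (fun p => p.eval x) h
  simp only [eval_finsetSum, eval_mul, eval_zero] at h1
  have h2 := (Finset.sum_eq_zero_iff_of_nonneg (fun i _ => mul_self_nonneg ((v i).eval x))).mp h1
    j (Finset.mem_univ j)
  rw [Pi.zero_apply, eval_zero]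
  exact mul_self_eq_zero.mp h2

theorem sum_cj_eq_zero [Fintype ι] {v : ι → ℂ[X]} (h : ∑ j, cj (v j) * v j = 0) : v = 0 := by
  have h1 : ∑ j, cj (v j) * v j = io (∑ x : ι × Fin 2, rx v x * rx v x) := by
    rw [Fintype.sum_prod_type, map_sum]
    refine Finset.sum_congr rfl fun j _ => ?_
    rw [Fin.sum_univ_two]
    have h2 := io_reP_imP (v j)
    have h3 : rx v (j, 0) = reP (v j) := rfl
    have h4 : rx v (j, 1) = imP (v j) := rfl
    rw [h3, h4]
    conv_lhs => rw [← h2]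
    rw [map_add, map_mul, cj_io, cj_io, cj_II, map_add, map_mul, map_mul]
    linear_combination (-(io (imP (v j)) * io (imP (v j)))) * II_sq
  rw [h1, io_eq_zero] at h
  have h2 := sum_sq_eq_zero h
  rw [← cx_rx v, h2, cx_zero]

theorem card_le_of_perp {F : Type*} [Field F] [Fintype ι] (σ : F[X] →+* F[X])
    (hσ : ∀ x, σ (σ x) = x)
    (hpos : ∀ v : ι → F[X], ∑ j, σ (v j) * v j = 0 → v = 0) {κ κ' : Type*} [Fintype κ]
    [Fintype κ'] {η : κ → ι → F[X]} {η' : κ' → ι → F[X]} (h : LinearIndependent F[X] η)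
    (h' : LinearIndependent F[X] η') (hp : ∀ k, η' k ∈ perp (lat η)) :
    Fintype.card κ + Fintype.card κ' ≤ Fintype.card ι := by
  have hli : LinearIndependent F[X]
      (Sum.elim (fun k => fun j => σ (η k j)) η' : κ ⊕ κ' → ι → F[X]) := by
    rw [Fintype.linearIndependent_iff] at h h' ⊢
    intro g hg
    rw [Fintype.sum_sum_type] at hg
    simp only [Sum.elim_inl, Sum.elim_inr] at hg
    set x : ι → F[X] := ∑ k, σ (g (Sum.inl k)) • η k with hx
    have hσx : ∀ j, σ (x j) = (∑ k, g (Sum.inl k) • fun j => σ (η k j)) j := by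
      intro j
      rw [hx, Finset.sum_apply, Finset.sum_apply, map_sum]
      refine Finset.sum_congr rfl fun k _ => ?_
      rw [Pi.smul_apply, Pi.smul_apply, smul_eq_mul, smul_eq_mul, map_mul, hσ]
    have hxl : x ∈ lat η := mem_lat.mpr ⟨_, rfl⟩
    have hσxp : (fun j => σ (x j)) ∈ perp (lat η) := by
      have h1 : (fun j => σ (x j)) = - ∑ k, g (Sum.inr k) • η' k := by
        rw [← eq_neg_iff_add_eq_zero] at hg
        rw [← hg]
        funext j
        exact hσx j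
      rw [h1]
      exact Submodule.neg_mem _ (Submodule.sum_mem _ fun k _ => Submodule.smul_mem _ _ (hp k))
    have h0 := hσxp x hxl
    rw [dotL_apply] at h0
    have hx0 : x = 0 := hpos x h0
    have h1 : ∀ k, g (Sum.inl k) = 0 := by
      intro k
      have := h _ hx0 k
      have h2 := congrArg σ this
      rwa [hσ, map_zero] at h2
    have h2 : ∑ k, g (Sum.inr k) • η' k = 0 := by
      have h3 : ∑ k, g (Sum.inl k) • (fun j => σ (η k j)) = 0 :=
        Finset.sum_eq_zero fun k _ => by rw [h1 k, zero_smul]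
      rwa [h3, zero_add] at hg
    rintro (k | k)
    · exact h1 k
    · exact h' _ h2 k
  have h1 := hli.fintype_card_le_finrank
  rwa [Fintype.card_sum, Module.finrank_fintype_fun_eq_card] at h1

theorem card_le_of_perp_real [Fintype ι] {κ κ' : Type*} [Fintype κ]
    [Fintype κ'] {η : κ → ι → ℝ[X]} {η' : κ' → ι → ℝ[X]} (h : LinearIndependent ℝ[X] η)
    (h' : LinearIndependent ℝ[X] η') (hp : ∀ k, η' k ∈ perp (lat η)) :
    Fintype.card κ + Fintype.card κ' ≤ Fintype.card ι :=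
  card_le_of_perp (RingHom.id _) (fun _ => rfl) (fun _ hv => sum_sq_eq_zero hv) h h' hp

theorem card_le_of_perp_complex [Fintype ι] {κ κ' : Type*} [Fintype κ]
    [Fintype κ'] {η : κ → ι → ℂ[X]} {η' : κ' → ι → ℂ[X]} (h : LinearIndependent ℂ[X] η)
    (h' : LinearIndependent ℂ[X] η') (hp : ∀ k, η' k ∈ perp (lat η)) :
    Fintype.card κ + Fintype.card κ' ≤ Fintype.card ι :=
  card_le_of_perp cj cj_cj (fun _ hv => sum_cj_eq_zero hv) h h' hp

end

end Pool.Agent.Helper730_PP
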