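import Pool.Agent.Helper730_PP.NoKernel

/-!
# The generic complex plant
-/

open Polynomial

namespace Pool.Agent.Helper730_PP

noncomputable section

/-- The real polynomial with `d` given coefficients. -/
def ofC {d : ℕ} (s : Fin d → ℝ) : ℝ[X] := ∑ l : Fin d, C (s l) * X ^ (l : ℕ)

theorem ofC_coeff {d : ℕ} (s : Fin d → ℝ) (k : ℕ) :
    (ofC s).coeff k = if h : k < d then s ⟨k, h⟩ else 0 := by
  unfold ofC
  rw [finsetSum_coeff]
  split_ifs with h
  · rw [Finset.sum_eq_single ⟨k, h⟩]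
    · rw [coeff_C_mul_X_pow, if_pos rfl]
    · intro b _ hb
      rw [coeff_C_mul_X_pow, if_neg (fun h' => hb (Fin.ext h'.symm))]
    · intro h; exact absurd (Finset.mem_univ _) h
  · refine Finset.sum_eq_zero fun l _ => ?_
    rw [coeff_C_mul_X_pow, if_neg (by have := l.2; omega)]

variable {b c : ℕ}

/-- The indices of the parameters. -/
abbrev PI (b c : ℕ) (D : ℕ) (w : Fin b → ℕ) : Type :=
  Σ i : Fin b, Fin c × Fin 2 × Fin (D + 1 - w i)

theorem card_PI (D : ℕ) (w : Fin b → ℕ) :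
    Fintype.card (PI b c D w) = 2 * c * ∑ i, (D + 1 - w i) := by
  rw [Fintype.card_sigma, Finset.mul_sum]
  refine Finset.sum_congr rfl fun i _ => ?_
  rw [Fintype.card_prod, Fintype.card_prod, Fintype.card_fin, Fintype.card_fin, Fintype.card_fin]
  ring

/-- The plant with given parameters. -/
def matA {D : ℕ} {w : Fin b → ℕ} (t : PI b c D w → ℝ) : Fin b → Fin c → ℂ[X] := fun i j =>
  io (ofC fun l => t ⟨i, j, 0, l⟩) + II * io (ofC fun l => t ⟨i, j, 1, l⟩)

theorem matA_coeff {D : ℕ} {w : Fin b → ℕ} (t : PI b c D w → ℝ) (i : Fin b) (j : Fin c) (k : ℕ) :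
    (matA t i j).coeff k = ⟨if h : k < D + 1 - w i then t ⟨i, j, 0, ⟨k, h⟩⟩ else 0,
      if h : k < D + 1 - w i then t ⟨i, j, 1, ⟨k, h⟩⟩ else 0⟩ := by
  unfold matA
  rw [io_II_coeff, ofC_coeff, ofC_coeff]

theorem matA_deg {D : ℕ} {w : Fin b → ℕ} (t : PI b c D w → ℝ) (i : Fin b) (j : Fin c) (k : ℕ)
    (hk : D + 1 ≤ k + w i) : (matA t i j).coeff k = 0 := by
  rw [matA_coeff, dif_neg (by omega), dif_neg (by omega)]
  rfl

/-- The real part of a subfield of `ℂ`. -/
def rsub (K : Subfield ℂ) : Subfield ℝ := K.comap Complex.ofRealHom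

theorem mem_rsub {K : Subfield ℂ} {x : ℝ} : x ∈ rsub K ↔ (x : ℂ) ∈ K := Iff.rfl

theorem cplx_rsub_le {K : Subfield ℂ} (hK : GoodField K) {z : ℂ} (h : z ∈ cplx (rsub K)) :
    z ∈ K := hK.re_im h.1 h.2

theorem matA_gen {D : ℕ} {w : Fin b → ℕ} {t : PI b c D w → ℝ} (ht : AlgebraicIndependent ℚ t) :
    Gen (matA t) (2 * c * ∑ i, (D + 1 - w i)) := by
  intro S hS
  obtain ⟨K, hK, hSK, hcard⟩ := exists_goodField (S : Set ℝ)
  have h1 := hS (rsub K) (fun s hs => hSK s hs)
  have h2 := hcard t ht (fun x => by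
    obtain ⟨i, j, r, l⟩ := x
    have h3 := h1 i j l
    rw [matA_coeff, mem_cplx, dif_pos l.2, dif_pos l.2] at h3
    fin_cases r
    · exact h3.1
    · exact h3.2)
  rw [card_PI, Set.encard_coe_eq_coe_finsetCard] at h2
  exact_mod_cast h2

/-- The matrix of the real plant on the first coordinates. -/
def Nmat (hbc : b ≤ c) (A : Fin b → Fin c → ℂ[X]) : Matrix (Fin b × Fin 2) (Fin b × Fin 2) ℝ[X] :=
  Matrix.of fun x y => Ar A (Pi.single (Fin.castLE hbc y.1, y.2) 1) x

theorem cx_single_zero (j : Fin c) :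
    cx (Pi.single (j, (0 : Fin 2)) 1 : Fin c × Fin 2 → ℝ[X]) = Pi.single j 1 := by
  funext l
  unfold cx
  by_cases h : l = j
  · subst h
    rw [Pi.single_eq_same, Pi.single_eq_same, Pi.single_eq_of_ne (by simp)]
    simp
  · rw [Pi.single_eq_of_ne h, Pi.single_eq_of_ne (by simp [h]), Pi.single_eq_of_ne (by simp)]
    simp

theorem cx_single_one (j : Fin c) :
    cx (Pi.single (j, (1 : Fin 2)) 1 : Fin c × Fin 2 → ℝ[X]) = Pi.single j II := by
  funext l
  unfold cx
  by_cases h : l = j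
  · subst h
    rw [Pi.single_eq_same, Pi.single_eq_same, Pi.single_eq_of_ne (by simp)]
    simp
  · rw [Pi.single_eq_of_ne h, Pi.single_eq_of_ne (by simp), Pi.single_eq_of_ne (by simp [h])]
    simp

theorem Ac_single (A : Fin b → Fin c → ℂ[X]) (j : Fin c) (p : ℂ[X]) (i : Fin b) :
    Ac A (Pi.single j p) i = p * A i j := by
  rw [Ac_apply, Finset.sum_eq_single j]
  · rw [Pi.single_eq_same]
  · intro l _ hl
    rw [Pi.single_eq_of_ne hl, zero_mul]
  · intro h; exact absurd (Finset.mem_univ _) h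

theorem Ar_single_zero (A : Fin b → Fin c → ℂ[X]) (j : Fin c) (i : Fin b) :
    Ar A (Pi.single (j, 0) 1) (i, 0) = reP (A i j) ∧
      Ar A (Pi.single (j, 0) 1) (i, 1) = imP (A i j) := by
  rw [Ar_apply, cx_single_zero]
  refine ⟨?_, ?_⟩
  · show reP (Ac A (Pi.single j 1) i) = _
    rw [Ac_single, one_mul]
  · show imP (Ac A (Pi.single j 1) i) = _
    rw [Ac_single, one_mul]

theorem Ar_single_one (A : Fin b → Fin c → ℂ[X]) (j : Fin c) (i : Fin b) :
    Ar A (Pi.single (j, 1) 1) (i, 0) = - imP (A i j) ∧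
      Ar A (Pi.single (j, 1) 1) (i, 1) = reP (A i j) := by
  rw [Ar_apply, cx_single_one]
  refine ⟨?_, ?_⟩
  · show reP (Ac A (Pi.single j II) i) = _
    rw [Ac_single, reP_mul, reP_II, imP_II]; ring
  · show imP (Ac A (Pi.single j II) i) = _
    rw [Ac_single, imP_mul, reP_II, imP_II]; ring

theorem Nmat_det_ne {D : ℕ} {w : Fin b → ℕ} (hw : ∀ i, w i ≤ D) (hbc : b ≤ c)
    {t : PI b c D w → ℝ} (ht : AlgebraicIndependent ℚ t) : (Nmat hbc (matA t)).det ≠ 0 := by
  classical
  set idx : Fin b → Fin b → Fin 2 → PI b c D w := fun i j r =>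
    ⟨i, Fin.castLE hbc j, r, ⟨0, by have := hw i; omega⟩⟩ with hidx
  set M : Matrix (Fin b × Fin 2) (Fin b × Fin 2) (MvPolynomial (PI b c D w) ℚ) :=
    Matrix.of fun x y => if y.2 = 0 then MvPolynomial.X (idx x.1 y.1 x.2)
      else if x.2 = 0 then - MvPolynomial.X (idx x.1 y.1 1)
      else MvPolynomial.X (idx x.1 y.1 0) with hM
  have h0 : ∀ i j, (matA t i (Fin.castLE hbc j)).coeff 0 = ⟨t (idx i j 0), t (idx i j 1)⟩ := by
    intro i j
    rw [matA_coeff, dif_pos (by have := hw i; omega), dif_pos (by have := hw i; omega)]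
  have hMt : (MvPolynomial.aeval t).mapMatrix M = (Nmat hbc (matA t)).map (coeff · 0) := by
    refine Matrix.ext ?_
    rintro ⟨i, r⟩ ⟨j, s⟩
    rw [AlgHom.mapMatrix_apply, Matrix.map_apply, Matrix.map_apply, hM]
    unfold Nmat
    simp only [Matrix.of_apply]
    fin_cases s
    · simp only [Fin.zero_eta, if_true]
      rw [MvPolynomial.aeval_X]
      fin_cases r
      · simp only [Fin.zero_eta]
        rw [(Ar_single_zero _ _ _).1, reP_coeff, h0]
      · simp only [Fin.mk_one]
        rw [(Ar_single_zero _ _ _).2, imP_coeff, h0]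
    · simp only [Fin.mk_one, one_ne_zero, if_false]
      fin_cases r
      · simp only [Fin.zero_eta, if_true]
        rw [(Ar_single_one _ _ _).1, coeff_neg, imP_coeff, h0, map_neg, MvPolynomial.aeval_X]
      · simp only [Fin.mk_one, one_ne_zero, if_false]
        rw [(Ar_single_one _ _ _).2, reP_coeff, h0, MvPolynomial.aeval_X]
  have hMne : M.det ≠ 0 := by
    intro hdet
    set pt : PI b c D w → ℚ := fun x => if (x.2.1 : ℕ) = x.1 ∧ x.2.2.1 = 0 then 1 else 0 with hpt
    have hpt0 : ∀ i j, pt (idx i j 0) = if i = j then 1 else 0 := by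
      intro i j
      rw [hpt, hidx]
      simp only [Fin.val_castLE, and_true]
      by_cases h : i = j
      · rw [if_pos h, if_pos (by rw [h])]
      · rw [if_neg h, if_neg (fun h' => h (Fin.ext h'.symm))]
    have hpt1 : ∀ i j, pt (idx i j 1) = 0 := by
      intro i j
      rw [hpt, hidx]
      simp only [one_ne_zero, and_false, if_false]
    have h1 : (MvPolynomial.eval pt).mapMatrix M = 1 := by
      refine Matrix.ext ?_
      rintro ⟨i, r⟩ ⟨j, s⟩
      rw [RingHom.mapMatrix_apply, Matrix.map_apply, hM]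
      simp only [Matrix.of_apply]
      rw [Matrix.one_apply]
      fin_cases s
      · simp only [Fin.zero_eta, if_true]
        rw [MvPolynomial.eval_X]
        fin_cases r
        · simp only [Fin.zero_eta]
          rw [hpt0]
          simp only [Prod.mk.injEq, and_true]
        · simp only [Fin.mk_one]
          rw [hpt1]
          simp only [Prod.mk.injEq, one_ne_zero, and_false, if_false]
      · simp only [Fin.mk_one, one_ne_zero, if_false]
        fin_cases r
        · simp only [Fin.zero_eta, if_true]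
          rw [map_neg, MvPolynomial.eval_X, hpt1, neg_zero]
          simp only [Prod.mk.injEq, zero_ne_one, and_false, if_false]
        · simp only [Fin.mk_one, one_ne_zero, if_false]
          rw [MvPolynomial.eval_X, hpt0]
          simp only [Prod.mk.injEq, and_true]
    have h2 := congrArg (MvPolynomial.eval pt) hdet
    rw [RingHom.map_det, h1, Matrix.det_one, map_zero] at h2
    exact one_ne_zero h2
  intro hdet
  apply hMne
  refine (algebraicIndependent_iff.mp ht) _ ?_
  have h3 : (MvPolynomial.aeval t : MvPolynomial (PI b c D w) ℚ →ₐ[ℚ] ℝ) M.det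
      = ((MvPolynomial.aeval t).mapMatrix M).det := AlgHom.map_det _ _
  rw [h3, hMt]
  have h4 : (Nmat hbc (matA t)).map (coeff · 0)
      = (Polynomial.evalRingHom (0 : ℝ)).mapMatrix (Nmat hbc (matA t)) := by
    refine Matrix.ext fun x y => ?_
    rw [Matrix.map_apply, RingHom.mapMatrix_apply, Matrix.map_apply, coe_evalRingHom,
      coeff_zero_eq_eval_zero]
  rw [h4, ← RingHom.map_det, hdet, map_zero]

theorem matA_full {D : ℕ} {w : Fin b → ℕ} (hw : ∀ i, w i ≤ D) (hbc : b ≤ c)
    {t : PI b c D w → ℝ} (ht : AlgebraicIndependent ℚ t) :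
    ∃ z : ℝ[X], z ≠ 0 ∧ ∀ y : Fin b × Fin 2 → ℝ[X], ∃ v, Ar (matA t) v = z • y := by
  classical
  refine ⟨_, Nmat_det_ne hw hbc ht, fun y => ?_⟩
  set N := Nmat hbc (matA t) with hN
  refine ⟨∑ x, (N.adjugate.mulVec y) x • Pi.single (Fin.castLE hbc x.1, x.2) 1, ?_⟩
  have h1 : ∀ u : Fin b × Fin 2 → ℝ[X],
      Ar (matA t) (∑ x, u x • Pi.single (Fin.castLE hbc x.1, x.2) 1) = N.mulVec u := by
    intro u
    funext x
    rw [map_sum, Finset.sum_apply, Matrix.mulVec, dotProduct]
    refine Finset.sum_congr rfl fun y _ => ?_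
    rw [map_smul, Pi.smul_apply, smul_eq_mul, mul_comm]
    rfl
  rw [h1, Matrix.mulVec_mulVec, Matrix.mul_adjugate, Matrix.smul_mulVec, Matrix.one_mulVec]

end

end Pool.Agent.Helper730_PP
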