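import Pool.Agent.Helper730_PP.Gauge
import Pool.Agent.Helper730_PP.GenA

/-!
# Generic combinations of a reduced family
-/

open Polynomial

namespace Pool.Agent.Helper730_PP

noncomputable section

section

variable {F : Type*} [Field F] {ι : Type*} {r : ℕ} {δ1 : Fin r → ℕ}

theorem RB.gauge {w : ι → ℕ} {v : Fin r → ι → F[X]} (h : RB w δ1 v)
    {γ : Fin r → Fin r → F[X]} (hγ : RB δ1 δ1 γ) : RB w δ1 (fun k => ∑ m, γ k m • v m) := by
  refine ⟨fun k => Submodule.sum_mem _ fun m _ => smul_mem_Lv (h.fil m) fun l hl =>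
    hγ.fil k m l hl, fun p t hp => ?_⟩
  have h1 : ∑ k, p k • ∑ m, γ k m • v m = ∑ m, (∑ k, p k • γ k) m • v m := by
    simp only [Finset.smul_sum, Finset.sum_apply, Finset.sum_smul, Pi.smul_apply, smul_smul,
      smul_eq_mul]
    exact Finset.sum_comm
  rw [h1] at hp
  exact hγ.pd p t fun m l hl => h.pd _ t hp m l hl

theorem gauge_top {γ : Fin r → Fin r → F[X]} (hγ : RB δ1 δ1 γ) : lat γ = ⊤ := by
  rw [eq_top_iff]
  intro v _
  obtain ⟨t, ht⟩ := exists_mem_Lv δ1 v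
  have h1 : lev (lat γ) δ1 t = Lv F δ1 t := by
    refine Submodule.eq_of_le_of_finrank_eq (inf_le_right) ?_
    rw [hγ.finrank_lev, finrank_Lv]
  rw [← h1] at ht
  exact (mem_lev.mp ht).1

theorem lat_gauge {v : Fin r → ι → F[X]} {γ : Fin r → Fin r → F[X]} (hγ : RB δ1 δ1 γ) :
    lat (fun k => ∑ m, γ k m • v m) = lat v := by
  apply le_antisymm
  · rw [Submodule.span_le]
    rintro _ ⟨k, rfl⟩
    exact mem_lat.mpr ⟨_, rfl⟩
  · intro x hx
    obtain ⟨p, rfl⟩ := mem_lat.mp hx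
    have h1 : p ∈ lat γ := by rw [gauge_top hγ]; exact Submodule.mem_top
    obtain ⟨q, hq⟩ := mem_lat.mp h1
    refine mem_lat.mpr ⟨q, ?_⟩
    rw [← hq]
    simp only [Finset.smul_sum, Finset.sum_apply, Finset.sum_smul, Pi.smul_apply, smul_smul,
      smul_eq_mul]
    exact Finset.sum_comm

end

section

variable {r : ℕ}

/-- The indices of the gauge parameters. -/
abbrev GI (δ1 : Fin r → ℕ) : Type := Σ k : Fin r, Σ m : Fin r, Fin (δ1 k + 1 - δ1 m)

theorem card_GI (δ1 : Fin r → ℕ) : Fintype.card (GI δ1) = ∑ k, ∑ m, (δ1 k + 1 - δ1 m) := by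
  rw [Fintype.card_sigma]
  refine Finset.sum_congr rfl fun k _ => ?_
  rw [Fintype.card_sigma]
  exact Finset.sum_congr rfl fun m _ => Fintype.card_fin _

/-- The gauge matrix. -/
def gam {δ1 : Fin r → ℕ} (G : GI δ1 → ℝ) : Fin r → Fin r → ℝ[X] :=
  fun k m => ofC fun l => G ⟨k, m, l⟩

theorem gam_coeff {δ1 : Fin r → ℕ} (G : GI δ1 → ℝ) (k m : Fin r) (l : ℕ) :
    (gam G k m).coeff l = if h : l < δ1 k + 1 - δ1 m then G ⟨k, m, ⟨l, h⟩⟩ else 0 := ofC_coeff _ _

theorem exists_G {δ1 : Fin r → ℕ} (hr : 0 < r) {n : ℕ}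
    (hn : n + 1 = ∑ k, ∑ m, (δ1 k + 1 - δ1 m)) {g : Fin n → ℝ} (hg : AlgebraicIndependent ℚ g) :
    ∃ G : GI δ1 → ℝ, (∃ x, G x = 1) ∧ (∀ i, ∃ x, g i = G x) ∧ RB δ1 δ1 (gam G) := by
  classical
  set x0 : GI δ1 := ⟨⟨0, hr⟩, ⟨0, hr⟩, ⟨0, by omega⟩⟩ with hx0
  have hcard : Fintype.card {x : GI δ1 // x ≠ x0} = n := by
    rw [Fintype.card_subtype_compl, Fintype.card_subtype_eq, card_GI]
    omega
  set e : {x : GI δ1 // x ≠ x0} ≃ Fin n := Fintype.equivFinOfCardEq hcard with he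
  set G : GI δ1 → ℝ := fun x => if h : x = x0 then 1 else g (e ⟨x, h⟩) with hG
  refine ⟨G, ⟨x0, by rw [hG]; simp⟩, fun i => ⟨(e.symm i).1, ?_⟩, ?_⟩
  · rw [hG]
    simp only
    rw [dif_neg (e.symm i).2, Subtype.coe_eta, Equiv.apply_symm_apply]
  -- the polynomial matrix
  set fP : GI δ1 → MvPolynomial (Fin n) ℚ :=
    fun x => if h : x = x0 then 1 else MvPolynomial.X (e ⟨x, h⟩) with hfP
  have hfPG : ∀ x, (MvPolynomial.aeval g : MvPolynomial (Fin n) ℚ →ₐ[ℚ] ℝ) (fP x) = G x := by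
    intro x
    rw [hfP, hG]
    simp only
    split_ifs
    · rw [map_one]
    · rw [MvPolynomial.aeval_X]
  set dg : GI δ1 → ℚ := fun x => if x.1 = x.2.1 then 1 else 0 with hdg
  set pt : Fin n → ℚ := fun i => dg (e.symm i).1 with hpt
  have hpte : ∀ (x : GI δ1) (h : x ≠ x0), pt (e ⟨x, h⟩) = dg x := by
    intro x h
    show dg (e.symm (e ⟨x, h⟩)).1 = dg x
    rw [Equiv.symm_apply_apply]
  have hfPpt : ∀ x : GI δ1, MvPolynomial.eval pt (fP x) = if x.1 = x.2.1 then 1 else 0 := by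
    intro x
    rw [hfP]
    simp only
    split_ifs with h h' h'
    · rw [map_one]
    · exfalso; apply h'; rw [h]
    · rw [MvPolynomial.eval_X, hpte]
      exact if_pos h'
    · rw [MvPolynomial.eval_X, hpte]
      exact if_neg h'
  set MP : Matrix (Fin r) (Fin r) (MvPolynomial (Fin n) ℚ) := Matrix.of fun k m =>
    if h : δ1 m ≤ δ1 k then fP ⟨k, m, ⟨δ1 k - δ1 m, by omega⟩⟩ else 0 with hMP
  have hMP1 : (MvPolynomial.eval pt).mapMatrix MP = 1 := by
    refine Matrix.ext fun k m => ?_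
    rw [RingHom.mapMatrix_apply, Matrix.map_apply, hMP]
    simp only [Matrix.of_apply]
    rw [Matrix.one_apply]
    split_ifs with h h' h'
    · rw [hfPpt, if_pos h']
    · rw [hfPpt, if_neg h']
    · exfalso; apply h; rw [h']
    · rw [map_zero]
  have hdetP : MP.det ≠ 0 := by
    intro h
    have h2 := congrArg (MvPolynomial.eval pt) h
    rw [RingHom.map_det, hMP1, Matrix.det_one, map_zero] at h2
    exact one_ne_zero h2
  set M : Matrix (Fin r) (Fin r) ℝ := Matrix.of fun k m => ld δ1 (δ1 k) (gam G k) m with hM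
  have hMM : (MvPolynomial.aeval g).mapMatrix MP = M := by
    refine Matrix.ext fun k m => ?_
    rw [AlgHom.mapMatrix_apply, Matrix.map_apply, hMP, hM]
    simp only [Matrix.of_apply]
    unfold ld
    split_ifs with h
    · rw [hfPG, gam_coeff, dif_pos (by omega)]
    · rw [map_zero]
  have hdet : M.det ≠ 0 := by
    intro h
    apply hdetP
    refine (algebraicIndependent_iff.mp hg) _ ?_
    have h3 : (MvPolynomial.aeval g : MvPolynomial (Fin n) ℚ →ₐ[ℚ] ℝ) MP.det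
        = ((MvPolynomial.aeval g).mapMatrix MP).det := AlgHom.map_det _ _
    rw [h3, hMM, h]
  refine RB.of_ld (fun k m l hl => ?_) fun α hα => ?_
  · rw [gam_coeff, dif_neg (by omega)]
  · have h1 : Matrix.vecMul α M = 0 := by
      funext m
      rw [Matrix.vecMul, dotProduct, Pi.zero_apply]
      exact hα m
    exact Matrix.eq_zero_of_vecMul_eq_zero hdet h1

end

end

end Pool.Agent.Helper730_PP
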