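import Pool.Agent.Helper730_PP.RealQ

/-!
# Compactness in Plücker coordinates, for all `m` and `p`
-/

open Polynomial Matrix Topology

namespace Pool.Agent.Helper730_PP

noncomputable section

variable {m p N q : ℕ}

/-- The quadratic-type relations satisfied by the full-size minors. -/
def IsPl (ξ : (Fin m → Fin N) → ℝ[X]) : Prop :=
  ∀ I J : Fin m → Fin N, (Matrix.of fun j k => ξ (Function.update I j (J k))).det
    = ξ I ^ (m - 1) * ξ J

theorem minor_update (P : PolyMat m N) (I : Fin m → Fin N) (j : Fin m) (l : Fin N) :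
    fullMinor P (Function.update I j l)
      = ∑ i, (P.submatrix id I).adjugate j i * P i l := by
  have h1 := Matrix.cramer_apply (P.submatrix id I) (fun i => P i l) j
  rw [Matrix.cramer_eq_adjugate_mulVec] at h1
  have h2 : (P.submatrix id I).updateCol j (fun i => P i l)
      = P.submatrix id (Function.update I j l) := by
    refine Matrix.ext fun i k => ?_
    by_cases hk : k = j
    · subst hk
      rw [Matrix.updateCol_self, Matrix.submatrix_apply, Function.update_self]
      rfl
    · rw [Matrix.updateCol_ne hk, Matrix.submatrix_apply, Matrix.submatrix_apply,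
        Function.update_of_ne hk]
  rw [h2] at h1
  exact h1.symm

theorem fullMinor_isPl (P : PolyMat m N) : IsPl (fullMinor P) := by
  intro I J
  have h1 : (Matrix.of fun j k => fullMinor P (Function.update I j (J k)))
      = (P.submatrix id I).adjugate * P.submatrix id J := by
    refine Matrix.ext fun j k => ?_
    rw [Matrix.of_apply, minor_update, Matrix.mul_apply]
    rfl
  rw [h1, Matrix.det_mul, Matrix.det_adjugate, Fintype.card_fin]
  rfl

/-- The determinant of the stacked matrix as an alternating function of the first rows. -/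
def stackAlt (Q : PolyMat p (m + p)) : (Fin (m + p) → ℝ[X]) [⋀^Fin m]→ₗ[ℝ[X]] ℝ[X] where
  toFun v := (stack (Matrix.of v) Q).det
  map_update_add' := by
    intro inst v i x y
    have hu : ∀ z, stack (Matrix.of (Function.update v i z)) Q
        = (stack (Matrix.of v) Q).updateRow (Fin.castAdd p i) z := by
      intro z
      funext r
      refine Fin.addCases (fun k => ?_) (fun k => ?_) r
      · rw [stack_castAdd]
        by_cases hk : k = i
        · subst hk
          rw [Matrix.updateRow_self]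
          show Function.update v k z k = z
          rw [Function.update_self]
        · rw [Matrix.updateRow_ne (fun h => hk (Fin.castAdd_injective _ _ h)), stack_castAdd]
          show Function.update v i z k = v k
          rw [Function.update_of_ne hk]
      · rw [stack_natAdd, Matrix.updateRow_ne, stack_natAdd]
        intro h
        have := congrArg Fin.val h
        simp only [Fin.val_natAdd, Fin.val_castAdd] at this
        have := i.2
        omega
    rw [hu, hu, hu, Matrix.det_updateRow_add]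
  map_update_smul' := by
    intro inst v i c x
    have hu : ∀ z, stack (Matrix.of (Function.update v i z)) Q
        = (stack (Matrix.of v) Q).updateRow (Fin.castAdd p i) z := by
      intro z
      funext r
      refine Fin.addCases (fun k => ?_) (fun k => ?_) r
      · rw [stack_castAdd]
        by_cases hk : k = i
        · subst hk
          rw [Matrix.updateRow_self]
          show Function.update v k z k = z
          rw [Function.update_self]
        · rw [Matrix.updateRow_ne (fun h => hk (Fin.castAdd_injective _ _ h)), stack_castAdd]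
          show Function.update v i z k = v k
          rw [Function.update_of_ne hk]
      · rw [stack_natAdd, Matrix.updateRow_ne, stack_natAdd]
        intro h
        have := congrArg Fin.val h
        simp only [Fin.val_natAdd, Fin.val_castAdd] at this
        have := i.2
        omega
    rw [hu, hu, Matrix.det_updateRow_smul, smul_eq_mul]
  map_eq_zero_of_eq' := by
    intro v i j hv hij
    refine Matrix.det_zero_of_row_eq (i := Fin.castAdd p i) (j := Fin.castAdd p j)
      (fun h => hij (Fin.castAdd_injective _ _ h)) ?_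
    rw [stack_castAdd, stack_castAdd]
    exact hv

theorem stackAlt_apply (Q : PolyMat p (m + p)) (v : Fin m → Fin (m + p) → ℝ[X]) :
    stackAlt Q v = (stack (Matrix.of v) Q).det := rfl

/-- The coefficients of the pairing. -/
def cf (Q : PolyMat p (m + p)) (J : Fin m → Fin (m + p)) : ℝ[X] :=
  stackAlt Q fun k => Pi.single (J k) 1

theorem stack_expand (P : PolyMat m (m + p)) (Q : PolyMat p (m + p)) :
    (stack P Q).det = ∑ J : Fin m → Fin (m + p), (∏ k, P k (J k)) * cf Q J := by
  have h1 : (fun k => ∑ l, P k l • (Pi.single l 1 : Fin (m + p) → ℝ[X])) = fun k => P k := by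
    funext k
    funext j
    rw [Finset.sum_apply, Finset.sum_eq_single j]
    · rw [Pi.smul_apply, Pi.single_eq_same, smul_eq_mul, mul_one]
    · intro l _ hl
      rw [Pi.smul_apply, Pi.single_eq_of_ne (Ne.symm hl), smul_zero]
    · intro h; exact absurd (Finset.mem_univ _) h
  have h2 : (stack P Q).det = stackAlt Q fun k => P k := rfl
  rw [h2, ← h1]
  have h3 := MultilinearMap.map_sum (stackAlt Q).toMultilinearMap
    (fun (k : Fin m) (l : Fin (m + p)) => P k l • (Pi.single l 1 : Fin (m + p) → ℝ[X]))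
  have h4 : (stackAlt Q) (fun k => ∑ l, P k l • (Pi.single l 1 : Fin (m + p) → ℝ[X]))
      = ∑ r : Fin m → Fin (m + p), (stackAlt Q) (fun k => P k (r k) •
        (Pi.single (r k) 1 : Fin (m + p) → ℝ[X])) := h3
  rw [h4]
  refine Finset.sum_congr rfl fun J _ => ?_
  exact MultilinearMap.map_smul_univ (stackAlt Q).toMultilinearMap (fun k => P k (J k))
    (fun k => (Pi.single (J k) 1 : Fin (m + p) → ℝ[X]))

theorem cf_perm (Q : PolyMat p (m + p)) (J : Fin m → Fin (m + p)) (σ : Equiv.Perm (Fin m)) :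
    cf Q (J ∘ σ) = ((Equiv.Perm.sign σ : ℤˣ) : ℤ) * cf Q J := by
  have h1 := (stackAlt Q).map_perm (fun k => (Pi.single (J k) 1 : Fin (m + p) → ℝ[X])) σ
  have h2 : cf Q (J ∘ σ)
      = stackAlt Q ((fun k => (Pi.single (J k) 1 : Fin (m + p) → ℝ[X])) ∘ σ) := rfl
  rw [h2, h1, Units.smul_def, zsmul_eq_mul]
  rfl

theorem pairing_minor (P : PolyMat m (m + p)) (Q : PolyMat p (m + p)) :
    ∑ J, fullMinor P J * cf Q J = (m.factorial : ℝ[X]) * (stack P Q).det := by
  have h1 : ∀ J : Fin m → Fin (m + p), fullMinor P J * cf Q J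
      = ∑ σ : Equiv.Perm (Fin m), (∏ k, P (σ k) (J k)) * (((Equiv.Perm.sign σ : ℤˣ) : ℤ)
        * cf Q J) := by
    intro J
    unfold fullMinor
    rw [Matrix.det_apply', Finset.sum_mul]
    refine Finset.sum_congr rfl fun σ _ => ?_
    simp only [Matrix.submatrix_apply, id]
    ring
  rw [Finset.sum_congr rfl fun J _ => h1 J, Finset.sum_comm]
  have h2 : ∀ σ : Equiv.Perm (Fin m), ∑ J : Fin m → Fin (m + p),
      (∏ k, P (σ k) (J k)) * (((Equiv.Perm.sign σ : ℤˣ) : ℤ) * cf Q J) = (stack P Q).det := by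
    intro σ
    rw [stack_expand, ← Equiv.sum_comp (Equiv.arrowCongr σ⁻¹ (Equiv.refl (Fin (m + p))))]
    refine Finset.sum_congr rfl fun J _ => ?_
    have h3 : (Equiv.arrowCongr σ⁻¹ (Equiv.refl (Fin (m + p)))) J = J ∘ σ := by
      funext k
      rfl
    rw [h3, cf_perm]
    have h4 : (((Equiv.Perm.sign σ : ℤˣ) : ℤ) : ℝ[X]) * (((Equiv.Perm.sign σ : ℤˣ) : ℤ) : ℝ[X])
        = 1 := by
      rw [← Int.cast_mul, ← Units.val_mul, Int.units_mul_self]
      simp
    have h5 : ∏ k, P (σ k) ((J ∘ σ) k) = ∏ k, P k (J k) :=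
      Equiv.prod_comp σ fun k => P k (J k)
    rw [h5, ← mul_assoc (((Equiv.Perm.sign σ : ℤˣ) : ℤ) : ℝ[X]), h4, one_mul]
  rw [Finset.sum_congr rfl fun σ _ => h2 σ, Finset.sum_const, Finset.card_univ,
    Fintype.card_perm, Fintype.card_fin, nsmul_eq_mul]

/-! ### Compactness -/

theorem CC.pow {T : Type*} [TopologicalSpace T] {P : T → ℝ[X]} (hP : CC P) (n : ℕ) :
    CC fun t => P t ^ n := by
  induction n with
  | zero => simp only [pow_zero]; exact CC.const 1
  | succ n ih => simp only [pow_succ]; exact ih.mul hP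

/-- The parameter space. -/
abbrev XiPar (m N q : ℕ) : Type := (Fin m → Fin N) × Fin (q + 1) → ℝ

/-- The system of coordinates with given parameters. -/
def toXi (x : XiPar m N q) (I : Fin m → Fin N) : ℝ[X] :=
  ∑ k : Fin (q + 1), C (x (I, k)) * X ^ (k : ℕ)

theorem toXi_CC (I : Fin m → Fin N) : CC fun x : XiPar m N q => toXi x I :=
  CC.sum _ fun _ _ => (CC.C_comp (continuous_apply _)).mul (CC.const _)

theorem toXi_natDegree (x : XiPar m N q) (I : Fin m → Fin N) : (toXi x I).natDegree ≤ q := by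
  refine natDegree_sum_le_of_forall_le _ _ fun k _ => ?_
  exact (natDegree_C_mul_X_pow_le _ _).trans (Nat.lt_succ_iff.mp k.2)

theorem toXi_surj (ξ : (Fin m → Fin N) → ℝ[X]) (hξ : ∀ I, (ξ I).natDegree ≤ q) :
    ∃ x : XiPar m N q, ∀ I, toXi x I = ξ I := by
  refine ⟨fun y => (ξ y.1).coeff (y.2 : ℕ), fun I => ?_⟩
  have h := sum_coeff_eq (hξ I)
  unfold toXi
  simp only
  rw [h]

theorem toXi_smul (c : ℝ) (x : XiPar m N q) (I : Fin m → Fin N) :
    toXi (c • x) I = C c * toXi x I := by
  unfold toXi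
  rw [Finset.mul_sum]
  refine Finset.sum_congr rfl fun k _ => ?_
  rw [Pi.smul_apply, smul_eq_mul, C_mul, mul_assoc]

theorem toXi_eq_zero (x : XiPar m N q) (h : ∀ I, toXi x I = 0) : x = 0 := by
  funext ⟨I, k⟩
  have h1 := congrArg (fun p => p.coeff (k : ℕ)) (h I)
  simp only [toXi, finsetSum_coeff, coeff_C_mul_X_pow, coeff_zero] at h1
  rw [Finset.sum_eq_single k] at h1
  · simpa using h1
  · intro b _ hb
    rw [if_neg]
    intro h; exact hb (Fin.ext h.symm)
  · intro h; exact absurd (Finset.mem_univ _) h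

theorem IsPl.smul (hm : 0 < m) {ξ : (Fin m → Fin N) → ℝ[X]} (h : IsPl ξ) (c : ℝ) :
    IsPl fun I => C c * ξ I := by
  intro I J
  have h1 : (Matrix.of fun j k => C c * ξ (Function.update I j (J k)))
      = (C c : ℝ[X]) • (Matrix.of fun j k => ξ (Function.update I j (J k))) := by
    refine Matrix.ext fun j k => ?_
    rfl
  rw [h1, Matrix.det_smul, Fintype.card_fin, h I J, mul_pow]
  obtain ⟨m', rfl⟩ : ∃ m', m = m' + 1 := ⟨m - 1, by omega⟩
  rw [Nat.add_sub_cancel, pow_succ]
  ring

theorem robustX {d : ℕ} (hm : 0 < m) (M : ℝ → (Fin m → Fin N) → ℝ[X])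
    (hM : ∀ I, CC fun t => M t I) (φ : ℝ[X]) (hφ : φ.natDegree = d) (hφ0 : φ ≠ 0)
    (hno : ∀ ξ : (Fin m → Fin N) → ℝ[X], (∀ I, (ξ I).natDegree ≤ q) → IsPl ξ →
      ∀ τ : ℝ, ∑ I, ξ I * M 0 I = C τ * φ → ∀ I, ξ I = 0) :
    ∃ ε : ℝ, 0 < ε ∧ ∀ t : ℝ, |t| < ε → ∀ ξ : (Fin m → Fin N) → ℝ[X],
      (∀ I, (ξ I).natDegree ≤ q) → IsPl ξ → ∀ τ : ℝ,
      ∑ I, ξ I * M t I = C τ * φ → ∀ I, ξ I = 0 := by
  have hlead : φ.coeff d ≠ 0 := by
    rw [← hφ]; exact fun h => hφ0 (leadingCoeff_eq_zero.mp h)
  set K : Set (XiPar m N q) := {x | ‖x‖ = 1} ∩ {x | IsPl (toXi x)} with hK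
  have hclosed : IsClosed {x : XiPar m N q | IsPl (toXi x)} := by
    have h1 : {x : XiPar m N q | IsPl (toXi x)} = ⋂ I, ⋂ J, {x : XiPar m N q |
        (Matrix.of fun j k => toXi x (Function.update I j (J k))).det
          - toXi x I ^ (m - 1) * toXi x J = 0} := by
      ext x
      simp only [IsPl, Set.mem_ofPred_eq, Set.mem_iInter, sub_eq_zero]
    rw [h1]
    exact isClosed_iInter fun I => isClosed_iInter fun J =>
      ((CC.det fun _ _ => toXi_CC _).sub (((toXi_CC I).pow _).mul (toXi_CC J))).isClosed_eq_zero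
  have hKc : IsCompact K := by
    have h1 : {x : XiPar m N q | ‖x‖ = 1} = Metric.sphere 0 1 := by
      ext x; simp
    rw [hK, h1]
    exact (isCompact_sphere _ _).inter_right hclosed
  set G : XiPar m N q × ℝ → ℝ[X] := fun y => ∑ I, toXi y.1 I * M y.2 I with hG
  have hGC : CC G := by
    have hT : ∀ I, CC fun y : XiPar m N q × ℝ => toXi y.1 I := fun I r =>
      (toXi_CC I r).comp continuous_fst
    have hMt : ∀ I, CC fun y : XiPar m N q × ℝ => M y.2 I := fun I r =>
      (hM I r).comp continuous_snd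
    exact CC.sum _ fun I _ => (hT I).mul (hMt I)
  set R : XiPar m N q × ℝ → ℝ[X] := fun y => G y - C ((G y).coeff d / φ.coeff d) * φ with hR
  have hRC : CC R := hGC.sub ((CC.C_comp ((hGC d).div_const _)).mul (CC.const _))
  have hopen : IsOpen {y | R y ≠ 0} := hRC.isClosed_eq_zero.isOpen_compl
  have hsub : K ×ˢ ({0} : Set ℝ) ⊆ {y | R y ≠ 0} := by
    rintro ⟨x, t⟩ ⟨hx, ht⟩
    rw [Set.mem_singleton_iff] at ht
    simp only at ht hx
    subst ht
    intro h0
    have h1 : ∑ I, toXi x I * M 0 I = C ((G (x, 0)).coeff d / φ.coeff d) * φ :=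
      sub_eq_zero.mp h0
    have h3 := hno (toXi x) (toXi_natDegree x) hx.2 _ h1
    have h4 := toXi_eq_zero x h3
    have h5 : ‖x‖ = 1 := hx.1
    rw [h4, norm_zero] at h5
    exact zero_ne_one h5
  obtain ⟨u, v, -, hv, hKu, h0v, huv⟩ := generalized_tube_lemma hKc isCompact_singleton hopen hsub
  obtain ⟨ε, hε, hball⟩ := Metric.isOpen_iff.mp hv 0 (h0v (Set.mem_singleton 0))
  refine ⟨ε, hε, fun t ht ξ hξd hξP τ hτ => ?_⟩
  obtain ⟨x, hx⟩ := toXi_surj ξ hξd
  by_contra hne
  have hx0 : x ≠ 0 := by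
    rintro rfl
    apply hne
    intro I
    rw [← hx I]
    have := toXi_smul (0 : ℝ) (0 : XiPar m N q) I
    rw [zero_smul] at this
    rw [this, C_0, zero_mul]
  have hnx : ‖x‖ ≠ 0 := norm_ne_zero_iff.mpr hx0
  set x' : XiPar m N q := ‖x‖⁻¹ • x with hx'
  have hform : toXi x' = fun I => C ‖x‖⁻¹ * ξ I := by
    funext I; rw [hx', toXi_smul, hx I]
  have hxK : x' ∈ K := by
    refine ⟨?_, ?_⟩
    · show ‖x'‖ = 1
      rw [hx', norm_smul, norm_inv, norm_norm, inv_mul_cancel₀ hnx]
    · show IsPl (toXi x')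
      rw [hform]
      exact hξP.smul hm _
  have htv : t ∈ v := hball (by simpa using ht)
  have h1 : R (x', t) ≠ 0 := huv (Set.mk_mem_prod (hKu hxK) htv)
  apply h1
  have h2 : G (x', t) = C (‖x‖⁻¹ * τ) * φ := by
    rw [hG]
    simp only
    rw [hform, C_mul, mul_assoc, ← hτ, Finset.mul_sum]
    exact Finset.sum_congr rfl fun I _ => mul_assoc _ _ _
  rw [hR]
  simp only
  rw [h2, coeff_C_mul, mul_div_cancel_right₀ _ hlead, sub_self]

theorem not_generic_of_no_xi {n : ℕ} (hm : 0 < m) (hp : 0 < p) (Q0 : PolyMat p (m + p))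
    (φ : ℝ[X]) (hφ : φ.natDegree = n + q) (hφ0 : φ ≠ 0)
    (hQ0 : ∀ i j, (Q0 i j).natDegree ≤ bal p n i)
    (hno : ∀ ξ : (Fin m → Fin (m + p)) → ℝ[X], (∀ I, (ξ I).natDegree ≤ q) → IsPl ξ →
      ∀ τ : ℝ, ∑ I, ξ I * cf Q0 I = C τ * φ → ∀ I, ξ I = 0) :
    ¬ GenericRealPolePlacement m p n q := by
  refine not_generic_of_badG hp Q0 φ hφ hQ0 fun Q' _ => ?_
  have haff0 : aff Q0 Q' 0 = Q0 := by
    refine Matrix.ext fun i j => ?_
    show Q0 i j + C 0 * Q' i j = Q0 i j
    rw [C_0, zero_mul, add_zero]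
  obtain ⟨ε, hε, h⟩ := robustX hm (fun t => cf (aff Q0 Q' t)) (fun I => by
    unfold cf
    simp only [stackAlt_apply]
    refine CC.det fun k l => ?_
    refine Fin.addCases (fun k => ?_) (fun k => ?_) k
    · simp only [stack_castAdd]
      exact CC.const _
    · simp only [stack_natAdd]
      exact (CC.const _).add ((CC.C_comp continuous_id).mul (CC.const _))) φ hφ hφ0 (by
    simp only [haff0]
    exact hno)
  refine ⟨ε, hε, fun t ht0 ht P₂ hP₂ c _ heq => ?_⟩
  have h1 := h t (by rw [abs_of_pos ht0]; exact ht) (fullMinor P₂) hP₂.1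
    (fullMinor_isPl P₂) (m.factorial * c) (by
      rw [pairing_minor, heq, C_mul, mul_assoc]
      congr 1)
  obtain ⟨e, he, -⟩ := hP₂.2
  exact he (h1 e)

end

end Pool.Agent.Helper730_PP
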