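import Mathlib

/-!
# The algebraic core for `m = p = 2`

Two real polynomial vectors `a`, `b` and a real number `σ > 0` such that the four polynomials
`a₀² + σ b₀²`, `a₁² + σ b₁²`, `a₁ b₀ - a₀ b₁`, `a₀ a₁ + σ b₀ b₁` satisfy no linear relation with
polynomial coefficients of degree `< L`.
-/

open Polynomial

namespace Pool.Agent.Helper730_PP

theorem coprime_aux {c : ℕ} (hc : 1 ≤ c) (L : ℕ) :
    IsCoprime ((X : ℝ[X]) ^ L * (1 + 2 * X ^ c)) (1 + X ^ c) := by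
  apply IsCoprime.mul_left
  · apply IsCoprime.pow_left
    refine ⟨-X ^ (c - 1), 1, ?_⟩
    obtain ⟨d, rfl⟩ := Nat.exists_eq_add_of_le hc
    rw [show 1 + d - 1 = d by omega, pow_add, pow_one]; ring
  · exact ⟨-1, 2, by ring⟩

/-- The key linear independence, for the product structure. -/
theorem core_inj {L c : ℕ} (hc : 1 ≤ c) (hcL : c ≤ L) (hL : L ≤ 2 * c)
    {h00 h01 h10 h11 : ℝ[X]}
    (d00 : ∀ k, L ≤ k → h00.coeff k = 0) (d01 : ∀ k, L ≤ k → h01.coeff k = 0)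
    (d10 : ∀ k, L ≤ k → h10.coeff k = 0) (d11 : ∀ k, L ≤ k → h11.coeff k = 0)
    (h : h00 * (X ^ L * (1 + 2 * X ^ c)) + h01 * (1 + X ^ c)
      + h10 * X ^ (L + c) * (X ^ L * (1 + 2 * X ^ c)) + h11 * X ^ (L + c) * (1 + X ^ c) = 0) :
    h00 = 0 ∧ h01 = 0 ∧ h10 = 0 ∧ h11 = 0 := by
  have hcop := coprime_aux hc L
  have hne : (1 + X ^ c : ℝ[X]) ≠ 0 := by
    intro h0
    have := congrArg (fun p => eval 1 p) h0
    norm_num at this
  set A := h00 + X ^ (L + c) * h10 with hA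
  set B := h01 + X ^ (L + c) * h11 with hB
  have hAB : A * (X ^ L * (1 + 2 * X ^ c)) = -B * (1 + X ^ c) := by
    rw [hA, hB]; linear_combination h
  have hdvd : (1 + X ^ c : ℝ[X]) ∣ A := by
    have h1 : (1 + X ^ c : ℝ[X]) ∣ A * (X ^ L * (1 + 2 * X ^ c)) := by
      rw [hAB]; exact Dvd.intro_left _ rfl
    exact hcop.symm.dvd_of_dvd_mul_right h1
  obtain ⟨y, hy⟩ := hdvd
  have hBy : B = -(y * (X ^ L * (1 + 2 * X ^ c))) := by
    have : (1 + X ^ c : ℝ[X]) * B = (1 + X ^ c) * (-(y * (X ^ L * (1 + 2 * X ^ c)))) := by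
      rw [hy] at hAB; linear_combination hAB
    exact mul_left_cancel₀ hne this
  -- coefficients of A and B
  have cA : ∀ k, A.coeff k = h00.coeff k + (if L + c ≤ k then h10.coeff (k - (L + c)) else 0) := by
    intro k; rw [hA, coeff_add, coeff_X_pow_mul']
  have cB : ∀ k, B.coeff k = h01.coeff k + (if L + c ≤ k then h11.coeff (k - (L + c)) else 0) := by
    intro k; rw [hB, coeff_add, coeff_X_pow_mul']
  have cA' : ∀ k, A.coeff k = y.coeff k + (if c ≤ k then y.coeff (k - c) else 0) := by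
    intro k; rw [hy, add_mul, one_mul, coeff_add, coeff_X_pow_mul']
  have cB' : ∀ k, B.coeff (k + L) = -(y.coeff k + 2 * (if c ≤ k then y.coeff (k - c) else 0)) := by
    intro k
    rw [hBy, coeff_neg, show y * (X ^ L * (1 + 2 * X ^ c)) = (y + C 2 * (X ^ c * y)) * X ^ L by
      rw [show (C 2 : ℝ[X]) = 2 from rfl]; ring, coeff_mul_X_pow, coeff_add, coeff_C_mul,
      coeff_X_pow_mul']
  -- degree of y
  have hydeg : ∀ k, L ≤ k → y.coeff k = 0 := by
    by_contra hcon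
    push Not at hcon
    obtain ⟨k, hk, hyk⟩ := hcon
    have hd : L ≤ y.natDegree := le_trans hk (le_natDegree_of_ne_zero hyk)
    have hy0 : y ≠ 0 := by rintro rfl; simp at hyk
    have h1 := cB' (y.natDegree + c)
    rw [cB] at h1
    rw [d01 _ (by omega), if_pos (by omega), d11 _ (by omega), if_pos (by omega)] at h1
    rw [coeff_eq_zero_of_natDegree_lt (by omega : y.natDegree < y.natDegree + c)] at h1
    rw [show y.natDegree + c - c = y.natDegree by omega] at h1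
    have : y.leadingCoeff = 0 := by rw [leadingCoeff]; linarith
    exact hy0 (leadingCoeff_eq_zero.mp this)
  have hylow : ∀ k, k < c → y.coeff k = 0 := by
    intro k hk
    have h1 := cB' k
    rw [cB, d01 _ (by omega), if_neg (by omega), if_neg (by omega)] at h1
    linarith
  have hyhigh : ∀ k, L - c ≤ k → k < L → y.coeff k = 0 := by
    intro k hk hk2
    have h1 := cA' (k + c)
    rw [cA, d00 _ (by omega), if_neg (by omega), if_pos (by omega), hydeg _ (by omega),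
      show k + c - c = k by omega] at h1
    linarith
  have hy0 : y = 0 := by
    ext k
    rw [coeff_zero]
    by_cases h1 : k < c
    · exact hylow k h1
    · by_cases h2 : k < L
      · exact hyhigh k (by omega) h2
      · exact hydeg k (by omega)
  have hA0 : A = 0 := by rw [hy, hy0, mul_zero]
  have hB0 : B = 0 := by rw [hBy, hy0, zero_mul, neg_zero]
  refine ⟨?_, ?_, ?_, ?_⟩
  · ext k
    rw [coeff_zero]
    by_cases hk : L ≤ k
    · exact d00 k hk
    · have := cA k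
      rw [hA0, coeff_zero, if_neg (by omega)] at this
      linarith
  · ext k
    rw [coeff_zero]
    by_cases hk : L ≤ k
    · exact d01 k hk
    · have := cB k
      rw [hB0, coeff_zero, if_neg (by omega)] at this
      linarith
  · ext k
    rw [coeff_zero]
    have := cA (k + (L + c))
    rw [hA0, coeff_zero, d00 _ (by omega), if_pos (by omega),
      show k + (L + c) - (L + c) = k by omega] at this
    linarith
  · ext k
    rw [coeff_zero]
    have := cB (k + (L + c))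
    rw [hB0, coeff_zero, d01 _ (by omega), if_pos (by omega),
      show k + (L + c) - (L + c) = k by omega] at this
    linarith

/-- If `T₀ - T₁` is injective then `T₀ + σ T₁` is injective for some `σ > 0`. -/
theorem exists_pos_injective {V W : Type*} [AddCommGroup V] [Module ℝ V] [FiniteDimensional ℝ V]
    [AddCommGroup W] [Module ℝ W] (T₀ T₁ : V →ₗ[ℝ] W)
    (h : Function.Injective (T₀ - T₁)) :
    ∃ σ : ℝ, 0 < σ ∧ Function.Injective (T₀ + σ • T₁) := by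
  obtain ⟨K, hK⟩ := LinearMap.exists_leftInverse_of_injective (T₀ - T₁)
    (LinearMap.ker_eq_bot.mpr h)
  set E : Module.End ℝ V := K ∘ₗ T₁ with hE
  have hfin : Set.Finite {μ : ℝ | E.HasEigenvalue μ} := Module.End.finite_hasEigenvalue E
  -- the set of σ > 0 with -1/(σ+1) an eigenvalue is finite
  have hfin2 : Set.Finite {σ : ℝ | 0 < σ ∧ E.HasEigenvalue (-(1 / (σ + 1)))} := by
    have himg := hfin.image (fun μ : ℝ => -1 / μ - 1)
    refine himg.subset ?_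
    rintro σ ⟨hσ, hev⟩
    refine ⟨-(1 / (σ + 1)), hev, ?_⟩
    have : σ + 1 ≠ 0 := by positivity
    field_simp
    ring
  have hinf : (Set.Ioi (0 : ℝ)).Infinite := Set.Ioi_infinite 0
  obtain ⟨σ, hσ, hσ2⟩ := (hinf.sdiff hfin2).nonempty
  have hσ0 : 0 < σ := hσ
  refine ⟨σ, hσ0, ?_⟩
  rw [← LinearMap.ker_eq_bot, LinearMap.ker_eq_bot']
  intro v hv
  by_contra hv0
  apply hσ2
  refine ⟨hσ0, ?_⟩
  have h1 : K ((T₀ - T₁) v) = v := by
    have := congrArg (fun f => f v) hK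
    simpa using this
  have h2 : (T₀ - T₁) v = -(σ + 1) • T₁ v := by
    have : T₀ v + σ • T₁ v = 0 := by simpa using hv
    rw [LinearMap.sub_apply, eq_neg_of_add_eq_zero_left this, neg_smul, add_smul, one_smul]
    abel
  have h3 : v = -(σ + 1) • E v := by
    rw [hE, LinearMap.comp_apply, ← map_smul, ← h2, h1]
  have h4 : E v = (-(1 / (σ + 1))) • v := by
    have hne : σ + 1 ≠ 0 := by positivity
    conv_rhs => rw [h3]
    rw [smul_smul]
    have : (-(1 / (σ + 1)) * -(σ + 1)) = 1 := by field_simp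
    rw [this, one_smul]
  exact Module.End.hasEigenvalue_of_hasEigenvector
    (Module.End.hasEigenvector_iff.mpr ⟨Module.End.mem_eigenspace_iff.mpr h4, hv0⟩)

/-- The polynomials used for `m = p = 2`. -/
theorem exists_plant {L c : ℕ} (hc : 1 ≤ c) (hcL : c ≤ L) (hL : L ≤ 2 * c) :
    ∃ (a₀ a₁ b₀ b₁ : ℝ[X]) (σ : ℝ), 0 < σ ∧
      a₀.natDegree ≤ L + c ∧ b₀.natDegree ≤ L + c ∧ a₁.natDegree = L + c ∧
      b₁.natDegree ≤ L + c ∧
      ∀ h1 h2 h3 h4 : ℝ[X], (∀ k, L ≤ k → h1.coeff k = 0) → (∀ k, L ≤ k → h2.coeff k = 0) →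
        (∀ k, L ≤ k → h3.coeff k = 0) → (∀ k, L ≤ k → h4.coeff k = 0) →
        h1 * (a₀ ^ 2 + C σ * b₀ ^ 2) + h2 * (a₁ ^ 2 + C σ * b₁ ^ 2)
          + h3 * (a₁ * b₀ - a₀ * b₁) + h4 * (a₀ * a₁ + C σ * (b₀ * b₁)) = 0 →
        h1 = 0 ∧ h2 = 0 ∧ h3 = 0 ∧ h4 = 0 := by
  set a₀ : ℝ[X] := 1 + (X ^ L + 2 * X ^ (L + c)) with ha0
  set b₀ : ℝ[X] := 1 - (X ^ L + 2 * X ^ (L + c)) with hb0
  set a₁ : ℝ[X] := X ^ (L + c) + (1 + X ^ c) with ha1
  set b₁ : ℝ[X] := X ^ (L + c) - (1 + X ^ c) with hb1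
  have hpow2 : ((X : ℝ[X]) ^ L + 2 * X ^ (L + c)).natDegree ≤ L + c := by
    refine (natDegree_add_le _ _).trans (max_le ?_ ?_)
    · rw [natDegree_X_pow]; omega
    · rw [show (2 : ℝ[X]) = C 2 from rfl]
      exact (natDegree_C_mul_X_pow_le _ _)
  have hone : ((1 : ℝ[X]) + X ^ c).natDegree ≤ c := by
    refine (natDegree_add_le _ _).trans (max_le ?_ ?_)
    · simp
    · rw [natDegree_X_pow]
  let V := Fin 4 → Polynomial.degreeLT ℝ L
  have hmem : ∀ (v : V) (i : Fin 4) (k : ℕ), L ≤ k → ((v i : ℝ[X])).coeff k = 0 := by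
    intro v i k hk
    have := (Polynomial.mem_degreeLT.mp (v i).2)
    exact coeff_eq_zero_of_degree_lt (lt_of_lt_of_le this (by exact_mod_cast hk))
  let T₀ : V →ₗ[ℝ] ℝ[X] :=
    { toFun := fun v => (v 0 : ℝ[X]) * a₀ ^ 2 + (v 1 : ℝ[X]) * a₁ ^ 2
        + (v 2 : ℝ[X]) * (a₁ * b₀ - a₀ * b₁) + (v 3 : ℝ[X]) * (a₀ * a₁)
      map_add' := by
        intro v w
        change ((v 0 : ℝ[X]) + (w 0 : ℝ[X])) * a₀ ^ 2 + ((v 1 : ℝ[X]) + (w 1 : ℝ[X])) * a₁ ^ 2
          + ((v 2 : ℝ[X]) + (w 2 : ℝ[X])) * (a₁ * b₀ - a₀ * b₁)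
          + ((v 3 : ℝ[X]) + (w 3 : ℝ[X])) * (a₀ * a₁) = _
        ring
      map_smul' := by
        intro r v
        change (r • (v 0 : ℝ[X])) * a₀ ^ 2 + (r • (v 1 : ℝ[X])) * a₁ ^ 2
          + (r • (v 2 : ℝ[X])) * (a₁ * b₀ - a₀ * b₁) + (r • (v 3 : ℝ[X])) * (a₀ * a₁) = _
        simp only [smul_eq_C_mul, RingHom.id_apply]
        ring }
  let T₁ : V →ₗ[ℝ] ℝ[X] :=
    { toFun := fun v => (v 0 : ℝ[X]) * b₀ ^ 2 + (v 1 : ℝ[X]) * b₁ ^ 2
        + (v 3 : ℝ[X]) * (b₀ * b₁)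
      map_add' := by
        intro v w
        change ((v 0 : ℝ[X]) + (w 0 : ℝ[X])) * b₀ ^ 2 + ((v 1 : ℝ[X]) + (w 1 : ℝ[X])) * b₁ ^ 2
          + ((v 3 : ℝ[X]) + (w 3 : ℝ[X])) * (b₀ * b₁) = _
        ring
      map_smul' := by
        intro r v
        change (r • (v 0 : ℝ[X])) * b₀ ^ 2 + (r • (v 1 : ℝ[X])) * b₁ ^ 2
          + (r • (v 3 : ℝ[X])) * (b₀ * b₁) = _
        simp only [smul_eq_C_mul, RingHom.id_apply]
        ring }
  have hinj : Function.Injective (T₀ - T₁) := by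
    rw [← LinearMap.ker_eq_bot, LinearMap.ker_eq_bot']
    intro v hv
    have hv' : (v 0 : ℝ[X]) * a₀ ^ 2 + (v 1 : ℝ[X]) * a₁ ^ 2
        + (v 2 : ℝ[X]) * (a₁ * b₀ - a₀ * b₁) + (v 3 : ℝ[X]) * (a₀ * a₁)
        - ((v 0 : ℝ[X]) * b₀ ^ 2 + (v 1 : ℝ[X]) * b₁ ^ 2 + (v 3 : ℝ[X]) * (b₀ * b₁)) = 0 := hv
    have key := core_inj hc hcL hL (h00 := 4 * (v 0 : ℝ[X]))
      (h01 := 2 * ((v 2 : ℝ[X]) + (v 3 : ℝ[X]))) (h10 := 2 * ((v 3 : ℝ[X]) - (v 2 : ℝ[X])))
      (h11 := 4 * (v 1 : ℝ[X])) ?_ ?_ ?_ ?_ ?_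
    · obtain ⟨k0, k1, k2, k3⟩ := key
      have e0 : (v 0 : ℝ[X]) = 0 := by
        have : (4 : ℝ[X]) ≠ 0 := by norm_num
        exact (mul_eq_zero.mp k0).resolve_left this
      have e1 : (v 1 : ℝ[X]) = 0 := by
        have : (4 : ℝ[X]) ≠ 0 := by norm_num
        exact (mul_eq_zero.mp k3).resolve_left this
      have e3 : (v 3 : ℝ[X]) = 0 := by
        have : (4 : ℝ[X]) ≠ 0 := by norm_num
        have h5 : 4 * (v 3 : ℝ[X]) = 0 := by linear_combination k1 + k2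
        exact (mul_eq_zero.mp h5).resolve_left this
      have e2 : (v 2 : ℝ[X]) = 0 := by
        have : (4 : ℝ[X]) ≠ 0 := by norm_num
        have h5 : 4 * (v 2 : ℝ[X]) = 0 := by linear_combination k1 - k2
        exact (mul_eq_zero.mp h5).resolve_left this
      funext i
      fin_cases i
      · exact Subtype.ext e0
      · exact Subtype.ext e1
      · exact Subtype.ext e2
      · exact Subtype.ext e3
    · intro k hk
      rw [show (4 : ℝ[X]) = C 4 from rfl, coeff_C_mul, hmem v 0 k hk, mul_zero]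
    · intro k hk
      rw [show (2 : ℝ[X]) = C 2 from rfl, coeff_C_mul, coeff_add, hmem v 2 k hk, hmem v 3 k hk]
      simp
    · intro k hk
      rw [show (2 : ℝ[X]) = C 2 from rfl, coeff_C_mul, coeff_sub, hmem v 2 k hk, hmem v 3 k hk]
      simp
    · intro k hk
      rw [show (4 : ℝ[X]) = C 4 from rfl, coeff_C_mul, hmem v 1 k hk, mul_zero]
    · rw [ha0, hb0, ha1, hb1] at hv'
      rw [pow_add] at hv' ⊢
      linear_combination hv'
  obtain ⟨σ, hσ, hTσ⟩ := exists_pos_injective T₀ T₁ hinj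
  refine ⟨a₀, a₁, b₀, b₁, σ, hσ, ?_, ?_, ?_, ?_, ?_⟩
  · refine (natDegree_add_le _ _).trans (max_le ?_ hpow2)
    simp
  · refine (natDegree_sub_le _ _).trans (max_le ?_ hpow2)
    simp
  · rw [ha1, natDegree_add_eq_left_of_natDegree_lt, natDegree_X_pow]
    rw [natDegree_X_pow]; omega
  · refine (natDegree_sub_le _ _).trans (max_le ?_ ?_)
    · rw [natDegree_X_pow]
    · omega
  · intro h1 h2 h3 h4 d1 d2 d3 d4 hrel
    have hm : ∀ h : ℝ[X], (∀ k, L ≤ k → h.coeff k = 0) → h ∈ Polynomial.degreeLT ℝ L := by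
      intro h hh
      rw [Polynomial.mem_degreeLT, degree_lt_iff_coeff_zero]
      exact hh
    let v : V := ![⟨h1, hm h1 d1⟩, ⟨h2, hm h2 d2⟩, ⟨h3, hm h3 d3⟩, ⟨h4, hm h4 d4⟩]
    have hv : (T₀ + σ • T₁) v = 0 := by
      have : (T₀ + σ • T₁) v = (h1 * a₀ ^ 2 + h2 * a₁ ^ 2
        + h3 * (a₁ * b₀ - a₀ * b₁) + h4 * (a₀ * a₁))
        + σ • (h1 * b₀ ^ 2 + h2 * b₁ ^ 2 + h4 * (b₀ * b₁)) := rfl
      rw [this, smul_eq_C_mul]
      linear_combination hrel
    have hv0 : v = 0 := (LinearMap.ker_eq_bot'.mp (LinearMap.ker_eq_bot.mpr hTσ)) v hv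
    have g : ∀ i, ((v i : ℝ[X])) = 0 := by intro i; rw [hv0]; rfl
    exact ⟨g 0, g 1, g 2, g 3⟩

end Pool.Agent.Helper730_PP
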