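import Pool.Agent.Helper730_PP.Bridge
import Pool.Agent.Helper730_PP.Numeric

/-!
# The numerical inequality behind the refined parameter count
-/

namespace Pool.Agent.Helper730_PP

theorem numeric2_int {a b e bp Q q q0 n1 D W K K1 K2 K3 s c d2 γ ℓ Sy Se' Se Sd Sr Shp SE T
    N1 N2 N3 N4 N5 N6 N8 Ey Ee' Ee Eh Ed1 x2 x3 x4 x6 : ℤ}
    (hb : b = bp + e) (hs : s = 2 * bp + e) (hc : c = a + bp + e) (hK : K2 = K1 + K)
    (hE : SE = bp * D + Sy + bp * K - bp) (hT : T = b * (D + 1) - W)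
    (hShp : Shp = s * K3 + 2 * bp * K + W + Sy - Sr - e * D - bp) (hl : Se = Se' + ℓ)
    (p1 : 0 ≤ (2 * a + 2 * bp - 1) * (Q + 2 * bp * K1 - Sd - 2 * q0))
    (p2 : 0 ≤ (2 * s + 2 * a) * (q0 + 2 * bp * K - Sr - n1))
    (p3 : 0 ≤ 2 * a * (Sr + d2 - Se - K2 - γ)) (p3' : d2 = Se' + K2 - (2 * bp * K2 - Sd))
    (p4 : 0 ≤ 2 * (bp - 1) * (b - W + e * D + q0 - Sy - e))
    (p5 : 0 ≤ (2 * c - 1) * (q - Q)) (p6 : 0 ≤ e * (Q - q0)) (p7 : 0 ≤ (a - bp) * q0)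
    (p8 : 0 ≤ (a - bp) * ℓ) (p9 : 0 ≤ (a - 1) * γ) (p10 : 0 ≤ e * (a - bp))
    (h1 : N1 + 2 * (bp * bp + Ey) ≤ 2 * (b * (Sy + bp) - bp * (b - W)))
    (h2 : N2 + ((2 * bp - 1) * (2 * bp - 1) + Ee')
      ≤ 2 * bp * (Se' + (2 * bp - 1)) - (2 * bp - 1) * (2 * bp * K2 - Sd) + x2)
    (h3 : N3 + 2 * ((2 * bp - 1) * (2 * bp - 1) + Ee)
      ≤ 2 * ((2 * bp - 1) * (Se + (2 * bp - 1)) - (2 * bp - 1) * Se' + x3))
    (h4 : N4 + 2 ≤ 2 * ((2 * bp - 1) * (SE + bp) - bp * Se + x4))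
    (h5 : N5 ≤ 2 * γ + 2 * ℓ)
    (h6 : N6 + 2 * (s * s + Eh) ≤ 2 * (s * (n1 + s * K3 + s) - s * Shp + x6 + c * (n1 + s)))
    (h8 : N8 ≤ 2 * ((c - s) * T - b * n1))
    (e2 : x2 ≤ Ed1) (e6 : x6 ≤ Eh) (e34 : 2 * x3 + 2 * x4 ≤ 2 * Ee + Ee' + 2 * Ey)
    (hD : (2 * c - 1) * q + 4 * (a * b) + 2 * W ≤ 2 * (b * D) + 1) :
    N1 + N2 + N3 + N4 + N5 + N6 + N8 + 1 < 2 * c * T + (4 * bp * bp + Ed1) := by
  subst hb hs hc hK hE hT hShp hl p3'
  linarith [p1, p2, p3, p4, p5, p6, p7, p8, p9, p10, hD, h1, h2, h3, h4, h5, h6, h8, e2, e6, e34]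

/-- Absorption of the excess terms. -/
theorem excess_le {bp : ℕ} (hbp : 1 ≤ bp) {εR εC : Fin (2 * bp - 1) → ℕ} {E : Fin bp → ℕ}
    (f1 : ∀ l, εR l ≤ εC l)
    (f2 : ∀ (i : Fin bp) (l : Fin (2 * bp - 1)), (l : ℕ) = i → εC l ≤ E i)
    (f3 : ∀ (l : Fin (2 * bp - 1)) (i : Fin bp), (i : ℕ) = (l + 1) / 2 → εR l ≤ E i) :
    2 * ∑ l, ∑ m, (εR m - (εC l + 1)) + 2 * ∑ i, ∑ l, (εC l - (E i + 1))
      ≤ 2 * ∑ l, ∑ m, (εC m - (εC l + 1)) + ∑ l, ∑ m, (εR m - (εR l + 1))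
        + 2 * ∑ i, ∑ j, (E j - (E i + 1)) := by
  set ι : Fin bp → Fin (2 * bp - 1) := fun i => ⟨i, by have := i.2; omega⟩ with hι
  have hιi : Function.Injective ι := fun i j h => by
    have := congrArg Fin.val h
    exact Fin.ext this
  -- first step
  have hA : ∑ l, ∑ m, (εR m - (εC l + 1)) + ∑ i, ∑ l, (εC l - (E i + 1))
      ≤ ∑ l, ∑ m, (εC m - (εC l + 1)) + ∑ i, ∑ l, (εR l - (E i + 1)) := by
    set G : Fin (2 * bp - 1) → ℕ := fun l => ∑ m, (εR m - (εC l + 1)) with hG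
    set H : Fin (2 * bp - 1) → ℕ := fun l => ∑ m, (εC m - (εC l + 1)) with hH
    have hGH : ∀ l, G l ≤ H l := fun l => Finset.sum_le_sum fun m _ => by
      have := f1 m; omega
    have h1 : ∀ i, G (ι i) + ∑ l, (εC l - (E i + 1)) ≤ H (ι i) + ∑ l, (εR l - (E i + 1)) := by
      intro i
      rw [hG, hH]
      simp only
      rw [← Finset.sum_add_distrib, ← Finset.sum_add_distrib]
      refine Finset.sum_le_sum fun m _ => ?_
      have := f1 m
      have := f2 i (ι i) rfl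
      omega
    have h2 := sum_comp_le ι hιi (fun l => H l - G l)
    have h3 : ∑ l, (H l - G l) + ∑ l, G l = ∑ l, H l := by
      rw [← Finset.sum_add_distrib]
      exact Finset.sum_congr rfl fun l _ => Nat.sub_add_cancel (hGH l)
    have h4 : ∑ i, (H (ι i) - G (ι i)) + ∑ i, G (ι i) = ∑ i, H (ι i) := by
      rw [← Finset.sum_add_distrib]
      exact Finset.sum_congr rfl fun l _ => Nat.sub_add_cancel (hGH _)
    have h5 := Finset.sum_le_sum (s := Finset.univ) fun i _ => h1 i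
    rw [Finset.sum_add_distrib, Finset.sum_add_distrib] at h5
    have e1 : ∑ l, ∑ m, (εR m - (εC l + 1)) = ∑ l, G l := rfl
    have e2 : ∑ l, ∑ m, (εC m - (εC l + 1)) = ∑ l, H l := rfl
    rw [e1, e2]
    linarith
  -- second step
  have hB1 : ∑ i, ∑ l, (εR l - (E i + 1)) ≤ ∑ l, ∑ m, (εR m - (εR l + 1)) := by
    set ι' : Fin bp → Fin (2 * bp - 1) := fun i => ⟨2 * i, by have := i.2; omega⟩ with hι'
    have hι'i : Function.Injective ι' := fun i j h => by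
      have := congrArg Fin.val h
      simp only [hι'] at this
      exact Fin.ext (by omega)
    refine le_trans ?_ (sum_comp_le ι' hι'i fun l => ∑ m, (εR m - (εR l + 1)))
    refine Finset.sum_le_sum fun i _ => Finset.sum_le_sum fun m _ => ?_
    have := f3 (ι' i) i (by simp only [hι']; omega)
    omega
  have hB2 : ∑ i, ∑ l, (εR l - (E i + 1)) ≤ 2 * ∑ i, ∑ j, (E j - (E i + 1)) := by
    rw [Finset.mul_sum]
    refine Finset.sum_le_sum fun i _ => ?_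
    set κ : Fin (2 * bp - 1) → Fin bp × Fin 2 := fun l =>
      (⟨(l + 1) / 2, by have := l.2; omega⟩, ⟨(l + 1) % 2, by omega⟩) with hκ
    have hκi : Function.Injective κ := fun l m h => by
      have h1 := congrArg (fun x : Fin bp × Fin 2 => (x.1 : ℕ)) h
      have h2 := congrArg (fun x : Fin bp × Fin 2 => (x.2 : ℕ)) h
      simp only [hκ] at h1 h2
      exact Fin.ext (by omega)
    rw [← sum_fin2 (fun j => E j - (E i + 1))]
    refine le_trans ?_ (sum_comp_le κ hκi fun x : Fin bp × Fin 2 => E x.1 - (E i + 1))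
    refine Finset.sum_le_sum fun l _ => ?_
    have := f3 l (κ l).1 rfl
    omega
  omega

theorem wx_excess {bp K2 : ℕ} {δ1 wX : Fin (2 * bp) → ℕ} (hw : ∀ k, wX k + δ1 k = K2)
    {εR : Fin (2 * bp - 1) → ℕ}
    (f5 : ∀ (l : Fin (2 * bp - 1)) (k : Fin (2 * bp)), (k : ℕ) + l + 1 = 2 * bp → wX k ≤ εR l) :
    ∑ l, ∑ k, (wX k - (εR l + 1)) ≤ ∑ k, ∑ l, (δ1 l - (δ1 k + 1)) := by
  set ι : Fin (2 * bp - 1) → Fin (2 * bp) := fun l => ⟨2 * bp - 1 - l, by have := l.2; omega⟩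
    with hι
  have hιi : Function.Injective ι := fun l m h => by
    have := congrArg Fin.val h
    simp only [hι] at this
    have := l.2
    have := m.2
    exact Fin.ext (by omega)
  calc ∑ l, ∑ k, (wX k - (εR l + 1)) ≤ ∑ l, ∑ k, (wX k - (wX (ι l) + 1)) := by
        refine Finset.sum_le_sum fun l _ => Finset.sum_le_sum fun k _ => ?_
        have := f5 l (ι l) (by simp only [hι]; have := l.2; omega)
        omega
    _ ≤ ∑ m, ∑ k, (wX k - (wX m + 1)) := sum_comp_le ι hιi fun m => ∑ k, (wX k - (wX m + 1))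
    _ = ∑ m, ∑ k, (δ1 m - (δ1 k + 1)) := by
        refine Finset.sum_congr rfl fun m _ => Finset.sum_congr rfl fun k _ => ?_
        have := hw m
        have := hw k
        omega
    _ = _ := Finset.sum_comm

theorem numeric2 {a b c e bp s ss q Q q0 n1 D K K1 K2 K3 d2 γ ℓ : ℕ} {w w' : Fin b → ℕ}
    (hww : ∀ i, w i + w' i = 1) (ha : 1 ≤ a) (hbp : 1 ≤ bp) (hb : bp + e = b) (hc : c = a + b)
    (hs : s + e = 2 * b) (hss : ss + s = c) (hK : K1 + K = K2)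
    {δ1 wX : Fin (2 * bp) → ℕ} (hwX : ∀ k, wX k + δ1 k = K2)
    {εR εC : Fin (2 * bp - 1) → ℕ} {y' E : Fin bp → ℕ} (hE : ∀ i, E i + 1 = D + y' i + K)
    {rb : Fin (2 * bp) → ℕ} {h hp : Fin s → ℕ} {hs' : Fin ss → ℕ}
    (hQ : Q ≤ q) (hnQ : n1 + q0 ≤ Q) (hn1 : ∑ j, h j = n1) (hhs : ∑ j, hs' j = n1)
    (P1 : ∑ k, δ1 k + 2 * q0 ≤ Q + 2 * bp * K1)
    (P2 : ∑ l, εR l + K2 = ∑ k, wX k + d2)
    (P3 : ∑ l, εC l + K2 + γ ≤ ∑ k, rb k + d2)
    (P4 : ∑ i, y' i + e ≤ ∑ i, w' i + (e * D + q0))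
    (P5 : n1 + ∑ k, rb k ≤ q0 + 2 * bp * K)
    (P6 : ∑ j, hp j + ∑ k, rb k + e * D + bp = s * K3 + 2 * bp * K + ∑ i, w i + ∑ i, y' i)
    (hl : ∑ l, εC l = ∑ l, εR l + ℓ)
    (f1 : ∀ l, εR l ≤ εC l)
    (f2 : ∀ (i : Fin bp) (l : Fin (2 * bp - 1)), (l : ℕ) = i → εC l ≤ E i)
    (f3 : ∀ (l : Fin (2 * bp - 1)) (i : Fin bp), (i : ℕ) = (l + 1) / 2 → εR l ≤ E i)
    (f4 : ∀ j, hp j ≤ h j + K3)
    (f5 : ∀ (l : Fin (2 * bp - 1)) (k : Fin (2 * bp)), (k : ℕ) + l + 1 = 2 * bp → wX k ≤ εR l)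
    (hD : (2 * c - 1) * q + 4 * (a * b) + 2 * ∑ i, w i ≤ 2 * (b * D) + 1)
    {N1 N2 N3 N4 N5 N6 N8 : ℕ}
    (h1 : N1 + 2 * ∑ i, ∑ l, (y' i + 1 - y' l) ≤ 2 * ∑ i, ∑ k, (y' i + 1 - w' k))
    (h2 : N2 + ∑ l, ∑ m, (εR l + 1 - εR m) ≤ ∑ l, ∑ k, (εR l + 1 - wX k))
    (h3 : N3 + 2 * ∑ l, ∑ m, (εC l + 1 - εC m) ≤ 2 * ∑ l, ∑ m, (εC l + 1 - εR m))
    (h4 : N4 + 2 ≤ 2 * ∑ i, ∑ l, (E i + 1 - εC l))
    (h5 : N5 ≤ 2 * γ + 2 * ℓ)
    (h6 : N6 + 2 * ∑ i, ∑ l, (h i + 1 - h l)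
      ≤ 2 * (∑ i, ∑ j, (h i + K3 + 1 - hp j) + ∑ i, c * (h i + 1)))
    (h8 : N8 ≤ 2 * ∑ i, ∑ l, (D + 1 - w i - hs' l)) :
    N1 + N2 + N3 + N4 + N5 + N6 + N8 + 1
      < 2 * c * ∑ i, (D + 1 - w i) + ∑ k, ∑ l, (δ1 k + 1 - δ1 l) := by
  have e34 := excess_le hbp f1 f2 f3
  have e2 := wx_excess hwX f5
  have hyE : ∑ i, ∑ j, (E j - (E i + 1)) = ∑ i, ∑ j, (y' j - (y' i + 1)) := by
    refine Finset.sum_congr rfl fun i _ => Finset.sum_congr rfl fun j _ => ?_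
    have := hE i
    have := hE j
    omega
  rw [hyE] at e34
  have e6 : ∑ i, ∑ j, (hp j - (h i + K3 + 1)) ≤ ∑ i, ∑ j, (h j - (h i + 1)) := by
    refine Finset.sum_le_sum fun i _ => Finset.sum_le_sum fun j _ => ?_
    have := f4 j
    omega
  have hqD : q ≤ D := by
    by_contra hcon
    push Not at hcon
    have h7 : 2 * b * D + 2 * b ≤ 2 * b * q := by
      have := Nat.mul_le_mul_left (2 * b) hcon
      rw [Nat.mul_succ] at this
      exact this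
    have h8 : 2 * b * q ≤ (2 * c - 1) * q := Nat.mul_le_mul_right q (by omega)
    have h9 : 2 * (b * D) = 2 * b * D := by ring
    omega
  have hw1 : ∀ i, w i ≤ 1 := fun i => by have := hww i; omega
  have hw1' : ∀ i, w' i ≤ 1 := fun i => by have := hww i; omega
  have hsle : ∀ (i : Fin b) (l : Fin ss), hs' l ≤ D + 1 - w i := by
    intro i l
    have h6 := Finset.single_le_sum (f := hs') (fun _ _ => Nat.zero_le _) (Finset.mem_univ l)
    have := hw1 i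
    omega
  have t8 : (∑ i, ∑ l, (D + 1 - w i - hs' l) : ℕ) + b * n1 = ss * ∑ i, (D + 1 - w i) := by
    have h6 : ∀ i, ∑ l, (D + 1 - w i - hs' l) + n1 = ss * (D + 1 - w i) := by
      intro i
      rw [← hhs, ← Finset.sum_add_distrib,
        Finset.sum_congr rfl fun l _ => Nat.sub_add_cancel (hsle i l)]
      simp
    calc _ = ∑ i : Fin b, (∑ l, (D + 1 - w i - hs' l) + n1) := by
          rw [Finset.sum_add_distrib]; simp
      _ = _ := by
          rw [Finset.sum_congr rfl fun i _ => h6 i, ← Finset.mul_sum]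
  have t9 : ∑ i, (D + 1 - w i) + ∑ i, w i = b * (D + 1) := by
    rw [← Finset.sum_add_distrib, Finset.sum_congr rfl fun i _ =>
      Nat.sub_add_cancel (show w i ≤ D + 1 by have := hw1 i; omega)]
    simp
  have t10 : ∑ i, c * (h i + 1) = c * (n1 + s) := by
    rw [← Finset.mul_sum, Finset.sum_add_distrib, hn1]
    simp
  have tww : ∑ i, w i + ∑ i, w' i = b := by
    rw [← Finset.sum_add_distrib, Finset.sum_congr rfl fun i _ => hww i]
    simp
  have twX : ∑ k, wX k + ∑ k, δ1 k = 2 * bp * K2 := by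
    rw [← Finset.sum_add_distrib, Finset.sum_congr rfl fun i _ => hwX i]
    simp
  have tE : ∑ i, E i + bp = bp * D + ∑ i, y' i + bp * K := by
    have h7 : ∑ i, E i + bp = ∑ i, (E i + 1) := by rw [Finset.sum_add_distrib]; simp
    rw [h7, Finset.sum_congr rfl fun i _ => hE i, Finset.sum_add_distrib, Finset.sum_add_distrib]
    simp
  have t1 := trunc_sum Finset.univ (fun i => y' i + 1) w'
  have tA := trunc_sum Finset.univ (fun i => y' i + 1) y'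
  have t2 := trunc_sum Finset.univ (fun l => εR l + 1) wX
  have tB := trunc_sum Finset.univ (fun l => εR l + 1) εR
  have t3 := trunc_sum Finset.univ (fun l => εC l + 1) εR
  have tC := trunc_sum Finset.univ (fun l => εC l + 1) εC
  have t4 := trunc_sum Finset.univ (fun i => E i + 1) εC
  have t6 := trunc_sum Finset.univ (fun i => h i + K3 + 1) hp
  have tD := trunc_sum Finset.univ (fun i => h i + 1) h
  have tG := trunc_sum Finset.univ (fun i => δ1 i + 1) δ1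
  have z1 : ∑ i : Fin bp, ∑ l, (w' l - (y' i + 1)) = 0 :=
    Finset.sum_eq_zero fun i _ => Finset.sum_eq_zero fun l _ => by have := hw1' l; omega
  simp only [Finset.card_univ, Fintype.card_fin] at t1 tA t2 tB t3 tC t4 t6 tD tG
  rw [z1] at t1
  rw [t10] at h6
  generalize hEy : ∑ i, ∑ l, (y' l - (y' i + 1)) = Ey at *
  generalize hEe' : ∑ l, ∑ m, (εR m - (εR l + 1)) = Ee' at *
  generalize hEe : ∑ l, ∑ m, (εC m - (εC l + 1)) = Ee at *
  generalize hEh : ∑ i, ∑ j, (h j - (h i + 1)) = Eh at *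
  generalize hEd1 : ∑ k, ∑ l, (δ1 l - (δ1 k + 1)) = Ed1 at *
  generalize hx2 : ∑ l, ∑ k, (wX k - (εR l + 1)) = x2 at *
  generalize hx3 : ∑ l, ∑ m, (εR m - (εC l + 1)) = x3 at *
  generalize hx4 : ∑ i, ∑ l, (εC l - (E i + 1)) = x4 at *
  generalize hx6 : ∑ i, ∑ j, (hp j - (h i + K3 + 1)) = x6 at *
  generalize hA1 : ∑ i, ∑ k, (y' i + 1 - w' k) = A1 at *
  generalize hAA : ∑ i, ∑ l, (y' i + 1 - y' l) = AA at *
  generalize hA2 : ∑ l, ∑ k, (εR l + 1 - wX k) = A2 at *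
  generalize hAB : ∑ l, ∑ m, (εR l + 1 - εR m) = AB at *
  generalize hA3 : ∑ l, ∑ m, (εC l + 1 - εR m) = A3 at *
  generalize hAC : ∑ l, ∑ m, (εC l + 1 - εC m) = AC at *
  generalize hA4 : ∑ i, ∑ l, (E i + 1 - εC l) = A4 at *
  generalize hA6 : ∑ i, ∑ j, (h i + K3 + 1 - hp j) = A6 at *
  generalize hAD : ∑ i, ∑ l, (h i + 1 - h l) = AD at *
  generalize hAG : ∑ k, ∑ l, (δ1 k + 1 - δ1 l) = AG at *
  generalize hA8 : ∑ i, ∑ l, (D + 1 - w i - hs' l) = A8 at *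
  generalize hT : ∑ i, (D + 1 - w i) = T at *
  have c2 : ((2 * bp - 1 : ℕ) : ℤ) = 2 * bp - 1 := by omega
  push_cast [Finset.sum_add_distrib, Finset.sum_const, Finset.card_univ, Fintype.card_fin,
    nsmul_eq_mul, c2] at t1 tA t2 tB t3 tC t4 t6 tD tG
  simp only [← Nat.cast_sum] at t1 tA t2 tB t3 tC t4 t6 tD tG
  clear hEy hEe' hEe hEh hEd1 hx2 hx3 hx4 hx6 hA1 hAA hA2 hAB hA3 hAC hA4 hA6 hAD hAG hA8 hT
    z1 hsle f1 f2 f3 f4 f5 t10 hyE hE hwX hww hw1 hw1'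
  rw [hn1] at t6 tD
  rw [hl] at P3 t3 tC t4
  rw [Nat.cast_add] at t3 tC t4
  generalize hSy : ∑ i, y' i = Sy at *
  generalize hSe' : ∑ l, εR l = Se' at *
  generalize hSd : ∑ k, δ1 k = Sd at *
  generalize hSwX : ∑ k, wX k = SwX at *
  generalize hSr : ∑ k, rb k = Sr at *
  generalize hShp : ∑ j, hp j = Shp at *
  generalize hSE : ∑ i, E i = SE at *
  generalize hW : ∑ i, w i = W at *
  generalize hW' : ∑ i, w' i = W' at *
  clear hSy hSe' hSd hSwX hSr hShp hSE hW hW'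
  have d1 : ((T : ℕ) : ℤ) = b * (D + 1) - W := by
    have : ((T + W : ℕ) : ℤ) = ((b * (D + 1) : ℕ) : ℤ) := by rw [t9]
    push_cast at this
    linarith
  have d2' : (W' : ℤ) = b - W := by omega
  have d3 : (SwX : ℤ) = 2 * bp * K2 - Sd := by
    have : ((SwX + Sd : ℕ) : ℤ) = ((2 * bp * K2 : ℕ) : ℤ) := by rw [twX]
    push_cast at this
    linarith
  have d4 : (SE : ℤ) = bp * D + Sy + bp * K - bp := by
    have : ((SE + bp : ℕ) : ℤ) = ((bp * D + Sy + bp * K : ℕ) : ℤ) := by rw [tE]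
    push_cast at this
    linarith
  have d5 : (Shp : ℤ) = s * K3 + 2 * bp * K + W + Sy - Sr - e * D - bp := by
    have : ((Shp + Sr + e * D + bp : ℕ) : ℤ)
        = ((s * K3 + 2 * bp * K + W + Sy : ℕ) : ℤ) := by rw [P6]
    push_cast at this
    linarith
  have d6 : (A8 : ℤ) = ss * T - b * n1 := by
    have : ((A8 + b * n1 : ℕ) : ℤ) = ((ss * T : ℕ) : ℤ) := by rw [t8]
    push_cast at this
    linarith
  have hD' : (2 * (c : ℤ) - 1) * q + 4 * (a * b) + 2 * W ≤ 2 * (b * D) + 1 := by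
    have c3 : (((2 * c - 1) * q : ℕ) : ℤ) = (2 * c - 1) * q := by
      push_cast [show 1 ≤ 2 * c by omega]
      ring
    rw [← c3]
    exact_mod_cast hD
  have g1 : (Sd : ℤ) + 2 * q0 ≤ Q + 2 * bp * K1 := by exact_mod_cast P1
  have g2 : (n1 : ℤ) + Sr ≤ q0 + 2 * bp * K := by exact_mod_cast P5
  have g3 : (Se' : ℤ) + ℓ + K2 + γ ≤ Sr + d2 := by exact_mod_cast P3
  have g4 : (Sy : ℤ) + e ≤ W' + (e * D + q0) := by exact_mod_cast P4
  have g5 : (Se' : ℤ) + K2 = SwX + d2 := by exact_mod_cast P2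
  have i1 : ((N1 : ℤ) + N2 + N3 + N4 + N5 + N6 + N8 + 1 : ℤ)
      < 2 * c * T + (4 * bp * bp + Ed1) := by
    refine @numeric2_int a b e bp Q q q0 n1 D W K K1 K2 K3 s c d2 γ ℓ Sy Se' (Se' + ℓ) Sd Sr Shp
      SE T N1 N2 N3 N4 N5 N6 N8 Ey Ee' Ee Eh Ed1 x2 x3 x4 x6 (by omega) (by omega) (by omega)
      (by omega) d4 d1 d5 rfl
      (mul_nonneg (by omega) (by linarith)) (mul_nonneg (by omega) (by linarith))
      (mul_nonneg (by omega) (by linarith)) (by linarith)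
      (mul_nonneg (by omega) (by linarith)) (mul_nonneg (by omega) (by omega))
      (mul_nonneg (by omega) (by omega)) (mul_nonneg (by omega) (by omega))
      (mul_nonneg (by omega) (by omega)) (mul_nonneg (by omega) (by omega))
      (mul_nonneg (by omega) (by omega)) ?_ ?_ ?_ ?_ (by exact_mod_cast h5) ?_ ?_
      (by exact_mod_cast e2) (by exact_mod_cast e6) (by exact_mod_cast e34) hD'
    · have : (N1 : ℤ) + 2 * AA ≤ 2 * A1 := by exact_mod_cast h1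
      rw [t1, tA, d2'] at this
      linarith
    · have : (N2 : ℤ) + AB ≤ A2 := by exact_mod_cast h2
      rw [t2, tB, d3] at this
      linarith
    · have : (N3 : ℤ) + 2 * AC ≤ 2 * A3 := by exact_mod_cast h3
      rw [t3, tC] at this
      linarith
    · have : (N4 : ℤ) + 2 ≤ 2 * A4 := by exact_mod_cast h4
      rw [t4] at this
      linarith
    · have : (N6 : ℤ) + 2 * AD ≤ 2 * (A6 + c * (n1 + s)) := by exact_mod_cast h6
      rw [t6, tD] at this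
      linarith
    · have : (N8 : ℤ) ≤ 2 * A8 := by exact_mod_cast h8
      rw [d6] at this
      have h9 : (ss : ℤ) = c - s := by omega
      rw [h9] at this
      exact this
  have i2 : (AG : ℤ) = 4 * bp * bp + Ed1 := by
    rw [tG]; ring
  have i3 : ((N1 + N2 + N3 + N4 + N5 + N6 + N8 + 1 : ℕ) : ℤ) < ((2 * c * T + AG : ℕ) : ℤ) := by
    push_cast
    rw [i2]
    exact i1
  exact_mod_cast i3

end Pool.Agent.Helper730_PP
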