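import Pool.Agent.Helper730_PP.StepG
import Pool.Agent.Helper730_PP.Comb
import Pool.Agent.Helper730_PP.Numeric2

/-!
# Corank one: the algebra
-/

open Polynomial

namespace Pool.Agent.Helper730_PP

noncomputable section

theorem exists_torsion {ι κ : Type*} [Fintype ι] [Fintype κ] {f : κ → ι → ℂ[X]}
    (hf : LinearIndependent ℂ[X] f) {v : ι → ℂ[X]} (hv : v ∈ perp (perp (lat f))) :
    ∃ p : ℂ[X], p ≠ 0 ∧ p • v ∈ lat f := by
  classical
  obtain ⟨n, t, θ, -, hθ, hθlat⟩ := exists_RB (w0 (ι := ι)) (perp (lat f))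
  have hfil : ∀ k : κ, ∃ t, f k ∈ Lv ℂ (w0 (ι := ι)) (t + 1) := fun k => exists_lv_succ _ _
  choose τ hτ using hfil
  have h1 := (perp_le (c := 0) (w := w0) (w' := w0) (fun _ => rfl) hτ hθ hθlat.symm).1
  rw [Fintype.card_fin] at h1
  by_contra hcon
  push Not at hcon
  have hli : LinearIndependent ℂ[X] (Sum.elim (fun _ : Unit => v) f) := by
    rw [Fintype.linearIndependent_iff]
    intro g hg
    rw [Fintype.sum_sum_type, Fintype.sum_unique] at hg
    simp only [Sum.elim_inl, Sum.elim_inr] at hg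
    have h2 : g (Sum.inl default) = 0 := by
      by_contra h3
      apply hcon _ h3
      rw [eq_neg_of_add_eq_zero_left hg]
      exact Submodule.neg_mem _ (Submodule.sum_mem _ fun k _ => Submodule.smul_mem _ _
        (Submodule.subset_span ⟨k, rfl⟩))
    rw [h2, zero_smul, zero_add] at hg
    rw [Fintype.linearIndependent_iff] at hf
    rintro (i | k)
    · rwa [Subsingleton.elim i default]
    · exact hf (fun k => g (Sum.inr k)) hg k
  have h2 := card_le_of_perp_complex hθ.li hli (fun k => by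
    rw [hθlat]
    rcases k with k | k
    · exact hv
    · exact le_perp_perp _ (Submodule.subset_span ⟨k, rfl⟩))
  rw [Fintype.card_fin, Fintype.card_sum, Fintype.card_unit] at h2
  omega

theorem exists_real_mult {p : ℂ[X]} (hp : p ≠ 0) :
    ∃ P : ℝ[X], P ≠ 0 ∧ ∃ p' : ℂ[X], io P = p' * p := by
  refine ⟨reP p * reP p + imP p * imP p, ?_, io (reP p) - II * io (imP p), ?_⟩
  · intro h
    apply hp
    have h4 := sum_sq_eq_zero (v := fun s : Fin 2 => if s = 0 then reP p else imP p) (by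
      rw [Fin.sum_univ_two]; simpa using h)
    have h5 : reP p = 0 := by simpa using congrFun h4 0
    have h6 : imP p = 0 := by simpa using congrFun h4 1
    rw [← io_reP_imP p, h5, h6]
    simp
  · have h7 : ∀ x y : ℂ[X], (x - II * y) * (x + II * y) = x * x + y * y := fun x y => by
      have := II_sq
      linear_combination (-(y ^ 2)) * this
    have h8 := h7 (io (reP p)) (io (imP p))
    rw [io_reP_imP] at h8
    rw [map_add, map_mul, map_mul, h8]

section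

variable {b c m : ℕ} {η : Fin m → Fin c × Fin 2 → ℝ[X]} {A : Fin b → Fin c → ℂ[X]}
  {κ : Fin c × Fin 2 → ℝ[X]}

theorem inj_cmax (hone : ∀ x ∈ lat η, Ar A x = 0 → ∃ p : ℝ[X], p ≠ 0 ∧ ∃ q : ℝ[X],
      p • x = q • κ) {z : Fin c → ℂ[X]} (hz : z ∈ cmax (lat η)) (hAz : Ac A z = 0) : z = 0 := by
  obtain ⟨p, hp, q, hpq⟩ := hone (rx z) hz.1 (by rw [Ar_apply, cx_rx, hAz, rx_zero])
  obtain ⟨p', hp', q', hpq'⟩ := hone (rx (II • z)) hz.2 (by
    rw [Ar_apply, cx_rx, map_smul, hAz, smul_zero, rx_zero])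
  by_cases hq : q = 0
  · rw [hq, zero_smul] at hpq
    rcases smul_eq_zero.mp hpq with h | h
    · exact absurd h hp
    · rw [← cx_rx z, h, cx_zero]
  · have h4 : (q' * p) • rx z = (q * p') • rx (II • z) := by
      rw [mul_smul, hpq, mul_smul, hpq', smul_comm]
    have h5 := congrArg cx h4
    rw [cx_smul, cx_smul, cx_rx, cx_rx, smul_smul, ← sub_eq_zero, ← sub_smul] at h5
    rcases smul_eq_zero.mp h5 with h6 | h6
    · have h7 : io (q' * p) + II * io (- (q * p')) = 0 := by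
        rw [map_neg]
        linear_combination h6
      obtain ⟨-, h9⟩ := io_II_eq_zero h7
      exact absurd (neg_eq_zero.mp h9) (mul_ne_zero hq hp')
    · exact h6

variable {e cf r : ℕ} {ω : Fin e → Fin c → ℂ[X]} {π : Fin cf → Fin c → ℂ[X]}
  {û : Fin r → Fin cf × Fin 2 → ℝ[X]}

theorem exists_x' (hκ : κ ∈ lat η) (hκ0 : κ ≠ 0) (hAκ : Ar A κ = 0)
    (hone : ∀ x ∈ lat η, Ar A x = 0 → ∃ p : ℝ[X], p ≠ 0 ∧ ∃ q : ℝ[X], p • x = q • κ)
    (hker : perp (lat π) = lat ω) (hωlat : lat ω = cmax (lat η))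
    (hûlat : lat û = (lat η).map (Ar π)) :
    ∃ x' : Fin r → ℝ[X], x' ≠ 0 ∧ ∑ k, x' k • û k = Ar π κ := by
  have h1 : Ar π κ ∈ lat û := by rw [hûlat]; exact ⟨κ, hκ, rfl⟩
  obtain ⟨x', hx'⟩ := mem_lat.mp h1
  refine ⟨x', ?_, hx'⟩
  rintro rfl
  simp only [Pi.zero_apply, zero_smul, Finset.sum_const_zero] at hx'
  have h2 : Ac π (cx κ) = 0 := by rw [← cx_Ar, ← hx', cx_zero]
  rw [Ac_eq_zero, hker, hωlat] at h2
  have h3 : Ac A (cx κ) = 0 := by rw [← cx_Ar, hAκ, cx_zero]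
  have h4 := inj_cmax hone h2 h3
  apply hκ0
  rw [← rx_cx κ, h4, rx_zero]

theorem iov_sum_eq {β : Fin r → ℝ[X]} {u : Fin c × Fin 2 → ℝ[X]}
    (h : ∑ k, β k • û k = Ar π u) :
    (1 : ℂ[X]) • Ac π (cx u) = ∑ k, iov β k • cx (û k) := by
  rw [one_smul, ← cx_Ar, ← h, cx_sum]
  exact Finset.sum_congr rfl fun k _ => cx_smul _ _

theorem eval_a {β : Fin r → ℝ[X]} {u : Fin c × Fin 2 → ℝ[X]}
    (h : ∑ k, β k • û k = Ar π u) {lam : Fin b → ℂ[X]} {φ : Fin cf → ℂ[X]}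
    (hφ : ∑ l, φ l • π l = rowmul lam A) :
    dotL (iov β) (fun_ û φ) = dotL (Ac A (cx u)) lam := by
  rw [← fun_eval (iov_sum_eq h), hφ, one_mul, dotL_rowmul]

theorem hker1_of {bp : ℕ}
    (hone : ∀ x ∈ lat η, Ar A x = 0 → ∃ p : ℝ[X], p ≠ 0 ∧ ∃ q : ℝ[X], p • x = q • κ)
    (hωli : LinearIndependent ℂ[X] fun j => Ac A (ω j))
    (hker : perp (lat π) = lat ω) (hωlat : lat ω = cmax (lat η))
    (hûlat : lat û = (lat η).map (Ar π)) (hûli : LinearIndependent ℝ[X] û)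
    {lam : Fin bp → Fin b → ℂ[X]} (hlamlat : lat lam = perp (lat fun j => Ac A (ω j)))
    {φ : Fin bp → Fin cf → ℂ[X]} (hφ : ∀ i, ∑ l, φ i l • π l = rowmul (lam i) A)
    {x' : Fin r → ℝ[X]} (hx' : ∑ k, x' k • û k = Ar π κ) (β : Fin r → ℝ[X])
    (hβ : ∀ i, dotL (iov β) (fun_ û (φ i)) = 0) :
    ∃ p : ℝ[X], p ≠ 0 ∧ ∃ q : ℝ[X], p • β = q • x' := by
  have h1 : ∑ k, β k • û k ∈ lat û := mem_lat.mpr ⟨β, rfl⟩
  rw [hûlat] at h1
  obtain ⟨u, hu, hux⟩ := h1
  have h2 : Ac A (cx u) ∈ perp (perp (lat fun j => Ac A (ω j))) := by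
    rw [← hlamlat, mem_perp_lat]
    intro i
    rw [dotL_comm, ← eval_a hux.symm (hφ i)]
    exact hβ i
  obtain ⟨p, hp, hpu⟩ := exists_torsion hωli h2
  obtain ⟨g, hg⟩ := mem_lat.mp hpu
  set c0 : Fin c → ℂ[X] := ∑ j, g j • ω j with hc0
  have hc0A : Ac A c0 = p • Ac A (cx u) := by
    rw [← hg, hc0, map_sum]
    exact Finset.sum_congr rfl fun j _ => map_smul _ _ _
  have hc0mem : c0 ∈ lat ω := mem_lat.mpr ⟨g, rfl⟩
  -- make the coefficient real
  obtain ⟨P, hP0, p', hPio⟩ := exists_real_mult hp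
  set c1 : Fin c → ℂ[X] := p' • c0 with hc1
  have hc1mem : c1 ∈ lat ω := Submodule.smul_mem _ _ hc0mem
  have hc1A : Ac A c1 = io P • Ac A (cx u) := by
    rw [hc1, map_smul, hc0A, smul_smul, ← hPio]
  have hc1c : c1 ∈ cmax (lat η) := by rw [← hωlat]; exact hc1mem
  obtain ⟨p2, hp2, q2, hpq⟩ := hone (P • u - rx c1)
    (Submodule.sub_mem _ (Submodule.smul_mem _ _ hu) hc1c.1) (by
      rw [map_sub, map_smul, Ar_apply A (rx c1), cx_rx, hc1A, sub_eq_zero, rx_io_smul]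
      rfl)
  refine ⟨p2 * P, mul_ne_zero hp2 hP0, q2, ?_⟩
  have h3 := congrArg (Ar π) hpq
  have h4 : Ac π c1 = 0 := by rw [Ac_eq_zero, hker]; exact hc1mem
  rw [map_smul, map_smul, Ar_add_smul _ h4, map_smul, hux, ← hx', smul_smul] at h3
  have h5 : ∑ k, ((p2 * P) * β k - q2 * x' k) • û k = 0 := by
    simp only [sub_smul, mul_smul, Finset.sum_sub_distrib]
    rw [sub_eq_zero]
    simp only [mul_smul, Finset.smul_sum] at h3
    exact h3
  rw [Fintype.linearIndependent_iff] at hûli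
  funext k
  have h6 := hûli _ h5 k
  rw [Pi.smul_apply, Pi.smul_apply, smul_eq_mul, smul_eq_mul]
  exact sub_eq_zero.mp h6

end

end

end Pool.Agent.Helper730_PP
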