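import Pool.Agent.Helper730_PP.CoreA

/-!
# Corank one: the degrees
-/

open Polynomial

namespace Pool.Agent.Helper730_PP

noncomputable section

/-- The functional attached to a combination, as a linear map. -/
def funL {cf r : ℕ} (û : Fin r → Fin cf × Fin 2 → ℝ[X]) :
    (Fin cf → ℂ[X]) →ₗ[ℂ[X]] (Fin r → ℂ[X]) where
  toFun φ := fun_ û φ
  map_add' φ ψ := by
    unfold fun_
    rw [← Finset.sum_add_distrib]
    exact Finset.sum_congr rfl fun l _ => add_smul _ _ _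
  map_smul' p φ := by
    unfold fun_
    rw [RingHom.id_apply, Finset.smul_sum]
    exact Finset.sum_congr rfl fun l _ => mul_smul _ _ _

/-- Combinations of a family, as a linear map. -/
def combL {cf c : ℕ} (π : Fin cf → Fin c → ℂ[X]) :
    (Fin cf → ℂ[X]) →ₗ[ℂ[X]] (Fin c → ℂ[X]) where
  toFun φ := ∑ l, φ l • π l
  map_add' φ ψ := by
    rw [← Finset.sum_add_distrib]
    exact Finset.sum_congr rfl fun l _ => add_smul _ _ _
  map_smul' p φ := by
    rw [RingHom.id_apply, Finset.smul_sum]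
    exact Finset.sum_congr rfl fun l _ => mul_smul _ _ _

theorem fun_mem_lat {cf r : ℕ} (û : Fin r → Fin cf × Fin 2 → ℝ[X]) (φ : Fin cf → ℂ[X]) :
    fun_ û φ ∈ lat (rho û) := mem_lat.mpr ⟨φ, rfl⟩

theorem P5_of {m c cf r s ss e K K1 K2 : ℕ} {y wF : Fin cf → ℕ} {δ1 wX : Fin r → ℕ}
    {π : Fin cf → Fin c → ℂ[X]} {û : Fin r → Fin cf × Fin 2 → ℝ[X]}
    {η : Fin m → Fin c × Fin 2 → ℝ[X]} (hπ : RB w0 y π) (hwF : ∀ l, wF l + y l = K1)
    (hwX : ∀ k, wX k + δ1 k = K2) (hK : K1 + K = K2)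
    (hûfil : ∀ k, cx (û k) ∈ Lv ℂ wF (δ1 k + 1)) {hs : Fin ss → ℕ}
    {ξs : Fin ss → Fin c → ℂ[X]} (hξs : RB w0 hs ξs)
    (hξslat : lat ξs = perp (lat fun k => cx (η k))) (hûη : ∀ k, Ar π (η k) ∈ lat û)
    {rb : Fin r → ℕ} {ρb : Fin r → Fin r → ℂ[X]} (hρb : RB wX rb ρb)
    (hρblat : lat ρb = lat (rho û)) (hcf : cf + e = c) (hss : ss + s = c) (hre : r + e = s) :
    ∑ j, hs j + ∑ k, rb k ≤ ∑ l, y l + r * K := by
  have key : ∀ T, ∑ l, (T - y l) ≤ ∑ j, (T - hs j) + ∑ k, (T + K - rb k) := by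
    intro T
    have h1 := finrank_le_one (Lv ℂ y T) ((funL û).restrictScalars ℂ)
      (lev (lat ρb) wX (T + K)) (fun φ hφ => by
        rw [mem_lev, hρblat]
        exact ⟨fun_mem_lat û φ, fun_mem hûfil hwF hwX hK hφ⟩)
    rw [finrank_Lv, hρb.finrank_lev] at h1
    set W2 : Submodule ℂ (Fin cf → ℂ[X]) :=
      Lv ℂ y T ⊓ LinearMap.ker ((funL û).restrictScalars ℂ) with hW2
    have hfinW2 : Module.Finite ℂ W2 :=
      Submodule.finiteDimensional_of_le (inf_le_left : W2 ≤ Lv ℂ y T)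
    have h2 := finrank_le_one W2 ((combL π).restrictScalars ℂ) (lev (lat ξs) w0 T)
      (fun φ hφ => by
        have hφ1 : φ ∈ Lv ℂ y T := hφ.1
        have hφ2 : fun_ û φ = 0 := hφ.2
        show ∑ l, φ l • π l ∈ lev (lat ξs) w0 T
        rw [mem_lev]
        constructor
        · rw [hξslat, mem_perp_lat]
          intro k
          obtain ⟨β, hβ⟩ := mem_lat.mp (hûη k)
          have h3 := fun_eval (φ := φ) (iov_sum_eq hβ)
          rw [hφ2, one_mul, map_zero] at h3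
          exact h3
        · exact Submodule.sum_mem _ fun l _ => smul_mem_Lv (hπ.fil l) fun k hk => hφ1 l k hk)
    rw [hξs.finrank_lev] at h2
    have h3 : (W2 ⊓ LinearMap.ker ((combL π).restrictScalars ℂ)
        : Submodule ℂ (Fin cf → ℂ[X])) = ⊥ := by
      rw [eq_bot_iff]
      rintro φ ⟨-, hφ⟩
      rw [Submodule.mem_bot]
      have h4 : ∑ l, φ l • π l = 0 := hφ
      have h5 := hπ.li
      rw [Fintype.linearIndependent_iff] at h5
      funext l
      exact h5 φ h4 l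
    rw [h3, finrank_bot, zero_add] at h2
    omega
  obtain ⟨T, h3, h4, h5⟩ : ∃ T, (∀ k, y k ≤ T) ∧ (∀ k, hs k ≤ T) ∧ (∀ k, rb k ≤ T + K) := by
    refine ⟨∑ k, y k + ∑ k, hs k + ∑ k, rb k, fun k => ?_, fun k => ?_, fun k => ?_⟩
    · have := Finset.single_le_sum (f := y) (fun _ _ => Nat.zero_le _) (Finset.mem_univ k)
      omega
    · have := Finset.single_le_sum (f := hs) (fun _ _ => Nat.zero_le _) (Finset.mem_univ k)
      omega
    · have := Finset.single_le_sum (f := rb) (fun _ _ => Nat.zero_le _) (Finset.mem_univ k)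
      omega
  have h6 := key T
  have h7 := sum_sub_add y h3
  have h8 := sum_sub_add hs h4
  have h9 := sum_sub_add rb h5
  rw [Fintype.card_fin] at h7 h8 h9
  have h10 : cf * T = ss * T + r * T := by
    rw [← add_mul]; congr 1; omega
  have h11 : r * (T + K) = r * T + r * K := by ring
  omega

theorem exists_lam {b c e D : ℕ} {w w' : Fin b → ℕ} (hw : ∀ i, w i + w' i = 1)
    {A : Fin b → Fin c → ℂ[X]} (hA : ∀ i j k, D + 1 ≤ k + w i → (A i j).coeff k = 0)
    {δ0 : Fin e → ℕ} {ω : Fin e → Fin c → ℂ[X]} (hω : RB w0 δ0 ω)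
    (hωli : LinearIndependent ℂ[X] fun j => Ac A (ω j)) {bp : ℕ} (hb : bp + e = b) :
    ∃ (y' : Fin bp → ℕ) (lam : Fin bp → Fin b → ℂ[X]) (S1 : Finset ℝ),
      Monotone y' ∧ RB w' y' lam ∧ lat lam = perp (lat fun j => Ac A (ω j)) ∧
      ∑ i, y' i + e ≤ ∑ i, w' i + (e * D + ∑ j, δ0 j) ∧
      S1.card + 2 * ∑ i, ∑ l, (y' i + 1 - y' l) ≤ 2 * ∑ i, ∑ k, (y' i + 1 - w' k) ∧
      ∀ F₁ : Subfield ℝ, (∀ s ∈ S1, s ∈ F₁) → ∀ i, IsRat (cplx F₁) (lam i) := by
  classical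
  obtain ⟨n, y', lam0, hy', hlam0, hlam0lat⟩ := exists_RB w' (perp (lat fun j => Ac A (ω j)))
  have hfil : ∀ j, Ac A (ω j) ∈ Lv ℂ w (D + δ0 j + 1) := fun j => Ac_mem_Lv hA (hω.fil j)
  have h1 := perp_le (w := w') (w' := w) (c := 1) (fun i => by rw [add_comm]; exact hw i) hfil
    hlam0 hlam0lat.symm
  have h2 := card_le_of_perp_complex hωli hlam0.li (fun k => by
    rw [← hlam0lat]; exact Submodule.subset_span ⟨k, rfl⟩)
  rw [Fintype.card_fin, Fintype.card_fin, Fintype.card_fin] at h1 h2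
  obtain rfl : n = bp := by have := h1.1; omega
  have h3 := h1.2 (by omega)
  rw [one_mul, Finset.sum_add_distrib, Finset.sum_const, Finset.card_univ, Fintype.card_fin,
    smul_eq_mul] at h3
  obtain ⟨S, hS, hSF⟩ := hlam0.exists_params' (F₀ := ⊥) (Z := ⊤) le_top
    (fun t => dfn_lev_top w' t)
  set F1 : Subfield ℝ := Subfield.closure ((reim S id : Finset ℝ) : Set ℝ) with hF1
  have hD := hSF (cplx F1) bot_le (fun s hs => reim_cplx (A := S) (g := id)
    (fun y hy => Subfield.subset_closure hy) hs)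
  obtain ⟨lam, hlam, hlamrat, hlamlat⟩ := hlam0.exists_rat hy' hD
  refine ⟨y', lam, reim S id, hy', hlam, hlamlat.trans hlam0lat, h3, ?_, ?_⟩
  · have h5 : ∀ i, Module.finrank ℂ (lev (⊤ : Submodule ℂ[X] (Fin b → ℂ[X])) w' (y' i + 1))
        = ∑ l, (y' i + 1 - w' l) := fun i => by rw [lev_top, finrank_Lv]
    rw [Finset.sum_congr rfl fun i _ => h5 i] at hS
    have h6 : (reim S id).card ≤ 2 * S.card := reim_card S id
    omega
  · intro F₁ hF₁ i
    refine (hlamrat i).mono (cplx_mono ?_)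
    rw [hF1, Subfield.closure_le]
    exact hF₁

section

variable {bp K2 : ℕ} {δ1 wX : Fin (2 * bp) → ℕ} {εR εC : Fin (2 * bp - 1) → ℕ}
  {χ : Fin (2 * bp - 1) → Fin (2 * bp) → ℝ[X]} {x2 : Fin (2 * bp) → ℝ[X]}
  {ν : Fin (2 * bp - 1) → Fin (2 * bp) → ℂ[X]}

theorem f5_of (hδ1 : Monotone δ1) (hwX : ∀ k, wX k + δ1 k = K2) (hεR : Monotone εR)
    (hχ : RB wX εR χ) (l : Fin (2 * bp - 1)) (k : Fin (2 * bp)) (h : (k : ℕ) + l + 1 = 2 * bp) :
    wX k ≤ εR l := by
  classical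
  have h1 := (RB_std (F := ℝ) wX).comp Fin.rev Fin.rev_injective
  have hmono : Monotone (wX ∘ Fin.rev) := by
    intro i j hij
    have h2 : Fin.rev j ≤ Fin.rev i := Fin.rev_le_rev.mpr hij
    have h3 := hδ1 h2
    have h4 := hwX (Fin.rev i)
    have h5 := hwX (Fin.rev j)
    simp only [Function.comp]
    omega
  have hlat : lat ((fun i : Fin (2 * bp) => (Pi.single i (1 : ℝ[X]) : Fin (2 * bp) → ℝ[X]))
      ∘ Fin.rev) = ⊤ := by
    rw [← lat_std (F := ℝ) (ι := Fin (2 * bp))]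
    unfold lat
    rw [Set.range_comp, (Fin.rev_surjective).range_eq, Set.image_univ]
  have h3 := hχ.li.comp (Fin.castLE l.2 : Fin (l + 1) → Fin (2 * bp - 1))
    (Fin.castLE_injective _)
  have h4 := h1.le_of_li hmono (m := Fin.rev k) (t := εR l) (by
    rw [Fintype.card_fin, Fin.val_rev]; omega) _ h3 (fun m => by
    rw [mem_lev, hlat]
    refine ⟨Submodule.mem_top, ?_⟩
    have h4 : εR (Fin.castLE l.2 m) ≤ εR l := hεR (by
      rw [Fin.le_def, Fin.val_castLE]; exact Nat.lt_succ_iff.mp m.2)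
    exact Lv_mono (Nat.succ_le_succ h4) (hχ.fil (Fin.castLE l.2 m)))
  simpa using h4

theorem f3_of (hεR : Monotone εR) (hχ : RB wX εR χ) (hmem : ∀ z, z ∈ lat χ ↔ dotL x2 z = 0)
    {E : Fin bp → ℕ} (hE : Monotone E) {a : Fin bp → Fin (2 * bp) → ℂ[X]}
    (ha : ∀ i, a i ∈ Lv ℂ wX (E i + 1)) (hax : ∀ i, dotL (iov x2) (a i) = 0)
    {k0 : Fin bp × Fin 2} (hk0 : ∀ q : Fin bp × Fin 2 → ℝ[X], q k0 = 0 →
      ∑ x, q x • ri a x = 0 → q = 0)
    (l : Fin (2 * bp - 1)) (i : Fin bp) (h : (i : ℕ) = (l + 1) / 2) : εR l ≤ E i := by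
  classical
  have h1 : LinearIndependent ℝ[X] (fun k : {k : Fin bp × Fin 2 // k.1 ≤ i ∧ k ≠ k0} => ri a k) :=
    li_of_fun (fun k : Fin bp × Fin 2 => k.1 ≤ i ∧ k ≠ k0) (ri a)
      fun p hp h => hk0 p (hp k0 (by simp)) h
  refine hχ.le_of_li hεR ?_ _ h1 fun k => ?_
  · have h2 : (Finset.univ.filter fun k : Fin bp × Fin 2 => k.1 ≤ i ∧ k ≠ k0)
        = ((Finset.Iic i) ×ˢ (Finset.univ : Finset (Fin 2))).erase k0 := by
      ext k
      simp only [Finset.mem_filter, Finset.mem_univ, true_and, Finset.mem_erase,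
        Finset.mem_product, Finset.mem_Iic, and_true]
      exact and_comm
    rw [Fintype.card_subtype, h2]
    have h3 := Finset.pred_card_le_card_erase
      (s := (Finset.Iic i) ×ˢ (Finset.univ : Finset (Fin 2))) (a := k0)
    rw [Finset.card_product, Fin.card_Iic, Finset.card_univ, Fintype.card_fin] at h3
    omega
  · rw [mem_lev, hmem]
    refine ⟨ri_perp hax k, ?_⟩
    have h2 := hE k.2.1
    obtain ⟨⟨i', r⟩, hk⟩ := k
    have h3 := Lv_mono (Nat.succ_le_succ h2) (ha i')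
    fin_cases r
    · exact rev_mem_Lv h3
    · exact imv_mem_Lv h3

theorem f2_of (hεC : Monotone εC) (hν : RB wX εC ν) {E : Fin bp → ℕ} (hE : Monotone E)
    {a : Fin bp → Fin (2 * bp) → ℂ[X]} (ha : ∀ i, a i ∈ lev (lat ν) wX (E i + 1))
    (hli : LinearIndependent ℂ[X] a)
    (i : Fin bp) (l : Fin (2 * bp - 1)) (h : (l : ℕ) = i) : εC l ≤ E i := by
  have h1 := hli.comp (Fin.castLE i.2 : Fin (i + 1) → Fin bp) (Fin.castLE_injective _)
  refine hν.le_of_li hεC (by rw [Fintype.card_fin]; omega) _ h1 fun m => ?_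
  have h4 : E (Fin.castLE i.2 m) ≤ E i := hE (by
    rw [Fin.le_def, Fin.val_castLE]; exact Nat.lt_succ_iff.mp m.2)
  exact lev_mono le_rfl (Nat.succ_le_succ h4) (ha (Fin.castLE i.2 m))

end

end

end Pool.Agent.Helper730_PP
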