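import Pool.Agent.Helper730_PP.CoreB

/-!
# Corank one: relations and recovery of the gauge
-/

open Polynomial

namespace Pool.Agent.Helper730_PP

noncomputable section

/-- The genericity property with a gauge. -/
def Gen2 {b c : ℕ} (A : Fin b → Fin c → ℂ[X]) (M : ℕ) : Prop :=
  ∀ (B : Finset ℝ) (n : ℕ), ∃ g : Fin n → ℝ, AlgebraicIndependent ℚ g ∧ ∀ S : Finset ℝ,
    (∀ K : Subfield ℂ, GoodField K → (∀ s ∈ S, (s : ℂ) ∈ K) →
      ∀ i j k, (A i j).coeff k ∈ K) →
    (∀ K : Subfield ℂ, GoodField K → (∀ s ∈ S, (s : ℂ) ∈ K) → (∀ s ∈ B, (s : ℂ) ∈ K) →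
      ∀ j, (g j : ℂ) ∈ K) → M + n ≤ S.card

theorem exists_coeff_set {κ : Type*} [Fintype κ] (f : κ → ℂ[X]) : ∃ B : Finset ℝ,
    ∀ K : Subfield ℂ, GoodField K → (∀ s ∈ B, (s : ℂ) ∈ K) → ∀ x k, (f x).coeff k ∈ K := by
  classical
  refine ⟨Finset.univ.biUnion fun x => reim (Finset.range ((f x).natDegree + 1)) (f x).coeff,
    fun K hK hB x k => ?_⟩
  by_cases hk : k < (f x).natDegree + 1
  · refine cplx_rsub_le hK ?_
    exact reim_cplx (A := Finset.range ((f x).natDegree + 1)) (g := (f x).coeff)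
      (F₁ := rsub K) (fun s hs => hB s (Finset.mem_biUnion.mpr ⟨x, Finset.mem_univ x, hs⟩))
      (Finset.mem_range.mpr hk)
  · rw [coeff_eq_zero_of_natDegree_lt (by omega)]
    exact K.zero_mem

/-- The pair of the functional values and the image. -/
def Hm {r b c : ℕ} (τ : Fin r → Fin c → ℂ[X]) (A : Fin b → Fin c → ℂ[X]) :
    (Fin c → ℂ[X]) →ₗ[ℂ[X]] (Fin r ⊕ Fin b → ℂ[X]) :=
  LinearMap.pi (Sum.elim (fun m => dotL (τ m)) (fun i => dotL (A i)))

theorem Hm_inl {r b c : ℕ} (τ : Fin r → Fin c → ℂ[X]) (A : Fin b → Fin c → ℂ[X])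
    (z : Fin c → ℂ[X]) (m : Fin r) : Hm τ A z (Sum.inl m) = dotL (τ m) z := rfl

theorem Hm_inr {r b c : ℕ} (τ : Fin r → Fin c → ℂ[X]) (A : Fin b → Fin c → ℂ[X])
    (z : Fin c → ℂ[X]) (i : Fin b) : Hm τ A z (Sum.inr i) = Ac A z i := rfl

section theta

variable {r b bp : ℕ} {lam : Fin bp → Fin b → ℂ[X]} (ac : Fin bp → Fin r → ℂ[X])

/-- The relations. -/
def theta (ac : Fin bp → Fin r → ℂ[X]) (lam : Fin bp → Fin b → ℂ[X]) (i : Fin bp) :
    Fin r ⊕ Fin b → ℂ[X] := Sum.elim (fun m => - ac i m) (lam i)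

theorem sum_theta_inl (p : Fin bp → ℂ[X]) (m : Fin r) :
    (∑ i, p i • theta ac lam i) (Sum.inl m) = - ∑ i, p i * ac i m := by
  rw [Finset.sum_apply, ← Finset.sum_neg_distrib]
  refine Finset.sum_congr rfl fun i _ => ?_
  show p i * - ac i m = _
  ring

theorem sum_theta_inr (p : Fin bp → ℂ[X]) (x : Fin b) :
    (∑ i, p i • theta ac lam i) (Sum.inr x) = (∑ i, p i • lam i) x := by
  rw [Finset.sum_apply, Finset.sum_apply]
  rfl

theorem theta_RB {K D : ℕ} {w' : Fin b → ℕ} {y' : Fin bp → ℕ} (hlam : RB w' y' lam)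
    {rb : Fin r → ℕ} (hac : ∀ i m k, D + y' i + K ≤ k + rb m → (ac i m).coeff k = 0) :
    RB (Sum.elim (fun m => rb m + 1) (fun x => K + D + w' x) : Fin r ⊕ Fin b → ℕ)
      (fun i => y' i + K + D) (theta ac lam) := by
  refine ⟨fun i => ?_, fun p t hp i l hl => ?_⟩
  · rintro (m | x) k hk
    · have h1 : y' i + K + D + 1 ≤ k + (rb m + 1) := hk
      show (- ac i m).coeff k = 0
      rw [coeff_neg, hac i m k (by omega), neg_zero]
    · have h1 : y' i + K + D + 1 ≤ k + (K + D + w' x) := hk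
      exact hlam.fil i x k (by omega)
  · refine hlam.pd p (t - (K + D)) (fun x k hk => ?_) i l (by omega)
    rw [← sum_theta_inr ac]
    refine hp (Sum.inr x) k ?_
    show t ≤ k + (K + D + w' x)
    omega

theorem theta_sat {e : ℕ} {f : Fin e → Fin b → ℂ[X]} (hlamlat : lat lam = perp (lat f))
    (hlamli : LinearIndependent ℂ[X] lam) (hli : LinearIndependent ℂ[X] (theta ac lam)) :
    perp (perp (lat (theta ac lam))) = lat (theta ac lam) := by
  refine le_antisymm (fun v hv => ?_) (le_perp_perp _)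
  obtain ⟨p, hp, hpv⟩ := exists_torsion hli hv
  obtain ⟨g, hg⟩ := mem_lat.mp hpv
  have h1 : (fun x => v (Sum.inr x)) ∈ lat lam := by
    rw [hlamlat, mem_perp_lat]
    intro j
    have h2 : p • (fun x => v (Sum.inr x)) = ∑ i, g i • lam i := by
      funext x
      rw [← sum_theta_inr ac, hg]
      rfl
    have h3 : dotL (f j) (∑ i, g i • lam i) = 0 := by
      have h4 : ∑ i, g i • lam i ∈ perp (lat f) := by
        rw [← hlamlat]; exact mem_lat.mpr ⟨g, rfl⟩
      rw [mem_perp_lat] at h4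
      exact h4 j
    rw [← h2, map_smul, smul_eq_mul] at h3
    exact (mul_eq_zero.mp h3).resolve_left hp
  obtain ⟨d, hd⟩ := mem_lat.mp h1
  refine mem_lat.mpr ⟨d, ?_⟩
  have h2 : ∀ i, g i = p * d i := by
    have h3 : ∑ i, (g i - p * d i) • lam i = 0 := by
      simp only [sub_smul, mul_smul, Finset.sum_sub_distrib]
      rw [← Finset.smul_sum, hd, sub_eq_zero]
      funext x
      rw [← sum_theta_inr ac, hg]
      rfl
    rw [Fintype.linearIndependent_iff] at hlamli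
    intro i
    exact sub_eq_zero.mp (hlamli _ h3 i)
  funext x
  rcases x with m | x
  · have h3 := congrFun hg (Sum.inl m)
    rw [sum_theta_inl] at h3
    rw [sum_theta_inl]
    have h4 : p * (- ∑ i, d i * ac i m) = p * v (Sum.inl m) := by
      have h5 : (p • v) (Sum.inl m) = p * v (Sum.inl m) := rfl
      rw [← h5, ← h3, mul_neg, Finset.mul_sum]
      congr 1
      refine Finset.sum_congr rfl fun i _ => ?_
      rw [h2 i]; ring
    exact mul_left_cancel₀ hp h4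
  · rw [sum_theta_inr, hd]

end theta

section relations

variable {b c cf r bp s : ℕ} {π : Fin cf → Fin c → ℂ[X]}
  {û : Fin r → Fin cf × Fin 2 → ℝ[X]} {A : Fin b → Fin c → ℂ[X]}
  {Z : Submodule ℂ[X] (Fin c → ℂ[X])} {ρb : Fin r → Fin r → ℂ[X]}
  {ψ : Fin r → Fin cf → ℂ[X]} {ζ : ℂ}

/-- The values of the functionals. -/
def tau (ζ : ℂ) (ψ : Fin r → Fin cf → ℂ[X]) (π : Fin cf → Fin c → ℂ[X]) (m : Fin r) :
    Fin c → ℂ[X] := (C ζ⁻¹ : ℂ[X]) • ∑ l, ψ m l • π l

theorem tau_eval (hψ : ∀ m, fun_ û (ψ m) = ρb m) {z : Fin c → ℂ[X]} {p : ℂ[X]}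
    {B : Fin r → ℂ[X]} (hB : p • Ac π z = ∑ k, B k • cx (û k)) (m : Fin r) :
    p * dotL (tau ζ ψ π m) z = C ζ⁻¹ * dotL B (ρb m) := by
  unfold tau
  rw [dotL_comm, map_smul, smul_eq_mul, ← hψ m, ← fun_eval hB]
  ring

theorem rel_eval (hψ : ∀ m, fun_ û (ψ m) = ρb m) (hζ : ζ ≠ 0)
    {lam : Fin b → ℂ[X]} {φ : Fin cf → ℂ[X]} (hφ : ∑ l, φ l • π l = rowmul lam A)
    {ac : Fin r → ℂ[X]} (hac : ∑ m, ac m • ρb m = ζ • fun_ û φ)
    {z : Fin c → ℂ[X]} {p : ℂ[X]} (hp : p ≠ 0)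
    {B : Fin r → ℂ[X]} (hB : p • Ac π z = ∑ k, B k • cx (û k)) :
    dotL (Ac A z) lam = ∑ m, ac m * dotL (tau ζ ψ π m) z := by
  have h1 := fun_eval (φ := φ) hB
  rw [hφ, dotL_rowmul] at h1
  have h2 : fun_ û φ = (C ζ⁻¹ : ℂ[X]) • ∑ m, ac m • ρb m := by
    rw [hac]
    have h3 : (C ζ⁻¹ : ℂ[X]) • ζ • fun_ û φ = ζ⁻¹ • ζ • fun_ û φ := by
      funext j
      show C ζ⁻¹ * (ζ • fun_ û φ j) = ζ⁻¹ • ζ • fun_ û φ j
      rw [← smul_eq_C_mul]
    rw [h3, smul_smul, inv_mul_cancel₀ hζ, one_smul]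
  apply mul_left_cancel₀ hp
  rw [h1, h2, map_smul, smul_eq_mul, map_sum, Finset.mul_sum, Finset.mul_sum]
  refine Finset.sum_congr rfl fun m _ => ?_
  rw [map_smul, smul_eq_mul]
  have h4 := tau_eval (ζ := ζ) hψ hB m
  linear_combination (-(ac m)) * h4

theorem H_inj (hψ : ∀ m, fun_ û (ψ m) = ρb m) (hζ : ζ ≠ 0)
    (hRperp : ∀ β : Fin r → ℂ[X], (∀ m, dotL β (ρb m) = 0) → β = 0)
    {z : Fin c → ℂ[X]} {p : ℂ[X]} (hp : p ≠ 0)
    {B : Fin r → ℂ[X]} (hB : p • Ac π z = ∑ k, B k • cx (û k))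
    (hz : Hm (tau ζ ψ π) A z = 0) : Ac π z = 0 ∧ Ac A z = 0 := by
  constructor
  · have h1 : B = 0 := hRperp B (fun m => by
      have h2 := tau_eval (ζ := ζ) hψ hB m
      have h3 : dotL (tau ζ ψ π m) z = 0 := congrFun hz (Sum.inl m)
      rw [h3, mul_zero] at h2
      exact (mul_eq_zero.mp h2.symm).resolve_left (C_ne_zero.mpr (inv_ne_zero hζ)))
    rw [h1] at hB
    simp only [Pi.zero_apply, zero_smul, Finset.sum_const_zero] at hB
    exact (smul_eq_zero.mp hB).resolve_left hp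
  · funext i
    exact congrFun hz (Sum.inr i)

end relations

/-- Recovery of the gauge. -/
theorem recover {m0 c cf r s : ℕ} {δ1 : Fin r → ℕ} {η : Fin m0 → Fin c × Fin 2 → ℝ[X]}
    {π : Fin cf → Fin c → ℂ[X]} {û0 : Fin r → Fin cf × Fin 2 → ℝ[X]}
    {G : GI δ1 → ℝ} {x1 : GI δ1} (hx1 : G x1 = 1)
    (hûη : ∀ k, ∃ u ∈ lat η, ∑ m, gam G k m • û0 m = Ar π u)
    (hû0li : LinearIndependent ℂ[X] fun k => cx (û0 k))
    {ρb : Fin r → Fin r → ℂ[X]} (hρbli : LinearIndependent ℂ[X] ρb)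
    (hρblat : lat ρb = lat (rho fun k => ∑ m, gam G k m • û0 m))
    {ψ : Fin r → Fin cf → ℂ[X]} (hψ : ∀ m, fun_ (fun k => ∑ m, gam G k m • û0 m) (ψ m) = ρb m)
    {ζ : ℂ} (hζ : ζ ≠ 0) {z : Fin s → Fin c → ℂ[X]}
    (hZ : ∀ x ∈ lat z, ∃ p : ℂ[X], p ≠ 0 ∧ ∃ B : Fin r → ℂ[X],
      p • Ac π x = ∑ k, B k • cx (∑ m, gam G k m • û0 m))
    (hηz : ∀ u ∈ lat η, cx u ∈ lat z) {K : Subfield ℂ}
    (hzK : ∀ j, IsRat K (z j)) (htK : ∀ j m k, (dotL (tau ζ ψ π m) (z j)).coeff k ∈ K)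
    (hρK : ∀ m, IsRat K (ρb m)) (hπK : ∀ l, IsRat K (π l)) (hû0K : ∀ k, IsRat K (cx (û0 k)))
    (x : GI δ1) : (G x : ℂ) ∈ K := by
  classical
  set û : Fin r → Fin cf × Fin 2 → ℝ[X] := fun k => ∑ m, gam G k m • û0 m with hûdef
  set V : Fin r → Fin s → ℂ[X] := fun m j => dotL (tau ζ ψ π m) (z j) with hV
  have hCζ : (C ζ⁻¹ : ℂ[X]) ≠ 0 := C_ne_zero.mpr (inv_ne_zero hζ)
  have hVsum : ∀ (g : Fin r → ℂ[X]) (y : Fin c → ℂ[X]), y ∈ lat z →
      ∀ f : Fin c → ℂ[X], (∀ j, dotL f (z j) = ∑ m, g m * V m j) →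
      dotL f y = ∑ m, g m * dotL (tau ζ ψ π m) y := by
    intro g y hy f hf
    obtain ⟨q, rfl⟩ := mem_lat.mp hy
    rw [map_sum]
    simp only [map_sum, map_smul, smul_eq_mul, Finset.mul_sum]
    rw [Finset.sum_comm]
    refine Finset.sum_congr rfl fun j _ => ?_
    rw [hf j, Finset.mul_sum]
    refine Finset.sum_congr rfl fun m _ => ?_
    rw [hV]
    ring
  have hVli : LinearIndependent ℂ[X] V := by
    rw [Fintype.linearIndependent_iff]
    intro g hg
    have h1 : ∀ y ∈ lat z, ∑ m, g m * dotL (tau ζ ψ π m) y = 0 := by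
      intro y hy
      rw [← hVsum g y hy 0 (fun j => ?_)]
      · rw [dotL_comm, map_zero]
      · have h2 := congrFun hg j
        rw [Finset.sum_apply, Pi.zero_apply] at h2
        simp only [Pi.smul_apply, smul_eq_mul] at h2
        rw [h2, dotL_comm, map_zero]
    have h2 : ∑ m, g m • ρb m = 0 := by
      funext k
      obtain ⟨u, hu, hux⟩ := hûη k
      have h3 : (1 : ℂ[X]) • Ac π (cx u) = ∑ k', (Pi.single k 1 : Fin r → ℂ[X]) k' • cx (û k') := by
        have hR : ∑ k', (Pi.single k 1 : Fin r → ℂ[X]) k' • cx (û k') = cx (û k) := by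
          rw [Finset.sum_eq_single k]
          · rw [Pi.single_eq_same, one_smul]
          · intro l _ hl
            rw [Pi.single_eq_of_ne hl, zero_smul]
          · intro h; exact absurd (Finset.mem_univ _) h
        rw [hR, one_smul, ← cx_Ar, ← hux]
      have h4 := h1 (cx u) (hηz u hu)
      have h5 : ∀ m, dotL (tau ζ ψ π m) (cx u) = C ζ⁻¹ * ρb m k := by
        intro m
        have h6 := tau_eval (ζ := ζ) hψ h3 m
        rw [one_mul] at h6
        rw [h6]
        congr 1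
        rw [dotL_apply, Finset.sum_eq_single k]
        · rw [Pi.single_eq_same, mul_one]
        · intro l _ hl
          rw [Pi.single_eq_of_ne hl, mul_zero]
        · intro h; exact absurd (Finset.mem_univ _) h
      rw [Finset.sum_apply, Pi.zero_apply]
      have h7 : C ζ⁻¹ * ∑ m, g m * ρb m k = 0 := by
        rw [← h4, Finset.mul_sum]
        refine Finset.sum_congr rfl fun m _ => ?_
        rw [h5 m]; ring
      exact (mul_eq_zero.mp h7).resolve_left hCζ
    rw [Fintype.linearIndependent_iff] at hρbli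
    exact hρbli g h2
  have hVK : ∀ m, IsRat K (V m) := fun m j k => htK j m k
  -- the coordinate functionals
  have hrho : ∀ l, IsRat K ((C ζ : ℂ[X]) • rho û l) := by
    intro l
    have h1 : rho û l ∈ lat ρb := by rw [hρblat]; exact Submodule.subset_span ⟨l, rfl⟩
    obtain ⟨d, hd⟩ := mem_lat.mp h1
    have h2 : ∀ y ∈ lat z, dotL (π l) y = ∑ m, (C ζ * d m) * dotL (tau ζ ψ π m) y := by
      intro y hy
      obtain ⟨p, hp, B, hB⟩ := hZ y hy
      have h3 := fun_eval (φ := Pi.single l (1 : ℂ[X])) hB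
      have h4 : ∑ l', (Pi.single l (1 : ℂ[X]) : Fin cf → ℂ[X]) l' • π l' = π l := by
        rw [Finset.sum_eq_single l]
        · rw [Pi.single_eq_same, one_smul]
        · intro l' _ hl
          rw [Pi.single_eq_of_ne hl, zero_smul]
        · intro h; exact absurd (Finset.mem_univ _) h
      have h5 : fun_ û (Pi.single l (1 : ℂ[X])) = rho û l := by
        unfold fun_
        rw [Finset.sum_eq_single l]
        · rw [Pi.single_eq_same, one_smul]
        · intro l' _ hl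
          rw [Pi.single_eq_of_ne hl, zero_smul]
        · intro h; exact absurd (Finset.mem_univ _) h
      rw [h4, h5, ← hd, dotL_comm, map_sum] at h3
      apply mul_left_cancel₀ hp
      rw [h3, Finset.mul_sum]
      refine Finset.sum_congr rfl fun m _ => ?_
      rw [map_smul, smul_eq_mul]
      have h6 := tau_eval (ζ := ζ) hψ hB m
      have h7 : (C ζ : ℂ[X]) * C ζ⁻¹ = 1 := by
        rw [← C_mul, mul_inv_cancel₀ hζ, C_1]
      linear_combination (-(C ζ * d m)) * h6 - (d m * dotL B (ρb m)) * h7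
    have h3 : ∑ m, (C ζ * d m) • V m = fun j => dotL (π l) (z j) := by
      funext j
      rw [Finset.sum_apply]
      simp only [Pi.smul_apply, smul_eq_mul]
      exact (h2 _ (Submodule.subset_span ⟨j, rfl⟩)).symm
    have h4 : IsRat K (∑ m, (C ζ * d m) • V m) := by
      rw [h3]
      intro j k
      show (dotL (π l) (z j)).coeff k ∈ K
      rw [dotL_apply, finsetSum_coeff]
      refine K.sum_mem fun i _ => ?_
      rw [coeff_mul]
      exact K.sum_mem fun x _ => K.mul_mem (hzK j i _) (hπK l i _)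
    have h5 := fun m k => coeff_rat_of_li hVK hVli h4 m k
    have h6 : (C ζ : ℂ[X]) • rho û l = ∑ m, (C ζ * d m) • ρb m := by
      rw [← hd, Finset.smul_sum]
      exact Finset.sum_congr rfl fun m _ => (mul_smul _ _ _).symm
    rw [h6]
    exact IsRat.sum _ fun m _ => isRat_smul_poly (h5 m) (hρK m)
  have hcoef : ∀ k m j, (C ζ * io (gam G k m)).coeff j ∈ K := by
    intro k
    have h1 : ∑ m, (C ζ * io (gam G k m)) • cx (û0 m) = (C ζ : ℂ[X]) • cx (û k) := by
      rw [hûdef]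
      simp only
      rw [cx_sum, Finset.smul_sum]
      refine Finset.sum_congr rfl fun m _ => ?_
      rw [cx_smul, mul_smul]
    have h2 : IsRat K (∑ m, (C ζ * io (gam G k m)) • cx (û0 m)) := by
      rw [h1]
      intro l j
      exact hrho l k j
    intro m j
    exact coeff_rat_of_li hû0K hû0li h2 m j
  have hG : ∀ x : GI δ1, ζ * (G x : ℂ) ∈ K := by
    rintro ⟨k, m, l⟩
    have h1 := hcoef k m l
    rw [coeff_C_mul, io_coeff, gam_coeff, dif_pos l.2] at h1
    exact h1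
  have hζK : ζ ∈ K := by
    have h1 := hG x1
    rwa [hx1, Complex.ofReal_one, mul_one] at h1
  have h1 := K.mul_mem (K.inv_mem hζK) (hG x)
  rwa [← mul_assoc, inv_mul_cancel₀ hζ, one_mul] at h1

end

end Pool.Agent.Helper730_PP
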