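import Pool.Agent.Helper730_PP.CoreC

/-!
# Corank one: the count
-/

open Polynomial

namespace Pool.Agent.Helper730_PP

noncomputable section

theorem nice_card {m c s : ℕ} {δ : Fin m → ℕ} {η : Fin m → Fin c × Fin 2 → ℝ[X]}
    (hη : ∀ k, η k ∈ Lv ℝ (w2 w0) (δ k + 1)) {h : Fin s → ℕ}
    {ξ : Fin s → Fin c → ℂ[X]} (hξ : RB w0 h ξ)
    (hξlat : lat ξ = perp (perp (lat fun k => cx (η k)))) {T' : Finset (Fin m)}
    (hT1 : LinearIndependent ℂ fun k : T' => fun j : Fin c => (cx (η k) j).coeff (δ k))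
    (hT2 : ∀ k, ∃ p : ℂ[X], p ≠ 0 ∧
      p • cx (η k) ∈ Submodule.span ℂ[X] (Set.range fun k : T' => cx (η k))) :
    LinearIndependent ℂ[X] (fun k : T' => cx (η k)) ∧ T'.card = s ∧
      ∀ z ∈ lat ξ, ∃ p : ℂ[X], p ≠ 0 ∧ p • z ∈ lat fun k => cx (η k) := by
  classical
  have hf : LinearIndependent ℂ[X] (fun k : T' => cx (η k)) := by
    have h1 : RB w0 (fun k : T' => δ k) (fun k : T' => cx (η k)) := by
      refine RB.of_ld (fun k => cx_mem_Lv.mpr (hη k)) fun α hα => ?_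
      rw [Fintype.linearIndependent_iff] at hT1
      funext k
      refine hT1 α ?_ k
      funext j
      rw [Finset.sum_apply, Pi.zero_apply, ← hα j]
      refine Finset.sum_congr rfl fun k _ => ?_
      unfold ld
      rw [if_pos (Nat.zero_le _)]
      rfl
    exact h1.li
  have hperp : perp (lat fun k : T' => cx (η k)) = perp (lat fun k => cx (η k)) := by
    apply le_antisymm
    · intro r hr
      rw [mem_perp_lat]
      intro k
      obtain ⟨p, hp, hpk⟩ := hT2 k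
      have h1 : dotL (p • cx (η k)) r = 0 := hr _ hpk
      rw [dotL_comm, map_smul, smul_eq_mul, dotL_comm] at h1
      exact (mul_eq_zero.mp h1).resolve_left hp
    · apply perp_anti
      rw [Submodule.span_le]
      rintro _ ⟨k, rfl⟩
      exact Submodule.subset_span ⟨k.1, rfl⟩
  have htor : ∀ z ∈ lat ξ, ∃ p : ℂ[X], p ≠ 0 ∧ p • z ∈ lat (fun k : T' => cx (η k)) := by
    intro z hz
    refine exists_torsion hf ?_
    rw [hperp, ← hξlat]
    exact hz
  refine ⟨hf, ?_, fun z hz => ?_⟩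
  · have h1 := card_le_of_torsion (f := ξ) hf (fun k => ⟨1, one_ne_zero, by
      rw [one_smul]
      have h2 : cx (η k) ∈ lat ξ := by
        rw [hξlat]
        exact le_perp_perp _ (Submodule.subset_span ⟨k.1, rfl⟩)
      exact h2⟩)
    have h2 := card_le_of_torsion hξ.li (fun k => htor _ (Submodule.subset_span ⟨k, rfl⟩))
    rw [Fintype.card_fin, Fintype.card_coe] at h1 h2
    omega
  · obtain ⟨p, hp, hpz⟩ := htor z hz
    refine ⟨p, hp, ?_⟩
    have h1 : lat (fun k : T' => cx (η k)) ≤ lat fun k => cx (η k) := by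
      rw [Submodule.span_le]
      rintro _ ⟨k, rfl⟩
      exact Submodule.subset_span ⟨k.1, rfl⟩
    exact h1 hpz

theorem sat_cmax {m c e : ℕ} {δ0 : Fin e → ℕ} {η : Fin m → Fin c × Fin 2 → ℝ[X]}
    (hsat : ∀ (p : ℝ[X]) (x : Fin c × Fin 2 → ℝ[X]), p ≠ 0 → p • x ∈ lat η → x ∈ lat η)
    {ω : Fin e → Fin c → ℂ[X]} (hω : RB w0 δ0 ω) (hωlat : lat ω = cmax (lat η)) :
    perp (perp (lat ω)) = lat ω := by
  refine le_antisymm (fun v hv => ?_) (le_perp_perp _)
  obtain ⟨p, hp, hpv⟩ := exists_torsion hω.li hv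
  obtain ⟨P, hP, p', hPp⟩ := exists_real_mult hp
  have h1 : io P • v ∈ cmax (lat η) := by
    rw [← hωlat, hPp, mul_smul]
    exact Submodule.smul_mem _ _ hpv
  rw [hωlat]
  refine ⟨hsat P _ hP ?_, hsat P _ hP ?_⟩
  · have h2 := h1.1
    rwa [rx_io_smul] at h2
  · have h2 := h1.2
    rwa [smul_comm, rx_io_smul] at h2

theorem core {a b c q D : ℕ} (ha : 1 ≤ a) (hc : c = a + b)
    {w w' : Fin b → ℕ} (hw : ∀ i, w i + w' i = 1)
    (hD : (2 * c - 1) * q + 4 * (a * b) + 2 * ∑ i, w i ≤ 2 * (b * D) + 1)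
    {A : Fin b → Fin c → ℂ[X]} (hA : ∀ i j k, D + 1 ≤ k + w i → (A i j).coeff k = 0)
    (hgen : Gen2 A (2 * c * ∑ i, (D + 1 - w i)))
    {δ : Fin (2 * b) → ℕ} (hδq : ∑ k, δ k ≤ q)
    {η : Fin (2 * b) → Fin c × Fin 2 → ℝ[X]} (hη : RB (w2 w0) δ η)
    (hsat : ∀ (p : ℝ[X]) (x : Fin c × Fin 2 → ℝ[X]), p ≠ 0 → p • x ∈ lat η → x ∈ lat η)
    (T' : Finset (Fin (2 * b)))
    (hT1 : LinearIndependent ℂ fun k : T' => fun j : Fin c => (cx (η k) j).coeff (δ k))
    (hT2 : ∀ k, ∃ p : ℂ[X], p ≠ 0 ∧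
      p • cx (η k) ∈ Submodule.span ℂ[X] (Set.range fun k : T' => cx (η k)))
    {κ : Fin c × Fin 2 → ℝ[X]} (hκ : κ ∈ lat η) (hκ0 : κ ≠ 0) (hAκ : Ar A κ = 0)
    (hone : ∀ x ∈ lat η, Ar A x = 0 → ∃ p : ℝ[X], p ≠ 0 ∧ ∃ q : ℝ[X], p • x = q • κ) :
    False := by
  classical
  obtain ⟨e, δ0, ω, s, h, ξ, ss, hs, ξs, hω, hωlat, hh, hξ, hξs, hξslat, hξlat, hss, hhs, hse,
    hnQ⟩ := exists_hull2 hη
  have hξlat' : lat ξ = perp (perp (lat fun k => cx (η k))) := by rw [hξlat, hξslat]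
  obtain ⟨-, hT'card, htor⟩ := nice_card hη.fil hξ hξlat' hT1 hT2
  have hωsat := sat_cmax hsat hω hωlat
  obtain ⟨cf, y, π, hy, hπ, hπlat, hcf, hysum, hker⟩ := exists_perp_data hω hωsat
  set K1 : ℕ := ∑ l, y l with hK1
  set wF : Fin cf → ℕ := fun l => K1 - y l with hwFdef
  have hwF : ∀ l, wF l + y l = K1 := fun l => by
    have := Finset.single_le_sum (f := y) (fun _ _ => Nat.zero_le _) (Finset.mem_univ l)
    rw [hwFdef]
    simp only
    omega
  obtain ⟨r, δ1, û0, hδ1, hû0, hû0lat⟩ := exists_RB (w2 wF) ((lat η).map (Ar π))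
  have hqc := quot_card hη hω hωlat hπ hker hwF hû0 hû0lat
  obtain ⟨bp, rfl⟩ : ∃ bp, r = 2 * bp := ⟨b - e, by omega⟩
  have hbe : bp + e = b := by omega
  obtain ⟨x0', hx0', -⟩ := exists_x' hκ hκ0 hAκ hone hker hωlat hû0lat
  have hbp : 1 ≤ bp := by
    by_contra hcon
    apply hx0'
    funext k
    exact absurd k.2 (by omega)
  -- the gauge
  obtain ⟨B, hB⟩ := exists_coeff_set (Sum.elim (fun x : Fin cf × Fin c => π x.1 x.2)
    (fun x : Fin (2 * bp) × Fin cf => cx (û0 x.1) x.2))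
  set NG : ℕ := ∑ k, ∑ m, (δ1 k + 1 - δ1 m) with hNG
  have hNG1 : 1 ≤ NG := by
    have h1 := Finset.single_le_sum (f := fun k => ∑ m, (δ1 k + 1 - δ1 m))
      (fun _ _ => Nat.zero_le _) (Finset.mem_univ (⟨0, by omega⟩ : Fin (2 * bp)))
    have h2 := Finset.single_le_sum (f := fun m => (δ1 (⟨0, by omega⟩ : Fin (2 * bp)) + 1 - δ1 m))
      (fun _ _ => Nat.zero_le _) (Finset.mem_univ (⟨0, by omega⟩ : Fin (2 * bp)))
    simp only at h1 h2
    omega
  obtain ⟨g, hg, hgS⟩ := hgen B (NG - 1)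
  obtain ⟨G, ⟨x1, hx1⟩, hGg, hGRB⟩ := exists_G (δ1 := δ1) (by omega) (by omega) hg
  set û : Fin (2 * bp) → Fin cf × Fin 2 → ℝ[X] := fun k => ∑ m, gam G k m • û0 m with hûdef
  have hû : RB (w2 wF) δ1 û := hû0.gauge hGRB
  have hûlat : lat û = (lat η).map (Ar π) := (lat_gauge hGRB).trans hû0lat
  have hûc : RB wF δ1 (fun k => cx (û k)) :=
    quot_RB hη hω hωlat (by omega) hT'card hT1 hπ hker hcf hysum hwF hû hûlat
  have hû0c : RB wF δ1 (fun k => cx (û0 k)) :=
    quot_RB hη hω hωlat (by omega) hT'card hT1 hπ hker hcf hysum hwF hû0 hû0lat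
  obtain ⟨x', hx'0, hx'⟩ := exists_x' hκ hκ0 hAκ hone hker hωlat hûlat
  -- weights
  set K : ℕ := ∑ k, δ1 k with hKdef
  set K2 : ℕ := K1 + K with hK2
  have hδ1K : ∀ k, δ1 k ≤ K := fun k =>
    Finset.single_le_sum (f := δ1) (fun _ _ => Nat.zero_le _) (Finset.mem_univ k)
  set wX : Fin (2 * bp) → ℕ := fun k => K2 - δ1 k with hwXdef
  have hwX : ∀ k, wX k + δ1 k = K2 := fun k => by
    have := hδ1K k
    rw [hwXdef]
    simp only
    omega
  -- the rows
  have hωmem : ∀ j, ω j ∈ cmax (lat η) := fun j => by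
    rw [← hωlat]; exact Submodule.subset_span ⟨j, rfl⟩
  have hωli : LinearIndependent ℂ[X] fun j => Ac A (ω j) := by
    rw [Fintype.linearIndependent_iff]
    intro g hg
    have h1 : Ac A (∑ j, g j • ω j) = 0 := by
      rw [map_sum, ← hg]
      exact Finset.sum_congr rfl fun j _ => map_smul _ _ _
    have h2 := inj_cmax hone (Submodule.sum_mem _ fun j _ => Submodule.smul_mem _ _ (hωmem j)) h1
    have h3 := hω.li
    rw [Fintype.linearIndependent_iff] at h3
    exact h3 g h2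
  obtain ⟨y', lam, S1, hy', hlam, hlamlat, P4, h1, hlamrat⟩ := exists_lam hw hA hω hωli hbe
  have hlammem : ∀ i, lam i ∈ perp (lat fun j => Ac A (ω j)) := fun i => by
    rw [← hlamlat]; exact Submodule.subset_span ⟨i, rfl⟩
  choose φ hφ hφdeg using fun i => exists_phi hw hA hπ hπlat (hlammem i)
  set aa : Fin bp → Fin (2 * bp) → ℂ[X] := fun i => fun_ û (φ i) with haa
  set E : Fin bp → ℕ := fun i => D + y' i + K - 1 with hEdef
  have hD1 : 1 ≤ D := by
    by_contra hcon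
    have h0 : D = 0 := by omega
    have h2 : 1 * 1 ≤ a * b := Nat.mul_le_mul ha (by omega)
    rw [h0, mul_zero, mul_zero] at hD
    omega
  have hE : ∀ i, E i + 1 = D + y' i + K := fun i => by
    rw [hEdef]
    simp only
    omega
  have hEmono : Monotone E := fun i j hij => by
    have h2 := hy' hij
    have h3 := hE i
    have h4 := hE j
    omega
  have haL : ∀ i, aa i ∈ Lv ℂ wX (E i + 1) := by
    intro i
    rw [hE i]
    exact fun_mem hûc.fil hwF hwX hK2.symm (fun l k hk => hφdeg i (y' i) (hlam.fil i) l k hk)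
  have hax : ∀ i, dotL (iov x') (aa i) = 0 := by
    intro i
    have h2 := eval_a hx' (hφ i)
    have h3 : Ac A (cx κ) = 0 := by rw [← cx_Ar, hAκ, cx_zero]
    rw [h3] at h2
    rw [haa]
    simp only
    rw [h2, dotL_comm, map_zero]
  obtain ⟨k0, hk0⟩ := exists_star hx'0 hax (fun β hβ => hker1_of hone hωli hker hωlat hûlat
    hû.li hlamlat hφ hx' β hβ)
  have hali := li_of_star hk0
  -- the lattice of functionals
  set Rb : Submodule ℂ[X] (Fin (2 * bp) → ℂ[X]) := lat (rho û) with hRb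
  have hRperp : ∀ β : Fin (2 * bp) → ℂ[X], (∀ f ∈ Rb, dotL f β = 0) → β = 0 := by
    intro β hβ
    have h2 : ∑ k, β k • cx (û k) = 0 := by
      funext l
      have h3 := hβ (rho û l) (Submodule.subset_span ⟨l, rfl⟩)
      rw [Finset.sum_apply, Pi.zero_apply, ← h3]
      rfl
    have h3 := hûc.li
    rw [Fintype.linearIndependent_iff] at h3
    funext k
    exact h3 β h2 k
  obtain ⟨εR, χ, d2, x2, ρs, S2, hεR, hχ, hχlat, hx2, hx2iff, hx20, hρs, P2, h2, hS2⟩ :=
    step_W hwX hx'0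
  have hx'x2 : ∃ p : ℝ[X], x' = p • x2 := by
    refine (hx2iff x').mp ?_
    rw [hχlat]
    exact le_perp_perp _ (Submodule.subset_span ⟨(), rfl⟩)
  obtain ⟨px, hpx⟩ := hx'x2
  have hpx0 : px ≠ 0 := by
    rintro rfl
    rw [zero_smul] at hpx
    exact hx'0 hpx
  have hmem : ∀ z, z ∈ lat χ ↔ dotL x2 z = 0 := by
    intro z
    constructor
    · intro hz
      have h3 : x2 ∈ perp (lat χ) := (hx2iff x2).mpr ⟨1, (one_smul _ _).symm⟩
      have h4 := h3 z hz
      rwa [dotL_comm] at h4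
    · intro hz
      rw [hχlat, mem_perp_lat]
      intro _
      rw [hpx, dotL_comm, map_smul, dotL_comm, hz, smul_zero]
  have hax2 : ∀ i, dotL (iov x2) (aa i) = 0 := by
    intro i
    have h3 := hax i
    have h4 : iov x' = io px • iov x2 := by
      rw [hpx]
      funext k
      show io ((px • x2) k) = io px * io (x2 k)
      rw [Pi.smul_apply, smul_eq_mul, map_mul]
    rw [h4, dotL_comm, map_smul, smul_eq_mul, dotL_comm] at h3
    exact (mul_eq_zero.mp h3).resolve_left fun h => hpx0 (io_eq_zero.mp h)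
  obtain ⟨εC, ν0, rb, ρb0, gg, f0, hεC, hν0, hν0lat, hrb, hρb0, hρb0lat, hgg, hf0, hf0g, hdiv,
    P3, f1⟩ := step_N hbp hwX hεR hχ hmem hx2 hx20 hRperp
  -- the fields
  set F2 : Subfield ℝ := Subfield.closure ((S1 ∪ S2 : Finset ℝ) : Set ℝ) with hF2
  have hF2m : ∀ x ∈ S1 ∪ S2, x ∈ F2 := fun x hx => Subfield.subset_closure (Finset.mem_coe.mpr hx)
  have hW2 := hS2 F2 (fun x hx => hF2m x (Finset.mem_union_right _ hx))
  obtain ⟨S3, ν, hν, hνlat, h3, hS3⟩ := step_N_params hεC hν0 hχ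
    (by rw [hν0lat]; exact inf_le_right) (F₂ := F2) hW2.1
  set F3 : Subfield ℝ := Subfield.closure ((S1 ∪ S2 ∪ S3 : Finset ℝ) : Set ℝ) with hF3
  have hF3m : ∀ x ∈ S1 ∪ S2 ∪ S3, x ∈ F3 := fun x hx =>
    Subfield.subset_closure (Finset.mem_coe.mpr hx)
  have hF23 : F2 ≤ F3 := by
    rw [hF2, Subfield.closure_le]
    exact fun x hx => hF3m x (Finset.mem_union_left _ (Finset.mem_coe.mp hx))
  have hν3 := hS3 F3 hF23 (fun x hx => hF3m x (Finset.mem_union_right _ hx))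
  obtain ⟨ℓ, hℓ⟩ : ∃ ℓ, ∑ l, εC l = ∑ l, εR l + ℓ :=
    ⟨∑ l, εC l - ∑ l, εR l, by have := Finset.sum_le_sum (s := Finset.univ) fun l _ => f1 l; omega⟩
  obtain ⟨S5, ρb, hρb, hρblat, h5, hS5⟩ := step_R_params hν hχ hmem hρs
    (hνlat.trans hν0lat) hrb hρb0 hρb0lat hgg hf0 hf0g hdiv hℓ (F₃ := F3)
    (fun l => (hW2.1 l).mono hF23) (hW2.2.2.mono hF23) hν3
  have haν : ∀ i, aa i ∈ lev (lat ν) wX (E i + 1) := by
    intro i
    rw [mem_lev, hνlat, hν0lat]
    refine ⟨⟨fun_mem_lat û (φ i), ?_⟩, haL i⟩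
    rw [SetLike.mem_coe, mem_lat_iov_iff hmem]
    exact hax2 i
  obtain ⟨ζ, S4, hζ, h4, hS4⟩ := step_a hν haν ⟨0, hbp⟩ (hali.ne_zero _) (F₀ := F3) hν3
  set F5 : Subfield ℝ := Subfield.closure ((S1 ∪ S2 ∪ S3 ∪ S4 ∪ S5 : Finset ℝ) : Set ℝ) with hF5
  have hF5m : ∀ x ∈ S1 ∪ S2 ∪ S3 ∪ S4 ∪ S5, x ∈ F5 := fun x hx =>
    Subfield.subset_closure (Finset.mem_coe.mpr hx)
  have hF35 : F3 ≤ F5 := by
    rw [hF3, Subfield.closure_le]
    exact fun x hx => hF5m x (Finset.mem_union_left _ (Finset.mem_union_left _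
      (Finset.mem_coe.mp hx)))
  have haa5 := hS4 F5 hF35 (fun x hx => hF5m x (Finset.mem_union_left _
    (Finset.mem_union_right _ hx)))
  have hρ5 := hS5 F5 hF35 (fun x hx => hF5m x (Finset.mem_union_right _ hx))
  have hlam5 := hlamrat F5 (fun x hx => hF5m x (by simp [hx]))
  -- the coordinates of the rows
  have hacex : ∀ i, ∃ ac : Fin (2 * bp) → ℂ[X], ∑ m, ac m • ρb m = ζ • aa i := by
    intro i
    have h6 : ζ • aa i ∈ lat ρb := by
      rw [hρblat]
      have h7 : (C ζ : ℂ[X]) • aa i ∈ Rb := Submodule.smul_mem _ _ (fun_mem_lat û (φ i))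
      have h8 : (C ζ : ℂ[X]) • aa i = ζ • aa i := by
        funext j
        show C ζ * aa i j = ζ • aa i j
        rw [← smul_eq_C_mul]
      rwa [h8] at h7
    exact mem_lat.mp h6
  choose ac hac using hacex
  have hacrat : ∀ i m k, (ac i m).coeff k ∈ cplx F5 := by
    intro i m k
    refine coeff_rat_of_li hρ5 hρb.li ?_ m k
    rw [hac i]
    exact haa5 i
  have hacdeg : ∀ i m k, D + y' i + K ≤ k + rb m → (ac i m).coeff k = 0 := by
    intro i m k hk
    refine hρb.pd (ac i) (D + y' i + K) ?_ m k hk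
    rw [hac i, ← hE i]
    exact Submodule.smul_mem _ _ (haL i)
  have hψex : ∀ m, ∃ ψ : Fin cf → ℂ[X], fun_ û ψ = ρb m := by
    intro m
    have h6 : ρb m ∈ Rb := by rw [← hρblat]; exact Submodule.subset_span ⟨m, rfl⟩
    exact mem_lat.mp h6
  choose ψ hψ using hψex
  -- the module
  have hsb : s = bp + b := by omega
  have hûη : ∀ k, Ar π (η k) ∈ lat û := fun k => by
    rw [hûlat]; exact ⟨η k, Submodule.subset_span ⟨k, rfl⟩, rfl⟩
  have hZ : ∀ z ∈ lat ξ, ∃ p : ℂ[X], p ≠ 0 ∧ ∃ B : Fin (2 * bp) → ℂ[X],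
      p • Ac π z = ∑ k, B k • cx (û k) := by
    intro z hz
    obtain ⟨p, hp, hpz⟩ := htor z hz
    obtain ⟨g, hg⟩ := mem_lat.mp hpz
    have h6 : p • Ac π z ∈ lat fun k => cx (û k) := by
      rw [← map_smul, ← hg, map_sum]
      refine Submodule.sum_mem _ fun k _ => ?_
      rw [map_smul]
      refine Submodule.smul_mem _ _ ?_
      obtain ⟨β, hβ⟩ := mem_lat.mp (hûη k)
      rw [← cx_Ar, ← hβ, cx_sum]
      refine Submodule.sum_mem _ fun k' _ => ?_
      rw [cx_smul]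
      exact Submodule.smul_mem _ _ (Submodule.subset_span ⟨k', rfl⟩)
    obtain ⟨B, hB⟩ := mem_lat.mp h6
    exact ⟨p, hp, B, hB.symm⟩
  have hRperp' : ∀ β : Fin (2 * bp) → ℂ[X], (∀ m, dotL β (ρb m) = 0) → β = 0 := by
    intro β hβ
    refine hRperp β fun f hf => ?_
    rw [← hρblat] at hf
    obtain ⟨g, rfl⟩ := mem_lat.mp hf
    rw [dotL_comm, map_sum]
    refine Finset.sum_eq_zero fun m _ => ?_
    rw [map_smul, hβ m, smul_zero]
  set K3 : ℕ := D + ∑ m, rb m with hK3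
  have hrbK : ∀ m, rb m ≤ K3 := fun m => by
    have := Finset.single_le_sum (f := rb) (fun _ _ => Nat.zero_le _) (Finset.mem_univ m)
    omega
  have hϑ := theta_RB (r := 2 * bp) ac (K := K) hlam hacdeg
  have hϑsat := theta_sat ac hlamlat hlam.li hϑ.li
  set Hl := Hm (tau ζ ψ π) A with hHl
  set W : Fin (2 * bp) ⊕ Fin b → ℕ :=
    Sum.elim (fun m => K3 + K - rb m) (fun i => w i + (K3 - D)) with hW
  have hWsum : ∀ x, W x + (Sum.elim (fun m => rb m + 1) (fun x => K + D + w' x) :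
      Fin (2 * bp) ⊕ Fin b → ℕ) x = K3 + K + 1 := by
    rintro (m | i)
    · show K3 + K - rb m + (rb m + 1) = K3 + K + 1
      have := hrbK m
      omega
    · show w i + (K3 - D) + (K + D + w' i) = K3 + K + 1
      have := hw i
      omega
  obtain ⟨hp, S6, z', P6, f4, h6, hz'lat, hS6⟩ := step_G (bp := bp) (s := s) (K3 := K3)
    hWsum (by rw [Fintype.card_sum, Fintype.card_fin, Fintype.card_fin]; omega)
    (F₀ := F5) hϑ (by
      intro i
      rintro (m | x) k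
      · show (- ac i m).coeff k ∈ _
        rw [coeff_neg]
        exact (cplx F5).neg_mem (hacrat i m k)
      · exact hlam5 i x k) hϑsat Hl hh hξ (by
      intro i
      rintro (m | x) k hk
      · have hk' : h i + K3 + 1 ≤ k + (K3 + K - rb m) := hk
        have h7 := hrbK m
        show (dotL (tau ζ ψ π m) (ξ i)).coeff k = 0
        obtain ⟨p, hp, B, hB⟩ := hZ (ξ i) (Submodule.subset_span ⟨i, rfl⟩)
        have h8 := t_deg hûc hπ hwF hwX hK2.symm (ψ := ψ m) (rm := rb m) (t0 := h i)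
          (by rw [hψ m]; exact hρb.fil m) (hξ.fil i) hp hB (k := k) (by omega)
        unfold tau
        rw [dotL_comm, map_smul, smul_eq_mul, coeff_C_mul, dotL_comm, h8, mul_zero]
      · have hk' : h i + K3 + 1 ≤ k + (w x + (K3 - D)) := hk
        exact Ac_mem_Lv hA (hξ.fil i) x k (by omega)) (by
      intro j
      rw [mem_perp_lat]
      intro i
      obtain ⟨p, hp, B, hB⟩ := hZ (ξ j) (Submodule.subset_span ⟨j, rfl⟩)
      have h7 := rel_eval (ζ := ζ) hψ hζ (hφ i) (hac i) hp hB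
      rw [dotL_apply, Fintype.sum_sum_type]
      have h8 : ∑ x, Hl (ξ j) (Sum.inr x) * theta ac lam i (Sum.inr x)
          = dotL (Ac A (ξ j)) (lam i) := by
        rw [dotL_comm]; rfl
      rw [h8, h7, ← Finset.sum_add_distrib]
      refine Finset.sum_eq_zero fun m _ => ?_
      show dotL (tau ζ ψ π m) (ξ j) * - ac i m + ac i m * dotL (tau ζ ψ π m) (ξ j) = 0
      ring) (by
      intro z hz hHz
      obtain ⟨p, hp, B, hB⟩ := hZ z hz
      obtain ⟨h7, h8⟩ := H_inj hψ hζ hRperp' hp hB hHz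
      refine inj_cmax hone ?_ h8
      rw [← hωlat, ← hker, ← Ac_eq_zero]
      exact h7)
  -- the rows
  set F6 : Subfield ℝ := Subfield.closure ((S1 ∪ S2 ∪ S3 ∪ S4 ∪ S5 ∪ S6 : Finset ℝ) : Set ℝ)
    with hF6
  have hF6m : ∀ x ∈ S1 ∪ S2 ∪ S3 ∪ S4 ∪ S5 ∪ S6, x ∈ F6 := fun x hx =>
    Subfield.subset_closure (Finset.mem_coe.mpr hx)
  have hF56 : F5 ≤ F6 := by
    rw [hF5, Subfield.closure_le]
    exact fun x hx => hF6m x (Finset.mem_union_left _ (Finset.mem_coe.mp hx))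
  have hz6 := hS6 F6 hF56 (fun x hx => hF6m x (Finset.mem_union_right _ hx))
  have hperpz : perp (lat z') = lat ξs := by
    rw [hz'lat, hξlat, hξslat, perp_perp_perp]
  obtain ⟨S8, h8, hS8⟩ := step_rows hA hξs hperpz (fun i => (hz6 i).1)
    (fun i x k => (hz6 i).2 (Sum.inr x) k)
  set S : Finset ℝ := S1 ∪ S2 ∪ S3 ∪ S4 ∪ S5 ∪ S6 ∪ S8 with hS
  have hSfield : ∀ F₁ : Subfield ℝ, (∀ x ∈ S, x ∈ F₁) → F5 ≤ F₁ ∧ F6 ≤ F₁ := by
    intro F₁ hF₁
    constructor
    · rw [hF5, Subfield.closure_le]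
      exact fun x hx => hF₁ x (Finset.mem_union_left _ (Finset.mem_union_left _
        (Finset.mem_coe.mp hx)))
    · rw [hF6, Subfield.closure_le]
      exact fun x hx => hF₁ x (Finset.mem_union_left _ (Finset.mem_coe.mp hx))
  have hfinal := hgS S (by
    intro K hK hSK i j k
    obtain ⟨-, h9⟩ := hSfield (rsub K) (fun x hx => hSK x hx)
    exact cplx_rsub_le hK (hS8 (rsub K) h9
      (fun x hx => hSK x (Finset.mem_union_right _ hx)) i j k)) (by
    intro K hK hSK hBK j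
    obtain ⟨h9, h10⟩ := hSfield (rsub K) (fun x hx => hSK x hx)
    have hcK : ∀ {z : ℂ}, z ∈ cplx (rsub K) → z ∈ K := fun h => cplx_rsub_le hK h
    have hBK' := hB K hK hBK
    obtain ⟨x, hx⟩ := hGg j
    rw [hx]
    refine recover (η := η) (π := π) (û0 := û0) (ρb := ρb) (ψ := ψ) (z := z') hx1 (fun k => ?_)
      hû0c.li hρb.li hρblat hψ hζ ?_ ?_ ?_ ?_ ?_ ?_ ?_ x
    · have h11 : û k ∈ (lat η).map (Ar π) := by
        rw [← hûlat]; exact Submodule.subset_span ⟨k, rfl⟩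
      obtain ⟨u, hu, hux⟩ := h11
      exact ⟨u, hu, hux.symm⟩
    · intro x hx
      rw [hz'lat] at hx
      exact hZ x hx
    · intro u hu
      rw [hz'lat, hξlat']
      obtain ⟨p, rfl⟩ := mem_lat.mp hu
      rw [cx_sum]
      refine Submodule.sum_mem _ fun k _ => ?_
      rw [cx_smul]
      exact Submodule.smul_mem _ _ (le_perp_perp _ (Submodule.subset_span ⟨k, rfl⟩))
    · intro i l k
      exact hcK (((hz6 i).1.mono (cplx_mono h10)) l k)
    · intro i m k
      exact hcK (((hz6 i).2.mono (cplx_mono h10)) (Sum.inl m) k)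
    · intro m l k
      exact hcK (((hρ5 m).mono (cplx_mono h9)) l k)
    · intro l i k
      exact hBK' (Sum.inl (l, i)) k
    · intro k l i
      exact hBK' (Sum.inr (k, l)) i)
  have hcard : S.card ≤ S1.card + S2.card + S3.card + S4.card + S5.card + S6.card + S8.card := by
    have e1 := Finset.card_union_le (S1 ∪ S2 ∪ S3 ∪ S4 ∪ S5 ∪ S6) S8
    have e2 := Finset.card_union_le (S1 ∪ S2 ∪ S3 ∪ S4 ∪ S5) S6
    have e3 := Finset.card_union_le (S1 ∪ S2 ∪ S3 ∪ S4) S5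
    have e4 := Finset.card_union_le (S1 ∪ S2 ∪ S3) S4
    have e5 := Finset.card_union_le (S1 ∪ S2) S3
    have e6 := Finset.card_union_le S1 S2
    rw [hS]
    omega
  -- the inequalities
  have P5 := P5_of hπ hwF hwX hK2.symm hûc.fil hξs hξslat hûη hρb hρblat hcf hss
    (by omega)
  have P6' : ∑ j, hp j + ∑ k, rb k + e * D + bp
      = s * K3 + 2 * bp * K + ∑ i, w i + ∑ i, y' i := by
    have e1 : ∑ x, W x + ∑ m, rb m = 2 * bp * (K3 + K) + ∑ i, w i + b * (K3 - D) := by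
      rw [Fintype.sum_sum_type]
      show ∑ m, (K3 + K - rb m) + ∑ i, (w i + (K3 - D)) + ∑ m, rb m = _
      have e2 : ∑ m, (K3 + K - rb m) + ∑ m, rb m = 2 * bp * (K3 + K) := by
        rw [← Finset.sum_add_distrib, Finset.sum_congr rfl fun m _ =>
          Nat.sub_add_cancel ((hrbK m).trans (Nat.le_add_right K3 K))]
        simp
      rw [Finset.sum_add_distrib, Finset.sum_const, Finset.card_univ, Fintype.card_fin,
        smul_eq_mul]
      omega
    have e3 : ∑ i, (y' i + K + D) = ∑ i, y' i + bp * (K + D) := by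
      simp only [add_assoc]
      rw [Finset.sum_add_distrib, Finset.sum_const, Finset.card_univ, Fintype.card_fin,
        smul_eq_mul]
    rw [e3] at P6
    obtain ⟨R, hR⟩ : ∃ R, K3 = D + R := ⟨_, hK3⟩
    have e4 : K3 - D = R := by omega
    rw [e4] at e1
    have e5 : b * R = bp * R + e * R := by rw [← hbe]; ring
    have e6 : (K3 + K + 1) * bp = bp * D + bp * R + bp * K + bp := by rw [hR]; ring
    have e7 : 2 * bp * (K3 + K) = 2 * (bp * D) + 2 * (bp * R) + 2 * bp * K := by rw [hR]; ring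
    have e8 : s * K3 = 2 * (bp * D) + 2 * (bp * R) + e * D + e * R := by
      rw [hsb, ← hbe, hR]; ring
    have e9 : bp * (K + D) = bp * K + bp * D := by ring
    rw [e6, e9] at P6
    rw [e7, e5] at e1
    rw [e8]
    have e10 : 2 * bp * K = bp * K + bp * K := by ring
    omega
  have hnum := numeric2 (a := a) (b := b) (c := c) (e := e) (bp := bp) (s := s) (ss := ss)
    (q := q) (Q := ∑ k, δ k) (q0 := ∑ j, δ0 j) (n1 := ∑ j, h j) (D := D) (K := K) (K1 := K1)
    (K2 := K2) (K3 := K3) (d2 := d2) (γ := gg.natDegree) (ℓ := ℓ) hw ha hbp hbe hc (by omega)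
    hss hK2.symm hwX hE hδq hnQ rfl hhs (by
      have := hqc.2
      omega) P2 P3 P4 (by
      rw [hhs] at P5
      rw [← hysum]
      exact P5) P6' hℓ f1
    (fun i l hl => f2_of hεC hν hEmono haν hali i l hl)
    (fun l i hi => f3_of hεR hχ hmem hEmono haL hax2 hk0 l i hi) f4
    (fun l k hlk => f5_of hδ1 hwX hεR hχ l k hlk) hD h1 h2 h3 h4 h5 h6 h8
  omega

end

end Pool.Agent.Helper730_PP
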