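import Pool.Agent.Helper730_PP.Gamma

/-!
# Counting the parameters of a Hermitian polynomial matrix whose rows lie in a plane
-/

open Polynomial

namespace Pool.Agent.Helper730_PP

noncomputable section

/-- The number of coefficients of a polynomial up to its degree. -/
def len (p : ℂ[X]) : ℕ := if p = 0 then 0 else p.natDegree + 1

theorem len_le {p : ℂ[X]} {a b q : ℕ} (h : p = 0 ∨ p.natDegree + a + b ≤ q) :
    len p ≤ q + 1 - (a + b) := by
  unfold len
  split_ifs with h0
  · exact Nat.zero_le _
  · have := h.resolve_left h0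
    omega

theorem coeff_of_len_le {p : ℂ[X]} {k : ℕ} (h : len p ≤ k) : p.coeff k = 0 := by
  unfold len at h
  split_ifs at h with h0
  · rw [h0, coeff_zero]
  · exact coeff_eq_zero_of_natDegree_lt (by omega)

/-- The real parameters of the three coefficients of the reduced form. -/
def hset (h11 h12 h22 : ℂ[X]) : Finset ℝ :=
  ((Finset.range (len h11)).image fun k => (h11.coeff k).re) ∪
    ((Finset.range (len h22)).image fun k => (h22.coeff k).re) ∪
    reim (Finset.range (len h12)) fun k => h12.coeff k

theorem hset_card (h11 h12 h22 : ℂ[X]) :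
    (hset h11 h12 h22).card ≤ len h11 + len h22 + 2 * len h12 := by
  unfold hset
  refine (Finset.card_union_le _ _).trans ?_
  have c1 := Finset.card_union_le ((Finset.range (len h11)).image fun k => (h11.coeff k).re)
    ((Finset.range (len h22)).image fun k => (h22.coeff k).re)
  have c2 := Finset.card_image_le (s := Finset.range (len h11)) (f := fun k => (h11.coeff k).re)
  have c3 := Finset.card_image_le (s := Finset.range (len h22)) (f := fun k => (h22.coeff k).re)
  have c4 := reim_card (Finset.range (len h12)) fun k => h12.coeff k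
  rw [Finset.card_range] at c2 c3 c4
  omega

theorem real_InK {K : Subfield ℂ} {p : ℂ[X]} (hp : cj p = p)
    (h : ∀ s ∈ (Finset.range (len p)).image (fun k => (p.coeff k).re), (s : ℂ) ∈ K) :
    InK K p := by
  intro k
  by_cases hk : k < len p
  · have h2 : (starRingEnd ℂ) (p.coeff k) = p.coeff k := by rw [← cj_coeff, hp]
    have h3 : ((p.coeff k).re : ℂ) = p.coeff k := Complex.conj_eq_iff_re.mp h2
    rw [← h3]
    exact h _ (Finset.mem_image_of_mem (fun k => (p.coeff k).re) (Finset.mem_range.mpr hk))
  · rw [coeff_of_len_le (by omega)]; exact K.zero_mem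

theorem hset_InK {K : Subfield ℂ} (hK : GoodField K) {h11 h12 h22 : ℂ[X]} (r11 : cj h11 = h11)
    (r22 : cj h22 = h22) (h : ∀ s ∈ hset h11 h12 h22, (s : ℂ) ∈ K) :
    InK K h11 ∧ InK K h12 ∧ InK K h22 := by
  refine ⟨real_InK r11 fun s hs => h s ?_, ?_, real_InK r22 fun s hs => h s ?_⟩
  · exact Finset.mem_union_left _ (Finset.mem_union_left _ hs)
  · intro k
    by_cases hk : k < len h12
    · exact reim_mem hK (fun s hs => h s (Finset.mem_union_right _ hs))
        (Finset.mem_range.mpr hk)
    · rw [coeff_of_len_le (by omega)]; exact K.zero_mem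
  · exact Finset.mem_union_left _ (Finset.mem_union_right _ hs)

/-- One of the parameters does not vanish. -/
theorem exists_param {h11 h12 h22 : ℂ[X]} (r11 : cj h11 = h11) (r22 : cj h22 = h22)
    (hne : ¬ (h11 = 0 ∧ h12 = 0 ∧ h22 = 0)) : ∃ t ∈ hset h11 h12 h22, t ≠ 0 := by
  by_contra hcon
  push Not at hcon
  have hreal : ∀ p : ℂ[X], cj p = p →
      (∀ s ∈ (Finset.range (len p)).image (fun k => (p.coeff k).re), s = 0) → p = 0 := by
    intro p hp h
    ext k
    rw [coeff_zero]
    by_cases hk : k < len p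
    · have h2 : (starRingEnd ℂ) (p.coeff k) = p.coeff k := by rw [← cj_coeff, hp]
      have h3 : ((p.coeff k).re : ℂ) = p.coeff k := Complex.conj_eq_iff_re.mp h2
      rw [← h3, h _ (Finset.mem_image_of_mem (fun k => (p.coeff k).re)
        (Finset.mem_range.mpr hk)), Complex.ofReal_zero]
    · exact coeff_of_len_le (by omega)
  apply hne
  refine ⟨hreal _ r11 fun s hs => hcon s ?_, ?_, hreal _ r22 fun s hs => hcon s ?_⟩
  · exact Finset.mem_union_left _ (Finset.mem_union_left _ hs)
  · ext k
    rw [coeff_zero]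
    by_cases hk : k < len h12
    · have h1 : (h12.coeff k).re = 0 := hcon _ (Finset.mem_union_right _
        (Finset.mem_union_left _ (Finset.mem_image_of_mem (fun k => (h12.coeff k).re)
          (Finset.mem_range.mpr hk))))
      have h2 : (h12.coeff k).im = 0 := hcon _ (Finset.mem_union_right _
        (Finset.mem_union_right _ (Finset.mem_image_of_mem (fun k => (h12.coeff k).im)
          (Finset.mem_range.mpr hk))))
      exact Complex.ext h1 h2
    · exact coeff_of_len_le (by omega)
  · exact Finset.mem_union_left _ (Finset.mem_union_right _ hs)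

theorem len_smul {t : ℂ} (ht : t ≠ 0) (p : ℂ[X]) : len (C t * p) = len p := by
  unfold len
  have h1 : C t * p = 0 ↔ p = 0 := by
    rw [mul_eq_zero]
    constructor
    · rintro (h | h)
      · exact absurd (C_eq_zero.mp h) ht
      · exact h
    · exact Or.inr
  by_cases hp : p = 0
  · rw [if_pos hp, if_pos (h1.mpr hp)]
  · rw [if_neg hp, if_neg (fun h => hp (h1.mp h)), natDegree_C_mul ht]

theorem hset_smul (t : ℝ) (ht : t ≠ 0) (h11 h12 h22 : ℂ[X]) :
    hset (C (t : ℂ) * h11) (C (t : ℂ) * h12) (C (t : ℂ) * h22)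
      = (hset h11 h12 h22).image fun s => t * s := by
  have ht' : (t : ℂ) ≠ 0 := Complex.ofReal_ne_zero.mpr ht
  unfold hset reim
  rw [len_smul ht', len_smul ht', len_smul ht']
  rw [Finset.image_union, Finset.image_union, Finset.image_union, Finset.image_image,
    Finset.image_image, Finset.image_image, Finset.image_image]
  have hre : ∀ p : ℂ[X], ((fun s => t * s) ∘ fun k => (p.coeff k).re)
      = fun k => ((C (t : ℂ) * p).coeff k).re := by
    intro p
    funext k
    simp [coeff_C_mul]
  have him : ∀ p : ℂ[X], ((fun s => t * s) ∘ fun k => (p.coeff k).im)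
      = fun k => ((C (t : ℂ) * p).coeff k).im := by
    intro p
    funext k
    simp [coeff_C_mul]
  rw [hre, hre, hre, him]

/-- Scaling the form so that one of the parameters equals one. -/
theorem exists_scaled {h11 h12 h22 : ℂ[X]} (r11 : cj h11 = h11) (r22 : cj h22 = h22)
    (hne : ¬ (h11 = 0 ∧ h12 = 0 ∧ h22 = 0)) : ∃ t : ℝ, t ≠ 0 ∧
      (1 : ℝ) ∈ hset (C (t : ℂ) * h11) (C (t : ℂ) * h12) (C (t : ℂ) * h22) := by
  obtain ⟨s, hs, hs0⟩ := exists_param r11 r22 hne
  refine ⟨s⁻¹, inv_ne_zero hs0, ?_⟩
  rw [hset_smul _ (inv_ne_zero hs0)]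
  exact Finset.mem_image.mpr ⟨s, hs, inv_mul_cancel₀ hs0⟩

theorem cj_C_real (t : ℝ) : cj (C (t : ℂ)) = C (t : ℂ) := by
  unfold cj
  rw [Polynomial.coe_mapRingHom, map_C, Complex.conj_ofReal]

/-- The parameters of the normalized pair. -/
theorem count_xi {c : ℕ} {H : Fin c → Fin c → ℂ[X]} {ξ1 ξ2 : Fin c → ℂ[X]} {x1 x2 : ℕ}
    {j1 j2 : Fin c} (h : MinPair H ξ1 ξ2 x1 x2) (hj : j1 ≠ j2) (e1 : (ξ1 j1).coeff x1 = 1)
    (e2 : (ξ2 j2).coeff x2 = 1) (e3 : ∀ k, x1 ≤ k → (ξ2 j1).coeff k = 0)
    (e4 : x1 = x2 → (ξ1 j2).coeff x1 = 0) :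
    ∃ S : Finset ℝ, S.card + 6 + 2 * max 1 (x2 - x1) ≤ 2 * (c * (x1 + 1)) + 2 * (c * (x2 + 1)) ∧
      ∀ K : Subfield ℂ, GoodField K → (∀ s ∈ S, (s : ℂ) ∈ K) →
        (∀ k, InK K (ξ1 k)) ∧ (∀ k, InK K (ξ2 k)) := by
  classical
  have hle := h.le
  -- a set of positions
  set U : ℕ → Finset (Fin c × ℕ) := fun x => Finset.univ ×ˢ Finset.range (x + 1) with hU
  have hUcard : ∀ x, (U x).card = c * (x + 1) := by
    intro x
    rw [hU]
    simp
  have hUmem : ∀ x (i : Fin c × ℕ), i ∈ U x ↔ i.2 < x + 1 := by
    intro x i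
    rw [hU]
    simp
  set E1 : Finset (Fin c × ℕ) := if x1 = x2 then {(j1, x1), (j2, x1)} else {(j1, x1)} with hE1
  set E2 : Finset (Fin c × ℕ) := {(j2, x2)} ∪ ({j1} ×ˢ Finset.Ico x1 (x2 + 1)) with hE2
  have hE1U : E1 ⊆ U x1 := by
    intro i hi
    rw [hUmem]
    rw [hE1] at hi
    split_ifs at hi with hx
    · rw [Finset.mem_insert, Finset.mem_singleton] at hi
      rcases hi with rfl | rfl <;> simp
    · rw [Finset.mem_singleton] at hi
      subst hi; simp
  have hE2U : E2 ⊆ U x2 := by
    intro i hi
    rw [hUmem]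
    rw [hE2, Finset.mem_union, Finset.mem_singleton, Finset.mem_product, Finset.mem_Ico] at hi
    rcases hi with rfl | hi
    · simp
    · omega
  have hE1card : E1.card = if x1 = x2 then 2 else 1 := by
    rw [hE1]
    split_ifs with hx
    · refine Finset.card_pair ?_
      intro h0
      exact hj (congrArg Prod.fst h0)
    · exact Finset.card_singleton _
  have hE2card : E2.card = 1 + (x2 + 1 - x1) := by
    rw [hE2, Finset.card_union_of_disjoint, Finset.card_singleton, Finset.card_product,
      Finset.card_singleton, Nat.card_Ico, one_mul]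
    rw [Finset.disjoint_singleton_left, Finset.mem_product]
    rintro ⟨h0, _⟩
    rw [Finset.mem_singleton] at h0
    exact hj h0.symm
  have c1 : (U x1 \ E1).card + E1.card = c * (x1 + 1) := by
    rw [Finset.card_sdiff_add_card_eq_card hE1U, hUcard]
  have c2 : (U x2 \ E2).card + E2.card = c * (x2 + 1) := by
    rw [Finset.card_sdiff_add_card_eq_card hE2U, hUcard]
  refine ⟨reim (U x1 \ E1) (fun i => (ξ1 i.1).coeff i.2) ∪
    reim (U x2 \ E2) (fun i => (ξ2 i.1).coeff i.2), ?_, ?_⟩
  · have c3 := Finset.card_union_le (reim (U x1 \ E1) (fun i => (ξ1 i.1).coeff i.2))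
      (reim (U x2 \ E2) (fun i => (ξ2 i.1).coeff i.2))
    have c4 := reim_card (U x1 \ E1) (fun i => (ξ1 i.1).coeff i.2)
    have c5 := reim_card (U x2 \ E2) (fun i => (ξ2 i.1).coeff i.2)
    rw [hE2card] at c2
    rw [hE1card] at c1
    by_cases hx : x1 = x2
    · rw [if_pos hx] at c1
      have : max 1 (x2 - x1) = 1 := by omega
      omega
    · rw [if_neg hx] at c1
      have : max 1 (x2 - x1) = x2 - x1 := by omega
      omega
  · intro K hK hS
    constructor
    · intro k l
      by_cases hl : l < x1 + 1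
      · by_cases hE : (k, l) ∈ E1
        · rw [hE1] at hE
          split_ifs at hE with hx
          · rw [Finset.mem_insert, Finset.mem_singleton] at hE
            rcases hE with hE | hE
            · obtain ⟨rfl, rfl⟩ := Prod.mk.inj hE
              rw [e1]; exact K.one_mem
            · obtain ⟨rfl, rfl⟩ := Prod.mk.inj hE
              rw [e4 hx]; exact K.zero_mem
          · rw [Finset.mem_singleton] at hE
            obtain ⟨rfl, rfl⟩ := Prod.mk.inj hE
            rw [e1]; exact K.one_mem
        · exact reim_mem hK (g := fun i : Fin c × ℕ => (ξ1 i.1).coeff i.2)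
            (a := (k, l)) (fun s hs => hS s (Finset.mem_union_left _ hs))
            (Finset.mem_sdiff.mpr ⟨(hUmem _ _).mpr hl, hE⟩)
      · rw [coeff_eq_zero_of_natDegree_lt (lt_of_le_of_lt (h.deg1 k) (by omega))]
        exact K.zero_mem
    · intro k l
      by_cases hl : l < x2 + 1
      · by_cases hE : (k, l) ∈ E2
        · rw [hE2, Finset.mem_union, Finset.mem_singleton, Finset.mem_product,
            Finset.mem_Ico, Finset.mem_singleton] at hE
          rcases hE with hE | hE
          · obtain ⟨rfl, rfl⟩ := Prod.mk.inj hE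
            rw [e2]; exact K.one_mem
          · obtain ⟨h0, h1⟩ := hE
            simp only at h0 h1
            rw [h0, e3 l h1.1]; exact K.zero_mem
        · exact reim_mem hK (g := fun i : Fin c × ℕ => (ξ2 i.1).coeff i.2)
            (a := (k, l)) (fun s hs => hS s (Finset.mem_union_right _ hs))
            (Finset.mem_sdiff.mpr ⟨(hUmem _ _).mpr hl, hE⟩)
      · rw [coeff_eq_zero_of_natDegree_lt (lt_of_le_of_lt (h.deg2 k) (by omega))]
        exact K.zero_mem

/-- The total degree of a minimal pair is at most the degree of the matrix. -/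
theorem degree_bound {c q : ℕ} {H : Fin c → Fin c → ℂ[X]} {ξ1 ξ2 : Fin c → ℂ[X]} {x1 x2 : ℕ}
    {h11 h12 h22 : ℂ[X]} (h : MinPair H ξ1 ξ2 x1 x2) (hr : RedForm H ξ1 ξ2 x1 x2 q h11 h12 h22) :
    x1 + x2 ≤ q := by
  have hle := h.le
  by_cases h0 : h22 = 0
  · by_cases h1 : h12 = 0
    · -- the rows are multiples of `ξ₁`
      obtain ⟨j, k, hjk⟩ := h.indep
      have hex : ∃ l, ξ1 l ≠ 0 := by
        by_contra hcon
        push Not at hcon
        rw [hcon j, hcon k] at hjk
        exact hjk (by ring)
      obtain ⟨l, hl⟩ := hex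
      have hk : ∃ k : Fin c, k ≠ l := by
        by_contra hcon
        push Not at hcon
        have hj' := hcon j
        have hk' := hcon k
        rw [hj', hk'] at hjk
        exact hjk (by ring)
      obtain ⟨k', hk'⟩ := hk
      have := h.min (fun i => if i = k' then 1 else 0) ξ1 0 x1 ⟨?_, ?_, ?_, h.deg1, Nat.zero_le _⟩
      · omega
      · refine ⟨k', l, ?_⟩
        simp only [if_true]
        rw [if_neg (fun h => hk' h.symm)]
        intro h2
        apply hl
        linear_combination h2
      · intro j'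
        refine ⟨1, 0, cj (ξ1 j') * h11, one_ne_zero, fun i => ?_⟩
        rw [hr.form, h0, h1, map_zero]
        ring
      · intro i
        split_ifs <;> simp
    · have := hr.d12.resolve_left h1
      omega
  · have := hr.d22.resolve_left h0
    omega

end

end Pool.Agent.Helper730_PP
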