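import Mathlib

/-!
# Generic real dynamic pole placement: the definitions

Linear differential systems are given by row minimal kernel representations, that is by real
polynomial matrices of full row rank.  Everything the question needs (McMillan degree, regularity of
an interconnection, characteristic polynomial) is read off such a representation.
-/

open Polynomial Matrix

namespace Pool.Agent.Helper730_PP

noncomputable section

/-- Real polynomial matrices with `k` rows and `N` columns. -/
abbrev PolyMat (k N : ℕ) : Type := Matrix (Fin k) (Fin N) ℝ[X]

/-- The `k × k` matrix formed by the columns `e 0, …, e (k-1)` of `P`; its determinant is a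
full-size minor of `P`. -/
def fullMinor {k N : ℕ} (P : PolyMat k N) (e : Fin k → Fin N) : ℝ[X] :=
  (P.submatrix id e).det

/-- `P` is row minimal (it has full row rank, that is, some full-size minor is nonzero) and the
largest degree of a full-size minor of `P` is `d`: the system with kernel representation `P` has
rank `k` and McMillan degree `d`. -/
def HasMcMillanDegree {k N : ℕ} (P : PolyMat k N) (d : ℕ) : Prop :=
  (∀ e : Fin k → Fin N, (fullMinor P e).natDegree ≤ d) ∧
    ∃ e : Fin k → Fin N, fullMinor P e ≠ 0 ∧ (fullMinor P e).natDegree = d

/-- The square matrix obtained by stacking the `m` rows of `P₂` and the `p` rows of `P₁`: a kernel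
representation of the interconnection of the two systems. -/
def stack {m p : ℕ} (P₂ : PolyMat m (m + p)) (P₁ : PolyMat p (m + p)) :
    Matrix (Fin (m + p)) (Fin (m + p)) ℝ[X] :=
  Matrix.of (Fin.append P₂ P₁)

/-- There is a system of rank `m` and McMillan degree `q`, with row minimal representation `P₂`, such
that the interconnection with the system represented by `P₁` is regular (the stacked matrix has
full rank) and has characteristic polynomial `φ` (up to a nonzero constant factor). -/
def Assignable {m p : ℕ} (q : ℕ) (P₁ : PolyMat p (m + p)) (φ : ℝ[X]) : Prop :=
  ∃ P₂ : PolyMat m (m + p), HasMcMillanDegree P₂ q ∧ (stack P₂ P₁).det ≠ 0 ∧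
    ∃ c : ℝ, c ≠ 0 ∧ (stack P₂ P₁).det = C c * φ

/-- The coefficient space: row minimal `p × (m+p)` polynomial matrices with entries of degree at
most `n` and largest degree of a full-size minor equal to `n`. -/
def coeffSpace (m p n : ℕ) : Set (PolyMat p (m + p)) :=
  {P | (∀ i j, (P i j).natDegree ≤ n) ∧ HasMcMillanDegree P n}

/-- Indices of the coefficients of a `p × (m+p)` polynomial matrix with entries of degree `≤ n`. -/
abbrev CoeffIdx (m p n : ℕ) : Type := Fin p × Fin (m + p) × Fin (n + 1)

/-- The coefficient vector of a polynomial matrix with entries of degree `≤ n`. -/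
def coeffVec {m p : ℕ} (n : ℕ) (P : PolyMat p (m + p)) : CoeffIdx m p n → ℝ :=
  fun x => (P x.1 x.2.1).coeff x.2.2

/-- The property `Q` holds for a generic set of systems of rank `p` and McMillan degree `n`: there is
a Zariski open subset of the coefficient space (the points where some polynomial in the set `S`
does not vanish) which is Zariski dense in the coefficient space (it meets every nonempty set
`g ≠ 0`), and `Q P` holds for all `P` in it. -/
def HoldsGenerically (m p n : ℕ) (Q : PolyMat p (m + p) → Prop) : Prop :=
  ∃ S : Set (MvPolynomial (CoeffIdx m p n) ℝ),
    (∀ g : MvPolynomial (CoeffIdx m p n) ℝ,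
      (∃ P ∈ coeffSpace m p n, MvPolynomial.eval (coeffVec n P) g ≠ 0) →
      ∃ P ∈ coeffSpace m p n, MvPolynomial.eval (coeffVec n P) g ≠ 0 ∧
        ∃ f ∈ S, MvPolynomial.eval (coeffVec n P) f ≠ 0) ∧
    ∀ P ∈ coeffSpace m p n, (∃ f ∈ S, MvPolynomial.eval (coeffVec n P) f ≠ 0) → Q P

/-- The property of the quadruple `(m, p, n, q)` asked about: for a generic set of real systems of
rank `p` and McMillan degree `n`, every real polynomial of degree `n + q` is, up to a nonzero
constant factor, the characteristic polynomial of the regular interconnection with some real
system of rank `m` and McMillan degree `q`. -/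
def GenericRealPolePlacement (m p n q : ℕ) : Prop :=
  HoldsGenerically m p n fun P₁ => ∀ φ : ℝ[X], φ.natDegree = n + q → Assignable q P₁ φ

end

end Pool.Agent.Helper730_PP
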