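import Pool.Agent.Helper730_PP.Indep

/-!
# The normal functional of a real family of corank one in a complex polynomial space
-/

open Polynomial

namespace Pool.Agent.Helper730_PP

noncomputable section

variable {ι : Type*}

/-- The real functional attached to a complex one. -/
def dl (z : ι → ℂ[X]) : ι × Fin 2 → ℝ[X] := fun x =>
  if x.2 = 0 then reP (z x.1) else - imP (z x.1)

theorem dotL_dl [Fintype ι] (z : ι → ℂ[X]) (v : ι × Fin 2 → ℝ[X]) :
    dotL (dl z) v = reP (dotL z (cx v)) := by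
  rw [dotL_apply, dotL_apply, reP_sum, Fintype.sum_prod_type]
  refine Finset.sum_congr rfl fun j _ => ?_
  rw [Fin.sum_univ_two, reP_mul]
  have h := reP_of (g := cx v j) rfl
  rw [h.1, h.2]
  show v (j, 0) * reP (z j) + v (j, 1) * (- imP (z j)) = _
  ring

theorem exists_dl (ρ : ι × Fin 2 → ℝ[X]) : ∃ z : ι → ℂ[X], dl z = ρ := by
  refine ⟨fun j => io (ρ (j, 0)) + II * io (- ρ (j, 1)), ?_⟩
  funext ⟨j, s⟩
  have h := reP_of (g := io (ρ (j, 0)) + II * io (- ρ (j, 1))) rfl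
  fin_cases s
  · exact h.1
  · show - imP _ = _
    rw [h.2, neg_neg]
    rfl

theorem dl_mem_Lv {w : ι → ℕ} {t : ℕ} {z : ι → ℂ[X]} :
    dl z ∈ Lv ℝ (w2 w) t ↔ z ∈ Lv ℂ w t := by
  rw [mem_Lv, mem_Lv]
  constructor
  · intro h j k hk
    have h0 := h (j, 0) k hk
    have h1 := h (j, 1) k hk
    have e0 : dl z (j, 0) = reP (z j) := rfl
    have e1 : dl z (j, 1) = - imP (z j) := rfl
    rw [e0, reP_coeff] at h0
    rw [e1, coeff_neg, imP_coeff, neg_eq_zero] at h1
    exact Complex.ext h0 h1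
  · rintro h ⟨j, s⟩ k hk
    have h0 := h j k hk
    fin_cases s
    · show (reP (z j)).coeff k = 0
      rw [reP_coeff, h0]; rfl
    · show (- imP (z j)).coeff k = 0
      rw [coeff_neg, imP_coeff, h0]; simp

theorem dl_zero : dl (0 : ι → ℂ[X]) = 0 := by
  funext ⟨j, s⟩
  fin_cases s
  · show reP 0 = 0
    exact reP_zero
  · show - imP 0 = 0
    rw [imP_zero, neg_zero]

theorem isRat_dl {F₁ : Subfield ℝ} {z : ι → ℂ[X]} (h : IsRat (cplx F₁) z) : IsRat F₁ (dl z) := by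
  rintro ⟨j, s⟩ k
  have h0 := h j k
  rw [mem_cplx] at h0
  fin_cases s
  · show (reP (z j)).coeff k ∈ F₁
    rw [reP_coeff]; exact h0.1
  · show (- imP (z j)).coeff k ∈ F₁
    rw [coeff_neg, imP_coeff]; exact F₁.neg_mem h0.2

theorem exists_lv_succ [Finite ι] {F : Type*} [Field F] (w : ι → ℕ) (v : ι → F[X]) :
    ∃ t, v ∈ Lv F w (t + 1) := by
  obtain ⟨t, ht⟩ := exists_mem_Lv w v
  exact ⟨t, Lv_mono (Nat.le_succ t) ht⟩

theorem reim_cplx {F₁ : Subfield ℝ} {α : Type*} {A : Finset α} {g : α → ℂ}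
    (h : ∀ s ∈ reim A g, s ∈ F₁) {a : α} (ha : a ∈ A) : g a ∈ cplx F₁ :=
  ⟨h _ (Finset.mem_union_left _ (Finset.mem_image_of_mem _ ha)),
    h _ (Finset.mem_union_right _ (Finset.mem_image_of_mem (fun a => (g a).im) ha))⟩

theorem isRat_smul_poly {F : Type*} [Field F] {F₀ : Subfield F} {p : F[X]}
    (hp : ∀ k, p.coeff k ∈ F₀) {v : ι → F[X]} (hv : IsRat F₀ v) : IsRat F₀ (p • v) := by
  intro j k
  rw [Pi.smul_apply, smul_eq_mul, coeff_mul]
  exact F₀.sum_mem fun x _ => F₀.mul_mem (hp _) (hv j _)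

theorem exists_dual_data {b : ℕ} (hb : 0 < b) (w w' : Fin b → ℕ) (hw : ∀ i, w i + w' i = 1)
    (B : Fin (2 * b) → Fin b × Fin 2 → ℝ[X]) (k0 : Fin (2 * b))
    (hli : ∀ p : Fin (2 * b) → ℝ[X], p k0 = 0 → ∑ k, p k • B k = 0 → p = 0)
    (hdep : ∃ p : Fin (2 * b) → ℝ[X], p k0 ≠ 0 ∧ ∑ k, p k • B k = 0) :
    ∃ (lam : Fin (2 * b - 1) → ℕ) (ρ : Fin (2 * b - 1) → Fin b × Fin 2 → ℝ[X])
      (ν : Fin (b - 1) → ℕ) (μ : Fin (b - 1) → Fin b → ℂ[X]) (γ : ℕ) (h' : Fin b → ℂ[X])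
      (ζ : ℂ) (S1 S2 : Finset ℝ),
      ζ ≠ 0 ∧ Monotone lam ∧ RB (w2 w) lam ρ ∧ lat ρ = perp (lat fun _ : Unit => dl h') ∧
      Monotone ν ∧ RB w ν μ ∧ lat μ = perp (lat fun _ : Unit => h') ∧
      ∑ i, ν i + γ + ∑ i, w i ≤ ∑ i, lam i ∧
      S1.card + 2 * ∑ i, ∑ l, (ν i + 1 - ν l) ≤ 2 * ∑ i, ∑ l, (ν i + 1 - w l) ∧
      S2.card ≤ 2 * γ ∧
      (∀ F₁ : Subfield ℝ, (∀ s ∈ S1, s ∈ F₁) → (∀ s ∈ S2, s ∈ F₁) → IsRat (cplx F₁) h') ∧
      ∀ k, dotL (dl h') (rotL (Fin b) ζ (B k)) = 0 := by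
  classical
  -- the family without `k0`
  set B' : {k : Fin (2 * b) // k ≠ k0} → Fin b × Fin 2 → ℝ[X] := fun k => B k with hB'
  have hB'li : LinearIndependent ℝ[X] B' :=
    li_of_fun (fun k => k ≠ k0) B fun p hp h => hli p (hp k0 (by simp)) h
  have hcardκ : Fintype.card {k : Fin (2 * b) // k ≠ k0} = 2 * b - 1 := by
    rw [Fintype.card_subtype_compl, Fintype.card_fin, Fintype.card_subtype_eq]
  have hcard2 : Fintype.card (Fin b × Fin 2) = 2 * b := by
    rw [Fintype.card_prod, Fintype.card_fin, Fintype.card_fin, mul_comm]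
  have hlevB : ∀ k, ∃ t, B' k ∈ Lv ℝ (w2 w) (t + 1) := fun k => exists_lv_succ _ _
  choose τ hτ using hlevB
  have hw2 : ∀ j : Fin b × Fin 2, w2 w j + w2 w' j = 1 := fun j => hw j.1
  have hw2' : ∀ j : Fin b × Fin 2, w2 w' j + w2 w j = 1 := fun j => by
    rw [add_comm]; exact hw j.1
  have hw' : ∀ i, w' i + w i = 1 := fun i => by rw [add_comm]; exact hw i
  obtain ⟨y, θY, ĥ, -, hĥ, hĥlat⟩ := exists_RB (w2 w') (perp (lat B'))
  have hy1 := (perp_le hw2' hτ hĥ hĥlat.symm).1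
  have hy2 := card_le_of_perp_real hB'li hĥ.li (fun k => by
    rw [← hĥlat]; exact Submodule.subset_span ⟨k, rfl⟩)
  rw [hcardκ, hcard2, Fintype.card_fin] at hy1 hy2
  have hy : y = 1 := by omega
  subst hy
  obtain ⟨h, hh⟩ := exists_dl (ĥ 0)
  set θ : ℕ := θY 0 with hθ
  have hĥ0 : ∀ i, ĥ i = dl h := fun i => by rw [hh, Subsingleton.elim i 0]
  have hhne : h ≠ 0 := by
    rintro rfl
    rw [dl_zero] at hh
    exact hĥ.li.ne_zero 0 hh.symm
  have hlatĥ : lat ĥ = lat (fun _ : Unit => dl h) := by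
    unfold lat
    congr 1
    ext x
    constructor
    · rintro ⟨i, rfl⟩
      exact ⟨(), (hĥ0 i).symm⟩
    · rintro ⟨-, rfl⟩
      exact ⟨0, hĥ0 0⟩
  have hBperp : ∀ k, dotL (dl h) (B k) = 0 := by
    have hne : ∀ k, k ≠ k0 → dotL (dl h) (B k) = 0 := by
      intro k hk
      have h1 : dl h ∈ perp (lat B') := by
        rw [← hĥlat, hlatĥ]; exact Submodule.subset_span ⟨(), rfl⟩
      rw [dotL_comm]
      exact h1 _ (Submodule.subset_span ⟨⟨k, hk⟩, rfl⟩)
    intro k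
    by_cases hk : k = k0
    · obtain ⟨p, hp0, hp⟩ := hdep
      have h1 := congrArg (dotL (dl h)) hp
      rw [map_sum, map_zero, Finset.sum_eq_single k0] at h1
      · rw [map_smul, smul_eq_mul] at h1
        rw [hk]
        exact (mul_eq_zero.mp h1).resolve_left hp0
      · intro l _ hl
        rw [map_smul, hne l hl, smul_zero]
      · intro h; exact absurd (Finset.mem_univ _) h
    · exact hne k hk
  -- the real lattice of the functional
  obtain ⟨l, lam, ρ, hlam, hρ, hρlat⟩ := exists_RB (w2 w) (perp (lat ĥ))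
  have hl1 := (perp_le hw2 hĥ.fil hρ hρlat.symm).1
  have hl2 := card_le_of_perp_real hĥ.li hρ.li (fun k => by
    rw [← hρlat]; exact Submodule.subset_span ⟨k, rfl⟩)
  rw [hcard2, Fintype.card_fin, Fintype.card_fin] at hl1 hl2
  have hl : l = 2 * b - 1 := by omega
  subst hl
  have hlameq := perp_eq hw2 hĥ hρ hρlat.symm (by rw [hρlat, hĥlat, perp_perp_perp])
    (by rw [hcard2, Fintype.card_fin, Fintype.card_fin]; omega)
  rw [sum_fin2 w, Fintype.card_fin, Fin.sum_univ_one] at hlameq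
  -- the complex lattices
  have hhLv : h ∈ Lv ℂ w' (θ + 1) := by
    rw [← dl_mem_Lv, hh]; exact hĥ.fil 0
  set hf : Unit → Fin b → ℂ[X] := fun _ => h with hhf
  have hfli : LinearIndependent ℂ[X] hf := by
    rw [Fintype.linearIndependent_iff]
    intro g hg i
    rw [Fintype.sum_unique] at hg
    rcases smul_eq_zero.mp hg with h1 | h1
    · rwa [Subsingleton.elim i default]
    · exact absurd h1 hhne
  obtain ⟨lc, ν, μ, hν, hμ, hμlat⟩ := exists_RB w (perp (lat hf))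
  have hlc1 := (perp_le hw (δ := fun _ : Unit => θ) (fun _ => hhLv) hμ hμlat.symm).1
  have hlc2 := card_le_of_perp_complex hfli hμ.li (fun k => by
    rw [← hμlat]; exact Submodule.subset_span ⟨k, rfl⟩)
  rw [Fintype.card_fin, Fintype.card_unit, Fintype.card_fin] at hlc1 hlc2
  have hlc : lc = b - 1 := by omega
  subst hlc
  obtain ⟨y2, θ2, η2, -, hη2, hη2lat⟩ := exists_RB w' (perp (lat μ))
  have hy3 := (perp_le hw' hμ.fil hη2 hη2lat.symm).1
  have hy4 := card_le_of_perp_complex hμ.li hη2.li (fun k => by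
    rw [← hη2lat]; exact Submodule.subset_span ⟨k, rfl⟩)
  rw [Fintype.card_fin, Fintype.card_fin, Fintype.card_fin] at hy3 hy4
  have hy2' : y2 = 1 := by omega
  subst hy2'
  have hνle := (perp_le hw hη2.fil hμ (by rw [hη2lat, hμlat, perp_perp_perp])).2
    (by rw [Fintype.card_fin, Fintype.card_fin, Fintype.card_fin]; omega)
  rw [Fintype.card_fin, Fin.sum_univ_one] at hνle
  -- the rational generator
  obtain ⟨S, hS, hSF⟩ := hμ.exists_params' (F₀ := ⊥) (Z := ⊤) le_top (fun t => dfn_lev_top w t)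
  set S1 : Finset ℝ := reim S id with hS1
  have hD : ∀ F₁ : Subfield ℝ, (∀ s ∈ S1, s ∈ F₁) → ∀ t, Dfn (cplx F₁) (lev (perp (lat μ)) w' t) :=
    fun F₁ hF => Dfn.perp (hSF (cplx F₁) bot_le fun s hs => reim_cplx hF hs) w'
  obtain ⟨r, hr, hrrat, hrne⟩ := (hD (Subfield.closure (S1 : Set ℝ))
    (fun s hs => Subfield.subset_closure hs) (θ2 0 + 1)).exists_ne (v := η2 0) (by
      rw [mem_lev]
      exact ⟨by rw [← hη2lat]; exact Submodule.subset_span ⟨0, rfl⟩, hη2.fil 0⟩)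
    (hη2.li.ne_zero 0)
  rw [mem_lev, ← hη2lat] at hr
  obtain ⟨p, hp⟩ := mem_lat.mp hr.1
  have hpd := hη2.pd p (θ2 0 + 1) (by rw [hp]; exact hr.2) 0
  rw [Fin.sum_univ_one] at hp
  have hpC : p 0 = C ((p 0).coeff 0) := by
    ext l
    rcases l with _ | l
    · rw [coeff_C_zero]
    · rw [coeff_C_succ]; exact hpd _ (by omega)
  set z0 : ℂ := (p 0).coeff 0 with hz0
  have hz0ne : z0 ≠ 0 := by
    intro h0
    rw [hpC, h0, C_0, zero_smul] at hp
    exact hrne hp.symm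
  have hη2r : η2 0 = (C z0⁻¹ : ℂ[X]) • r := by
    rw [← hp, hpC, smul_smul, ← C_mul, inv_mul_cancel₀ hz0ne, C_1, one_smul]
  have hhΘ : h ∈ lat η2 := by
    rw [hη2lat, hμlat]
    exact le_perp_perp _ (Submodule.subset_span ⟨(), rfl⟩)
  obtain ⟨G, hG⟩ := mem_lat.mp hhΘ
  have hGpd := hη2.pd G (θ + 1) (by rw [hG]; exact hhLv) 0
  rw [Fin.sum_univ_one] at hG
  set g : ℂ[X] := C z0⁻¹ * G 0 with hg
  have hhg : h = g • r := by
    rw [← hG, hη2r, smul_smul, hg, mul_comm]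
  have hgne : g ≠ 0 := by
    intro h0
    rw [h0, zero_smul] at hhg
    exact hhne hhg
  set γ : ℕ := g.natDegree with hγ
  have hγle : γ + θ2 0 ≤ θ := by
    by_contra hcon
    push Not at hcon
    have h1 : g.coeff γ ≠ 0 := leadingCoeff_ne_zero.mpr hgne
    apply h1
    rw [hg, coeff_C_mul, hGpd _ (by omega), mul_zero]
  set ζ : ℂ := g.leadingCoeff with hζ
  have hζne : ζ ≠ 0 := leadingCoeff_ne_zero.mpr hgne
  set g1 : ℂ[X] := C ζ⁻¹ * g with hg1
  set h' : Fin b → ℂ[X] := g1 • r with hh'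
  have hhh' : h = (C ζ : ℂ[X]) • h' := by
    rw [hh', smul_smul, hg1, ← mul_assoc, ← C_mul, mul_inv_cancel₀ hζne, C_1, one_mul, hhg]
  set S2 : Finset ℝ := reim (Finset.range γ) g1.coeff with hS2
  -- transport to `h'`
  have hdot : ∀ v : Fin b × Fin 2 → ℝ[X], dotL (dl h') (rotL (Fin b) ζ v) = dotL (dl h) v := by
    intro v
    rw [dotL_dl, dotL_dl, cx_rotL, map_smul, smul_eq_mul]
    congr 1
    rw [dotL_apply, dotL_apply, Finset.mul_sum]
    refine Finset.sum_congr rfl fun j _ => ?_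
    rw [hhh', Pi.smul_apply, smul_eq_mul]
    ring
  refine ⟨lam, fun k => rotL (Fin b) ζ (ρ k), ν, μ, γ, h', ζ, S1, S2, hζne, hlam, hρ.rot hζne,
    ?_, hν, hμ, ?_, by omega, ?_, ?_, ?_, ?_⟩
  · -- the rotated lattice
    ext v
    have h1 : v ∈ perp (lat fun _ : Unit => dl h') ↔ dotL (dl h') v = 0 := by
      rw [mem_perp_lat]
      exact ⟨fun h => h (), fun h _ => h⟩
    rw [h1]
    constructor
    · intro hv
      obtain ⟨q, hq⟩ := mem_lat.mp hv
      rw [← hq, map_sum]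
      refine Finset.sum_eq_zero fun k _ => ?_
      rw [map_smul, hdot]
      have h2 : ρ k ∈ perp (lat ĥ) := by rw [← hρlat]; exact Submodule.subset_span ⟨k, rfl⟩
      rw [hlatĥ, mem_perp_lat] at h2
      rw [h2 (), smul_zero]
    · intro hv
      have h2 : rotL (Fin b) ζ⁻¹ v ∈ lat ρ := by
        rw [hρlat, hlatĥ, mem_perp_lat]
        intro _
        rw [← hdot, rotL_rotL, mul_inv_cancel₀ hζne, rotL_one]
        exact hv
      obtain ⟨q, hq⟩ := mem_lat.mp h2
      rw [mem_lat]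
      refine ⟨q, ?_⟩
      have h3 := congrArg (rotL (Fin b) ζ) hq
      rw [rotL_rotL, mul_inv_cancel₀ hζne, rotL_one, map_sum] at h3
      rw [← h3]
      exact Finset.sum_congr rfl fun k _ => (map_smul _ _ _).symm
  · rw [hμlat]
    ext v
    rw [mem_perp_lat, mem_perp_lat]
    have h1 : dotL h v = C ζ * dotL h' v := by
      rw [hhh', dotL_comm, map_smul, dotL_comm, smul_eq_mul]
    constructor
    · intro hv _
      have h2 := hv ()
      rw [hhf] at h2
      simp only at h2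
      rw [h1] at h2
      exact (mul_eq_zero.mp h2).resolve_left (C_ne_zero.mpr hζne)
    · intro hv _
      show dotL h v = 0
      rw [h1, hv (), mul_zero]
  · have h1 : ∀ i, Module.finrank ℂ (lev (⊤ : Submodule ℂ[X] (Fin b → ℂ[X])) w (ν i + 1))
        = ∑ l, (ν i + 1 - w l) := fun i => by rw [lev_top, finrank_Lv]
    rw [Finset.sum_congr rfl fun i _ => h1 i] at hS
    have h2 : S1.card ≤ 2 * S.card := reim_card S id
    omega
  · have h2 := reim_card (Finset.range γ) g1.coeff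
    rwa [Finset.card_range] at h2
  · intro F₁ hF1 hF2
    refine isRat_smul_poly (fun k => ?_) (hrrat.mono (cplx_mono ?_))
    · rcases lt_trichotomy k γ with hk | hk | hk
      · exact reim_cplx hF2 (Finset.mem_range.mpr hk)
      · rw [hk, hg1, coeff_C_mul]
        have h1 : g.coeff γ = ζ := rfl
        rw [h1, inv_mul_cancel₀ hζne]
        exact (cplx F₁).one_mem
      · rw [hg1, coeff_C_mul, coeff_eq_zero_of_natDegree_lt hk, mul_zero]
        exact (cplx F₁).zero_mem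
    · rw [Subfield.closure_le]
      exact hF1
  · intro k
    rw [hdot]
    exact hBperp k

end

end Pool.Agent.Helper730_PP
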