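import Pool.Agent.Helper730_PP.RotDet

/-!
# Closure of a generic family, rational bases, and rotated lattices
-/

open Polynomial Matrix

namespace Pool.Agent.Helper730_PP

noncomputable section

/-- Parameters which generate a family of the same size are algebraic over the family. -/
theorem mem_of_card_le {ι : Type} [Fintype ι] {t : ι → ℝ} (ht : AlgebraicIndependent ℚ t)
    {S : Finset ℝ} (hcard : S.card ≤ Fintype.card ι)
    (hS : ∀ K : Subfield ℂ, GoodField K → (∀ s ∈ S, (s : ℂ) ∈ K) → ∀ i, (t i : ℂ) ∈ K)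
    {K' : Subfield ℂ} (hK' : GoodField K') (htK' : ∀ i, (t i : ℂ) ∈ K') :
    ∀ s ∈ S, (s : ℂ) ∈ K' := by
  by_contra hcon
  push Not at hcon
  obtain ⟨s, hs, hsK⟩ := hcon
  have hadj : ∀ x ∈ Algebra.adjoin ℚ (Set.range t), (x : ℂ) ∈ K' := by
    intro x hx
    induction hx using Algebra.adjoin_induction with
    | mem x hx =>
      obtain ⟨i, rfl⟩ := hx
      exact htK' i
    | algebraMap r =>
      have h1 : ((algebraMap ℚ ℝ r : ℝ) : ℂ) = (r : ℂ) := by simp
      rw [h1]
      exact SubfieldClass.ratCast_mem K' r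
    | add x y _ _ hx hy => rw [Complex.ofReal_add]; exact K'.add_mem hx hy
    | mul x y _ _ hx hy => rw [Complex.ofReal_mul]; exact K'.mul_mem hx hy
  have htr : Transcendental (Algebra.adjoin ℚ (Set.range t)) s := by
    intro halg
    obtain ⟨p, hp0, hp⟩ := halg
    apply hsK
    set P : ℂ[X] := (p.map (algebraMap (Algebra.adjoin ℚ (Set.range t)) ℝ)).map
      Complex.ofRealHom with hP
    have hinj1 : Function.Injective (algebraMap (Algebra.adjoin ℚ (Set.range t)) ℝ) :=
      Subtype.val_injective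
    refine hK'.root_mem P ?_ ?_ _ ?_
    · rw [hP, Polynomial.map_ne_zero_iff (RingHom.injective _),
        Polynomial.map_ne_zero_iff hinj1]
      exact hp0
    · intro k
      rw [hP, coeff_map, coeff_map]
      exact hadj _ (p.coeff k).2
    · rw [hP]
      have h1 : eval ((Complex.ofRealHom s : ℂ))
          ((p.map (algebraMap (Algebra.adjoin ℚ (Set.range t)) ℝ)).map Complex.ofRealHom)
          = Complex.ofRealHom (eval s (p.map (algebraMap (Algebra.adjoin ℚ (Set.range t)) ℝ))) :=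
        eval_map_apply _ _
      have h2 : eval s (p.map (algebraMap (Algebra.adjoin ℚ (Set.range t)) ℝ)) = 0 := by
        rw [eval_map_algebraMap]; exact hp
      rw [h2, map_zero] at h1
      exact h1
  have ht2 := (AlgebraicIndependent.option_iff_transcendental ht s).mpr htr
  obtain ⟨K, hK, hSK, hKcard⟩ := exists_goodField (S : Set ℝ)
  have htK := hS K hK (fun s hs => hSK s hs)
  have h1 := hKcard _ ht2 (by
    rintro (_ | i)
    · exact hSK s hs
    · exact htK i)
  rw [Fintype.card_option, Set.encard_coe_eq_coe_finsetCard] at h1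
  have h2 : Fintype.card ι + 1 ≤ S.card := by exact_mod_cast h1
  omega

theorem card_le_of_gen {ι : Type} [Fintype ι] {t : ι → ℝ} (ht : AlgebraicIndependent ℚ t)
    {S : Finset ℝ}
    (hS : ∀ K : Subfield ℂ, GoodField K → (∀ s ∈ S, (s : ℂ) ∈ K) → ∀ i, (t i : ℂ) ∈ K) :
    Fintype.card ι ≤ S.card := by
  obtain ⟨K, hK, hSK, hKcard⟩ := exists_goodField (S : Set ℝ)
  have h1 := hKcard t ht (hS K hK (fun s hs => hSK s hs))
  rw [Set.encard_coe_eq_coe_finsetCard] at h1
  exact_mod_cast h1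

/-- A rational independent family of the right size in a rational lattice. -/
theorem exists_rat_family {F : Type*} [Field F] {F₀ : Subfield F} {ι : Type*} [Finite ι] {m : ℕ}
    {w : ι → ℕ} {δ : Fin m → ℕ} {B : Fin m → ι → F[X]} (hB : RB w δ B)
    (hD : ∀ T, Dfn F₀ (lev (lat B) w T)) :
    ∃ R : Fin m → ι → F[X], (∀ k, IsRat F₀ (R k)) ∧ (∀ k, R k ∈ lat B) ∧
      LinearIndependent F[X] R := by
  classical
  set T : ℕ := ∑ k, δ k + 1 with hT
  have hBT : ∀ k, B k ∈ lev (lat B) w T := by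
    intro k
    rw [mem_lev]
    refine ⟨Submodule.subset_span ⟨k, rfl⟩, Lv_mono ?_ (hB.fil k)⟩
    have := Finset.single_le_sum (f := δ) (fun _ _ => Nat.zero_le _) (Finset.mem_univ k)
    omega
  obtain ⟨n, a, haR, -, -, haspan⟩ := exists_basis_mod (bot_le : ⊥ ≤ lev (lat B) w T)
    (hD T).eq_span
  obtain ⟨T', hT1, hT2⟩ := exists_maximal_fun0 (R := F[X]) a
  have hall : ∀ i, ∃ z : F[X], z ≠ 0 ∧ z • a i ∈ Submodule.span F[X]
      (Set.range (fun k : T' => a k)) := by
    intro i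
    by_cases hi : i ∈ T'
    · refine ⟨1, one_ne_zero, ?_⟩
      rw [one_smul]
      exact Submodule.subset_span ⟨⟨i, hi⟩, rfl⟩
    · obtain ⟨q, hq, hqk, hqs⟩ := hT2 i hi
      refine ⟨q i, hqk, ?_⟩
      have h1 := rel_mem_span (u := fun _ : Fin 0 => (0 : ι → F[X])) (v := a)
        hi (p := fun _ => 0) hq (by simpa using hqs)
      refine (Submodule.span_le.mpr ?_) h1
      rintro _ ⟨x | l, rfl⟩
      · exact x.elim0
      · exact Submodule.subset_span ⟨l, rfl⟩
  obtain ⟨z, hz, hzs⟩ := exists_common _ a hall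
  have hge : m ≤ T'.card := by
    have h1 := card_le_of_torsion (f := fun k : T' => a k) hB.li (fun k => by
      refine ⟨z, hz, hzs _ ?_⟩
      obtain ⟨c, hc⟩ := haspan _ (hBT k)
      rw [Submodule.mem_bot, sub_eq_zero] at hc
      rw [hc]
      refine Submodule.sum_mem _ fun i _ => ?_
      have h2 : c i • a i = (C (c i) : F[X]) • a i := by
        funext j
        rw [Pi.smul_apply, Pi.smul_apply, smul_eq_mul, ← smul_eq_C_mul]
      rw [h2]
      exact Submodule.smul_mem _ _ (Submodule.subset_span ⟨i, rfl⟩))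
    rwa [Fintype.card_fin, Fintype.card_coe] at h1
  have hli : LinearIndependent F[X] (fun k : {k // k ∈ T'} => a k) :=
    li_of_fun (fun k => k ∈ T') a fun p hp h => hT1 p hp h
  have hmem : ∀ i, a i ∈ lat B := fun i => (mem_lev.mp (haR i).1).1
  have hle : T'.card ≤ m := by
    have h1 := card_le_of_torsion (f := B) hli (fun k => ⟨1, one_ne_zero, by
      rw [one_smul]; exact hmem k⟩)
    rwa [Fintype.card_fin, Fintype.card_coe] at h1
  set ε : {k // k ∈ T'} ≃ Fin m := T'.equivFinOfCardEq (by omega) with hε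
  exact ⟨fun k => a (ε.symm k), fun k => (haR _).2, fun k => hmem _,
    hli.comp ε.symm ε.symm.injective⟩

theorem det_coeff_mem {F : Type*} [Field F] {F₀ : Subfield F} {k : ℕ}
    (M : Matrix (Fin k) (Fin k) F[X])
    (h : ∀ i j l, (M i j).coeff l ∈ F₀) (l : ℕ) : M.det.coeff l ∈ F₀ := by
  have h1 : ∀ i j, ∃ p : F₀[X], p.map F₀.subtype = M i j := by
    intro i j
    have h2 : M i j ∈ Polynomial.lifts F₀.subtype := by
      rw [Polynomial.lifts_iff_coeff_lifts]
      intro l
      exact ⟨⟨_, h i j l⟩, rfl⟩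
    exact (Polynomial.mem_lifts _).mp h2
  choose M' hM' using h1
  have h2 : M = (Polynomial.mapRingHom F₀.subtype).mapMatrix (Matrix.of M') := by
    refine Matrix.ext fun i j => ?_
    rw [RingHom.mapMatrix_apply, Matrix.map_apply, Polynomial.coe_mapRingHom]
    exact (hM' i j).symm
  rw [h2, ← RingHom.map_det, Polynomial.coe_mapRingHom, coeff_map]
  exact (((Matrix.of M').det).coeff l).2

/-- A functional with prescribed values at `1` and at an element outside of the field. -/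
theorem exists_functional {F₀ : Subfield ℝ} {τ : ℝ} (hτ : τ ∉ F₀) :
    ∃ π : ℝ →ₗ[F₀] F₀, π 1 = 1 ∧ π τ = 0 := by
  have h1 : (1 : ℝ) ∉ Submodule.span F₀ {τ} := by
    intro h
    obtain ⟨c, hc⟩ := Submodule.mem_span_singleton.mp h
    rw [Subfield.smul_def, smul_eq_mul] at hc
    apply hτ
    have hc0 : (c : ℝ) ≠ 0 := by
      intro h0
      rw [h0, zero_mul] at hc
      exact zero_ne_one hc
    have h2 : τ = (c : ℝ)⁻¹ := by
      field_simp
      rw [mul_comm]; exact hc
    rw [h2]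
    exact F₀.inv_mem c.2
  obtain ⟨f, hf1, hf⟩ := Submodule.exists_le_ker_of_notMem h1
  refine ⟨(f 1)⁻¹ • f, ?_, ?_⟩
  · rw [LinearMap.smul_apply, smul_eq_mul, inv_mul_cancel₀ hf1]
  · have h2 : f τ = 0 := hf (Submodule.mem_span_singleton_self τ)
    rw [LinearMap.smul_apply, h2, smul_zero]

variable {c : ℕ}

theorem rotL_I_isRat {F₀ : Subfield ℝ} {v : Fin c × Fin 2 → ℝ[X]} (hv : IsRat F₀ v) :
    IsRat F₀ (rotL _ Complex.I v) := by
  rw [← isRat_cx, cx_rotL]
  refine isRat_smul_poly (fun k => ?_) (isRat_cx.mpr hv)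
  rw [coeff_C]
  split_ifs
  · exact ⟨by rw [Complex.I_re]; exact F₀.zero_mem, by rw [Complex.I_im]; exact F₀.one_mem⟩
  · exact (cplx F₀).zero_mem

/-- If a rational lattice stays rational after a transcendental rotation, it is complex. -/
theorem stable_of_rot {F₀ : Subfield ℝ} {V Vζ : Submodule ℝ[X] (Fin c × Fin 2 → ℝ[X])} {τ : ℝ}
    (hτ : τ ∉ F₀) (hV : ∀ T, Dfn F₀ (lev V (w2 w0) T)) (hVζ : ∀ T, Dfn F₀ (lev Vζ (w2 w0) T))
    (hrot : ∀ v ∈ V, rotL _ (⟨1, τ⟩ : ℂ) v ∈ Vζ)
    (hrot' : ∀ v ∈ Vζ, rotL _ (⟨1, τ⟩ : ℂ)⁻¹ v ∈ V) : ∀ v ∈ V, rotL _ Complex.I v ∈ V := by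
  obtain ⟨π, hπ1, hπτ⟩ := exists_functional hτ
  have hτ0 : τ ≠ 0 := fun h => hτ (by rw [h]; exact F₀.zero_mem)
  set ζ : ℂ := ⟨1, τ⟩ with hζ
  have hζim : (ζ⁻¹).im ≠ 0 := by
    rw [Complex.inv_im]
    have h1 : Complex.normSq ζ ≠ 0 := by
      rw [Ne, Complex.normSq_eq_zero]
      intro h
      have := congrArg Complex.re h
      simp [hζ] at this
    exact div_ne_zero (neg_ne_zero.mpr hτ0) h1
  have hrat : ∀ v ∈ V, IsRat F₀ v → rotL _ Complex.I v ∈ V := by
    intro v hv hvr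
    -- `v` lies in the rotated lattice
    have h1 : v ∈ Vζ := by
      have h2 := hrot v hv
      obtain ⟨T, hT⟩ := exists_mem_Lv (w2 w0) (rotL _ ζ v)
      have h3 := hVζ T π _ (mem_lev.mpr ⟨h2, hT⟩)
      have h4 : Pv π (rotL _ ζ v) = v := by
        refine ext_coeff fun j k => ?_
        rw [Pv_coeff, rotL_eq]
        have h5 : (((C ζ.re : ℝ[X]) • v + (C ζ.im : ℝ[X]) • rotL _ Complex.I v) j).coeff k
            = (⟨_, hvr j k⟩ : F₀) • (1 : ℝ) + (⟨_, rotL_I_isRat hvr j k⟩ : F₀) • τ := by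
          rw [Pi.add_apply, coeff_add, Pi.smul_apply, Pi.smul_apply, smul_eq_mul, smul_eq_mul,
            coeff_C_mul, coeff_C_mul, Subfield.smul_def, Subfield.smul_def, smul_eq_mul,
            smul_eq_mul]
          simp only [hζ]
          ring
        rw [h5, map_add, map_smul, map_smul, hπ1, hπτ, smul_zero, add_zero, smul_eq_mul, mul_one]
      rw [h4] at h3
      exact (mem_lev.mp h3).1
    have h2 := hrot' v h1
    rw [rotL_eq] at h2
    have h3 : (C (ζ⁻¹).im : ℝ[X]) • rotL _ Complex.I v ∈ V := by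
      have h4 := V.sub_mem h2 (V.smul_mem (C (ζ⁻¹).re) hv)
      rwa [add_sub_cancel_left] at h4
    have h4 := V.smul_mem (C ((ζ⁻¹).im)⁻¹) h3
    rwa [smul_smul, ← C_mul, inv_mul_cancel₀ hζim, C_1, one_smul] at h4
  intro v hv
  obtain ⟨T, hT⟩ := exists_mem_Lv (w2 w0) v
  have h1 : v ∈ lev V (w2 w0) T := mem_lev.mpr ⟨hv, hT⟩
  rw [← (hV T).eq_span] at h1
  have h2 : Submodule.span ℝ {v | v ∈ lev V (w2 w0) T ∧ IsRat F₀ v}
      ≤ (V.restrictScalars ℝ).comap ((rotL (Fin c) Complex.I).restrictScalars ℝ) := by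
    rw [Submodule.span_le]
    rintro x ⟨hx, hxr⟩
    exact hrat x (mem_lev.mp hx).1 hxr
  exact h2 h1

end

end Pool.Agent.Helper730_PP
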