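import Pool.Agent.Helper730_PP.Rat

/-!
# Parameter count for a lattice with a reduced basis
-/

open Polynomial

namespace Pool.Agent.Helper730_PP

noncomputable section

variable {F : Type*} [Field F] {ι : Type*}

theorem RB.lev_succ_le {κ : Type*} [Fintype κ] {w : ι → ℕ} {δ : κ → ℕ} {η : κ → ι → F[X]}
    (h : RB w δ η) (t : ℕ) :
    lev (lat η) w (t + 1) ≤ (lev (lat η) w t ⊔ (lev (lat η) w t).map (mulX F ι)) ⊔
      Submodule.span F (Set.range fun k : {k : κ // δ k = t} => η k) := by
  intro v hv
  rw [mem_lev] at hv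
  obtain ⟨p, hp⟩ := mem_lat.mp hv.1
  have h1 := h.pd p (t + 1) (by rw [hp]; exact hv.2)
  rw [← hp]
  refine Submodule.sum_mem _ fun k _ => ?_
  rcases lt_trichotomy (δ k) t with hk | hk | hk
  · apply Submodule.mem_sup_left
    have h2 : p k • η k = C ((p k).coeff 0) • η k + (mulX F ι) ((divX (p k)) • η k) := by
      conv_lhs => rw [← divX_mul_X_add (p k)]
      rw [add_smul, mul_comm, mul_smul, add_comm]
      rfl
    rw [h2]
    refine Submodule.add_mem_sup ?_ ⟨_, ?_, rfl⟩
    · rw [mem_lev]
      refine ⟨Submodule.smul_mem _ _ (Submodule.subset_span ⟨k, rfl⟩), ?_⟩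
      refine smul_mem_Lv (h.fil k) fun l hl => ?_
      rw [coeff_C, if_neg (by omega)]
    · rw [SetLike.mem_coe, mem_lev]
      refine ⟨Submodule.smul_mem _ _ (Submodule.subset_span ⟨k, rfl⟩), ?_⟩
      refine smul_mem_Lv (h.fil k) fun l hl => ?_
      rw [coeff_divX]
      exact h1 k _ (by omega)
  · apply Submodule.mem_sup_right
    have h2 : p k = C ((p k).coeff 0) := by
      ext l
      rcases l with _ | l
      · rw [coeff_C_zero]
      · rw [coeff_C_succ]
        exact h1 k _ (by omega)
    rw [h2]
    have h3 : (C ((p k).coeff 0) : F[X]) • η k = (p k).coeff 0 • η k := by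
      funext j
      rw [Pi.smul_apply, Pi.smul_apply, smul_eq_mul, ← smul_eq_C_mul]
    rw [h3]
    exact Submodule.smul_mem _ _ (Submodule.subset_span ⟨⟨k, hk⟩, rfl⟩)
  · have h2 : p k = 0 := by
      ext l
      rw [coeff_zero]
      exact h1 k _ (by omega)
    rw [h2, zero_smul]
    exact Submodule.zero_mem _

theorem gen_le {w : ι → ℕ} (Λ : Submodule F[X] (ι → F[X])) (t : ℕ) :
    lev Λ w t ⊔ (lev Λ w t).map (mulX F ι) ≤ lev Λ w (t + 1) := by
  refine sup_le (lev_mono le_rfl (Nat.le_succ t)) ?_
  rintro _ ⟨v, hv, rfl⟩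
  rw [SetLike.mem_coe, mem_lev] at hv
  rw [mem_lev]
  exact ⟨Λ.smul_mem _ hv.1, X_smul_mem_Lv hv.2⟩

/-- The parameter count for a lattice inside a rational one. -/
theorem RB.exists_params [Finite ι] {κ : Type*} [Fintype κ] {w : ι → ℕ} {δ : κ → ℕ}
    {η : κ → ι → F[X]} (h : RB w δ η) {F₀ : Subfield F} {Z : Submodule F[X] (ι → F[X])}
    (hle : lat η ≤ Z) (hZ : ∀ t, Dfn F₀ (lev Z w t)) :
    ∃ S : Finset F, S.card ≤ ∑ k, (Module.finrank F (lev Z w (δ k + 1)) - ∑ l, (δ k + 1 - δ l)) ∧
      ∀ F₁ : Subfield F, F₀ ≤ F₁ → (∀ s ∈ S, s ∈ F₁) → ∀ t, Dfn F₁ (lev (lat η) w t) := by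
  classical
  set val : κ → ℕ := fun k => Module.finrank F (lev Z w (δ k + 1)) - ∑ l, (δ k + 1 - δ l) with hval
  have key : ∀ t, ∃ S : Finset F, S.card ≤ ∑ k ∈ Finset.univ.filter (fun k => δ k < t), val k ∧
      ∀ F₁ : Subfield F, F₀ ≤ F₁ → (∀ s ∈ S, s ∈ F₁) → Dfn F₁ (lev (lat η) w t) := by
    intro t
    induction t with
    | zero =>
      refine ⟨∅, by simp, fun F₁ _ _ => ?_⟩
      have : lev (lat η) w 0 = ⊥ := by
        rw [eq_bot_iff, ← Lv_zero (w := w)]
        exact inf_le_right
      rw [this]
      exact dfn_bot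
    | succ t ih =>
      obtain ⟨S, hS, hSF⟩ := ih
      set F₁ : Subfield F := Subfield.closure ((F₀ : Set F) ∪ (S : Set F)) with hF₁
      have hF01 : F₀ ≤ F₁ := fun x hx => Subfield.subset_closure (Or.inl hx)
      have hD := hSF F₁ hF01 fun s hs => Subfield.subset_closure (Or.inr hs)
      obtain ⟨S', hS', hSF'⟩ := Pool.Agent.Helper730_PP.exists_params (gen_le (w := w) (lat η) t)
        (lev_mono (w := w) hle le_rfl) (hD.sup hD.map_X) ((hZ (t + 1)).mono hF01)
      refine ⟨S ∪ S', ?_, ?_⟩
      · have hsplit : Finset.univ.filter (fun k => δ k < t + 1)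
            = Finset.univ.filter (fun k => δ k < t) ∪ Finset.univ.filter (fun k => δ k = t) := by
          ext k
          simp only [Finset.mem_filter, Finset.mem_univ, true_and, Finset.mem_union]
          omega
        have hdisj : Disjoint (Finset.univ.filter (fun k => δ k < t))
            (Finset.univ.filter (fun k => δ k = t)) := by
          rw [Finset.disjoint_filter]
          intro k _ h1 h2
          omega
        rw [hsplit, Finset.sum_union hdisj]
        refine (Finset.card_union_le _ _).trans (add_le_add hS (hS'.trans ?_))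
        have h1 : ∀ k ∈ Finset.univ.filter (fun k => δ k = t),
            val k = Module.finrank F (lev Z w (t + 1)) - Module.finrank F (lev (lat η) w (t + 1)) := by
          intro k hk
          have hk' : δ k = t := (Finset.mem_filter.mp hk).2
          rw [hval]
          simp only
          rw [h.finrank_lev, hk']
        rw [Finset.sum_congr rfl h1, Finset.sum_const, smul_eq_mul]
        refine Nat.mul_le_mul_right _ ?_
        have hfin : Module.Finite F (Submodule.span F
            (Set.range fun k : {k : κ // δ k = t} => η k)) :=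
          FiniteDimensional.span_of_finite F (Set.finite_range _)
        have h2 := Submodule.finrank_mono (h.lev_succ_le t)
        have h3 := Submodule.finrank_add_le_finrank_add_finrank
          (lev (lat η) w t ⊔ (lev (lat η) w t).map (mulX F ι))
          (Submodule.span F (Set.range fun k : {k : κ // δ k = t} => η k))
        have h4 : Module.finrank F
            (Submodule.span F (Set.range fun k : {k : κ // δ k = t} => η k))
            ≤ (Finset.univ.filter (fun k => δ k = t)).card := by
          refine (finrank_range_le_card (R := F) fun k : {k : κ // δ k = t} => η k).trans ?_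
          rw [Fintype.card_subtype]
        omega
      · intro F₂ hF hS2
        have hle12 : F₁ ≤ F₂ := by
          rw [hF₁, Subfield.closure_le]
          rintro x (hx | hx)
          · exact hF hx
          · exact hS2 x (Finset.mem_union_left _ hx)
        exact hSF' F₂ hle12 fun s hs => hS2 s (Finset.mem_union_right _ hs)
  set T : ℕ := ∑ k, δ k + 1 with hT
  have hTk : ∀ k, δ k < T := fun k => by
    have := Finset.single_le_sum (f := δ) (fun _ _ => Nat.zero_le _) (Finset.mem_univ k)
    omega
  obtain ⟨S, hS, hSF⟩ := key T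
  refine ⟨S, ?_, ?_⟩
  · rwa [Finset.filter_true_of_mem fun k _ => hTk k] at hS
  · intro F₁ hF hS1 t
    have hD := hSF F₁ hF hS1
    rcases le_total t T with ht | ht
    · have : lev (lat η) w t = lev (lat η) w T ⊓ Lv F w t := by
        unfold lev
        rw [inf_assoc, inf_eq_right.mpr (Lv_mono ht)]
      rw [this]
      exact hD.inf (dfn_Lv w t)
    · induction t, ht using Nat.le_induction with
      | base => exact hD
      | succ t ht ih =>
        have h1 : lev (lat η) w (t + 1) = lev (lat η) w t ⊔ (lev (lat η) w t).map (mulX F ι) := by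
          apply le_antisymm _ (gen_le _ t)
          refine (h.lev_succ_le t).trans (sup_le le_rfl ?_)
          rw [Submodule.span_le]
          rintro _ ⟨⟨k, hk⟩, rfl⟩
          have := hTk k
          omega
        rw [h1]
        exact ih.sup ih.map_X

end

end Pool.Agent.Helper730_PP
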