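import Pool.Agent.Helper730_PP.Defs

/-!
# The alternating form attached to a compensator when `p = 2`

For a compensator `P₂` with `m` rows and `m + 2` columns, `(x, y) ↦ det (P₂; x; y)` is an
alternating form.  It satisfies the three-term Plücker relation, its entries have degree at most
the McMillan degree of `P₂`, and it is not zero.
-/

open Polynomial Matrix

namespace Pool.Agent.Helper730_PP

noncomputable section

variable {m : ℕ}

/-- Two rows as a `2 × N` matrix. -/
def two {N : ℕ} (x y : Fin N → ℝ[X]) : PolyMat 2 N := Matrix.of ![x, y]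

/-- The form `(x, y) ↦ det (P₂; x; y)`. -/
def vform (P₂ : PolyMat m (m + 2)) (x y : Fin (m + 2) → ℝ[X]) : ℝ[X] :=
  (stack P₂ (two x y)).det

/-- The entries of the form. -/
def ventry (P₂ : PolyMat m (m + 2)) (i j : Fin (m + 2)) : ℝ[X] :=
  vform P₂ (Pi.single i 1) (Pi.single j 1)

theorem stack_castAdd {p : ℕ} (P₂ : PolyMat m (m + p)) (P₁ : PolyMat p (m + p)) (i : Fin m) :
    stack P₂ P₁ (Fin.castAdd p i) = P₂ i := by
  show Fin.append P₂ P₁ (Fin.castAdd p i) = P₂ i
  exact Fin.append_left P₂ P₁ i

theorem stack_natAdd {p : ℕ} (P₂ : PolyMat m (m + p)) (P₁ : PolyMat p (m + p)) (i : Fin p) :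
    stack P₂ P₁ (Fin.natAdd m i) = P₁ i := by
  show Fin.append P₂ P₁ (Fin.natAdd m i) = P₁ i
  exact Fin.append_right P₂ P₁ i

theorem stack_two_update_left (P₂ : PolyMat m (m + 2)) (x x' y : Fin (m + 2) → ℝ[X]) :
    stack P₂ (two x' y) = (stack P₂ (two x y)).updateRow (Fin.natAdd m 0) x' := by
  ext i j
  refine Fin.addCases (fun i => ?_) (fun i => ?_) i
  · rw [stack_castAdd, Matrix.updateRow_ne, stack_castAdd]
    intro h
    have := congrArg Fin.val h
    simp at this
    omega
  · fin_cases i
    · simp [stack_natAdd, two]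
    · rw [Matrix.updateRow_ne]
      · simp [stack_natAdd, two]
      · intro h
        have := congrArg Fin.val h
        simp at this

theorem stack_two_update_right (P₂ : PolyMat m (m + 2)) (x y y' : Fin (m + 2) → ℝ[X]) :
    stack P₂ (two x y') = (stack P₂ (two x y)).updateRow (Fin.natAdd m 1) y' := by
  ext i j
  refine Fin.addCases (fun i => ?_) (fun i => ?_) i
  · rw [stack_castAdd, Matrix.updateRow_ne, stack_castAdd]
    intro h
    have := congrArg Fin.val h
    simp at this
    omega
  · fin_cases i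
    · rw [Matrix.updateRow_ne]
      · simp [stack_natAdd, two]
      · intro h
        have := congrArg Fin.val h
        simp at this
    · simp [stack_natAdd, two]

theorem vform_add_left (P₂ : PolyMat m (m + 2)) (x x' y : Fin (m + 2) → ℝ[X]) :
    vform P₂ (x + x') y = vform P₂ x y + vform P₂ x' y := by
  unfold vform
  rw [stack_two_update_left P₂ 0 (x + x') y, Matrix.det_updateRow_add,
    ← stack_two_update_left, ← stack_two_update_left]

theorem vform_smul_left (P₂ : PolyMat m (m + 2)) (c : ℝ[X]) (x y : Fin (m + 2) → ℝ[X]) :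
    vform P₂ (c • x) y = c * vform P₂ x y := by
  unfold vform
  rw [stack_two_update_left P₂ 0 (c • x) y, Matrix.det_updateRow_smul,
    ← stack_two_update_left]

theorem vform_add_right (P₂ : PolyMat m (m + 2)) (x y y' : Fin (m + 2) → ℝ[X]) :
    vform P₂ x (y + y') = vform P₂ x y + vform P₂ x y' := by
  unfold vform
  rw [stack_two_update_right P₂ x 0 (y + y'), Matrix.det_updateRow_add,
    ← stack_two_update_right, ← stack_two_update_right]

theorem vform_smul_right (P₂ : PolyMat m (m + 2)) (c : ℝ[X]) (x y : Fin (m + 2) → ℝ[X]) :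
    vform P₂ x (c • y) = c * vform P₂ x y := by
  unfold vform
  rw [stack_two_update_right P₂ x 0 (c • y), Matrix.det_updateRow_smul,
    ← stack_two_update_right]

theorem vform_self (P₂ : PolyMat m (m + 2)) (x : Fin (m + 2) → ℝ[X]) : vform P₂ x x = 0 := by
  unfold vform
  apply Matrix.det_zero_of_row_eq (i := Fin.natAdd m 0) (j := Fin.natAdd m 1)
  · intro h
    have := congrArg Fin.val h
    simp at this
  · rw [stack_natAdd, stack_natAdd]; rfl

theorem vform_swap (P₂ : PolyMat m (m + 2)) (x y : Fin (m + 2) → ℝ[X]) :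
    vform P₂ x y = - vform P₂ y x := by
  have h := vform_self P₂ (x + y)
  rw [vform_add_left, vform_add_right, vform_add_right, vform_self, vform_self] at h
  linear_combination h

theorem vform_row_left (P₂ : PolyMat m (m + 2)) (k : Fin m) (y : Fin (m + 2) → ℝ[X]) :
    vform P₂ (P₂ k) y = 0 := by
  unfold vform
  apply Matrix.det_zero_of_row_eq (i := Fin.castAdd 2 k) (j := Fin.natAdd m 0)
  · intro h
    have := congrArg Fin.val h
    simp at this
    omega
  · rw [stack_natAdd, stack_castAdd]; rfl

theorem vform_zero_left (P₂ : PolyMat m (m + 2)) (y : Fin (m + 2) → ℝ[X]) :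
    vform P₂ 0 y = 0 := by
  have := vform_smul_left P₂ 0 0 y
  rwa [zero_smul, zero_mul] at this

theorem vform_zero_right (P₂ : PolyMat m (m + 2)) (y : Fin (m + 2) → ℝ[X]) :
    vform P₂ y 0 = 0 := by
  have := vform_smul_right P₂ 0 y 0
  rwa [zero_smul, zero_mul] at this

theorem vform_sum_left {ι : Type*} (s : Finset ι) (P₂ : PolyMat m (m + 2))
    (x : ι → Fin (m + 2) → ℝ[X]) (y : Fin (m + 2) → ℝ[X]) :
    vform P₂ (∑ i ∈ s, x i) y = ∑ i ∈ s, vform P₂ (x i) y := by
  classical
  induction s using Finset.induction_on with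
  | empty => simp [vform_zero_left]
  | insert a s ha ih => rw [Finset.sum_insert ha, Finset.sum_insert ha, vform_add_left, ih]

theorem vform_sum_right {ι : Type*} (s : Finset ι) (P₂ : PolyMat m (m + 2))
    (x : Fin (m + 2) → ℝ[X]) (y : ι → Fin (m + 2) → ℝ[X]) :
    vform P₂ x (∑ i ∈ s, y i) = ∑ i ∈ s, vform P₂ x (y i) := by
  classical
  induction s using Finset.induction_on with
  | empty => simp [vform_zero_right]
  | insert a s ha ih => rw [Finset.sum_insert ha, Finset.sum_insert ha, vform_add_right, ih]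

theorem vform_eq_sum (P₂ : PolyMat m (m + 2)) (x y : Fin (m + 2) → ℝ[X]) :
    vform P₂ x y = ∑ i, ∑ j, x i * y j * ventry P₂ i j := by
  have hx : x = ∑ i, x i • (Pi.single i (1 : ℝ[X]) : Fin (m + 2) → ℝ[X]) := by
    rw [← pi_eq_sum_univ' x]
  have hy : y = ∑ i, y i • (Pi.single i (1 : ℝ[X]) : Fin (m + 2) → ℝ[X]) := by
    rw [← pi_eq_sum_univ' y]
  conv_lhs => rw [hx, hy]
  rw [vform_sum_left]
  refine Finset.sum_congr rfl fun i _ => ?_
  rw [vform_sum_right]
  refine Finset.sum_congr rfl fun j _ => ?_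
  rw [vform_smul_left, vform_smul_right, ventry]
  ring

theorem two_rows (P : PolyMat 2 (m + 2)) : two (P 0) (P 1) = P := by
  ext i j
  fin_cases i <;> rfl

theorem det_stack_eq_vform (P₂ : PolyMat m (m + 2)) (P : PolyMat 2 (m + 2)) :
    (stack P₂ P).det = vform P₂ (P 0) (P 1) := by
  unfold vform
  rw [two_rows]

/-- The three-term Plücker relation. -/
theorem vform_plucker (P₂ : PolyMat m (m + 2)) (a b x y : Fin (m + 2) → ℝ[X]) :
    vform P₂ a b * vform P₂ x y = vform P₂ x b * vform P₂ a y + vform P₂ a x * vform P₂ b y := by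
  set M := stack P₂ (two a b) with hM
  have hcr := Matrix.mulVec_cramer Mᵀ x
  rw [Matrix.det_transpose] at hcr
  -- M.det • x = ∑ k, cramer k • M k
  have hsum : M.det • x = ∑ k, (Matrix.cramer Mᵀ x k) • (M k) := by
    rw [← hcr]
    funext j
    simp only [Matrix.mulVec, dotProduct, Matrix.transpose_apply, Finset.sum_apply,
      Pi.smul_apply, smul_eq_mul]
    exact Finset.sum_congr rfl fun k _ => mul_comm _ _
  have h1 : vform P₂ (M.det • x) y = ∑ k, (Matrix.cramer Mᵀ x k) * vform P₂ (M k) y := by
    rw [hsum, vform_sum_left]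
    exact Finset.sum_congr rfl fun k _ => vform_smul_left _ _ _ _
  rw [vform_smul_left] at h1
  have h2 : M.det = vform P₂ a b := rfl
  rw [h2] at h1
  rw [h1, Fin.sum_univ_add]
  have h3 : ∑ i : Fin m, (Matrix.cramer Mᵀ x (Fin.castAdd 2 i)) *
      vform P₂ (M (Fin.castAdd 2 i)) y = 0 := by
    apply Finset.sum_eq_zero
    intro k _
    rw [hM, stack_castAdd, vform_row_left, mul_zero]
  rw [h3, zero_add, Fin.sum_univ_two]
  rw [Matrix.cramer_transpose_apply, Matrix.cramer_transpose_apply]
  rw [hM, ← stack_two_update_left, ← stack_two_update_right, stack_natAdd, stack_natAdd]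
  rfl

theorem ventry_plucker (P₂ : PolyMat m (m + 2)) (i j k l : Fin (m + 2)) :
    ventry P₂ i j * ventry P₂ k l - ventry P₂ i k * ventry P₂ j l
      + ventry P₂ i l * ventry P₂ j k = 0 := by
  have h := vform_plucker P₂ (Pi.single i 1) (Pi.single j 1) (Pi.single k 1) (Pi.single l 1)
  have h2 := vform_swap P₂ (Pi.single k 1) (Pi.single j 1)
  unfold ventry
  linear_combination h + vform P₂ (Pi.single i 1) (Pi.single l 1) * h2

theorem ventry_swap (P₂ : PolyMat m (m + 2)) (i j : Fin (m + 2)) :
    ventry P₂ i j = - ventry P₂ j i := vform_swap _ _ _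

/-- An entry of the form is a full-size minor up to sign, in terms of a permutation of the
columns. -/
theorem ventry_eq_minor (P₂ : PolyMat m (m + 2)) (σ : Equiv.Perm (Fin (m + 2))) :
    ((Equiv.Perm.sign σ : ℤ) : ℝ[X]) * ventry P₂ (σ (Fin.natAdd m 0)) (σ (Fin.natAdd m 1))
      = fullMinor P₂ (fun k => σ (Fin.castAdd 2 k)) := by
  unfold ventry vform
  rw [← Matrix.det_permute']
  set M := stack P₂ (two (Pi.single (σ (Fin.natAdd m 0)) 1) (Pi.single (σ (Fin.natAdd m 1)) 1))
    with hM
  rw [← Matrix.det_submatrix_equiv_self (finSumFinEquiv (m := m) (n := 2))]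
  have hblock : ((M.submatrix id σ).submatrix (finSumFinEquiv (m := m) (n := 2))
      (finSumFinEquiv (m := m) (n := 2))) =
      Matrix.fromBlocks (P₂.submatrix id (fun k => σ (Fin.castAdd 2 k)))
        (P₂.submatrix id (fun k => σ (Fin.natAdd m k))) 0 1 := by
    refine Matrix.ext fun i j => ?_
    rcases i with i | i <;> rcases j with j | j
    · simp only [Matrix.submatrix_apply, id_eq, Matrix.fromBlocks_apply₁₁,
        finSumFinEquiv_apply_left, hM, stack_castAdd]
    · simp only [Matrix.submatrix_apply, id_eq, Matrix.fromBlocks_apply₁₂,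
        finSumFinEquiv_apply_left, finSumFinEquiv_apply_right, hM, stack_castAdd]
    · simp only [Matrix.submatrix_apply, id_eq, Matrix.fromBlocks_apply₂₁, Matrix.zero_apply,
        finSumFinEquiv_apply_right, finSumFinEquiv_apply_left, hM, stack_natAdd]
      fin_cases i
      · simp only [two, Matrix.of_apply, Fin.zero_eta, Matrix.cons_val_zero]
        rw [Pi.single_eq_of_ne]
        intro h
        have := congrArg Fin.val (σ.injective h)
        simp at this
        omega
      · show (Pi.single (σ (Fin.natAdd m 1)) (1 : ℝ[X]) : Fin (m + 2) → ℝ[X])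
          (σ (Fin.castAdd 2 j)) = 0
        rw [Pi.single_eq_of_ne]
        intro h
        have := congrArg Fin.val (σ.injective h)
        simp at this
        omega
    · simp only [Matrix.submatrix_apply, id_eq, Matrix.fromBlocks_apply₂₂,
        finSumFinEquiv_apply_right, hM, stack_natAdd]
      fin_cases i <;> fin_cases j <;> simp [two, Pi.single_apply]
  rw [hblock, Matrix.det_fromBlocks_zero₂₁, Matrix.det_one, mul_one]
  rfl

/-- Any two distinct columns are the last two after a permutation. -/
theorem exists_perm (i j : Fin (m + 2)) (hij : i ≠ j) :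
    ∃ σ : Equiv.Perm (Fin (m + 2)), σ (Fin.natAdd m 0) = i ∧ σ (Fin.natAdd m 1) = j := by
  have hne : (Fin.natAdd m (0 : Fin 2)) ≠ Fin.natAdd m 1 := by
    intro h
    have := congrArg Fin.val h
    simp at this
  set τ := Equiv.swap (Fin.natAdd m (0 : Fin 2)) i with hτ
  have h1 : τ (Fin.natAdd m 0) = i := Equiv.swap_apply_left _ _
  refine ⟨τ.trans (Equiv.swap (τ (Fin.natAdd m 1)) j), ?_, ?_⟩
  · simp only [Equiv.trans_apply, h1]
    rw [Equiv.swap_apply_of_ne_of_ne]
    · intro h
      exact hne (τ.injective (h1.trans h))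
    · exact hij
  · simp

theorem ventry_natDegree {q : ℕ} {P₂ : PolyMat m (m + 2)} (h : HasMcMillanDegree P₂ q)
    (i j : Fin (m + 2)) : (ventry P₂ i j).natDegree ≤ q := by
  by_cases hij : i = j
  · subst hij
    rw [ventry, vform_self]; simp
  · obtain ⟨σ, h1, h2⟩ := exists_perm i j hij
    have h3 := ventry_eq_minor P₂ σ
    rw [h1, h2] at h3
    have h4 := h.1 (fun k => σ (Fin.castAdd 2 k))
    rw [← h3] at h4
    rcases Int.units_eq_one_or (Equiv.Perm.sign σ) with h5 | h5
    · simpa [h5] using h4
    · simpa [h5] using h4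

theorem exists_ventry_ne {q : ℕ} {P₂ : PolyMat m (m + 2)} (h : HasMcMillanDegree P₂ q) :
    ∃ i j, ventry P₂ i j ≠ 0 := by
  obtain ⟨e, he, -⟩ := h.2
  have hinj : Function.Injective e := by
    intro a b hab
    by_contra hne
    apply he
    unfold fullMinor
    apply Matrix.det_zero_of_column_eq hne
    intro k
    simp [hab]
  -- extend e to a permutation
  have hc : Fintype.card (Fin m ⊕ Fin 2) = Fintype.card (Fin (m + 2)) := by simp
  obtain ⟨g, hg⟩ : ∃ g : Fin (m + 2) ≃ Fin (m + 2), ∀ k : Fin m, g (Fin.castAdd 2 k) = e k := by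
    classical
    let s : Fin (m + 2) → Prop := fun x => x ∈ Set.range (Fin.castAdd (n := m) 2)
    let t : Fin (m + 2) → Prop := fun x => x ∈ Set.range e
    have hce : Function.Injective (Fin.castAdd (n := m) 2) := Fin.castAdd_injective m 2
    let e1 : {x // s x} ≃ {x // t x} :=
      (Equiv.ofInjective _ hce).symm.trans (Equiv.ofInjective e hinj)
    refine ⟨e1.extendSubtype, fun k => ?_⟩
    have hk : s (Fin.castAdd 2 k) := ⟨k, rfl⟩
    rw [Equiv.extendSubtype_apply_of_mem _ _ hk]
    have : (Equiv.ofInjective _ hce).symm ⟨Fin.castAdd 2 k, hk⟩ = k := by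
      rw [Equiv.symm_apply_eq]; rfl
    simp only [e1, Equiv.trans_apply]
    rw [this]
    rfl
  refine ⟨g (Fin.natAdd m 0), g (Fin.natAdd m 1), ?_⟩
  intro h0
  have h3 := ventry_eq_minor P₂ g
  rw [h0, mul_zero] at h3
  apply he
  have h4 : (fun k => g (Fin.castAdd 2 k)) = e := funext hg
  rw [h4] at h3
  exact h3.symm

end

end Pool.Agent.Helper730_PP
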