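import Pool.Agent.Helper730_PP.Herm

/-!
# Counting parameters of isotropic vectors of a `2 × 2` Hermitian polynomial form
-/

open Polynomial

namespace Pool.Agent.Helper730_PP

noncomputable section

theorem GoodField.I_mem {K : Subfield ℂ} (hK : GoodField K) : Complex.I ∈ K := by
  refine hK.root_mem (X ^ 2 + 1) ?_ ?_ _ ?_
  · intro h
    have := congrArg (fun p => p.coeff 2) h
    simp [coeff_one] at this
  · exact (InK.X_pow 2).add InK.one
  · simp

theorem GoodField.re_im {K : Subfield ℂ} (hK : GoodField K) {z : ℂ} (h1 : (z.re : ℂ) ∈ K)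
    (h2 : (z.im : ℂ) ∈ K) : z ∈ K := by
  rw [← Complex.re_add_im z]
  exact K.add_mem h1 (K.mul_mem h2 hK.I_mem)

theorem two_mem (K : Subfield ℂ) : (2 : ℂ) ∈ K := by
  have h : (1 : ℂ) + 1 ∈ K := K.add_mem K.one_mem K.one_mem
  rwa [one_add_one_eq_two] at h

theorem GoodField.re_mem {K : Subfield ℂ} (hK : GoodField K) {z : ℂ} (h : z ∈ K) :
    (z.re : ℂ) ∈ K := by
  rw [Complex.re_eq_add_conj]
  have h2 : (2 : ℂ) ∈ K := two_mem K
  exact K.div_mem (K.add_mem h (hK.conj_mem _ h)) h2

theorem GoodField.im_mem {K : Subfield ℂ} (hK : GoodField K) {z : ℂ} (h : z ∈ K) :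
    (z.im : ℂ) ∈ K := by
  rw [Complex.im_eq_sub_conj]
  have h2 : (2 : ℂ) ∈ K := two_mem K
  exact K.div_mem (K.sub_mem h (hK.conj_mem _ h)) (K.mul_mem h2 hK.I_mem)

/-- The real and imaginary parts of a family of complex numbers. -/
def reim {α : Type*} (A : Finset α) (g : α → ℂ) : Finset ℝ :=
  A.image (fun a => (g a).re) ∪ A.image (fun a => (g a).im)

theorem reim_card {α : Type*} (A : Finset α) (g : α → ℂ) : (reim A g).card ≤ 2 * A.card := by
  unfold reim
  refine (Finset.card_union_le _ _).trans ?_
  have h1 := Finset.card_image_le (s := A) (f := fun a => (g a).re)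
  have h2 := Finset.card_image_le (s := A) (f := fun a => (g a).im)
  omega

theorem reim_mem {K : Subfield ℂ} (hK : GoodField K) {α : Type*} {A : Finset α} {g : α → ℂ}
    (h : ∀ s ∈ reim A g, (s : ℂ) ∈ K) {a : α} (ha : a ∈ A) : g a ∈ K := by
  refine hK.re_im (h _ ?_) (h _ ?_)
  · exact Finset.mem_union_left _ (Finset.mem_image_of_mem _ ha)
  · exact Finset.mem_union_right _ (Finset.mem_image_of_mem (fun a => (g a).im) ha)

/-- The real and imaginary parts of the coefficients of index at most `d`. -/
def params (d : ℕ) (p : ℂ[X]) : Finset ℝ := reim (Finset.range (d + 1)) fun k => p.coeff k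

theorem params_card (d : ℕ) (p : ℂ[X]) : (params d p).card ≤ 2 * (d + 1) := by
  have := reim_card (Finset.range (d + 1)) fun k => p.coeff k
  rwa [Finset.card_range] at this

theorem params_mem {K : Subfield ℂ} (hK : GoodField K) {d : ℕ} {p : ℂ[X]}
    (hp : p.natDegree ≤ d) (h : ∀ s ∈ params d p, (s : ℂ) ∈ K) : InK K p := by
  intro k
  by_cases hk : k ≤ d
  · exact reim_mem hK h (Finset.mem_range.mpr (by omega))
  · rw [coeff_eq_zero_of_natDegree_lt (by omega)]
    exact K.zero_mem

theorem InK.lift {K : Subfield ℂ} {p : ℂ[X]} (hp : InK K p) :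
    ∃ p' : K[X], p'.map K.subtype = p := by
  have h1 : p ∈ Polynomial.lifts K.subtype := by
    rw [Polynomial.lifts_iff_coeff_lifts]
    intro k
    exact ⟨⟨p.coeff k, hp k⟩, rfl⟩
  exact (Polynomial.mem_lifts _).mp h1

theorem InK.of_lift {K : Subfield ℂ} (p' : K[X]) : InK K (p'.map K.subtype) := fun k => by
  rw [coeff_map]; exact (p'.coeff k).2

/-- Division of polynomials over a subfield. -/
theorem InK.quot {K : Subfield ℂ} {A B D : ℂ[X]} (hA : InK K A) (hA0 : A ≠ 0) (hD : InK K D)
    (h : A * B = D) : InK K B := by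
  obtain ⟨A', rfl⟩ := hA.lift
  obtain ⟨D', rfl⟩ := hD.lift
  have h1 : A'.map K.subtype ∣ D'.map K.subtype := ⟨B, h.symm⟩
  rw [Polynomial.map_dvd_map'] at h1
  obtain ⟨B', rfl⟩ := h1
  rw [Polynomial.map_mul] at h
  rw [mul_left_cancel₀ hA0 h]
  exact InK.of_lift B'

theorem InK.prod_roots {K : Subfield ℂ} (m : Multiset ℂ) (h : ∀ r ∈ m, r ∈ K) :
    InK K (m.map fun a => X - Polynomial.C a).prod := by
  induction m using Multiset.induction_on with
  | empty => simpa using InK.one
  | cons a m ih =>
    rw [Multiset.map_cons, Multiset.prod_cons]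
    have h1 : InK K (X - Polynomial.C a) := by
      have h2 : InK K (X : ℂ[X]) := by
        have := InK.X_pow (K := K) 1
        rwa [pow_one] at this
      exact h2.sub (InK.C (h a (Multiset.mem_cons_self a m)))
    exact h1.mul (ih fun r hr => h r (Multiset.mem_cons_of_mem hr))

/-- A divisor is a constant times a polynomial over the subfield. -/
theorem InK.dvd {K : Subfield ℂ} (hK : GoodField K) {Y Ψ : ℂ[X]} (hΨ : InK K Ψ) (hΨ0 : Ψ ≠ 0)
    (h : Y ∣ Ψ) : ∃ Y0, InK K Y0 ∧ Y = Polynomial.C Y.leadingCoeff * Y0 := by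
  refine ⟨(Y.roots.map fun a => X - Polynomial.C a).prod, ?_,
    (IsAlgClosed.splits Y).eq_prod_roots⟩
  refine InK.prod_roots _ fun r hr => ?_
  have h1 : Y.IsRoot r := (mem_roots'.mp hr).2
  refine hK.root_mem Ψ hΨ0 hΨ r ?_
  obtain ⟨Z, rfl⟩ := h
  rw [eval_mul, IsRoot.def.mp h1, zero_mul]

theorem count_gamma {n q x1 x2 : ℕ} (hx : x1 ≤ x2) {h11 h12 h22 γ1 γ2 : ℂ[X]}
    (r11 : cj h11 = h11) (r22 : cj h22 = h22)
    (d11 : h11 = 0 ∨ h11.natDegree + x1 + x1 ≤ q)
    (d12 : h12 = 0 ∨ h12.natDegree + x1 + x2 ≤ q)
    (d22 : h22 = 0 ∨ h22.natDegree + x2 + x2 ≤ q)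
    (hne : ¬ (h11 = 0 ∧ h12 = 0 ∧ h22 = 0))
    (dγ1 : γ1.natDegree ≤ n + x1) (dγ2 : γ2.natDegree ≤ n + x2)
    (heq : cj γ1 * h11 * γ1 + cj γ1 * h12 * γ2 + cj γ2 * cj h12 * γ1 + cj γ2 * h22 * γ2 = 0) :
    ∃ S : Finset ℝ, S.card ≤ max (2 * n + q + 3) (2 * n + 2 * x2 + 2) ∧
      ∀ K : Subfield ℂ, GoodField K → (∀ s ∈ S, (s : ℂ) ∈ K) → InK K h11 → InK K h12 →
        InK K h22 → InK K γ1 ∧ InK K γ2 := by
  classical
  by_cases h0 : h22 = 0
  · by_cases h1 : h12 = 0 ∨ γ1 = 0
    · -- `γ₁ = 0`
      have hγ1 : γ1 = 0 := by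
        rcases h1 with h1 | h1
        · have h2 : h11 ≠ 0 := fun h => hne ⟨h, h1, h0⟩
          rw [h0, h1, map_zero] at heq
          have h3 : cj γ1 * h11 * γ1 = 0 := by linear_combination heq
          rcases mul_eq_zero.mp h3 with h4 | h4
          · rcases mul_eq_zero.mp h4 with h5 | h5
            · exact cj_eq_zero.mp h5
            · exact absurd h5 h2
          · exact h4
        · exact h1
      refine ⟨params (n + x2) γ2, ?_, ?_⟩
      · refine (params_card _ _).trans ((le_max_right _ _).trans' ?_)
        omega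
      · intro K hK hS _ _ _
        exact ⟨by rw [hγ1]; exact InK.zero, params_mem hK dγ2 hS⟩
    · push Not at h1
      obtain ⟨h12', hγ1⟩ := h1
      set Y : ℂ[X] := h12 * γ2 + C (1 / 2) * h11 * γ1 with hY
      have hcjhalf : cj (C (1 / 2) : ℂ[X]) = C (1 / 2) := by
        unfold cj
        rw [Polynomial.coe_mapRingHom, map_C]
        congr 1
        rw [map_div₀, map_one]
        norm_num [Complex.ext_iff]
      have hhalf : (C (1 / 2) : ℂ[X]) + C (1 / 2) = 1 := by
        rw [← C_add]; norm_num
      have hcjY : cj Y = cj h12 * cj γ2 + C (1 / 2) * h11 * cj γ1 := by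
        rw [hY, map_add, map_mul, map_mul, map_mul, hcjhalf, r11]
      have hrel : cj γ1 * Y + γ1 * cj Y = 0 := by
        rw [hcjY, hY]
        rw [h0] at heq
        linear_combination heq + (cj γ1 * h11 * γ1) * hhalf
      -- the gcd
      set g : ℂ[X] := gcd γ1 Y with hg
      have hg0 : g ≠ 0 := by
        intro h
        rw [hg, gcd_eq_zero_iff] at h
        exact hγ1 h.1
      obtain ⟨ν, hν⟩ := gcd_dvd_left γ1 Y
      obtain ⟨μ, hμ⟩ := gcd_dvd_right γ1 Y
      rw [← hg] at hν hμ
      have hν0 : ν ≠ 0 := by
        rintro rfl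
        rw [mul_zero] at hν
        exact hγ1 hν
      have hcop : IsCoprime ν μ := by
        obtain ⟨a, b, hab⟩ := exists_gcd_eq_mul_add_mul γ1 Y
        rw [← hg] at hab
        refine ⟨a, b, ?_⟩
        apply mul_left_cancel₀ hg0
        rw [mul_one]
        conv_rhs => rw [hab]
        conv_rhs => rw [hν, hμ]
        ring
      -- normalize
      set l : ℂ := ν.leadingCoeff with hl
      have hl0 : l ≠ 0 := by rw [hl]; exact leadingCoeff_ne_zero.mpr hν0
      have hll : (C l : ℂ[X]) * C l⁻¹ = 1 := by rw [← C_mul, mul_inv_cancel₀ hl0, C_1]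
      set g' : ℂ[X] := C l * g with hg'
      set ν' : ℂ[X] := C l⁻¹ * ν with hν'
      set μ' : ℂ[X] := C l⁻¹ * μ with hμ'
      have e1 : γ1 = g' * ν' := by
        rw [hg', hν']
        linear_combination hν - g * ν * hll
      have e2 : Y = g' * μ' := by
        rw [hg', hμ']
        linear_combination hμ - g * μ * hll
      have hg'0 : g' ≠ 0 := by
        rw [hg']
        exact mul_ne_zero (by simpa using hl0) hg0
      have hmon : ν'.Monic := by
        rw [hν', Monic, leadingCoeff_mul, leadingCoeff_C, ← hl, inv_mul_cancel₀ hl0]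
      have hcop' : IsCoprime ν' μ' := by
        obtain ⟨a, b, hab⟩ := hcop
        refine ⟨C l * a, C l * b, ?_⟩
        rw [hν', hμ']
        linear_combination hab + (a * ν + b * μ) * hll
      have hrel2 : cj ν' * μ' + ν' * cj μ' = 0 := by
        have f1 : cj γ1 = cj g' * cj ν' := by
          have := congrArg cj e1
          rwa [map_mul] at this
        have f2 : cj Y = cj g' * cj μ' := by
          have := congrArg cj e2
          rwa [map_mul] at this
        have h2 : (cj g' * g') * (cj ν' * μ' + ν' * cj μ') = 0 := by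
          linear_combination hrel - f1 * Y - γ1 * f2 - cj g' * cj ν' * e2 - cj g' * cj μ' * e1
        rcases mul_eq_zero.mp h2 with h3 | h3
        · rcases mul_eq_zero.mp h3 with h4 | h4
          · exact absurd (cj_eq_zero.mp h4) hg'0
          · exact absurd h4 hg'0
        · exact h3
      have hdvd : ν' ∣ cj ν' := by
        have h2 : ν' ∣ cj ν' * μ' := ⟨-cj μ', by linear_combination hrel2⟩
        exact hcop'.dvd_of_dvd_mul_right h2
      have hcjmon : (cj ν').Monic := by
        unfold cj
        exact hmon.map _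
      have hνreal : cj ν' = ν' := by
        exact Polynomial.eq_of_monic_of_dvd_of_natDegree_le hmon hcjmon hdvd
          (by rw [cj_natDegree])
      have hμim : cj μ' = -μ' := by
        rw [hνreal] at hrel2
        have h2 : ν' * (μ' + cj μ') = 0 := by linear_combination hrel2
        have h3 := (mul_eq_zero.mp h2).resolve_left hmon.ne_zero
        linear_combination h3
      -- degrees
      have dg1 : g'.natDegree + ν'.natDegree ≤ n + x1 := by
        rw [← natDegree_mul hg'0 hmon.ne_zero, ← e1]; exact dγ1
      have hx12 : h12.natDegree + x1 + x2 ≤ q := d12.resolve_left h12'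
      have dY : Y.natDegree ≤ n + q - x1 := by
        rw [hY]
        refine (natDegree_add_le _ _).trans (max_le ?_ ?_)
        · refine natDegree_mul_le.trans ?_
          omega
        · by_cases h11z : h11 = 0
          · rw [h11z]; simp
          · have h2 := d11.resolve_left h11z
            refine natDegree_mul_le.trans ?_
            have h3 : (C (1 / 2) * h11 : ℂ[X]).natDegree ≤ h11.natDegree := natDegree_C_mul_le _ _
            omega
      set Nμ : ℕ := if μ' = 0 then 0 else μ'.natDegree + 1 with hNμ
      have dg2 : g'.natDegree + Nμ ≤ n + q - x1 + 1 := by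
        by_cases hz : μ' = 0
        · rw [hNμ, if_pos hz]; omega
        · rw [hNμ, if_neg hz]
          have : g'.natDegree + μ'.natDegree ≤ n + q - x1 := by
            rw [← natDegree_mul hg'0 hz, ← e2]; exact dY
          omega
      refine ⟨params g'.natDegree g' ∪ ((Finset.range ν'.natDegree).image fun k => (ν'.coeff k).re)
        ∪ ((Finset.range Nμ).image fun k => (μ'.coeff k).im), ?_, ?_⟩
      · refine (Finset.card_union_le _ _).trans ?_
        have c1 := Finset.card_union_le (params g'.natDegree g')
          ((Finset.range ν'.natDegree).image fun k => (ν'.coeff k).re)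
        have c2 := params_card g'.natDegree g'
        have c3 := Finset.card_image_le (s := Finset.range ν'.natDegree)
          (f := fun k => (ν'.coeff k).re)
        have c4 := Finset.card_image_le (s := Finset.range Nμ) (f := fun k => (μ'.coeff k).im)
        rw [Finset.card_range] at c3 c4
        refine le_trans ?_ (le_max_left _ _)
        omega
      · intro K hK hS h11K h12K _
        have hgK : InK K g' := params_mem hK le_rfl fun s hs => hS s
          (Finset.mem_union_left _ (Finset.mem_union_left _ hs))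
        have hνK : InK K ν' := by
          intro k
          rcases lt_trichotomy k ν'.natDegree with hk | hk | hk
          · have h2 : (starRingEnd ℂ) (ν'.coeff k) = ν'.coeff k := by
              rw [← cj_coeff, hνreal]
            have h3 : ((ν'.coeff k).re : ℂ) = ν'.coeff k := Complex.conj_eq_iff_re.mp h2
            rw [← h3]
            refine hS _ (Finset.mem_union_left _ (Finset.mem_union_right _ ?_))
            exact Finset.mem_image_of_mem (fun k => (ν'.coeff k).re) (Finset.mem_range.mpr hk)
          · rw [hk]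
            have : ν'.coeff ν'.natDegree = 1 := hmon
            rw [this]; exact K.one_mem
          · rw [coeff_eq_zero_of_natDegree_lt hk]; exact K.zero_mem
        have hμK : InK K μ' := by
          intro k
          by_cases hz : μ' = 0
          · rw [hz, coeff_zero]; exact K.zero_mem
          · by_cases hk : k ≤ μ'.natDegree
            · have h2 : (starRingEnd ℂ) (μ'.coeff k) = -μ'.coeff k := by
                rw [← cj_coeff, hμim, coeff_neg]
              have h3 : (μ'.coeff k).re = 0 := by
                have := congrArg Complex.re h2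
                simp only [Complex.conj_re, Complex.neg_re] at this
                linarith
              have h4 : μ'.coeff k = ((μ'.coeff k).im : ℂ) * Complex.I := by
                conv_lhs => rw [← Complex.re_add_im (μ'.coeff k), h3]
                simp
              rw [h4]
              refine K.mul_mem (hS _ (Finset.mem_union_right _ ?_)) hK.I_mem
              refine Finset.mem_image_of_mem (fun k => (μ'.coeff k).im) (Finset.mem_range.mpr ?_)
              rw [hNμ, if_neg hz]; omega
            · rw [coeff_eq_zero_of_natDegree_lt (by omega)]; exact K.zero_mem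
        have hγ1K : InK K γ1 := by rw [e1]; exact hgK.mul hνK
        have hYK : InK K Y := by rw [e2]; exact hgK.mul hμK
        have hhalfK : (1 / 2 : ℂ) ∈ K := K.div_mem K.one_mem (two_mem K)
        refine ⟨hγ1K, InK.quot h12K h12' (D := Y - C (1 / 2) * h11 * γ1) ?_ ?_⟩
        · exact hYK.sub (((InK.C hhalfK).mul h11K).mul hγ1K)
        · rw [hY]; ring
  · -- `h₂₂ ≠ 0`
    have h2 := d22.resolve_left h0
    set Y : ℂ[X] := h22 * γ2 + cj h12 * γ1 with hY
    have hcjY : cj Y = h22 * cj γ2 + h12 * cj γ1 := by
      rw [hY, map_add, map_mul, map_mul, r22, cj_cj]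
    set Ψ : ℂ[X] := (h12 * cj h12 - h11 * h22) * (cj γ1 * γ1) with hΨ
    have hrel : cj Y * Y = Ψ := by
      rw [hcjY, hY, hΨ]
      linear_combination h22 * heq
    refine ⟨params (n + x1) γ1 ∪ {Y.leadingCoeff.re}, ?_, ?_⟩
    · refine (Finset.card_union_le _ _).trans ?_
      have c1 := params_card (n + x1) γ1
      rw [Finset.card_singleton]
      refine le_trans ?_ (le_max_left _ _)
      omega
    · intro K hK hS h11K h12K h22K
      have hγ1K : InK K γ1 := params_mem hK dγ1 fun s hs => hS s (Finset.mem_union_left _ hs)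
      have hΨK : InK K Ψ :=
        ((h12K.mul (h12K.cj hK)).sub (h11K.mul h22K)).mul ((hγ1K.cj hK).mul hγ1K)
      have hYK : InK K Y := by
        by_cases hY0 : Y = 0
        · rw [hY0]; exact InK.zero
        · have hΨ0 : Ψ ≠ 0 := by
            rw [← hrel]
            exact mul_ne_zero (fun h => hY0 (cj_eq_zero.mp h)) hY0
          obtain ⟨Y0, hY0K, hYe⟩ := InK.dvd hK hΨK hΨ0 (Dvd.intro_left (cj Y) hrel)
          have hlc : Ψ.leadingCoeff = (starRingEnd ℂ) Y.leadingCoeff * Y.leadingCoeff := by
            rw [← hrel, leadingCoeff_mul]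
            congr 1
            rw [leadingCoeff, cj_coeff, cj_natDegree]
            rfl
          have hlK : (starRingEnd ℂ) Y.leadingCoeff * Y.leadingCoeff ∈ K := by
            rw [← hlc]; exact hΨK _
          have hre : (Y.leadingCoeff.re : ℂ) ∈ K :=
            hS _ (Finset.mem_union_right _ (Finset.mem_singleton_self _))
          have him : (Y.leadingCoeff.im : ℂ) ∈ K := by
            set a : ℂ := (starRingEnd ℂ) Y.leadingCoeff * Y.leadingCoeff
              - (Y.leadingCoeff.re : ℂ) * (Y.leadingCoeff.re : ℂ) with ha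
            have haK : a ∈ K := K.sub_mem hlK (K.mul_mem hre hre)
            refine hK.root_mem (X ^ 2 - C a) ?_ ?_ _ ?_
            · intro h
              have := congrArg (fun p => p.coeff 2) h
              simp [coeff_C] at this
            · exact (InK.X_pow 2).sub (InK.C haK)
            · rw [eval_sub, eval_pow, eval_X, eval_C, ha, ← Complex.normSq_eq_conj_mul_self,
                Complex.normSq_apply]
              push_cast
              ring
          rw [hYe]
          exact (InK.C (hK.re_im hre him)).mul hY0K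
      refine ⟨hγ1K, InK.quot h22K h0 (D := Y - cj h12 * γ1) (hYK.sub ((h12K.cj hK).mul hγ1K)) ?_⟩
      rw [hY]; ring

end

end Pool.Agent.Helper730_PP
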