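import Pool.Agent.Helper730_PP.Equal

/-!
# Generic gauge parameters
-/

open Polynomial

namespace Pool.Agent.Helper730_PP

noncomputable section

/-- Real numbers algebraic over a family lie in every good field containing the family. -/
theorem mem_or_transcendental {ι : Type} [Fintype ι] (t : ι → ℝ) (s : ℝ) :
    (∀ K : Subfield ℂ, GoodField K → (∀ i, (t i : ℂ) ∈ K) → (s : ℂ) ∈ K) ∨
      Transcendental (Algebra.adjoin ℚ (Set.range t)) s := by
  by_cases htr : Transcendental (Algebra.adjoin ℚ (Set.range t)) s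
  · exact Or.inr htr
  left
  intro K' hK' htK'
  have hadj : ∀ x ∈ Algebra.adjoin ℚ (Set.range t), (x : ℂ) ∈ K' := by
    intro x hx
    induction hx using Algebra.adjoin_induction with
    | mem x hx =>
      obtain ⟨i, rfl⟩ := hx
      exact htK' i
    | algebraMap r =>
      have h1 : ((algebraMap ℚ ℝ r : ℝ) : ℂ) = (r : ℂ) := by simp
      rw [h1]
      exact SubfieldClass.ratCast_mem K' r
    | add x y _ _ hx hy => rw [Complex.ofReal_add]; exact K'.add_mem hx hy
    | mul x y _ _ hx hy => rw [Complex.ofReal_mul]; exact K'.mul_mem hx hy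
  unfold Transcendental at htr
  rw [not_not] at htr
  obtain ⟨p, hp0, hp⟩ := htr
  set P : ℂ[X] := (p.map (algebraMap (Algebra.adjoin ℚ (Set.range t)) ℝ)).map
    Complex.ofRealHom with hP
  have hinj1 : Function.Injective (algebraMap (Algebra.adjoin ℚ (Set.range t)) ℝ) :=
    Subtype.val_injective
  refine hK'.root_mem P ?_ ?_ _ ?_
  · rw [hP, Polynomial.map_ne_zero_iff (RingHom.injective _),
      Polynomial.map_ne_zero_iff hinj1]
    exact hp0
  · intro k
    rw [hP, coeff_map, coeff_map]
    exact hadj _ (p.coeff k).2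
  · rw [hP]
    have h1 : eval ((Complex.ofRealHom s : ℂ))
        ((p.map (algebraMap (Algebra.adjoin ℚ (Set.range t)) ℝ)).map Complex.ofRealHom)
        = Complex.ofRealHom (eval s (p.map (algebraMap (Algebra.adjoin ℚ (Set.range t)) ℝ))) :=
      eval_map_apply _ _
    have h2 : eval s (p.map (algebraMap (Algebra.adjoin ℚ (Set.range t)) ℝ)) = 0 := by
      rw [eval_map_algebraMap]; exact hp
    rw [h2, map_zero] at h1
    exact h1

theorem exists_transcendental {ι : Type} [Fintype ι] (t : ι → ℝ) :
    ∃ s : ℝ, Transcendental (Algebra.adjoin ℚ (Set.range t)) s := by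
  by_contra hcon
  push Not at hcon
  have halg : Algebra.IsAlgebraic (Algebra.adjoin ℚ (Set.range t)) ℝ :=
    ⟨fun x => by
      have := hcon x
      unfold Transcendental at this
      rwa [not_not] at this⟩
  have h2 := Algebra.IsAlgebraic.cardinalMk_le_max (Algebra.adjoin ℚ (Set.range t)) ℝ
  have h3 : Countable (Algebra.adjoin ℚ (Set.range t)) := by
    have h4 : Countable (MvPolynomial ι ℚ) := by
      rw [← Cardinal.mk_le_aleph0_iff]
      refine (MvPolynomial.cardinalMk_le_max).trans ?_
      simp [Cardinal.mk_le_aleph0]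
    have h5 : Function.Surjective
        ((MvPolynomial.aeval (R := ℚ) t : MvPolynomial ι ℚ →ₐ[ℚ] ℝ).rangeRestrict) :=
      AlgHom.rangeRestrict_surjective _
    have h6 : Countable (MvPolynomial.aeval (R := ℚ) t : MvPolynomial ι ℚ →ₐ[ℚ] ℝ).range :=
      h5.countable
    rwa [← Algebra.adjoin_range_eq_range_aeval] at h6
  have h4 : Cardinal.mk ℝ ≤ Cardinal.aleph0 := by
    refine h2.trans (max_le ?_ le_rfl)
    exact Cardinal.mk_le_aleph0
  rw [Cardinal.mk_real] at h4
  exact absurd h4 (not_le.mpr Cardinal.aleph0_lt_continuum)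

theorem _root_.AlgebraicIndependent.cons_pp {ι : Type} {n : ℕ} {t : ι → ℝ} {g : Fin n → ℝ}
    (h : AlgebraicIndependent ℚ (Sum.elim t g)) {x : ℝ}
    (hx : Transcendental (Algebra.adjoin ℚ (Set.range (Sum.elim t g))) x) :
    AlgebraicIndependent ℚ (Sum.elim t (Fin.cons x g : Fin (n + 1) → ℝ)) := by
  have h1 := (AlgebraicIndependent.option_iff_transcendental h x).mpr hx
  set f : ι ⊕ Fin (n + 1) → Option (ι ⊕ Fin n) :=
    Sum.elim (fun i => some (Sum.inl i)) (Fin.cons none fun k => some (Sum.inr k)) with hf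
  have hfi : Function.Injective f := by
    rintro (i | k) (i' | k') h
    · simp only [hf, Sum.elim_inl, Option.some.injEq, Sum.inl.injEq] at h
      rw [h]
    · refine Fin.cases (fun h => ?_) (fun k' h => ?_) k' h
      · simp [hf] at h
      · simp [hf] at h
    · refine Fin.cases (fun h => ?_) (fun k h => ?_) k h
      · simp [hf] at h
      · simp [hf] at h
    · revert h
      refine Fin.cases ?_ (fun k => ?_) k
      · refine Fin.cases (fun _ => rfl) (fun k' h => ?_) k'
        simp [hf] at h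
      · refine Fin.cases (fun h => ?_) (fun k' h => ?_) k'
        · simp [hf] at h
        · simp only [hf, Sum.elim_inr, Fin.cons_succ, Option.some.injEq, Sum.inr.injEq] at h
          rw [h]
  have h2 := h1.comp f hfi
  convert h2 using 1
  funext x
  rcases x with i | k
  · rfl
  · refine Fin.cases ?_ (fun k => ?_) k
    · rfl
    · rfl

theorem exists_extension {ι : Type} [Fintype ι] {t : ι → ℝ} (ht : AlgebraicIndependent ℚ t) :
    ∀ n : ℕ, ∃ g : Fin n → ℝ, AlgebraicIndependent ℚ (Sum.elim t g) := by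
  intro n
  induction n with
  | zero =>
    refine ⟨Fin.elim0, ?_⟩
    have h1 : (Sum.elim t Fin.elim0 : ι ⊕ Fin 0 → ℝ) = t ∘ (Equiv.sumEmpty ι (Fin 0)) := by
      funext x
      rcases x with i | k
      · rfl
      · exact k.elim0
    rw [h1]
    exact ht.comp _ (Equiv.injective _)
  | succ n ih =>
    obtain ⟨g, hg⟩ := ih
    obtain ⟨x, hx⟩ := exists_transcendental (Sum.elim t g)
    exact ⟨_, hg.cons_pp hx⟩

/-- A finite set of reals is algebraic over an independent extension by some of its members. -/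
theorem exists_basis_ext {ι : Type} [Fintype ι] {t : ι → ℝ} (ht : AlgebraicIndependent ℚ t)
    (B : Finset ℝ) : ∃ (m : ℕ) (β : Fin m → ℝ), AlgebraicIndependent ℚ (Sum.elim t β) ∧
      (∀ K : Subfield ℂ, GoodField K → (∀ i, (t i : ℂ) ∈ K) → (∀ i, (β i : ℂ) ∈ K) →
        ∀ s ∈ B, (s : ℂ) ∈ K) := by
  classical
  induction B using Finset.induction_on with
  | empty =>
    obtain ⟨g, hg⟩ := exists_extension ht 0
    exact ⟨0, g, hg, fun K _ _ _ s hs => absurd hs (Finset.notMem_empty s)⟩
  | insert x B _ ih =>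
    obtain ⟨m, β, hβ, hB⟩ := ih
    rcases mem_or_transcendental (Sum.elim t β) x with h | h
    · refine ⟨m, β, hβ, fun K hK h1 h2 s hs => ?_⟩
      rcases Finset.mem_insert.mp hs with rfl | hs
      · exact h K hK (by rintro (i | i); exacts [h1 i, h2 i])
      · exact hB K hK h1 h2 s hs
    · refine ⟨m + 1, Fin.cons x β, hβ.cons_pp h, fun K hK h1 h2 s hs => ?_⟩
      rcases Finset.mem_insert.mp hs with rfl | hs
      · exact h2 0
      · exact hB K hK h1 (fun i => h2 i.succ) s hs

/-- Generic gauge parameters: independent reals which cost as many parameters. -/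
theorem exists_gauge {ι : Type} [Fintype ι] {t : ι → ℝ} (ht : AlgebraicIndependent ℚ t)
    (B : Finset ℝ) (n : ℕ) : ∃ g : Fin n → ℝ, AlgebraicIndependent ℚ g ∧ ∀ S : Finset ℝ,
      (∀ K : Subfield ℂ, GoodField K → (∀ s ∈ S, (s : ℂ) ∈ K) → ∀ i, (t i : ℂ) ∈ K) →
      (∀ K : Subfield ℂ, GoodField K → (∀ s ∈ S, (s : ℂ) ∈ K) → (∀ s ∈ B, (s : ℂ) ∈ K) →
        ∀ j, (g j : ℂ) ∈ K) → Fintype.card ι + n ≤ S.card := by
  classical
  obtain ⟨m, β, hβ, hB⟩ := exists_basis_ext ht B
  obtain ⟨g, hg⟩ := exists_extension hβ n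
  refine ⟨g, hg.comp Sum.inr Sum.inr_injective, fun S hS1 hS2 => ?_⟩
  have h1 := card_le_of_gen hg (S := S ∪ Finset.univ.image β) (fun K hK hSK => by
    have hS : ∀ s ∈ S, (s : ℂ) ∈ K := fun s hs => hSK s (Finset.mem_union_left _ hs)
    have hβK : ∀ i, (β i : ℂ) ∈ K := fun i =>
      hSK _ (Finset.mem_union_right _ (Finset.mem_image_of_mem β (Finset.mem_univ i)))
    have h2 := hS1 K hK hS
    have h3 := hS2 K hK hS (hB K hK h2 hβK)
    rintro ((i | i) | i)
    · exact h2 i
    · exact hβK i
    · exact h3 i)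
  rw [Fintype.card_sum, Fintype.card_sum, Fintype.card_fin, Fintype.card_fin] at h1
  have h2 := Finset.card_union_le S (Finset.univ.image β)
  have h3 : (Finset.univ.image β).card ≤ m := by
    refine Finset.card_image_le.trans ?_
    rw [Finset.card_univ, Fintype.card_fin]
  omega

end

end Pool.Agent.Helper730_PP
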