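import Pool.Agent.Helper730_PP.Count

/-!
# Hermitian forms cannot produce a generic polynomial from a generic vector
-/

open Polynomial

namespace Pool.Agent.Helper730_PP

noncomputable section

/-- The index set of the real and imaginary parts of the coefficients of `f`. -/
abbrev FIdx (c nc : ℕ) : Type := Fin c × Fin 2 × Fin (nc + 1)

/-- The real and imaginary parts of the coefficients of `f`. -/
def fpar {c : ℕ} (nc : ℕ) (f : Fin c → ℂ[X]) : FIdx c nc → ℝ := fun i =>
  if i.2.1 = 0 then ((f i.1).coeff i.2.2).re else ((f i.1).coeff i.2.2).im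

theorem fpar_mem {c nc : ℕ} {K : Subfield ℂ} (hK : GoodField K) {f : Fin c → ℂ[X]}
    (h : ∀ i : Fin c × Fin (nc + 1), (f i.1).coeff i.2 ∈ K) (i : FIdx c nc) :
    (fpar nc f i : ℂ) ∈ K := by
  unfold fpar
  split_ifs
  · exact hK.re_mem (h (i.1, i.2.2))
  · exact hK.im_mem (h (i.1, i.2.2))

theorem card_FIdx (c nc : ℕ) : Fintype.card (FIdx c nc) = 2 * (c * (nc + 1)) := by
  rw [Fintype.card_prod, Fintype.card_prod, Fintype.card_fin, Fintype.card_fin, Fintype.card_fin]
  ring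

/-- The form cannot vanish at a generic vector. -/
theorem no_zero {c nc n q : ℕ} (hc : 3 ≤ c) (hn : q * (2 * c - 1) + 4 * (c - 1) ≤ n)
    (hnc : n ≤ 2 * nc + 1) {f : Fin c → ℂ[X]} (hf : ∀ k, (f k).natDegree ≤ nc)
    (hind : AlgebraicIndependent ℚ (fpar nc f)) {H : Fin c → Fin c → ℂ[X]}
    (hH : ∀ j k, H k j = cj (H j k)) (hd : ∀ j k, (H j k).natDegree ≤ q)
    {ζ1 ζ2 : Fin c → ℂ[X]} (hi : Indep2 ζ1 ζ2) (hrow : ∀ j, InSpan ζ1 ζ2 (H j))
    (hne : ∃ j k, H j k ≠ 0) (h0 : ∑ j, ∑ k, cj (f j) * H j k * f k = 0) : False := by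
  classical
  obtain ⟨ξ1, ξ2, x1, x2, j1, j2, hmin, hj, e1, e2, e3, e4⟩ := exists_normalized hi hrow
  obtain ⟨h11, h12, h22, hred⟩ := hmin.exists_redForm hH hd
  have hu := degree_bound hmin hred
  have hle := hmin.le
  have hhne : ¬ (h11 = 0 ∧ h12 = 0 ∧ h22 = 0) := by
    rintro ⟨a1, a2, a3⟩
    obtain ⟨j, k, hjk⟩ := hne
    apply hjk
    rw [hred.form, a1, a2, a3, map_zero]; ring
  obtain ⟨s, hs0, hs1⟩ := exists_scaled hred.real11 hred.real22 hhne
  have hsC : (s : ℂ) ≠ 0 := Complex.ofReal_ne_zero.mpr hs0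
  set g1 : ℂ[X] := ∑ k, ξ1 k * f k with hg1
  set g2 : ℂ[X] := ∑ k, ξ2 k * f k with hg2
  have hval := hred.value f
  rw [h0, ← hg1, ← hg2] at hval
  have dg1 : g1.natDegree ≤ nc + x1 := natDegree_sum_le_of_forall_le _ _ fun k _ => by
    refine natDegree_mul_le.trans ?_
    have := hmin.deg1 k
    have := hf k
    omega
  have dg2 : g2.natDegree ≤ nc + x2 := natDegree_sum_le_of_forall_le _ _ fun k _ => by
    refine natDegree_mul_le.trans ?_
    have := hmin.deg2 k
    have := hf k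
    omega
  have hz : ∀ p : ℂ[X], C (s : ℂ) * p = 0 ↔ p = 0 := by
    intro p
    constructor
    · intro h
      rcases mul_eq_zero.mp h with h | h
      · exact absurd (C_eq_zero.mp h) hsC
      · exact h
    · rintro rfl; rw [mul_zero]
  have hdeg : ∀ (p : ℂ[X]) (a b : ℕ), (p = 0 ∨ p.natDegree + a + b ≤ q) →
      (C (s : ℂ) * p = 0 ∨ (C (s : ℂ) * p).natDegree + a + b ≤ q) := by
    intro p a b h
    rcases h with h | h
    · exact Or.inl ((hz p).mpr h)
    · right; rw [natDegree_C_mul hsC]; exact h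
  have r11' : cj (C (s : ℂ) * h11) = C (s : ℂ) * h11 := by
    rw [map_mul, cj_C_real, hred.real11]
  have r22' : cj (C (s : ℂ) * h22) = C (s : ℂ) * h22 := by
    rw [map_mul, cj_C_real, hred.real22]
  obtain ⟨Sγ, hSγ, hSγK⟩ := count_gamma (n := nc) (q := q) hle r11' r22'
    (hdeg _ _ _ hred.d11) (hdeg _ _ _ hred.d12) (hdeg _ _ _ hred.d22)
    (by rw [hz, hz, hz]; exact hhne) dg1 dg2
    (by rw [map_mul cj (C (s : ℂ)) h12, cj_C_real]; linear_combination (-C (s : ℂ)) * hval)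
  obtain ⟨Sξ, hSξ, hSξK⟩ := count_xi hmin hj e1 e2 e3 e4
  -- numerical facts
  have hmul : c * q + 3 * (x1 + x2) ≥ c * x1 + c * x2 + 3 * q := by
    obtain ⟨c', rfl⟩ := Nat.exists_eq_add_of_le hc
    obtain ⟨q', rfl⟩ := Nat.exists_eq_add_of_le hu
    nlinarith [Nat.zero_le (c' * q')]
  have hn' : 2 * (c * q) + 4 * c ≤ n + q + 4 := by
    obtain ⟨c', rfl⟩ := Nat.exists_eq_add_of_le hc
    have h1 : 2 * (3 + c') - 1 = 2 * c' + 5 := by omega
    have h2 : 4 * (3 + c' - 1) = 4 * c' + 8 := by omega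
    rw [h1, h2] at hn
    nlinarith [hn]
  have hcq : 3 * q ≤ c * q := Nat.mul_le_mul_right q hc
  have hnx : x1 + x2 ≤ nc + 1 := by omega
  obtain ⟨P, hP, hPK⟩ := hmin.exists_free hnx
  have hfree := reim_card (Finset.univ \ P) (fun i : Fin c × Fin (nc + 1) => (f i.1).coeff i.2)
  have hPc : (Finset.univ \ P).card + P.card = c * (nc + 1) := by
    rw [Finset.card_sdiff_add_card_eq_card (Finset.subset_univ P), Finset.card_univ,
      Fintype.card_prod, Fintype.card_fin, Fintype.card_fin]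
  set Sh : Finset ℝ := (hset (C (s : ℂ) * h11) (C (s : ℂ) * h12) (C (s : ℂ) * h22)).erase 1
    with hSh
  have hShc : Sh.card + 1 ≤ len h11 + len h22 + 2 * len h12 := by
    rw [hSh, Finset.card_erase_of_mem hs1]
    have h1 := hset_card (C (s : ℂ) * h11) (C (s : ℂ) * h12) (C (s : ℂ) * h22)
    rw [len_smul hsC, len_smul hsC, len_smul hsC] at h1
    have h2 : 0 < (hset (C (s : ℂ) * h11) (C (s : ℂ) * h12) (C (s : ℂ) * h22)).card :=
      Finset.card_pos.mpr ⟨1, hs1⟩
    omega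
  set Sf : Finset ℝ := reim (Finset.univ \ P)
    (fun i : Fin c × Fin (nc + 1) => (f i.1).coeff i.2) with hSf
  set S : Finset ℝ := Sξ ∪ Sh ∪ (Sγ ∪ Sf) with hS
  have hScard : S.card ≤ Sξ.card + Sh.card + (Sγ.card + Sf.card) := by
    refine (Finset.card_union_le _ _).trans (Nat.add_le_add ?_ ?_) <;>
      exact Finset.card_union_le _ _
  obtain ⟨K, hK, hSK, hbound⟩ := exists_goodField (S : Set ℝ)
  have hcoef : ∀ i : Fin c × Fin (nc + 1), (f i.1).coeff i.2 ∈ K := by
    obtain ⟨k1, k2⟩ := hSξK K hK fun t ht => hSK t (by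
      rw [Finset.mem_coe]; exact Finset.mem_union_left _ (Finset.mem_union_left _ ht))
    obtain ⟨k3, k4, k5⟩ := hset_InK hK r11' r22' (h12 := C (s : ℂ) * h12) (fun t ht => by
      by_cases h1 : t = 1
      · rw [h1, Complex.ofReal_one]; exact K.one_mem
      · refine hSK t ?_
        rw [Finset.mem_coe]
        exact Finset.mem_union_left _ (Finset.mem_union_right _
          (Finset.mem_erase.mpr ⟨h1, ht⟩)))
    obtain ⟨k6, k7⟩ := hSγK K hK (fun t ht => hSK t (by
      rw [Finset.mem_coe]; exact Finset.mem_union_right _ (Finset.mem_union_left _ ht))) k3 k4 k5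
    refine hPK K k1 k2 f hf k6 k7 fun i hi => ?_
    exact reim_mem hK (g := fun i : Fin c × Fin (nc + 1) => (f i.1).coeff i.2)
      (fun t ht => hSK t (by
        rw [Finset.mem_coe]; exact Finset.mem_union_right _ (Finset.mem_union_right _ ht)))
      (Finset.mem_sdiff.mpr ⟨Finset.mem_univ i, hi⟩)
  have hfin := hbound (fpar nc f) hind (fpar_mem hK hcoef)
  rw [Set.encard_coe_eq_coe_finsetCard, card_FIdx] at hfin
  have hfin' : 2 * (c * (nc + 1)) ≤ S.card := by exact_mod_cast hfin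
  -- final count
  have l11 := len_le hred.d11
  have l12 := len_le hred.d12
  have l22 := len_le hred.d22
  have m1 : c * (x1 + 1) = c * x1 + c := by ring
  have m2 : c * (x2 + 1) = c * x2 + c := by ring
  rw [m1, m2] at hSξ
  have hmax1 : x2 - x1 ≤ max 1 (x2 - x1) := le_max_right _ _
  have hmax2 : 1 ≤ max 1 (x2 - x1) := le_max_left _ _
  by_cases hx : 2 * x2 ≤ q
  · have hγ : max (2 * nc + q + 3) (2 * nc + 2 * x2 + 2) = 2 * nc + q + 3 := by omega
    rw [hγ] at hSγ
    omega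
  · have hγ : max (2 * nc + q + 3) (2 * nc + 2 * x2 + 2) = 2 * nc + 2 * x2 + 2 := by omega
    rw [hγ] at hSγ
    have : x2 - x1 + x1 = x2 := by omega
    omega

/-- The complex polynomial of a real polynomial. -/
def io : ℝ[X] →+* ℂ[X] := Polynomial.mapRingHom Complex.ofRealHom

theorem io_coeff (p : ℝ[X]) (k : ℕ) : (io p).coeff k = ((p.coeff k : ℝ) : ℂ) := by
  unfold io
  rw [Polynomial.coe_mapRingHom, coeff_map]
  rfl

/-- The form cannot take an independent generic value at a generic vector. -/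
theorem no_one {c nc n q : ℕ} (hc : 3 ≤ c) (hn : q * (2 * c - 1) + 4 * (c - 1) ≤ n)
    {f : Fin c → ℂ[X]}
    {φ : ℝ[X]} (hind : AlgebraicIndependent ℚ
      (Sum.elim (fpar nc f) (fun k : Fin (n + q + 1) => φ.coeff k)))
    (hf : ∀ k, (f k).natDegree ≤ nc)
    {H : Fin c → Fin c → ℂ[X]}
    (hH : ∀ j k, H k j = cj (H j k)) (hd : ∀ j k, (H j k).natDegree ≤ q)
    {ζ1 ζ2 : Fin c → ℂ[X]} (hi : Indep2 ζ1 ζ2) (hrow : ∀ j, InSpan ζ1 ζ2 (H j))
    (h0 : ∑ j, ∑ k, cj (f j) * H j k * f k = io φ) : False := by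
  classical
  obtain ⟨ξ1, ξ2, x1, x2, j1, j2, hmin, hj, e1, e2, e3, e4⟩ := exists_normalized hi hrow
  obtain ⟨h11, h12, h22, hred⟩ := hmin.exists_redForm hH hd
  have hu := degree_bound hmin hred
  have hle := hmin.le
  obtain ⟨Sξ, hSξ, hSξK⟩ := count_xi hmin hj e1 e2 e3 e4
  have hmul : c * q + 2 * (x1 + x2) ≥ c * x1 + c * x2 + 2 * q := by
    obtain ⟨c', rfl⟩ := Nat.exists_eq_add_of_le hc
    obtain ⟨q', rfl⟩ := Nat.exists_eq_add_of_le hu
    nlinarith [Nat.zero_le (c' * q')]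
  have hn' : 2 * (c * q) + 4 * c ≤ n + q + 4 := by
    obtain ⟨c', rfl⟩ := Nat.exists_eq_add_of_le hc
    have h1 : 2 * (3 + c') - 1 = 2 * c' + 5 := by omega
    have h2 : 4 * (3 + c' - 1) = 4 * c' + 8 := by omega
    rw [h1, h2] at hn
    nlinarith [hn]
  set Sh : Finset ℝ := hset h11 h12 h22 with hSh
  have hShc : Sh.card ≤ len h11 + len h22 + 2 * len h12 := hset_card _ _ _
  set Sf : Finset ℝ := Finset.univ.image (fpar nc f) with hSf
  have hSfc : Sf.card ≤ 2 * (c * (nc + 1)) := by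
    refine Finset.card_image_le.trans ?_
    rw [Finset.card_univ, card_FIdx]
  set S : Finset ℝ := Sξ ∪ Sh ∪ Sf with hS
  have hScard : S.card ≤ Sξ.card + Sh.card + Sf.card := by
    refine (Finset.card_union_le _ _).trans (Nat.add_le_add ?_ le_rfl)
    exact Finset.card_union_le _ _
  obtain ⟨K, hK, hSK, hbound⟩ := exists_goodField (S : Set ℝ)
  obtain ⟨k1, k2⟩ := hSξK K hK fun t ht => hSK t (by
    rw [Finset.mem_coe]; exact Finset.mem_union_left _ (Finset.mem_union_left _ ht))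
  obtain ⟨k3, k4, k5⟩ := hset_InK hK hred.real11 hred.real22 (h12 := h12) (fun t ht => hSK t (by
    rw [Finset.mem_coe]; exact Finset.mem_union_left _ (Finset.mem_union_right _ ht)))
  have hfp : ∀ i : FIdx c nc, (fpar nc f i : ℂ) ∈ K := fun i => hSK _ (by
    rw [Finset.mem_coe]
    exact Finset.mem_union_right _ (Finset.mem_image_of_mem _ (Finset.mem_univ i)))
  have hfK : ∀ k, InK K (f k) := by
    intro k l
    by_cases hl : l < nc + 1
    · have a1 := hfp (k, 0, ⟨l, hl⟩)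
      have a2 := hfp (k, 1, ⟨l, hl⟩)
      unfold fpar at a1 a2
      rw [if_pos rfl] at a1
      rw [if_neg (by simp)] at a2
      exact hK.re_im a1 a2
    · rw [coeff_eq_zero_of_natDegree_lt (lt_of_le_of_lt (hf k) (by omega))]
      exact K.zero_mem
  have hHK : ∀ j k, InK K (H j k) := by
    intro j k
    rw [hred.form]
    exact ((((((k1 j).cj hK).mul k3).mul (k1 k)).add ((((k1 j).cj hK).mul k4).mul (k2 k))).add
      ((((k2 j).cj hK).mul (k4.cj hK)).mul (k1 k))).add ((((k2 j).cj hK).mul k5).mul (k2 k))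
  have hφK : InK K (io φ) := by
    rw [← h0]
    exact InK.sum _ fun j _ => InK.sum _ fun k _ =>
      (((hfK j).cj hK).mul (hHK j k)).mul (hfK k)
  have hfin := hbound _ hind (by
    rintro (i | k)
    · exact hfp i
    · have := hφK k
      rw [io_coeff] at this
      exact this)
  rw [Set.encard_coe_eq_coe_finsetCard, Fintype.card_sum, card_FIdx, Fintype.card_fin] at hfin
  have hfin' : 2 * (c * (nc + 1)) + (n + q + 1) ≤ S.card := by exact_mod_cast hfin
  -- final count
  have l11 := len_le hred.d11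
  have l12 := len_le hred.d12
  have l22 := len_le hred.d22
  have m1 : c * (x1 + 1) = c * x1 + c := by ring
  have m2 : c * (x2 + 1) = c * x2 + c := by ring
  rw [m1, m2] at hSξ
  have hmax1 : x2 - x1 ≤ max 1 (x2 - x1) := le_max_right _ _
  have hmax2 : 1 ≤ max 1 (x2 - x1) := le_max_left _ _
  have : x2 - x1 + x1 = x2 := by omega
  by_cases hx : 2 * x2 ≤ q
  · omega
  · omega

end

end Pool.Agent.Helper730_PP
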