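import Pool.Agent.Helper730_PP.Surj

/-!
# Hermitian polynomial matrices of rank at most two in reduced form
-/

open Polynomial

namespace Pool.Agent.Helper730_PP

noncomputable section

/-- Complex conjugation of the coefficients. -/
def cj : ℂ[X] →+* ℂ[X] := Polynomial.mapRingHom (starRingEnd ℂ)

theorem cj_coeff (p : ℂ[X]) (k : ℕ) : (cj p).coeff k = (starRingEnd ℂ) (p.coeff k) := by
  unfold cj
  rw [Polynomial.coe_mapRingHom, coeff_map]

theorem cj_cj (p : ℂ[X]) : cj (cj p) = p := by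
  ext k
  rw [cj_coeff, cj_coeff, Complex.conj_conj]

theorem cj_injective : Function.Injective cj := fun a b h => by
  rw [← cj_cj a, ← cj_cj b, h]

theorem cj_eq_zero {p : ℂ[X]} : cj p = 0 ↔ p = 0 := by
  constructor
  · intro h; exact cj_injective (by rw [h, map_zero])
  · rintro rfl; exact map_zero _

theorem cj_natDegree (p : ℂ[X]) : (cj p).natDegree = p.natDegree := by
  unfold cj
  rw [Polynomial.coe_mapRingHom]
  exact natDegree_map_eq_of_injective (RingHom.injective _) p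

theorem InK.cj {K : Subfield ℂ} (hK : GoodField K) {p : ℂ[X]} (hp : InK K p) :
    InK K (Helper730_PP.cj p) := fun k => by
  rw [cj_coeff]; exact hK.conj_mem _ (hp k)

theorem coeff_mul_topC {u g : ℂ[X]} {e M : ℕ} (hu : u = 0 ∨ u.natDegree + e ≤ M)
    (hg : g.natDegree ≤ e) : (u * g).coeff M = u.coeff (M - e) * g.coeff e := by
  rcases hu with rfl | hu
  · simp
  · have h1 : M = (M - e) + e := by omega
    conv_lhs => rw [h1]
    exact coeff_mul_add_eq_of_natDegree_le (by omega) hg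

/-- The predictable degree property. -/
theorem predictableC {c n e e0 e1 : ℕ} {q0 q1 : Fin c → ℂ[X]} {u v : ℂ[X]}
    (h0 : ∀ j, (q0 j).natDegree ≤ e0) (h1 : ∀ j, (q1 j).natDegree ≤ e1)
    (hind : ∀ α β : ℂ, (∀ j, α * (q0 j).coeff e0 + β * (q1 j).coeff e1 = 0) → α = 0 ∧ β = 0)
    (hr : ∀ j, u * q0 j + v * q1 j = 0 ∨ (u * q0 j + v * q1 j).natDegree + e ≤ n) :
    (u = 0 ∨ u.natDegree + e0 + e ≤ n) ∧ (v = 0 ∨ v.natDegree + e1 + e ≤ n) := by
  by_cases huv : u = 0 ∧ v = 0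
  · exact ⟨Or.inl huv.1, Or.inl huv.2⟩
  set A : ℕ := if u = 0 then 0 else u.natDegree + e0 with hA
  set B : ℕ := if v = 0 then 0 else v.natDegree + e1 with hB
  have hu : u = 0 ∨ u.natDegree + e0 ≤ max A B := by
    by_cases h : u = 0
    · exact Or.inl h
    · right; rw [hA, if_neg h]; exact le_max_left _ _
  have hv : v = 0 ∨ v.natDegree + e1 ≤ max A B := by
    by_cases h : v = 0
    · exact Or.inl h
    · right; rw [hB, if_neg h]; exact le_max_right _ _
  have hM : max A B + e ≤ n := by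
    by_contra hcon
    push Not at hcon
    have key : ∀ j, u.coeff (max A B - e0) * (q0 j).coeff e0
        + v.coeff (max A B - e1) * (q1 j).coeff e1 = 0 := by
      intro j
      rw [← coeff_mul_topC hu (h0 j), ← coeff_mul_topC hv (h1 j), ← coeff_add]
      rcases hr j with h | h
      · rw [h, coeff_zero]
      · exact coeff_eq_zero_of_natDegree_lt (by omega)
    obtain ⟨k1, k2⟩ := hind _ _ key
    rcases le_total A B with hAB | hAB
    · rw [max_eq_right hAB] at k1 k2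
      by_cases hv0 : v = 0
      · have hB0 : B = 0 := by rw [hB, if_pos hv0]
        have hA0 : A = 0 := by omega
        have hu0 : u ≠ 0 := fun h => huv ⟨h, hv0⟩
        rw [hA, if_neg hu0] at hA0
        rw [hB0] at k1
        have h5 : u.natDegree = 0 := by omega
        rw [Nat.zero_sub, ← h5] at k1
        exact hu0 (leadingCoeff_eq_zero.mp k1)
      · rw [hB, if_neg hv0, Nat.add_sub_cancel] at k2
        exact hv0 (leadingCoeff_eq_zero.mp k2)
    · rw [max_eq_left hAB] at k1 k2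
      by_cases hu0 : u = 0
      · have hA0 : A = 0 := by rw [hA, if_pos hu0]
        have hB0 : B = 0 := by omega
        have hv0 : v ≠ 0 := fun h => huv ⟨hu0, h⟩
        rw [hB, if_neg hv0] at hB0
        rw [hA0] at k2
        have h5 : v.natDegree = 0 := by omega
        rw [Nat.zero_sub, ← h5] at k2
        exact hv0 (leadingCoeff_eq_zero.mp k2)
      · rw [hA, if_neg hu0, Nat.add_sub_cancel] at k1
        exact hu0 (leadingCoeff_eq_zero.mp k1)
  refine ⟨hu.imp id (fun h => ?_), hv.imp id (fun h => ?_)⟩ <;> omega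

/-- The reduced form of a Hermitian polynomial matrix whose rows lie in a plane. -/
structure RedForm {c : ℕ} (H : Fin c → Fin c → ℂ[X]) (ξ1 ξ2 : Fin c → ℂ[X]) (x1 x2 q : ℕ)
    (h11 h12 h22 : ℂ[X]) : Prop where
  real11 : cj h11 = h11
  real22 : cj h22 = h22
  form : ∀ j k, H j k = cj (ξ1 j) * h11 * ξ1 k + cj (ξ1 j) * h12 * ξ2 k
    + cj (ξ2 j) * cj h12 * ξ1 k + cj (ξ2 j) * h22 * ξ2 k
  d11 : h11 = 0 ∨ h11.natDegree + x1 + x1 ≤ q
  d12 : h12 = 0 ∨ h12.natDegree + x1 + x2 ≤ q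
  d22 : h22 = 0 ∨ h22.natDegree + x2 + x2 ≤ q

theorem MinPair.exists_redForm {c q : ℕ} {H : Fin c → Fin c → ℂ[X]} {ξ1 ξ2 : Fin c → ℂ[X]}
    {x1 x2 : ℕ} (h : MinPair H ξ1 ξ2 x1 x2) (hH : ∀ j k, H k j = cj (H j k))
    (hd : ∀ j k, (H j k).natDegree ≤ q) :
    ∃ h11 h12 h22, RedForm H ξ1 ξ2 x1 x2 q h11 h12 h22 := by
  obtain ⟨η1, η2, e11, e21, e12, e22⟩ := h.rightInv
  have hrow : ∀ j, ∃ α β : ℂ[X], ∀ k, H j k = α * ξ1 k + β * ξ2 k := fun j =>
    h.exists_coeffs (h.rows j)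
  choose α β hαβ using hrow
  set h11 : ℂ[X] := ∑ k, cj (α k) * η1 k with hh11
  set h21 : ℂ[X] := ∑ k, cj (β k) * η1 k with hh21
  set h12 : ℂ[X] := ∑ k, cj (α k) * η2 k with hh12
  set h22 : ℂ[X] := ∑ k, cj (β k) * η2 k with hh22
  have hHerm : ∀ j k, H j k = cj (ξ1 j) * cj (α k) + cj (ξ2 j) * cj (β k) := by
    intro j k
    rw [hH k j, hαβ k j, map_add, map_mul, map_mul]; ring
  have hα : ∀ j, α j = cj (ξ1 j) * h11 + cj (ξ2 j) * h21 := by
    intro j
    have h1 : ∑ k, H j k * η1 k = α j := by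
      have : ∑ k, H j k * η1 k = α j * ∑ k, ξ1 k * η1 k + β j * ∑ k, ξ2 k * η1 k := by
        rw [Finset.mul_sum, Finset.mul_sum, ← Finset.sum_add_distrib]
        exact Finset.sum_congr rfl fun k _ => by rw [hαβ j k]; ring
      rw [this, e11, e21]; ring
    rw [← h1, hh11, hh21, Finset.mul_sum, Finset.mul_sum, ← Finset.sum_add_distrib]
    exact Finset.sum_congr rfl fun k _ => by rw [hHerm j k]; ring
  have hβ : ∀ j, β j = cj (ξ1 j) * h12 + cj (ξ2 j) * h22 := by
    intro j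
    have h1 : ∑ k, H j k * η2 k = β j := by
      have : ∑ k, H j k * η2 k = α j * ∑ k, ξ1 k * η2 k + β j * ∑ k, ξ2 k * η2 k := by
        rw [Finset.mul_sum, Finset.mul_sum, ← Finset.sum_add_distrib]
        exact Finset.sum_congr rfl fun k _ => by rw [hαβ j k]; ring
      rw [this, e12, e22]; ring
    rw [← h1, hh12, hh22, Finset.mul_sum, Finset.mul_sum, ← Finset.sum_add_distrib]
    exact Finset.sum_congr rfl fun k _ => by rw [hHerm j k]; ring
  have hcjsum : ∀ (a b : Fin c → ℂ[X]), cj (∑ k, cj (a k) * b k) = ∑ k, a k * cj (b k) := by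
    intro a b
    rw [map_sum]
    exact Finset.sum_congr rfl fun k _ => by rw [map_mul, cj_cj]
  have hcjs2 : ∀ (a b : Fin c → ℂ[X]), ∑ k, cj (a k) * cj (b k) = cj (∑ k, a k * b k) := by
    intro a b
    rw [map_sum]
    exact Finset.sum_congr rfl fun k _ => by rw [map_mul]
  have r11 : cj h11 = h11 := by
    rw [hh11, hcjsum]
    have : ∑ k, α k * cj (η1 k) = h11 * ∑ k, cj (ξ1 k) * cj (η1 k)
        + h21 * ∑ k, cj (ξ2 k) * cj (η1 k) := by
      rw [Finset.mul_sum, Finset.mul_sum, ← Finset.sum_add_distrib]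
      exact Finset.sum_congr rfl fun k _ => by rw [hα k]; ring
    rw [this, hcjs2, hcjs2, e11, e21, map_one, map_zero]; ring
  have r12 : cj h12 = h21 := by
    rw [hh12, hcjsum]
    have : ∑ k, α k * cj (η2 k) = h11 * ∑ k, cj (ξ1 k) * cj (η2 k)
        + h21 * ∑ k, cj (ξ2 k) * cj (η2 k) := by
      rw [Finset.mul_sum, Finset.mul_sum, ← Finset.sum_add_distrib]
      exact Finset.sum_congr rfl fun k _ => by rw [hα k]; ring
    rw [this, hcjs2, hcjs2, e12, e22, map_one, map_zero]; ring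
  have r22 : cj h22 = h22 := by
    rw [hh22, hcjsum]
    have : ∑ k, β k * cj (η2 k) = h12 * ∑ k, cj (ξ1 k) * cj (η2 k)
        + h22 * ∑ k, cj (ξ2 k) * cj (η2 k) := by
      rw [Finset.mul_sum, Finset.mul_sum, ← Finset.sum_add_distrib]
      exact Finset.sum_congr rfl fun k _ => by rw [hβ k]; ring
    rw [this, hcjs2, hcjs2, e12, e22, map_one, map_zero]; ring
  -- degrees
  have hpred : ∀ j, (α j = 0 ∨ (α j).natDegree + x1 + 0 ≤ q) ∧
      (β j = 0 ∨ (β j).natDegree + x2 + 0 ≤ q) := fun j =>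
    predictableC h.deg1 h.deg2 h.reduced (fun k => Or.inr (by rw [← hαβ j k]; exact hd j k))
  have hcd1 : ∀ k, (cj (ξ1 k)).natDegree ≤ x1 := fun k => by rw [cj_natDegree]; exact h.deg1 k
  have hcd2 : ∀ k, (cj (ξ2 k)).natDegree ≤ x2 := fun k => by rw [cj_natDegree]; exact h.deg2 k
  have hcred : ∀ a b : ℂ, (∀ k, a * (cj (ξ1 k)).coeff x1 + b * (cj (ξ2 k)).coeff x2 = 0) →
      a = 0 ∧ b = 0 := by
    intro a b hab
    have h1 := h.reduced ((starRingEnd ℂ) a) ((starRingEnd ℂ) b) (fun k => by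
      have h2 := congrArg (starRingEnd ℂ) (hab k)
      rw [map_add, map_mul, map_mul, cj_coeff, cj_coeff, Complex.conj_conj, Complex.conj_conj,
        map_zero] at h2
      exact h2)
    exact ⟨(map_eq_zero _).mp h1.1, (map_eq_zero _).mp h1.2⟩
  have p1 := predictableC (n := q) (e := x1) (u := h11) (v := h21) hcd1 hcd2 hcred (fun j => by
    have h1 : h11 * cj (ξ1 j) + h21 * cj (ξ2 j) = α j := by rw [hα j]; ring
    rw [h1]
    exact (hpred j).1.imp id (fun h2 => by omega))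
  have p2 := predictableC (n := q) (e := x2) (u := h12) (v := h22) hcd1 hcd2 hcred (fun j => by
    have h1 : h12 * cj (ξ1 j) + h22 * cj (ξ2 j) = β j := by rw [hβ j]; ring
    rw [h1]
    exact (hpred j).2.imp id (fun h2 => by omega))
  refine ⟨h11, h12, h22, r11, r22, fun j k => ?_, p1.1, p2.1, p2.2⟩
  rw [hαβ j k, hα j, hβ j, r12]; ring

/-- The value of the form. -/
theorem RedForm.value {c q : ℕ} {H : Fin c → Fin c → ℂ[X]} {ξ1 ξ2 : Fin c → ℂ[X]}
    {x1 x2 : ℕ} {h11 h12 h22 : ℂ[X]} (h : RedForm H ξ1 ξ2 x1 x2 q h11 h12 h22)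
    (f : Fin c → ℂ[X]) :
    ∑ j, ∑ k, cj (f j) * H j k * f k
      = cj (∑ k, ξ1 k * f k) * h11 * (∑ k, ξ1 k * f k)
        + cj (∑ k, ξ1 k * f k) * h12 * (∑ k, ξ2 k * f k)
        + cj (∑ k, ξ2 k * f k) * cj h12 * (∑ k, ξ1 k * f k)
        + cj (∑ k, ξ2 k * f k) * h22 * (∑ k, ξ2 k * f k) := by
  have key : ∀ (a b : Fin c → ℂ[X]) (g : ℂ[X]), cj (∑ k, a k * f k) * g * (∑ k, b k * f k)
      = ∑ j, ∑ k, cj (f j) * (cj (a j) * g * b k) * f k := by
    intro a b g
    rw [map_sum, Finset.sum_mul, Finset.sum_mul]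
    refine Finset.sum_congr rfl fun j _ => ?_
    rw [Finset.mul_sum]
    refine Finset.sum_congr rfl fun k _ => ?_
    rw [map_mul]; ring
  rw [key, key, key, key, ← Finset.sum_add_distrib, ← Finset.sum_add_distrib,
    ← Finset.sum_add_distrib]
  refine Finset.sum_congr rfl fun j _ => ?_
  rw [← Finset.sum_add_distrib, ← Finset.sum_add_distrib, ← Finset.sum_add_distrib]
  refine Finset.sum_congr rfl fun k _ => ?_
  rw [h.form j k]; ring

end

end Pool.Agent.Helper730_PP
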