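import Pool.Agent.Helper730_PP.Quot

/-!
# The complex hull of a real lattice
-/

open Polynomial

namespace Pool.Agent.Helper730_PP

noncomputable section

theorem exists_hull2 {c m : ℕ} {δ : Fin m → ℕ} {η : Fin m → Fin c × Fin 2 → ℝ[X]}
    (hη : RB (w2 w0) δ η) :
    ∃ (e : ℕ) (δ0 : Fin e → ℕ) (ω : Fin e → Fin c → ℂ[X]) (s : ℕ) (h : Fin s → ℕ)
      (ξ : Fin s → Fin c → ℂ[X]) (ss : ℕ) (hs : Fin ss → ℕ) (ξs : Fin ss → Fin c → ℂ[X]),
      RB w0 δ0 ω ∧ lat ω = cmax (lat η) ∧ Monotone h ∧ RB w0 h ξ ∧ RB w0 hs ξs ∧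
      lat ξs = perp (lat fun k => cx (η k)) ∧ lat ξ = perp (lat ξs) ∧
      ss + s = c ∧ ∑ i, hs i = ∑ i, h i ∧ s + e = m ∧ ∑ i, h i + ∑ i, δ0 i ≤ ∑ i, δ i := by
  classical
  obtain ⟨e, δ0, ω, hδ0, hω, hωlat⟩ := exists_RB (w0 (ι := Fin c)) (cmax (lat η))
  set cs : Fin m → Fin c → ℂ[X] := fun k => cx (η k) with hcs
  obtain ⟨ss, hs, ξs, -, hξs, hξslat⟩ := exists_RB (w0 (ι := Fin c)) (perp (lat cs))
  obtain ⟨s, h, ξ, hh, hξ, hξlat⟩ := exists_RB (w0 (ι := Fin c)) (perp (lat ξs))
  have hw : ∀ j : Fin c, w0 j + w0 j = 0 := fun _ => rfl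
  have hc1 := (perp_le hw hξs.fil hξ hξlat.symm).1
  have hc2 := card_le_of_perp_complex hξs.li hξ.li (fun k => by
    rw [← hξlat]; exact Submodule.subset_span ⟨k, rfl⟩)
  rw [Fintype.card_fin, Fintype.card_fin, Fintype.card_fin] at hc1 hc2
  have hcc : ss + s = c := by omega
  have hsum := perp_eq hw hξs hξ hξlat.symm (by rw [hξlat, hξslat, perp_perp_perp])
    (by rw [Fintype.card_fin, Fintype.card_fin, Fintype.card_fin]; omega)
  have hsum' : ∑ i, hs i = ∑ i, h i := by
    simpa using hsum.symm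
  have hcsξ : ∀ k, cs k ∈ lat ξ := by
    intro k
    rw [hξlat, hξslat]
    exact le_perp_perp _ (Submodule.subset_span ⟨k, rfl⟩)
  have hull := hull_le hη hξ hω hcsξ hωlat.ge
  rw [Fintype.card_fin, Fintype.card_fin, Fintype.card_fin] at hull
  -- the set `T`
  obtain ⟨T, hT1, hT2⟩ := exists_maximal_fun (rfam ω) η (fun p hp => by
    have h1 := hω.real.li
    rw [Fintype.linearIndependent_iff] at h1
    funext x
    exact h1 p hp x)
  have hcardsum : Fintype.card ((Fin e × Fin 2) ⊕ T) = 2 * e + T.card := by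
    rw [Fintype.card_sum, Fintype.card_prod, Fintype.card_fin, Fintype.card_fin, Fintype.card_coe,
      mul_comm]
  have hTge : m ≤ 2 * e + T.card := by
    have h1 := card_le_of_torsion (f := Sum.elim (rfam ω) (fun k : T => η k)) hη.li (fun k => by
      by_cases hk : k ∈ T
      · refine ⟨1, one_ne_zero, ?_⟩
        rw [one_smul]
        exact Submodule.subset_span ⟨Sum.inr ⟨k, hk⟩, rfl⟩
      · obtain ⟨p, q, hq, hqk, hpq⟩ := hT2 k hk
        exact ⟨q k, hqk, rel_mem_span hk hq hpq⟩)
    rwa [Fintype.card_fin, hcardsum] at h1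
  have hTli : LinearIndependent ℝ[X] (Sum.elim (rfam ω) (fun k : T => η k)) := by
    rw [Fintype.linearIndependent_iff]
    intro g hg
    rw [Fintype.sum_sum_type] at hg
    simp only [Sum.elim_inl, Sum.elim_inr] at hg
    have h1 := hT1 (fun x => g (Sum.inl x)) (fun k => if hk : k ∈ T then g (Sum.inr ⟨k, hk⟩) else 0)
      (fun k hk => by simp [hk]) (by
        rw [← hg]
        congr 1
        rw [← Finset.sum_subset (Finset.subset_univ T)]
        · rw [← Finset.sum_coe_sort T]
          exact Finset.sum_congr rfl fun k _ => by simp [k.2]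
        · intro k _ hk
          simp [hk])
    rintro (x | ⟨k, hk⟩)
    · exact congrFun h1.1 x
    · have h2 := congrFun h1.2 k
      simpa [hk] using h2
  have hrfam : ∀ x, rfam ω x ∈ lat η := by
    intro x
    have h1 : rfam ω x ∈ rl (lat ω) := by
      rw [← lat_rfam]; exact Submodule.subset_span ⟨x, rfl⟩
    rw [hωlat] at h1
    exact rl_cmax_le _ h1
  have hTle : 2 * e + T.card ≤ m := by
    have h1 := card_le_of_torsion (f := η) hTli (fun x => by
      refine ⟨1, one_ne_zero, ?_⟩
      rw [one_smul]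
      rcases x with x | k
      · exact hrfam x
      · exact Submodule.subset_span ⟨k, rfl⟩)
    rwa [Fintype.card_fin, hcardsum] at h1
  -- the kernel statement
  have hker : ∀ r : Fin c → ℂ[X], (∀ j, dotL (ω j) r = 0) → (∀ k ∈ T, dotL (cs k) r = 0) →
      ∀ k, dotL (cs k) r = 0 := by
    intro r hr1 hr2 k
    by_cases hk : k ∈ T
    · exact hr2 k hk
    · obtain ⟨p, q, hq, hqk, hpq⟩ := hT2 k hk
      have h1 := congrArg (fun v => dotL r (cx v)) hpq
      simp only [cx_add, cx_zero, map_add, map_zero] at h1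
      rw [cx_sum_rfam, map_sum, Finset.sum_eq_zero, zero_add, cx_sum, map_sum,
        Finset.sum_eq_single k] at h1
      · rw [cx_smul, map_smul, smul_eq_mul] at h1
        rcases mul_eq_zero.mp h1 with h2 | h2
        · exact absurd (io_eq_zero.mp h2) hqk
        · rw [dotL_comm]; exact h2
      · intro l _ hl
        by_cases hlT : l ∈ T
        · rw [cx_smul, map_smul, dotL_comm]
          have := hr2 l hlT
          rw [this, smul_zero]
        · rw [hq l (fun h => by
            rcases Finset.mem_insert.mp h with h | h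
            · exact hl h
            · exact hlT h), zero_smul, cx_zero, map_zero]
      · intro h; exact absurd (Finset.mem_univ _) h
      · intro j _
        rw [map_smul, dotL_comm, hr1 j, smul_zero]
  have hωcs : ∀ j, ω j ∈ lat cs := by
    intro j
    have h1 := hrfam (j, 0)
    rw [rfam_zero] at h1
    obtain ⟨p, hp⟩ := mem_lat.mp h1
    have h2 := congrArg cx hp
    rw [cx_rx, cx_sum] at h2
    rw [← h2]
    refine Submodule.sum_mem _ fun k _ => ?_
    rw [cx_smul]
    exact Submodule.smul_mem _ _ (Submodule.subset_span ⟨k, rfl⟩)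
  have hperp2 : perp (lat (Sum.elim ω (fun k : T => cs k))) = lat ξs := by
    rw [hξslat]
    apply le_antisymm
    · intro r hr
      rw [mem_perp_lat] at hr ⊢
      exact hker r (fun j => hr (Sum.inl j)) (fun k hk => hr (Sum.inr ⟨k, hk⟩))
    · apply perp_anti
      unfold lat
      rw [Submodule.span_le]
      rintro _ ⟨x | k, rfl⟩
      · exact hωcs x
      · exact Submodule.subset_span ⟨k, rfl⟩
  have hs2 := (perp_le hw (δ := Sum.elim δ0 (fun k : T => δ k))
    (η := Sum.elim ω (fun k : T => cs k)) (by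
      rintro (j | k)
      · exact hω.fil j
      · exact cx_mem_Lv.mpr (hη.fil k)) hξs hperp2).1
  rw [Fintype.card_fin, Fintype.card_sum, Fintype.card_fin, Fintype.card_coe,
    Fintype.card_fin] at hs2
  have hse : s + e = m := by
    have := hull.1
    omega
  exact ⟨e, δ0, ω, s, h, ξ, ss, hs, ξs, hω, hωlat, hh, hξ, hξs, hξslat, hξlat, hcc, hsum', hse,
    hull.2 (by omega)⟩

end

end Pool.Agent.Helper730_PP
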