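import Pool.Agent.Helper730_PP.DualData

/-!
# The complex hull of a real lattice: degrees and parameters
-/

open Polynomial

namespace Pool.Agent.Helper730_PP

noncomputable section

/-- The zero weight. -/
abbrev w0 {ι : Type*} : ι → ℕ := fun _ => 0

theorem rel_mem_span {R M : Type*} [CommRing R] [AddCommGroup M] [Module R M] {κ κ0 : Type*}
    [Fintype κ] [DecidableEq κ] [Fintype κ0] {u : κ0 → M} {v : κ → M} {T : Finset κ} {k : κ}
    (hk : k ∉ T) {p : κ0 → R} {q : κ → R} (hq : ∀ l, l ∉ insert k T → q l = 0)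
    (h : ∑ x, p x • u x + ∑ l, q l • v l = 0) :
    q k • v k ∈ Submodule.span R (Set.range (Sum.elim u (fun l : T => v l))) := by
  have h1 : q k • v k = -(∑ x, p x • u x) - ∑ l ∈ Finset.univ.erase k, q l • v l := by
    rw [← Finset.add_sum_erase Finset.univ (fun l => q l • v l) (Finset.mem_univ k)] at h
    exact eq_sub_of_add_eq (eq_neg_of_add_eq_zero_right h)
  rw [h1]
  refine Submodule.sub_mem _ (Submodule.neg_mem _ (Submodule.sum_mem _ fun x _ =>
    Submodule.smul_mem _ _ (Submodule.subset_span ⟨Sum.inl x, rfl⟩)))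
    (Submodule.sum_mem _ fun l hl => ?_)
  by_cases hlT : l ∈ T
  · exact Submodule.smul_mem _ _ (Submodule.subset_span ⟨Sum.inr ⟨l, hlT⟩, rfl⟩)
  · have : q l = 0 := hq l (fun h => by
      rcases Finset.mem_insert.mp h with h | h
      · exact (Finset.mem_erase.mp hl).1 h
      · exact hlT h)
    rw [this, zero_smul]
    exact Submodule.zero_mem _

theorem exists_hull_data {c m : ℕ} {δ : Fin m → ℕ} (hδ : Monotone δ)
    {η : Fin m → Fin c × Fin 2 → ℝ[X]} (hη : RB (w2 w0) δ η) :
    ∃ (e : ℕ) (δ0 : Fin e → ℕ) (ω : Fin e → Fin c → ℂ[X]) (s : ℕ) (h : Fin s → ℕ)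
      (ss : ℕ) (hs : Fin ss → ℕ) (ξs : Fin ss → Fin c → ℂ[X]) (T : Finset (Fin m))
      (S3 S4 : Finset ℝ),
      Monotone δ0 ∧ RB w0 δ0 ω ∧ lat ω = cmax (lat η) ∧ Monotone h ∧ RB w0 hs ξs ∧
      (∀ r : Fin c → ℂ[X], (∀ j, dotL (ω j) r = 0) → (∀ k ∈ T, dotL (cx (η k)) r = 0) →
        r ∈ lat ξs) ∧
      ss + s = c ∧ ∑ i, hs i = ∑ i, h i ∧ s + e = m ∧ 2 * e + T.card = m ∧
      ∑ i, h i + ∑ i, δ0 i ≤ ∑ i, δ i ∧
      (∀ (j : Fin s) (i : Fin m), (i : ℕ) = j + e → h j ≤ δ i) ∧
      S3.card + 2 * ∑ i, ∑ l, (h i + 1 - h l) ≤ 2 * ∑ i, c * (h i + 1) ∧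
      S4.card + ∑ k, ∑ l, (δ k + 1 - δ l) ≤ ∑ k, 2 * ∑ j, (δ k + 1 - h j) ∧
      ∀ F₁ : Subfield ℝ, (∀ x ∈ S3, x ∈ F₁) → (∀ x ∈ S4, x ∈ F₁) →
        ∀ t, Dfn F₁ (lev (lat η) (w2 w0) t) := by
  classical
  obtain ⟨e, δ0, ω, hδ0, hω, hωlat⟩ := exists_RB (w0 (ι := Fin c)) (cmax (lat η))
  set cs : Fin m → Fin c → ℂ[X] := fun k => cx (η k) with hcs
  obtain ⟨ss, hs, ξs, -, hξs, hξslat⟩ := exists_RB (w0 (ι := Fin c)) (perp (lat cs))
  obtain ⟨s, h, ξ, hh, hξ, hξlat⟩ := exists_RB (w0 (ι := Fin c)) (perp (lat ξs))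
  have hw : ∀ j : Fin c, w0 j + w0 j = 0 := fun _ => rfl
  have hc1 := (perp_le hw hξs.fil hξ hξlat.symm).1
  have hc2 := card_le_of_perp_complex hξs.li hξ.li (fun k => by
    rw [← hξlat]; exact Submodule.subset_span ⟨k, rfl⟩)
  rw [Fintype.card_fin, Fintype.card_fin, Fintype.card_fin] at hc1 hc2
  have hcc : ss + s = c := by omega
  have hsum := perp_eq hw hξs hξ hξlat.symm (by rw [hξlat, hξslat, perp_perp_perp])
    (by rw [Fintype.card_fin, Fintype.card_fin, Fintype.card_fin]; omega)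
  have hsum' : ∑ i, hs i = ∑ i, h i := by
    simpa using hsum.symm
  have hcsξ : ∀ k, cs k ∈ lat ξ := by
    intro k
    rw [hξlat, hξslat]
    exact le_perp_perp _ (Submodule.subset_span ⟨k, rfl⟩)
  have hull := hull_le hη hξ hω hcsξ hωlat.ge
  rw [Fintype.card_fin, Fintype.card_fin, Fintype.card_fin] at hull
  -- the set `T`
  obtain ⟨T, hT1, hT2⟩ := exists_maximal_fun (rfam ω) η (fun p hp => by
    have h1 := hω.real.li
    rw [Fintype.linearIndependent_iff] at h1
    funext x
    exact h1 p hp x)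
  have hcardsum : Fintype.card ((Fin e × Fin 2) ⊕ T) = 2 * e + T.card := by
    rw [Fintype.card_sum, Fintype.card_prod, Fintype.card_fin, Fintype.card_fin, Fintype.card_coe,
      mul_comm]
  have hTge : m ≤ 2 * e + T.card := by
    have h1 := card_le_of_torsion (f := Sum.elim (rfam ω) (fun k : T => η k)) hη.li (fun k => by
      by_cases hk : k ∈ T
      · refine ⟨1, one_ne_zero, ?_⟩
        rw [one_smul]
        exact Submodule.subset_span ⟨Sum.inr ⟨k, hk⟩, rfl⟩
      · obtain ⟨p, q, hq, hqk, hpq⟩ := hT2 k hk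
        exact ⟨q k, hqk, rel_mem_span hk hq hpq⟩)
    rwa [Fintype.card_fin, hcardsum] at h1
  have hTli : LinearIndependent ℝ[X] (Sum.elim (rfam ω) (fun k : T => η k)) := by
    rw [Fintype.linearIndependent_iff]
    intro g hg
    rw [Fintype.sum_sum_type] at hg
    simp only [Sum.elim_inl, Sum.elim_inr] at hg
    have h1 := hT1 (fun x => g (Sum.inl x)) (fun k => if hk : k ∈ T then g (Sum.inr ⟨k, hk⟩) else 0)
      (fun k hk => by simp [hk]) (by
        rw [← hg]
        congr 1
        rw [← Finset.sum_subset (Finset.subset_univ T)]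
        · rw [← Finset.sum_coe_sort T]
          exact Finset.sum_congr rfl fun k _ => by simp [k.2]
        · intro k _ hk
          simp [hk])
    rintro (x | ⟨k, hk⟩)
    · exact congrFun h1.1 x
    · have h2 := congrFun h1.2 k
      simpa [hk] using h2
  have hrfam : ∀ x, rfam ω x ∈ lat η := by
    intro x
    have h1 : rfam ω x ∈ rl (lat ω) := by
      rw [← lat_rfam]; exact Submodule.subset_span ⟨x, rfl⟩
    rw [hωlat] at h1
    exact rl_cmax_le _ h1
  have hTle : 2 * e + T.card ≤ m := by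
    have h1 := card_le_of_torsion (f := η) hTli (fun x => by
      refine ⟨1, one_ne_zero, ?_⟩
      rw [one_smul]
      rcases x with x | k
      · exact hrfam x
      · exact Submodule.subset_span ⟨k, rfl⟩)
    rwa [Fintype.card_fin, hcardsum] at h1
  -- the kernel statement
  have hker : ∀ r : Fin c → ℂ[X], (∀ j, dotL (ω j) r = 0) → (∀ k ∈ T, dotL (cs k) r = 0) →
      ∀ k, dotL (cs k) r = 0 := by
    intro r hr1 hr2 k
    by_cases hk : k ∈ T
    · exact hr2 k hk
    · obtain ⟨p, q, hq, hqk, hpq⟩ := hT2 k hk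
      have h1 := congrArg (fun v => dotL r (cx v)) hpq
      simp only [cx_add, cx_zero, map_add, map_zero] at h1
      rw [cx_sum_rfam, map_sum, Finset.sum_eq_zero, zero_add, cx_sum, map_sum,
        Finset.sum_eq_single k] at h1
      · rw [cx_smul, map_smul, smul_eq_mul] at h1
        rcases mul_eq_zero.mp h1 with h2 | h2
        · exact absurd (io_eq_zero.mp h2) hqk
        · rw [dotL_comm]; exact h2
      · intro l _ hl
        by_cases hlT : l ∈ T
        · rw [cx_smul, map_smul, dotL_comm]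
          have := hr2 l hlT
          rw [this, smul_zero]
        · rw [hq l (fun h => by
            rcases Finset.mem_insert.mp h with h | h
            · exact hl h
            · exact hlT h), zero_smul, cx_zero, map_zero]
      · intro h; exact absurd (Finset.mem_univ _) h
      · intro j _
        rw [map_smul, dotL_comm, hr1 j, smul_zero]
  have hωcs : ∀ j, ω j ∈ lat cs := by
    intro j
    have h1 := hrfam (j, 0)
    rw [rfam_zero] at h1
    obtain ⟨p, hp⟩ := mem_lat.mp h1
    have h2 := congrArg cx hp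
    rw [cx_rx, cx_sum] at h2
    rw [← h2]
    refine Submodule.sum_mem _ fun k _ => ?_
    rw [cx_smul]
    exact Submodule.smul_mem _ _ (Submodule.subset_span ⟨k, rfl⟩)
  have hperp2 : perp (lat (Sum.elim ω (fun k : T => cs k))) = lat ξs := by
    rw [hξslat]
    apply le_antisymm
    · intro r hr
      rw [mem_perp_lat] at hr ⊢
      exact hker r (fun j => hr (Sum.inl j)) (fun k hk => hr (Sum.inr ⟨k, hk⟩))
    · apply perp_anti
      unfold lat
      rw [Submodule.span_le]
      rintro _ ⟨x | k, rfl⟩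
      · exact hωcs x
      · exact Submodule.subset_span ⟨k, rfl⟩
  have hs2 := (perp_le hw (δ := Sum.elim δ0 (fun k : T => δ k))
    (η := Sum.elim ω (fun k : T => cs k)) (by
      rintro (j | k)
      · exact hω.fil j
      · exact cx_mem_Lv.mpr (hη.fil k)) hξs hperp2).1
  rw [Fintype.card_fin, Fintype.card_sum, Fintype.card_fin, Fintype.card_coe,
    Fintype.card_fin] at hs2
  have hse : s + e = m := by
    have := hull.1
    omega
  -- parameters
  obtain ⟨S, hS, hSF⟩ := hξ.exists_params' (F₀ := ⊥) (Z := ⊤) le_top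
    (fun t => dfn_lev_top w0 t)
  set S3 : Finset ℝ := reim S id with hS3
  set F₃ : Subfield ℝ := Subfield.closure (S3 : Set ℝ) with hF₃
  have hle : lat η ≤ rl (lat ξ) := by
    unfold lat
    rw [Submodule.span_le]
    rintro _ ⟨k, rfl⟩
    exact hcsξ k
  obtain ⟨S4, hS4, hSF4⟩ := hη.exists_params' (F₀ := F₃) (Z := rl (lat ξ)) hle (fun t =>
    (hSF (cplx F₃) bot_le (fun x hx => reim_cplx (A := S) (g := id)
      (fun y hy => Subfield.subset_closure hy) hx) t).real)
  refine ⟨e, δ0, ω, s, h, ss, hs, ξs, T, S3, S4, hδ0, hω, hωlat, hh, hξs, ?_, hcc, hsum', hse,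
    by omega, hull.2 (by omega), ?_, ?_, ?_, ?_⟩
  · intro r hr1 hr2
    rw [hξslat, mem_perp_lat]
    exact hker r hr1 hr2
  · intro j i hij
    by_contra hcon
    push Not at hcon
    set f : Fin (i + 1) → Fin m := Fin.castLE i.2 with hf
    set g : Fin j → Fin s := Fin.castLE j.2.le with hg
    have h1 := hη.comp f (Fin.castLE_injective _)
    have h2 := hξ.comp g (Fin.castLE_injective _)
    have h3 := (hull_le h1 h2 hω (fun k => ?_) ?_).1
    · rw [Fintype.card_fin, Fintype.card_fin, Fintype.card_fin] at h3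
      omega
    · obtain ⟨p, hp⟩ := mem_lat.mp (hcsξ (f k))
      have hfk : f k ≤ i := by
        rw [hf, Fin.le_def, Fin.val_castLE]
        exact Nat.lt_succ_iff.mp k.2
      have h4 := hξ.pd p (δ i + 1) (by
        rw [hp]
        exact Lv_mono (by have := hδ hfk; omega) (cx_mem_Lv.mpr (hη.fil (f k))))
      show cs (f k) ∈ _
      rw [← hp]
      refine Submodule.sum_mem _ fun l _ => ?_
      by_cases hl : l < j
      · exact Submodule.smul_mem _ _ (Submodule.subset_span ⟨⟨l, hl⟩, rfl⟩)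
      · have h5 : p l = 0 := by
          ext t
          rw [coeff_zero]
          have := hh (not_lt.mp hl)
          exact h4 l t (by omega)
        rw [h5, zero_smul]
        exact Submodule.zero_mem _
    · rw [hωlat]
      refine cmax_mono ?_
      unfold lat
      rw [Submodule.span_le]
      rintro _ ⟨k, rfl⟩
      exact Submodule.subset_span ⟨f k, rfl⟩
  · have h1 : ∀ i, Module.finrank ℂ (lev (⊤ : Submodule ℂ[X] (Fin c → ℂ[X])) w0 (h i + 1))
        = c * (h i + 1) := fun i => by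
      rw [lev_top, finrank_Lv]
      simp
    rw [Finset.sum_congr rfl fun i _ => h1 i] at hS
    have h2 : S3.card ≤ 2 * S.card := reim_card S id
    omega
  · have h1 : ∀ k, Module.finrank ℝ (lev (rl (lat ξ)) (w2 w0) (δ k + 1))
        = 2 * ∑ j, (δ k + 1 - h j) := fun k => finrank_lev_rl hξ _
    rwa [Finset.sum_congr rfl fun k _ => h1 k] at hS4
  · intro F₁ hF3 hF4
    refine hSF4 F₁ ?_ hF4
    rw [hF₃, Subfield.closure_le]
    exact hF3

end

end Pool.Agent.Helper730_PP
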