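import Pool.Agent.Helper730_PP.Bridge

/-!
# Maximal independent families over a domain, and further facts on rational lattices
-/

open Polynomial

namespace Pool.Agent.Helper730_PP

noncomputable section

section general

variable {R M : Type*} [CommRing R] [IsDomain R] [AddCommGroup M] [Module R M]

theorem li_of_fun {κ : Type*} [Fintype κ] [DecidableEq κ] (P : κ → Prop) [DecidablePred P]
    (v : κ → M) (h : ∀ p : κ → R, (∀ k, ¬ P k → p k = 0) → ∑ k, p k • v k = 0 → p = 0) :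
    LinearIndependent R (fun k : {k // P k} => v k) := by
  rw [Fintype.linearIndependent_iff]
  intro g hg ⟨k, hk⟩
  set p : κ → R := fun k => if hk : P k then g ⟨k, hk⟩ else 0 with hp
  have h1 : ∑ k, p k • v k = ∑ k : {k // P k}, g k • v k := by
    have h2 : ∑ k : {k // P k}, g k • v k = ∑ k : {k // P k}, p k • v k :=
      Finset.sum_congr rfl fun k _ => by rw [hp]; simp [k.2]
    rw [h2, ← Finset.sum_subtype (Finset.univ.filter P) (fun x => by simp) fun k => p k • v k]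
    rw [Finset.sum_filter]
    refine Finset.sum_congr rfl fun k _ => ?_
    split_ifs with hk
    · rfl
    · rw [hp]; simp [hk]
  have h2 := h p (fun k hk => by rw [hp]; simp [hk]) (by rw [h1]; exact hg)
  have h3 := congrFun h2 k
  rw [hp] at h3
  simpa [hk] using h3

theorem exists_maximal_fun {κ κ0 : Type*} [Fintype κ] [DecidableEq κ] [Fintype κ0]
    (u : κ0 → M) (v : κ → M) (hu : ∀ p : κ0 → R, ∑ x, p x • u x = 0 → p = 0) :
    ∃ T : Finset κ, (∀ (p : κ0 → R) (q : κ → R), (∀ k, k ∉ T → q k = 0) →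
        ∑ x, p x • u x + ∑ k, q k • v k = 0 → p = 0 ∧ q = 0) ∧
      ∀ k, k ∉ T → ∃ (p : κ0 → R) (q : κ → R), (∀ l, l ∉ insert k T → q l = 0) ∧ q k ≠ 0 ∧
        ∑ x, p x • u x + ∑ k, q k • v k = 0 := by
  classical
  set P : Finset κ → Prop := fun T => ∀ (p : κ0 → R) (q : κ → R), (∀ k, k ∉ T → q k = 0) →
        ∑ x, p x • u x + ∑ k, q k • v k = 0 → p = 0 ∧ q = 0 with hP
  have h0 : P ∅ := by
    intro p q hq h
    have hq0 : q = 0 := funext fun k => hq k (Finset.notMem_empty k)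
    rw [hq0] at h ⊢
    refine ⟨hu p ?_, rfl⟩
    simpa using h
  obtain ⟨T, hT, hmax⟩ := Finset.exists_max_image (Finset.univ.filter P) Finset.card
    ⟨∅, Finset.mem_filter.mpr ⟨Finset.mem_univ _, h0⟩⟩
  have hTP : P T := (Finset.mem_filter.mp hT).2
  refine ⟨T, hTP, fun k hk => ?_⟩
  by_contra hcon
  push Not at hcon
  have h1 : P (insert k T) := by
    intro p q hq h
    have hqk : q k = 0 := by
      by_contra hne
      exact hcon p q hq hne h
    refine hTP p q (fun l hl => ?_) h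
    by_cases hlk : l = k
    · rw [hlk]; exact hqk
    · exact hq l (fun h => by rcases Finset.mem_insert.mp h with h | h <;> contradiction)
  have h2 := hmax _ (Finset.mem_filter.mpr ⟨Finset.mem_univ _, h1⟩)
  rw [Finset.card_insert_of_notMem hk] at h2
  omega

theorem card_le_of_torsion {κ κ' : Type*} [Fintype κ] [Fintype κ'] {v : κ → M} {f : κ' → M}
    (hv : LinearIndependent R v)
    (h : ∀ k, ∃ z : R, z ≠ 0 ∧ z • v k ∈ Submodule.span R (Set.range f)) :
    Fintype.card κ ≤ Fintype.card κ' := by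
  classical
  choose z hz hzv using h
  have hli : LinearIndependent R fun k => z k • v k := by
    rw [Fintype.linearIndependent_iff] at hv ⊢
    intro g hg k
    have h1 := hv (fun k => g k * z k) (by
      rw [← hg]
      exact Finset.sum_congr rfl fun k _ => mul_smul _ _ _) k
    rcases mul_eq_zero.mp h1 with h | h
    · exact h
    · exact absurd h (hz k)
  have : Fintype (Set.range f) := Fintype.ofFinite _
  have h2 := linearIndependent_le_span' (fun k => z k • v k) hli (Set.range f) (by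
    rintro _ ⟨k, rfl⟩
    exact hzv k)
  rw [Cardinal.mk_fintype, Nat.cast_le] at h2
  refine h2.trans ?_
  have h3 := Fintype.card_range_le f
  convert h3

end general

/-! ### Rationality -/

section rational

variable {F : Type*} [Field F] {ι ι' : Type*}

theorem RB.exists_params' [Finite ι] {κ : Type*} [Fintype κ] {w : ι → ℕ} {δ : κ → ℕ}
    {η : κ → ι → F[X]} (h : RB w δ η) {F₀ : Subfield F} {Z : Submodule F[X] (ι → F[X])}
    (hle : lat η ≤ Z) (hZ : ∀ t, Dfn F₀ (lev Z w t)) :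
    ∃ S : Finset F, S.card + ∑ k, ∑ l, (δ k + 1 - δ l)
        ≤ ∑ k, Module.finrank F (lev Z w (δ k + 1)) ∧
      ∀ F₁ : Subfield F, F₀ ≤ F₁ → (∀ s ∈ S, s ∈ F₁) → ∀ t, Dfn F₁ (lev (lat η) w t) := by
  obtain ⟨S, hS, hSF⟩ := h.exists_params hle hZ
  refine ⟨S, ?_, hSF⟩
  refine (Nat.add_le_add_right hS _).trans ?_
  rw [← Finset.sum_add_distrib]
  refine Finset.sum_le_sum fun k _ => ?_
  have h1 := Submodule.finrank_mono (lev_mono (w := w) hle (le_refl (δ k + 1)))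
  rw [h.finrank_lev] at h1
  omega

theorem Dfn.perp_map [Fintype ι] [Fintype ι'] {F₀ : Subfield F} {Λ : Submodule F[X] (ι → F[X])}
    {w : ι → ℕ} (h : ∀ t, Dfn F₀ (lev Λ w t)) (f : (ι → F[X]) →ₗ[F[X]] (ι' → F[X]))
    (hf : ∀ v, IsRat F₀ v → IsRat F₀ (f v)) (w' : ι' → ℕ) (t : ℕ) :
    Dfn F₀ (lev (perp (Λ.map f)) w' t) := by
  intro π r hr
  rw [mem_lev] at hr ⊢
  refine ⟨?_, dfn_Lv w' t π r hr.2⟩
  rintro _ ⟨v, hv, rfl⟩
  obtain ⟨s, hs⟩ := exists_mem_Lv w v
  have h1 : v ∈ lev Λ w s := mem_lev.mpr ⟨hv, hs⟩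
  rw [← (h s).eq_span] at h1
  have h2 : Submodule.span F {v | v ∈ lev Λ w s ∧ IsRat F₀ v}
      ≤ LinearMap.ker (((dotL (Pv π r)) ∘ₗ f).restrictScalars F) := by
    rw [Submodule.span_le]
    rintro x ⟨hx, hxr⟩
    rw [SetLike.mem_coe, LinearMap.mem_ker]
    show dotL (Pv π r) (f x) = 0
    rw [dotL_comm]
    refine dfn_perp (S := {f x}) (fun y hy => ?_) π (fun y hy => ?_) _ rfl
    · rw [Set.mem_singleton_iff.mp hy]; exact hf x hxr
    · rw [Set.mem_singleton_iff.mp hy]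
      exact hr.1 _ ⟨x, (mem_lev.mp hx).1, rfl⟩
  have h3 := h2 h1
  rw [LinearMap.mem_ker] at h3
  rw [dotL_comm]
  exact h3

theorem Dfn.perp [Fintype ι] {F₀ : Subfield F} {Λ : Submodule F[X] (ι → F[X])}
    {w : ι → ℕ} (h : ∀ t, Dfn F₀ (lev Λ w t)) (w' : ι → ℕ) (t : ℕ) :
    Dfn F₀ (lev (perp Λ) w' t) := by
  have h1 := Dfn.perp_map h LinearMap.id (fun _ hv => hv) w' t
  rwa [Submodule.map_id] at h1

theorem dfn_lev_top {F₀ : Subfield F} (w : ι → ℕ) (t : ℕ) :
    Dfn F₀ (lev (⊤ : Submodule F[X] (ι → F[X])) w t) := by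
  rw [lev_top]; exact dfn_Lv w t

/-- A nonzero rational subspace contains a nonzero rational vector. -/
theorem Dfn.exists_ne [Finite ι] {F₀ : Subfield F} {W : Submodule F (ι → F[X])} (h : Dfn F₀ W)
    {v : ι → F[X]} (hv : v ∈ W) (hv0 : v ≠ 0) : ∃ r ∈ W, IsRat F₀ r ∧ r ≠ 0 := by
  by_contra hcon
  push Not at hcon
  rw [← h.eq_span] at hv
  have h1 : Submodule.span F {v | v ∈ W ∧ IsRat F₀ v} = ⊥ := by
    rw [Submodule.span_eq_bot]
    rintro x ⟨hx, hxr⟩
    exact hcon x hx hxr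
  rw [h1, Submodule.mem_bot] at hv
  exact hv0 hv

end rational

/-! ### Rotations -/

section rot

variable {ι : Type*}

/-- Multiplication by a complex constant. -/
def rotL (ι : Type*) (ζ : ℂ) : (ι × Fin 2 → ℝ[X]) →ₗ[ℝ[X]] (ι × Fin 2 → ℝ[X]) where
  toFun v := rx ((C ζ : ℂ[X]) • cx v)
  map_add' u v := by rw [cx_add, smul_add, rx_add]
  map_smul' p v := by rw [cx_smul, smul_comm, rx_io_smul, RingHom.id_apply]

theorem rotL_apply (ζ : ℂ) (v : ι × Fin 2 → ℝ[X]) : rotL ι ζ v = rx ((C ζ : ℂ[X]) • cx v) := rfl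

theorem cx_rotL (ζ : ℂ) (v : ι × Fin 2 → ℝ[X]) : cx (rotL ι ζ v) = (C ζ : ℂ[X]) • cx v := by
  rw [rotL_apply, cx_rx]

theorem rotL_rotL (ζ ζ' : ℂ) (v : ι × Fin 2 → ℝ[X]) :
    rotL ι ζ (rotL ι ζ' v) = rotL ι (ζ * ζ') v := by
  apply cx_injective
  rw [cx_rotL, cx_rotL, cx_rotL, smul_smul, C_mul]

theorem rotL_one (v : ι × Fin 2 → ℝ[X]) : rotL ι 1 v = v := by
  apply cx_injective
  rw [cx_rotL, C_1, one_smul]

theorem C_smul_mem_Lv {F : Type*} [Field F] {w : ι → ℕ} {t : ℕ} {v : ι → F[X]}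
    (hv : v ∈ Lv F w t) (ζ : F) : (C ζ : F[X]) • v ∈ Lv F w t := by
  intro j k hk
  rw [Pi.smul_apply, smul_eq_mul, coeff_C_mul, hv j k hk, mul_zero]

theorem rotL_mem_Lv {w : ι → ℕ} {t : ℕ} {v : ι × Fin 2 → ℝ[X]} (hv : v ∈ Lv ℝ (w2 w) t) (ζ : ℂ) :
    rotL ι ζ v ∈ Lv ℝ (w2 w) t := by
  rw [← cx_mem_Lv, cx_rotL]
  exact C_smul_mem_Lv (cx_mem_Lv.mpr hv) ζ

theorem RB.rot {κ : Type*} [Fintype κ] {w : ι → ℕ} {δ : κ → ℕ} {η : κ → ι × Fin 2 → ℝ[X]}
    (h : RB (w2 w) δ η) {ζ : ℂ} (hζ : ζ ≠ 0) : RB (w2 w) δ (fun k => rotL ι ζ (η k)) := by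
  refine ⟨fun k => rotL_mem_Lv (h.fil k) ζ, fun p t hp => h.pd p t ?_⟩
  have h1 : ∑ k, p k • rotL ι ζ (η k) = rotL ι ζ (∑ k, p k • η k) := by
    rw [map_sum]
    exact Finset.sum_congr rfl fun k _ => (map_smul _ _ _).symm
  rw [h1] at hp
  have h2 := rotL_mem_Lv hp ζ⁻¹
  rwa [rotL_rotL, inv_mul_cancel₀ hζ, rotL_one] at h2

theorem cmax_mono {U U' : Submodule ℝ[X] (ι × Fin 2 → ℝ[X])} (h : U ≤ U') :
    cmax U ≤ cmax U' := fun _ hz => ⟨h hz.1, h hz.2⟩

/-- Rank and degree of a real lattice, its complex hull, and its largest complex sublattice. -/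
theorem hull_le [Finite ι] {w : ι → ℕ} {κ κ' κ'' : Type*} [Fintype κ] [Fintype κ'] [Fintype κ'']
    {δ : κ → ℕ} {ρ : κ → ι × Fin 2 → ℝ[X]} (hρ : RB (w2 w) δ ρ)
    {h : κ' → ℕ} {ξ : κ' → ι → ℂ[X]} (hξ : RB w h ξ)
    {δ0 : κ'' → ℕ} {ω : κ'' → ι → ℂ[X]} (hω : RB w δ0 ω)
    (h1 : ∀ k, cx (ρ k) ∈ lat ξ) (h2 : cmax (lat ρ) ≤ lat ω) :
    Fintype.card κ ≤ Fintype.card κ' + Fintype.card κ'' ∧
      (Fintype.card κ = Fintype.card κ' + Fintype.card κ'' →
        ∑ k, h k + ∑ k, δ0 k ≤ ∑ k, δ k) := by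
  have key : ∀ t, ∑ k, (t - δ k) ≤ ∑ k, (t - h k) + ∑ k, (t - δ0 k) := by
    intro t
    set R := lev (lat ρ) (w2 w) t with hR
    set J : (ι × Fin 2 → ℝ[X]) →ₗ[ℝ] (ι × Fin 2 → ℝ[X]) :=
      (rotL ι Complex.I).restrictScalars ℝ with hJ
    have hJi : Function.Injective J := by
      intro a b hab
      have h3 : rotL ι Complex.I a = rotL ι Complex.I b := hab
      have h4 := congrArg (rotL ι (Complex.I)⁻¹) h3
      rwa [rotL_rotL, rotL_rotL, inv_mul_cancel₀ Complex.I_ne_zero, rotL_one, rotL_one] at h4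
    have hfJ : Module.finrank ℝ (R.map J) = Module.finrank ℝ R :=
      (Submodule.equivMapOfInjective J hJi R).symm.finrank_eq
    have hRle : ∀ v ∈ lat ρ, cx v ∈ lat ξ := by
      intro v hv
      have h3 : lat ρ ≤ rl (lat ξ) := by
        unfold lat
        rw [Submodule.span_le]
        rintro _ ⟨k, rfl⟩
        exact h1 k
      exact h3 hv
    have hsup : R ⊔ R.map J ≤ lev (rl (lat ξ)) (w2 w) t := by
      refine sup_le ?_ ?_
      · intro v hv
        rw [hR, mem_lev] at hv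
        rw [mem_lev, mem_rl]
        exact ⟨hRle v hv.1, hv.2⟩
      · rintro _ ⟨v, hv, rfl⟩
        rw [SetLike.mem_coe, hR, mem_lev] at hv
        rw [mem_lev, mem_rl]
        refine ⟨?_, rotL_mem_Lv hv.2 _⟩
        show cx (rotL ι Complex.I v) ∈ lat ξ
        rw [cx_rotL]
        exact Submodule.smul_mem _ _ (hRle v hv.1)
    have hinf : R ⊓ R.map J ≤ lev (rl (lat ω)) (w2 w) t := by
      rintro v ⟨hv, ⟨u, hu, huv⟩⟩
      rw [SetLike.mem_coe, hR, mem_lev] at hv hu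
      rw [mem_lev, mem_rl]
      refine ⟨h2 ⟨by rw [rx_cx]; exact hv.1, ?_⟩, hv.2⟩
      have h3 : rotL ι Complex.I u = v := huv
      have h4 : rx (II • cx v) = - u := by
        rw [← h3, cx_rotL]
        have h5 : (II : ℂ[X]) • (C Complex.I : ℂ[X]) • cx u = - cx u := by
          rw [smul_smul]
          have : (II : ℂ[X]) * C Complex.I = -1 := II_sq
          rw [this, neg_smul, one_smul]
        rw [h5, rx_neg, rx_cx]
      rw [h4]
      exact Submodule.neg_mem _ hu.1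
    have h3 := Submodule.finrank_sup_add_finrank_inf_eq R (R.map J)
    have h4 := Submodule.finrank_mono hsup
    have h5 := Submodule.finrank_mono hinf
    rw [finrank_lev_rl hξ] at h4
    rw [finrank_lev_rl hω] at h5
    rw [hfJ] at h3
    have h6 : Module.finrank ℝ R = ∑ k, (t - δ k) := hρ.finrank_lev t
    omega
  have hex : ∀ s, ∃ t, s ≤ t ∧ (∀ k, h k ≤ t) ∧ (∀ k, δ0 k ≤ t) ∧ (∀ k, δ k ≤ t) := by
    intro s
    refine ⟨s + ∑ k, h k + ∑ k, δ0 k + ∑ k, δ k, by omega, fun k => ?_, fun k => ?_, fun k => ?_⟩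
    · have := Finset.single_le_sum (f := h) (fun _ _ => Nat.zero_le _) (Finset.mem_univ k)
      omega
    · have := Finset.single_le_sum (f := δ0) (fun _ _ => Nat.zero_le _) (Finset.mem_univ k)
      omega
    · have := Finset.single_le_sum (f := δ) (fun _ _ => Nat.zero_le _) (Finset.mem_univ k)
      omega
  constructor
  · by_contra hcon
    push Not at hcon
    obtain ⟨t, h0, h3, h4, h5⟩ := hex (∑ k, δ k + 1)
    have h6 := key t
    have h7 := sum_sub_add h h3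
    have h8 := sum_sub_add δ0 h4
    have h9 := sum_sub_add δ h5
    have h10 : (Fintype.card κ' + Fintype.card κ'' + 1) * t ≤ Fintype.card κ * t :=
      Nat.mul_le_mul_right _ hcon
    rw [add_mul _ 1, one_mul, add_mul] at h10
    omega
  · intro heq
    obtain ⟨t, -, h3, h4, h5⟩ := hex 0
    have h6 := key t
    have h7 := sum_sub_add h h3
    have h8 := sum_sub_add δ0 h4
    have h9 := sum_sub_add δ h5
    rw [heq, add_mul] at h9
    omega

end rot

end

end Pool.Agent.Helper730_PP
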