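import Pool.Agent.Helper730_PP.Plane
import Pool.Agent.Helper730_PP.Balanced

/-!
# Combinations of a generic vector of complex polynomials
-/

open Polynomial Matrix

namespace Pool.Agent.Helper730_PP

noncomputable section

/-- Indices of the coefficients of the multipliers. -/
abbrev WIdx {k : ℕ} (w : Fin k → ℕ) : Type := (i : Fin k) × Fin (w i)

/-- The real matrix of the multiplication map, in terms of the coefficients of the vector. -/
def kM {k : ℕ} (nc : ℕ) (w : Fin k → ℕ) :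
    Matrix (WIdx w × Fin 2) (WIdx w × Fin 2) (MvPolynomial (FIdx k nc) ℚ) :=
  Matrix.of fun x y =>
    if h : (y.1.2 : ℕ) ≤ (finSigmaFinEquiv x.1 : ℕ) ∧
        (finSigmaFinEquiv x.1 : ℕ) - y.1.2 ≤ nc then
      (if x.2 = y.2 then MvPolynomial.X (y.1.1, 0, ⟨_, Nat.lt_succ_of_le h.2⟩)
        else if x.2 = 0 then -MvPolynomial.X (y.1.1, 1, ⟨_, Nat.lt_succ_of_le h.2⟩)
        else MvPolynomial.X (y.1.1, 1, ⟨_, Nat.lt_succ_of_le h.2⟩))
    else 0

/-- The real matrix at a given vector. -/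
def kAt {k : ℕ} (w : Fin k → ℕ) (f : Fin k → ℂ[X]) :
    Matrix (WIdx w × Fin 2) (WIdx w × Fin 2) ℝ :=
  Matrix.of fun x y =>
    if x.2 = y.2 then ((X ^ (y.1.2 : ℕ) * f y.1.1).coeff (finSigmaFinEquiv x.1 : ℕ)).re
    else if x.2 = 0 then -((X ^ (y.1.2 : ℕ) * f y.1.1).coeff (finSigmaFinEquiv x.1 : ℕ)).im
    else ((X ^ (y.1.2 : ℕ) * f y.1.1).coeff (finSigmaFinEquiv x.1 : ℕ)).im

theorem kM_eval {k nc : ℕ} (w : Fin k → ℕ) {f : Fin k → ℂ[X]}
    (hf : ∀ j, (f j).natDegree ≤ nc) :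
    (kM nc w).map (MvPolynomial.aeval (fpar nc f)) = kAt w f := by
  refine Matrix.ext fun x y => ?_
  simp only [Matrix.map_apply, kM, kAt, Matrix.of_apply]
  rw [coeff_X_pow_mul']
  by_cases h1 : (y.1.2 : ℕ) ≤ (finSigmaFinEquiv x.1 : ℕ)
  · rw [if_pos h1]
    by_cases h2 : (finSigmaFinEquiv x.1 : ℕ) - y.1.2 ≤ nc
    · rw [dif_pos ⟨h1, h2⟩]
      split_ifs
      · rw [MvPolynomial.aeval_X]; rfl
      · rw [map_neg, MvPolynomial.aeval_X]; rfl
      · rw [MvPolynomial.aeval_X]; rfl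
    · rw [dif_neg (fun h => h2 h.2), map_zero]
      rw [coeff_eq_zero_of_natDegree_lt (lt_of_le_of_lt (hf _) (by omega))]
      simp
  · rw [if_neg h1, dif_neg (fun h => h1 h.1), map_zero]
    simp

/-- The reference vector of monomials. -/
def kRef {k : ℕ} (w : Fin k → ℕ) (j : Fin k) : ℂ[X] :=
  X ^ (∑ i : Fin (j : ℕ), w (Fin.castLE j.2.le i))

theorem kAt_ref {k : ℕ} (w : Fin k → ℕ) : kAt w (kRef w) = 1 := by
  refine Matrix.ext fun x y => ?_
  simp only [kAt, Matrix.of_apply, kRef]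
  rw [← pow_add, coeff_X_pow]
  have h1 : (finSigmaFinEquiv x.1 : ℕ) = (y.1.2 : ℕ)
      + ∑ i : Fin (y.1.1 : ℕ), w (Fin.castLE y.1.1.2.le i) ↔ x.1 = y.1 := by
    rw [add_comm, ← finSigmaFinEquiv_apply, ← Fin.ext_iff, finSigmaFinEquiv.injective.eq_iff]
  rw [Matrix.one_apply]
  by_cases h2 : x.1 = y.1
  · rw [if_pos (h1.mpr h2)]
    by_cases h3 : x.2 = y.2
    · rw [if_pos h3, if_pos (Prod.ext h2 h3)]; simp
    · have hxy : ¬ x = y := fun h => h3 (by rw [h])
      rw [if_neg hxy, if_neg h3]; simp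
  · have hxy : ¬ x = y := fun h => h2 (by rw [h])
    rw [if_neg hxy, if_neg (fun h => h2 (h1.mp h))]
    simp

theorem kAt_det_ne {k nc : ℕ} (w : Fin k → ℕ)
    (hs : ∀ j : Fin k, ∑ i : Fin (j : ℕ), w (Fin.castLE j.2.le i) ≤ nc) {f : Fin k → ℂ[X]}
    (hf : ∀ j, (f j).natDegree ≤ nc) (hind : AlgebraicIndependent ℚ (fpar nc f)) :
    (kAt w f).det ≠ 0 := by
  have h1 : ∀ g : Fin k → ℂ[X], (∀ j, (g j).natDegree ≤ nc) →
      MvPolynomial.aeval (fpar nc g) (kM nc w).det = (kAt w g).det := by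
    intro g hg
    rw [← kM_eval w hg]
    exact AlgHom.map_det _ _
  have h2 : (kM nc w).det ≠ 0 := by
    intro h
    have h3 := h1 (kRef w) (fun j => by
      unfold kRef
      rw [natDegree_X_pow]; exact hs j)
    rw [h, map_zero, kAt_ref, Matrix.det_one] at h3
    exact zero_ne_one h3
  rw [← h1 f hf]
  intro h
  exact h2 ((injective_iff_map_eq_zero _).mp hind _ h)

theorem exists_combo {k nc : ℕ} (w : Fin k → ℕ)
    (hs : ∀ j : Fin k, ∑ i : Fin (j : ℕ), w (Fin.castLE j.2.le i) ≤ nc)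
    (hw : ∀ j, w j + nc ≤ ∑ i, w i) {f : Fin k → ℂ[X]} (hf : ∀ j, (f j).natDegree ≤ nc)
    (hind : AlgebraicIndependent ℚ (fpar nc f)) (g : ℂ[X])
    (hg : ∀ r, ∑ i, w i ≤ r → g.coeff r = 0) :
    ∃ c : Fin k → ℂ[X], (∀ j r, w j ≤ r → (c j).coeff r = 0) ∧ ∑ j, c j * f j = g := by
  have hdet := kAt_det_ne w hs hf hind
  set y : WIdx w × Fin 2 → ℝ := fun x =>
    if x.2 = 0 then (g.coeff (finSigmaFinEquiv x.1 : ℕ)).re
    else (g.coeff (finSigmaFinEquiv x.1 : ℕ)).im with hy
  set z : WIdx w × Fin 2 → ℝ := (kAt w f)⁻¹ *ᵥ y with hz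
  have hzy : kAt w f *ᵥ z = y := by
    rw [hz, Matrix.mulVec_mulVec, Matrix.mul_nonsing_inv _ (Ne.isUnit hdet), Matrix.one_mulVec]
  set ζ : WIdx w → ℂ := fun x => ⟨z (x, 0), z (x, 1)⟩ with hζ
  refine ⟨fun j => ∑ l : Fin (w j), C (ζ ⟨j, l⟩) * X ^ (l : ℕ), fun j r hr => ?_, ?_⟩
  · rw [finsetSum_coeff]
    refine Finset.sum_eq_zero fun l _ => ?_
    rw [coeff_C_mul_X_pow, if_neg]
    have := l.2
    omega
  · have hsum : ∀ r, (∑ j, (∑ l : Fin (w j), C (ζ ⟨j, l⟩) * X ^ (l : ℕ)) * f j).coeff r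
        = ∑ x : WIdx w, ζ x * (X ^ (x.2 : ℕ) * f x.1).coeff r := by
      intro r
      rw [finsetSum_coeff, Fintype.sum_sigma]
      refine Finset.sum_congr rfl fun j _ => ?_
      rw [Finset.sum_mul, finsetSum_coeff]
      refine Finset.sum_congr rfl fun l _ => ?_
      rw [mul_assoc, coeff_C_mul]
    ext1 r
    rw [hsum]
    by_cases hr : ∑ i, w i ≤ r
    · rw [hg r hr]
      refine Finset.sum_eq_zero fun x _ => ?_
      rw [coeff_eq_zero_of_natDegree_lt, mul_zero]
      refine lt_of_le_of_lt natDegree_mul_le ?_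
      rw [natDegree_X_pow]
      have h1 := hf x.1
      have h2 := x.2.2
      have h3 := hw x.1
      omega
    · push Not at hr
      obtain ⟨x, hx⟩ : ∃ x : WIdx w, (finSigmaFinEquiv x : ℕ) = r :=
        ⟨finSigmaFinEquiv.symm ⟨r, hr⟩, by rw [Equiv.apply_symm_apply]⟩
      have h0 := congrFun hzy (x, 0)
      have h1 := congrFun hzy (x, 1)
      simp only [Matrix.mulVec, dotProduct, hy, if_true, Fin.isValue, one_ne_zero, if_false]
        at h0 h1
      rw [Fintype.sum_prod_type] at h0 h1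
      simp only [Fin.sum_univ_two, kAt, Matrix.of_apply, if_true, Fin.isValue, one_ne_zero,
        if_false, zero_ne_one] at h0 h1
      rw [hx] at h0 h1
      apply Complex.ext
      · rw [← h0, Complex.re_sum]
        refine Finset.sum_congr rfl fun y _ => ?_
        rw [Complex.mul_re, hζ]
        ring
      · rw [← h1, Complex.im_sum]
        refine Finset.sum_congr rfl fun y _ => ?_
        rw [Complex.mul_im, hζ]
        ring

/-- The widths used for the rows. -/
def wid (b nc κ : ℕ) : Fin (b + 1) → ℕ := Fin.snoc (bal b nc) (κ + 1)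

theorem wid_castSucc (b nc κ : ℕ) (i : Fin b) : wid b nc κ i.castSucc = bal b nc i := by
  unfold wid
  exact Fin.snoc_castSucc (α := fun _ => ℕ) _ _ _

theorem wid_last (b nc κ : ℕ) : wid b nc κ (Fin.last b) = κ + 1 := by
  unfold wid
  exact Fin.snoc_last (α := fun _ => ℕ) _ _

theorem sum_wid (b nc κ : ℕ) (hb : 0 < b) : ∑ i, wid b nc κ i = nc + κ + 1 := by
  rw [Fin.sum_univ_castSucc, wid_last]
  simp only [wid_castSucc]
  rw [sum_bal b nc hb]; ring

theorem wid_partial (b nc κ : ℕ) (hb : 0 < b) (j : Fin (b + 1)) :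
    ∑ i : Fin (j : ℕ), wid b nc κ (Fin.castLE j.2.le i) ≤ nc := by
  have h1 : ∀ i : Fin (j : ℕ), wid b nc κ (Fin.castLE j.2.le i) = (nc + (i : ℕ)) / b := by
    intro i
    have hi : (i : ℕ) < b := by
      have := i.2
      have := j.2
      omega
    have h2 : Fin.castLE j.2.le i = (⟨i, hi⟩ : Fin b).castSucc := Fin.ext rfl
    rw [h2, wid_castSucc]
    rfl
  rw [Finset.sum_congr rfl fun i _ => h1 i]
  have h3 : ∑ i : Fin (j : ℕ), (nc + (i : ℕ)) / b = ∑ i ∈ Finset.range j, (nc + i) / b :=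
    (Finset.sum_range fun i => (nc + i) / b).symm
  have h4 : ∑ i : Fin b, bal b nc i = ∑ i ∈ Finset.range b, (nc + i) / b :=
    (Finset.sum_range fun i => (nc + i) / b).symm
  rw [h3]
  calc ∑ i ∈ Finset.range j, (nc + i) / b ≤ ∑ i ∈ Finset.range b, (nc + i) / b := by
        refine Finset.sum_le_sum_of_subset ?_
        intro x hx
        rw [Finset.mem_range] at hx ⊢
        have := j.2
        omega
    _ = nc := by rw [← h4, sum_bal b nc hb]

/-- A Bezout identity for a generic vector. -/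
theorem exists_bezout {b nc : ℕ} (hb : 0 < b) {f : Fin (b + 1) → ℂ[X]}
    (hf : ∀ j, (f j).natDegree ≤ nc) (hind : AlgebraicIndependent ℚ (fpar nc f)) :
    ∃ c : Fin (b + 1) → ℂ[X], ∑ j, c j * f j = 1 := by
  obtain ⟨c, -, hc⟩ := exists_combo (wid b nc (nc / b)) (wid_partial b nc _ hb) (fun j => by
    rw [sum_wid b nc _ hb]
    refine Fin.lastCases ?_ (fun i => ?_) j
    · rw [wid_last]; omega
    · rw [wid_castSucc]
      have := bal_le b nc i
      omega) hf hind 1 (fun r hr => by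
    rw [sum_wid b nc _ hb] at hr
    have hr0 : r ≠ 0 := by
      rintro rfl
      exact absurd hr (Nat.not_succ_le_zero _)
    rw [coeff_one, if_neg hr0])
  exact ⟨c, hc⟩

/-- The rows annihilating a generic vector. -/
theorem exists_rows {b nc : ℕ} (hb : 0 < b) {f : Fin (b + 1) → ℂ[X]}
    (hf : ∀ j, (f j).natDegree ≤ nc) (hind : AlgebraicIndependent ℚ (fpar nc f)) :
    ∃ A : Fin b → Fin (b + 1) → ℂ[X], (∀ i, ∑ j, A i j * f j = 0) ∧
      (∀ i j, (A i j).natDegree ≤ bal b nc i) ∧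
      (∀ i (j : Fin b) r, bal b nc j ≤ r →
        (A i j.castSucc).coeff r = if i = j ∧ r = bal b nc j then 1 else 0) := by
  have key : ∀ i : Fin b, ∃ c : Fin (b + 1) → ℂ[X],
      (∀ j r, wid b nc (bal b nc i) j ≤ r → (c j).coeff r = 0) ∧
      ∑ j, c j * f j = -(X ^ (bal b nc i) * f i.castSucc) := by
    intro i
    refine exists_combo (wid b nc (bal b nc i)) (wid_partial b nc _ hb) (fun j => ?_) hf hind _
      (fun r hr => ?_)
    · rw [sum_wid b nc _ hb]
      refine Fin.lastCases ?_ (fun l => ?_) j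
      · rw [wid_last]; omega
      · rw [wid_castSucc]
        have := bal_le b nc l
        have := bal_ge b nc i
        omega
    · rw [sum_wid b nc _ hb] at hr
      rw [coeff_neg, coeff_eq_zero_of_natDegree_lt, neg_zero]
      refine lt_of_le_of_lt natDegree_mul_le ?_
      rw [natDegree_X_pow]
      have := hf i.castSucc
      omega
  choose c hc1 hc2 using key
  refine ⟨fun i j => c i j + if j = i.castSucc then X ^ (bal b nc i) else 0, fun i => ?_,
    fun i j => ?_, fun i j r hr => ?_⟩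
  · simp only [add_mul, Finset.sum_add_distrib, hc2, ite_mul, zero_mul]
    rw [Finset.sum_ite_eq' Finset.univ i.castSucc, if_pos (Finset.mem_univ _)]
    ring
  · refine (natDegree_add_le _ _).trans (max_le ?_ ?_)
    · rw [natDegree_le_iff_coeff_eq_zero]
      intro r hr
      apply hc1
      refine Fin.lastCases ?_ (fun l => ?_) j
      · rw [wid_last]; omega
      · rw [wid_castSucc]
        have := bal_le b nc l
        have := bal_ge b nc i
        omega
    · split_ifs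
      · rw [natDegree_X_pow]
      · simp
  · rw [coeff_add, hc1 i _ r (by rw [wid_castSucc]; exact hr), zero_add]
    by_cases h : i = j
    · subst h
      rw [if_pos rfl, coeff_X_pow]
      simp
    · rw [if_neg (fun h' => h (Fin.castSucc_injective _ h').symm), coeff_zero, if_neg]
      rintro ⟨h', -⟩
      exact h h'

end

end Pool.Agent.Helper730_PP
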