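import Mathlib

/-!
# Reduced families of polynomial vectors, over any field

Vectors `v : ι → F[X]` are filtered by degree with weights `w`: `v ∈ Lv F w t` when the degree of
`v j` is less than `t - w j` for every `j`.
-/

open Polynomial

namespace Pool.Agent.Helper730_PP

noncomputable section

variable {F : Type*} [Field F] {ι : Type*}

/-- Vectors whose `j`-th coordinate has degree less than `t - w j`. -/
def Lv (F : Type*) [Field F] {ι : Type*} (w : ι → ℕ) (t : ℕ) : Submodule F (ι → F[X]) where
  carrier := {v | ∀ j k, t ≤ k + w j → (v j).coeff k = 0}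
  add_mem' := by
    intro a b ha hb j k h
    rw [Pi.add_apply, coeff_add, ha j k h, hb j k h, add_zero]
  zero_mem' := by
    intro j k _
    rw [Pi.zero_apply, coeff_zero]
  smul_mem' := by
    intro c v hv j k h
    rw [Pi.smul_apply, coeff_smul, hv j k h, smul_zero]

theorem mem_Lv {w : ι → ℕ} {t : ℕ} {v : ι → F[X]} :
    v ∈ Lv F w t ↔ ∀ j k, t ≤ k + w j → (v j).coeff k = 0 := Iff.rfl

theorem Lv_mono {w : ι → ℕ} {t t' : ℕ} (h : t ≤ t') : Lv F w t ≤ Lv F w t' :=
  fun _ hv j k hk => hv j k (h.trans hk)

theorem Lv_zero {w : ι → ℕ} : Lv F w 0 = ⊥ := by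
  rw [eq_bot_iff]
  intro v hv
  rw [Submodule.mem_bot]
  funext j
  ext k
  rw [hv j k (Nat.zero_le _)]
  simp

theorem smul_mem_Lv {w : ι → ℕ} {t δ : ℕ} {v : ι → F[X]} (hv : v ∈ Lv F w (δ + 1)) {p : F[X]}
    (hp : ∀ l, t ≤ l + δ → p.coeff l = 0) : p • v ∈ Lv F w t := by
  intro j k hk
  rw [Pi.smul_apply, smul_eq_mul, coeff_mul]
  refine Finset.sum_eq_zero fun x hx => ?_
  rw [Finset.HasAntidiagonal.mem_antidiagonal] at hx
  by_cases h : t ≤ x.1 + δ
  · rw [hp _ h, zero_mul]
  · rw [hv j x.2 (by omega), mul_zero]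

theorem X_smul_mem_Lv {w : ι → ℕ} {t : ℕ} {v : ι → F[X]} (hv : v ∈ Lv F w t) :
    (X : F[X]) • v ∈ Lv F w (t + 1) := by
  intro j k hk
  rw [Pi.smul_apply, smul_eq_mul]
  rcases k with _ | k
  · simp
  · rw [coeff_X_mul]
    exact hv j k (by omega)

theorem exists_mem_Lv [Finite ι] (w : ι → ℕ) (v : ι → F[X]) : ∃ t, v ∈ Lv F w t := by
  cases nonempty_fintype ι
  refine ⟨∑ j, ((v j).natDegree + 1 + w j), fun j k hk => ?_⟩
  have h := Finset.single_le_sum (f := fun j => (v j).natDegree + 1 + w j)
    (fun _ _ => Nat.zero_le _) (Finset.mem_univ j)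
  exact coeff_eq_zero_of_natDegree_lt (by omega)

/-- The leading vector at level `δ`. -/
def ld (w : ι → ℕ) (δ : ℕ) (v : ι → F[X]) (j : ι) : F :=
  if w j ≤ δ then (v j).coeff (δ - w j) else 0

/-- The level of a submodule. -/
def lev (Λ : Submodule F[X] (ι → F[X])) (w : ι → ℕ) (t : ℕ) : Submodule F (ι → F[X]) :=
  Λ.restrictScalars F ⊓ Lv F w t

theorem mem_lev {Λ : Submodule F[X] (ι → F[X])} {w : ι → ℕ} {t : ℕ} {v : ι → F[X]} :
    v ∈ lev Λ w t ↔ v ∈ Λ ∧ v ∈ Lv F w t := by
  unfold lev
  rw [Submodule.mem_inf, Submodule.restrictScalars_mem]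

theorem lev_mono {Λ Λ' : Submodule F[X] (ι → F[X])} (h : Λ ≤ Λ') {w : ι → ℕ} {t t' : ℕ}
    (ht : t ≤ t') : lev Λ w t ≤ lev Λ' w t' := fun v hv => by
  rw [mem_lev] at hv ⊢
  exact ⟨h hv.1, Lv_mono ht hv.2⟩

/-- The span of a family. -/
abbrev lat {κ : Type*} (η : κ → ι → F[X]) : Submodule F[X] (ι → F[X]) :=
  Submodule.span F[X] (Set.range η)

theorem mem_lat {κ : Type*} [Fintype κ] {η : κ → ι → F[X]} {v : ι → F[X]} :
    v ∈ lat η ↔ ∃ p : κ → F[X], ∑ k, p k • η k = v :=
  Submodule.mem_span_range_iff_exists_fun _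

/-- A reduced family. -/
structure RB {κ : Type*} [Fintype κ] (w : ι → ℕ) (δ : κ → ℕ) (η : κ → ι → F[X]) : Prop where
  fil : ∀ k, η k ∈ Lv F w (δ k + 1)
  pd : ∀ (p : κ → F[X]) (t : ℕ), (∑ k, p k • η k) ∈ Lv F w t →
    ∀ k l, t ≤ l + δ k → (p k).coeff l = 0

section basic

variable {κ : Type*} [Fintype κ] {w : ι → ℕ} {δ : κ → ℕ} {η : κ → ι → F[X]}

/-- Families with independent leading vectors are reduced. -/
theorem RB.of_ld (hfil : ∀ k, η k ∈ Lv F w (δ k + 1))
    (hld : ∀ α : κ → F, (∀ j, ∑ k, α k * ld w (δ k) (η k) j = 0) → α = 0) : RB w δ η := by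
  refine ⟨hfil, ?_⟩
  intro p t hp k0 l0 hl0
  by_contra hne
  -- the largest level occurring
  set T : Finset ℕ := Finset.univ.biUnion fun k => (p k).support.image fun l => l + δ k with hT
  have hT0 : l0 + δ k0 ∈ T := by
    rw [hT, Finset.mem_biUnion]
    exact ⟨k0, Finset.mem_univ _, Finset.mem_image.mpr ⟨l0, mem_support_iff.mpr hne, rfl⟩⟩
  set M : ℕ := T.max' ⟨_, hT0⟩ with hM
  have hMt : t ≤ M := hl0.trans (T.le_max' _ hT0)
  have hmax : ∀ k l, M < l + δ k → (p k).coeff l = 0 := by
    intro k l hl
    by_contra h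
    have : l + δ k ∈ T := by
      rw [hT, Finset.mem_biUnion]
      exact ⟨k, Finset.mem_univ _, Finset.mem_image.mpr ⟨l, mem_support_iff.mpr h, rfl⟩⟩
    have := T.le_max' _ this
    omega
  obtain ⟨k1, l1, hl1, hk1⟩ : ∃ k l, l + δ k = M ∧ (p k).coeff l ≠ 0 := by
    have h1 := T.max'_mem ⟨_, hT0⟩
    obtain ⟨k, -, hk⟩ := Finset.mem_biUnion.mp h1
    obtain ⟨l, hl, h2⟩ := Finset.mem_image.mp hk
    exact ⟨k, l, h2, mem_support_iff.mp hl⟩
  set α : κ → F := fun k => if δ k ≤ M then (p k).coeff (M - δ k) else 0 with hα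
  have hα0 : α = 0 := by
    apply hld
    intro j
    by_cases hj : w j ≤ M
    · have h1 : (∑ k, p k • η k) j = ∑ k, p k * η k j := by
        rw [Finset.sum_apply]; rfl
      have h2 : ((∑ k, p k • η k) j).coeff (M - w j) = 0 := hp j _ (by omega)
      rw [h1, finsetSum_coeff] at h2
      rw [← h2]
      refine Finset.sum_congr rfl fun k _ => ?_
      rw [hα]
      simp only
      unfold ld
      split_ifs with h3 h4 h4
      · have hd1 : (p k).natDegree ≤ M - δ k := by
          rw [natDegree_le_iff_coeff_eq_zero]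
          intro N hN
          exact hmax k N (by omega)
        have hd2 : (η k j).natDegree ≤ δ k - w j := by
          rw [natDegree_le_iff_coeff_eq_zero]
          intro N hN
          exact hfil k j N (by omega)
        have h5 := coeff_mul_add_eq_of_natDegree_le hd1 hd2
        rw [← h5]
        congr 1
        omega
      · have : η k j = 0 := by
          ext N
          rw [hfil k j N (by omega), coeff_zero]
        rw [this]; simp
      · have : p k = 0 := by
          ext N
          rw [hmax k N (by omega), coeff_zero]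
        rw [this]; simp
      · have : p k = 0 := by
          ext N
          rw [hmax k N (by omega), coeff_zero]
        rw [this]; simp
    · refine Finset.sum_eq_zero fun k _ => ?_
      rw [hα]
      simp only
      unfold ld
      by_cases h3 : δ k ≤ M
      · rw [if_neg (by omega : ¬ w j ≤ δ k), mul_zero]
      · rw [if_neg h3, zero_mul]
  have h3 := congrFun hα0 k1
  rw [hα] at h3
  simp only [Pi.zero_apply] at h3
  rw [if_pos (by omega), show M - δ k1 = l1 by omega] at h3
  exact hk1 h3

theorem RB.li (h : RB w δ η) : LinearIndependent F[X] η := by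
  rw [Fintype.linearIndependent_iff]
  intro g hg k
  ext l
  rw [coeff_zero]
  exact h.pd g 0 (by rw [hg]; exact zero_mem _) k l (Nat.zero_le _)

theorem RB.comp {κ' : Type*} [Fintype κ'] (h : RB w δ η) (f : κ' → κ) (hf : Function.Injective f) :
    RB w (δ ∘ f) (η ∘ f) := by
  classical
  refine ⟨fun k => h.fil _, fun p t hp k l hl => ?_⟩
  have h1 : ∑ k, (Function.extend f p (fun _ => 0) k) • η k = ∑ k', p k' • (η ∘ f) k' := by
    rw [← Finset.sum_subset (Finset.subset_univ (Finset.univ.image f))]
    · rw [Finset.sum_image fun a _ b _ hab => hf hab]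
      exact Finset.sum_congr rfl fun k' _ => by rw [hf.extend_apply]; rfl
    · intro k _ hk
      rw [Function.extend_apply' p (fun _ => 0) k (fun ⟨a, ha⟩ => hk (Finset.mem_image.mpr
        ⟨a, Finset.mem_univ _, ha⟩))]
      simp
  have h2 := h.pd (Function.extend f p (fun _ => 0)) t (by rw [h1]; exact hp) (f k) l hl
  rwa [hf.extend_apply] at h2

end basic

/-- Any independent family can be replaced by a reduced one with the same span. -/
theorem exists_reduced {κ : Type*} [Fintype κ] (w : ι → ℕ) : ∀ (s : ℕ) (δ : κ → ℕ)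
    (η : κ → ι → F[X]), ∑ k, δ k ≤ s → (∀ k, η k ∈ Lv F w (δ k + 1)) →
    LinearIndependent F[X] η →
    ∃ (δ' : κ → ℕ) (η' : κ → ι → F[X]), RB w δ' η' ∧ lat η' = lat η ∧ ∑ k, δ' k ≤ ∑ k, δ k := by
  classical
  intro s
  induction s with
  | zero =>
    intro δ η hs hfil hli
    refine ⟨δ, η, RB.of_ld hfil fun α hα => ?_, rfl, le_rfl⟩
    have hd0 : ∀ k, δ k = 0 := by
      intro k
      have := Finset.single_le_sum (f := δ) (fun _ _ => Nat.zero_le _) (Finset.mem_univ k)
      omega
    rw [Fintype.linearIndependent_iff] at hli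
    funext k
    have h1 : ∑ k, (C (α k) : F[X]) • η k = 0 := by
      funext j
      rw [Finset.sum_apply, Pi.zero_apply]
      have h2 := hα j
      by_cases hj : w j = 0
      · have h3 : ∀ k, (C (α k) : F[X]) • η k j = C (α k * ld w (δ k) (η k) j) := by
          intro k
          unfold ld
          rw [hd0 k, if_pos (by omega), smul_eq_mul, C_mul]
          congr 1
          ext N
          rcases N with _ | N
          · simp
          · rw [coeff_C_succ]
            exact hfil k j _ (by rw [hd0 k]; omega)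
        simp only [Pi.smul_apply]
        rw [Finset.sum_congr rfl fun k _ => h3 k, ← map_sum, h2, C_0]
      · refine Finset.sum_eq_zero fun k _ => ?_
        have : η k j = 0 := by
          ext N
          rw [hfil k j N (by rw [hd0 k]; omega), coeff_zero]
        rw [Pi.smul_apply, this, smul_zero]
    have h2 := hli _ h1 k
    simpa using h2
  | succ s ih =>
    intro δ η hs hfil hli
    by_cases hred : ∀ α : κ → F, (∀ j, ∑ k, α k * ld w (δ k) (η k) j = 0) → α = 0
    · exact ⟨δ, η, RB.of_ld hfil hred, rfl, le_rfl⟩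
    push Not at hred
    obtain ⟨α, hα, hne⟩ := hred
    have hsupp : (Finset.univ.filter fun k => α k ≠ 0).Nonempty := by
      by_contra h
      rw [Finset.not_nonempty_iff_eq_empty] at h
      apply hne
      funext i
      by_contra hi
      have : i ∈ Finset.univ.filter fun i => α i ≠ 0 := by simpa using hi
      rw [h] at this
      exact absurd this (Finset.notMem_empty i)
    obtain ⟨k0, hk0, hmax⟩ := Finset.exists_max_image _ δ hsupp
    have hk0' : α k0 ≠ 0 := (Finset.mem_filter.mp hk0).2
    have hmax' : ∀ k, α k ≠ 0 → δ k ≤ δ k0 := fun k hk => hmax k (by simpa using hk)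
    set β : κ → F[X] := fun k => C (α k) * X ^ (δ k0 - δ k) with hβ
    have hβk0 : β k0 = C (α k0) := by rw [hβ]; simp
    set y : ι → F[X] := ∑ k, β k • η k with hy
    have hyL : y ∈ Lv F w (δ k0) := by
      intro j k hk
      have hyj : y j = ∑ k, β k * η k j := by
        rw [hy, Finset.sum_apply]; rfl
      rw [hyj, finsetSum_coeff]
      by_cases hk' : δ k0 < k + w j
      · refine Finset.sum_eq_zero fun i _ => ?_
        by_cases hi : α i = 0
        · rw [hβ]; simp [hi]
        · have h1 := hmax' i hi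
          rw [hβ]
          simp only
          rw [mul_assoc, coeff_C_mul, coeff_X_pow_mul']
          split_ifs with h2
          · rw [hfil i j _ (by omega), mul_zero]
          · rw [mul_zero]
      · have hke : k = δ k0 - w j := by omega
        have hwj : w j ≤ δ k0 := by omega
        rw [← hα j]
        refine Finset.sum_congr rfl fun i _ => ?_
        by_cases hi : α i = 0
        · rw [hβ]; simp [hi]
        · have h1 := hmax' i hi
          rw [hβ]
          simp only
          rw [mul_assoc, coeff_C_mul, coeff_X_pow_mul']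
          congr 1
          unfold ld
          by_cases h2 : w j ≤ δ i
          · rw [if_pos (by omega), if_pos h2]
            congr 1
            omega
          · rw [if_neg h2]
            split_ifs with h3
            · exact hfil i j _ (by omega)
            · rfl
    rw [Fintype.linearIndependent_iff] at hli
    have hy0 : y ≠ 0 := by
      intro h
      have := hli β h k0
      rw [hβk0, C_eq_zero] at this
      exact hk0' this
    have hd0 : δ k0 ≠ 0 := by
      intro h
      rw [h, Lv_zero] at hyL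
      exact hy0 ((Submodule.mem_bot F).mp hyL)
    set δ1 : κ → ℕ := Function.update δ k0 (δ k0 - 1) with hδ1
    set η1 : κ → ι → F[X] := Function.update η k0 y with hη1
    have hsum : ∑ i, δ1 i + 1 = ∑ i, δ i := by
      rw [hδ1, Finset.sum_update_of_mem (Finset.mem_univ k0)]
      have h2 := Finset.add_sum_erase Finset.univ δ (Finset.mem_univ k0)
      rw [← h2, Finset.sdiff_singleton_eq_erase]
      omega
    have hfil1 : ∀ k, η1 k ∈ Lv F w (δ1 k + 1) := by
      intro k
      by_cases hk : k = k0
      · subst hk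
        rw [hη1, hδ1, Function.update_self, Function.update_self,
          show δ k - 1 + 1 = δ k by omega]
        exact hyL
      · rw [hη1, hδ1, Function.update_of_ne hk, Function.update_of_ne hk]
        exact hfil k
    have hη1ne : ∀ k, k ≠ k0 → η1 k = η k := fun k hk => by
      rw [hη1, Function.update_of_ne hk]
    have hη1k0 : η1 k0 = y := by rw [hη1, Function.update_self]
    have hli1 : LinearIndependent F[X] η1 := by
      rw [Fintype.linearIndependent_iff]
      intro q hq
      have h1 : ∑ k, ((if k = k0 then 0 else q k) + q k0 * β k) • η k = 0 := by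
        have h2 : ∑ k, q k • η1 k = ∑ k, (if k = k0 then (0 : F[X]) else q k) • η k
            + q k0 • y := by
          rw [← Finset.add_sum_erase Finset.univ (fun k => q k • η1 k) (Finset.mem_univ k0),
            ← Finset.add_sum_erase Finset.univ
              (fun k => (if k = k0 then (0 : F[X]) else q k) • η k) (Finset.mem_univ k0)]
          simp only [if_true, zero_smul, zero_add]
          rw [hη1k0, add_comm]
          congr 1
          refine Finset.sum_congr rfl fun k hk => ?_
          have hk' := (Finset.mem_erase.mp hk).1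
          rw [if_neg hk', hη1ne k hk']
        rw [h2] at hq
        rw [← hq, hy, Finset.smul_sum, ← Finset.sum_add_distrib]
        refine Finset.sum_congr rfl fun k _ => ?_
        rw [add_smul, smul_smul]
      have h2 := hli _ h1
      have h3 := h2 k0
      rw [if_pos rfl, zero_add, hβk0] at h3
      have h4 : q k0 = 0 := by
        rcases mul_eq_zero.mp h3 with h | h
        · exact h
        · exact absurd (C_eq_zero.mp h) hk0'
      intro k
      by_cases hk : k = k0
      · rw [hk]; exact h4
      · have := h2 k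
        rwa [if_neg hk, h4, zero_mul, add_zero] at this
    have hspan : lat η1 = lat η := by
      apply le_antisymm
      · rw [Submodule.span_le]
        rintro _ ⟨k, rfl⟩
        by_cases hk : k = k0
        · rw [hk, hη1k0]
          exact Submodule.sum_mem _ fun i _ => Submodule.smul_mem _ _
            (Submodule.subset_span ⟨i, rfl⟩)
        · rw [hη1ne k hk]
          exact Submodule.subset_span ⟨k, rfl⟩
      · rw [Submodule.span_le]
        rintro _ ⟨k, rfl⟩
        by_cases hk : k = k0
        · rw [hk]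
          have h1 : η k0 = C (α k0)⁻¹ • (y - ∑ i ∈ Finset.univ.erase k0, β i • η i) := by
            rw [hy, ← Finset.add_sum_erase Finset.univ (fun k => β k • η k) (Finset.mem_univ k0),
              add_sub_cancel_right, smul_smul, hβk0, ← C_mul, inv_mul_cancel₀ hk0', C_1, one_smul]
          rw [h1]
          refine Submodule.smul_mem _ _ (Submodule.sub_mem _ ?_ (Submodule.sum_mem _ fun i hi => ?_))
          · exact Submodule.subset_span ⟨k0, hη1k0⟩
          · exact Submodule.smul_mem _ _ (Submodule.subset_span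
              ⟨i, hη1ne i (Finset.mem_erase.mp hi).1⟩)
        · exact Submodule.subset_span ⟨k, hη1ne k hk⟩
    obtain ⟨δ', η', h1, h2, h3⟩ := ih δ1 η1 (by omega) hfil1 hli1
    exact ⟨δ', η', h1, h2.trans hspan, by omega⟩

/-- Every submodule has a reduced basis with nondecreasing degrees. -/
theorem exists_RB [Finite ι] (w : ι → ℕ) (Λ : Submodule F[X] (ι → F[X])) :
    ∃ (r : ℕ) (δ : Fin r → ℕ) (η : Fin r → ι → F[X]), Monotone δ ∧ RB w δ η ∧ lat η = Λ := by
  obtain ⟨r, ⟨b⟩⟩ := Submodule.nonempty_basis_of_pid (Pi.basisFun F[X] ι) Λ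
  set η0 : Fin r → ι → F[X] := fun k => (b k : ι → F[X]) with hη0
  have hli0 : LinearIndependent F[X] η0 :=
    b.linearIndependent.map' Λ.subtype (Submodule.ker_subtype Λ)
  have hspan0 : lat η0 = Λ := by
    have h1 : Set.range η0 = Λ.subtype '' Set.range b := by
      rw [← Set.range_comp]; rfl
    unfold lat
    rw [h1, ← Submodule.map_span, b.span_eq, Submodule.map_top, Submodule.range_subtype]
  have hlev : ∀ k, ∃ t, η0 k ∈ Lv F w (t + 1) := by
    intro k
    obtain ⟨t, ht⟩ := exists_mem_Lv w (η0 k)
    exact ⟨t, Lv_mono (Nat.le_succ t) ht⟩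
  choose δ0 hδ0 using hlev
  obtain ⟨δ1, η1, h1, h2, -⟩ := exists_reduced w _ δ0 η0 le_rfl hδ0 hli0
  refine ⟨r, δ1 ∘ Tuple.sort δ1, η1 ∘ Tuple.sort δ1, Tuple.monotone_sort δ1,
    h1.comp _ (Tuple.sort δ1).injective, ?_⟩
  rw [← hspan0, ← h2]
  unfold lat
  rw [Set.range_comp, Equiv.range_eq_univ, Set.image_univ]

/-- The same, keeping control of the sum of the degrees. -/
theorem exists_RB_of_li {r : ℕ} (w : ι → ℕ) (δ0 : Fin r → ℕ) (η0 : Fin r → ι → F[X])
    (hδ0 : ∀ k, η0 k ∈ Lv F w (δ0 k + 1)) (hli0 : LinearIndependent F[X] η0) :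
    ∃ (δ : Fin r → ℕ) (η : Fin r → ι → F[X]), Monotone δ ∧ RB w δ η ∧ lat η = lat η0 ∧
      ∑ k, δ k ≤ ∑ k, δ0 k := by
  obtain ⟨δ1, η1, h1, h2, h3⟩ := exists_reduced w _ δ0 η0 le_rfl hδ0 hli0
  refine ⟨δ1 ∘ Tuple.sort δ1, η1 ∘ Tuple.sort δ1, Tuple.monotone_sort δ1,
    h1.comp _ (Tuple.sort δ1).injective, ?_, ?_⟩
  · rw [← h2]
    unfold lat
    rw [Set.range_comp, Equiv.range_eq_univ, Set.image_univ]
  · exact (Equiv.sum_comp (Tuple.sort δ1) δ1).trans_le h3

end

end Pool.Agent.Helper730_PP
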