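import Pool.Agent.Helper730_PP.Lat

/-!
# Dimensions of the levels of polynomial lattices, and orthogonal lattices
-/

open Polynomial

namespace Pool.Agent.Helper730_PP

noncomputable section

variable {F : Type*} [Field F] {ι : Type*}

theorem finrank_degreeLT (n : ℕ) : Module.finrank F (degreeLT F n) = n := by
  rw [(degreeLTEquiv F n).finrank_eq, Module.finrank_fin_fun]

instance (n : ℕ) : Module.Finite F (degreeLT F n) :=
  Module.Finite.equiv (degreeLTEquiv F n).symm

theorem sum_sub_add {κ : Type*} [Fintype κ] (δ : κ → ℕ) {t : ℕ} (h : ∀ k, δ k ≤ t) :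
    ∑ k, (t - δ k) + ∑ k, δ k = Fintype.card κ * t := by
  rw [← Finset.sum_add_distrib, Finset.sum_congr rfl fun k _ => Nat.sub_add_cancel (h k)]
  simp

theorem le_sum_sub {κ : Type*} [Fintype κ] (δ : κ → ℕ) (t : ℕ) :
    Fintype.card κ * t ≤ ∑ k, (t - δ k) + ∑ k, δ k := by
  rw [← Finset.sum_add_distrib]
  calc Fintype.card κ * t = ∑ _k : κ, t := by simp
    _ ≤ _ := Finset.sum_le_sum fun k _ => by omega

/-- Combinations with coefficients of bounded degree. -/
def combo {κ : Type*} [Fintype κ] (n : κ → ℕ) (η : κ → ι → F[X]) :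
    (∀ k, degreeLT F (n k)) →ₗ[F] (ι → F[X]) where
  toFun p := ∑ k, (p k : F[X]) • η k
  map_add' p q := by
    rw [← Finset.sum_add_distrib]
    exact Finset.sum_congr rfl fun k _ => by
      rw [Pi.add_apply, Submodule.coe_add, add_smul]
  map_smul' c p := by
    rw [RingHom.id_apply, Finset.smul_sum]
    exact Finset.sum_congr rfl fun k _ => by
      rw [Pi.smul_apply, Submodule.coe_smul, smul_assoc]

theorem combo_injective {κ : Type*} [Fintype κ] {n : κ → ℕ} {η : κ → ι → F[X]}
    (h : LinearIndependent F[X] η) : Function.Injective (combo n η) := by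
  rw [← LinearMap.ker_eq_bot, LinearMap.ker_eq_bot']
  intro p hp
  rw [Fintype.linearIndependent_iff] at h
  funext k
  exact Subtype.ext (h (fun k => (p k : F[X])) hp k)

theorem combo_finrank {κ : Type*} [Fintype κ] {n : κ → ℕ} {η : κ → ι → F[X]}
    (h : LinearIndependent F[X] η) : Module.finrank F (combo n η).range = ∑ k, n k := by
  rw [LinearMap.finrank_range_of_inj (combo_injective h), Module.finrank_pi_fintype]
  exact Finset.sum_congr rfl fun k _ => finrank_degreeLT _

theorem combo_range_le {κ : Type*} [Fintype κ] {w : ι → ℕ} {δ : κ → ℕ} {t : ℕ}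
    {η : κ → ι → F[X]} (hfil : ∀ k, η k ∈ Lv F w (δ k + 1)) :
    (combo (fun k => t - δ k) η).range ≤ lev (lat η) w t := by
  rintro _ ⟨p, rfl⟩
  rw [mem_lev]
  refine ⟨mem_lat.mpr ⟨fun k => (p k : F[X]), rfl⟩, ?_⟩
  refine Submodule.sum_mem _ fun k _ => smul_mem_Lv (hfil k) fun l hl => ?_
  have h := (p k).2
  rw [mem_degreeLT, degree_lt_iff_coeff_zero] at h
  exact h l (by omega)

theorem RB.range_eq {κ : Type*} [Fintype κ] {w : ι → ℕ} {δ : κ → ℕ} {η : κ → ι → F[X]}
    (h : RB w δ η) (t : ℕ) : (combo (fun k => t - δ k) η).range = lev (lat η) w t := by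
  refine le_antisymm (combo_range_le h.fil) ?_
  intro v hv
  rw [mem_lev] at hv
  obtain ⟨p, hp⟩ := mem_lat.mp hv.1
  have h1 := h.pd p t (by rw [hp]; exact hv.2)
  refine ⟨fun k => ⟨p k, ?_⟩, hp⟩
  rw [mem_degreeLT, degree_lt_iff_coeff_zero]
  intro m hm
  exact h1 k m (by omega)

theorem RB.finrank_lev {κ : Type*} [Fintype κ] {w : ι → ℕ} {δ : κ → ℕ} {η : κ → ι → F[X]}
    (h : RB w δ η) (t : ℕ) : Module.finrank F (lev (lat η) w t) = ∑ k, (t - δ k) := by
  rw [← h.range_eq t, combo_finrank h.li]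

theorem RB_std [Fintype ι] [DecidableEq ι] (w : ι → ℕ) :
    RB w w (fun i : ι => (Pi.single i (1 : F[X]) : ι → F[X])) := by
  refine ⟨fun k j l hl => ?_, fun p t hp k l hl => ?_⟩
  · by_cases h : j = k
    · subst h
      rw [Pi.single_eq_same, coeff_one, if_neg (by omega)]
    · rw [Pi.single_eq_of_ne h, coeff_zero]
  · have h1 := hp k l hl
    rw [Finset.sum_apply, Finset.sum_eq_single k] at h1
    · simpa using h1
    · intro b _ hb
      rw [Pi.smul_apply, Pi.single_eq_of_ne (Ne.symm hb), smul_zero]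
    · intro h; exact absurd (Finset.mem_univ _) h

theorem lat_std [Fintype ι] [DecidableEq ι] :
    lat (fun i : ι => (Pi.single i (1 : F[X]) : ι → F[X])) = ⊤ := by
  rw [eq_top_iff]
  intro v _
  rw [mem_lat]
  refine ⟨v, ?_⟩
  funext j
  rw [Finset.sum_apply, Finset.sum_eq_single j]
  · simp
  · intro b _ hb
    rw [Pi.smul_apply, Pi.single_eq_of_ne (Ne.symm hb), smul_zero]
  · intro h; exact absurd (Finset.mem_univ _) h

theorem lev_top (w : ι → ℕ) (t : ℕ) : lev (⊤ : Submodule F[X] (ι → F[X])) w t = Lv F w t := by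
  ext v
  rw [mem_lev]
  simp

theorem finrank_Lv [Fintype ι] (w : ι → ℕ) (t : ℕ) :
    Module.finrank F (Lv F w t) = ∑ j, (t - w j) := by
  classical
  rw [← lev_top, ← lat_std, (RB_std w).finrank_lev]

instance [Finite ι] (w : ι → ℕ) (t : ℕ) : Module.Finite F (Lv F w t) := by
  classical
  cases nonempty_fintype ι
  rw [← lev_top, ← lat_std, ← (RB_std w).range_eq t]
  infer_instance

instance [Finite ι] (Λ : Submodule F[X] (ι → F[X])) (w : ι → ℕ) (t : ℕ) :
    Module.Finite F (lev Λ w t) :=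
  Submodule.finiteDimensional_of_le (inf_le_right : lev Λ w t ≤ Lv F w t)

/-- Lower bound for the dimension of a level from an independent family. -/
theorem le_finrank_lev [Finite ι] {κ : Type*} [Fintype κ] {w : ι → ℕ} {δ : κ → ℕ}
    {η : κ → ι → F[X]} (hfil : ∀ k, η k ∈ Lv F w (δ k + 1)) (hli : LinearIndependent F[X] η)
    {Λ : Submodule F[X] (ι → F[X])} (hΛ : ∀ k, η k ∈ Λ) (t : ℕ) :
    ∑ k, (t - δ k) ≤ Module.finrank F (lev Λ w t) := by
  rw [← combo_finrank hli]
  refine Submodule.finrank_mono ((combo_range_le hfil).trans (lev_mono ?_ le_rfl))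
  unfold lat
  rw [Submodule.span_le]
  rintro _ ⟨k, rfl⟩
  exact hΛ k

/-- Successive minima. -/
theorem RB.le_of_li {r : ℕ} {w : ι → ℕ} {δ : Fin r → ℕ} {η : Fin r → ι → F[X]}
    (h : RB w δ η) (hmono : Monotone δ) {m : Fin r} {t : ℕ} {κ : Type*} [Fintype κ]
    (hκ : (m : ℕ) < Fintype.card κ) (v : κ → ι → F[X])
    (hli : LinearIndependent F[X] v) (hv : ∀ k, v k ∈ lev (lat η) w (t + 1)) : δ m ≤ t := by
  by_contra hcon
  push Not at hcon
  set f : Fin m → Fin r := fun i => ⟨i, lt_trans i.2 m.2⟩ with hf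
  have h1 : Set.range v ⊆ Submodule.span F[X] (Set.range (η ∘ f)) := by
    rintro _ ⟨k, rfl⟩
    have h2 := hv k
    rw [mem_lev] at h2
    obtain ⟨p, hp⟩ := mem_lat.mp h2.1
    have h3 := h.pd p (t + 1) (by rw [hp]; exact h2.2)
    rw [← hp]
    refine Submodule.sum_mem _ fun i _ => ?_
    by_cases hi : i < m
    · exact Submodule.smul_mem _ _ (Submodule.subset_span ⟨⟨i, hi⟩, rfl⟩)
    · have h4 : p i = 0 := by
        ext l
        rw [coeff_zero]
        have := hmono (not_lt.mp hi)
        exact h3 i l (by omega)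
      rw [h4, zero_smul]
      exact Submodule.zero_mem _
  have : Fintype (Set.range (η ∘ f)) := Fintype.ofFinite _
  have h2 := linearIndependent_le_span' v hli _ h1
  have h3 : Fintype.card (Set.range (η ∘ f)) ≤ m := by
    have := Fintype.card_range_le (η ∘ f)
    rw [Fintype.card_fin] at this
    convert this
  rw [Cardinal.mk_fintype, Nat.cast_le] at h2
  omega

/-- Evaluation bound: a finite family of linear maps. -/
theorem finrank_le_one {E E' : Type*} [AddCommGroup E] [Module F E] [AddCommGroup E']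
    [Module F E'] (W : Submodule F E) [Module.Finite F W] (f : E →ₗ[F] E') (T : Submodule F E')
    [Module.Finite F T] (h : ∀ x ∈ W, f x ∈ T) :
    Module.finrank F W ≤ Module.finrank F (W ⊓ LinearMap.ker f : Submodule F E)
      + Module.finrank F T := by
  have h1 := LinearMap.finrank_range_add_finrank_ker (f.domRestrict W)
  have h2 : Module.finrank F (f.domRestrict W).range ≤ Module.finrank F T := by
    refine Submodule.finrank_mono ?_
    rintro _ ⟨x, rfl⟩
    exact h _ x.2
  have h3 : Module.finrank F (f.domRestrict W).ker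
      ≤ Module.finrank F (W ⊓ LinearMap.ker f : Submodule F E) := by
    have : Module.Finite F (W ⊓ LinearMap.ker f : Submodule F E) :=
      Submodule.finiteDimensional_of_le (inf_le_left : W ⊓ LinearMap.ker f ≤ W)
    set g : (f.domRestrict W).ker →ₗ[F] (W ⊓ LinearMap.ker f : Submodule F E) :=
      (W.subtype.domRestrict (f.domRestrict W).ker).codRestrict _ (by
        rintro ⟨x, hx⟩
        exact ⟨x.2, hx⟩) with hg
    refine LinearMap.finrank_le_finrank_of_injective (f := g) ?_
    intro x y hxy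
    have := congrArg Subtype.val hxy
    exact Subtype.ext (Subtype.ext this)
  omega

theorem finrank_le_sum {E : Type*} [AddCommGroup E] [Module F E] {κ : Type*} {E' : κ → Type*}
    [∀ k, AddCommGroup (E' k)] [∀ k, Module F (E' k)] (W : Submodule F E) [Module.Finite F W]
    (s : Finset κ) (f : ∀ k, E →ₗ[F] E' k) (T : ∀ k, Submodule F (E' k))
    [∀ k, Module.Finite F (T k)] (h : ∀ x ∈ W, ∀ k, f k x ∈ T k) :
    Module.finrank F W ≤
      Module.finrank F (W ⊓ ⨅ k ∈ s, LinearMap.ker (f k) : Submodule F E)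
      + ∑ k ∈ s, Module.finrank F (T k) := by
  classical
  induction s using Finset.induction_on with
  | empty =>
    have : (W ⊓ ⨅ k ∈ (∅ : Finset κ), LinearMap.ker (f k) : Submodule F E) = W := by
      simp
    rw [this, Finset.sum_empty, add_zero]
  | insert a s ha ih =>
    have : Module.Finite F (W ⊓ ⨅ k ∈ s, LinearMap.ker (f k) : Submodule F E) :=
      Submodule.finiteDimensional_of_le (inf_le_left : W ⊓ _ ≤ W)
    have h1 := finrank_le_one (W ⊓ ⨅ k ∈ s, LinearMap.ker (f k) : Submodule F E) (f a) (T a)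
      (fun x hx => h x hx.1 a)
    rw [Finset.sum_insert ha]
    have h2 : (W ⊓ ⨅ k ∈ insert a s, LinearMap.ker (f k) : Submodule F E)
        = (W ⊓ ⨅ k ∈ s, LinearMap.ker (f k)) ⊓ LinearMap.ker (f a) := by
      rw [Finset.iInf_insert, inf_comm (LinearMap.ker (f a)), inf_assoc]
    rw [h2]
    omega

/-- The bilinear pairing. -/
def dotL [Fintype ι] (y : ι → F[X]) : (ι → F[X]) →ₗ[F[X]] F[X] where
  toFun v := ∑ j, v j * y j
  map_add' u v := by
    rw [← Finset.sum_add_distrib]
    exact Finset.sum_congr rfl fun j _ => by rw [Pi.add_apply, add_mul]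
  map_smul' c v := by
    rw [RingHom.id_apply, smul_eq_mul, Finset.mul_sum]
    exact Finset.sum_congr rfl fun j _ => by rw [Pi.smul_apply, smul_eq_mul, mul_assoc]

theorem dotL_apply [Fintype ι] (y v : ι → F[X]) : dotL y v = ∑ j, v j * y j := rfl

theorem dotL_comm [Fintype ι] (y v : ι → F[X]) : dotL y v = dotL v y :=
  Finset.sum_congr rfl fun _ _ => mul_comm _ _

/-- The orthogonal lattice. -/
def perp [Fintype ι] (Λ : Submodule F[X] (ι → F[X])) : Submodule F[X] (ι → F[X]) where
  carrier := {r | ∀ v ∈ Λ, dotL v r = 0}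
  add_mem' := fun ha hb v hv => by rw [map_add, ha v hv, hb v hv, add_zero]
  zero_mem' := fun v _ => map_zero _
  smul_mem' := fun c r hr v hv => by rw [map_smul, hr v hv, smul_zero]

theorem mem_perp [Fintype ι] {Λ : Submodule F[X] (ι → F[X])} {r : ι → F[X]} :
    r ∈ perp Λ ↔ ∀ v ∈ Λ, dotL v r = 0 := Iff.rfl

theorem mem_perp_lat [Fintype ι] {κ : Type*} {η : κ → ι → F[X]} {r : ι → F[X]} :
    r ∈ perp (lat η) ↔ ∀ k, dotL (η k) r = 0 := by
  constructor
  · intro h k
    exact h _ (Submodule.subset_span ⟨k, rfl⟩)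
  · intro h v hv
    rw [dotL_comm]
    have h1 : lat η ≤ LinearMap.ker (dotL r) := by
      unfold lat
      rw [Submodule.span_le]
      rintro _ ⟨k, rfl⟩
      rw [SetLike.mem_coe, LinearMap.mem_ker, dotL_comm]
      exact h k
    exact h1 hv

theorem le_perp_perp [Fintype ι] (Λ : Submodule F[X] (ι → F[X])) : Λ ≤ perp (perp Λ) := by
  intro v hv r hr
  rw [dotL_comm]
  exact hr v hv

theorem perp_anti [Fintype ι] {Λ Λ' : Submodule F[X] (ι → F[X])} (h : Λ ≤ Λ') :
    perp Λ' ≤ perp Λ := fun _ hr v hv => hr v (h hv)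

theorem perp_perp_perp [Fintype ι] (Λ : Submodule F[X] (ι → F[X])) :
    perp (perp (perp Λ)) = perp Λ :=
  le_antisymm (perp_anti (le_perp_perp Λ)) (le_perp_perp _)

theorem dotL_mem_degreeLT [Fintype ι] {w w' : ι → ℕ} {c : ℕ} (hw : ∀ j, w j + w' j = c)
    {t δ : ℕ} {y r : ι → F[X]} (hy : y ∈ Lv F w' (δ + 1)) (hr : r ∈ Lv F w t) :
    dotL y r ∈ degreeLT F (t + δ - c) := by
  rw [mem_degreeLT, degree_lt_iff_coeff_zero]
  intro m hm
  rw [dotL_apply, finsetSum_coeff]
  refine Finset.sum_eq_zero fun j _ => ?_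
  rw [coeff_mul]
  refine Finset.sum_eq_zero fun x hx => ?_
  rw [Finset.HasAntidiagonal.mem_antidiagonal] at hx
  have h1 := hw j
  by_cases h : t ≤ x.1 + w j
  · rw [hr j _ h, zero_mul]
  · rw [hy j x.2 (by omega), mul_zero]

/-- The easy inequality for the dimension of orthogonal levels. -/
theorem sum_le_finrank_perp [Fintype ι] {κ : Type*} [Fintype κ] {w w' : ι → ℕ} {c : ℕ}
    (hw : ∀ j, w j + w' j = c) {δ : κ → ℕ} {η : κ → ι → F[X]}
    (hη : ∀ k, η k ∈ Lv F w' (δ k + 1)) (t : ℕ) :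
    ∑ j, (t - w j) ≤ Module.finrank F (lev (perp (lat η)) w t) + ∑ k, (t + δ k - c) := by
  have h1 := finrank_le_sum (F := F) (Lv F w t) Finset.univ
    (fun k => (dotL (η k)).restrictScalars F) (fun k => degreeLT F (t + δ k - c))
    (fun x hx k => dotL_mem_degreeLT hw (hη k) hx)
  rw [finrank_Lv, Finset.sum_congr rfl fun k _ => finrank_degreeLT (F := F) (t + δ k - c)] at h1
  refine h1.trans (Nat.add_le_add_right (Submodule.finrank_mono ?_) _)
  intro x hx
  rw [mem_lev]
  refine ⟨?_, hx.1⟩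
  rw [mem_perp_lat]
  intro k
  have h2 := hx.2
  rw [SetLike.mem_coe, Submodule.mem_iInf] at h2
  have h3 := h2 k
  rw [Submodule.mem_iInf] at h3
  exact h3 (Finset.mem_univ k)

/-- Rank and degree of the orthogonal lattice: the easy inequalities. -/
theorem perp_le [Fintype ι] {κ κ' : Type*} [Fintype κ] [Fintype κ'] {w w' : ι → ℕ} {c : ℕ}
    (hw : ∀ j, w j + w' j = c)
    {δ : κ → ℕ} {η : κ → ι → F[X]} (hη : ∀ k, η k ∈ Lv F w' (δ k + 1))
    {δ' : κ' → ℕ} {η' : κ' → ι → F[X]} (hη' : RB w δ' η') (hlat : perp (lat η) = lat η') :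
    Fintype.card ι ≤ Fintype.card κ + Fintype.card κ' ∧
      (Fintype.card ι = Fintype.card κ + Fintype.card κ' →
        ∑ k, δ' k + c * Fintype.card κ ≤ ∑ j, w j + ∑ k, δ k) := by
  have key : ∀ t, (∀ j, w j ≤ t) → (∀ k, δ' k ≤ t) → c ≤ t →
      Fintype.card ι * t + ∑ k, δ' k + c * Fintype.card κ ≤
        (Fintype.card κ + Fintype.card κ') * t + ∑ j, w j + ∑ k, δ k := by
    intro t h1 h2 h3
    have h4 := sum_le_finrank_perp hw hη t
    rw [hlat, hη'.finrank_lev] at h4
    have h5 := sum_sub_add w h1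
    have h6 := sum_sub_add δ' h2
    have h7 : ∑ k, (t + δ k - c) + c * Fintype.card κ = Fintype.card κ * t + ∑ k, δ k := by
      have : ∀ k : κ, (t + δ k - c) + c = t + δ k := fun k => by omega
      calc ∑ k, (t + δ k - c) + c * Fintype.card κ
          = ∑ k, (t + δ k - c) + ∑ _k : κ, c := by
            rw [Finset.sum_const, Finset.card_univ, smul_eq_mul, mul_comm c]
        _ = ∑ k, ((t + δ k - c) + c) := by rw [Finset.sum_add_distrib]
        _ = ∑ k, (t + δ k) := Finset.sum_congr rfl fun k _ => this k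
        _ = _ := by rw [Finset.sum_add_distrib]; simp
    rw [add_mul]
    omega
  have hex : ∀ s, ∃ t, s ≤ t ∧ (∀ j, w j ≤ t) ∧ (∀ k, δ' k ≤ t) ∧ c ≤ t := by
    intro s
    refine ⟨s + ∑ j, w j + ∑ k, δ' k + c, by omega, fun j => ?_, fun k => ?_, by omega⟩
    · have := Finset.single_le_sum (f := w) (fun _ _ => Nat.zero_le _) (Finset.mem_univ j)
      omega
    · have := Finset.single_le_sum (f := δ') (fun _ _ => Nat.zero_le _) (Finset.mem_univ k)
      omega
  constructor
  · by_contra hcon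
    push Not at hcon
    obtain ⟨t, h0, h1, h2, h3⟩ := hex (∑ j, w j + ∑ k, δ k + 1)
    have h4 := key t h1 h2 h3
    have h5 : (Fintype.card κ + Fintype.card κ' + 1) * t ≤ Fintype.card ι * t :=
      Nat.mul_le_mul_right _ hcon
    rw [add_mul _ 1, one_mul] at h5
    omega
  · intro heq
    obtain ⟨t, -, h1, h2, h3⟩ := hex 0
    have h4 := key t h1 h2 h3
    rw [← heq] at h4
    omega

/-- Degree of the orthogonal lattice, for a lattice equal to its double orthogonal. -/
theorem perp_eq [Fintype ι] {κ κ' : Type*} [Fintype κ] [Fintype κ'] {w w' : ι → ℕ} {c : ℕ}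
    (hw : ∀ j, w j + w' j = c)
    {δ : κ → ℕ} {η : κ → ι → F[X]} (hη : RB w' δ η)
    {δ' : κ' → ℕ} {η' : κ' → ι → F[X]} (hη' : RB w δ' η') (hlat : perp (lat η) = lat η')
    (hlat' : perp (lat η') = lat η)
    (hcard : Fintype.card ι = Fintype.card κ + Fintype.card κ') :
    ∑ k, δ' k + c * Fintype.card κ = ∑ j, w j + ∑ k, δ k := by
  have h1 := (perp_le hw hη.fil hη' hlat).2 hcard
  have h2 := (perp_le (w := w') (w' := w) (fun j => by rw [add_comm]; exact hw j) hη'.fil hη
    hlat').2 (by rw [hcard, add_comm])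
  have h3 : ∑ j, w j + ∑ j, w' j = c * (Fintype.card κ + Fintype.card κ') := by
    rw [← Finset.sum_add_distrib, Finset.sum_congr rfl fun j _ => hw j, ← hcard]
    simp [mul_comm]
  rw [mul_add] at h3
  omega

end

end Pool.Agent.Helper730_PP
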