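import Pool.Agent.Helper730_PP.CoreD

/-!
# Moebius transformations
-/

open Polynomial

namespace Pool.Agent.Helper730_PP

noncomputable section

section

variable {F : Type} [Field F]

/-- The transformation of a polynomial of formal degree `n`. -/
def mb (F : Type) [Field F] (x0 n : ℕ) : F[X] →ₗ[F] F[X] where
  toFun p := reflect n (taylor (x0 : F) p)
  map_add' p q := by rw [map_add, reflect_add]
  map_smul' c p := by
    rw [map_smul, smul_eq_C_mul, reflect_C_mul, RingHom.id_apply, smul_eq_C_mul]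

/-- The inverse transformation. -/
def mbi (F : Type) [Field F] (x0 n : ℕ) : F[X] →ₗ[F] F[X] where
  toFun p := taylor (-(x0 : F)) (reflect n p)
  map_add' p q := by rw [reflect_add, map_add]
  map_smul' c p := by
    rw [smul_eq_C_mul, reflect_C_mul, ← smul_eq_C_mul, map_smul, RingHom.id_apply]

theorem mb_apply (x0 n : ℕ) (p : F[X]) : mb F x0 n p = reflect n (taylor (x0 : F) p) := rfl

theorem mbi_apply (x0 n : ℕ) (p : F[X]) : mbi F x0 n p = taylor (-(x0 : F)) (reflect n p) := rfl

theorem mb_natDegree {x0 n : ℕ} {p : F[X]} (hp : p.natDegree ≤ n) :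
    (mb F x0 n p).natDegree ≤ n := by
  rw [mb_apply]
  refine natDegree_reflect_le.trans ?_
  rw [natDegree_taylor]
  exact max_le le_rfl hp

theorem mbi_natDegree {x0 n : ℕ} {p : F[X]} (hp : p.natDegree ≤ n) :
    (mbi F x0 n p).natDegree ≤ n := by
  rw [mbi_apply, natDegree_taylor]
  refine natDegree_reflect_le.trans ?_
  exact max_le le_rfl hp

theorem mb_mul {x0 n m : ℕ} {p q : F[X]} (hp : p.natDegree ≤ n) (hq : q.natDegree ≤ m) :
    mb F x0 (n + m) (p * q) = mb F x0 n p * mb F x0 m q := by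
  rw [mb_apply, taylor_mul, reflect_mul _ _ (by rwa [natDegree_taylor])
    (by rwa [natDegree_taylor])]
  rfl

theorem mbi_mul {x0 n m : ℕ} {p q : F[X]} (hp : p.natDegree ≤ n) (hq : q.natDegree ≤ m) :
    mbi F x0 (n + m) (p * q) = mbi F x0 n p * mbi F x0 m q := by
  rw [mbi_apply, reflect_mul _ _ hp hq, taylor_mul]
  rfl

theorem mb_mbi (x0 n : ℕ) (p : F[X]) : mb F x0 n (mbi F x0 n p) = p := by
  rw [mb_apply, mbi_apply, taylor_taylor, add_neg_cancel, taylor_zero, reflect_reflect]

theorem mbi_mb (x0 n : ℕ) (p : F[X]) : mbi F x0 n (mb F x0 n p) = p := by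
  rw [mb_apply, mbi_apply, reflect_reflect, taylor_taylor, neg_add_cancel, taylor_zero]

theorem mb_eq_zero {x0 n : ℕ} {p : F[X]} : mb F x0 n p = 0 ↔ p = 0 := by
  constructor
  · intro h
    rw [← mbi_mb x0 n p, h, map_zero]
  · rintro rfl
    exact map_zero _

theorem mb_coeff_top (x0 n : ℕ) (p : F[X]) : (mb F x0 n p).coeff n = p.eval (x0 : F) := by
  rw [mb_apply, coeff_reflect, revAt_le le_rfl, Nat.sub_self, taylor_coeff_zero]

theorem mb_map {F' : Type} [Field F'] (f : F →+* F') (x0 n : ℕ) (p : F[X]) :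
    (mb F x0 n p).map f = mb F' x0 n (p.map f) := by
  rw [mb_apply, mb_apply, ← reflect_map, map_taylor, map_natCast]

theorem mbi_map {F' : Type} [Field F'] (f : F →+* F') (x0 n : ℕ) (p : F[X]) :
    (mbi F x0 n p).map f = mbi F' x0 n (p.map f) := by
  rw [mbi_apply, mbi_apply, map_taylor, reflect_map, map_neg, map_natCast]

theorem mb_C_mul (x0 n : ℕ) (c : F) (p : F[X]) : mb F x0 n (C c * p) = C c * mb F x0 n p := by
  rw [← smul_eq_C_mul, map_smul, smul_eq_C_mul]

/-- The degree bound. -/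
theorem natDegree_le_of_Lv {ι : Type*} {w : ι → ℕ} (hw : ∀ j, w j = 0) {T : ℕ} {v : ι → F[X]}
    (hv : v ∈ Lv F w (T + 1)) (j : ι) : (v j).natDegree ≤ T := by
  rw [natDegree_le_iff_coeff_eq_zero]
  intro k hk
  exact hv j k (by rw [hw j]; omega)

theorem Lv_of_natDegree_le {ι : Type*} {w : ι → ℕ} (hw : ∀ j, w j = 0) {T : ℕ} {v : ι → F[X]}
    (hv : ∀ j, (v j).natDegree ≤ T) : v ∈ Lv F w (T + 1) := by
  intro j k hk
  refine coeff_eq_zero_of_natDegree_lt ?_
  have := hv j
  rw [hw j] at hk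
  omega

/-- Transport of lattice membership. -/
theorem transport {ι : Type*} {r : ℕ} {w : ι → ℕ} (hw : ∀ j, w j = 0) {δ : Fin r → ℕ}
    {η : Fin r → ι → F[X]} (hη : RB w δ η) (Φ : ℕ → F[X] →ₗ[F] F[X])
    (hΦ : ∀ (n m : ℕ) (p q : F[X]), p.natDegree ≤ n → q.natDegree ≤ m →
      Φ (n + m) (p * q) = Φ n p * Φ m q) {T : ℕ} {x : ι → F[X]} (hx : x ∈ lat η)
    (hxT : x ∈ Lv F w (T + 1)) :
    (fun j => Φ T (x j)) ∈ lat (fun k j => Φ (δ k) (η k j)) := by
  obtain ⟨p, rfl⟩ := mem_lat.mp hx
  have h1 := hη.pd p (T + 1) hxT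
  refine mem_lat.mpr ⟨fun k => Φ (T - δ k) (p k), ?_⟩
  funext j
  rw [Finset.sum_apply, Finset.sum_apply, map_sum]
  refine Finset.sum_congr rfl fun k _ => ?_
  rw [Pi.smul_apply, Pi.smul_apply, smul_eq_mul, smul_eq_mul]
  by_cases hk : δ k ≤ T
  · rw [← hΦ (T - δ k) (δ k) (p k) (η k j) ?_ (natDegree_le_of_Lv hw (hη.fil k) j)]
    · rw [Nat.sub_add_cancel hk]
    · rw [natDegree_le_iff_coeff_eq_zero]
      intro l hl
      exact h1 k l (by omega)
  · have h2 : p k = 0 := by
      ext l
      rw [coeff_zero]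
      exact h1 k l (by omega)
    show Φ (T - δ k) (p k) * Φ (δ k) (η k j) = Φ T (p k * η k j)
    rw [h2, map_zero, zero_mul, zero_mul, map_zero]

/-- Generic evaluation of an independent family is independent. -/
theorem eval_li {κ ι : Type} [Fintype κ] [Fintype ι] {v : κ → ι → F[X]}
    (hv : LinearIndependent F[X] v) : ∃ P : F[X], P ≠ 0 ∧ ∀ x, P.eval x ≠ 0 →
      LinearIndependent F (fun k j => (v k j).eval x) := by
  classical
  set eκ := Fintype.equivFin κ with heκ
  set eι := Fintype.equivFin ι with heι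
  set L : Matrix (Fin (Fintype.card κ)) (Fin (Fintype.card ι)) (FractionRing F[X]) :=
    Matrix.of fun i j => algebraMap F[X] (FractionRing F[X]) (v (eκ.symm i) (eι.symm j)) with hL
  have hinj : Function.Injective (algebraMap F[X] (FractionRing F[X])) :=
    IsFractionRing.injective F[X] (FractionRing F[X])
  have hli0 : LinearIndependent F[X] (fun i => (L i : Fin (Fintype.card ι) → FractionRing F[X])) := by
    rw [Fintype.linearIndependent_iff]
    intro g hg
    rw [Fintype.linearIndependent_iff] at hv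
    have h1 := hv (fun k => g (eκ k)) (by
      funext j
      rw [Finset.sum_apply, Pi.zero_apply]
      apply hinj
      have h2 := congrFun hg (eι j)
      rw [Finset.sum_apply, Pi.zero_apply] at h2
      rw [map_zero, ← h2, map_sum, ← Equiv.sum_comp eκ]
      refine Finset.sum_congr rfl fun k _ => ?_
      rw [Pi.smul_apply, Pi.smul_apply, smul_eq_mul, map_mul, Algebra.smul_def, hL]
      simp only [Matrix.of_apply, Equiv.symm_apply_apply])
    intro i
    have h2 := h1 (eκ.symm i)
    simpa using h2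
  have hli1 := (LinearIndependent.iff_fractionRing F[X] (FractionRing F[X])).mp hli0
  rw [Fintype.linearIndependent_iff] at hli1
  obtain ⟨e, he⟩ := exists_minor_ne_zero L (fun α hα => by
    funext i
    refine hli1 α ?_ i
    funext j
    rw [Finset.sum_apply, Pi.zero_apply, ← hα j]
    rfl)
  set M : Matrix (Fin (Fintype.card κ)) (Fin (Fintype.card κ)) F[X] :=
    Matrix.of fun i j => v (eκ.symm i) (eι.symm (e j)) with hM
  have hMdet : M.det ≠ 0 := by
    intro h
    apply he
    have h1 : L.submatrix id e = (algebraMap F[X] (FractionRing F[X])).mapMatrix M := rfl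
    rw [h1, ← RingHom.map_det, h, map_zero]
  refine ⟨M.det, hMdet, fun x hx => ?_⟩
  rw [Fintype.linearIndependent_iff]
  intro g hg
  have h1 : Matrix.vecMul (fun i => g (eκ.symm i)) ((evalRingHom x).mapMatrix M) = 0 := by
    funext j
    rw [Matrix.vecMul, dotProduct, Pi.zero_apply]
    have h2 := congrFun hg (eι.symm (e j))
    rw [Finset.sum_apply, Pi.zero_apply] at h2
    rw [← h2, ← Equiv.sum_comp eκ]
    refine Finset.sum_congr rfl fun k _ => ?_
    rw [Equiv.symm_apply_apply, Pi.smul_apply, smul_eq_mul, RingHom.mapMatrix_apply,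
      Matrix.map_apply, hM]
    simp only [Matrix.of_apply, Equiv.symm_apply_apply]
    rfl
  have h2 := Matrix.eq_zero_of_vecMul_eq_zero (by
    rw [← RingHom.map_det]; exact hx) h1
  intro k
  have h3 := congrFun h2 (eκ k)
  simpa using h3

theorem exists_nat_eval_ne {Q : ℂ[X]} (hQ : Q ≠ 0) : ∃ n : ℕ, Q.eval (n : ℂ) ≠ 0 := by
  by_contra hcon
  push Not at hcon
  apply hQ
  refine eq_zero_of_infinite_isRoot Q ?_
  refine Set.Infinite.mono (s := Set.range (fun n : ℕ => (n : ℂ))) ?_
    (Set.infinite_range_of_injective Nat.cast_injective)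
  rintro _ ⟨n, rfl⟩
  exact hcon n

end

end

end Pool.Agent.Helper730_PP
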