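import Pool.Agent.Helper730_PP.BaseConf

/-!
# Real lattices without torsion at infinity
-/

open Polynomial

namespace Pool.Agent.Helper730_PP

noncomputable section

theorem ld_w0 {F : Type*} [Field F] {ι : Type*} (δ : ℕ) (v : ι → F[X]) (j : ι) :
    ld w0 δ v j = (v j).coeff δ := by
  unfold ld
  rw [if_pos (Nat.zero_le _)]
  rfl

/-- The top coefficients of an element of a lattice. -/
theorem top_coeff {F : Type*} [Field F] {ι κ : Type*} [Fintype κ] {δ : κ → ℕ}
    {η : κ → ι → F[X]} (hη : RB w0 δ η) {u : ι → F[X]} {T : ℕ} (hu : u ∈ lev (lat η) w0 (T + 1)) :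
    ∃ α : κ → F, ∀ j, (u j).coeff T = ∑ k, α k * (η k j).coeff (δ k) := by
  rw [mem_lev] at hu
  obtain ⟨p, hp⟩ := mem_lat.mp hu.1
  have h1 := hη.pd p (T + 1) (by rw [hp]; exact hu.2)
  refine ⟨fun k => if δ k ≤ T then (p k).coeff (T - δ k) else 0, fun j => ?_⟩
  rw [← hp, Finset.sum_apply, finsetSum_coeff]
  refine Finset.sum_congr rfl fun k _ => ?_
  rw [Pi.smul_apply, smul_eq_mul]
  beta_reduce
  by_cases hk : δ k ≤ T
  · rw [if_pos hk]
    have hd1 : (p k).natDegree ≤ T - δ k := by
      rw [natDegree_le_iff_coeff_eq_zero]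
      intro N hN
      exact h1 k N (by omega)
    have hd2 : (η k j).natDegree ≤ δ k := by
      rw [natDegree_le_iff_coeff_eq_zero]
      intro N hN
      exact hη.fil k j N (by show δ k + 1 ≤ N + 0; omega)
    have h5 := coeff_mul_add_eq_of_natDegree_le hd1 hd2
    rw [← h5]
    congr 1
    omega
  · rw [if_neg hk, zero_mul]
    have : p k = 0 := by
      ext N
      rw [h1 k N (by omega), coeff_zero]
    rw [this, zero_mul, coeff_zero]

theorem nice_step {c m e s : ℕ} {δ : Fin m → ℕ} {δ0 : Fin e → ℕ}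
    {η : Fin m → Fin c × Fin 2 → ℝ[X]} {ω : Fin e → Fin c → ℂ[X]} (hη : RB (w2 w0) δ η)
    (hω : RB w0 δ0 ω) (hωlat : lat ω = cmax (lat η)) (hse : m ≤ s + e)
    {T' : Finset (Fin m)} (hT' : T'.card = s)
    (hli : LinearIndependent ℂ fun k : T' => fun j : Fin c => (cx (η k) j).coeff (δ k))
    {T : ℕ} (hT : ∀ j, δ0 j ≤ T) {u v : Fin c × Fin 2 → ℝ[X]}
    (hu : u ∈ lev (lat η) (w2 w0) (T + 1)) (hv : v ∈ lev (lat η) (w2 w0) (T + 1))
    (huv : cx u + (II : ℂ[X]) • cx v ∈ Lv ℂ w0 T) :
    ∃ z ∈ cmax (lat η), u - rx z ∈ Lv ℝ (w2 w0) T := by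
  classical
  -- the real space of leading vectors
  set lead : ℕ → (Fin c × Fin 2 → ℝ[X]) → (Fin c → ℂ) := fun d v j => (cx v j).coeff d with hlead
  set L : Submodule ℝ (Fin c → ℂ) := Submodule.span ℝ (Set.range fun k => lead (δ k) (η k)) with hL
  have hmemL : ∀ (d : ℕ) (x : Fin c × Fin 2 → ℝ[X]), x ∈ lev (lat η) (w2 w0) (d + 1) →
      lead d x ∈ L := by
    intro d x hx
    obtain ⟨α, hα⟩ := top_coeff (η := η) (δ := δ) hη hx
    rw [hL, Submodule.mem_span_range_iff_exists_fun]
    refine ⟨α, ?_⟩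
    funext j
    rw [Finset.sum_apply]
    simp only [hlead, Pi.smul_apply]
    apply Complex.ext
    · rw [Complex.re_sum, cx_coeff]
      show _ = (x (j, 0)).coeff d
      rw [hα (j, 0)]
      refine Finset.sum_congr rfl fun k _ => ?_
      rw [cx_coeff, Complex.real_smul, Complex.re_ofReal_mul]
    · rw [Complex.im_sum, cx_coeff]
      show _ = (x (j, 1)).coeff d
      rw [hα (j, 1)]
      refine Finset.sum_congr rfl fun k _ => ?_
      rw [cx_coeff, Complex.real_smul, Complex.im_ofReal_mul]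
  have hLfin : Module.Finite ℝ L := by
    rw [hL]; exact FiniteDimensional.span_of_finite ℝ (Set.finite_range _)
  have hLdim : Module.finrank ℝ L ≤ m := by
    have := finrank_range_le_card (R := ℝ) (fun k => lead (δ k) (η k))
    rwa [Fintype.card_fin] at this
  set J : (Fin c → ℂ) →ₗ[ℝ] (Fin c → ℂ) :=
    { toFun := fun x => Complex.I • x
      map_add' := fun x y => smul_add _ _ _
      map_smul' := fun r x => by rw [RingHom.id_apply]; exact smul_comm _ _ _ } with hJ
  have hJi : Function.Injective J := by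
    intro x y hxy
    have h1 : Complex.I • x = Complex.I • y := hxy
    have h2 := congrArg (fun z => Complex.I⁻¹ • z) h1
    simpa [smul_smul] using h2
  have hfJ : Module.finrank ℝ (L.map J) = Module.finrank ℝ L :=
    (Submodule.equivMapOfInjective J hJi L).symm.finrank_eq
  -- the complex span has dimension at least `s`
  set W : Submodule ℂ (Fin c → ℂ) :=
    Submodule.span ℂ (Set.range fun k : T' => fun j : Fin c => (cx (η k) j).coeff (δ k)) with hW
  have hWdim : Module.finrank ℂ W = s := by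
    rw [hW, finrank_span_eq_card hli, Fintype.card_coe, hT']
  have hWle : W.restrictScalars ℝ ≤ L ⊔ L.map J := by
    intro x hx
    rw [Submodule.restrictScalars_mem, hW, Submodule.mem_span_range_iff_exists_fun] at hx
    obtain ⟨α, rfl⟩ := hx
    refine Submodule.sum_mem _ fun k _ => ?_
    have h1 : lead (δ k) (η k) ∈ L := Submodule.subset_span ⟨(k : Fin m), rfl⟩
    have h2 : α k • (fun j : Fin c => (cx (η k) j).coeff (δ k))
        = (α k).re • lead (δ k) (η k) + (α k).im • J (lead (δ k) (η k)) := by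
      funext j
      simp only [hlead, hJ, Pi.smul_apply, Pi.add_apply, LinearMap.coe_mk, AddHom.coe_mk,
        Complex.real_smul, smul_eq_mul]
      conv_lhs => rw [← Complex.re_add_im (α k)]
      ring
    rw [h2]
    exact Submodule.add_mem_sup (Submodule.smul_mem _ _ h1)
      (Submodule.smul_mem _ _ ⟨_, h1, rfl⟩)
  have hfinsup : Module.Finite ℝ (L ⊔ L.map J : Submodule ℝ (Fin c → ℂ)) := inferInstance
  have h2s : 2 * s ≤ Module.finrank ℝ (L ⊔ L.map J : Submodule ℝ (Fin c → ℂ)) := by
    have h1 := Submodule.finrank_mono hWle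
    have h2 : Module.finrank ℝ W = 2 * s := by
      rw [← hWdim, finrank_real_of_complex]
    have h3 : Module.finrank ℝ (W.restrictScalars ℝ) = Module.finrank ℝ W := rfl
    omega
  have hsum := Submodule.finrank_sup_add_finrank_inf_eq L (L.map J)
  have hinf : Module.finrank ℝ (L ⊓ L.map J : Submodule ℝ (Fin c → ℂ)) ≤ 2 * e := by omega
  -- the leading vectors of the complex part
  have hωU : ∀ j, rx (ω j) ∈ lat η ∧ rx (II • ω j) ∈ lat η := fun j => by
    have h1 : ω j ∈ cmax (lat η) := by rw [← hωlat]; exact Submodule.subset_span ⟨j, rfl⟩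
    exact h1
  have hII : ∀ j, (II : ℂ[X]) • ω j ∈ Lv ℂ w0 (δ0 j + 1) := fun j =>
    smul_mem_Lv (t := δ0 j + 1) (hω.fil j) (p := II) (fun l hl => by
      unfold II; rw [coeff_C, if_neg (by omega)])
  set Cc : Submodule ℂ (Fin c → ℂ) :=
    Submodule.span ℂ (Set.range fun i : Fin e => fun j : Fin c => (ω i j).coeff (δ0 i)) with hC
  have hCli : LinearIndependent ℂ fun i : Fin e => fun j : Fin c => (ω i j).coeff (δ0 i) := by
    rw [Fintype.linearIndependent_iff]
    intro g hg i
    have h1 := hω.pd (fun i => C (g i) * X ^ ((∑ i, δ0 i) - δ0 i)) (∑ i, δ0 i) (by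
      intro j k hk
      have hk' : ∑ i, δ0 i ≤ k := hk
      rw [Finset.sum_apply, finsetSum_coeff]
      have h2 : ∀ i, δ0 i ≤ ∑ i, δ0 i := fun i =>
        Finset.single_le_sum (f := δ0) (fun _ _ => Nat.zero_le _) (Finset.mem_univ i)
      rcases Nat.lt_or_ge (∑ i, δ0 i) k with h3 | h3
      · refine Finset.sum_eq_zero fun i _ => ?_
        rw [Pi.smul_apply, smul_eq_mul, mul_assoc, coeff_C_mul, coeff_X_pow_mul']
        split_ifs with h4
        · rw [hω.fil i j _ (by have := h2 i; show δ0 i + 1 ≤ _ + 0; omega), mul_zero]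
        · rw [mul_zero]
      · have h4 : k = ∑ i, δ0 i := le_antisymm h3 hk'
        have h5 := congrFun hg j
        rw [Finset.sum_apply] at h5
        rw [← Pi.zero_apply (M := fun _ => ℂ) j, ← h5]
        refine Finset.sum_congr rfl fun i _ => ?_
        rw [Pi.smul_apply, Pi.smul_apply, smul_eq_mul, smul_eq_mul, mul_assoc, coeff_C_mul,
          coeff_X_pow_mul', if_pos (by omega)]
        congr 2
        have := h2 i
        omega) i ((∑ i, δ0 i) - δ0 i) (by
      have := Finset.single_le_sum (f := δ0) (fun _ _ => Nat.zero_le _) (Finset.mem_univ i)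
      omega)
    rwa [coeff_C_mul, coeff_X_pow, if_pos rfl, mul_one] at h1
  have hCdim : Module.finrank ℂ Cc = e := by
    rw [hC, finrank_span_eq_card hCli, Fintype.card_fin]
  have hCL : Cc.restrictScalars ℝ ≤ L ⊓ L.map J := by
    intro x hx
    rw [Submodule.restrictScalars_mem, hC, Submodule.mem_span_range_iff_exists_fun] at hx
    obtain ⟨α, rfl⟩ := hx
    refine Submodule.sum_mem _ fun i _ => ?_
    have h1 : (fun j : Fin c => (ω i j).coeff (δ0 i)) ∈ L := by
      have h3 := hmemL (δ0 i) (rx (ω i)) (mem_lev.mpr ⟨(hωU i).1, rx_mem_Lv.mpr (hω.fil i)⟩)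
      have h4 : lead (δ0 i) (rx (ω i)) = fun j : Fin c => (ω i j).coeff (δ0 i) := by
        funext j
        simp only [hlead]
        rw [cx_rx]
      rwa [h4] at h3
    have h2 : (Complex.I • fun j : Fin c => (ω i j).coeff (δ0 i)) ∈ L := by
      have h3 := hmemL (δ0 i) (rx (II • ω i)) (mem_lev.mpr ⟨(hωU i).2, rx_mem_Lv.mpr (hII i)⟩)
      have h4 : lead (δ0 i) (rx (II • ω i)) = Complex.I • fun j : Fin c => (ω i j).coeff (δ0 i) := by
        funext j
        simp only [hlead]
        rw [cx_rx, Pi.smul_apply, Pi.smul_apply, smul_eq_mul, smul_eq_mul]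
        unfold II
        rw [coeff_C_mul]
      rwa [h4] at h3
    have h3 : α i • (fun j : Fin c => (ω i j).coeff (δ0 i))
        = (α i).re • (fun j : Fin c => (ω i j).coeff (δ0 i))
          + (α i).im • (Complex.I • fun j : Fin c => (ω i j).coeff (δ0 i)) := by
      funext j
      simp only [Pi.smul_apply, Pi.add_apply, Complex.real_smul, smul_eq_mul]
      conv_lhs => rw [← Complex.re_add_im (α i)]
      ring
    rw [h3]
    refine ⟨Submodule.add_mem _ (Submodule.smul_mem _ _ h1) (Submodule.smul_mem _ _ h2), ?_⟩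
    refine Submodule.add_mem _ (Submodule.smul_mem _ _ ?_) (Submodule.smul_mem _ _ ?_)
    · refine ⟨-(Complex.I • fun j : Fin c => (ω i j).coeff (δ0 i)), Submodule.neg_mem _ h2, ?_⟩
      funext j
      simp only [hJ, LinearMap.coe_mk, AddHom.coe_mk, Pi.smul_apply, Pi.neg_apply, smul_eq_mul]
      rw [mul_neg, ← mul_assoc, Complex.I_mul_I]
      ring
    · exact ⟨_, h1, rfl⟩
  have hCeq : Cc.restrictScalars ℝ = L ⊓ L.map J := by
    have hfininf : Module.Finite ℝ (L ⊓ L.map J : Submodule ℝ (Fin c → ℂ)) := inferInstance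
    refine Submodule.eq_of_le_of_finrank_le hCL ?_
    have h2 : Module.finrank ℝ Cc = 2 * e := by
      rw [← hCdim, finrank_real_of_complex]
    have h3 : Module.finrank ℝ (Cc.restrictScalars ℝ) = Module.finrank ℝ Cc := rfl
    omega
  -- conclusion
  have hlu := hmemL T u hu
  have hlv := hmemL T v hv
  have huvT : ∀ j, (cx u j).coeff T + Complex.I * (cx v j).coeff T = 0 := by
    intro j
    have h1 := huv j T (by show T ≤ T + 0; omega)
    rw [Pi.add_apply, coeff_add, Pi.smul_apply, smul_eq_mul] at h1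
    unfold II at h1
    rwa [coeff_C_mul] at h1
  have h1 : lead T u ∈ L ⊓ L.map J := by
    refine ⟨hlu, ⟨-lead T v, Submodule.neg_mem _ hlv, ?_⟩⟩
    funext j
    simp only [hJ, hlead, LinearMap.coe_mk, AddHom.coe_mk, Pi.smul_apply, Pi.neg_apply,
      smul_eq_mul]
    have := huvT j
    linear_combination -this
  rw [← hCeq, Submodule.restrictScalars_mem, hC, Submodule.mem_span_range_iff_exists_fun] at h1
  obtain ⟨α, hα⟩ := h1
  refine ⟨∑ i, (C (α i) * X ^ (T - δ0 i) : ℂ[X]) • ω i, ?_, ?_⟩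
  · refine Submodule.sum_mem _ fun i _ => Submodule.smul_mem _ _ ?_
    rw [← hωlat]
    exact Submodule.subset_span ⟨i, rfl⟩
  · rw [← cx_mem_Lv]
    have h3 : cx (u - rx (∑ i, (Polynomial.C (α i) * X ^ (T - δ0 i) : ℂ[X]) • ω i))
        = cx u - ∑ i, (Polynomial.C (α i) * X ^ (T - δ0 i) : ℂ[X]) • ω i := by
      rw [eq_sub_iff_add_eq]
      conv_lhs => rw [← cx_rx (∑ i, (Polynomial.C (α i) * X ^ (T - δ0 i) : ℂ[X]) • ω i)]
      rw [← cx_add, rx_cx, sub_add_cancel]
    rw [h3]
    intro j k hk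
    have hk' : T ≤ k := hk
    rw [Pi.sub_apply, coeff_sub, Finset.sum_apply, finsetSum_coeff]
    rcases Nat.lt_or_ge T k with h4 | h4
    · have h5 : (cx u j).coeff k = 0 := (cx_mem_Lv.mpr (mem_lev.mp hu).2) j k (by
        show T + 1 ≤ k + 0; omega)
      rw [h5, zero_sub, neg_eq_zero]
      refine Finset.sum_eq_zero fun i _ => ?_
      rw [Pi.smul_apply, smul_eq_mul, mul_assoc, coeff_C_mul, coeff_X_pow_mul']
      split_ifs with h6
      · rw [hω.fil i j _ (by have := hT i; show δ0 i + 1 ≤ _ + 0; omega), mul_zero]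
      · rw [mul_zero]
    · have h5 : k = T := le_antisymm h4 hk'
      rw [sub_eq_zero]
      have h6 := congrFun hα j
      rw [Finset.sum_apply] at h6
      rw [h5]
      have h7 : lead T u j = (cx u j).coeff T := rfl
      rw [← h7, ← h6]
      refine Finset.sum_congr rfl fun i _ => ?_
      rw [Pi.smul_apply, Pi.smul_apply, smul_eq_mul, smul_eq_mul, mul_assoc, coeff_C_mul,
        coeff_X_pow_mul', if_pos (by omega)]
      congr 2
      have := hT i
      omega

end

end Pool.Agent.Helper730_PP
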