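import Pool.Agent.Helper730_PP.BaseConf

/-!
# A generic complex matrix is injective on real lattices of small degree
-/

open Polynomial

namespace Pool.Agent.Helper730_PP

noncomputable section

section general

variable {R M : Type*} [CommRing R] [IsDomain R] [AddCommGroup M] [Module R M]

theorem exists_maximal_fun0 {κ : Type*} [Fintype κ] [DecidableEq κ] (v : κ → M) :
    ∃ T : Finset κ, (∀ q : κ → R, (∀ k, k ∉ T → q k = 0) → ∑ k, q k • v k = 0 → q = 0) ∧
      ∀ k, k ∉ T → ∃ q : κ → R, (∀ l, l ∉ insert k T → q l = 0) ∧ q k ≠ 0 ∧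
        ∑ k, q k • v k = 0 := by
  obtain ⟨T, h1, h2⟩ := exists_maximal_fun (R := R) (κ0 := Fin 0) (fun _ => (0 : M)) v
    (fun p _ => Subsingleton.elim _ _)
  refine ⟨T, fun q hq h => (h1 (fun _ => 0) q hq (by simpa using h)).2, fun k hk => ?_⟩
  obtain ⟨p, q, hq, hqk, h⟩ := h2 k hk
  exact ⟨q, hq, hqk, by simpa using h⟩

/-- A common denominator. -/
theorem exists_common {κ : Type*} [Fintype κ] (N : Submodule R M) (v : κ → M)
    (h : ∀ k, ∃ z : R, z ≠ 0 ∧ z • v k ∈ N) :
    ∃ z : R, z ≠ 0 ∧ ∀ y ∈ Submodule.span R (Set.range v), z • y ∈ N := by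
  classical
  choose z hz hzv using h
  refine ⟨∏ k, z k, Finset.prod_ne_zero_iff.mpr fun k _ => hz k, fun y hy => ?_⟩
  obtain ⟨p, rfl⟩ := (Submodule.mem_span_range_iff_exists_fun R).mp hy
  rw [Finset.smul_sum]
  refine Submodule.sum_mem _ fun k _ => ?_
  rw [smul_comm, ← Finset.prod_erase_mul Finset.univ z (Finset.mem_univ k), mul_smul]
  exact Submodule.smul_mem _ _ (Submodule.smul_mem _ _ (hzv k))

end general

theorem no_kernel {a b c q D : ℕ} (hb : 0 < b) (hc : c = a + b) (ha : 3 * b ≤ a + 2)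
    (ha2 : 2 * b ≤ a) {w w' : Fin b → ℕ} (hw : ∀ i, w i + w' i = 1)
    (hD : (2 * c - 1) * q + 4 * (a * b) + 2 * ∑ i, w i ≤ 2 * (b * D) + 1)
    {A : Fin b → Fin c → ℂ[X]} (hA : ∀ i j k, D + 1 ≤ k + w i → (A i j).coeff k = 0)
    (hgen : Gen A (2 * c * ∑ i, (D + 1 - w i)))
    (hfull : ∃ z : ℝ[X], z ≠ 0 ∧ ∀ y : Fin b × Fin 2 → ℝ[X], ∃ v, Ar A v = z • y)
    {δ : Fin (2 * b) → ℕ} (hδq : ∑ k, δ k ≤ q)
    {η : Fin (2 * b) → Fin c × Fin 2 → ℝ[X]} (hη : RB (w2 w0) δ η)
    {x : Fin c × Fin 2 → ℝ[X]} (hx : x ∈ lat η) (hx0 : x ≠ 0) (hAx : Ar A x = 0) : False := by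
  classical
  set v : Fin (2 * b) → Fin b × Fin 2 → ℝ[X] := fun k => Ar A (η k) with hv
  have hAsum : ∀ p : Fin (2 * b) → ℝ[X], Ar A (∑ k, p k • η k) = ∑ k, p k • v k := by
    intro p
    rw [map_sum]
    exact Finset.sum_congr rfl fun k _ => map_smul _ _ _
  have hηli := hη.li
  rw [Fintype.linearIndependent_iff] at hηli
  obtain ⟨T0, hT1, hT2⟩ := exists_maximal_fun0 (R := ℝ[X]) v
  obtain ⟨k1, hk1⟩ : ∃ k1, k1 ∉ T0 := by
    by_contra hcon
    push Not at hcon
    obtain ⟨p, hp⟩ := mem_lat.mp hx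
    have h1 : p = 0 := hT1 p (fun k hk => absurd (hcon k) hk) (by rw [← hAsum, hp, hAx])
    apply hx0
    rw [← hp, h1]
    simp
  obtain ⟨q1, hq1, hq1k, hq1s⟩ := hT2 k1 hk1
  -- constant vectors
  set E : Fin c × Fin 2 → Fin c × Fin 2 → ℝ[X] := fun x => Pi.single x 1 with hE
  have hEli := (RB_std (F := ℝ) (w2 (w0 (ι := Fin c)))).li
  obtain ⟨X0, hX1, hX2⟩ := exists_maximal_fun (R := ℝ[X]) (fun k : {k // k ∈ T0} => v k)
    (fun x => Ar A (E x)) (by
      intro p hp
      have h1 := hT1 (fun k => if hk : k ∈ T0 then p ⟨k, hk⟩ else 0)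
        (fun k hk => by simp [hk]) (by
          rw [← hp, ← Finset.sum_subset (Finset.subset_univ T0)]
          · rw [← Finset.sum_coe_sort T0]
            exact Finset.sum_congr rfl fun k _ => by simp [k.2]
          · intro k _ hk
            simp [hk])
      funext ⟨k, hk⟩
      have h2 := congrFun h1 k
      simpa [hk] using h2)
  have hTX : 2 * b ≤ T0.card + X0.card := by
    have hall1 : ∀ x, ∃ z : ℝ[X], z ≠ 0 ∧ z • Ar A (E x) ∈ Submodule.span ℝ[X] (Set.range
        (Sum.elim (fun k : {k // k ∈ T0} => v k) (fun x : X0 => Ar A (E x)))) := by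
      intro x
      by_cases hx : x ∈ X0
      · refine ⟨1, one_ne_zero, ?_⟩
        rw [one_smul]
        exact Submodule.subset_span ⟨Sum.inr ⟨x, hx⟩, rfl⟩
      · obtain ⟨p, q, hq, hqx, hpq⟩ := hX2 x hx
        have h9 := rel_mem_span (u := fun k : {k // k ∈ T0} => v k) (v := fun x => Ar A (E x))
          hx hq hpq
        exact ⟨q x, hqx, h9⟩
    obtain ⟨z1, hz1, hz1s⟩ := exists_common _ (fun x => Ar A (E x)) hall1
    obtain ⟨z2, hz2, hz2s⟩ := hfull
    have hstd : LinearIndependent ℝ[X] (fun i : Fin b × Fin 2 =>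
        (Pi.single i (1 : ℝ[X]) : Fin b × Fin 2 → ℝ[X])) := (RB_std (F := ℝ) (w2 w)).li
    have hEtop : ∀ y, y ∈ lat E := by
      intro y
      have h3 : lat E = ⊤ := lat_std (F := ℝ) (ι := Fin c × Fin 2)
      rw [h3]
      exact Submodule.mem_top
    have hall : ∀ i : Fin b × Fin 2, ∃ z : ℝ[X], z ≠ 0 ∧
        z • (Pi.single i (1 : ℝ[X]) : Fin b × Fin 2 → ℝ[X]) ∈ Submodule.span ℝ[X] (Set.range
          (Sum.elim (fun k : {k // k ∈ T0} => v k) (fun x : X0 => Ar A (E x)))) := by
      intro i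
      refine ⟨z1 * z2, mul_ne_zero hz1 hz2, ?_⟩
      obtain ⟨y, hy⟩ := hz2s (Pi.single i 1)
      rw [mul_smul, ← hy]
      apply hz1s
      obtain ⟨p, hp⟩ := mem_lat.mp (hEtop y)
      rw [← hp, map_sum]
      refine Submodule.sum_mem _ fun x _ => ?_
      rw [map_smul]
      exact Submodule.smul_mem _ _ (Submodule.subset_span ⟨x, rfl⟩)
    have h1 := card_le_of_torsion hstd hall
    rw [Fintype.card_prod, Fintype.card_fin, Fintype.card_fin, Fintype.card_sum,
      Fintype.card_coe, Fintype.card_coe] at h1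
    omega
  have hT0lt : T0.card < 2 * b := by
    have h1 : T0.card < (Finset.univ : Finset (Fin (2 * b))).card :=
      Finset.card_lt_card ⟨Finset.subset_univ _, fun h => hk1 (h (Finset.mem_univ _))⟩
    rwa [Finset.card_univ, Fintype.card_fin] at h1
  obtain ⟨X1, hX1sub, hX1card⟩ := Finset.exists_subset_card_eq
    (show 2 * b - 1 - T0.card ≤ X0.card by omega)
  set I1 : Finset (Fin (2 * b)) := insert k1 T0 with hI1
  have hI1card : I1.card = T0.card + 1 := Finset.card_insert_of_notMem hk1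
  -- the new family
  have hKcard : Fintype.card ({k // k ∈ I1} ⊕ {x // x ∈ X1}) = 2 * b := by
    rw [Fintype.card_sum, Fintype.card_coe, Fintype.card_coe, hI1card, hX1card]
    omega
  set fam : {k // k ∈ I1} ⊕ {x // x ∈ X1} → Fin c × Fin 2 → ℝ[X] := Sum.elim (fun k => η k) (fun x => E x) with hfam
  set lv : {k // k ∈ I1} ⊕ {x // x ∈ X1} → ℕ := Sum.elim (fun k => δ k) (fun _ => 0) with hlv
  have hlvfam : ∀ x, fam x ∈ Lv ℝ (w2 w0) (lv x + 1) := by
    rintro (k | x)
    · exact hη.fil k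
    · exact (RB_std (F := ℝ) (w2 (w0 (ι := Fin c)))).fil x
  -- extension of coefficient functions by zero
  have hsum1 : ∀ g : {k // k ∈ I1} → ℝ[X], ∀ {N : Type} [AddCommGroup N] [Module ℝ[X] N]
      (y : Fin (2 * b) → N), ∑ k, g k • y k
        = ∑ k, (if hk : k ∈ I1 then g ⟨k, hk⟩ else 0) • y k := by
    intro g N _ _ y
    rw [← Finset.sum_subset (Finset.subset_univ I1)]
    · rw [← Finset.sum_coe_sort I1]
      exact Finset.sum_congr rfl fun k _ => by simp [k.2]
    · intro k _ hk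
      simp [hk]
  have hsum2 : ∀ g : {x // x ∈ X1} → ℝ[X], ∀ {N : Type} [AddCommGroup N] [Module ℝ[X] N]
      (y : Fin c × Fin 2 → N), ∑ x, g x • y x
        = ∑ x, (if hx : x ∈ X1 then g ⟨x, hx⟩ else 0) • y x := by
    intro g N _ _ y
    rw [← Finset.sum_subset (Finset.subset_univ X1)]
    · rw [← Finset.sum_coe_sort X1]
      exact Finset.sum_congr rfl fun k _ => by simp [k.2]
    · intro k _ hk
      simp [hk]
  have hfamli : LinearIndependent ℝ[X] fam := by
    rw [Fintype.linearIndependent_iff]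
    intro g hg
    set g1 : Fin (2 * b) → ℝ[X] := fun k => if hk : k ∈ I1 then g (Sum.inl ⟨k, hk⟩) else 0 with hg1
    set g2 : Fin c × Fin 2 → ℝ[X] :=
      fun x => if hx : x ∈ X1 then g (Sum.inr ⟨x, hx⟩) else 0 with hg2
    have e1 : ∑ x, g x • fam x = ∑ k, g1 k • η k + ∑ x, g2 x • E x := by
      rw [Fintype.sum_sum_type, ← hsum1 (fun k => g (Sum.inl k)) η,
        ← hsum2 (fun k => g (Sum.inr k)) E]
      rfl
    rw [e1] at hg
    have e2 : ∑ k, g1 k • v k + ∑ x, g2 x • Ar A (E x) = 0 := by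
      have h1 := congrArg (Ar A) hg
      rw [map_add, hAsum, map_sum, map_zero] at h1
      rw [← h1]
      congr 1
      exact Finset.sum_congr rfl fun x _ => (map_smul _ _ _).symm
    -- eliminate `k1`
    have e3 : ∑ k, (q1 k1 * g1 k - g1 k1 * q1 k) • v k
        + ∑ x, (q1 k1 * g2 x) • Ar A (E x) = 0 := by
      have h1 : ∑ k, (q1 k1 * g1 k - g1 k1 * q1 k) • v k
          = q1 k1 • ∑ k, g1 k • v k - g1 k1 • ∑ k, q1 k • v k := by
        rw [Finset.smul_sum, Finset.smul_sum, ← Finset.sum_sub_distrib]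
        exact Finset.sum_congr rfl fun k _ => by rw [sub_smul, mul_smul, mul_smul]
      have h2 : ∑ x, (q1 k1 * g2 x) • Ar A (E x) = q1 k1 • ∑ x, g2 x • Ar A (E x) := by
        rw [Finset.smul_sum]
        exact Finset.sum_congr rfl fun x _ => mul_smul _ _ _
      rw [h1, h2, hq1s, smul_zero, sub_zero, ← smul_add, e2, smul_zero]
    have hg1out : ∀ k, k ∉ I1 → g1 k = 0 := fun k hk => by rw [hg1]; simp [hk]
    have h3 := hX1 (fun k => q1 k1 * g1 k - g1 k1 * q1 k) (fun x => q1 k1 * g2 x)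
      (fun x hx => by
        have : x ∉ X1 := fun h => hx (hX1sub h)
        rw [hg2]; simp [this]) (by
        rw [← e3]
        congr 1
        rw [← Finset.sum_subset (Finset.subset_univ T0)]
        · rw [← Finset.sum_coe_sort T0]
        · intro k _ hk
          by_cases hkk : k = k1
          · rw [hkk]
            have : q1 k1 * g1 k1 - g1 k1 * q1 k1 = 0 := by ring
            rw [this, zero_smul]
          · have hkI : k ∉ I1 := fun h => by
              rcases Finset.mem_insert.mp h with h | h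
              · exact hkk h
              · exact hk h
            rw [hg1out k hkI, hq1 k hkI, mul_zero, mul_zero, sub_zero, zero_smul])
    have h4 : ∀ x, g2 x = 0 := by
      intro x
      have := congrFun h3.2 x
      exact (mul_eq_zero.mp this).resolve_left hq1k
    have h5 : ∑ k, g1 k • η k = 0 := by
      have h6 : ∑ x, g2 x • E x = 0 := Finset.sum_eq_zero fun x _ => by rw [h4 x, zero_smul]
      rwa [h6, add_zero] at hg
    have h6 := hηli g1 h5
    rintro (⟨k, hk⟩ | ⟨x, hx⟩)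
    · have := h6 k
      rw [hg1] at this
      simpa [hk] using this
    · have := h4 x
      rw [hg2] at this
      simpa [hx] using this
  -- reindex and reduce
  set ε : Fin (2 * b) ≃ {k // k ∈ I1} ⊕ {x // x ∈ X1} := (Fintype.equivFinOfCardEq hKcard).symm with hε
  obtain ⟨δ', η', hδ', hη', hlat', hsum'⟩ := exists_RB_of_li (w2 (w0 (ι := Fin c)))
    (lv ∘ ε) (fam ∘ ε) (fun k => hlvfam (ε k)) (hfamli.comp ε ε.injective)
  have hlatfam : lat (fam ∘ ε) = lat fam := by
    unfold lat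
    rw [Set.range_comp, Equiv.range_eq_univ, Set.image_univ]
  rw [hlatfam] at hlat'
  have hδ'q : ∑ k, δ' k ≤ q := by
    refine hsum'.trans (le_trans ?_ hδq)
    have h1 : ∑ k, (lv ∘ ε) k = ∑ x, lv x := Equiv.sum_comp ε lv
    rw [h1, Fintype.sum_sum_type]
    simp only [hlv, Sum.elim_inl, Sum.elim_inr, Finset.sum_const_zero, add_zero]
    rw [Finset.sum_coe_sort I1 δ]
    exact Finset.sum_le_sum_of_subset (Finset.subset_univ _)
  set B' : Fin (2 * b) → Fin b × Fin 2 → ℝ[X] := fun k => Ar A (η' k) with hB'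
  have hB'sum : ∀ p : Fin (2 * b) → ℝ[X], Ar A (∑ k, p k • η' k) = ∑ k, p k • B' k := by
    intro p
    rw [map_sum]
    exact Finset.sum_congr rfl fun k _ => map_smul _ _ _
  obtain ⟨T', hT'1, hT'2⟩ := exists_maximal_fun0 (R := ℝ[X]) B'
  -- the kernel vector
  have hker : ∑ k, q1 k • η k ∈ lat η' := by
    rw [hlat']
    refine Submodule.sum_mem _ fun k _ => ?_
    by_cases hk : k ∈ I1
    · exact Submodule.smul_mem _ _ (Submodule.subset_span ⟨Sum.inl ⟨k, hk⟩, rfl⟩)
    · rw [hq1 k hk, zero_smul]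
      exact Submodule.zero_mem _
  have hkerne : ∑ k, q1 k • η k ≠ 0 := fun h => hq1k (hηli q1 h k1)
  have hT'ne : T'.card < 2 * b := by
    have h1 : T'.card < (Finset.univ : Finset (Fin (2 * b))).card := by
      refine Finset.card_lt_card ⟨Finset.subset_univ _, fun h => ?_⟩
      obtain ⟨p, hp⟩ := mem_lat.mp hker
      have h2 : p = 0 := hT'1 p (fun k hk => absurd (h (Finset.mem_univ k)) hk) (by
        rw [← hB'sum, hp, hAsum, hq1s])
      apply hkerne
      rw [← hp, h2]
      simp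
    rwa [Finset.card_univ, Fintype.card_fin] at h1
  have hT'ge : 2 * b - 1 ≤ T'.card := by
    obtain ⟨z1, hz1, hz1s⟩ := exists_common (Submodule.span ℝ[X] (Set.range
      (fun k : T' => B' k))) B' (fun k => by
        by_cases hk : k ∈ T'
        · refine ⟨1, one_ne_zero, ?_⟩
          rw [one_smul]
          exact Submodule.subset_span ⟨⟨k, hk⟩, rfl⟩
        · obtain ⟨q, hq, hqk, hqs⟩ := hT'2 k hk
          refine ⟨q k, hqk, ?_⟩
          have h1 := rel_mem_span (u := fun _ : Fin 0 => (0 : Fin b × Fin 2 → ℝ[X])) (v := B')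
            hk (p := fun _ => 0) hq (by simpa using hqs)
          refine (Submodule.span_le.mpr ?_) h1
          rintro _ ⟨x | l, rfl⟩
          · exact x.elim0
          · exact Submodule.subset_span ⟨l, rfl⟩)
    have himg : ∀ y ∈ lat fam, Ar A y ∈ Submodule.span ℝ[X] (Set.range B') := by
      intro y hy
      rw [← hlat'] at hy
      obtain ⟨p, hp⟩ := mem_lat.mp hy
      rw [← hp, hB'sum]
      exact Submodule.sum_mem _ fun k _ => Submodule.smul_mem _ _
        (Submodule.subset_span ⟨k, rfl⟩)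
    have hli2 : LinearIndependent ℝ[X]
        (Sum.elim (fun k : {k // k ∈ T0} => v k) (fun x : {x // x ∈ X1} => Ar A (E x))) := by
      rw [Fintype.linearIndependent_iff]
      intro g hg
      rw [Fintype.sum_sum_type] at hg
      simp only [Sum.elim_inl, Sum.elim_inr] at hg
      rw [hsum2 (fun x => g (Sum.inr x)) (fun x => Ar A (E x))] at hg
      have h1 := hX1 (fun k => g (Sum.inl k)) _ (fun x hx => by
        have : x ∉ X1 := fun h => hx (hX1sub h)
        simp [this]) hg
      rintro (k | ⟨x, hx⟩)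
      · exact congrFun h1.1 k
      · have h2 := congrFun h1.2 x
        simpa [hx] using h2
    have h1 := card_le_of_torsion (f := fun k : T' => B' k) hli2 (fun x => by
      refine ⟨z1, hz1, hz1s _ ?_⟩
      rcases x with ⟨k, hk⟩ | x
      · exact himg _ (Submodule.subset_span ⟨Sum.inl ⟨k, Finset.mem_insert_of_mem hk⟩, rfl⟩)
      · exact himg _ (Submodule.subset_span ⟨Sum.inr x, rfl⟩))
    rw [Fintype.card_sum, Fintype.card_coe, Fintype.card_coe, Fintype.card_coe, hX1card] at h1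
    omega
  have hcompl : T'ᶜ.card = 1 := by
    rw [Finset.card_compl, Fintype.card_fin]
    omega
  obtain ⟨k0, hk0⟩ := Finset.card_eq_one.mp hcompl
  have hk0' : k0 ∉ T' := by
    have : k0 ∈ T'ᶜ := by rw [hk0]; exact Finset.mem_singleton_self _
    exact Finset.mem_compl.mp this
  have hother : ∀ k, k ∉ T' → k = k0 := by
    intro k hk
    have : k ∈ T'ᶜ := Finset.mem_compl.mpr hk
    rw [hk0] at this
    exact Finset.mem_singleton.mp this
  refine no_corank_one hb hc ha ha2 hw hD hA hgen hδ' hδ'q hη' k0 (fun p hp h => ?_) ?_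
  · exact hT'1 p (fun k hk => by rw [hother k hk]; exact hp) h
  · obtain ⟨q, -, hqk, hqs⟩ := hT'2 k0 hk0'
    exact ⟨q, hqk, hqs⟩

end

end Pool.Agent.Helper730_PP
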