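import Pool.Agent.Helper730_PP.Equal

/-!
# A generic polynomial is not attained by a generic complex plant
-/

open Polynomial Matrix

namespace Pool.Agent.Helper730_PP

noncomputable section

theorem sq_le_sum {κ : Type*} [Fintype κ] (f : κ → ℕ) :
    Fintype.card κ * Fintype.card κ ≤ ∑ k, ∑ l, (f k + 1 - f l) := by
  have h := trunc_sum Finset.univ (fun k => f k + 1) f
  rw [Finset.card_univ] at h
  push_cast [Finset.sum_add_distrib] at h
  rw [Finset.sum_const, Finset.card_univ, nsmul_eq_mul, mul_one] at h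
  have h2 : ((∑ k, ∑ l, (f k + 1 - f l) : ℕ) : ℤ) = Fintype.card κ * Fintype.card κ
      + ((∑ k, ∑ l, (f l - (f k + 1)) : ℕ) : ℤ) := by
    have h3 := trunc_sum Finset.univ (fun k => f k + 1) f
    rw [h3, Finset.card_univ]
    push_cast [Finset.sum_add_distrib]
    rw [Finset.sum_const, Finset.card_univ, nsmul_eq_mul, mul_one]
    ring
  have h4 : ((Fintype.card κ * Fintype.card κ : ℕ) : ℤ)
      ≤ ((∑ k, ∑ l, (f k + 1 - f l) : ℕ) : ℤ) := by
    rw [h2]
    push_cast
    have : (0 : ℤ) ≤ ((∑ k, ∑ l, (f l - (f k + 1)) : ℕ) : ℤ) := Int.natCast_nonneg _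
    push_cast at this
    linarith
  exact_mod_cast h4

theorem matA_mem {b c D : ℕ} {w : Fin b → ℕ} {t : PI b c D w → ℝ} {F₁ : Subfield ℝ}
    (h : ∀ x, t x ∈ F₁) (i : Fin b) (j : Fin c) (k : ℕ) : (matA t i j).coeff k ∈ cplx F₁ := by
  rw [matA_coeff, mem_cplx]
  refine ⟨?_, ?_⟩
  · show (if h : k < D + 1 - w i then t ⟨i, j, 0, ⟨k, h⟩⟩ else 0) ∈ F₁
    split_ifs
    · exact h _
    · exact F₁.zero_mem
  · show (if h : k < D + 1 - w i then t ⟨i, j, 1, ⟨k, h⟩⟩ else 0) ∈ F₁
    split_ifs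
    · exact h _
    · exact F₁.zero_mem

theorem realQ_mem {b c m : ℕ} (e : Fin c × Fin 2 ≃ Fin (m + 2 * b)) {A : Fin b → Fin c → ℂ[X]}
    {F₁ : Subfield ℝ} (hA : ∀ i j k, (A i j).coeff k ∈ cplx F₁) (r : Fin (2 * b))
    (x : Fin (m + 2 * b)) (k : ℕ) : (realQ e A r x).coeff k ∈ F₁ := by
  obtain ⟨⟨i, s⟩, rfl⟩ := (rowEquiv b).surjective r
  obtain ⟨z, rfl⟩ := e.surjective x
  have h1 : IsRat F₁ (dl (A i)) := isRat_dl (fun j k => hA i j k)
  fin_cases s
  · simp only [Fin.zero_eta]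
    rw [(realQ_row e A i).1, rowRe_eq_dl]
    exact h1 z k
  · simp only [Fin.mk_one]
    rw [(realQ_row e A i).2, rowIm_eq_dl]
    exact rotL_I_isRat h1 z k

theorem io_C (r : ℝ) : io (C r) = C (r : ℂ) := by
  ext l
  rw [io_coeff, coeff_C, coeff_C]
  split_ifs <;> simp

theorem count_sol {a b c nc n q : ℕ} (e : Fin c × Fin 2 ≃ Fin (2 * a + 2 * b))
    {t : PI b c (nc / b + 1) (wbal b nc) ⊕ Fin (n + q + 1) → ℝ} {φ : ℝ[X]}
    (hφt : ∀ k : Fin (n + q + 1), φ.coeff k = t (Sum.inr k)) (hφd : φ.natDegree = n + q)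
    (hφ0 : φ ≠ 0) {δ : Fin (2 * a) → ℕ} {B : Fin (2 * a) → Fin (2 * a + 2 * b) → ℝ[X]}
    (hB : RB w0 δ B) {θ : ℝ[X]} (hθ : θ ≠ 0) {τ : ℝ} (hτ : τ ≠ 0)
    (hsol : θ * (stack (Matrix.of B) (realQ e (matA fun x => t (Sum.inl x)))).det = C τ * φ)
    {SV : Finset ℝ} (hSV : ∀ F₁ : Subfield ℝ, (∀ s ∈ SV, s ∈ F₁) →
      ∀ T, Dfn F₁ (lev (lat fun k x => B k (e x)) (w2 w0) T)) :
    ∃ S : Finset ℝ, SV ⊆ S ∧
      S.card ≤ Fintype.card (PI b c (nc / b + 1) (wbal b nc)) + SV.card + θ.natDegree + 1 ∧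
      ∀ K : Subfield ℂ, GoodField K → (∀ s ∈ S, (s : ℂ) ∈ K) → ∀ i, (t i : ℂ) ∈ K := by
  classical
  set θ0 : ℝ[X] := C θ.leadingCoeff⁻¹ * θ with hθ0
  have hlead : θ.leadingCoeff ≠ 0 := leadingCoeff_ne_zero.mpr hθ
  set S1 : Finset ℝ := Finset.univ.image fun x : PI b c (nc / b + 1) (wbal b nc) => t (Sum.inl x)
    with hS1
  set S3 : Finset ℝ := Finset.univ.image fun k : Fin θ.natDegree => θ0.coeff k with hS3
  refine ⟨S1 ∪ SV ∪ S3 ∪ {φ.leadingCoeff}, fun x hx => by simp [hx], ?_, ?_⟩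
  · have h1 := Finset.card_union_le (S1 ∪ SV ∪ S3) {φ.leadingCoeff}
    have h2 := Finset.card_union_le (S1 ∪ SV) S3
    have h3 := Finset.card_union_le S1 SV
    have h4 : S1.card ≤ Fintype.card (PI b c (nc / b + 1) (wbal b nc)) := by
      have := Finset.card_image_le (s := Finset.univ)
        (f := fun x : PI b c (nc / b + 1) (wbal b nc) => t (Sum.inl x))
      rwa [Finset.card_univ] at this
    have h5 : S3.card ≤ θ.natDegree := by
      have := Finset.card_image_le (s := Finset.univ)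
        (f := fun k : Fin θ.natDegree => θ0.coeff k)
      rwa [Finset.card_univ, Fintype.card_fin] at this
    rw [Finset.card_singleton] at h1
    omega
  · intro K hK hSK
    have hF1 : ∀ x, t (Sum.inl x) ∈ rsub K := fun x =>
      hSK _ (by simp only [Finset.mem_union, hS1]; exact Or.inl (Or.inl (Or.inl
        (Finset.mem_image.mpr ⟨x, Finset.mem_univ _, rfl⟩))))
    have hA := fun i j k => matA_mem (t := fun x => t (Sum.inl x)) hF1 i j k
    have hQ := fun r x k => realQ_mem e hA r x k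
    set A := matA fun x => t (Sum.inl x) with hAdef
    set B' : Fin (2 * a) → Fin c × Fin 2 → ℝ[X] := fun k x => B k (e x) with hB'
    have hB'RB : RB w0 δ B' := hB.reindex e
    have hD := hSV (rsub K) (fun s hs => hSK s (by simp [hs]))
    obtain ⟨R, hRrat, hRmem, hRli⟩ := exists_rat_family hB'RB hD
    choose T hT using fun k => mem_lat.mp (hRmem k)
    set Rh : Fin (2 * a) → Fin (2 * a + 2 * b) → ℝ[X] := fun k x => R k (e.symm x) with hRh
    have hRT : (Matrix.of Rh : PolyMat (2 * a) (2 * a + 2 * b)) = Matrix.of T * Matrix.of B := by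
      refine Matrix.ext fun k x => ?_
      have h1 := congrFun (hT k) (e.symm x)
      rw [Finset.sum_apply] at h1
      rw [Matrix.mul_apply]
      show R k (e.symm x) = _
      rw [← h1]
      refine Finset.sum_congr rfl fun j _ => ?_
      show T k j * B j (e (e.symm x)) = T k j * B j x
      rw [Equiv.apply_symm_apply]
    have hTdet : (Matrix.of T : Matrix (Fin (2 * a)) (Fin (2 * a)) ℝ[X]).det ≠ 0 := by
      intro h0
      obtain ⟨g, hg0, hg⟩ := Matrix.exists_vecMul_eq_zero_iff.mpr h0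
      apply hg0
      rw [Fintype.linearIndependent_iff] at hRli
      funext k
      refine hRli g ?_ k
      have h1 : ∑ k, g k • R k = ∑ j, (Matrix.vecMul g (Matrix.of T)) j • B' j := by
        have h2 : ∀ k, g k • R k = ∑ j, (g k * T k j) • B' j := by
          intro k
          rw [← hT k, Finset.smul_sum]
          exact Finset.sum_congr rfl fun j _ => smul_smul _ _ _
        rw [Finset.sum_congr rfl fun k _ => h2 k, Finset.sum_comm]
        refine Finset.sum_congr rfl fun j _ => ?_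
        rw [Matrix.vecMul, dotProduct, Finset.sum_smul]
        rfl
      rw [h1, hg]
      simp
    have hdet := det_stack_mul_left (Matrix.of T) (Matrix.of B : PolyMat (2 * a) (2 * a + 2 * b))
      (realQ e A)
    rw [← hRT] at hdet
    set DB : ℝ[X] := (stack (Matrix.of B) (realQ e A)).det with hDB
    set DR : ℝ[X] := (stack (Matrix.of Rh) (realQ e A)).det with hDR
    have hDB0 : DB ≠ 0 := by
      intro h0
      rw [h0, mul_zero] at hsol
      exact mul_ne_zero (C_ne_zero.mpr hτ) hφ0 hsol.symm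
    have hDR0 : DR ≠ 0 := by rw [hdet]; exact mul_ne_zero hTdet hDB0
    have hDRmem : InK K (io DR) := by
      intro k
      rw [io_coeff]
      refine det_coeff_mem (F₀ := rsub K) _ (fun i j l => ?_) k
      refine Fin.addCases (fun i => ?_) (fun i => ?_) i
      · rw [stack_castAdd]
        exact hRrat i (e.symm j) l
      · rw [stack_natAdd]
        exact hQ i j l
    obtain ⟨Y0, hY0, hY⟩ := InK.dvd hK (Y := io DB) hDRmem (fun h => hDR0 (io_eq_zero.mp h))
      ⟨io (Matrix.of T : Matrix (Fin (2 * a)) (Fin (2 * a)) ℝ[X]).det, by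
        rw [hdet, map_mul, mul_comm]⟩
    have hθ0mem : InK K (io θ0) := by
      intro k
      rw [io_coeff]
      rcases lt_trichotomy k θ.natDegree with hk | hk | hk
      · refine hSK _ ?_
        simp only [Finset.mem_union, hS3]
        exact Or.inl (Or.inr (Finset.mem_image.mpr ⟨⟨k, hk⟩, Finset.mem_univ _, rfl⟩))
      · rw [hk, hθ0, coeff_C_mul]
        have h1 : θ.coeff θ.natDegree = θ.leadingCoeff := rfl
        rw [h1, inv_mul_cancel₀ hlead, Complex.ofReal_one]
        exact K.one_mem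
      · rw [hθ0, coeff_C_mul, coeff_eq_zero_of_natDegree_lt hk, mul_zero, Complex.ofReal_zero]
        exact K.zero_mem
    have hθeq : θ = C θ.leadingCoeff * θ0 := by
      rw [hθ0, ← mul_assoc, ← C_mul, mul_inv_cancel₀ hlead, C_1, one_mul]
    set μ : ℂ := ((τ⁻¹ * θ.leadingCoeff : ℝ) : ℂ) * (io DB).leadingCoeff with hμ
    have hφeq : io φ = C μ * (io θ0 * Y0) := by
      have h1 : φ = C τ⁻¹ * (θ * DB) := by
        rw [hsol, ← mul_assoc, ← C_mul, inv_mul_cancel₀ hτ, C_1, one_mul]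
      rw [h1, hθeq, map_mul, map_mul, map_mul, hY, io_C, io_C, hμ, C_mul]
      push_cast
      rw [C_mul]
      ring
    have hprod : InK K (io θ0 * Y0) := hθ0mem.mul hY0
    have hμK : μ ∈ K := by
      have h1 := congrArg (fun p => p.coeff (n + q)) hφeq
      simp only [io_coeff, coeff_C_mul] at h1
      have h2 : φ.coeff (n + q) = φ.leadingCoeff := by
        rw [← hφd]; rfl
      rw [h2] at h1
      have h3 : (φ.leadingCoeff : ℂ) ≠ 0 :=
        Complex.ofReal_ne_zero.mpr (leadingCoeff_ne_zero.mpr hφ0)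
      have h4 : (io θ0 * Y0).coeff (n + q) ≠ 0 := by
        intro h0
        rw [h0, mul_zero] at h1
        exact h3 h1
      have h5 : μ = (φ.leadingCoeff : ℂ) / (io θ0 * Y0).coeff (n + q) := by
        rw [eq_div_iff h4, h1]
      rw [h5]
      exact K.div_mem (hSK _ (by simp)) (hprod _)
    rintro (x | k)
    · exact hF1 x
    · rw [← hφt k, ← io_coeff, hφeq, coeff_C_mul]
      exact K.mul_mem hμK (hprod _)

theorem no_sol {a b c nc n q : ℕ} (ha : 0 < a) (hb : 0 < b) (hc : c = a + b)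
    (hn : (2 * c - 1) * q + 4 * (a * b) ≤ n)
    (e : Fin c × Fin 2 ≃ Fin (2 * a + 2 * b))
    {t : PI b c (nc / b + 1) (wbal b nc) ⊕ Fin (n + q + 1) → ℝ} (ht : AlgebraicIndependent ℚ t)
    {φ : ℝ[X]} (hφt : ∀ k : Fin (n + q + 1), φ.coeff k = t (Sum.inr k))
    (hφd : φ.natDegree = n + q) (hφ0 : φ ≠ 0) {δ : Fin (2 * a) → ℕ}
    {B : Fin (2 * a) → Fin (2 * a + 2 * b) → ℝ[X]} (hB : RB w0 δ B) {θ : ℝ[X]} (hθ : θ ≠ 0)
    (hdeg : θ.natDegree + ∑ k, δ k ≤ q) {τ : ℝ} (hτ : τ ≠ 0)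
    (hsol : θ * (stack (Matrix.of B) (realQ e (matA fun x => t (Sum.inl x)))).det = C τ * φ) :
    False := by
  classical
  set A := matA fun x => t (Sum.inl x) with hAdef
  have hcardι : Fintype.card (PI b c (nc / b + 1) (wbal b nc) ⊕ Fin (n + q + 1))
      = Fintype.card (PI b c (nc / b + 1) (wbal b nc)) + (n + q + 1) := by
    rw [Fintype.card_sum, Fintype.card_fin]
  -- the field generated by everything
  obtain ⟨Kt, hKt, htKt, hKtcard⟩ := exists_goodField (Set.range t)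
  have htKt' : ∀ i, (t i : ℂ) ∈ Kt := fun i => htKt _ ⟨i, rfl⟩
  have hqc : ∀ x, x ≤ q → (2 * c - 1) * x + x = 2 * c * x := by
    intro x _
    have : 2 * c - 1 + 1 = 2 * c := by omega
    calc (2 * c - 1) * x + x = (2 * c - 1 + 1) * x := by ring
      _ = _ := by rw [this]
  have keyC : ∀ (B : Fin (2 * a) → Fin (2 * a + 2 * b) → ℝ[X]) (τ : ℝ), RB w0 δ B → τ ≠ 0 →
      θ * (stack (Matrix.of B) (realQ e A)).det = C τ * φ →
      ∀ T, Dfn (rsub Kt) (lev (lat fun k x => B k (e x)) (w2 w0) T) := by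
    intro B τ hB hτ hsol
    have hB' : RB (w2 w0) δ (fun k x => B k (e x)) := hB.reindex e
    obtain ⟨SV, hSVc, hSV⟩ := hB'.exists_params' (F₀ := ⊥) (Z := ⊤) le_top
      (fun t => dfn_lev_top _ t)
    obtain ⟨S, hSVS, hScard, hSK⟩ := count_sol e hφt hφd hφ0 hB hθ hτ hsol
      (SV := SV) (fun F₁ hF => hSV F₁ bot_le hF)
    have h1 : ∀ k, Module.finrank ℝ (lev (⊤ : Submodule ℝ[X] (Fin c × Fin 2 → ℝ[X])) (w2 w0)
        (δ k + 1)) = 2 * c * (δ k + 1) := by
      intro k
      rw [lev_top, finrank_Lv]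
      simp
      ring
    rw [Finset.sum_congr rfl fun k _ => h1 k] at hSVc
    have h2 := sq_le_sum δ
    rw [Fintype.card_fin] at h2
    have h3 : ∑ k, 2 * c * (δ k + 1) = 2 * c * ∑ k, δ k + 2 * c * (2 * a) := by
      rw [← Finset.mul_sum, Finset.sum_add_distrib]
      simp
      ring
    have h4 : 2 * c * (2 * a) = 4 * (a * b) + 2 * a * (2 * a) := by rw [hc]; ring
    have h5 := hqc (∑ k, δ k) (by omega)
    have h6 : (2 * c - 1) * ∑ k, δ k ≤ (2 * c - 1) * q := Nat.mul_le_mul_left _ (by omega)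
    have hmem := mem_of_card_le ht (S := S) (by rw [hcardι]; omega) hSK hKt htKt'
    exact hSV (rsub Kt) bot_le fun s hs => hmem s (hSVS hs)
  have hV := keyC B τ hB hτ hsol
  set B' : Fin (2 * a) → Fin c × Fin 2 → ℝ[X] := fun k x => B k (e x) with hB'def
  have hB' : RB (w2 w0) δ B' := hB.reindex e
  -- a real number outside of the field
  obtain ⟨τ0, hτ0⟩ : ∃ τ0 : ℝ, τ0 ∉ rsub Kt := by
    obtain ⟨s, hs⟩ := exists_algebraicIndependent
      (Fin (Fintype.card (PI b c (nc / b + 1) (wbal b nc) ⊕ Fin (n + q + 1)) + 1))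
    by_contra hcon
    push Not at hcon
    have h1 := hKtcard s hs (fun i => hcon (s i))
    rw [Fintype.card_fin, ← Set.image_univ, ] at h1
    have h2 := Set.encard_image_le t Set.univ
    rw [Set.encard_univ, ENat.card_eq_coe_fintype_card] at h2
    have h3 := h1.trans h2
    rw [Nat.cast_le] at h3
    omega
  set ζ : ℂ := ⟨1, τ0⟩ with hζ
  have hζ0 : ζ ≠ 0 := by
    intro h
    have := congrArg Complex.re h
    simp [hζ] at this
  have hDne : (stack (Matrix.of B) (realQ e A)).det ≠ 0 := by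
    intro h0
    rw [h0, mul_zero] at hsol
    exact mul_ne_zero (C_ne_zero.mpr hτ) hφ0 hsol.symm
  obtain ⟨κ, hκ0, hκ⟩ := rot_det e A hζ0 B hDne
  set Bζ : Fin (2 * a) → Fin (2 * a + 2 * b) → ℝ[X] :=
    fun k x => rotL _ ζ (B' k) (e.symm x) with hBζ
  have hBζ' : (fun k x => Bζ k (e x)) = fun k => rotL _ ζ (B' k) := by
    funext k x
    show rotL _ ζ (B' k) (e.symm (e x)) = _
    rw [Equiv.symm_apply_apply]
  have hBζRB : RB w0 δ Bζ := by
    have h1 := (hB'.rot hζ0)
    exact RB.reindex e.symm (B := fun k => rotL _ ζ (B' k)) h1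
  have hVζ := keyC Bζ (τ * κ) hBζRB (mul_ne_zero hτ hκ0) (by
    have h1 : (stack (Matrix.of Bζ) (realQ e A)).det
        = C κ * (stack (Matrix.of B) (realQ e A)).det := hκ
    rw [h1, C_mul]
    linear_combination C κ * hsol)
  rw [hBζ'] at hVζ
  have hrotmem : ∀ v ∈ lat B', rotL _ ζ v ∈ lat (fun k => rotL _ ζ (B' k)) := by
    intro v hv
    obtain ⟨p, rfl⟩ := mem_lat.mp hv
    rw [map_sum]
    refine Submodule.sum_mem _ fun k _ => ?_
    rw [map_smul]
    exact Submodule.smul_mem _ _ (Submodule.subset_span ⟨k, rfl⟩)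
  have hrotmem' : ∀ v ∈ lat (fun k => rotL _ ζ (B' k)), rotL _ ζ⁻¹ v ∈ lat B' := by
    intro v hv
    obtain ⟨p, rfl⟩ := mem_lat.mp hv
    rw [map_sum]
    refine Submodule.sum_mem _ fun k _ => ?_
    rw [map_smul, rotL_rotL, inv_mul_cancel₀ hζ0, rotL_one]
    exact Submodule.smul_mem _ _ (Submodule.subset_span ⟨k, rfl⟩)
  have hstable := stable_of_rot hτ0 hV hVζ hrotmem hrotmem'
  -- the lattice is complex
  obtain ⟨e1, δc, ω, -, hω, hωlat⟩ := exists_RB (w0 (ι := Fin c)) (cmax (lat B'))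
  have hrl : rl (lat ω) = lat B' := by
    apply le_antisymm
    · rw [hωlat]; exact rl_cmax_le _
    · intro v hv
      rw [mem_rl, hωlat, mem_cmax, rx_cx]
      exact ⟨hv, hstable v hv⟩
  have hdims : ∀ T, ∑ k, (T - δ k) = 2 * ∑ j, (T - δc j) := by
    intro T
    rw [← hB'.finrank_lev T, ← finrank_lev_rl hω T, hrl]
  have hdims2 : 2 * a = 2 * e1 ∧ ∑ k, δ k = 2 * ∑ j, δc j := by
    have hlarge : ∀ T, ∑ k, δ k + ∑ j, δc j ≤ T →
        2 * a * T + 2 * ∑ j, δc j = 2 * (e1 * T) + ∑ k, δ k := by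
      intro T hT
      have h1 := sum_sub_add δ (t := T) (fun k => by
        have := Finset.single_le_sum (f := δ) (fun _ _ => Nat.zero_le _) (Finset.mem_univ k)
        omega)
      have h2 := sum_sub_add δc (t := T) (fun k => by
        have := Finset.single_le_sum (f := δc) (fun _ _ => Nat.zero_le _) (Finset.mem_univ k)
        omega)
      have h3 := hdims T
      rw [Fintype.card_fin] at h1 h2
      omega
    have h1 := hlarge (∑ k, δ k + ∑ j, δc j) le_rfl
    have h2 := hlarge (∑ k, δ k + ∑ j, δc j + 1) (Nat.le_succ _)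
    have h3 : ∀ T : ℕ, 2 * a * (T + 1) = 2 * a * T + 2 * a := fun T => by ring
    have h4 : ∀ T : ℕ, e1 * (T + 1) = e1 * T + e1 := fun T => by ring
    rw [h3, h4] at h2
    have h5 : 2 * a = 2 * e1 := by omega
    refine ⟨h5, ?_⟩
    have h6 : ∀ T : ℕ, 2 * a * T = 2 * (e1 * T) := fun T => by
      have h7 : a = e1 := by omega
      rw [← h7]; ring
    rw [h6] at h1
    omega
  obtain ⟨Sc, hSc, hScD⟩ := hω.exists_params' (F₀ := ⊥) (Z := ⊤) le_top
    (fun t => dfn_lev_top _ t)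
  set SV : Finset ℝ := reim Sc id with hSVdef
  have hSVD : ∀ F₁ : Subfield ℝ, (∀ s ∈ SV, s ∈ F₁) →
      ∀ T, Dfn F₁ (lev (lat fun k x => B k (e x)) (w2 w0) T) := by
    intro F₁ hF T
    have h1 := (hScD (cplx F₁) bot_le (fun s hs => reim_cplx (A := Sc) (g := id) hF hs) T).real
    rwa [hrl] at h1
  obtain ⟨S, -, hScard, hSK⟩ := count_sol e hφt hφd hφ0 hB hθ hτ hsol hSVD
  have h1 := card_le_of_gen ht hSK
  rw [hcardι] at h1
  have h2 : SV.card ≤ 2 * Sc.card := reim_card Sc id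
  have h3 : ∀ k, Module.finrank ℂ (lev (⊤ : Submodule ℂ[X] (Fin c → ℂ[X])) w0 (δc k + 1))
      = c * (δc k + 1) := by
    intro k
    rw [lev_top, finrank_Lv]
    simp
  rw [Finset.sum_congr rfl fun k _ => h3 k] at hSc
  have h4 := sq_le_sum δc
  rw [Fintype.card_fin] at h4
  have h5 : ∑ k, c * (δc k + 1) = c * ∑ k, δc k + c * e1 := by
    rw [← Finset.mul_sum, Finset.sum_add_distrib]
    simp
    ring
  have he1 : e1 = a := by omega
  have h4' : a * a ≤ ∑ k, ∑ l, (δc k + 1 - δc l) := by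
    calc a * a = e1 * e1 := by rw [he1]
      _ ≤ _ := h4
  have h5' : ∑ k, c * (δc k + 1) = c * ∑ k, δc k + c * a := by
    rw [h5]
    congr 2
  have h6 : c * a = a * b + a * a := by rw [hc]; ring
  have h7 : (c : ℕ) * ∑ k, δ k = 2 * (c * ∑ k, δc k) := by rw [hdims2.2]; ring
  have h8 : c * ∑ k, δ k ≤ (2 * c - 1) * q := Nat.mul_le_mul (by omega) (by omega)
  have h9 : 0 < a * b := Nat.mul_pos ha hb
  omega

end

end Pool.Agent.Helper730_PP
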