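import Mathlib

/-!
# Minimal pairs of complex polynomial vectors

For a matrix `H` of complex polynomials whose rows lie in a plane we choose a pair of polynomial
vectors, spanning a plane which contains the rows of `H`, of minimal total degree.  Such a pair is
row reduced and generates a saturated module.
-/

open Polynomial

namespace Pool.Agent.Helper730_PP

variable {c : ℕ}

/-- `v` lies in the plane spanned by `ξ₁`, `ξ₂` over the field of rational functions. -/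
def InSpan (ξ1 ξ2 v : Fin c → ℂ[X]) : Prop :=
  ∃ d α β : ℂ[X], d ≠ 0 ∧ ∀ k, d * v k = α * ξ1 k + β * ξ2 k

/-- `ξ₁`, `ξ₂` are linearly independent over the field of rational functions. -/
def Indep2 (ξ1 ξ2 : Fin c → ℂ[X]) : Prop := ∃ j k, ξ1 j * ξ2 k - ξ1 k * ξ2 j ≠ 0

/-- The pair `ξ₁`, `ξ₂`, of degrees at most `x₁ ≤ x₂`, spans a plane containing the rows of `H`. -/
structure GoodPair (H : Fin c → Fin c → ℂ[X]) (ξ1 ξ2 : Fin c → ℂ[X]) (x1 x2 : ℕ) : Prop where
  indep : Indep2 ξ1 ξ2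
  rows : ∀ j, InSpan ξ1 ξ2 (H j)
  deg1 : ∀ k, (ξ1 k).natDegree ≤ x1
  deg2 : ∀ k, (ξ2 k).natDegree ≤ x2
  le : x1 ≤ x2

/-- A good pair of minimal total degree. -/
structure MinPair (H : Fin c → Fin c → ℂ[X]) (ξ1 ξ2 : Fin c → ℂ[X]) (x1 x2 : ℕ) : Prop
    extends GoodPair H ξ1 ξ2 x1 x2 where
  min : ∀ ξ1' ξ2' x1' x2', GoodPair H ξ1' ξ2' x1' x2' → x1 + x2 ≤ x1' + x2'

theorem InSpan.trans {ξ1 ξ2 ξ1' ξ2' v : Fin c → ℂ[X]} (h : InSpan ξ1 ξ2 v)
    (h1 : InSpan ξ1' ξ2' ξ1) (h2 : InSpan ξ1' ξ2' ξ2) : InSpan ξ1' ξ2' v := by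
  obtain ⟨d, α, β, hd, h⟩ := h
  obtain ⟨d1, α1, β1, hd1, h1⟩ := h1
  obtain ⟨d2, α2, β2, hd2, h2⟩ := h2
  refine ⟨d1 * d2 * d, α * d2 * α1 + β * d1 * α2, α * d2 * β1 + β * d1 * β2,
    mul_ne_zero (mul_ne_zero hd1 hd2) hd, fun k => ?_⟩
  linear_combination d1 * d2 * h k + α * d2 * h1 k + β * d1 * h2 k

theorem InSpan.swap {ξ1 ξ2 v : Fin c → ℂ[X]} (h : InSpan ξ1 ξ2 v) : InSpan ξ2 ξ1 v := by
  obtain ⟨d, α, β, hd, h⟩ := h
  exact ⟨d, β, α, hd, fun k => by rw [h k]; ring⟩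

theorem InSpan.left (ξ1 ξ2 : Fin c → ℂ[X]) : InSpan ξ1 ξ2 ξ1 :=
  ⟨1, 1, 0, one_ne_zero, fun k => by ring⟩

theorem InSpan.right (ξ1 ξ2 : Fin c → ℂ[X]) : InSpan ξ1 ξ2 ξ2 :=
  ⟨1, 0, 1, one_ne_zero, fun k => by ring⟩

theorem Indep2.swap {ξ1 ξ2 : Fin c → ℂ[X]} (h : Indep2 ξ1 ξ2) : Indep2 ξ2 ξ1 := by
  obtain ⟨j, k, h⟩ := h
  refine ⟨j, k, fun h0 => h ?_⟩
  linear_combination -h0

theorem exists_minPair {H : Fin c → Fin c → ℂ[X]} {ξ1 ξ2 : Fin c → ℂ[X]} (hi : Indep2 ξ1 ξ2)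
    (hr : ∀ j, InSpan ξ1 ξ2 (H j)) : ∃ ξ1' ξ2' x1 x2, MinPair H ξ1' ξ2' x1 x2 := by
  classical
  set P : ℕ → Prop := fun s => ∃ (ξ1 ξ2 : Fin c → ℂ[X]) (x1 x2 : ℕ), x1 + x2 = s ∧
    GoodPair H ξ1 ξ2 x1 x2 with hP
  have hex : ∃ s, P s := by
    set x : ℕ := Finset.univ.sup (fun k => (ξ1 k).natDegree) +
      Finset.univ.sup (fun k => (ξ2 k).natDegree) with hx
    refine ⟨x + x, ξ1, ξ2, x, x, rfl, hi, hr, fun k => ?_, fun k => ?_, le_refl _⟩
    · exact (Finset.le_sup (f := fun k => (ξ1 k).natDegree) (Finset.mem_univ k)).trans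
        (Nat.le_add_right _ _)
    · exact (Finset.le_sup (f := fun k => (ξ2 k).natDegree) (Finset.mem_univ k)).trans
        (Nat.le_add_left _ _)
  obtain ⟨ξ1', ξ2', x1, x2, hs, hg⟩ := Nat.find_spec hex
  refine ⟨ξ1', ξ2', x1, x2, hg, fun η1 η2 y1 y2 hη => ?_⟩
  rw [hs]
  exact Nat.find_min' hex ⟨η1, η2, y1, y2, rfl, hη⟩

namespace MinPair

variable {H : Fin c → Fin c → ℂ[X]} {ξ1 ξ2 : Fin c → ℂ[X]} {x1 x2 : ℕ}

/-- Replacing the second vector by one of smaller degree is impossible. -/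
theorem contra_right (h : MinPair H ξ1 ξ2 x1 x2) {v : Fin c → ℂ[X]} {s α β : ℂ[X]} {y : ℕ}
    (_hs : s ≠ 0) (hv : ∀ k, s * v k = α * ξ1 k + β * ξ2 k) (hβ : β ≠ 0)
    (hy : ∀ k, (v k).natDegree ≤ y) (hyx : y < x2) : False := by
  have hind : Indep2 ξ1 v := by
    obtain ⟨j, k, hjk⟩ := h.indep
    refine ⟨j, k, fun h0 => ?_⟩
    have h1 : β * (ξ1 j * ξ2 k - ξ1 k * ξ2 j) = 0 := by
      linear_combination s * h0 - ξ1 j * hv k + ξ1 k * hv j
    exact (mul_ne_zero hβ hjk) h1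
  have h2 : InSpan ξ1 v ξ2 := ⟨β, -α, s, hβ, fun k => by linear_combination -hv k⟩
  have hrows : ∀ j, InSpan ξ1 v (H j) := fun j => (h.rows j).trans (InSpan.left _ _) h2
  rcases le_total x1 y with hxy | hxy
  · have := h.min ξ1 v x1 y ⟨hind, hrows, h.deg1, hy, hxy⟩
    omega
  · have := h.min v ξ1 y x1 ⟨hind.swap, fun j => (hrows j).swap, hy, h.deg1, hxy⟩
    omega

/-- Replacing the first vector by one of smaller degree is impossible. -/
theorem contra_left (h : MinPair H ξ1 ξ2 x1 x2) {v : Fin c → ℂ[X]} {s α β : ℂ[X]} {y : ℕ}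
    (_hs : s ≠ 0) (hv : ∀ k, s * v k = α * ξ1 k + β * ξ2 k) (hα : α ≠ 0)
    (hy : ∀ k, (v k).natDegree ≤ y) (hyx : y < x1) : False := by
  have hind : Indep2 v ξ2 := by
    obtain ⟨j, k, hjk⟩ := h.indep
    refine ⟨j, k, fun h0 => ?_⟩
    have h1 : α * (ξ1 j * ξ2 k - ξ1 k * ξ2 j) = 0 := by
      linear_combination s * h0 - ξ2 k * hv j + ξ2 j * hv k
    exact (mul_ne_zero hα hjk) h1
  have h2 : InSpan v ξ2 ξ1 := ⟨α, s, -β, hα, fun k => by linear_combination -hv k⟩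
  have hrows : ∀ j, InSpan v ξ2 (H j) := fun j => (h.rows j).trans h2 (InSpan.right _ _)
  have hle := h.le
  have := h.min v ξ2 y x2 ⟨hind, hrows, hy, h.deg2, by omega⟩
  omega

theorem not_rel (h : MinPair H ξ1 ξ2 x1 x2) {α β : ℂ[X]}
    (h0 : ∀ k, α * ξ1 k + β * ξ2 k = 0) : α = 0 ∧ β = 0 := by
  obtain ⟨j, k, hjk⟩ := h.indep
  constructor
  · have h1 : α * (ξ1 j * ξ2 k - ξ1 k * ξ2 j) = 0 := by
      linear_combination ξ2 k * h0 j - ξ2 j * h0 k
    exact (mul_eq_zero.mp h1).resolve_right hjk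
  · have h1 : β * (ξ1 j * ξ2 k - ξ1 k * ξ2 j) = 0 := by
      linear_combination ξ1 j * h0 k - ξ1 k * h0 j
    exact (mul_eq_zero.mp h1).resolve_right hjk

theorem natDegree_le_of_coeff {g : ℂ[X]} {d : ℕ} (hg : g.natDegree ≤ d) (h0 : g.coeff d = 0) :
    g.natDegree ≤ d - 1 := by
  rw [natDegree_le_iff_coeff_eq_zero]
  intro k hk
  rcases Nat.lt_or_ge d k with h1 | h1
  · exact coeff_eq_zero_of_natDegree_lt (lt_of_le_of_lt hg h1)
  · rw [show k = d by omega]; exact h0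

theorem eq_zero_of_coeff {g : ℂ[X]} (hg : g.natDegree ≤ 0) (h0 : g.coeff 0 = 0) : g = 0 := by
  rw [eq_C_of_natDegree_le_zero hg, h0, C_0]

/-- Row reduced: the leading coefficient vectors are linearly independent. -/
theorem reduced (h : MinPair H ξ1 ξ2 x1 x2) (α β : ℂ)
    (h0 : ∀ k, α * (ξ1 k).coeff x1 + β * (ξ2 k).coeff x2 = 0) : α = 0 ∧ β = 0 := by
  have hle := h.le
  by_cases hβ : β = 0
  · subst hβ
    refine ⟨?_, rfl⟩
    by_contra hα
    have h1 : ∀ k, (ξ1 k).coeff x1 = 0 := by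
      intro k
      have := h0 k
      rw [zero_mul, add_zero] at this
      exact (mul_eq_zero.mp this).resolve_left hα
    rcases Nat.eq_zero_or_pos x1 with hx | hx
    · have h2 : ∀ k, ξ1 k = 0 := fun k =>
        eq_zero_of_coeff (by rw [← hx]; exact h.deg1 k) (by rw [← hx]; exact h1 k)
      have := (h.not_rel (α := 1) (β := 0) (fun k => by rw [h2 k]; ring)).1
      exact one_ne_zero this
    · refine h.contra_left (v := ξ1) (s := 1) (α := 1) (β := 0) (y := x1 - 1) one_ne_zero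
        (fun k => by ring) one_ne_zero (fun k => natDegree_le_of_coeff (h.deg1 k) (h1 k)) (by omega)
  · exfalso
    set v : Fin c → ℂ[X] := fun k => ξ2 k + C (α / β) * X ^ (x2 - x1) * ξ1 k with hv
    have hvd : ∀ k, (v k).natDegree ≤ x2 := by
      intro k
      refine (natDegree_add_le _ _).trans (max_le (h.deg2 k) ?_)
      refine natDegree_mul_le.trans ?_
      have h2 : (C (α / β) * X ^ (x2 - x1) : ℂ[X]).natDegree ≤ x2 - x1 :=
        natDegree_C_mul_X_pow_le _ _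
      have h3 := h.deg1 k
      omega
    have hvc : ∀ k, (v k).coeff x2 = 0 := by
      intro k
      have h2 : (C (α / β) * X ^ (x2 - x1) * ξ1 k).coeff x2 = α / β * (ξ1 k).coeff x1 := by
        rw [mul_assoc, coeff_C_mul]
        congr 1
        conv_lhs => rw [show x2 = x1 + (x2 - x1) by omega]
        rw [show x1 + (x2 - x1) - x1 = x2 - x1 by omega, X_pow_mul, coeff_mul_X_pow]
      rw [hv]
      simp only [coeff_add]
      rw [h2]
      have h3 := h0 k
      field_simp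
      linear_combination h3
    have hrel : ∀ k, 1 * v k = C (α / β) * X ^ (x2 - x1) * ξ1 k + 1 * ξ2 k := by
      intro k; rw [hv]; ring
    rcases Nat.eq_zero_or_pos x2 with hx | hx
    · have h2 : ∀ k, v k = 0 := fun k =>
        eq_zero_of_coeff (by rw [← hx]; exact hvd k) (by rw [← hx]; exact hvc k)
      have := (h.not_rel (α := C (α / β) * X ^ (x2 - x1)) (β := 1)
        (fun k => by rw [← hrel k, h2 k]; ring)).2
      exact one_ne_zero this
    · exact h.contra_right one_ne_zero hrel one_ne_zero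
        (fun k => natDegree_le_of_coeff (hvd k) (hvc k)) (by omega)

theorem natDegree_div_le {g v : ℂ[X]} {l : ℂ} {d : ℕ} (hg : g.natDegree ≤ d)
    (hv : (X - C l) * v = g) : v.natDegree ≤ d - 1 := by
  by_cases hv0 : v = 0
  · rw [hv0]; simp
  · have h1 : g.natDegree = 1 + v.natDegree := by
      rw [← hv, natDegree_mul (X_sub_C_ne_zero l) hv0, natDegree_X_sub_C]
    omega

/-- Pointwise independence. -/
theorem pointwise (h : MinPair H ξ1 ξ2 x1 x2) (l α β : ℂ)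
    (h0 : ∀ k, α * (ξ1 k).eval l + β * (ξ2 k).eval l = 0) : α = 0 ∧ β = 0 := by
  have hle := h.le
  have hdvd : ∀ k, ∃ v, (X - C l) * v = C α * ξ1 k + C β * ξ2 k := by
    intro k
    have : (X - C l) ∣ C α * ξ1 k + C β * ξ2 k := by
      rw [dvd_iff_isRoot, IsRoot.def]
      simpa using h0 k
    obtain ⟨v, hv⟩ := this
    exact ⟨v, hv.symm⟩
  choose v hv using hdvd
  by_cases hβ : β = 0
  · subst hβ
    refine ⟨?_, rfl⟩
    by_contra hα
    have hCα : (C α : ℂ[X]) ≠ 0 := by simpa using hα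
    have hd : ∀ k, (C α * ξ1 k + C 0 * ξ2 k).natDegree ≤ x1 := by
      intro k
      rw [C_0, zero_mul, add_zero]
      exact (natDegree_C_mul_le _ _).trans (h.deg1 k)
    rcases Nat.eq_zero_or_pos x1 with hx | hx
    · have h2 : ∀ k, C α * ξ1 k + 0 * ξ2 k = 0 := by
        intro k
        have h3 : (C α * ξ1 k + C 0 * ξ2 k).natDegree ≤ 0 := by rw [← hx]; exact hd k
        have h4 := eq_C_of_natDegree_le_zero h3
        have h5 := hv k
        rw [h4] at h5
        have h6 := congrArg (eval l) h5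
        rw [eval_mul, eval_sub, eval_X, eval_C, sub_self, zero_mul, eval_C] at h6
        rw [← h6, C_0] at h4
        exact h4
      exact hCα (h.not_rel h2).1
    · exact h.contra_left (X_sub_C_ne_zero l) hv hCα
        (fun k => natDegree_div_le (hd k) (hv k)) (by omega)
  · exfalso
    have hCβ : (C β : ℂ[X]) ≠ 0 := by simpa using hβ
    have hd : ∀ k, (C α * ξ1 k + C β * ξ2 k).natDegree ≤ x2 := by
      intro k
      refine (natDegree_add_le _ _).trans (max_le ?_ ?_)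
      · exact (natDegree_C_mul_le _ _).trans ((h.deg1 k).trans hle)
      · exact (natDegree_C_mul_le _ _).trans (h.deg2 k)
    rcases Nat.eq_zero_or_pos x2 with hx | hx
    · have h2 : ∀ k, C α * ξ1 k + C β * ξ2 k = 0 := by
        intro k
        have h3 : (C α * ξ1 k + C β * ξ2 k).natDegree ≤ 0 := by rw [← hx]; exact hd k
        have h4 := eq_C_of_natDegree_le_zero h3
        have h5 := hv k
        rw [h4] at h5
        have h6 := congrArg (eval l) h5
        rw [eval_mul, eval_sub, eval_X, eval_C, sub_self, zero_mul, eval_C] at h6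
        rw [← h6, C_0] at h4
        exact h4
      exact hCβ (h.not_rel h2).2
    · exact h.contra_right (X_sub_C_ne_zero l) hv hCβ
        (fun k => natDegree_div_le (hd k) (hv k)) (by omega)

/-- The pair generates every polynomial vector in its plane. -/
theorem gen (h : MinPair H ξ1 ξ2 x1 x2) : ∀ (n : ℕ) (d α β : ℂ[X]) (v : Fin c → ℂ[X]),
    d.natDegree ≤ n → d ≠ 0 → (∀ k, d * v k = α * ξ1 k + β * ξ2 k) →
    ∃ α' β' : ℂ[X], ∀ k, v k = α' * ξ1 k + β' * ξ2 k := by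
  intro n
  induction n with
  | zero =>
    intro d α β v hd hd0 hv
    have h1 := eq_C_of_natDegree_le_zero hd
    have h2 : d.coeff 0 ≠ 0 := by
      intro h3; rw [h3, C_0] at h1; exact hd0 h1
    refine ⟨C (d.coeff 0)⁻¹ * α, C (d.coeff 0)⁻¹ * β, fun k => ?_⟩
    have h3 := hv k
    rw [h1] at h3
    have h4 : (C (d.coeff 0)⁻¹ : ℂ[X]) * C (d.coeff 0) = 1 := by
      rw [← C_mul, inv_mul_cancel₀ h2, C_1]
    linear_combination (C (d.coeff 0)⁻¹ : ℂ[X]) * h3 - v k * h4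
  | succ n ih =>
    intro d α β v hd hd0 hv
    rcases Nat.eq_zero_or_pos d.natDegree with hd1 | hd1
    · exact ih d α β v (by omega) hd0 hv
    · have hdeg : d.degree ≠ 0 := by
        intro h1
        rw [degree_eq_natDegree hd0] at h1
        have : d.natDegree = 0 := by exact_mod_cast h1
        omega
      obtain ⟨l, hl⟩ := IsAlgClosed.exists_root d hdeg
      obtain ⟨d', hd'⟩ := dvd_iff_isRoot.mpr hl
      have hev : ∀ k, α.eval l * (ξ1 k).eval l + β.eval l * (ξ2 k).eval l = 0 := by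
        intro k
        have h1 := congrArg (eval l) (hv k)
        rw [eval_mul, IsRoot.def.mp hl, zero_mul, eval_add, eval_mul, eval_mul] at h1
        exact h1.symm
      obtain ⟨hα, hβ⟩ := h.pointwise l _ _ hev
      obtain ⟨α', hα'⟩ := dvd_iff_isRoot.mpr (IsRoot.def.mpr hα)
      obtain ⟨β', hβ'⟩ := dvd_iff_isRoot.mpr (IsRoot.def.mpr hβ)
      have hX := X_sub_C_ne_zero (R := ℂ) l
      have hd'0 : d' ≠ 0 := by
        rintro rfl
        rw [mul_zero] at hd'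
        exact hd0 hd'
      have hdn : d.natDegree = 1 + d'.natDegree := by
        rw [hd', natDegree_mul hX hd'0, natDegree_X_sub_C]
      refine ih d' α' β' v (by omega) hd'0 fun k => ?_
      have h1 := hv k
      rw [hd', hα', hβ'] at h1
      apply mul_left_cancel₀ hX
      linear_combination h1

theorem exists_coeffs (h : MinPair H ξ1 ξ2 x1 x2) {v : Fin c → ℂ[X]} (hv : InSpan ξ1 ξ2 v) :
    ∃ α β : ℂ[X], ∀ k, v k = α * ξ1 k + β * ξ2 k := by
  obtain ⟨d, α, β, hd, hv⟩ := hv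
  exact h.gen _ d α β v le_rfl hd hv

/-- Change of minimal pair. -/
theorem change (h : MinPair H ξ1 ξ2 x1 x2) {ξ1' ξ2' : Fin c → ℂ[X]} (hi : Indep2 ξ1' ξ2')
    (h1 : InSpan ξ1' ξ2' ξ1) (h2 : InSpan ξ1' ξ2' ξ2) (hd1 : ∀ k, (ξ1' k).natDegree ≤ x1)
    (hd2 : ∀ k, (ξ2' k).natDegree ≤ x2) : MinPair H ξ1' ξ2' x1 x2 :=
  ⟨⟨hi, fun j => (h.rows j).trans h1 h2, hd1, hd2, h.le⟩, h.min⟩

end MinPair

/-- A normalized minimal pair. -/
theorem exists_normalized {H : Fin c → Fin c → ℂ[X]} {ξ1 ξ2 : Fin c → ℂ[X]} (hi : Indep2 ξ1 ξ2)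
    (hr : ∀ j, InSpan ξ1 ξ2 (H j)) :
    ∃ (η1 η2 : Fin c → ℂ[X]) (x1 x2 : ℕ) (j1 j2 : Fin c), MinPair H η1 η2 x1 x2 ∧ j1 ≠ j2 ∧
      (η1 j1).coeff x1 = 1 ∧ (η2 j2).coeff x2 = 1 ∧ (∀ k, x1 ≤ k → (η2 j1).coeff k = 0) ∧
      (x1 = x2 → (η1 j2).coeff x1 = 0) := by
  obtain ⟨ξ1, ξ2, x1, x2, h⟩ := exists_minPair hi hr
  have hle := h.le
  -- scale the first vector
  obtain ⟨j1, hj1⟩ : ∃ j, (ξ1 j).coeff x1 ≠ 0 := by
    by_contra hcon
    push Not at hcon
    have := (h.reduced 1 0 (fun k => by rw [hcon k]; ring)).1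
    exact one_ne_zero this
  set a : ℂ := (ξ1 j1).coeff x1 with ha
  set u : Fin c → ℂ[X] := fun k => C a⁻¹ * ξ1 k with hu
  have hCa : (C a⁻¹ : ℂ[X]) ≠ 0 := by simpa using hj1
  have hu1 : (u j1).coeff x1 = 1 := by
    rw [hu]; simp only [coeff_C_mul]; exact inv_mul_cancel₀ hj1
  have h1 : MinPair H u ξ2 x1 x2 := by
    refine h.change ?_ ?_ (InSpan.right _ _) ?_ h.deg2
    · obtain ⟨j, k, hjk⟩ := h.indep
      refine ⟨j, k, fun h0 => ?_⟩
      have : C a⁻¹ * (ξ1 j * ξ2 k - ξ1 k * ξ2 j) = 0 := by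
        rw [← h0, hu]; ring
      exact mul_ne_zero hCa hjk this
    · exact ⟨C a⁻¹, 1, 0, hCa, fun k => by rw [hu]; ring⟩
    · intro k
      exact (natDegree_C_mul_le _ _).trans (h.deg1 k)
  -- divide
  have hmonic : (u j1).Monic := monic_of_natDegree_le_of_coeff_eq_one x1 (h1.deg1 j1) hu1
  have hudeg : (u j1).natDegree = x1 :=
    natDegree_eq_of_le_of_coeff_ne_zero (h1.deg1 j1) (by rw [hu1]; exact one_ne_zero)
  set p : ℂ[X] := (ξ2 j1) /ₘ (u j1) with hp
  set w : Fin c → ℂ[X] := fun k => ξ2 k - p * u k with hw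
  have hpdeg : p.natDegree ≤ x2 - x1 := by
    rw [hp, natDegree_divByMonic _ hmonic, hudeg]
    have := h.deg2 j1
    omega
  have hwj1 : w j1 = (ξ2 j1) %ₘ (u j1) := by
    have := modByMonic_add_div (ξ2 j1) (u j1)
    rw [hw]
    simp only
    rw [hp]
    linear_combination -this
  have hwc : ∀ k, x1 ≤ k → (w j1).coeff k = 0 := by
    intro k hk
    rw [hwj1]
    apply coeff_eq_zero_of_degree_lt
    refine lt_of_lt_of_le (degree_modByMonic_lt _ hmonic) ?_
    rw [degree_eq_natDegree hmonic.ne_zero, hudeg]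
    exact_mod_cast hk
  have h2 : MinPair H u w x1 x2 := by
    refine h1.change ?_ (InSpan.left _ _) ?_ h1.deg1 ?_
    · obtain ⟨j, k, hjk⟩ := h1.indep
      refine ⟨j, k, fun h0 => hjk ?_⟩
      rw [hw] at h0
      linear_combination h0
    · exact ⟨1, p, 1, one_ne_zero, fun k => by rw [hw]; ring⟩
    · intro k
      refine (natDegree_sub_le _ _).trans (max_le (h.deg2 k) ?_)
      refine natDegree_mul_le.trans ?_
      have := h1.deg1 k
      omega
  obtain ⟨j2, hj2⟩ : ∃ j, (w j).coeff x2 ≠ 0 := by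
    by_contra hcon
    push Not at hcon
    have := (h2.reduced 0 1 (fun k => by rw [hcon k]; ring)).2
    exact one_ne_zero this
  have hj12 : j1 ≠ j2 := by
    rintro rfl
    exact hj2 (hwc x2 hle)
  set b : ℂ := (w j2).coeff x2 with hb
  set w' : Fin c → ℂ[X] := fun k => C b⁻¹ * w k with hw'
  have hCb : (C b⁻¹ : ℂ[X]) ≠ 0 := by simpa using hj2
  have hw'1 : (w' j2).coeff x2 = 1 := by
    rw [hw']; simp only [coeff_C_mul]; exact inv_mul_cancel₀ hj2
  have hw'c : ∀ k, x1 ≤ k → (w' j1).coeff k = 0 := by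
    intro k hk
    rw [hw']; simp only [coeff_C_mul]; rw [hwc k hk, mul_zero]
  have h3 : MinPair H u w' x1 x2 := by
    refine h2.change ?_ (InSpan.left _ _) ?_ h2.deg1 ?_
    · obtain ⟨j, k, hjk⟩ := h2.indep
      refine ⟨j, k, fun h0 => ?_⟩
      have : C b⁻¹ * (u j * w k - u k * w j) = 0 := by
        rw [← h0, hw']; ring
      exact mul_ne_zero hCb hjk this
    · exact ⟨C b⁻¹, 0, 1, hCb, fun k => by rw [hw']; ring⟩
    · intro k
      exact (natDegree_C_mul_le _ _).trans (h2.deg2 k)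
  by_cases hx : x1 = x2
  · set e : ℂ := (u j2).coeff x1 with he
    set u' : Fin c → ℂ[X] := fun k => u k - C e * w' k with hu'
    refine ⟨u', w', x1, x2, j1, j2, ?_, hj12, ?_, hw'1, hw'c, fun _ => ?_⟩
    · refine h3.change ?_ ?_ (InSpan.right _ _) ?_ h3.deg2
      · obtain ⟨j, k, hjk⟩ := h3.indep
        refine ⟨j, k, fun h0 => hjk ?_⟩
        rw [hu'] at h0
        linear_combination h0
      · exact ⟨1, 1, C e, one_ne_zero, fun k => by rw [hu']; ring⟩
      · intro k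
        refine (natDegree_sub_le _ _).trans (max_le (h3.deg1 k) ?_)
        refine (natDegree_C_mul_le _ _).trans ?_
        have := h3.deg2 k
        omega
    · rw [hu']
      simp only [coeff_sub, coeff_C_mul]
      rw [hu1, hw'c x1 le_rfl]; ring
    · rw [hu']
      simp only [coeff_sub, coeff_C_mul]
      rw [← he, hx, hw'1]; ring
  · exact ⟨u, w', x1, x2, j1, j2, h3, hj12, hu1, hw'1, hw'c, fun h0 => absurd h0 hx⟩

end Pool.Agent.Helper730_PP
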