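import Pool.Agent.Helper730_PP.Bad

/-!
# Compactness: a plant with no nonzero solution at all is robustly bad
-/

open Polynomial Matrix Topology

namespace Pool.Agent.Helper730_PP

noncomputable section

/-- Continuity of every coefficient. -/
def CC {T : Type*} [TopologicalSpace T] (P : T → ℝ[X]) : Prop :=
  ∀ r, Continuous fun t => (P t).coeff r

namespace CC

variable {T : Type*} [TopologicalSpace T]

theorem const (g : ℝ[X]) : CC (fun _ : T => g) := fun _ => continuous_const

theorem add {P Q : T → ℝ[X]} (hP : CC P) (hQ : CC Q) : CC fun t => P t + Q t := by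
  intro r
  simp only [coeff_add]
  exact (hP r).add (hQ r)

theorem sub {P Q : T → ℝ[X]} (hP : CC P) (hQ : CC Q) : CC fun t => P t - Q t := by
  intro r
  simp only [coeff_sub]
  exact (hP r).sub (hQ r)

theorem mul {P Q : T → ℝ[X]} (hP : CC P) (hQ : CC Q) : CC fun t => P t * Q t := by
  intro r
  simp only [coeff_mul]
  exact continuous_finsetSum _ fun x _ => (hP x.1).mul (hQ x.2)

theorem sum {ι : Type*} (s : Finset ι) {P : ι → T → ℝ[X]} (hP : ∀ i ∈ s, CC (P i)) :
    CC fun t => ∑ i ∈ s, P i t := by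
  intro r
  simp only [finsetSum_coeff]
  exact continuous_finsetSum _ fun i hi => hP i hi r

theorem C_comp {g : T → ℝ} (hg : Continuous g) : CC fun t => (C (g t) : ℝ[X]) := by
  intro r
  simp only [coeff_C]
  split_ifs
  · exact hg
  · exact continuous_const

theorem isClosed_eq_zero {P : T → ℝ[X]} (hP : CC P) : IsClosed {t | P t = 0} := by
  have : {t | P t = 0} = ⋂ r, {t | (P t).coeff r = 0} := by
    ext t
    simp only [Set.mem_ofPred_eq, Set.mem_iInter]
    constructor
    · intro h r; rw [h, coeff_zero]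
    · intro h; ext r; rw [h r, coeff_zero]
  rw [this]
  exact isClosed_iInter fun r => isClosed_eq (hP r) continuous_const

end CC

/-- The parameter space of forms of degree at most `q`. -/
abbrev FormPar (N q : ℕ) : Type := Fin N × Fin N × Fin (q + 1) → ℝ

/-- The form with given parameters. -/
def toForm {N q : ℕ} (x : FormPar N q) (i j : Fin N) : ℝ[X] :=
  ∑ k : Fin (q + 1), C (x (i, j, k)) * X ^ (k : ℕ)

theorem toForm_CC {N q : ℕ} (i j : Fin N) : CC fun x : FormPar N q => toForm x i j :=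
  CC.sum _ fun _ _ => (CC.C_comp (continuous_apply _)).mul (CC.const _)

theorem toForm_natDegree {N q : ℕ} (x : FormPar N q) (i j : Fin N) :
    (toForm x i j).natDegree ≤ q := by
  refine natDegree_sum_le_of_forall_le _ _ fun k _ => ?_
  exact (natDegree_C_mul_X_pow_le _ _).trans (Nat.lt_succ_iff.mp k.2)

theorem toForm_surj {N q : ℕ} (V : Fin N → Fin N → ℝ[X]) (hV : ∀ i j, (V i j).natDegree ≤ q) :
    ∃ x : FormPar N q, ∀ i j, toForm x i j = V i j := by
  refine ⟨fun y => (V y.1 y.2.1).coeff (y.2.2 : ℕ), fun i j => ?_⟩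
  have h := sum_coeff_eq (hV i j)
  unfold toForm
  simp only
  rw [h]

theorem toForm_smul {N q : ℕ} (c : ℝ) (x : FormPar N q) (i j : Fin N) :
    toForm (c • x) i j = C c * toForm x i j := by
  unfold toForm
  rw [Finset.mul_sum]
  refine Finset.sum_congr rfl fun k _ => ?_
  rw [Pi.smul_apply, smul_eq_mul, C_mul, mul_assoc]

theorem toForm_eq_zero {N q : ℕ} (x : FormPar N q) (h : ∀ i j, toForm x i j = 0) : x = 0 := by
  funext ⟨i, j, k⟩
  have h1 := congrArg (fun p => p.coeff (k : ℕ)) (h i j)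
  simp only [toForm, finsetSum_coeff, coeff_C_mul_X_pow, coeff_zero] at h1
  rw [Finset.sum_eq_single k] at h1
  · simpa using h1
  · intro b _ hb
    rw [if_neg]
    intro h; exact hb (Fin.ext h.symm)
  · intro h; exact absurd (Finset.mem_univ _) h

/-- Skew, and satisfying the three-term Plücker relations. -/
def IsPlucker {N : ℕ} (V : Fin N → Fin N → ℝ[X]) : Prop :=
  (∀ i j, V i j = - V j i) ∧
    ∀ i j k l, V i j * V k l - V i k * V j l + V i l * V j k = 0

/-- The value of the form `V` on two vectors. -/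
def bval {N : ℕ} (V : Fin N → Fin N → ℝ[X]) (x y : Fin N → ℝ[X]) : ℝ[X] :=
  ∑ i, ∑ j, x i * y j * V i j

theorem bval_smul {N : ℕ} (V : Fin N → Fin N → ℝ[X]) (x y : Fin N → ℝ[X]) (c : ℝ) :
    bval (fun i j => C c * V i j) x y = C c * bval V x y := by
  unfold bval
  rw [Finset.mul_sum]
  refine Finset.sum_congr rfl fun i _ => ?_
  rw [Finset.mul_sum]
  refine Finset.sum_congr rfl fun j _ => ?_
  ring

theorem robust {N d q : ℕ} (a b : Fin N → ℝ[X]) (φ : ℝ[X])
    (hφ : φ.natDegree = d) (hφ0 : φ ≠ 0)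
    (hno : ∀ V : Fin N → Fin N → ℝ[X], (∀ i j, (V i j).natDegree ≤ q) → IsPlucker V →
      ∀ τ : ℝ, bval V a b = C τ * φ → ∀ i j, V i j = 0)
    (a' b' : Fin N → ℝ[X]) :
    ∃ ε : ℝ, 0 < ε ∧ ∀ t : ℝ, |t| < ε → ∀ V : Fin N → Fin N → ℝ[X],
      (∀ i j, (V i j).natDegree ≤ q) → IsPlucker V → ∀ τ : ℝ,
      bval V (fun j => a j + C t * a' j) (fun j => b j + C t * b' j) = C τ * φ →
      ∀ i j, V i j = 0 := by
  have hlead : φ.coeff d ≠ 0 := by
    rw [← hφ]; exact fun h => hφ0 (leadingCoeff_eq_zero.mp h)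
  set K : Set (FormPar N q) := {x | ‖x‖ = 1} ∩ {x | IsPlucker (toForm x)} with hK
  have hclosed : IsClosed {x : FormPar N q | IsPlucker (toForm x)} := by
    have h1 : {x : FormPar N q | IsPlucker (toForm x)} =
        (⋂ i, ⋂ j, {x : FormPar N q | toForm x i j + toForm x j i = 0}) ∩
        ⋂ i, ⋂ j, ⋂ k, ⋂ l, {x : FormPar N q | toForm x i j * toForm x k l
          - toForm x i k * toForm x j l + toForm x i l * toForm x j k = 0} := by
      ext x
      simp only [IsPlucker, Set.mem_ofPred_eq, Set.mem_inter_iff, Set.mem_iInter]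
      refine and_congr ?_ Iff.rfl
      refine forall_congr' fun i => forall_congr' fun j => ?_
      rw [eq_neg_iff_add_eq_zero]
    rw [h1]
    refine IsClosed.inter ?_ ?_
    · exact isClosed_iInter fun i => isClosed_iInter fun j =>
        ((toForm_CC i j).add (toForm_CC j i)).isClosed_eq_zero
    · exact isClosed_iInter fun i => isClosed_iInter fun j => isClosed_iInter fun k =>
        isClosed_iInter fun l =>
        ((((toForm_CC i j).mul (toForm_CC k l)).sub ((toForm_CC i k).mul (toForm_CC j l))).add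
          ((toForm_CC i l).mul (toForm_CC j k))).isClosed_eq_zero
  have hKc : IsCompact K := by
    have h1 : {x : FormPar N q | ‖x‖ = 1} = Metric.sphere 0 1 := by
      ext x; simp
    rw [hK, h1]
    exact (isCompact_sphere _ _).inter_right hclosed
  -- the value, with the multiple of `φ` removed
  set G : FormPar N q × ℝ → ℝ[X] := fun y =>
    bval (toForm y.1) (fun j => a j + C y.2 * a' j) (fun j => b j + C y.2 * b' j) with hG
  have hGC : CC G := by
    have hT : ∀ i j, CC fun y : FormPar N q × ℝ => toForm y.1 i j := fun i j r =>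
      (toForm_CC i j r).comp continuous_fst
    have hCt : CC fun y : FormPar N q × ℝ => (C y.2 : ℝ[X]) := CC.C_comp continuous_snd
    refine CC.sum _ fun i _ => CC.sum _ fun j _ => ?_
    exact (((CC.const _).add (hCt.mul (CC.const _))).mul
      ((CC.const _).add (hCt.mul (CC.const _)))).mul (hT i j)
  set R : FormPar N q × ℝ → ℝ[X] := fun y => G y - C ((G y).coeff d / φ.coeff d) * φ with hR
  have hRC : CC R := hGC.sub ((CC.C_comp ((hGC d).div_const _)).mul (CC.const _))
  have hopen : IsOpen {y | R y ≠ 0} := hRC.isClosed_eq_zero.isOpen_compl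
  have hsub : K ×ˢ ({0} : Set ℝ) ⊆ {y | R y ≠ 0} := by
    rintro ⟨x, t⟩ ⟨hx, ht⟩
    rw [Set.mem_singleton_iff] at ht
    simp only at ht hx
    subst ht
    intro h0
    have h1 : bval (toForm x) a b = C ((G (x, 0)).coeff d / φ.coeff d) * φ := by
      have h2 : G (x, 0) = bval (toForm x) a b := by
        rw [hG]; simp
      rw [← h2]
      exact sub_eq_zero.mp h0
    have h3 := hno (toForm x) (toForm_natDegree x) hx.2 _ h1
    have h4 := toForm_eq_zero x h3
    have h5 : ‖x‖ = 1 := hx.1
    rw [h4, norm_zero] at h5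
    exact zero_ne_one h5
  obtain ⟨u, v, -, hv, hKu, h0v, huv⟩ := generalized_tube_lemma hKc isCompact_singleton hopen hsub
  obtain ⟨ε, hε, hball⟩ := Metric.isOpen_iff.mp hv 0 (h0v (Set.mem_singleton 0))
  refine ⟨ε, hε, fun t ht V hVd hVP τ hτ => ?_⟩
  obtain ⟨x, hx⟩ := toForm_surj V hVd
  have hxV : toForm x = V := by funext i j; exact hx i j
  by_contra hne
  have hx0 : x ≠ 0 := by
    rintro rfl
    apply hne
    intro i j
    rw [← hx i j]
    have := toForm_smul (0 : ℝ) (0 : FormPar N q) i j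
    rw [zero_smul] at this
    rw [this, C_0, zero_mul]
  have hnx : ‖x‖ ≠ 0 := norm_ne_zero_iff.mpr hx0
  set x' : FormPar N q := ‖x‖⁻¹ • x with hx'
  have hform : toForm x' = fun i j => C ‖x‖⁻¹ * V i j := by
    funext i j; rw [hx', toForm_smul, hx i j]
  have hxK : x' ∈ K := by
    refine ⟨?_, ?_⟩
    · show ‖x'‖ = 1
      rw [hx', norm_smul, norm_inv, norm_norm, inv_mul_cancel₀ hnx]
    · show IsPlucker (toForm x')
      rw [hform]
      refine ⟨fun i j => ?_, fun i j k l => ?_⟩
      · simp only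
        rw [hVP.1 i j]; ring
      · linear_combination (C ‖x‖⁻¹) ^ 2 * hVP.2 i j k l
  have htv : t ∈ v := hball (by simpa using ht)
  have h1 : R (x', t) ≠ 0 := huv (Set.mk_mem_prod (hKu hxK) htv)
  apply h1
  have h2 : G (x', t) = C (‖x‖⁻¹ * τ) * φ := by
    rw [hG]
    simp only
    rw [hform, bval_smul, hτ, C_mul]; ring
  rw [hR]
  simp only
  rw [h2, coeff_C_mul, mul_div_cancel_right₀ _ hlead, sub_self]

/-- The three-term relations hold for the form of a compensator. -/
theorem ventry_isPlucker {m : ℕ} (P₂ : PolyMat m (m + 2)) : IsPlucker (ventry P₂) :=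
  ⟨ventry_swap P₂, ventry_plucker P₂⟩

theorem vform_eq_bval {m : ℕ} (P₂ : PolyMat m (m + 2)) (x y : Fin (m + 2) → ℝ[X]) :
    vform P₂ x y = bval (ventry P₂) x y := vform_eq_sum P₂ x y

/-- A balanced plant without nonzero solutions refutes generic real pole placement. -/
theorem not_generic_of_no_solution {m n q : ℕ} (a b : Fin (m + 2) → ℝ[X]) (φ : ℝ[X])
    (hφ : φ.natDegree = n + q) (hφ0 : φ ≠ 0)
    (ha : ∀ j, (a j).natDegree ≤ n / 2) (hb : ∀ j, (b j).natDegree ≤ n - n / 2)
    (hno : ∀ V : Fin (m + 2) → Fin (m + 2) → ℝ[X], (∀ i j, (V i j).natDegree ≤ q) →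
      IsPlucker V → ∀ τ : ℝ, bval V a b = C τ * φ → ∀ i j, V i j = 0) :
    ¬ GenericRealPolePlacement m 2 n q := by
  refine not_generic_of_bad a b φ hφ ha hb ?_
  intro a' b' _ _
  obtain ⟨ε, hε, h⟩ := robust a b φ hφ hφ0 hno a' b'
  refine ⟨ε, hε, fun t ht0 ht P₂ hP₂ c _ heq => ?_⟩
  rw [vform_eq_bval] at heq
  have h1 := h t (by rw [abs_of_pos ht0]; exact ht) (ventry P₂) (ventry_natDegree hP₂)
    (ventry_isPlucker P₂) c heq
  obtain ⟨i, j, hij⟩ := exists_ventry_ne hP₂
  exact hij (h1 i j)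

end

end Pool.Agent.Helper730_PP
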