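import Pool.Agent.Helper730_PP.Generic
import Pool.Agent.Helper730_PP.Robust

/-!
# The Hermitian form attached to a decomposable alternating form
-/

open Polynomial

namespace Pool.Agent.Helper730_PP

noncomputable section

variable {c N : ℕ}

/-- The imaginary unit as a polynomial. -/
def II : ℂ[X] := C Complex.I

theorem II_sq : II * II = -1 := by
  unfold II
  rw [← C_mul, Complex.I_mul_I, C_neg, C_1]

theorem cj_II : cj II = -II := by
  unfold cj II
  rw [Polynomial.coe_mapRingHom, map_C, Complex.conj_I, C_neg]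

theorem cj_io (p : ℝ[X]) : cj (io p) = io p := by
  ext k
  rw [cj_coeff, io_coeff, Complex.conj_ofReal]

theorem io_natDegree (p : ℝ[X]) : (io p).natDegree = p.natDegree := by
  unfold io
  rw [Polynomial.coe_mapRingHom]
  exact natDegree_map_eq_of_injective (RingHom.injective _) p

theorem io_eq_zero {p : ℝ[X]} : io p = 0 ↔ p = 0 := by
  constructor
  · intro h
    ext k
    have := congrArg (fun g => g.coeff k) h
    simp only [io_coeff, coeff_zero] at this ⊢
    exact_mod_cast this
  · rintro rfl; exact map_zero _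

theorem two_ne_zeroX : (2 : ℂ[X]) ≠ 0 := two_ne_zero

theorem sq_add_sq_eq_zeroX {a b : ℝ[X]} (h : a ^ 2 + b ^ 2 = 0) : a = 0 ∧ b = 0 := by
  have key : ∀ x, a.eval x = 0 ∧ b.eval x = 0 := by
    intro x
    have h1 := congrArg (fun p => p.eval x) h
    simp only [eval_add, eval_pow, eval_zero] at h1
    constructor
    · nlinarith [sq_nonneg (a.eval x), sq_nonneg (b.eval x)]
    · nlinarith [sq_nonneg (a.eval x), sq_nonneg (b.eval x)]
  exact ⟨Polynomial.funext fun x => by rw [(key x).1, eval_zero],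
    Polynomial.funext fun x => by rw [(key x).2, eval_zero]⟩

/-- Twice the Hermitian matrix attached to an alternating matrix. -/
def herm2 (e : Fin c → Fin 2 → Fin N) (V : Fin N → Fin N → ℝ[X]) (j k : Fin c) : ℂ[X] :=
  io (V (e j 0) (e k 1) - V (e j 1) (e k 0)) + II * io (V (e j 0) (e k 0) + V (e j 1) (e k 1))

/-- The Hermitian matrix attached to an alternating matrix. -/
def herm (e : Fin c → Fin 2 → Fin N) (V : Fin N → Fin N → ℝ[X]) (j k : Fin c) : ℂ[X] :=
  C (1 / 2) * herm2 e V j k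

theorem two_herm (e : Fin c → Fin 2 → Fin N) (V : Fin N → Fin N → ℝ[X]) (j k : Fin c) :
    2 * herm e V j k = herm2 e V j k := by
  unfold herm
  have : (2 : ℂ[X]) * C (1 / 2) = 1 := by
    rw [show (2 : ℂ[X]) = C 2 from (map_ofNat C 2).symm, ← C_mul]
    norm_num
  rw [← mul_assoc, this, one_mul]

theorem cj_two : cj (2 : ℂ[X]) = 2 := map_ofNat cj 2

theorem herm_cj (e : Fin c → Fin 2 → Fin N) {V : Fin N → Fin N → ℝ[X]} (hV : IsPlucker V)
    (j k : Fin c) : herm e V k j = cj (herm e V j k) := by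
  apply mul_left_cancel₀ two_ne_zeroX
  rw [two_herm]
  have h1 : 2 * cj (herm e V j k) = cj (herm2 e V j k) := by
    rw [← two_herm, map_mul, cj_two]
  rw [h1]
  unfold herm2
  rw [map_add cj, map_mul cj, cj_II, cj_io, cj_io]
  have a1 : V (e k 0) (e j 1) - V (e k 1) (e j 0) = V (e j 0) (e k 1) - V (e j 1) (e k 0) := by
    rw [hV.1 (e k 0) (e j 1), hV.1 (e k 1) (e j 0)]; ring
  have a2 : V (e k 0) (e j 0) + V (e k 1) (e j 1)
      = -(V (e j 0) (e k 0) + V (e j 1) (e k 1)) := by
    rw [hV.1 (e k 0) (e j 0), hV.1 (e k 1) (e j 1)]; ring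
  rw [a1, a2, map_neg]; ring

theorem herm_natDegree (e : Fin c → Fin 2 → Fin N) {V : Fin N → Fin N → ℝ[X]} {q : ℕ}
    (hV : ∀ i j, (V i j).natDegree ≤ q) (j k : Fin c) : (herm e V j k).natDegree ≤ q := by
  unfold herm herm2 II
  refine (natDegree_C_mul_le _ _).trans ?_
  refine (natDegree_add_le _ _).trans (max_le ?_ ?_)
  · rw [io_natDegree]
    exact (natDegree_sub_le _ _).trans (max_le (hV _ _) (hV _ _))
  · refine (natDegree_C_mul_le _ _).trans ?_
    rw [io_natDegree]
    exact (natDegree_add_le _ _).trans (max_le (hV _ _) (hV _ _))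

/-- If the Hermitian matrix vanishes then so does the decomposable alternating matrix. -/
theorem eq_zero_of_herm (e : Fin c → Fin 2 → Fin N) (he : ∀ i, ∃ j s, e j s = i)
    {V : Fin N → Fin N → ℝ[X]} (hV : IsPlucker V) (h0 : ∀ j k, herm e V j k = 0) (i i' : Fin N) :
    V i i' = 0 := by
  have hre : ∀ (a b : ℝ[X]), io a + II * io b = 0 → a = 0 ∧ b = 0 := by
    intro a b hab
    have h1 := congrArg cj hab
    rw [map_add, map_mul, cj_II, cj_io, cj_io, map_zero] at h1
    have h2 : 2 * io a = 0 := by linear_combination hab + h1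
    have h3 := (mul_eq_zero.mp h2).resolve_left two_ne_zeroX
    rw [h3, zero_add] at hab
    refine ⟨io_eq_zero.mp h3, ?_⟩
    rcases mul_eq_zero.mp hab with h4 | h4
    · exfalso
      have := II_sq
      rw [h4, zero_mul] at this
      exact one_ne_zero (neg_eq_zero.mp this.symm)
    · exact io_eq_zero.mp h4
  have key : ∀ j k, V (e j 0) (e k 1) = V (e j 1) (e k 0) ∧
      V (e j 0) (e k 0) = -V (e j 1) (e k 1) := by
    intro j k
    have h1 := two_herm e V j k
    rw [h0, mul_zero] at h1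
    obtain ⟨h2, h3⟩ := hre _ _ h1.symm
    exact ⟨sub_eq_zero.mp h2, eq_neg_of_add_eq_zero_left h3⟩
  have hjj : ∀ j, V (e j 0) (e j 1) = 0 := by
    intro j
    have h1 := (key j j).1
    rw [hV.1 (e j 1) (e j 0)] at h1
    have h2 : 2 * V (e j 0) (e j 1) = 0 := by linear_combination h1
    exact (mul_eq_zero.mp h2).resolve_left two_ne_zero
  have hsq : ∀ j k, V (e j 0) (e k 0) = 0 ∧ V (e j 0) (e k 1) = 0 := by
    intro j k
    have h1 := hV.2 (e j 0) (e j 1) (e k 0) (e k 1)
    obtain ⟨k1, k2⟩ := key j k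
    rw [hjj j, hjj k] at h1
    have h2 : V (e j 0) (e k 0) ^ 2 + V (e j 0) (e k 1) ^ 2 = 0 := by
      linear_combination h1 + V (e j 0) (e k 0) * k2 + V (e j 0) (e k 1) * k1
    exact sq_add_sq_eq_zeroX h2
  obtain ⟨j, s, rfl⟩ := he i
  obtain ⟨k, t, rfl⟩ := he i'
  obtain ⟨h1, h2⟩ := hsq j k
  obtain ⟨h3, h4⟩ := key j k
  fin_cases s <;> fin_cases t
  · exact h1
  · exact h2
  · exact h3.symm.trans h2
  · have : V (e j 1) (e k 1) = -V (e j 0) (e k 0) := by rw [h4, neg_neg]
    exact this.trans (by rw [h1, neg_zero])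

/-- The rows of the Hermitian matrix lie in a plane. -/
theorem exists_plane (e : Fin c → Fin 2 → Fin N) (hc : 2 ≤ c)
    {V : Fin N → Fin N → ℝ[X]} (hV : IsPlucker V) (hne : ∃ j k, herm e V j k ≠ 0) :
    ∃ ζ1 ζ2 : Fin c → ℂ[X], Indep2 ζ1 ζ2 ∧ ∀ j, InSpan ζ1 ζ2 (herm e V j) := by
  have hex : ∃ x y, V x y ≠ 0 := by
    by_contra hcon
    push Not at hcon
    obtain ⟨j, k, hjk⟩ := hne
    apply hjk
    unfold herm herm2
    rw [hcon, hcon, hcon, hcon]
    simp
  obtain ⟨x, y, hxy⟩ := hex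
  set d : ℂ[X] := 2 * II * io (V x y) with hd
  have hII : II ≠ 0 := by
    intro h4
    have := II_sq
    rw [h4, zero_mul] at this
    exact one_ne_zero (neg_eq_zero.mp this.symm)
  have hd0 : d ≠ 0 := mul_ne_zero (mul_ne_zero two_ne_zeroX hII) (fun h => hxy (io_eq_zero.mp h))
  set Z : Fin c → ℂ[X] := fun k => io (V x (e k 0)) - II * io (V x (e k 1)) with hZ
  set W : Fin c → ℂ[X] := fun k => io (V y (e k 0)) - II * io (V y (e k 1)) with hW
  have hcZ : ∀ k, cj (Z k) = io (V x (e k 0)) + II * io (V x (e k 1)) := by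
    intro k
    rw [hZ]
    simp only
    rw [map_sub cj, map_mul cj, cj_II, cj_io, cj_io]; ring
  have hcW : ∀ k, cj (W k) = io (V y (e k 0)) + II * io (V y (e k 1)) := by
    intro k
    rw [hW]
    simp only
    rw [map_sub cj, map_mul cj, cj_II, cj_io, cj_io]; ring
  have hpl : ∀ k l, io (V x y) * io (V k l)
      = io (V x k) * io (V y l) - io (V x l) * io (V y k) := by
    intro k l
    rw [← map_mul, ← map_mul, ← map_mul, ← map_sub]
    congr 1
    linear_combination hV.2 x y k l
  have key : ∀ j k, d * herm e V j k = cj (W j) * Z k + (-cj (Z j)) * W k := by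
    intro j k
    have h1 := two_herm e V j k
    have h2 : d * herm e V j k = II * io (V x y) * herm2 e V j k := by
      rw [← h1, hd]; ring
    rw [h2, hcW, hcZ, hZ, hW]
    simp only
    unfold herm2
    rw [map_sub io, map_add io]
    linear_combination II * hpl (e j 0) (e k 1) - II * hpl (e j 1) (e k 0)
      + II * II * hpl (e j 0) (e k 0) + II * II * hpl (e j 1) (e k 1)
      + (io (V x (e j 0)) * io (V y (e k 0)) - io (V x (e k 0)) * io (V y (e j 0))) * II_sq
  by_cases hi : Indep2 Z W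
  · exact ⟨Z, W, hi, fun j => ⟨d, cj (W j), -cj (Z j), hd0, key j⟩⟩
  · unfold Indep2 at hi
    push Not at hi
    have hZne : ∃ l, Z l ≠ 0 := by
      by_contra hcon
      push Not at hcon
      obtain ⟨j, k, hjk⟩ := hne
      have h1 := key j k
      rw [hcon j, hcon k, map_zero, mul_zero, neg_zero, zero_mul, add_zero] at h1
      exact hjk ((mul_eq_zero.mp h1).resolve_left hd0)
    obtain ⟨l, hl⟩ := hZne
    obtain ⟨k, hk⟩ : ∃ k : Fin c, k ≠ l := by
      by_contra hcon
      push Not at hcon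
      have h1 := hcon ⟨0, by omega⟩
      have h2 := hcon ⟨1, by omega⟩
      have h3 := congrArg Fin.val (h1.trans h2.symm)
      simp at h3
    refine ⟨Z, fun i => if i = k then 1 else 0, ⟨l, k, ?_⟩, fun j => ?_⟩
    · have h2 : (if l = k then (1 : ℂ[X]) else 0) = 0 := if_neg (fun h => hk h.symm)
      simp only [h2, if_true]
      rw [mul_one, mul_zero, sub_zero]
      exact hl
    · refine ⟨d * Z l, cj (W j) * Z l - cj (Z j) * W l, 0, mul_ne_zero hd0 hl, fun i => ?_⟩
      have h1 := key j i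
      have h2 := hi l i
      linear_combination Z l * h1 - cj (Z j) * h2

theorem sum_symm {R : Type*} [CommRing R] {c : ℕ} (F G : Fin c → Fin c → R)
    (h : ∀ j k, F j k + F k j = G j k + G k j) :
    2 * ∑ j, ∑ k, F j k = 2 * ∑ j, ∑ k, G j k := by
  have key : ∀ F : Fin c → Fin c → R, 2 * ∑ j, ∑ k, F j k = ∑ j, ∑ k, (F j k + F k j) := by
    intro F
    have h1 : ∑ j, ∑ k, F k j = ∑ j, ∑ k, F j k := Finset.sum_comm
    simp only [Finset.sum_add_distrib]
    rw [h1]; ring
  rw [key F, key G]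
  exact Finset.sum_congr rfl fun j _ => Finset.sum_congr rfl fun k _ => h j k

/-- The value of the alternating form on a pair of rows is the value of the Hermitian form. -/
theorem herm_value (e : Fin c × Fin 2 ≃ Fin N) {V : Fin N → Fin N → ℝ[X]} (hV : IsPlucker V)
    (u v : Fin c → ℝ[X]) (a b : Fin N → ℝ[X])
    (ha0 : ∀ j, a (e (j, 0)) = u j) (ha1 : ∀ j, a (e (j, 1)) = v j)
    (hb0 : ∀ j, b (e (j, 0)) = -v j) (hb1 : ∀ j, b (e (j, 1)) = u j) :
    ∑ j, ∑ k, cj (io (u j) + II * io (v j)) * herm (fun j s => e (j, s)) V j k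
      * (io (u k) + II * io (v k)) = io (bval V a b) := by
  have hsum : bval V a b = ∑ j, ∑ k, (u j * (-v k) * V (e (j, 0)) (e (k, 0))
      + u j * u k * V (e (j, 0)) (e (k, 1)) + v j * (-v k) * V (e (j, 1)) (e (k, 0))
      + v j * u k * V (e (j, 1)) (e (k, 1))) := by
    unfold bval
    rw [← Equiv.sum_comp e, Fintype.sum_prod_type]
    refine Finset.sum_congr rfl fun j _ => ?_
    rw [Fin.sum_univ_two, ← Equiv.sum_comp e, ← Equiv.sum_comp e, Fintype.sum_prod_type,
      Fintype.sum_prod_type, ← Finset.sum_add_distrib]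
    refine Finset.sum_congr rfl fun k _ => ?_
    rw [Fin.sum_univ_two, Fin.sum_univ_two, ha0, ha1, hb0, hb1]
    ring
  rw [hsum, map_sum]
  simp only [map_sum]
  apply mul_left_cancel₀ two_ne_zeroX
  refine sum_symm _ _ fun j k => ?_
  apply mul_left_cancel₀ two_ne_zeroX
  have hc : ∀ j, cj (io (u j) + II * io (v j)) = io (u j) - II * io (v j) := by
    intro j
    rw [map_add cj, map_mul cj, cj_II, cj_io, cj_io]; ring
  rw [hc, hc]
  have t1 := two_herm (fun j s => e (j, s)) V j k
  have t2 := two_herm (fun j s => e (j, s)) V k j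
  unfold herm2 at t1 t2
  simp only [map_sub, map_add] at t1 t2
  simp only [map_add, map_mul, map_neg]
  have s00 : io (V (e (k, 0)) (e (j, 0))) = -io (V (e (j, 0)) (e (k, 0))) := by
    rw [hV.1, map_neg]
  have s01 : io (V (e (k, 0)) (e (j, 1))) = -io (V (e (j, 1)) (e (k, 0))) := by
    rw [hV.1, map_neg]
  have s10 : io (V (e (k, 1)) (e (j, 0))) = -io (V (e (j, 0)) (e (k, 1))) := by
    rw [hV.1, map_neg]
  have s11 : io (V (e (k, 1)) (e (j, 1))) = -io (V (e (j, 1)) (e (k, 1))) := by
    rw [hV.1, map_neg]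
  rw [s00, s01, s10, s11] at t2
  rw [s00, s01, s10, s11]
  have hI := II_sq
  set P00 := io (V (e (j, 0)) (e (k, 0)))
  set P01 := io (V (e (j, 0)) (e (k, 1)))
  set P10 := io (V (e (j, 1)) (e (k, 0)))
  set P11 := io (V (e (j, 1)) (e (k, 1)))
  linear_combination (io (u j) - II * io (v j)) * (io (u k) + II * io (v k)) * t1
    + (io (u k) - II * io (v k)) * (io (u j) + II * io (v j)) * t2
    + (-2 * io (v j) * io (v k) * (P01 - P10)
      + 2 * (io (u j) * io (v k) - io (v j) * io (u k)) * (P00 + P11)) * hI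

end

end Pool.Agent.Helper730_PP
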