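import Pool.Agent.Helper730_PP.Nice

/-!
# The quotient of a real lattice by its complex part
-/

open Polynomial

namespace Pool.Agent.Helper730_PP

noncomputable section

theorem Ac_eq_zero {c cf : ℕ} {π : Fin cf → Fin c → ℂ[X]} {z : Fin c → ℂ[X]} :
    Ac π z = 0 ↔ z ∈ perp (lat π) := by
  rw [mem_perp_lat]
  constructor
  · intro h l
    exact congrFun h l
  · intro h
    funext l
    exact h l

theorem exists_perp_data {c e : ℕ} {δ0 : Fin e → ℕ} {ω : Fin e → Fin c → ℂ[X]}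
    (hω : RB w0 δ0 ω) (hsat : perp (perp (lat ω)) = lat ω) :
    ∃ (cf : ℕ) (y : Fin cf → ℕ) (π : Fin cf → Fin c → ℂ[X]), Monotone y ∧ RB w0 y π ∧
      lat π = perp (lat ω) ∧ cf + e = c ∧ ∑ l, y l = ∑ j, δ0 j ∧ perp (lat π) = lat ω := by
  obtain ⟨cf, y, π, hy, hπ, hπlat⟩ := exists_RB (w0 (ι := Fin c)) (perp (lat ω))
  have hw : ∀ j : Fin c, w0 j + w0 j = 0 := fun _ => rfl
  have hc1 := (perp_le hw hω.fil hπ hπlat.symm).1
  have hc2 := card_le_of_perp_complex hω.li hπ.li (fun k => by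
    rw [← hπlat]; exact Submodule.subset_span ⟨k, rfl⟩)
  rw [Fintype.card_fin, Fintype.card_fin, Fintype.card_fin] at hc1 hc2
  have hcc : cf + e = c := by omega
  have hsum := perp_eq hw hω hπ hπlat.symm (by rw [hπlat, hsat])
    (by rw [Fintype.card_fin, Fintype.card_fin, Fintype.card_fin]; omega)
  refine ⟨cf, y, π, hy, hπ, hπlat, hcc, ?_, by rw [hπlat, hsat]⟩
  simpa using hsum

section

variable {c e cf K1 : ℕ} {δ0 : Fin e → ℕ} {ω : Fin e → Fin c → ℂ[X]} {y wF : Fin cf → ℕ}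
  {π : Fin cf → Fin c → ℂ[X]}

theorem Acπ_mem (hπ : RB w0 y π) (hwF : ∀ l, wF l + y l = K1) {z : Fin c → ℂ[X]} {T : ℕ}
    (hz : z ∈ Lv ℂ w0 T) : Ac π z ∈ Lv ℂ wF (T + K1) := by
  intro l k hk
  rw [Ac_apply, finsetSum_coeff]
  refine Finset.sum_eq_zero fun j _ => ?_
  rw [coeff_mul]
  refine Finset.sum_eq_zero fun x hx => ?_
  rw [Finset.HasAntidiagonal.mem_antidiagonal] at hx
  by_cases h : T ≤ x.1
  · rw [hz j _ h, zero_mul]
  · have h1 := hwF l
    rw [hπ.fil l j x.2 (by show y l + 1 ≤ x.2 + 0; omega), mul_zero]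

theorem Arπ_mem (hπ : RB w0 y π) (hwF : ∀ l, wF l + y l = K1) {z : Fin c × Fin 2 → ℝ[X]} {T : ℕ}
    (hz : z ∈ Lv ℝ (w2 w0) T) : Ar π z ∈ Lv ℝ (w2 wF) (T + K1) := by
  rw [← cx_mem_Lv, cx_Ar]
  exact Acπ_mem hπ hwF (cx_mem_Lv.mpr hz)

theorem Ac_surj (hω : RB w0 δ0 ω) (hπ : RB w0 y π) (hker : perp (lat π) = lat ω)
    (hcf : cf + e = c) (hy : ∑ l, y l = ∑ j, δ0 j) (hwF : ∀ l, wF l + y l = K1) {T : ℕ}
    (hT : ∀ j, δ0 j ≤ T) {f : Fin cf → ℂ[X]} (hf : f ∈ Lv ℂ wF (T + K1)) :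
    ∃ z ∈ Lv ℂ w0 T, Ac π z = f := by
  set g : Lv ℂ (w0 (ι := Fin c)) T →ₗ[ℂ] Lv ℂ wF (T + K1) :=
    (((Ac π).restrictScalars ℂ).domRestrict (Lv ℂ w0 T)).codRestrict _
      (fun z => Acπ_mem hπ hwF z.2) with hg
  have h1 := LinearMap.finrank_range_add_finrank_ker g
  have h2 : Module.finrank ℂ (LinearMap.ker g) ≤ ∑ j, (T - δ0 j) := by
    rw [← hω.finrank_lev T]
    set j : LinearMap.ker g →ₗ[ℂ] lev (lat ω) w0 T :=
      ((Lv ℂ (w0 (ι := Fin c)) T).subtype ∘ₗ (LinearMap.ker g).subtype).codRestrict _ (by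
        rintro ⟨x, hx⟩
        rw [mem_lev]
        refine ⟨?_, x.2⟩
        rw [← hker, ← Ac_eq_zero]
        exact congrArg Subtype.val hx) with hj
    refine LinearMap.finrank_le_finrank_of_injective (f := j) ?_
    intro a b hab
    have := congrArg Subtype.val hab
    exact Subtype.ext (Subtype.ext this)
  have h3 : Module.finrank ℂ (Lv ℂ (w0 (ι := Fin c)) T) = c * T := by
    rw [finrank_Lv]; simp
  have h4 : Module.finrank ℂ (Lv ℂ wF (T + K1)) = cf * T + ∑ j, δ0 j := by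
    rw [finrank_Lv, ← hy]
    have : ∀ l, T + K1 - wF l = T + y l := fun l => by have := hwF l; omega
    rw [Finset.sum_congr rfl fun l _ => this l, Finset.sum_add_distrib]
    simp
  have h5 := sum_sub_add δ0 hT
  rw [Fintype.card_fin] at h5
  have h6 : c * T = cf * T + e * T := by rw [← hcf, add_mul]
  have h7 : Module.finrank ℂ (LinearMap.range g) = Module.finrank ℂ (Lv ℂ wF (T + K1)) := by
    have := Submodule.finrank_le (LinearMap.range g)
    omega
  have h8 : LinearMap.range g = ⊤ := Submodule.eq_top_of_finrank_eq h7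
  have h9 : (⟨f, hf⟩ : Lv ℂ wF (T + K1)) ∈ LinearMap.range g := by rw [h8]; trivial
  obtain ⟨z, hz⟩ := h9
  exact ⟨z, z.2, congrArg Subtype.val hz⟩

end

theorem II_II_smul {ι : Type*} (z : ι → ℂ[X]) : (II : ℂ[X]) • (II : ℂ[X]) • z = -z := by
  rw [smul_smul, II_sq, neg_smul, one_smul]

theorem II_smul_mem {ι : Type*} {w : ι → ℕ} {t : ℕ} {z : ι → ℂ[X]} (hz : z ∈ Lv ℂ w t) :
    (II : ℂ[X]) • z ∈ Lv ℂ w t := by
  have := C_smul_mem_Lv hz Complex.I
  exact this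

/-- Descent to the true level. -/
theorem nice_desc {c m e s : ℕ} {δ : Fin m → ℕ} {δ0 : Fin e → ℕ}
    {η : Fin m → Fin c × Fin 2 → ℝ[X]} {ω : Fin e → Fin c → ℂ[X]} (hη : RB (w2 w0) δ η)
    (hω : RB w0 δ0 ω) (hωlat : lat ω = cmax (lat η)) (hse : m ≤ s + e)
    {T' : Finset (Fin m)} (hT' : T'.card = s)
    (hli : LinearIndependent ℂ fun k : T' => fun j : Fin c => (cx (η k) j).coeff (δ k))
    {T : ℕ} (hT : ∀ j, δ0 j ≤ T) : ∀ (n : ℕ) (u v : Fin c × Fin 2 → ℝ[X]),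
    u ∈ lev (lat η) (w2 w0) (T + n) → v ∈ lev (lat η) (w2 w0) (T + n) →
    cx u + (II : ℂ[X]) • cx v ∈ Lv ℂ w0 T →
    ∃ z ∈ cmax (lat η), u - rx z ∈ Lv ℝ (w2 w0) T := by
  intro n
  induction n with
  | zero =>
    intro u v hu _ _
    exact ⟨0, zero_mem _, by rw [rx_zero, sub_zero]; exact (mem_lev.mp hu).2⟩
  | succ n ih =>
    intro u v hu hv huv
    obtain ⟨z1, hz1, hz1'⟩ := nice_step hη hω hωlat hse hT' hli (T := T + n)
      (fun j => (hT j).trans (Nat.le_add_right _ _)) hu hv (Lv_mono (Nat.le_add_right _ _) huv)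
    set u2 := u - rx z1 with hu2
    set v2 := v - rx (II • z1) with hv2
    have hsubrx : ∀ (x : Fin c × Fin 2 → ℝ[X]) (z : Fin c → ℂ[X]), cx (x - rx z) = cx x - z := by
      intro x z
      rw [eq_sub_iff_add_eq]
      conv_lhs => rw [← cx_rx z]
      rw [← cx_add, rx_cx, sub_add_cancel]
    have hsum : cx u2 + (II : ℂ[X]) • cx v2 = cx u + (II : ℂ[X]) • cx v := by
      rw [hu2, hv2, hsubrx, hsubrx, smul_sub, II_II_smul]
      abel
    have hu2L : u2 ∈ lev (lat η) (w2 w0) (T + n) :=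
      mem_lev.mpr ⟨Submodule.sub_mem _ (mem_lev.mp hu).1 hz1.1, hz1'⟩
    have hv2L : v2 ∈ lev (lat η) (w2 w0) (T + n) := by
      refine mem_lev.mpr ⟨Submodule.sub_mem _ (mem_lev.mp hv).1 hz1.2, ?_⟩
      rw [← cx_mem_Lv]
      have h1 : (II : ℂ[X]) • cx v2 ∈ Lv ℂ w0 (T + n) := by
        have h2 : (II : ℂ[X]) • cx v2 = (cx u + (II : ℂ[X]) • cx v) - cx u2 := by
          rw [← hsum]; abel
        rw [h2]
        exact Submodule.sub_mem _ (Lv_mono (Nat.le_add_right _ _) huv) (cx_mem_Lv.mpr hz1')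
      have h3 := II_smul_mem h1
      rw [II_II_smul] at h3
      have := Submodule.neg_mem _ h3
      rwa [neg_neg] at this
    obtain ⟨z2, hz2, hz2'⟩ := ih u2 v2 hu2L hv2L (by rw [hsum]; exact huv)
    refine ⟨z1 + z2, (cmax (lat η)).add_mem hz1 hz2, ?_⟩
    rw [rx_add, ← sub_sub]
    exact hz2'

section

variable {c m e s cf K1 r : ℕ} {δ : Fin m → ℕ} {δ0 : Fin e → ℕ} {δ1 : Fin r → ℕ}
  {η : Fin m → Fin c × Fin 2 → ℝ[X]} {ω : Fin e → Fin c → ℂ[X]} {y wF : Fin cf → ℕ}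
  {π : Fin cf → Fin c → ℂ[X]} {û : Fin r → Fin cf × Fin 2 → ℝ[X]}

theorem Ar_add_smul {π : Fin cf → Fin c → ℂ[X]} (x : Fin c × Fin 2 → ℝ[X]) {z : Fin c → ℂ[X]}
    (hz : Ac π z = 0) : Ar π (x - rx z) = Ar π x := by
  rw [map_sub, Ar_apply π (rx z), cx_rx, hz, rx_zero, sub_zero]

theorem quot_RB (hη : RB (w2 w0) δ η) (hω : RB w0 δ0 ω) (hωlat : lat ω = cmax (lat η))
    (hse : m ≤ s + e) {T' : Finset (Fin m)} (hT' : T'.card = s)
    (hli : LinearIndependent ℂ fun k : T' => fun j : Fin c => (cx (η k) j).coeff (δ k))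
    (hπ : RB w0 y π) (hker : perp (lat π) = lat ω)
    (hcf : cf + e = c) (hy : ∑ l, y l = ∑ j, δ0 j) (hwF : ∀ l, wF l + y l = K1)
    (hû : RB (w2 wF) δ1 û) (hûlat : lat û = (lat η).map (Ar π)) :
    RB wF δ1 (fun k => cx (û k)) := by
  refine ⟨fun k => cx_mem_Lv.mpr (hû.fil k), fun p t hp => ?_⟩
  set x : Fin cf × Fin 2 → ℝ[X] := ∑ k, reP (p k) • û k with hx
  set x' : Fin cf × Fin 2 → ℝ[X] := ∑ k, imP (p k) • û k with hx'
  have hsum : ∑ k, p k • cx (û k) = cx x + (II : ℂ[X]) • cx x' := by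
    rw [hx, hx', cx_sum, cx_sum, Finset.smul_sum, ← Finset.sum_add_distrib]
    refine Finset.sum_congr rfl fun k _ => ?_
    rw [cx_smul, cx_smul, smul_smul, ← add_smul, io_reP_imP]
  rw [hsum] at hp
  obtain ⟨u, hu, hux⟩ : x ∈ (lat η).map (Ar π) := by
    rw [← hûlat]; exact mem_lat.mpr ⟨_, rfl⟩
  obtain ⟨v, hv, hvx⟩ : x' ∈ (lat η).map (Ar π) := by
    rw [← hûlat]; exact mem_lat.mpr ⟨_, rfl⟩
  set N : ℕ := ∑ j, δ0 j + K1 with hN
  set T : ℕ := t + ∑ j, δ0 j with hT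
  have hTδ : ∀ j, δ0 j ≤ T := fun j => by
    have := Finset.single_le_sum (f := δ0) (fun _ _ => Nat.zero_le _) (Finset.mem_univ j)
    omega
  have hXN : ∀ {ι : Type} {F : Type} [Field F] {w : ι → ℕ} {t : ℕ} {z : ι → F[X]},
      z ∈ Lv F w t → (X ^ N : F[X]) • z ∈ Lv F w (t + N) := by
    intro ι F _ w t z hz j k hk
    rw [Pi.smul_apply, smul_eq_mul, coeff_X_pow_mul']
    split_ifs with h1
    · exact hz j _ (by omega)
    · rfl
  have h1 : (X ^ N : ℂ[X]) • (cx x + (II : ℂ[X]) • cx x') ∈ Lv ℂ wF (T + K1) := by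
    have := hXN hp
    rwa [show t + N = T + K1 by omega] at this
  obtain ⟨z, hz, hzf⟩ := Ac_surj hω hπ hker hcf hy hwF hTδ h1
  set c0 : Fin c → ℂ[X] := (X ^ N : ℂ[X]) • (cx u + (II : ℂ[X]) • cx v) - z with hc0
  have hc0A : Ac π c0 = 0 := by
    rw [hc0, map_sub, map_smul, map_add, map_smul, ← cx_Ar, ← cx_Ar, hux, hvx, hzf, sub_self]
  have hc0mem : c0 ∈ cmax (lat η) := by
    rw [← hωlat, ← hker, ← Ac_eq_zero]; exact hc0A
  have hioX : io (X ^ N : ℝ[X]) = (X ^ N : ℂ[X]) := by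
    ext k
    rw [io_coeff, coeff_X_pow, coeff_X_pow]
    split_ifs <;> simp
  set u1 : Fin c × Fin 2 → ℝ[X] := (X ^ N : ℝ[X]) • u - rx c0 with hu1
  set v1 : Fin c × Fin 2 → ℝ[X] := (X ^ N : ℝ[X]) • v with hv1
  have hsubrx : ∀ (x : Fin c × Fin 2 → ℝ[X]) (z : Fin c → ℂ[X]), cx (x - rx z) = cx x - z := by
    intro x z
    rw [eq_sub_iff_add_eq]
    conv_lhs => rw [← cx_rx z]
    rw [← cx_add, rx_cx, sub_add_cancel]
  have hu1v1 : cx u1 + (II : ℂ[X]) • cx v1 = z := by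
    rw [hu1, hv1, hsubrx, cx_smul, cx_smul, hioX, hc0]
    rw [smul_comm (II : ℂ[X]) (X ^ N : ℂ[X]), smul_add]
    abel
  have hu1m : u1 ∈ lat η := Submodule.sub_mem _ (Submodule.smul_mem _ _ hu) hc0mem.1
  have hv1m : v1 ∈ lat η := Submodule.smul_mem _ _ hv
  obtain ⟨M1, hM1⟩ := exists_mem_Lv (w2 w0) u1
  obtain ⟨M2, hM2⟩ := exists_mem_Lv (w2 w0) v1
  obtain ⟨z', hz', hz'L⟩ := nice_desc hη hω hωlat hse hT' hli hTδ (M1 + M2) u1 v1
    (mem_lev.mpr ⟨hu1m, Lv_mono (by omega) hM1⟩) (mem_lev.mpr ⟨hv1m, Lv_mono (by omega) hM2⟩)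
    (by rw [hu1v1]; exact hz)
  have hz'A : Ac π z' = 0 := by rw [Ac_eq_zero, hker, hωlat]; exact hz'
  have h2 := Arπ_mem hπ hwF hz'L
  rw [Ar_add_smul _ hz'A, hu1, Ar_add_smul _ hc0A, map_smul, hux,
    show T + K1 = t + N by omega] at h2
  -- the imaginary part
  have h3 : (X ^ N : ℝ[X]) • x' ∈ Lv ℝ (w2 wF) (t + N) := by
    rw [← cx_mem_Lv, cx_smul, hioX]
    rw [← cx_mem_Lv, cx_smul, hioX] at h2
    have h4 : (II : ℂ[X]) • (X ^ N : ℂ[X]) • cx x' ∈ Lv ℂ wF (t + N) := by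
      have h5 : (II : ℂ[X]) • (X ^ N : ℂ[X]) • cx x'
          = (X ^ N : ℂ[X]) • (cx x + (II : ℂ[X]) • cx x') - (X ^ N : ℂ[X]) • cx x := by
        rw [smul_add, smul_comm (II : ℂ[X]) (X ^ N : ℂ[X])]
        abel
      rw [h5]
      exact Submodule.sub_mem _ (hXN hp) h2
    have h5 := II_smul_mem h4
    rw [II_II_smul] at h5
    have := Submodule.neg_mem _ h5
    rwa [neg_neg] at this
  have key : ∀ q : Fin r → ℝ[X], (X ^ N : ℝ[X]) • ∑ k, q k • û k ∈ Lv ℝ (w2 wF) (t + N) →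
      ∀ k l, t ≤ l + δ1 k → (q k).coeff l = 0 := by
    intro q hq k l hl
    rw [Finset.smul_sum] at hq
    have h4 := hû.pd (fun k => X ^ N * q k) (t + N) (by
      rw [show ∑ k, (X ^ N * q k) • û k = ∑ k, (X ^ N : ℝ[X]) • q k • û k from
        Finset.sum_congr rfl fun k _ => mul_smul _ _ _]
      exact hq) k (l + N) (by omega)
    rwa [coeff_X_pow_mul] at h4
  intro k l hl
  have h4 := key _ h2 k l hl
  have h5 := key _ h3 k l hl
  rw [reP_coeff] at h4
  rw [imP_coeff] at h5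
  exact Complex.ext h4 h5

/-- Rank and degree of the quotient. -/
theorem quot_card (hη : RB (w2 w0) δ η) (hω : RB w0 δ0 ω) (hωlat : lat ω = cmax (lat η))
    (hπ : RB w0 y π) (hker : perp (lat π) = lat ω) (hwF : ∀ l, wF l + y l = K1)
    (hû : RB (w2 wF) δ1 û) (hûlat : lat û = (lat η).map (Ar π)) :
    r + 2 * e = m ∧ ∑ k, δ1 k + 2 * ∑ j, δ0 j ≤ ∑ k, δ k + r * K1 := by
  have key : ∀ T, ∑ k, (T - δ k) ≤ 2 * ∑ j, (T - δ0 j) + ∑ k, (T + K1 - δ1 k) := by
    intro T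
    have h1 := finrank_le_one (lev (lat η) (w2 w0) T) ((Ar π).restrictScalars ℝ)
      (lev (lat û) (w2 wF) (T + K1)) (fun x hx => by
        rw [mem_lev] at hx ⊢
        refine ⟨?_, Arπ_mem hπ hwF hx.2⟩
        rw [hûlat]
        exact ⟨x, hx.1, rfl⟩)
    rw [hη.finrank_lev, hû.finrank_lev] at h1
    have h2 : Module.finrank ℝ (lev (lat η) (w2 w0) T ⊓
        LinearMap.ker ((Ar π).restrictScalars ℝ) : Submodule ℝ _) ≤ 2 * ∑ j, (T - δ0 j) := by
      rw [← finrank_lev_rl hω T]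
      refine Submodule.finrank_mono ?_
      rintro x ⟨hx1, hx2⟩
      rw [SetLike.mem_coe, mem_lev] at hx1
      rw [mem_lev, mem_rl]
      refine ⟨?_, hx1.2⟩
      rw [← hker, ← Ac_eq_zero, ← cx_Ar]
      have h3 : Ar π x = 0 := hx2
      rw [h3, cx_zero]
    omega
  have hex : ∀ s, ∃ T, s ≤ T ∧ (∀ k, δ k ≤ T) ∧ (∀ k, δ0 k ≤ T) ∧ (∀ k, δ1 k ≤ T + K1) := by
    intro s
    refine ⟨s + ∑ k, δ k + ∑ k, δ0 k + ∑ k, δ1 k, by omega, fun k => ?_, fun k => ?_, fun k => ?_⟩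
    · have := Finset.single_le_sum (f := δ) (fun _ _ => Nat.zero_le _) (Finset.mem_univ k)
      omega
    · have := Finset.single_le_sum (f := δ0) (fun _ _ => Nat.zero_le _) (Finset.mem_univ k)
      omega
    · have := Finset.single_le_sum (f := δ1) (fun _ _ => Nat.zero_le _) (Finset.mem_univ k)
      omega
  have hle1 : m ≤ r + 2 * e := by
    by_contra hcon
    push Not at hcon
    obtain ⟨T, h0, h3, h4, h5⟩ := hex (∑ k, δ k + r * K1 + 1)
    have h6 := key T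
    have h7 := sum_sub_add δ h3
    have h8 := sum_sub_add δ0 h4
    have h9 := sum_sub_add δ1 h5
    rw [Fintype.card_fin] at h7 h8 h9
    have h10 : (r + 2 * e + 1) * T ≤ m * T := Nat.mul_le_mul_right _ hcon
    have h11 : (r + 2 * e + 1) * T = r * T + 2 * (e * T) + T := by ring
    have h12 : r * (T + K1) = r * T + r * K1 := by ring
    omega
  have hle2 : r + 2 * e ≤ m := by
    -- lifts
    have hlift : ∀ k, ∃ u ∈ lat η, Ar π u = û k := by
      intro k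
      have : û k ∈ (lat η).map (Ar π) := by
        rw [← hûlat]; exact Submodule.subset_span ⟨k, rfl⟩
      exact this
    choose u hu hux using hlift
    have hli : LinearIndependent ℝ[X] (Sum.elim u (rfam ω)) := by
      rw [Fintype.linearIndependent_iff]
      intro g hg
      rw [Fintype.sum_sum_type] at hg
      simp only [Sum.elim_inl, Sum.elim_inr] at hg
      have h1 : ∀ x, Ar π (rfam ω x) = 0 := by
        rintro ⟨j, s⟩
        have h2 : ω j ∈ perp (lat π) := by rw [hker]; exact Submodule.subset_span ⟨j, rfl⟩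
        have h3 := Ac_eq_zero.mpr h2
        fin_cases s
        · show Ar π (rx (ω j)) = 0
          rw [Ar_apply, cx_rx, h3, rx_zero]
        · show Ar π (rx (II • ω j)) = 0
          rw [Ar_apply, cx_rx, map_smul, h3, smul_zero, rx_zero]
      have h2 : ∑ k, g (Sum.inl k) • û k = 0 := by
        have h3 := congrArg (Ar π) hg
        rw [map_add, map_sum, map_sum, map_zero] at h3
        simp only [map_smul, hux, h1, smul_zero, Finset.sum_const_zero, add_zero] at h3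
        exact h3
      have h3 := hû.li
      rw [Fintype.linearIndependent_iff] at h3
      have h4 := h3 _ h2
      have h5 : ∑ x, g (Sum.inr x) • rfam ω x = 0 := by
        have h6 : ∑ k, g (Sum.inl k) • u k = 0 :=
          Finset.sum_eq_zero fun k _ => by rw [h4 k, zero_smul]
        rwa [h6, zero_add] at hg
      have h6 := hω.real.li
      rw [Fintype.linearIndependent_iff] at h6
      rintro (k | x)
      · exact h4 k
      · exact h6 _ h5 x
    have h1 := card_le_of_torsion (f := η) hli (fun x => by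
      refine ⟨1, one_ne_zero, ?_⟩
      rw [one_smul]
      rcases x with k | ⟨j, s⟩
      · exact hu k
      · have h2 : rfam ω (j, s) ∈ rl (lat ω) := by
          rw [← lat_rfam]; exact Submodule.subset_span ⟨(j, s), rfl⟩
        rw [hωlat] at h2
        exact rl_cmax_le _ h2)
    rw [Fintype.card_sum, Fintype.card_prod, Fintype.card_fin, Fintype.card_fin,
      Fintype.card_fin, Fintype.card_fin] at h1
    omega
  refine ⟨by omega, ?_⟩
  obtain ⟨T, -, h3, h4, h5⟩ := hex 0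
  have h6 := key T
  have h7 := sum_sub_add δ h3
  have h8 := sum_sub_add δ0 h4
  have h9 := sum_sub_add δ1 h5
  rw [Fintype.card_fin] at h7 h8 h9
  have h10 : m * T = r * T + 2 * (e * T) := by
    rw [show m = r + 2 * e by omega]; ring
  have h12 : r * (T + K1) = r * T + r * K1 := by ring
  omega

end

end

end Pool.Agent.Helper730_PP
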