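import Pool.Agent.Helper730_PP.LatDim

/-!
# Subspaces of polynomial vectors defined over a subfield, and parameter counts
-/

open Polynomial

namespace Pool.Agent.Helper730_PP

noncomputable section

variable {F : Type*} [Field F] {ι : Type*}

/-- Coefficientwise application of a linear functional. -/
def Pm {F₀ : Subfield F} (π : F →ₗ[F₀] F₀) (p : F[X]) : F[X] :=
  ∑ k ∈ p.support, monomial k (π (p.coeff k) : F)

theorem coeff_Pm {F₀ : Subfield F} (π : F →ₗ[F₀] F₀) (p : F[X]) (k : ℕ) :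
    (Pm π p).coeff k = (π (p.coeff k) : F) := by
  unfold Pm
  simp only [finsetSum_coeff, coeff_monomial]
  rw [Finset.sum_ite_eq']
  split_ifs with h
  · rfl
  · rw [notMem_support_iff.mp h, map_zero]; rfl

/-- The same on vectors. -/
def Pv {F₀ : Subfield F} (π : F →ₗ[F₀] F₀) (v : ι → F[X]) : ι → F[X] := fun j => Pm π (v j)

theorem Pv_coeff {F₀ : Subfield F} (π : F →ₗ[F₀] F₀) (v : ι → F[X]) (j : ι) (k : ℕ) :
    (Pv π v j).coeff k = (π ((v j).coeff k) : F) := coeff_Pm _ _ _

theorem ext_coeff {u v : ι → F[X]} (h : ∀ j k, (u j).coeff k = (v j).coeff k) : u = v := by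
  funext j
  ext k
  exact h j k

/-- Vectors with all coefficients in `F₀`. -/
def IsRat (F₀ : Subfield F) (v : ι → F[X]) : Prop := ∀ j k, (v j).coeff k ∈ F₀

theorem IsRat.mono {F₀ F₁ : Subfield F} (h : F₀ ≤ F₁) {v : ι → F[X]} (hv : IsRat F₀ v) :
    IsRat F₁ v := fun j k => h (hv j k)

theorem IsRat.add {F₀ : Subfield F} {u v : ι → F[X]} (hu : IsRat F₀ u) (hv : IsRat F₀ v) :
    IsRat F₀ (u + v) := fun j k => by
  rw [Pi.add_apply, coeff_add]; exact F₀.add_mem (hu j k) (hv j k)

theorem IsRat.sub {F₀ : Subfield F} {u v : ι → F[X]} (hu : IsRat F₀ u) (hv : IsRat F₀ v) :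
    IsRat F₀ (u - v) := fun j k => by
  rw [Pi.sub_apply, coeff_sub]; exact F₀.sub_mem (hu j k) (hv j k)

theorem IsRat.zero {F₀ : Subfield F} : IsRat F₀ (0 : ι → F[X]) := fun j k => by
  rw [Pi.zero_apply, coeff_zero]; exact F₀.zero_mem

theorem IsRat.smul {F₀ : Subfield F} {v : ι → F[X]} (hv : IsRat F₀ v) {c : F} (hc : c ∈ F₀) :
    IsRat F₀ (c • v) := fun j k => by
  rw [Pi.smul_apply, coeff_smul]; exact F₀.mul_mem hc (hv j k)

theorem IsRat.sum {F₀ : Subfield F} {κ : Type*} (s : Finset κ) {v : κ → ι → F[X]}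
    (hv : ∀ k ∈ s, IsRat F₀ (v k)) : IsRat F₀ (∑ k ∈ s, v k) := by
  intro j k
  rw [Finset.sum_apply, finsetSum_coeff]
  exact F₀.sum_mem fun i hi => hv i hi j k

theorem Pv_isRat {F₀ : Subfield F} (π : F →ₗ[F₀] F₀) (v : ι → F[X]) : IsRat F₀ (Pv π v) :=
  fun j k => by rw [Pv_coeff]; exact (π _).2

theorem Pv_add {F₀ : Subfield F} (π : F →ₗ[F₀] F₀) (u v : ι → F[X]) :
    Pv π (u + v) = Pv π u + Pv π v :=
  ext_coeff fun j k => by
    rw [Pv_coeff, Pi.add_apply, coeff_add, map_add, Pi.add_apply, coeff_add, Pv_coeff, Pv_coeff]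
    rfl

theorem Pv_zero {F₀ : Subfield F} (π : F →ₗ[F₀] F₀) : Pv π (0 : ι → F[X]) = 0 :=
  ext_coeff fun j k => by
    rw [Pv_coeff, Pi.zero_apply, coeff_zero, map_zero]
    rfl

theorem Pv_smul {F₀ : Subfield F} (π : F →ₗ[F₀] F₀) (c : F) (v : ι → F[X]) :
    Pv π (c • v) = Pv (π ∘ₗ LinearMap.mulLeft F₀ c) v :=
  ext_coeff fun j k => by
    rw [Pv_coeff, Pv_coeff, Pi.smul_apply, coeff_smul]
    rfl

theorem Pv_of_isRat {F₀ : Subfield F} (π : F →ₗ[F₀] F₀) {v : ι → F[X]} (hv : IsRat F₀ v) :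
    Pv π v = (π 1 : F) • v :=
  ext_coeff fun j k => by
    rw [Pv_coeff, Pi.smul_apply, coeff_smul, smul_eq_mul]
    have h : (v j).coeff k = (⟨_, hv j k⟩ : F₀) • (1 : F) := by
      rw [Subfield.smul_def, smul_eq_mul, mul_one]
    rw [h, map_smul, smul_eq_mul, Subfield.smul_def, smul_eq_mul, mul_one]
    push_cast
    ring

theorem Pm_mul {F₀ : Subfield F} (π : F →ₗ[F₀] F₀) {p : F[X]} (hp : ∀ k, p.coeff k ∈ F₀)
    (q : F[X]) : Pm π (p * q) = p * Pm π q := by
  ext k
  rw [coeff_Pm, coeff_mul, coeff_mul, map_sum, AddSubmonoidClass.coe_finsetSum]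
  refine Finset.sum_congr rfl fun x _ => ?_
  rw [coeff_Pm]
  have h : p.coeff x.1 * q.coeff x.2 = (⟨_, hp x.1⟩ : F₀) • q.coeff x.2 := rfl
  rw [h, map_smul]
  rfl

theorem Pm_sum {F₀ : Subfield F} (π : F →ₗ[F₀] F₀) {κ : Type*} (s : Finset κ) (p : κ → F[X]) :
    Pm π (∑ k ∈ s, p k) = ∑ k ∈ s, Pm π (p k) := by
  ext k
  rw [coeff_Pm, finsetSum_coeff, finsetSum_coeff, map_sum, AddSubmonoidClass.coe_finsetSum]
  exact Finset.sum_congr rfl fun i _ => (coeff_Pm _ _ _).symm

theorem Pm_zero {F₀ : Subfield F} (π : F →ₗ[F₀] F₀) : Pm π (0 : F[X]) = 0 := by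
  ext k
  rw [coeff_Pm, coeff_zero, map_zero]
  rfl

/-- The subspace `W` is defined over `F₀`. -/
def Dfn (F₀ : Subfield F) (W : Submodule F (ι → F[X])) : Prop :=
  ∀ π : F →ₗ[F₀] F₀, ∀ v ∈ W, Pv π v ∈ W

/-- A vector is a combination of its coefficientwise coordinates. -/
theorem exists_decomp [Finite ι] (F₀ : Subfield F) (v : ι → F[X]) :
    ∃ (T : Finset (Module.Basis.ofVectorSpaceIndex F₀ F)),
      v = ∑ i ∈ T, (Module.Basis.ofVectorSpace F₀ F i : F) •
        Pv ((Module.Basis.ofVectorSpace F₀ F).coord i) v := by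
  classical
  cases nonempty_fintype ι
  set b := Module.Basis.ofVectorSpace F₀ F with hb
  set T : Finset (Module.Basis.ofVectorSpaceIndex F₀ F) :=
    Finset.univ.biUnion fun j : ι => (v j).support.biUnion fun k => (b.repr ((v j).coeff k)).support
    with hT
  refine ⟨T, ext_coeff fun j k => ?_⟩
  rw [Finset.sum_apply, finsetSum_coeff]
  have h1 : ∀ i, (((b i : F) • Pv (b.coord i) v) j).coeff k
      = (b.repr ((v j).coeff k) i) • b i := by
    intro i
    rw [Pi.smul_apply, coeff_smul, Pv_coeff, Subfield.smul_def, smul_eq_mul, smul_eq_mul, mul_comm]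
    rfl
  rw [Finset.sum_congr rfl fun i _ => h1 i]
  have h2 : (b.repr ((v j).coeff k)).support ⊆ T := by
    by_cases hk : (v j).coeff k = 0
    · rw [hk, map_zero, Finsupp.support_zero]
      exact Finset.empty_subset _
    · intro i hi
      rw [hT, Finset.mem_biUnion]
      exact ⟨j, Finset.mem_univ _, Finset.mem_biUnion.mpr ⟨k, mem_support_iff.mpr hk, hi⟩⟩
  have h3 := b.linearCombination_repr ((v j).coeff k)
  rw [Finsupp.linearCombination_apply, Finsupp.sum] at h3
  rw [← Finset.sum_subset h2]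
  · exact h3.symm
  · intro i _ hi
    rw [Finsupp.notMem_support_iff.mp hi, zero_smul]

theorem dfn_span {F₀ : Subfield F} {S : Set (ι → F[X])} (hS : ∀ v ∈ S, IsRat F₀ v) :
    Dfn F₀ (Submodule.span F S) := by
  have key : ∀ v ∈ Submodule.span F S, ∀ π : F →ₗ[F₀] F₀, Pv π v ∈ Submodule.span F S := by
    intro v hv
    induction hv using Submodule.span_induction with
    | mem x hx =>
      intro π
      rw [Pv_of_isRat π (hS x hx)]
      exact Submodule.smul_mem _ _ (Submodule.subset_span hx)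
    | zero => intro π; rw [Pv_zero]; exact Submodule.zero_mem _
    | add x y _ _ hx hy => intro π; rw [Pv_add]; exact Submodule.add_mem _ (hx π) (hy π)
    | smul c x _ hx => intro π; rw [Pv_smul]; exact hx _
  exact fun π v hv => key v hv π

theorem Dfn.eq_span [Finite ι] {F₀ : Subfield F} {W : Submodule F (ι → F[X])} (h : Dfn F₀ W) :
    Submodule.span F {v | v ∈ W ∧ IsRat F₀ v} = W := by
  apply le_antisymm
  · rw [Submodule.span_le]
    intro v hv
    exact hv.1
  · intro v hv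
    obtain ⟨T, hT⟩ := exists_decomp F₀ v
    rw [hT]
    exact Submodule.sum_mem _ fun i _ => Submodule.smul_mem _ _
      (Submodule.subset_span ⟨h _ v hv, Pv_isRat _ _⟩)

theorem Dfn.mono [Finite ι] {F₀ F₁ : Subfield F} (h01 : F₀ ≤ F₁) {W : Submodule F (ι → F[X])}
    (h : Dfn F₀ W) : Dfn F₁ W := by
  rw [← h.eq_span]
  exact dfn_span fun v hv => hv.2.mono h01

theorem Dfn.inf {F₀ : Subfield F} {W W' : Submodule F (ι → F[X])} (h : Dfn F₀ W)
    (h' : Dfn F₀ W') : Dfn F₀ (W ⊓ W') := fun π v hv => ⟨h π v hv.1, h' π v hv.2⟩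

theorem Dfn.sup {F₀ : Subfield F} {W W' : Submodule F (ι → F[X])} (h : Dfn F₀ W)
    (h' : Dfn F₀ W') : Dfn F₀ (W ⊔ W') := by
  intro π v hv
  obtain ⟨x, hx, y, hy, rfl⟩ := Submodule.mem_sup.mp hv
  rw [Pv_add]
  exact Submodule.add_mem_sup (h π x hx) (h' π y hy)

theorem dfn_Lv {F₀ : Subfield F} (w : ι → ℕ) (t : ℕ) : Dfn F₀ (Lv F w t) := by
  intro π v hv j k hk
  rw [Pv_coeff, hv j k hk, map_zero]
  rfl

theorem dfn_bot {F₀ : Subfield F} : Dfn F₀ (⊥ : Submodule F (ι → F[X])) := by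
  intro π v hv
  rw [Submodule.mem_bot] at hv ⊢
  rw [hv, Pv_zero]

theorem Pv_X_smul {F₀ : Subfield F} (π : F →ₗ[F₀] F₀) (v : ι → F[X]) :
    Pv π ((X : F[X]) • v) = (X : F[X]) • Pv π v := by
  funext j
  show Pm π (X * v j) = X * Pm π (v j)
  refine Pm_mul π (fun k => ?_) _
  rw [coeff_X]
  split_ifs
  · exact F₀.one_mem
  · exact F₀.zero_mem

/-- Multiplication by the indeterminate. -/
def mulX (F : Type*) [Field F] (ι : Type*) : (ι → F[X]) →ₗ[F] (ι → F[X]) where
  toFun v := (X : F[X]) • v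
  map_add' u v := smul_add _ _ _
  map_smul' c v := by rw [RingHom.id_apply]; exact smul_comm _ _ _

theorem Dfn.map_X {F₀ : Subfield F} {W : Submodule F (ι → F[X])} (h : Dfn F₀ W) :
    Dfn F₀ (W.map (mulX F ι)) := by
  rintro π _ ⟨v, hv, rfl⟩
  exact ⟨Pv π v, h π v hv, (Pv_X_smul π v).symm⟩

/-- Orthogonal complements of rational sets are rational. -/
theorem dfn_perp [Fintype ι] {F₀ : Subfield F} {S : Set (ι → F[X])} (hS : ∀ v ∈ S, IsRat F₀ v)
    (π : F →ₗ[F₀] F₀) {r : ι → F[X]} (hr : ∀ v ∈ S, dotL v r = 0) :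
    ∀ v ∈ S, dotL v (Pv π r) = 0 := by
  intro v hv
  have h1 : dotL v (Pv π r) = Pm π (dotL v r) := by
    rw [dotL_apply, dotL_apply, Pm_sum]
    refine Finset.sum_congr rfl fun j _ => ?_
    rw [mul_comm (r j), Pm_mul π (hS v hv j), mul_comm]
    rfl
  rw [h1, hr v hv, Pm_zero]

theorem finrank_map_mkQ {E : Type*} [AddCommGroup E] [Module F E] {Λ Z : Submodule F E}
    [Module.Finite F Z] (h : Λ ≤ Z) :
    Module.finrank F (Z.map Λ.mkQ) + Module.finrank F Λ = Module.finrank F Z := by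
  have h1 := LinearMap.finrank_range_add_finrank_ker (Λ.mkQ.domRestrict Z)
  have h2 : (Λ.mkQ.domRestrict Z).range = Z.map Λ.mkQ := by
    rw [LinearMap.range_domRestrict]
  have h3 : Module.finrank F (Λ.mkQ.domRestrict Z).ker = Module.finrank F Λ := by
    rw [LinearMap.ker_domRestrict, Submodule.ker_mkQ]
    exact (Submodule.comapSubtypeEquivOfLe h).finrank_eq
  rw [h2, h3] at h1
  exact h1

/-- A rational spanning set contains a family which is a basis modulo a subspace. -/
theorem exists_basis_mod {E : Type*} [AddCommGroup E] [Module F E] {Λ Z : Submodule F E}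
    [Module.Finite F Z] (h : Λ ≤ Z) {R : Set E} (hR : Submodule.span F R = Z) :
    ∃ (n : ℕ) (a : Fin n → E), (∀ i, a i ∈ R) ∧ n + Module.finrank F Λ = Module.finrank F Z ∧
      (∀ c : Fin n → F, ∑ i, c i • a i ∈ Λ → c = 0) ∧
      ∀ z ∈ Z, ∃ c : Fin n → F, z - ∑ i, c i • a i ∈ Λ := by
  obtain ⟨κ, a, ha, hspan, hli⟩ := exists_linearIndependent' F fun z : R => Λ.mkQ z
  have hrange : Submodule.span F (Set.range fun z : R => Λ.mkQ z) = Z.map Λ.mkQ := by
    rw [← hR, Submodule.map_span]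
    congr 1
    ext x
    simp
  have hmem : ∀ k, ((fun z : R => Λ.mkQ z) ∘ a) k ∈ Z.map Λ.mkQ := fun k =>
    ⟨(a k : E), by rw [← hR]; exact Submodule.subset_span (a k).2, rfl⟩
  have hli' : LinearIndependent F fun k => (⟨_, hmem k⟩ : Z.map Λ.mkQ) := by
    refine LinearIndependent.of_comp (Z.map Λ.mkQ).subtype ?_
    exact hli
  have hfin : Finite κ := hli'.finite
  obtain ⟨n, ⟨e⟩⟩ := Finite.exists_equiv_fin κ
  have hli2 : LinearIndependent F ((fun z : R => Λ.mkQ z) ∘ a ∘ e.symm) :=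
    hli.comp e.symm e.symm.injective
  have hspan2 : Submodule.span F (Set.range ((fun z : R => Λ.mkQ z) ∘ a ∘ e.symm))
      = Z.map Λ.mkQ := by
    rw [← hrange, ← hspan, ← Function.comp_assoc, Set.range_comp (_ ∘ a), Equiv.range_eq_univ,
      Set.image_univ]
  refine ⟨n, fun i => (a (e.symm i) : E), fun i => (a (e.symm i)).2, ?_, ?_, ?_⟩
  · rw [← finrank_map_mkQ h, ← hspan2, finrank_span_eq_card hli2, Fintype.card_fin]
  · intro c hc
    rw [Fintype.linearIndependent_iff] at hli2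
    funext i
    refine hli2 c ?_ i
    have h1 : Λ.mkQ (∑ i, c i • ((a (e.symm i) : R) : E)) = 0 := by
      rw [Submodule.mkQ_apply, Submodule.Quotient.mk_eq_zero]
      exact hc
    rw [map_sum] at h1
    rw [← h1]
    exact Finset.sum_congr rfl fun i _ => by rw [map_smul]; rfl
  · intro z hz
    have h1 : Λ.mkQ z ∈ Z.map Λ.mkQ := ⟨z, hz, rfl⟩
    rw [← hspan2, Submodule.mem_span_range_iff_exists_fun] at h1
    obtain ⟨c, hc⟩ := h1
    refine ⟨c, ?_⟩
    rw [← Submodule.Quotient.mk_eq_zero, ← Submodule.mkQ_apply, map_sub, sub_eq_zero, ← hc,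
      map_sum]
    exact Finset.sum_congr rfl fun i _ => by rw [map_smul]; rfl

/-- Parameters for a subspace between two rational ones. -/
theorem exists_params [Finite ι] {F₀ : Subfield F} {W Λ Z : Submodule F (ι → F[X])}
    [Module.Finite F Z] (hWΛ : W ≤ Λ) (hΛZ : Λ ≤ Z) (hW : Dfn F₀ W) (hZ : Dfn F₀ Z) :
    ∃ S : Finset F, S.card ≤ (Module.finrank F Λ - Module.finrank F W) *
        (Module.finrank F Z - Module.finrank F Λ) ∧
      ∀ F₁ : Subfield F, F₀ ≤ F₁ → (∀ s ∈ S, s ∈ F₁) → Dfn F₁ Λ := by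
  classical
  obtain ⟨n, a, haR, han, hali, haspan⟩ := exists_basis_mod hΛZ hZ.eq_span
  have hΛfin : Module.Finite F Λ := Submodule.finiteDimensional_of_le hΛZ
  have hWfin : Module.Finite F W := Submodule.finiteDimensional_of_le hWΛ
  set W' : Submodule F (ι → F[X]) := W ⊔ Submodule.span F (Set.range a) with hW'
  have hW'Z : W' ≤ Z := by
    refine sup_le (hWΛ.trans hΛZ) ?_
    rw [Submodule.span_le]
    rintro _ ⟨i, rfl⟩
    exact (haR i).1
  obtain ⟨n', a', haR', han', hali', haspan'⟩ := exists_basis_mod hW'Z hZ.eq_span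
  have hfin : Module.Finite F (Submodule.span F (Set.range a)) :=
    FiniteDimensional.span_of_finite F (Set.finite_range a)
  have hlia : LinearIndependent F a := by
    rw [Fintype.linearIndependent_iff]
    intro g hg i
    exact congrFun (hali g (by rw [hg]; exact zero_mem _)) i
  have hdis : W ⊓ Submodule.span F (Set.range a) = ⊥ := by
    rw [eq_bot_iff]
    rintro x ⟨hx, hx'⟩
    obtain ⟨c, hc⟩ := (Submodule.mem_span_range_iff_exists_fun F).mp hx'
    rw [Submodule.mem_bot, ← hc]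
    have := hali c (by rw [hc]; exact hWΛ hx)
    rw [this]
    simp
  have hdim := Submodule.finrank_sup_add_finrank_inf_eq W (Submodule.span F (Set.range a))
  rw [hdis, finrank_bot, add_zero, finrank_span_eq_card hlia, Fintype.card_fin, ← hW'] at hdim
  have hz : ∀ i, ∃ c : Fin n → F, a' i - ∑ j, c j • a j ∈ Λ := fun i => haspan _ (haR' i).1
  choose c hc using hz
  refine ⟨Finset.univ.image fun x : Fin n' × Fin n => c x.1 x.2, ?_, ?_⟩
  · refine Finset.card_image_le.trans ?_
    rw [Finset.card_univ, Fintype.card_prod, Fintype.card_fin, Fintype.card_fin]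
    have h1 := Submodule.finrank_mono hWΛ
    have h2 : n' = Module.finrank F Λ - Module.finrank F W := by omega
    have h3 : n = Module.finrank F Z - Module.finrank F Λ := by omega
    rw [h2, h3]
  · intro F₁ hF hS
    set lam : Fin n' → (ι → F[X]) := fun i => a' i - ∑ j, c i j • a j with hlam
    have hlamrat : ∀ i, IsRat F₁ (lam i) := by
      intro i
      refine ((haR' i).2.mono hF).sub (IsRat.sum _ fun j _ => ((haR j).2.mono hF).smul ?_)
      exact hS _ (Finset.mem_image.mpr ⟨(i, j), Finset.mem_univ _, rfl⟩)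
    have hΛ : Λ = W ⊔ Submodule.span F (Set.range lam) := by
      apply le_antisymm
      · intro v hv
        obtain ⟨d, hd⟩ := haspan' v (hΛZ hv)
        rw [hW', Submodule.mem_sup] at hd
        obtain ⟨x, hx, y, hy, hxy⟩ := hd
        obtain ⟨e, he⟩ := (Submodule.mem_span_range_iff_exists_fun F).mp hy
        have h1 : v = x + ∑ i, d i • lam i + ∑ j, (e j + ∑ i, d i * c i j) • a j := by
          have h2 : ∑ i, d i • lam i = ∑ i, d i • a' i - ∑ j, (∑ i, d i * c i j) • a j := by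
            rw [hlam]
            simp only [smul_sub, Finset.sum_sub_distrib, Finset.smul_sum, smul_smul,
              Finset.sum_smul]
            rw [Finset.sum_comm]
          have h3 : ∑ j, (e j + ∑ i, d i * c i j) • a j
              = ∑ j, e j • a j + ∑ j, (∑ i, d i * c i j) • a j := by
            rw [← Finset.sum_add_distrib]
            exact Finset.sum_congr rfl fun j _ => add_smul _ _ _
          rw [h2, h3, he]
          have h4 : v = (x + y) + ∑ i, d i • a' i := by rw [hxy]; abel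
          rw [h4]
          abel
        have h2 : ∑ j, (e j + ∑ i, d i * c i j) • a j ∈ Λ := by
          have h3 : ∑ j, (e j + ∑ i, d i * c i j) • a j = v - x - ∑ i, d i • lam i := by
            conv_rhs => rw [h1]
            abel
          rw [h3]
          exact Λ.sub_mem (Λ.sub_mem hv (hWΛ hx)) (Λ.sum_mem fun i _ => Λ.smul_mem _ (hc i))
        have h3 := hali _ h2
        have h4 : ∑ j, (e j + ∑ i, d i * c i j) • a j = 0 :=
          Finset.sum_eq_zero fun j _ => by
            have := congrFun h3 j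
            simp only [Pi.zero_apply] at this
            rw [this, zero_smul]
        rw [h1, h4, add_zero]
        exact Submodule.add_mem_sup hx (Submodule.sum_mem _ fun i _ => Submodule.smul_mem _ _
          (Submodule.subset_span ⟨i, rfl⟩))
      · refine sup_le hWΛ ?_
        rw [Submodule.span_le]
        rintro _ ⟨i, rfl⟩
        exact hc i
    rw [hΛ]
    refine (hW.mono hF).sup (dfn_span ?_)
    rintro _ ⟨i, rfl⟩
    exact hlamrat i

/-- Parameters for a vector in a rational subspace. -/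
theorem exists_params_mem [Finite ι] {F₀ : Subfield F} {Z : Submodule F (ι → F[X])}
    [Module.Finite F Z] (hZ : Dfn F₀ Z) {x : ι → F[X]} (hx : x ∈ Z) :
    ∃ S : Finset F, S.card ≤ Module.finrank F Z ∧
      ∀ F₁ : Subfield F, F₀ ≤ F₁ → (∀ s ∈ S, s ∈ F₁) → IsRat F₁ x := by
  classical
  obtain ⟨n, a, haR, han, -, haspan⟩ := exists_basis_mod (bot_le : ⊥ ≤ Z) hZ.eq_span
  obtain ⟨c, hc⟩ := haspan x hx
  rw [Submodule.mem_bot, sub_eq_zero] at hc
  refine ⟨Finset.univ.image c, ?_, ?_⟩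
  · refine Finset.card_image_le.trans ?_
    rw [Finset.card_univ, Fintype.card_fin]
    rw [finrank_bot, add_zero] at han
    exact han.le
  · intro F₁ hF hS
    rw [hc]
    exact IsRat.sum _ fun i _ => ((haR i).2.mono hF).smul
      (hS _ (Finset.mem_image.mpr ⟨i, Finset.mem_univ _, rfl⟩))

end

end Pool.Agent.Helper730_PP
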