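import Pool.Agent.Helper730_PP.Equal

/-!
# Rational reduced bases of rational lattices
-/

open Polynomial

namespace Pool.Agent.Helper730_PP

noncomputable section

section general

variable {F : Type*} [Field F] {ι : Type*}

/-- Extension of scalars of vectors. -/
def evv (F₀ : Subfield F) (v : ι → F₀[X]) : ι → F[X] := fun j => (v j).map F₀.subtype

theorem evv_coeff {F₀ : Subfield F} (v : ι → F₀[X]) (j : ι) (k : ℕ) :
    (evv F₀ v j).coeff k = ((v j).coeff k : F) := by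
  unfold evv
  rw [coeff_map]
  rfl

theorem evv_isRat {F₀ : Subfield F} (v : ι → F₀[X]) : IsRat F₀ (evv F₀ v) := fun j k => by
  rw [evv_coeff]; exact ((v j).coeff k).2

theorem IsRat.descend {F₀ : Subfield F} {v : ι → F[X]} (h : IsRat F₀ v) :
    ∃ v' : ι → F₀[X], evv F₀ v' = v := by
  have h1 : ∀ j, ∃ p : F₀[X], p.map F₀.subtype = v j := by
    intro j
    have h2 : v j ∈ Polynomial.lifts F₀.subtype := by
      rw [Polynomial.lifts_iff_coeff_lifts]
      intro l
      exact ⟨⟨_, h j l⟩, rfl⟩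
    exact (Polynomial.mem_lifts _).mp h2
  choose v' hv' using h1
  exact ⟨v', funext hv'⟩

theorem evv_sum {F₀ : Subfield F} {κ : Type*} [Fintype κ] (p : κ → F₀[X]) (η : κ → ι → F₀[X]) :
    evv F₀ (∑ k, p k • η k) = ∑ k, (p k).map F₀.subtype • evv F₀ (η k) := by
  funext j
  unfold evv
  rw [Finset.sum_apply, Finset.sum_apply, Polynomial.map_sum]
  refine Finset.sum_congr rfl fun k _ => ?_
  rw [Pi.smul_apply, Pi.smul_apply, smul_eq_mul, smul_eq_mul, Polynomial.map_mul]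

theorem evv_mem_Lv {F₀ : Subfield F} {w : ι → ℕ} {t : ℕ} {v : ι → F₀[X]} :
    evv F₀ v ∈ Lv F w t ↔ v ∈ Lv F₀ w t := by
  rw [mem_Lv, mem_Lv]
  constructor
  · intro h j k hk
    have h1 := h j k hk
    rw [evv_coeff] at h1
    exact Subtype.ext h1
  · intro h j k hk
    rw [evv_coeff, h j k hk]
    rfl

theorem Pv_sum_rat {F₀ : Subfield F} (π : F →ₗ[F₀] F₀) {κ : Type*} [Fintype κ]
    {η : κ → ι → F[X]} (hη : ∀ k, IsRat F₀ (η k)) (p : κ → F[X]) :
    Pv π (∑ k, p k • η k) = ∑ k, Pm π (p k) • η k := by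
  funext j
  show Pm π ((∑ k, p k • η k) j) = _
  rw [Finset.sum_apply, Finset.sum_apply, Pm_sum]
  refine Finset.sum_congr rfl fun k _ => ?_
  rw [Pi.smul_apply, Pi.smul_apply, smul_eq_mul, smul_eq_mul, mul_comm, Pm_mul π (hη k j), mul_comm]

theorem exists_pi_one (F₀ : Subfield F) : ∃ π : F →ₗ[F₀] F₀, π 1 = 1 := by
  have h1 : ∃ φ : Module.Dual F₀ F, φ (1 : F) ≠ 0 := by
    by_contra hcon
    push Not at hcon
    exact one_ne_zero ((Module.forall_dual_apply_eq_zero_iff F₀ (1 : F)).mp hcon)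
  obtain ⟨φ, hφ⟩ := h1
  refine ⟨(φ 1)⁻¹ • φ, ?_⟩
  rw [LinearMap.smul_apply, smul_eq_mul, inv_mul_cancel₀ hφ]

/-- The lattice of a rational family is rational. -/
theorem dfn_lev_of_rat {F₀ : Subfield F} {κ : Type*} [Fintype κ] {η : κ → ι → F[X]}
    (hη : ∀ k, IsRat F₀ (η k)) (w : ι → ℕ) (t : ℕ) : Dfn F₀ (lev (lat η) w t) := by
  intro π v hv
  rw [mem_lev] at hv ⊢
  refine ⟨?_, dfn_Lv w t π v hv.2⟩
  obtain ⟨p, rfl⟩ := mem_lat.mp hv.1
  rw [Pv_sum_rat π hη]
  exact mem_lat.mpr ⟨_, rfl⟩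

/-- Coefficients of a rational vector in a rational independent family are rational. -/
theorem coeff_rat_of_li {F₀ : Subfield F} {κ : Type*} [Fintype κ] {η : κ → ι → F[X]}
    (hη : ∀ k, IsRat F₀ (η k)) (hli : LinearIndependent F[X] η) {p : κ → F[X]}
    (h : IsRat F₀ (∑ k, p k • η k)) (k : κ) (l : ℕ) : (p k).coeff l ∈ F₀ := by
  obtain ⟨π, hπ⟩ := exists_pi_one F₀
  have h1 := Pv_of_isRat π h
  have h2 : ((π 1 : F₀) : F) = 1 := by rw [hπ]; rfl
  rw [h2, one_smul, Pv_sum_rat π hη] at h1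
  have h3 : ∑ k, (Pm π (p k) - p k) • η k = 0 := by
    simp only [sub_smul]
    rw [Finset.sum_sub_distrib, h1, sub_self]
  rw [Fintype.linearIndependent_iff] at hli
  have h4 := hli _ h3 k
  have h5 : (Pm π (p k)).coeff l = (p k).coeff l := by rw [sub_eq_zero.mp h4]
  rw [← h5, coeff_Pm]
  exact (π _).2

theorem exists_rat_RB [Finite ι] {F₀ : Subfield F} (w : ι → ℕ) (Λ : Submodule F[X] (ι → F[X]))
    (hΛ : ∀ t, Dfn F₀ (lev Λ w t)) :
    ∃ (r : ℕ) (δ : Fin r → ℕ) (η : Fin r → ι → F[X]), Monotone δ ∧ RB w δ η ∧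
      (∀ k, IsRat F₀ (η k)) ∧ lat η = Λ := by
  classical
  set Λ₀ : Submodule F₀[X] (ι → F₀[X]) :=
    { carrier := {v | evv F₀ v ∈ Λ}
      add_mem' := by
        intro a b ha hb
        show evv F₀ (a + b) ∈ Λ
        have h1 : evv F₀ (a + b) = evv F₀ a + evv F₀ b := by
          funext j
          exact Polynomial.map_add _
        rw [h1]
        exact Λ.add_mem ha hb
      zero_mem' := by
        show evv F₀ 0 ∈ Λ
        have h1 : evv F₀ (0 : ι → F₀[X]) = 0 := by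
          funext j
          exact Polynomial.map_zero _
        rw [h1]
        exact Λ.zero_mem
      smul_mem' := by
        intro p v hv
        show evv F₀ (p • v) ∈ Λ
        have h1 : evv F₀ (p • v) = p.map F₀.subtype • evv F₀ v := by
          funext j
          exact Polynomial.map_mul _
        rw [h1]
        exact Λ.smul_mem _ hv } with hΛ₀
  obtain ⟨r, δ, v, hδ, hv, hvlat⟩ := exists_RB (F := F₀) w Λ₀
  have hmem0 : ∀ x : ι → F₀[X], x ∈ lat v ↔ evv F₀ x ∈ Λ := by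
    intro x
    rw [hvlat]
    exact Iff.rfl
  refine ⟨r, δ, fun k => evv F₀ (v k), hδ, ⟨fun k => evv_mem_Lv.mpr (hv.fil k), ?_⟩,
    fun k => evv_isRat _, ?_⟩
  · intro p t hp k l hl
    have key : ∀ π : F →ₗ[F₀] F₀, π ((p k).coeff l) = 0 := by
      intro π
      have h1 := dfn_Lv (F₀ := F₀) w t π _ hp
      rw [Pv_sum_rat π fun k => evv_isRat _] at h1
      have h2 : ∀ k, IsRat (ι := Unit) F₀ (fun _ => Pm π (p k)) := fun k _ l => by
        rw [coeff_Pm]; exact (π _).2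
      choose P hP using fun k => (h2 k).descend
      have h3 : ∑ k, Pm π (p k) • evv F₀ (v k) = evv F₀ (∑ k, P k () • v k) := by
        rw [evv_sum]
        refine Finset.sum_congr rfl fun k _ => ?_
        have h4 := congrFun (hP k) ()
        unfold evv at h4
        rw [h4]
      rw [h3, evv_mem_Lv] at h1
      have h4 := hv.pd _ t h1 k l hl
      have h5 : (evv F₀ (P k) ()).coeff l = (Pm π (p k)).coeff l := by rw [hP k]
      rw [evv_coeff, h4, coeff_Pm] at h5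
      exact Subtype.ext h5.symm
    exact (Module.forall_dual_apply_eq_zero_iff F₀ _).mp key
  · apply le_antisymm
    · unfold lat
      rw [Submodule.span_le]
      rintro _ ⟨k, rfl⟩
      exact (hmem0 _).mp (Submodule.subset_span ⟨k, rfl⟩)
    · intro x hx
      obtain ⟨t, ht⟩ := exists_mem_Lv w x
      obtain ⟨T, hT⟩ := exists_decomp F₀ x
      rw [hT]
      refine Submodule.sum_mem _ fun i _ => ?_
      set y := Pv ((Module.Basis.ofVectorSpace F₀ F).coord i) x with hy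
      have h1 : y ∈ Λ := (mem_lev.mp (hΛ t _ _ (mem_lev.mpr ⟨hx, ht⟩))).1
      obtain ⟨y', hy'⟩ := (Pv_isRat ((Module.Basis.ofVectorSpace F₀ F).coord i) x).descend
      rw [← hy] at hy'
      have h2 : y' ∈ lat v := by rw [hmem0, hy']; exact h1
      obtain ⟨p, hp⟩ := mem_lat.mp h2
      have h3 : y ∈ lat (fun k => evv F₀ (v k)) := by
        rw [← hy', ← hp, evv_sum]
        exact mem_lat.mpr ⟨_, rfl⟩
      have h4 : ((Module.Basis.ofVectorSpace F₀ F) i : F) • y
          = (C ((Module.Basis.ofVectorSpace F₀ F) i : F) : F[X]) • y := by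
        funext j
        rw [Pi.smul_apply, Pi.smul_apply, smul_eq_mul, ← smul_eq_C_mul]
      rw [h4]
      exact Submodule.smul_mem _ _ h3

theorem RB.types_eq {r r' : ℕ} {w : ι → ℕ} {δ : Fin r → ℕ} {η : Fin r → ι → F[X]}
    {δ' : Fin r' → ℕ} {η' : Fin r' → ι → F[X]} (h : RB w δ η) (h' : RB w δ' η')
    (hm : Monotone δ) (hm' : Monotone δ') (hl : lat η = lat η') :
    ∃ hr : r = r', ∀ k : Fin r, δ k = δ' (Fin.cast hr k) := by
  have h1 : r ≤ r' := by
    have := card_le_of_torsion (f := η') h.li (fun k => ⟨1, one_ne_zero, by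
      rw [one_smul]
      have : η k ∈ lat η' := by rw [← hl]; exact Submodule.subset_span ⟨k, rfl⟩
      exact this⟩)
    rwa [Fintype.card_fin, Fintype.card_fin] at this
  have h2 : r' ≤ r := by
    have := card_le_of_torsion (f := η) h'.li (fun k => ⟨1, one_ne_zero, by
      rw [one_smul]
      have : η' k ∈ lat η := by rw [hl]; exact Submodule.subset_span ⟨k, rfl⟩
      exact this⟩)
    rwa [Fintype.card_fin, Fintype.card_fin] at this
  obtain rfl : r = r' := le_antisymm h1 h2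
  have key : ∀ {δ δ' : Fin r → ℕ} {η η' : Fin r → ι → F[X]}, RB w δ η → RB w δ' η' →
      Monotone δ → Monotone δ' → lat η = lat η' → ∀ k, δ k ≤ δ' k := by
    intro δ δ' η η' h h' hm hm' hl k
    have h3 := h'.li.comp (Fin.castLE k.2 : Fin (k + 1) → Fin r) (Fin.castLE_injective _)
    refine h.le_of_li hm (by rw [Fintype.card_fin]; omega) _ h3 fun l => ?_
    rw [mem_lev]
    have h4 : δ' (Fin.castLE k.2 l) ≤ δ' k := hm' (by
      rw [Fin.le_def, Fin.val_castLE]; exact Nat.lt_succ_iff.mp l.2)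
    refine ⟨?_, Lv_mono (Nat.succ_le_succ h4) (h'.fil (Fin.castLE k.2 l))⟩
    rw [hl]
    exact Submodule.subset_span ⟨_, rfl⟩
  refine ⟨rfl, fun k => ?_⟩
  rw [Fin.cast_eq_self]
  exact le_antisymm (key h h' hm hm' hl k) (key h' h hm' hm hl.symm k)

/-- A rational reduced basis with the given degrees. -/
theorem RB.exists_rat [Finite ι] {r : ℕ} {F₀ : Subfield F} {w : ι → ℕ} {δ : Fin r → ℕ}
    {η : Fin r → ι → F[X]} (h : RB w δ η) (hm : Monotone δ)
    (hD : ∀ t, Dfn F₀ (lev (lat η) w t)) :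
    ∃ η' : Fin r → ι → F[X], RB w δ η' ∧ (∀ k, IsRat F₀ (η' k)) ∧ lat η' = lat η := by
  obtain ⟨r', δ', η', hm', h', hrat, hlat⟩ := exists_rat_RB w (lat η) hD
  obtain ⟨hr, hδ⟩ := h.types_eq h' hm hm' hlat.symm
  subst hr
  have hδ' : δ = δ' := funext fun k => by rw [hδ k, Fin.cast_eq_self]
  subst hδ'
  exact ⟨η', h', hrat, hlat⟩

end general

/-! ### Complexification -/

section cplxf

variable {ι κ : Type*}

/-- The complex vector with real coordinates. -/
def iov (v : ι → ℝ[X]) : ι → ℂ[X] := fun j => io (v j)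

/-- Real part of a complex vector. -/
def rev (v : ι → ℂ[X]) : ι → ℝ[X] := fun j => reP (v j)

/-- Imaginary part of a complex vector. -/
def imv (v : ι → ℂ[X]) : ι → ℝ[X] := fun j => imP (v j)

theorem rev_sum [Fintype κ] (p : κ → ℂ[X]) (χ : κ → ι → ℝ[X]) :
    rev (∑ k, p k • iov (χ k)) = ∑ k, reP (p k) • χ k := by
  funext j
  unfold rev
  rw [Finset.sum_apply, Finset.sum_apply, reP_sum]
  refine Finset.sum_congr rfl fun k _ => ?_
  show reP (p k * io (χ k j)) = reP (p k) * χ k j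
  rw [reP_mul, reP_io, imP_io, mul_zero, sub_zero]

theorem imv_sum [Fintype κ] (p : κ → ℂ[X]) (χ : κ → ι → ℝ[X]) :
    imv (∑ k, p k • iov (χ k)) = ∑ k, imP (p k) • χ k := by
  funext j
  unfold imv
  rw [Finset.sum_apply, Finset.sum_apply, imP_sum]
  refine Finset.sum_congr rfl fun k _ => ?_
  show imP (p k * io (χ k j)) = imP (p k) * χ k j
  rw [imP_mul, reP_io, imP_io, mul_zero, zero_add]

theorem rev_mem_Lv {w : ι → ℕ} {t : ℕ} {v : ι → ℂ[X]} (h : v ∈ Lv ℂ w t) :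
    rev v ∈ Lv ℝ w t := fun j k hk => by
  show (reP (v j)).coeff k = 0
  rw [reP_coeff, h j k hk]
  rfl

theorem imv_mem_Lv {w : ι → ℕ} {t : ℕ} {v : ι → ℂ[X]} (h : v ∈ Lv ℂ w t) :
    imv v ∈ Lv ℝ w t := fun j k hk => by
  show (imP (v j)).coeff k = 0
  rw [imP_coeff, h j k hk]
  rfl

theorem iov_mem_Lv {w : ι → ℕ} {t : ℕ} {v : ι → ℝ[X]} (h : v ∈ Lv ℝ w t) :
    iov v ∈ Lv ℂ w t := fun j k hk => by
  show (io (v j)).coeff k = 0
  rw [io_coeff, h j k hk]
  simp

theorem iov_isRat {F₁ : Subfield ℝ} {v : ι → ℝ[X]} (h : IsRat F₁ v) :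
    IsRat (cplx F₁) (iov v) := fun j k => by
  show (io (v j)).coeff k ∈ cplx F₁
  rw [io_coeff, mem_cplx, Complex.ofReal_re, Complex.ofReal_im]
  exact ⟨h j k, F₁.zero_mem⟩

theorem RB.complexify [Fintype κ] {w : ι → ℕ} {δ : κ → ℕ} {χ : κ → ι → ℝ[X]} (h : RB w δ χ) :
    RB w δ (fun k => iov (χ k)) := by
  refine ⟨fun k => iov_mem_Lv (h.fil k), fun p t hp k l hl => ?_⟩
  have h1 := rev_mem_Lv hp
  have h2 := imv_mem_Lv hp
  rw [rev_sum] at h1
  rw [imv_sum] at h2
  have h3 := h.pd _ t h1 k l hl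
  have h4 := h.pd _ t h2 k l hl
  rw [reP_coeff] at h3
  rw [imP_coeff] at h4
  exact Complex.ext h3 h4

theorem iov_rev_imv (v : ι → ℂ[X]) : iov (rev v) + (II : ℂ[X]) • iov (imv v) = v := by
  funext j
  exact io_reP_imP (v j)

theorem mem_lat_iov [Fintype κ] {χ : κ → ι → ℝ[X]} {v : ι → ℂ[X]} :
    v ∈ lat (fun k => iov (χ k)) ↔ rev v ∈ lat χ ∧ imv v ∈ lat χ := by
  constructor
  · intro h
    obtain ⟨p, rfl⟩ := mem_lat.mp h
    rw [rev_sum, imv_sum]
    exact ⟨mem_lat.mpr ⟨_, rfl⟩, mem_lat.mpr ⟨_, rfl⟩⟩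
  · rintro ⟨h1, h2⟩
    obtain ⟨p, hp⟩ := mem_lat.mp h1
    obtain ⟨q, hq⟩ := mem_lat.mp h2
    have h3 : ∀ p : κ → ℝ[X], iov (∑ k, p k • χ k) = ∑ k, io (p k) • iov (χ k) := by
      intro p
      funext j
      unfold iov
      rw [Finset.sum_apply, Finset.sum_apply, map_sum]
      exact Finset.sum_congr rfl fun k _ => map_mul _ _ _
    rw [← iov_rev_imv v, ← hp, ← hq, h3, h3]
    exact Submodule.add_mem _ (mem_lat.mpr ⟨_, rfl⟩)
      (Submodule.smul_mem _ _ (mem_lat.mpr ⟨_, rfl⟩))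

theorem dotL_iov [Fintype ι] (x : ι → ℝ[X]) (v : ι → ℂ[X]) :
    reP (dotL (iov x) v) = dotL x (rev v) ∧ imP (dotL (iov x) v) = dotL x (imv v) := by
  rw [dotL_apply, dotL_apply, dotL_apply, reP_sum, imP_sum]
  constructor
  · refine Finset.sum_congr rfl fun j _ => ?_
    show reP (v j * io (x j)) = reP (v j) * x j
    rw [reP_mul, reP_io, imP_io, mul_zero, sub_zero]
  · refine Finset.sum_congr rfl fun j _ => ?_
    show imP (v j * io (x j)) = imP (v j) * x j
    rw [imP_mul, reP_io, imP_io, mul_zero, zero_add]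

theorem dotL_iov_eq_zero [Fintype ι] {x : ι → ℝ[X]} {v : ι → ℂ[X]} :
    dotL (iov x) v = 0 ↔ dotL x (rev v) = 0 ∧ dotL x (imv v) = 0 := by
  obtain ⟨h1, h2⟩ := dotL_iov x v
  constructor
  · intro h
    rw [← h1, ← h2, h, reP_zero, imP_zero]
    exact ⟨rfl, rfl⟩
  · rintro ⟨h3, h4⟩
    rw [← io_reP_imP (dotL (iov x) v), h1, h2, h3, h4]
    simp

end cplxf

end

end Pool.Agent.Helper730_PP
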