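import Pool.Agent.Helper730_PP.GenA

/-!
# The real plant: no compensator of small degree gives the zero determinant
-/

open Polynomial Matrix

namespace Pool.Agent.Helper730_PP

noncomputable section

/-- The real plant of a family of complex rows. -/
def realQ {b c m : ℕ} (e : Fin c × Fin 2 ≃ Fin (m + 2 * b)) (A : Fin b → Fin c → ℂ[X]) :
    PolyMat (2 * b) (m + 2 * b) :=
  Matrix.of fun r => if ((rowEquiv b).symm r).2 = 0 then rowRe e (A ((rowEquiv b).symm r).1)
    else rowIm e (A ((rowEquiv b).symm r).1)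

theorem realQ_row {b c m : ℕ} (e : Fin c × Fin 2 ≃ Fin (m + 2 * b)) (A : Fin b → Fin c → ℂ[X])
    (i : Fin b) : realQ e A (rowEquiv b (i, 0)) = rowRe e (A i) ∧
      realQ e A (rowEquiv b (i, 1)) = rowIm e (A i) := by
  constructor
  · show (if ((rowEquiv b).symm (rowEquiv b (i, 0))).2 = 0 then _ else _) = _
    rw [Equiv.symm_apply_apply]
    rfl
  · show (if ((rowEquiv b).symm (rowEquiv b (i, 1))).2 = 0 then _ else _) = _
    rw [Equiv.symm_apply_apply]
    rfl

theorem realQ_kernel {b c m : ℕ} (e : Fin c × Fin 2 ≃ Fin (m + 2 * b))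
    (A : Fin b → Fin c → ℂ[X]) (κ : Fin (m + 2 * b) → ℝ[X])
    (h : ∀ r, realQ e A r ⬝ᵥ κ = 0) : Ar A (fun x => κ (e x)) = 0 := by
  rw [Ar_apply]
  have h1 : Ac A (cx fun x => κ (e x)) = 0 := by
    funext i
    have h2 := row_dot e (A i) κ
    rw [← (realQ_row e A i).1, ← (realQ_row e A i).2, h, h, map_zero, mul_zero, add_zero] at h2
    rw [Ac_apply, Pi.zero_apply, h2]
    exact Finset.sum_congr rfl fun j _ => mul_comm _ _
  rw [h1, rx_zero]

theorem RB.reindex {F : Type*} [Field F] {ι ι' κ : Type*} [Fintype κ] (e : ι ≃ ι') {δ : κ → ℕ}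
    {B : κ → ι' → F[X]} (h : RB w0 δ B) : RB w0 δ (fun k x => B k (e x)) := by
  refine ⟨fun k j l hl => h.fil k (e j) l hl, fun p t hp => h.pd p t ?_⟩
  intro j l hl
  have h1 := hp (e.symm j) l hl
  rw [Finset.sum_apply] at h1 ⊢
  simpa using h1

theorem bal_mem {b nc : ℕ} (i : Fin b) : nc / b ≤ bal b nc i ∧ bal b nc i ≤ nc / b + 1 :=
  ⟨bal_ge b nc i, by
    have hb : 0 < b := lt_of_le_of_lt (Nat.zero_le _) i.2
    unfold bal
    have h1 : (nc + (i : ℕ)) / b ≤ (nc + b) / b := Nat.div_le_div_right (by have := i.2; omega)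
    rwa [Nat.add_div_right _ hb] at h1⟩

/-- The weights of the rows of a balanced plant. -/
def wbal (b nc : ℕ) : Fin b → ℕ := fun i => nc / b + 1 - bal b nc i

theorem wbal_le {b nc : ℕ} (i : Fin b) : wbal b nc i ≤ 1 := by
  have := bal_mem (nc := nc) i
  unfold wbal
  omega

theorem wbal_le' {b nc : ℕ} (i : Fin b) : wbal b nc i ≤ nc / b + 1 := Nat.sub_le _ _

theorem wbal_add {b nc : ℕ} (i : Fin b) : nc / b + 1 + 1 - wbal b nc i = bal b nc i + 1 := by
  have := bal_mem (nc := nc) i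
  unfold wbal
  omega

theorem sum_wbal {b nc : ℕ} (hb : 0 < b) : ∑ i, wbal b nc i + nc = b * (nc / b + 1) := by
  have h1 := sum_bal b nc hb
  calc ∑ i, wbal b nc i + nc = ∑ i, wbal b nc i + ∑ i, bal b nc i := by rw [h1]
    _ = ∑ i : Fin b, (nc / b + 1) := by
      rw [← Finset.sum_add_distrib]
      refine Finset.sum_congr rfl fun i _ => ?_
      have := bal_mem (nc := nc) i
      unfold wbal
      omega
    _ = _ := by simp

theorem stack_det_ne {a b c q nc : ℕ} (hb : 0 < b) (hc : c = a + b) (ha : 3 * b ≤ a + 2)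
    (ha2 : 2 * b ≤ a) (hnc : (2 * c - 1) * q + 4 * (a * b) ≤ 2 * nc + 1)
    (e : Fin c × Fin 2 ≃ Fin (2 * a + 2 * b)) {t : PI b c (nc / b + 1) (wbal b nc) → ℝ}
    (ht : AlgebraicIndependent ℚ t) {δ : Fin (2 * a) → ℕ} (hδ : ∑ k, δ k ≤ q)
    {B : Fin (2 * a) → Fin (2 * a + 2 * b) → ℝ[X]} (hB : RB w0 δ B) :
    (stack (Matrix.of B) (realQ e (matA t))).det ≠ 0 := by
  intro hdet
  obtain ⟨κ, hκ0, hκ⟩ := Matrix.exists_mulVec_eq_zero_iff.mpr hdet
  set B' : Fin (2 * a) → Fin c × Fin 2 → ℝ[X] := fun k x => B k (e x) with hB'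
  have hB'RB : RB w0 δ B' := hB.reindex e
  set κ' : Fin c × Fin 2 → ℝ[X] := fun x => κ (e x) with hκ'
  have hκ'0 : κ' ≠ 0 := by
    intro h
    apply hκ0
    funext j
    have := congrFun h (e.symm j)
    simpa [hκ'] using this
  have h1 : ∀ k, dotL (B' k) κ' = 0 := by
    intro k
    have h2 := congrFun hκ (Fin.castAdd _ k)
    rw [Pi.zero_apply, Matrix.mulVec, dotProduct] at h2
    rw [dotL_apply, ← h2, ← Equiv.sum_comp e]
    refine Finset.sum_congr rfl fun x _ => ?_
    rw [stack_castAdd, mul_comm]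
    rfl
  have h2 : Ar (matA t) κ' = 0 := by
    apply realQ_kernel
    intro r
    have h3 := congrFun hκ (Fin.natAdd _ r)
    rw [Pi.zero_apply, Matrix.mulVec] at h3
    rw [← h3]
    congr 1
    funext x
    rw [stack_natAdd]
  obtain ⟨r, δU, ηU, -, hU, hUlat⟩ := exists_RB (w2 (w0 (ι := Fin c))) (perp (lat B'))
  have hcard : Fintype.card (Fin c × Fin 2) = 2 * c := by
    rw [Fintype.card_prod, Fintype.card_fin, Fintype.card_fin, mul_comm]
  have h3 := perp_le (c := 0) (w := w2 (w0 (ι := Fin c))) (w' := w0) (fun _ => rfl) hB'RB.fil hU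
    hUlat.symm
  have h4 := card_le_of_perp_real hB'RB.li hU.li (fun k => by
    rw [← hUlat]; exact Submodule.subset_span ⟨k, rfl⟩)
  rw [hcard, Fintype.card_fin, Fintype.card_fin] at h3 h4
  have hr : r = 2 * b := by omega
  subst hr
  have h5 := h3.2 (by omega)
  have hsum0 : ∑ j : Fin c × Fin 2, w2 (w0 (ι := Fin c)) j = 0 := Finset.sum_eq_zero fun _ _ => rfl
  rw [hsum0, zero_mul, add_zero, zero_add] at h5
  have hbc : b ≤ c := by omega
  have hs := sum_wbal (nc := nc) hb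
  refine no_kernel hb hc ha ha2 (w := wbal b nc) (w' := fun i => 1 - wbal b nc i)
    (fun i => by have := wbal_le (nc := nc) i; omega) (by omega) (matA_deg t) (matA_gen ht)
    (matA_full wbal_le' hbc ht) (h5.trans hδ) hU (x := κ') ?_ hκ'0 h2
  rw [hUlat, mem_perp_lat]
  exact h1

theorem matA_natDegree {b c nc : ℕ} (t : PI b c (nc / b + 1) (wbal b nc) → ℝ) (i : Fin b)
    (j : Fin c) : (matA t i j).natDegree ≤ bal b nc i := by
  rw [natDegree_le_iff_coeff_eq_zero]
  intro k hk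
  apply matA_deg
  have := wbal_add (nc := nc) i
  have := wbal_le (nc := nc) i
  omega

theorem realQ_natDegree {b c m nc n : ℕ} (hn : 2 * nc ≤ n)
    (e : Fin c × Fin 2 ≃ Fin (m + 2 * b)) (t : PI b c (nc / b + 1) (wbal b nc) → ℝ)
    (r : Fin (2 * b)) (x : Fin (m + 2 * b)) :
    (realQ e (matA t) r x).natDegree ≤ bal (2 * b) n r := by
  obtain ⟨⟨i, s⟩, rfl⟩ := (rowEquiv b).surjective r
  have hi : bal b nc i ≤ bal (2 * b) n (rowEquiv b (i, s)) := by
    have hb : 0 < b := lt_of_le_of_lt (Nat.zero_le _) i.2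
    unfold bal
    have h1 : (nc + (i : ℕ)) / b = (2 * (nc + i)) / (2 * b) :=
      (Nat.mul_div_mul_left _ _ (by norm_num)).symm
    rw [h1]
    apply Nat.div_le_div_right
    rw [rowEquiv_val]
    show 2 * (nc + (i : ℕ)) ≤ n + (s + 2 * i)
    omega
  refine le_trans ?_ hi
  fin_cases s
  · simp only [Fin.zero_eta]
    rw [(realQ_row e _ i).1]
    exact rowRe_natDegree e (matA_natDegree t i) x
  · simp only [Fin.mk_one]
    rw [(realQ_row e _ i).2]
    exact rowIm_natDegree e (matA_natDegree t i) x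

end

end Pool.Agent.Helper730_PP
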