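import Pool.Agent.Helper730_PP.NoKernel2
import Pool.Agent.Helper730_PP.RealQ

/-!
# The determinant does not vanish, in general
-/

open Polynomial

namespace Pool.Agent.Helper730_PP

noncomputable section

theorem matA_gen2 {b c D : ℕ} {w : Fin b → ℕ} {t : PI b c D w → ℝ}
    (ht : AlgebraicIndependent ℚ t) : Gen2 (matA t) (2 * c * ∑ i, (D + 1 - w i)) := by
  intro B n
  obtain ⟨g, hg, hgS⟩ := exists_gauge ht B n
  refine ⟨g, hg, fun S h1 h2 => ?_⟩
  rw [← card_PI]
  refine hgS S (fun K hK hSK x => ?_) h2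
  obtain ⟨i, j, r, l⟩ := x
  have h3 := h1 K hK hSK i j l
  rw [matA_coeff, dif_pos l.2, dif_pos l.2] at h3
  fin_cases r
  · exact hK.re_mem h3
  · exact hK.im_mem h3

theorem stack_det_ne2 {a b c q nc : ℕ} (ha : 1 ≤ a) (hb : 0 < b) (hc : c = a + b)
    (hnc : (2 * c - 1) * q + 4 * (a * b) ≤ 2 * nc + 1)
    (e : Fin c × Fin 2 ≃ Fin (2 * a + 2 * b)) {t : PI b c (nc / b + 1) (wbal b nc) → ℝ}
    (ht : AlgebraicIndependent ℚ t) {δ : Fin (2 * a) → ℕ} (hδ : ∑ k, δ k ≤ q)
    {B : Fin (2 * a) → Fin (2 * a + 2 * b) → ℝ[X]} (hB : RB w0 δ B) :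
    (stack (Matrix.of B) (realQ e (matA t))).det ≠ 0 := by
  intro hdet
  obtain ⟨κ, hκ0, hκ⟩ := Matrix.exists_mulVec_eq_zero_iff.mpr hdet
  set B' : Fin (2 * a) → Fin c × Fin 2 → ℝ[X] := fun k x => B k (e x) with hB'
  have hB'RB : RB w0 δ B' := hB.reindex e
  set κ' : Fin c × Fin 2 → ℝ[X] := fun x => κ (e x) with hκ'
  have hκ'0 : κ' ≠ 0 := by
    intro h
    apply hκ0
    funext j
    have := congrFun h (e.symm j)
    simpa [hκ'] using this
  have h1 : ∀ k, dotL (B' k) κ' = 0 := by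
    intro k
    have h2 := congrFun hκ (Fin.castAdd _ k)
    rw [Pi.zero_apply, Matrix.mulVec, dotProduct] at h2
    rw [dotL_apply, ← h2, ← Equiv.sum_comp e]
    refine Finset.sum_congr rfl fun x _ => ?_
    rw [stack_castAdd, mul_comm]
    rfl
  have h2 : Ar (matA t) κ' = 0 := by
    apply realQ_kernel
    intro r
    have h3 := congrFun hκ (Fin.natAdd _ r)
    rw [Pi.zero_apply, Matrix.mulVec] at h3
    rw [← h3]
    congr 1
    funext x
    rw [stack_natAdd]
  obtain ⟨r, δU, ηU, -, hU, hUlat⟩ := exists_RB (w2 (w0 (ι := Fin c))) (perp (lat B'))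
  have hcard : Fintype.card (Fin c × Fin 2) = 2 * c := by
    rw [Fintype.card_prod, Fintype.card_fin, Fintype.card_fin, mul_comm]
  have h3 := perp_le (c := 0) (w := w2 (w0 (ι := Fin c))) (w' := w0) (fun _ => rfl) hB'RB.fil hU
    hUlat.symm
  have h4 := card_le_of_perp_real hB'RB.li hU.li (fun k => by
    rw [← hUlat]; exact Submodule.subset_span ⟨k, rfl⟩)
  rw [hcard, Fintype.card_fin, Fintype.card_fin] at h3 h4
  have hr : r = 2 * b := by omega
  subst hr
  have h5 := h3.2 (by omega)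
  have hsum0 : ∑ j : Fin c × Fin 2, w2 (w0 (ι := Fin c)) j = 0 := Finset.sum_eq_zero fun _ _ => rfl
  rw [hsum0, zero_mul, add_zero, zero_add] at h5
  have hbc : b ≤ c := by omega
  have hs := sum_wbal (nc := nc) hb
  refine no_kernel2 ha hb hc (w := wbal b nc) (w' := fun i => 1 - wbal b nc i)
    (fun i => by have := wbal_le (nc := nc) i; omega) (by omega) (matA_deg t) (matA_gen2 ht)
    (matA_full wbal_le' hbc ht) (h5.trans hδ) hU (x := κ') ?_ hκ'0 h2
  rw [hUlat, mem_perp_lat]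
  exact h1

end

end Pool.Agent.Helper730_PP
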