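import Pool.Agent.Helper730_PP.Mobius

/-!
# Corank one: reduction to a good lattice
-/

open Polynomial

namespace Pool.Agent.Helper730_PP

noncomputable section

theorem exists_torsion_real {ι κ : Type*} [Fintype ι] [Fintype κ] {f : κ → ι → ℝ[X]}
    (hf : LinearIndependent ℝ[X] f) {v : ι → ℝ[X]} (hv : v ∈ perp (perp (lat f))) :
    ∃ p : ℝ[X], p ≠ 0 ∧ p • v ∈ lat f := by
  classical
  obtain ⟨n, t, θ, -, hθ, hθlat⟩ := exists_RB (w0 (ι := ι)) (perp (lat f))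
  have hfil : ∀ k : κ, ∃ t, f k ∈ Lv ℝ (w0 (ι := ι)) (t + 1) := fun k => exists_lv_succ _ _
  choose τ hτ using hfil
  have h1 := (perp_le (c := 0) (w := w0) (w' := w0) (fun _ => rfl) hτ hθ hθlat.symm).1
  rw [Fintype.card_fin] at h1
  by_contra hcon
  push Not at hcon
  have hli : LinearIndependent ℝ[X] (Sum.elim (fun _ : Unit => v) f) := by
    rw [Fintype.linearIndependent_iff]
    intro g hg
    rw [Fintype.sum_sum_type, Fintype.sum_unique] at hg
    simp only [Sum.elim_inl, Sum.elim_inr] at hg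
    have h2 : g (Sum.inl default) = 0 := by
      by_contra h3
      apply hcon _ h3
      rw [eq_neg_of_add_eq_zero_left hg]
      exact Submodule.neg_mem _ (Submodule.sum_mem _ fun k _ => Submodule.smul_mem _ _
        (Submodule.subset_span ⟨k, rfl⟩))
    rw [h2, zero_smul, zero_add] at hg
    rw [Fintype.linearIndependent_iff] at hf
    rintro (i | k)
    · rwa [Subsingleton.elim i default]
    · exact hf (fun k => g (Sum.inr k)) hg k
  have h2 := card_le_of_perp_real hθ.li hli (fun k => by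
    rw [hθlat]
    rcases k with k | k
    · exact hv
    · exact le_perp_perp _ (Submodule.subset_span ⟨k, rfl⟩))
  rw [Fintype.card_fin, Fintype.card_sum, Fintype.card_unit] at h2
  omega

/-- Saturation does not increase the degrees. -/
theorem exists_saturated {ι : Type*} [Fintype ι] {r : ℕ} {δ : Fin r → ℕ}
    {η : Fin r → ι → ℝ[X]} {w : ι → ℕ} (hw : ∀ j, w j = 0) (hη : RB w δ η) :
    ∃ (δ' : Fin r → ℕ) (η' : Fin r → ι → ℝ[X]), RB w δ' η' ∧ lat η ≤ lat η' ∧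
      ∑ k, δ' k ≤ ∑ k, δ k ∧
      (∀ (p : ℝ[X]) (x : ι → ℝ[X]), p ≠ 0 → p • x ∈ lat η' → x ∈ lat η') ∧
      (∀ x ∈ lat η', ∃ p : ℝ[X], p ≠ 0 ∧ p • x ∈ lat η) := by
  classical
  obtain ⟨n, ε, θ, -, hθ, hθlat⟩ := exists_RB w (perp (lat η))
  obtain ⟨n', δ', η', -, hη', hη'lat⟩ := exists_RB w (perp (perp (lat η)))
  have hww : ∀ j, w j + w j = 0 := fun j => by rw [hw j]
  have h1 := perp_le hww hη.fil hθ hθlat.symm
  have h2 := card_le_of_perp_real hη.li hθ.li (fun k => by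
    rw [← hθlat]; exact Submodule.subset_span ⟨k, rfl⟩)
  have hlat' : perp (lat θ) = lat η' := by rw [hθlat, hη'lat]
  have h3 := perp_le hww hθ.fil hη' hlat'
  have h4 := card_le_of_perp_real hθ.li hη'.li (fun k => by
    rw [hlat']; exact Submodule.subset_span ⟨k, rfl⟩)
  rw [Fintype.card_fin, Fintype.card_fin] at h1 h2 h3 h4
  obtain rfl : n' = r := by
    have := h1.1
    have := h3.1
    omega
  have h5 := h1.2 (by have := h1.1; omega)
  have h6 := h3.2 (by have := h3.1; omega)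
  have hw0 : ∑ j, w j = 0 := Finset.sum_eq_zero fun j _ => hw j
  refine ⟨δ', η', hη', ?_, by omega, ?_, ?_⟩
  · rw [hη'lat]
    exact le_perp_perp _
  · intro p x hp hpx
    rw [hη'lat] at hpx ⊢
    intro v hv
    have h7 := hpx v hv
    rw [map_smul, smul_eq_mul] at h7
    exact (mul_eq_zero.mp h7).resolve_left hp
  · intro x hx
    rw [hη'lat] at hx
    exact exists_torsion_real hη.li hx

theorem io_mb (x0 n : ℕ) (p : ℝ[X]) : io (mb ℝ x0 n p) = mb ℂ x0 n (io p) := by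
  unfold io
  rw [coe_mapRingHom]
  exact mb_map _ _ _ _

theorem cx_mb {c : ℕ} (x0 n : ℕ) (v : Fin c × Fin 2 → ℝ[X]) (j : Fin c) :
    cx (fun x => mb ℝ x0 n (v x)) j = mb ℂ x0 n (cx v j) := by
  show io (mb ℝ x0 n (v (j, 0))) + II * io (mb ℝ x0 n (v (j, 1))) = _
  rw [io_mb, io_mb]
  show _ = mb ℂ x0 n (io (v (j, 0)) + II * io (v (j, 1)))
  rw [map_add]
  unfold II
  rw [mb_C_mul]

/-- The transformed matrix. -/
def mA {b c : ℕ} (x0 D : ℕ) (w : Fin b → ℕ) (A : Fin b → Fin c → ℂ[X]) : Fin b → Fin c → ℂ[X] :=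
  fun i j => mb ℂ x0 (D - w i) (A i j)

theorem Ac_mA {b c : ℕ} {x0 D : ℕ} {w : Fin b → ℕ} {A : Fin b → Fin c → ℂ[X]}
    (hA : ∀ i j k, D + 1 ≤ k + w i → (A i j).coeff k = 0) {T : ℕ} {z : Fin c → ℂ[X]}
    (hz : ∀ j, (z j).natDegree ≤ T) (i : Fin b) :
    Ac (mA x0 D w A) (fun j => mb ℂ x0 T (z j)) i = mb ℂ x0 (T + (D - w i)) (Ac A z i) := by
  rw [Ac_apply, Ac_apply, map_sum]
  refine Finset.sum_congr rfl fun j _ => ?_
  rw [mb_mul (hz j)]
  · rfl
  · rw [natDegree_le_iff_coeff_eq_zero]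
    intro k hk
    exact hA i j k (by omega)

theorem Ar_mA_zero {b c : ℕ} {x0 D : ℕ} {w : Fin b → ℕ} {A : Fin b → Fin c → ℂ[X]}
    (hA : ∀ i j k, D + 1 ≤ k + w i → (A i j).coeff k = 0) {T : ℕ} {z : Fin c × Fin 2 → ℝ[X]}
    (hz : ∀ j, (z j).natDegree ≤ T) :
    Ar (mA x0 D w A) (fun j => mb ℝ x0 T (z j)) = 0 ↔ Ar A z = 0 := by
  have h1 : ∀ j, (cx z j).natDegree ≤ T := by
    refine natDegree_le_of_Lv (w := w0) (fun _ => rfl) ?_
    exact cx_mem_Lv.mpr (Lv_of_natDegree_le (w := w2 w0) (fun _ => rfl) hz)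
  have h2 : cx (fun j => mb ℝ x0 T (z j)) = fun j => mb ℂ x0 T (cx z j) :=
    funext fun j => cx_mb _ _ _ _
  have h3 : ∀ {b' : ℕ} (A' : Fin b' → Fin c → ℂ[X]) (v : Fin c × Fin 2 → ℝ[X]),
      Ar A' v = 0 ↔ ∀ i, Ac A' (cx v) i = 0 := by
    intro b' A' v
    have h4 : Ar A' v = 0 ↔ cx (Ar A' v) = 0 :=
      ⟨fun h => by rw [h, cx_zero], fun h => cx_injective (by rw [h, cx_zero])⟩
    rw [h4, cx_Ar]
    exact funext_iff
  rw [h3, h3, h2]
  refine forall_congr' fun i => ?_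
  rw [Ac_mA hA h1, mb_eq_zero]

theorem Gen2.mA {b c D M : ℕ} {w : Fin b → ℕ} {A : Fin b → Fin c → ℂ[X]} (h : Gen2 A M)
    (x0 : ℕ) : Gen2 (mA x0 D w A) M := by
  intro B n
  obtain ⟨g, hg, hgS⟩ := h B n
  refine ⟨g, hg, fun S h1 h2 => hgS S (fun K hK hSK i j k => ?_) h2⟩
  have h3 := h1 K hK hSK i j
  obtain ⟨p, hp⟩ : ∃ p : K[X], p.map K.subtype = Pool.Agent.Helper730_PP.mA x0 D w A i j := by
    have h4 : Pool.Agent.Helper730_PP.mA x0 D w A i j ∈ Polynomial.lifts K.subtype := by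
      rw [Polynomial.lifts_iff_coeff_lifts]
      intro l
      exact ⟨⟨_, h3 l⟩, rfl⟩
    exact (Polynomial.mem_lifts _).mp h4
  have h4 : A i j = (mbi K x0 (D - w i) p).map K.subtype := by
    rw [mbi_map, hp]
    exact (mbi_mb _ _ _).symm
  rw [h4, coeff_map]
  exact ((mbi K x0 (D - w i) p).coeff k).2

/-- The corank one case, intrinsic form. -/
theorem no_corank_sat {a b c q D : ℕ} (ha : 1 ≤ a) (hc : c = a + b)
    {w w' : Fin b → ℕ} (hw : ∀ i, w i + w' i = 1)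
    (hD : (2 * c - 1) * q + 4 * (a * b) + 2 * ∑ i, w i ≤ 2 * (b * D) + 1)
    {A : Fin b → Fin c → ℂ[X]} (hA : ∀ i j k, D + 1 ≤ k + w i → (A i j).coeff k = 0)
    (hgen : Gen2 A (2 * c * ∑ i, (D + 1 - w i)))
    {δ : Fin (2 * b) → ℕ} (hδq : ∑ k, δ k ≤ q)
    {η : Fin (2 * b) → Fin c × Fin 2 → ℝ[X]} (hη : RB (w2 w0) δ η)
    (hsat : ∀ (p : ℝ[X]) (x : Fin c × Fin 2 → ℝ[X]), p ≠ 0 → p • x ∈ lat η → x ∈ lat η)
    {κ : Fin c × Fin 2 → ℝ[X]} (hκ : κ ∈ lat η) (hκ0 : κ ≠ 0) (hAκ : Ar A κ = 0)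
    (hone : ∀ x ∈ lat η, Ar A x = 0 → ∃ p : ℝ[X], p ≠ 0 ∧ ∃ q : ℝ[X], p • x = q • κ) :
    False := by
  classical
  have hw20 : ∀ x : Fin c × Fin 2, w2 (w0 (ι := Fin c)) x = 0 := fun _ => rfl
  obtain ⟨T', hT1, hT2⟩ := exists_maximal_fun0 (R := ℂ[X]) (fun k => cx (η k))
  have hf : LinearIndependent ℂ[X] (fun k : {k // k ∈ T'} => cx (η k)) :=
    li_of_fun (fun k => k ∈ T') (fun k => cx (η k)) fun p hp h => hT1 p hp h
  obtain ⟨P1, hP1, hP1e⟩ := eval_li hη.li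
  obtain ⟨P2, hP2, hP2e⟩ := eval_li hf
  obtain ⟨x0, hx0⟩ := exists_nat_eval_ne (mul_ne_zero (fun h => hP1 (io_eq_zero.mp h)) hP2)
  rw [eval_mul] at hx0
  have hx1 : P1.eval (x0 : ℝ) ≠ 0 := by
    intro h
    apply left_ne_zero_of_mul hx0
    have h1 : eval ((x0 : ℝ) : ℂ) (io P1) = ((P1.eval (x0 : ℝ) : ℝ) : ℂ) := by
      unfold io
      rw [coe_mapRingHom]
      exact eval_map_apply (Complex.ofRealHom) (x0 : ℝ)
    rw [h, Complex.ofReal_zero, Complex.ofReal_natCast] at h1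
    exact h1
  have hli1 := hP1e _ hx1
  have hli2 := hP2e _ (right_ne_zero_of_mul hx0)
  have hηdeg : ∀ k j, (η k j).natDegree ≤ δ k := fun k => natDegree_le_of_Lv hw20 (hη.fil k)
  set η' : Fin (2 * b) → Fin c × Fin 2 → ℝ[X] := fun k j => mb ℝ x0 (δ k) (η k j) with hη'def
  have hη'fil : ∀ k, η' k ∈ Lv ℝ (w2 w0) (δ k + 1) := fun k =>
    Lv_of_natDegree_le hw20 fun j => mb_natDegree (hηdeg k j)
  have hη' : RB (w2 w0) δ η' := by
    refine RB.of_ld hη'fil fun α hα => ?_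
    rw [Fintype.linearIndependent_iff] at hli1
    funext k
    refine hli1 α ?_ k
    funext j
    rw [Finset.sum_apply, Pi.zero_apply, ← hα j]
    refine Finset.sum_congr rfl fun k _ => ?_
    unfold ld
    rw [if_pos (Nat.zero_le _)]
    show α k * (η k j).eval (x0 : ℝ) = α k * (mb ℝ x0 (δ k) (η k j)).coeff (δ k)
    rw [mb_coeff_top]
  have hcxη' : ∀ k j, cx (η' k) j = mb ℂ x0 (δ k) (cx (η k) j) := fun k j => cx_mb _ _ _ _
  have hcxdeg : ∀ k j, (cx (η k) j).natDegree ≤ δ k := fun k =>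
    natDegree_le_of_Lv (w := w0) (fun _ => rfl) (cx_mem_Lv.mpr (hη.fil k))
  -- transport
  have hto : ∀ (T : ℕ) (x : Fin c × Fin 2 → ℝ[X]), x ∈ lat η → (∀ j, (x j).natDegree ≤ T) →
      (fun j => mb ℝ x0 T (x j)) ∈ lat η' := fun T x hx hxT =>
    transport hw20 hη (fun n => mb ℝ x0 n) (fun n m p q hp hq => mb_mul hp hq) hx
      (Lv_of_natDegree_le hw20 hxT)
  have hηback : (fun k j => mbi ℝ x0 (δ k) (η' k j)) = η := by
    funext k j
    exact mbi_mb _ _ _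
  have hfrom : ∀ (T : ℕ) (x : Fin c × Fin 2 → ℝ[X]), x ∈ lat η' → (∀ j, (x j).natDegree ≤ T) →
      (fun j => mbi ℝ x0 T (x j)) ∈ lat η := by
    intro T x hx hxT
    have h1 := transport hw20 hη' (fun n => mbi ℝ x0 n) (fun n m p q hp hq => mbi_mul hp hq) hx
      (Lv_of_natDegree_le hw20 hxT)
    rw [← hηback]
    exact h1
  have hdeg : ∀ x : Fin c × Fin 2 → ℝ[X], ∃ T, ∀ j, (x j).natDegree ≤ T := by
    intro x
    refine ⟨∑ j, (x j).natDegree, fun j => ?_⟩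
    exact Finset.single_le_sum (f := fun j => (x j).natDegree) (fun _ _ => Nat.zero_le _)
      (Finset.mem_univ j)
  -- saturation
  have hsat' : ∀ (p : ℝ[X]) (x : Fin c × Fin 2 → ℝ[X]), p ≠ 0 → p • x ∈ lat η' →
      x ∈ lat η' := by
    intro p x hp hpx
    obtain ⟨T, hT⟩ := hdeg x
    have h1 := hfrom (p.natDegree + T) (p • x) hpx (fun j => by
      rw [Pi.smul_apply, smul_eq_mul]
      exact natDegree_mul_le.trans (Nat.add_le_add_left (hT j) _))
    have h2 : (fun j => mbi ℝ x0 (p.natDegree + T) ((p • x) j))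
        = mbi ℝ x0 p.natDegree p • fun j => mbi ℝ x0 T (x j) := by
      funext j
      rw [Pi.smul_apply, Pi.smul_apply, smul_eq_mul, smul_eq_mul, mbi_mul le_rfl (hT j)]
    rw [h2] at h1
    have h3 : mbi ℝ x0 p.natDegree p ≠ 0 := by
      intro h
      apply hp
      rw [← mb_mbi x0 p.natDegree p, h, map_zero]
    have h4 := hto T _ (hsat _ _ h3 h1) (fun j => mbi_natDegree (hT j))
    have h5 : (fun j => mb ℝ x0 T (mbi ℝ x0 T (x j))) = x := funext fun j => mb_mbi _ _ _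
    rw [h5] at h4
    exact h4
  -- the kernel vector
  obtain ⟨Tκ, hTκ⟩ := hdeg κ
  set κ' : Fin c × Fin 2 → ℝ[X] := fun j => mb ℝ x0 Tκ (κ j) with hκ'
  have hκ'mem : κ' ∈ lat η' := hto Tκ κ hκ hTκ
  have hκ'0 : κ' ≠ 0 := by
    intro h
    apply hκ0
    funext j
    exact mb_eq_zero.mp (congrFun h j)
  have hAκ' : Ar (mA x0 D w A) κ' = 0 := (Ar_mA_zero hA hTκ).mpr hAκ
  have hone' : ∀ x ∈ lat η', Ar (mA x0 D w A) x = 0 →
      ∃ p : ℝ[X], p ≠ 0 ∧ ∃ q : ℝ[X], p • x = q • κ' := by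
    intro x hx hAx
    obtain ⟨T, hT⟩ := hdeg x
    set y : Fin c × Fin 2 → ℝ[X] := fun j => mbi ℝ x0 T (x j) with hy
    have hyx : (fun j => mb ℝ x0 T (y j)) = x := funext fun j => mb_mbi _ _ _
    have hyT : ∀ j, (y j).natDegree ≤ T := fun j => mbi_natDegree (hT j)
    have hAy : Ar A y = 0 := by
      rw [← Ar_mA_zero (x0 := x0) hA hyT, hyx]
      exact hAx
    obtain ⟨p, hp, q, hpq⟩ := hone y (hfrom T x hx hT) hAy
    set N : ℕ := p.natDegree + q.natDegree + T + Tκ with hN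
    refine ⟨mb ℝ x0 (N - T) p, fun h => hp (mb_eq_zero.mp h), mb ℝ x0 (N - Tκ) q, ?_⟩
    funext j
    have h1 := congrArg (mb ℝ x0 N) (congrFun hpq j)
    rw [Pi.smul_apply, Pi.smul_apply, smul_eq_mul, smul_eq_mul] at h1
    have h2 := mb_mul (x0 := x0) (n := N - T) (m := T) (p := p) (q := y j) (by omega) (hyT j)
    have h3 := mb_mul (x0 := x0) (n := N - Tκ) (m := Tκ) (p := q) (q := κ j) (by omega) (hTκ j)
    rw [Nat.sub_add_cancel (by omega)] at h2 h3
    rw [h2, h3] at h1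
    rw [Pi.smul_apply, Pi.smul_apply, smul_eq_mul, smul_eq_mul, ← hyx]
    exact h1
  refine core ha hc hw hD (A := mA x0 D w A) ?_ (hgen.mA x0) hδq hη' hsat' T' ?_ ?_ hκ'mem hκ'0
    hAκ' hone'
  · intro i j k hk
    refine coeff_eq_zero_of_natDegree_lt ?_
    have h1 : (mA x0 D w A i j).natDegree ≤ D - w i := by
      refine mb_natDegree ?_
      rw [natDegree_le_iff_coeff_eq_zero]
      intro l hl
      exact hA i j l (by omega)
    have h2 := hw i
    have h3 : 1 ≤ D := by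
      by_contra hcon
      have h0 : D = 0 := by omega
      have hb1 : 1 ≤ b := by have := i.2; omega
      have h2 : 1 * 1 ≤ a * b := Nat.mul_le_mul ha hb1
      rw [h0, mul_zero, mul_zero] at hD
      omega
    omega
  · have h1 : (fun k : T' => fun j : Fin c => (cx (η' k) j).coeff (δ k))
        = fun k : {k // k ∈ T'} => fun j : Fin c => (cx (η k) j).eval (x0 : ℂ) := by
      funext k j
      rw [hcxη', mb_coeff_top]
    rw [h1]
    exact hli2
  · intro k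
    by_cases hk : k ∈ T'
    · refine ⟨1, one_ne_zero, ?_⟩
      rw [one_smul]
      exact Submodule.subset_span ⟨⟨k, hk⟩, rfl⟩
    · obtain ⟨q, hq, hqk, hqs⟩ := hT2 k hk
      set N : ℕ := ∑ l, ((q l).natDegree + δ l) with hN
      have hNl : ∀ l, (q l).natDegree + δ l ≤ N := fun l =>
        Finset.single_le_sum (f := fun l => (q l).natDegree + δ l) (fun _ _ => Nat.zero_le _)
          (Finset.mem_univ l)
      refine ⟨mb ℂ x0 (N - δ k) (q k), fun h => hqk (mb_eq_zero.mp h), ?_⟩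
      have h1 : ∑ l, mb ℂ x0 (N - δ l) (q l) • cx (η' l) = 0 := by
        funext j
        have h2 := congrArg (mb ℂ x0 N) (congrFun hqs j)
        rw [Finset.sum_apply, map_sum, Pi.zero_apply, map_zero] at h2
        rw [Finset.sum_apply, Pi.zero_apply, ← h2]
        refine Finset.sum_congr rfl fun l _ => ?_
        rw [Pi.smul_apply, Pi.smul_apply, smul_eq_mul, smul_eq_mul, hcxη']
        have h3 := mb_mul (x0 := x0) (n := N - δ l) (m := δ l) (p := q l) (q := cx (η l) j)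
          (by have := hNl l; omega) (hcxdeg l j)
        rw [Nat.sub_add_cancel (by have := hNl l; omega)] at h3
        exact h3.symm
      have h2 := rel_mem_span (u := fun _ : Fin 0 => (0 : Fin c → ℂ[X]))
        (v := fun l => cx (η' l)) hk (p := fun _ => 0)
        (q := fun l => mb ℂ x0 (N - δ l) (q l))
        (fun l hl => by rw [hq l hl, map_zero]) (by simpa using h1)
      refine (Submodule.span_le.mpr ?_) h2
      rintro _ ⟨x | l, rfl⟩
      · exact x.elim0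
      · exact Submodule.subset_span ⟨l, rfl⟩

theorem no_corank_one2 {a b c q D : ℕ} (ha : 1 ≤ a) (hc : c = a + b)
    {w w' : Fin b → ℕ} (hw : ∀ i, w i + w' i = 1)
    (hD : (2 * c - 1) * q + 4 * (a * b) + 2 * ∑ i, w i ≤ 2 * (b * D) + 1)
    {A : Fin b → Fin c → ℂ[X]} (hA : ∀ i j k, D + 1 ≤ k + w i → (A i j).coeff k = 0)
    (hgen : Gen2 A (2 * c * ∑ i, (D + 1 - w i)))
    {δ : Fin (2 * b) → ℕ} (hδq : ∑ k, δ k ≤ q)
    {η0 : Fin (2 * b) → Fin c × Fin 2 → ℝ[X]} (hη0 : RB (w2 w0) δ η0) (k0 : Fin (2 * b))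
    (hli0 : ∀ p : Fin (2 * b) → ℝ[X], p k0 = 0 → ∑ k, p k • Ar A (η0 k) = 0 → p = 0)
    (hdep0 : ∃ p : Fin (2 * b) → ℝ[X], p k0 ≠ 0 ∧ ∑ k, p k • Ar A (η0 k) = 0) : False := by
  obtain ⟨δ', η, hη, hle, hsum, hsat, htor⟩ := exists_saturated (fun _ => rfl) hη0
  obtain ⟨p0, hp0, hp0s⟩ := hdep0
  have hAsum : ∀ p : Fin (2 * b) → ℝ[X], Ar A (∑ k, p k • η0 k) = ∑ k, p k • Ar A (η0 k) := by
    intro p
    rw [map_sum]
    exact Finset.sum_congr rfl fun k _ => map_smul _ _ _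
  set κ : Fin c × Fin 2 → ℝ[X] := ∑ k, p0 k • η0 k with hκ
  have hκ0 : κ ≠ 0 := by
    intro h
    have h1 := hη0.li
    rw [Fintype.linearIndependent_iff] at h1
    exact hp0 (h1 p0 h k0)
  have hone0 : ∀ x ∈ lat η0, Ar A x = 0 → p0 k0 • x ∈ Submodule.span ℝ[X] {κ} := by
    intro x hx hAx
    obtain ⟨q, rfl⟩ := mem_lat.mp hx
    rw [hAsum] at hAx
    have h1 := hli0 (fun k => p0 k0 * q k - q k0 * p0 k) (by ring) (by
      have : ∑ k, (p0 k0 * q k - q k0 * p0 k) • Ar A (η0 k)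
          = p0 k0 • ∑ k, q k • Ar A (η0 k) - q k0 • ∑ k, p0 k • Ar A (η0 k) := by
        rw [Finset.smul_sum, Finset.smul_sum, ← Finset.sum_sub_distrib]
        exact Finset.sum_congr rfl fun k _ => by rw [sub_smul, mul_smul, mul_smul]
      rw [this, hAx, hp0s, smul_zero, smul_zero, sub_zero])
    have h2 : p0 k0 • ∑ k, q k • η0 k = q k0 • κ := by
      rw [hκ, Finset.smul_sum, Finset.smul_sum]
      refine Finset.sum_congr rfl fun k _ => ?_
      have h3 := congrFun h1 k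
      simp only [Pi.zero_apply] at h3
      rw [smul_smul, smul_smul, sub_eq_zero.mp h3]
    rw [h2]
    exact Submodule.smul_mem _ _ (Submodule.mem_span_singleton_self κ)
  refine no_corank_sat ha hc hw hD hA hgen (hsum.trans hδq) hη hsat (κ := κ)
    (hle (mem_lat.mpr ⟨p0, rfl⟩)) hκ0 (by rw [hκ, hAsum, hp0s]) ?_
  intro x hx hAx
  obtain ⟨r, hr, hrx⟩ := htor x hx
  have h1 := hone0 (r • x) hrx (by rw [map_smul, hAx, smul_zero])
  obtain ⟨s, hs⟩ := Submodule.mem_span_singleton.mp h1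
  exact ⟨p0 k0 * r, mul_ne_zero hp0 hr, s, by rw [mul_smul]; exact hs.symm⟩

end

end Pool.Agent.Helper730_PP
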