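import Pool.Agent.Helper730_PP.Form

/-!
# Row reduction for `p = 2`, and the reduction to one bad balanced plant

For a generic point of the coefficient space the row degrees of a row reduced representation are
`⌊n/2⌋` and `⌈n/2⌉`.  Hence a single bad plant with these row degrees that stays bad under small
perturbations of its coefficients shows that generic pole placement fails.
-/

open Polynomial Matrix

namespace Pool.Agent.Helper730_PP

noncomputable section

theorem coeff_mul_top {u g : ℝ[X]} {e M : ℕ} (hu : u = 0 ∨ u.natDegree + e ≤ M)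
    (hg : g.natDegree ≤ e) : (u * g).coeff M = u.coeff (M - e) * g.coeff e := by
  rcases hu with rfl | hu
  · simp
  · have h1 : M = (M - e) + e := by omega
    conv_lhs => rw [h1]
    exact coeff_mul_add_eq_of_natDegree_le (by omega) hg

/-- The predictable degree property. -/
theorem predictable {N n e0 e1 : ℕ} {q0 q1 : Fin N → ℝ[X]} {u v : ℝ[X]}
    (h0 : ∀ j, (q0 j).natDegree ≤ e0) (h1 : ∀ j, (q1 j).natDegree ≤ e1)
    (hind : ∀ α β : ℝ, (∀ j, α * (q0 j).coeff e0 + β * (q1 j).coeff e1 = 0) → α = 0 ∧ β = 0)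
    (hr : ∀ j, (u * q0 j + v * q1 j).natDegree ≤ n) :
    (u = 0 ∨ u.natDegree + e0 ≤ n) ∧ (v = 0 ∨ v.natDegree + e1 ≤ n) := by
  set A : ℕ := if u = 0 then 0 else u.natDegree + e0 with hA
  set B : ℕ := if v = 0 then 0 else v.natDegree + e1 with hB
  have hu : u = 0 ∨ u.natDegree + e0 ≤ max A B := by
    by_cases h : u = 0
    · exact Or.inl h
    · right; rw [hA, if_neg h]; exact le_max_left _ _
  have hv : v = 0 ∨ v.natDegree + e1 ≤ max A B := by
    by_cases h : v = 0
    · exact Or.inl h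
    · right; rw [hB, if_neg h]; exact le_max_right _ _
  have hM : max A B ≤ n := by
    by_contra hcon
    push Not at hcon
    have key : ∀ j, u.coeff (max A B - e0) * (q0 j).coeff e0
        + v.coeff (max A B - e1) * (q1 j).coeff e1 = 0 := by
      intro j
      rw [← coeff_mul_top hu (h0 j), ← coeff_mul_top hv (h1 j), ← coeff_add]
      exact coeff_eq_zero_of_natDegree_lt (lt_of_le_of_lt (hr j) hcon)
    obtain ⟨k1, k2⟩ := hind _ _ key
    rcases le_total A B with hAB | hAB
    · rw [max_eq_right hAB] at k2 hcon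
      have hv0 : v ≠ 0 := by
        intro h; rw [hB, if_pos h] at hcon; omega
      rw [hB, if_neg hv0, Nat.add_sub_cancel] at k2
      exact hv0 (leadingCoeff_eq_zero.mp k2)
    · rw [max_eq_left hAB] at k1 hcon
      have hu0 : u ≠ 0 := by
        intro h; rw [hA, if_pos h] at hcon; omega
      rw [hA, if_neg hu0, Nat.add_sub_cancel] at k1
      exact hu0 (leadingCoeff_eq_zero.mp k1)
  exact ⟨hu.imp id (fun h => h.trans hM), hv.imp id (fun h => h.trans hM)⟩

theorem natDegree_le_pred {g : ℝ[X]} {d : ℕ} (h : g.natDegree ≤ d + 1)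
    (h0 : g.coeff (d + 1) = 0) : g.natDegree ≤ d := by
  rw [natDegree_le_iff_coeff_eq_zero]
  intro k hk
  rcases Nat.lt_or_ge (d + 1) k with h1 | h1
  · exact coeff_eq_zero_of_natDegree_lt (lt_of_le_of_lt h h1)
  · rw [show k = d + 1 by omega]; exact h0

/-- Row reduction of two rows of full rank. -/
theorem rowred {N : ℕ} : ∀ (s : ℕ) (r0 r1 : Fin N → ℝ[X]) (d0 d1 : ℕ), d0 + d1 ≤ s → d0 ≤ d1 →
    (∀ j, (r0 j).natDegree ≤ d0) → (∀ j, (r1 j).natDegree ≤ d1) →
    (∃ i j, r0 i * r1 j - r0 j * r1 i ≠ 0) →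
    ∃ (q0 q1 : Fin N → ℝ[X]) (e0 e1 : ℕ) (u v w z : ℝ[X]) (δ : ℝ), δ ≠ 0 ∧
      u * z - v * w = C δ ∧
      (∀ j, r0 j = u * q0 j + v * q1 j) ∧ (∀ j, r1 j = w * q0 j + z * q1 j) ∧ e0 ≤ e1 ∧
      (∀ j, (q0 j).natDegree ≤ e0) ∧ (∀ j, (q1 j).natDegree ≤ e1) ∧
      (∀ α β : ℝ, (∀ j, α * (q0 j).coeff e0 + β * (q1 j).coeff e1 = 0) → α = 0 ∧ β = 0) := by
  intro s
  induction s with
  | zero =>
    intro r0 r1 d0 d1 hs hle h0 h1 ⟨i, j, hij⟩
    have hd0 : d0 = 0 := by omega
    have hd1 : d1 = 0 := by omega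
    subst hd0; subst hd1
    have c0 : ∀ j, r0 j = C ((r0 j).coeff 0) := fun j =>
      eq_C_of_natDegree_le_zero (h0 j)
    have c1 : ∀ j, r1 j = C ((r1 j).coeff 0) := fun j =>
      eq_C_of_natDegree_le_zero (h1 j)
    refine ⟨r0, r1, 0, 0, 1, 0, 0, 1, 1, one_ne_zero, by simp, by simp, by simp, le_refl _,
      h0, h1, ?_⟩
    intro α β hαβ
    have e1 := hαβ i
    have e2 := hαβ j
    have hdet : (r0 i).coeff 0 * (r1 j).coeff 0 - (r0 j).coeff 0 * (r1 i).coeff 0 ≠ 0 := by
      intro h
      apply hij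
      rw [c0 i, c0 j, c1 i, c1 j, ← C_mul, ← C_mul, ← C_sub, h, C_0]
    constructor
    · have : α * ((r0 i).coeff 0 * (r1 j).coeff 0 - (r0 j).coeff 0 * (r1 i).coeff 0) = 0 := by
        linear_combination (r1 j).coeff 0 * e1 - (r1 i).coeff 0 * e2
      exact (mul_eq_zero.mp this).resolve_right hdet
    · have : β * ((r0 i).coeff 0 * (r1 j).coeff 0 - (r0 j).coeff 0 * (r1 i).coeff 0) = 0 := by
        linear_combination (r0 i).coeff 0 * e2 - (r0 j).coeff 0 * e1
      exact (mul_eq_zero.mp this).resolve_right hdet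
  | succ s ih =>
    intro r0 r1 d0 d1 hs hle h0 h1 hrk
    by_cases hind : ∀ α β : ℝ, (∀ j, α * (r0 j).coeff d0 + β * (r1 j).coeff d1 = 0) →
        α = 0 ∧ β = 0
    · exact ⟨r0, r1, d0, d1, 1, 0, 0, 1, 1, one_ne_zero, by simp, by simp, by simp, hle,
        h0, h1, hind⟩
    push Not at hind
    obtain ⟨α, β, hαβ, hne⟩ := hind
    by_cases hβ : β = 0
    · -- the leading vector of `r0` vanishes
      have hα : α ≠ 0 := fun h => hne h hβ
      have hlead : ∀ j, (r0 j).coeff d0 = 0 := by
        intro j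
        have := hαβ j
        rw [hβ, zero_mul, add_zero] at this
        exact (mul_eq_zero.mp this).resolve_left hα
      rcases Nat.eq_zero_or_pos d0 with hd | hd
      · exfalso
        obtain ⟨i, j, hij⟩ := hrk
        have z0 : ∀ j, r0 j = 0 := by
          intro j
          have h2 := eq_C_of_natDegree_le_zero (by simpa [hd] using h0 j : (r0 j).natDegree ≤ 0)
          have h3 := hlead j
          rw [hd] at h3
          rw [h2, h3, C_0]
        apply hij
        rw [z0 i, z0 j]; ring
      · obtain ⟨d, rfl⟩ : ∃ d, d0 = d + 1 := ⟨d0 - 1, by omega⟩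
        exact ih r0 r1 d d1 (by omega) (by omega)
          (fun j => natDegree_le_pred (h0 j) (hlead j)) h1 hrk
    · -- reduce `r1`
      set k : ℝ[X] := C (α / β) * X ^ (d1 - d0) with hk
      set r1' : Fin N → ℝ[X] := fun j => r1 j + k * r0 j with hr1'
      have hdeg : ∀ j, (r1' j).natDegree ≤ d1 := by
        intro j
        refine (natDegree_add_le _ _).trans (max_le (h1 j) ?_)
        refine natDegree_mul_le.trans ?_
        have h2 : k.natDegree ≤ d1 - d0 := natDegree_C_mul_X_pow_le _ _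
        have h3 := h0 j
        omega
      have hcoef : ∀ j, (r1' j).coeff d1 = 0 := by
        intro j
        have h2 : (k * r0 j).coeff d1 = α / β * (r0 j).coeff d0 := by
          rw [hk, mul_assoc, coeff_C_mul]
          congr 1
          conv_lhs => rw [show d1 = d0 + (d1 - d0) by omega]
          rw [show d0 + (d1 - d0) - d0 = d1 - d0 by omega, X_pow_mul, coeff_mul_X_pow]
        rw [hr1']
        simp only [coeff_add]
        rw [h2]
        have h3 := hαβ j
        field_simp
        linear_combination h3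
      have hrk' : ∃ i j, r0 i * r1' j - r0 j * r1' i ≠ 0 := by
        obtain ⟨i, j, hij⟩ := hrk
        refine ⟨i, j, ?_⟩
        intro h
        apply hij
        rw [hr1'] at h
        linear_combination h
      have hback : ∀ j, r1 j = r1' j - k * r0 j := by
        intro j; rw [hr1']; ring
      rcases Nat.eq_zero_or_pos d1 with hd | hd
      · exfalso
        obtain ⟨i, j, hij⟩ := hrk'
        have z0 : ∀ j, r1' j = 0 := by
          intro j
          have h2 := eq_C_of_natDegree_le_zero (by simpa [hd] using hdeg j : (r1' j).natDegree ≤ 0)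
          have h3 := hcoef j
          rw [hd] at h3
          rw [h2, h3, C_0]
        apply hij
        rw [z0 i, z0 j]; ring
      · obtain ⟨d, rfl⟩ : ∃ d, d1 = d + 1 := ⟨d1 - 1, by omega⟩
        have hdeg' : ∀ j, (r1' j).natDegree ≤ d := fun j => natDegree_le_pred (hdeg j) (hcoef j)
        by_cases hd0 : d0 ≤ d
        · obtain ⟨q0, q1, e0, e1, u, v, w, z, δ, hδ, hdet, k0, k1, hle', b0, b1, hi⟩ :=
            ih r0 r1' d0 d (by omega) hd0 h0 hdeg' hrk'
          refine ⟨q0, q1, e0, e1, u, v, w - k * u, z - k * v, δ, hδ, ?_, k0, ?_, hle', b0, b1, hi⟩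
          · rw [← hdet]; ring
          · intro j
            rw [hback j, k1 j, k0 j]; ring
        · have hrk'' : ∃ i j, r1' i * r0 j - r1' j * r0 i ≠ 0 := by
            obtain ⟨i, j, hij⟩ := hrk'
            refine ⟨j, i, ?_⟩
            intro h
            apply hij
            linear_combination h
          obtain ⟨q0, q1, e0, e1, u, v, w, z, δ, hδ, hdet, k0, k1, hle', b0, b1, hi⟩ :=
            ih r1' r0 d d0 (by omega) (by omega) hdeg' h0 hrk''
          refine ⟨q0, q1, e0, e1, w, z, u - k * w, v - k * z, -δ, neg_ne_zero.mpr hδ, ?_, k1, ?_,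
            hle', b0, b1, hi⟩
          · rw [C_neg, ← hdet]; ring
          · intro j
            rw [hback j, k0 j, k1 j]; ring

theorem fullMinor_two {N : ℕ} (P : PolyMat 2 N) (e : Fin 2 → Fin N) :
    fullMinor P e = P 0 (e 0) * P 1 (e 1) - P 0 (e 1) * P 1 (e 0) := by
  unfold fullMinor
  rw [Matrix.det_fin_two]
  rfl

/-- Balanced row reduction of a point of the coefficient space which is not in the closed set given
by the vanishing of a Gram determinant. -/
theorem exists_reduction {m n : ℕ} {P : PolyMat 2 (m + 2)} (hP : P ∈ coeffSpace m 2 n)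
    (hg : ∀ z v : ℝ[X], z.natDegree ≤ n → v.natDegree ≤ n →
      (∀ j k, n / 2 ≤ k → (z * P 0 j + v * P 1 j).coeff k = 0) → z = 0 ∧ v = 0) :
    ∃ (Q : PolyMat 2 (m + 2)) (u v w z : ℝ[X]) (δ : ℝ), δ ≠ 0 ∧ u * z - v * w = C δ ∧
      (∀ j, P 0 j = u * Q 0 j + v * Q 1 j) ∧ (∀ j, P 1 j = w * Q 0 j + z * Q 1 j) ∧
      (∀ j, (Q 0 j).natDegree ≤ n / 2) ∧ (∀ j, (Q 1 j).natDegree ≤ n - n / 2) ∧
      (u = 0 ∨ u.natDegree + n / 2 ≤ n) ∧ (v = 0 ∨ v.natDegree + (n - n / 2) ≤ n) ∧
      (w = 0 ∨ w.natDegree + n / 2 ≤ n) ∧ (z = 0 ∨ z.natDegree + (n - n / 2) ≤ n) := by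
  obtain ⟨hdeg, hmin, e, he, hen⟩ := hP
  rw [fullMinor_two] at he hen
  have hrk : ∃ i j, P 0 i * P 1 j - P 0 j * P 1 i ≠ 0 := ⟨e 0, e 1, he⟩
  obtain ⟨q0, q1, e0, e1, u, v, w, z, δ, hδ, hdet, k0, k1, hle, b0, b1, hi⟩ :=
    rowred (n + n) (P 0) (P 1) n n (le_refl _) (le_refl _) (fun j => hdeg 0 j)
      (fun j => hdeg 1 j) hrk
  obtain ⟨pu, pv⟩ := predictable (n := n) b0 b1 hi (u := u) (v := v)
    (fun j => by rw [← k0 j]; exact hdeg 0 j)
  obtain ⟨pw, pz⟩ := predictable (n := n) b0 b1 hi (u := w) (v := z)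
    (fun j => by rw [← k1 j]; exact hdeg 1 j)
  -- minors
  have hminor : ∀ i j, P 0 i * P 1 j - P 0 j * P 1 i = C δ * (q0 i * q1 j - q0 j * q1 i) := by
    intro i j
    rw [← hdet, k0, k0, k1, k1]; ring
  have hCδ : (C δ : ℝ[X]) ≠ 0 := by simpa using hδ
  have hsum : e0 + e1 = n := by
    apply le_antisymm
    · -- some minor of the leading vectors is nonzero
      obtain ⟨i, j, hij⟩ : ∃ i j, (q0 i).coeff e0 * (q1 j).coeff e1
          - (q0 j).coeff e0 * (q1 i).coeff e1 ≠ 0 := by
        by_contra hcon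
        push Not at hcon
        obtain ⟨i, hi0⟩ : ∃ i, (q0 i).coeff e0 ≠ 0 := by
          by_contra hc
          push Not at hc
          have := hi 1 0 (fun j => by rw [hc j]; simp)
          exact one_ne_zero this.1
        have := hi (-(q1 i).coeff e1) ((q0 i).coeff e0)
          (fun j => by linear_combination hcon i j)
        exact hi0 this.2
      have hco : (P 0 i * P 1 j - P 0 j * P 1 i).coeff (e0 + e1) ≠ 0 := by
        rw [hminor, coeff_C_mul, coeff_sub, coeff_mul_add_eq_of_natDegree_le (b0 i) (b1 j),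
          coeff_mul_add_eq_of_natDegree_le (b0 j) (b1 i)]
        exact mul_ne_zero hδ hij
      have h1 := le_natDegree_of_ne_zero hco
      have h2 := hmin ![i, j]
      rw [fullMinor_two] at h2
      exact h1.trans h2
    · rw [← hen, hminor]
      refine natDegree_mul_le.trans ?_
      rw [natDegree_C, zero_add]
      refine (natDegree_sub_le _ _).trans (max_le ?_ ?_)
      · exact natDegree_mul_le.trans (add_le_add (b0 _) (b1 _))
      · exact natDegree_mul_le.trans (add_le_add (b0 _) (b1 _))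
  have he0 : e0 = n / 2 := by
    by_contra hcon
    have hlt : e0 < n / 2 := by omega
    have h3 := hg z (-v) ?_ ?_ ?_
    · have hv0 : v = 0 := neg_eq_zero.mp h3.2
      rw [h3.1, hv0] at hdet
      apply hCδ
      rw [← hdet]; ring
    · rcases pz with h | h
      · rw [h]; simp
      · omega
    · rw [natDegree_neg]
      rcases pv with h | h
      · rw [h]; simp
      · omega
    · intro j k hk
      have : z * P 0 j + -v * P 1 j = C δ * q0 j := by
        rw [← hdet, k0 j, k1 j]; ring
      rw [this, coeff_C_mul, coeff_eq_zero_of_natDegree_lt (lt_of_le_of_lt (b0 j) (by omega)),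
        mul_zero]
  have he1 : e1 = n - n / 2 := by omega
  subst he0
  subst he1
  exact ⟨Matrix.of ![q0, q1], u, v, w, z, δ, hδ, hdet, k0, k1, b0, b1, pu, pv, pw, pz⟩

end

end Pool.Agent.Helper730_PP
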