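import Pool.Agent.Helper730_PP.StructXi

/-!
# The determinant of the stacked matrix under change of basis and under rotation
-/

open Polynomial Matrix

namespace Pool.Agent.Helper730_PP

noncomputable section

theorem det_stack_mul_left {m p : ℕ} (T : Matrix (Fin m) (Fin m) ℝ[X]) (P : PolyMat m (m + p))
    (Q : PolyMat p (m + p)) : (stack (T * P) Q).det = T.det * (stack P Q).det := by
  set M : Matrix (Fin (m + p)) (Fin (m + p)) ℝ[X] :=
    (Matrix.fromBlocks T 0 0 (1 : Matrix (Fin p) (Fin p) ℝ[X])).submatrix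
      (finSumFinEquiv (m := m) (n := p)).symm (finSumFinEquiv (m := m) (n := p)).symm with hM
  have hdet : M.det = T.det := by
    rw [hM, Matrix.det_submatrix_equiv_self, Matrix.det_fromBlocks_zero₂₁, Matrix.det_one, mul_one]
  have hmul : stack (T * P) Q = M * stack P Q := by
    refine Matrix.ext fun i j => ?_
    rw [Matrix.mul_apply, Fin.sum_univ_add]
    refine Fin.addCases (fun i => ?_) (fun i => ?_) i
    · rw [stack_castAdd, hM]
      simp only [Matrix.submatrix_apply, finSumFinEquiv_symm_apply_castAdd,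
        finSumFinEquiv_symm_apply_natAdd, Matrix.fromBlocks_apply₁₁, Matrix.fromBlocks_apply₁₂,
        Matrix.zero_apply, zero_mul, Finset.sum_const_zero, add_zero, stack_castAdd]
      exact Matrix.mul_apply
    · rw [stack_natAdd, hM]
      simp only [Matrix.submatrix_apply, finSumFinEquiv_symm_apply_castAdd,
        finSumFinEquiv_symm_apply_natAdd, Matrix.fromBlocks_apply₂₁, Matrix.fromBlocks_apply₂₂,
        Matrix.zero_apply, zero_mul, Finset.sum_const_zero, zero_add, stack_natAdd]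
      rw [Finset.sum_eq_single i]
      · rw [Matrix.one_apply_eq, one_mul]
      · intro b _ hb
        rw [Matrix.one_apply_ne (Ne.symm hb), zero_mul]
      · intro h; exact absurd (Finset.mem_univ _) h
  rw [hmul, Matrix.det_mul, hdet]

variable {b c m : ℕ}

theorem rowRe_eq_dl {N : ℕ} (e : Fin c × Fin 2 ≃ Fin N) (A : Fin c → ℂ[X]) (x : Fin c × Fin 2) :
    rowRe e A (e x) = dl A x := by
  unfold rowRe dl
  rw [Equiv.symm_apply_apply]

theorem rowIm_eq_dl {N : ℕ} (e : Fin c × Fin 2 ≃ Fin N) (A : Fin c → ℂ[X]) (x : Fin c × Fin 2) :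
    rowIm e A (e x) = rotL _ Complex.I (dl A) x := by
  unfold rowIm
  rw [Equiv.symm_apply_apply]
  obtain ⟨j, s⟩ := x
  have h1 : ∀ j, ((C Complex.I : ℂ[X]) • cx (dl A)) j = io (imP (A j)) + II * io (reP (A j)) := by
    intro j
    rw [Pi.smul_apply, smul_eq_mul]
    show II * (io (reP (A j)) + II * io (- imP (A j))) = _
    rw [map_neg]
    linear_combination (-io (imP (A j))) * II_sq
  have h2 := reP_of (h1 j)
  fin_cases s
  · exact h2.1.symm
  · exact h2.2.symm

theorem rotL_eq (ζ : ℂ) (v : Fin c × Fin 2 → ℝ[X]) :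
    rotL _ ζ v = (C ζ.re : ℝ[X]) • v + (C ζ.im : ℝ[X]) • rotL _ Complex.I v := by
  apply cx_injective
  rw [cx_add, cx_smul, cx_smul, cx_rotL, cx_rotL, smul_smul, ← add_smul]
  congr 1
  ext k
  have h1 : ∀ r : ℝ, io (C r) = C (r : ℂ) := by
    intro r
    ext l
    rw [io_coeff, coeff_C, coeff_C]
    split_ifs <;> simp
  rw [h1, h1, ← C_mul, ← C_add]
  congr 2
  exact (Complex.re_add_im ζ).symm

/-- The matrix of the rotation. -/
def Rm {N : ℕ} (e : Fin c × Fin 2 ≃ Fin N) (ζ : ℂ) : Matrix (Fin N) (Fin N) ℝ[X] :=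
  Matrix.of fun x y => rotL _ ζ (Pi.single (e.symm x) 1) (e.symm y)

theorem vecMul_Rm {N : ℕ} (e : Fin c × Fin 2 ≃ Fin N) (ζ : ℂ) (v : Fin N → ℝ[X]) (y : Fin N) :
    Matrix.vecMul v (Rm e ζ) y = rotL _ ζ (fun x => v (e x)) (e.symm y) := by
  have h1 : (fun x => v (e x)) = ∑ x, v x • (Pi.single (e.symm x) 1 : Fin c × Fin 2 → ℝ[X]) := by
    funext z
    rw [Finset.sum_apply, Finset.sum_eq_single (e z)]
    · simp
    · intro x _ hx
      rw [Pi.smul_apply, Pi.single_eq_of_ne, smul_zero]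
      intro h
      exact hx (by rw [h, Equiv.apply_symm_apply])
    · intro h; exact absurd (Finset.mem_univ _) h
  rw [h1, map_sum, Finset.sum_apply, Matrix.vecMul, dotProduct]
  refine Finset.sum_congr rfl fun x _ => ?_
  rw [map_smul]
  rfl

theorem Rm_mul {N : ℕ} (e : Fin c × Fin 2 ≃ Fin N) {ζ : ℂ} (hζ : ζ ≠ 0) :
    Rm e ζ * Rm e ζ⁻¹ = 1 := by
  refine Matrix.ext fun x y => ?_
  have h1 : (Rm e ζ * Rm e ζ⁻¹) x y = Matrix.vecMul (Rm e ζ x) (Rm e ζ⁻¹) y := by
    rw [Matrix.mul_apply, Matrix.vecMul, dotProduct]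
  have h2 : (fun z => Rm e ζ x (e z)) = rotL _ ζ (Pi.single (e.symm x) 1) := by
    funext z
    show rotL _ ζ (Pi.single (e.symm x) 1) (e.symm (e z)) = _
    rw [Equiv.symm_apply_apply]
  rw [h1, vecMul_Rm, h2, rotL_rotL, inv_mul_cancel₀ hζ, rotL_one, Matrix.one_apply]
  by_cases h : x = y
  · rw [if_pos h, h, Pi.single_eq_same]
  · rw [if_neg h, Pi.single_eq_of_ne]
    intro h'
    exact h (e.symm.injective h').symm

/-- The matrix of the rotation on the rows of the plant. -/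
def Tm (b : ℕ) (ζ : ℂ) : Matrix (Fin (2 * b)) (Fin (2 * b)) ℝ :=
  Matrix.of fun r s => if ((rowEquiv b).symm r).1 = ((rowEquiv b).symm s).1 then
    (if ((rowEquiv b).symm r).2 = ((rowEquiv b).symm s).2 then ζ.re
      else if ((rowEquiv b).symm r).2 = 0 then ζ.im else - ζ.im) else 0

theorem realQ_rot (e : Fin c × Fin 2 ≃ Fin (m + 2 * b)) (A : Fin b → Fin c → ℂ[X]) (ζ : ℂ) :
    realQ e A * Rm e ζ = (Tm b ζ).map C * realQ e A := by
  refine Matrix.ext fun r y => ?_
  obtain ⟨⟨i, s⟩, rfl⟩ := (rowEquiv b).surjective r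
  obtain ⟨z, rfl⟩ := e.surjective y
  have h1 : (realQ e A * Rm e ζ) (rowEquiv b (i, s)) (e z)
      = rotL _ ζ (fun x => realQ e A (rowEquiv b (i, s)) (e x)) z := by
    have h := vecMul_Rm e ζ (realQ e A (rowEquiv b (i, s))) (e z)
    rw [Equiv.symm_apply_apply] at h
    rw [← h, Matrix.mul_apply, Matrix.vecMul, dotProduct]
  have h2 : ((Tm b ζ).map C * realQ e A) (rowEquiv b (i, s)) (e z)
      = ∑ u : Fin 2, C (Tm b ζ (rowEquiv b (i, s)) (rowEquiv b (i, u)))
        * realQ e A (rowEquiv b (i, u)) (e z) := by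
    rw [Matrix.mul_apply, ← Equiv.sum_comp (rowEquiv b), Fintype.sum_prod_type,
      Finset.sum_eq_single i]
    · rfl
    · intro j _ hj
      refine Finset.sum_eq_zero fun u _ => ?_
      rw [Matrix.map_apply]
      unfold Tm
      rw [Matrix.of_apply, Equiv.symm_apply_apply, Equiv.symm_apply_apply, if_neg (Ne.symm hj),
        C_0, zero_mul]
    · intro h; exact absurd (Finset.mem_univ _) h
  have hT : ∀ s u : Fin 2, Tm b ζ (rowEquiv b (i, s)) (rowEquiv b (i, u))
      = if s = u then ζ.re else if s = 0 then ζ.im else - ζ.im := by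
    intro s u
    unfold Tm
    rw [Matrix.of_apply, Equiv.symm_apply_apply, Equiv.symm_apply_apply, if_pos rfl]
  have hrow0 : ∀ x, realQ e A (rowEquiv b (i, 0)) (e x) = dl (A i) x := fun x => by
    rw [(realQ_row e A i).1, rowRe_eq_dl]
  have hrow1 : ∀ x, realQ e A (rowEquiv b (i, 1)) (e x) = rotL _ Complex.I (dl (A i)) x :=
    fun x => by rw [(realQ_row e A i).2, rowIm_eq_dl]
  rw [h1, h2, Fin.sum_univ_two, hT, hT, hrow0, hrow1]
  fin_cases s
  · simp only [Fin.zero_eta, if_true, Fin.isValue, zero_ne_one, if_false]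
    rw [funext hrow0, rotL_eq]
    rfl
  · simp only [Fin.mk_one, Fin.isValue, one_ne_zero, if_false, if_true]
    rw [funext hrow1, rotL_eq, rotL_rotL, Complex.I_mul_I]
    have h3 : rotL (Fin c) (-1) (dl (A i)) = - dl (A i) := by
      apply cx_injective
      rw [cx_rotL]
      have h4 : cx (- dl (A i)) = - cx (dl (A i)) := by
        funext j
        show io (- dl (A i) (j, 0)) + II * io (- dl (A i) (j, 1))
          = - (io (dl (A i) (j, 0)) + II * io (dl (A i) (j, 1)))
        rw [map_neg, map_neg]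
        ring
      rw [h4, C_neg, C_1, neg_smul, one_smul]
    rw [h3]
    simp only [Pi.add_apply, Pi.smul_apply, Pi.neg_apply, smul_eq_mul]
    rw [C_neg]
    ring

theorem rot_det (e : Fin c × Fin 2 ≃ Fin (m + 2 * b)) (A : Fin b → Fin c → ℂ[X]) {ζ : ℂ}
    (hζ : ζ ≠ 0) (B : Fin m → Fin (m + 2 * b) → ℝ[X])
    (hne : (stack (Matrix.of B) (realQ e A)).det ≠ 0) :
    ∃ κ : ℝ, κ ≠ 0 ∧ (stack (Matrix.of fun k x => rotL _ ζ (fun z => B k (e z)) (e.symm x))
      (realQ e A)).det = C κ * (stack (Matrix.of B) (realQ e A)).det := by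
  set Bζ : PolyMat m (m + 2 * b) :=
    Matrix.of fun k x => rotL _ ζ (fun z => B k (e z)) (e.symm x) with hBζ
  have h1 : stack (Matrix.of B) (realQ e A) * Rm e ζ = stack Bζ ((Tm b ζ).map C * realQ e A) := by
    refine Matrix.ext fun r y => ?_
    have h2 : (stack (Matrix.of B) (realQ e A) * Rm e ζ) r y
        = Matrix.vecMul (stack (Matrix.of B) (realQ e A) r) (Rm e ζ) y := by
      rw [Matrix.mul_apply, Matrix.vecMul, dotProduct]
    rw [h2]
    refine Fin.addCases (fun k => ?_) (fun k => ?_) r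
    · rw [stack_castAdd, stack_castAdd, vecMul_Rm]
      rfl
    · rw [stack_natAdd, stack_natAdd, ← realQ_rot, Matrix.mul_apply, Matrix.vecMul, dotProduct]
  have h2 := congrArg Matrix.det h1
  rw [Matrix.det_mul, det_stack_mul] at h2
  have hRu : IsUnit (Rm e ζ).det := by
    have h3 := congrArg Matrix.det (Rm_mul e hζ)
    rw [Matrix.det_mul, Matrix.det_one] at h3
    exact IsUnit.of_mul_eq_one _ h3
  obtain ⟨r, hr, hr'⟩ := Polynomial.isUnit_iff.mp hRu
  have hr0 : r ≠ 0 := hr.ne_zero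
  have hT : ((Tm b ζ).map C : Matrix (Fin (2 * b)) (Fin (2 * b)) ℝ[X]).det
      = C (Tm b ζ).det := by
    have := RingHom.map_det (C : ℝ →+* ℝ[X]) (Tm b ζ)
    exact this.symm
  rw [hT, ← hr'] at h2
  have hT0 : (Tm b ζ).det ≠ 0 := by
    intro h0
    rw [h0, C_0, zero_mul] at h2
    rcases mul_eq_zero.mp h2 with h | h
    · exact hne h
    · exact hr0 (C_eq_zero.mp h)
  refine ⟨r / (Tm b ζ).det, div_ne_zero hr0 hT0, ?_⟩
  have h3 : C (Tm b ζ).det⁻¹ * (C (Tm b ζ).det * (stack Bζ (realQ e A)).det)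
      = C (Tm b ζ).det⁻¹ * ((stack (Matrix.of B) (realQ e A)).det * C r) := by rw [h2]
  rw [← mul_assoc, ← C_mul, inv_mul_cancel₀ hT0, C_1, one_mul] at h3
  rw [h3, div_eq_mul_inv, C_mul]
  ring

end

end Pool.Agent.Helper730_PP
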