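import Pool.Agent.Helper730_PP.Defs

/-!
# Row reduction of real polynomial matrices of full row rank
-/

open Polynomial Matrix

namespace Pool.Agent.Helper730_PP

noncomputable section

theorem natDegree_le_pred' {g : ℝ[X]} {d : ℕ} (h : g.natDegree ≤ d)
    (h0 : g.coeff d = 0) : g.natDegree ≤ d - 1 := by
  rw [natDegree_le_iff_coeff_eq_zero]
  intro k hk
  rcases Nat.lt_or_ge d k with h1 | h1
  · exact coeff_eq_zero_of_natDegree_lt (lt_of_le_of_lt h h1)
  · rw [show k = d by omega]; exact h0

/-- The rows have linearly independent leading coefficient vectors. -/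
def RowReduced {p N : ℕ} (Q : Matrix (Fin p) (Fin N) ℝ[X]) (d : Fin p → ℕ) : Prop :=
  ∀ α : Fin p → ℝ, (∀ j, ∑ i, α i * (Q i j).coeff (d i) = 0) → α = 0

theorem det_one_updateRow {p : ℕ} (i0 : Fin p) (v : Fin p → ℝ[X]) :
    ((1 : Matrix (Fin p) (Fin p) ℝ[X]).updateRow i0 v).det = v i0 := by
  rw [← Matrix.cramer_transpose_apply, Matrix.transpose_one, Matrix.cramer_one]
  rfl

theorem rowredG {p N : ℕ} : ∀ (s : ℕ) (P : Matrix (Fin p) (Fin N) ℝ[X]) (d : Fin p → ℕ),
    ∑ i, d i ≤ s → (∀ i j, (P i j).natDegree ≤ d i) →
    (∃ e : Fin p → Fin N, (P.submatrix id e).det ≠ 0) →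
    ∃ (T : Matrix (Fin p) (Fin p) ℝ[X]) (Q : Matrix (Fin p) (Fin N) ℝ[X]) (d' : Fin p → ℕ),
      IsUnit T.det ∧ P = T * Q ∧ (∀ i j, (Q i j).natDegree ≤ d' i) ∧ RowReduced Q d' := by
  intro s
  induction s with
  | zero =>
    intro P d hs hd ⟨e, he⟩
    have hd0 : ∀ i, d i = 0 := by
      intro i
      have := Finset.single_le_sum (f := d) (fun _ _ => Nat.zero_le _) (Finset.mem_univ i)
      omega
    refine ⟨1, P, d, by simp, by simp, hd, ?_⟩
    intro α hα
    by_contra hne
    apply he
    rw [← Matrix.exists_vecMul_eq_zero_iff]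
    refine ⟨fun i => C (α i), ?_, ?_⟩
    · intro h
      apply hne
      funext i
      have := congrFun h i
      simpa using this
    · funext j
      have h1 := hα (e j)
      simp only [Matrix.vecMul, dotProduct, Matrix.submatrix_apply, id, Pi.zero_apply]
      have h2 : ∀ i, C (α i) * P i (e j) = C (α i * (P i (e j)).coeff (d i)) := by
        intro i
        have h3 := hd i (e j)
        rw [hd0 i] at h3
        rw [hd0 i, C_mul]
        conv_lhs => rw [eq_C_of_natDegree_le_zero h3]
      rw [Finset.sum_congr rfl fun i _ => h2 i, ← map_sum, h1, C_0]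
  | succ s ih =>
    intro P d hs hd ⟨e, he⟩
    by_cases hred : RowReduced P d
    · exact ⟨1, P, d, by simp, by simp, hd, hred⟩
    unfold RowReduced at hred
    push Not at hred
    obtain ⟨α, hα, hne⟩ := hred
    -- choose an index of maximal degree in the support
    have hsupp : (Finset.univ.filter fun i => α i ≠ 0).Nonempty := by
      by_contra h
      rw [Finset.not_nonempty_iff_eq_empty] at h
      apply hne
      funext i
      by_contra hi
      have : i ∈ Finset.univ.filter fun i => α i ≠ 0 := by simpa using hi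
      rw [h] at this
      exact absurd this (Finset.notMem_empty i)
    obtain ⟨i0, hi0, hmax⟩ := Finset.exists_max_image _ d hsupp
    rw [Finset.mem_filter] at hi0
    have hi0' : α i0 ≠ 0 := hi0.2
    have hmax' : ∀ i, α i ≠ 0 → d i ≤ d i0 := fun i hi => hmax i (by simpa using hi)
    by_cases hd0 : d i0 = 0
    · exfalso
      apply he
      rw [← Matrix.exists_vecMul_eq_zero_iff]
      refine ⟨fun i => C (α i), ?_, ?_⟩
      · intro h
        apply hne
        funext i
        have := congrFun h i
        simpa using this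
      · funext j
        have h1 := hα (e j)
        simp only [Matrix.vecMul, dotProduct, Matrix.submatrix_apply, id, Pi.zero_apply]
        have h2 : ∀ i, C (α i) * P i (e j) = C (α i * (P i (e j)).coeff (d i)) := by
          intro i
          by_cases hi : α i = 0
          · rw [hi]; simp
          · have hdi : d i = 0 := by
              have := hmax' i hi
              omega
            have h3 := hd i (e j)
            rw [hdi] at h3
            rw [hdi, C_mul]
            conv_lhs => rw [eq_C_of_natDegree_le_zero h3]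
        rw [Finset.sum_congr rfl fun i _ => h2 i, ← map_sum, h1, C_0]
    · set v : Fin p → ℝ[X] := fun i => C (α i) * X ^ (d i0 - d i) with hv
      set E : Matrix (Fin p) (Fin p) ℝ[X] := (1 : Matrix _ _ ℝ[X]).updateRow i0 v with hE
      have hEdet : E.det = C (α i0) := by
        rw [hE, det_one_updateRow, hv]
        simp
      have hEu : IsUnit E.det := by
        rw [hEdet, Polynomial.isUnit_C]
        exact Ne.isUnit hi0'
      have hrow : ∀ i j, (E * P) i j = if i = i0 then ∑ l, v l * P l j else P i j := by
        intro i j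
        rw [Matrix.mul_apply]
        split_ifs with h
        · subst h
          rw [hE]
          exact Finset.sum_congr rfl fun l _ => by rw [Matrix.updateRow_self]
        · rw [hE]
          rw [Finset.sum_eq_single i]
          · rw [Matrix.updateRow_ne h, Matrix.one_apply_eq, one_mul]
          · intro b _ hb
            rw [Matrix.updateRow_ne h, Matrix.one_apply_ne (Ne.symm hb), zero_mul]
          · intro h'; exact absurd (Finset.mem_univ _) h'
      have hvdeg : ∀ j, (∑ l, v l * P l j).natDegree ≤ d i0 := by
        intro j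
        refine natDegree_sum_le_of_forall_le _ _ fun l _ => ?_
        by_cases hl : α l = 0
        · rw [hv]; simp [hl]
        · rw [hv]
          simp only
          rw [mul_assoc]
          refine (natDegree_C_mul_le _ _).trans (natDegree_mul_le.trans ?_)
          rw [natDegree_X_pow]
          have := hmax' l hl
          have := hd l j
          omega
      have hvcoeff : ∀ j, (∑ l, v l * P l j).coeff (d i0) = 0 := by
        intro j
        rw [finsetSum_coeff, ← hα j]
        refine Finset.sum_congr rfl fun l _ => ?_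
        by_cases hl : α l = 0
        · rw [hv]; simp [hl]
        · rw [hv]
          simp only
          rw [mul_assoc, coeff_C_mul]
          congr 1
          have hle := hmax' l hl
          have : d i0 = d l + (d i0 - d l) := by omega
          conv_lhs => rw [this]
          rw [show d l + (d i0 - d l) - d l = d i0 - d l by omega, coeff_X_pow_mul]
      set d1 : Fin p → ℕ := Function.update d i0 (d i0 - 1) with hd1
      have hsum : ∑ i, d1 i ≤ s := by
        have h1 : ∑ i, d1 i + 1 = ∑ i, d i := by
          rw [hd1, Finset.sum_update_of_mem (Finset.mem_univ i0)]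
          have h2 := Finset.add_sum_erase Finset.univ d (Finset.mem_univ i0)
          rw [← h2, Finset.sdiff_singleton_eq_erase]
          omega
        omega
      have hdeg1 : ∀ i j, ((E * P) i j).natDegree ≤ d1 i := by
        intro i j
        rw [hrow]
        by_cases h : i = i0
        · rw [if_pos h, h, hd1, Function.update_self]
          exact natDegree_le_pred' (hvdeg j) (hvcoeff j)
        · rw [if_neg h, hd1, Function.update_of_ne h]
          exact hd i j
      have hrk : ((E * P).submatrix id e).det ≠ 0 := by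
        have h1 : (E * P).submatrix id e = E * P.submatrix id e := by
          ext i j; simp [Matrix.mul_apply]
        rw [h1, Matrix.det_mul]
        exact mul_ne_zero (by rw [hEdet]; simpa using hi0') he
      obtain ⟨T, Q, d', hT, hPQ, hQ, hQr⟩ := ih (E * P) d1 hsum hdeg1 ⟨e, hrk⟩
      refine ⟨E⁻¹ * T, Q, d', ?_, ?_, hQ, hQr⟩
      · rw [Matrix.det_mul]
        exact (Matrix.isUnit_nonsing_inv_det _ hEu).mul hT
      · rw [Matrix.mul_assoc, ← hPQ, ← Matrix.mul_assoc, Matrix.nonsing_inv_mul _ hEu,
          Matrix.one_mul]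

theorem predictableG {p N n : ℕ} {Q : Matrix (Fin p) (Fin N) ℝ[X]} {d : Fin p → ℕ}
    (hQ : ∀ i j, (Q i j).natDegree ≤ d i) (hred : RowReduced Q d) (u : Fin p → ℝ[X])
    (hr : ∀ j, (∑ i, u i * Q i j).natDegree ≤ n) (i : Fin p) :
    u i = 0 ∨ (u i).natDegree + d i ≤ n := by
  by_contra hcon
  push Not at hcon
  set w : Fin p → ℕ := fun i => if u i = 0 then 0 else (u i).natDegree + d i with hw
  obtain ⟨i1, -, hmax⟩ := Finset.exists_max_image Finset.univ w ⟨i, Finset.mem_univ i⟩
  set M : ℕ := w i1 with hM
  have hMn : n < M := by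
    have h1 := hmax i (Finset.mem_univ i)
    have h2 : w i = (u i).natDegree + d i := by rw [hw]; simp [hcon.1]
    have := hcon.2
    omega
  have hi1 : u i1 ≠ 0 := by
    intro h
    have : w i1 = 0 := by rw [hw]; simp [h]
    omega
  have hMi1 : M = (u i1).natDegree + d i1 := by rw [hM, hw]; simp [hi1]
  have hcoef : ∀ j, ∑ i, (u i).coeff (M - d i) * (Q i j).coeff (d i) = 0 := by
    intro j
    have h1 : (∑ i, u i * Q i j).coeff M = 0 := coeff_eq_zero_of_natDegree_lt
      (lt_of_le_of_lt (hr j) hMn)
    rw [finsetSum_coeff] at h1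
    rw [← h1]
    refine Finset.sum_congr rfl fun l _ => ?_
    by_cases hl : u l = 0
    · rw [hl]; simp
    · have h2 := hmax l (Finset.mem_univ l)
      have h3 : w l = (u l).natDegree + d l := by rw [hw]; simp [hl]
      have h4 : (M - d l) + d l = M := by omega
      conv_rhs => rw [← h4]
      exact (coeff_mul_add_eq_of_natDegree_le (by omega) (hQ l j)).symm
  have h0 := congrFun (hred _ hcoef) i1
  simp only [Pi.zero_apply] at h0
  rw [show M - d i1 = (u i1).natDegree by omega] at h0
  exact hi1 (leadingCoeff_eq_zero.mp h0)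

theorem coeff_prod_sum {R ι : Type*} [CommRing R] (s : Finset ι) (f : ι → R[X]) (d : ι → ℕ)
    (h : ∀ i ∈ s, (f i).natDegree ≤ d i) :
    (∏ i ∈ s, f i).natDegree ≤ ∑ i ∈ s, d i ∧
      (∏ i ∈ s, f i).coeff (∑ i ∈ s, d i) = ∏ i ∈ s, (f i).coeff (d i) := by
  classical
  induction s using Finset.induction_on with
  | empty => simp
  | insert a s ha ih =>
    obtain ⟨h1, h2⟩ := ih fun i hi => h i (Finset.mem_insert_of_mem hi)
    have h3 := h a (Finset.mem_insert_self a s)
    rw [Finset.prod_insert ha, Finset.sum_insert ha, Finset.prod_insert ha]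
    exact ⟨natDegree_mul_le.trans (add_le_add h3 h1), by
      rw [coeff_mul_add_eq_of_natDegree_le h3 h1, h2]⟩

theorem det_coeff_sum {R : Type*} [CommRing R] {k : ℕ} (M : Matrix (Fin k) (Fin k) R[X])
    (d : Fin k → ℕ) (h : ∀ i j, (M i j).natDegree ≤ d i) :
    M.det.natDegree ≤ ∑ i, d i ∧
      M.det.coeff (∑ i, d i) = (Matrix.of fun i j => (M i j).coeff (d i)).det := by
  have key : ∀ σ : Equiv.Perm (Fin k), (∏ i, M (σ i) i).natDegree ≤ ∑ i, d i ∧
      (∏ i, M (σ i) i).coeff (∑ i, d i) = ∏ i, (M (σ i) i).coeff (d (σ i)) := by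
    intro σ
    have h1 := coeff_prod_sum Finset.univ (fun i => M (σ i) i) (fun i => d (σ i))
      (fun i _ => h _ _)
    rwa [Equiv.sum_comp σ d] at h1
  rw [Matrix.det_apply', Matrix.det_apply']
  constructor
  · refine natDegree_sum_le_of_forall_le _ _ fun σ _ => ?_
    have h1 : (((Equiv.Perm.sign σ : ℤˣ) : ℤ) : R[X]) = C (((Equiv.Perm.sign σ : ℤˣ) : ℤ) : R) := by
      simp
    rw [h1]
    exact (natDegree_C_mul_le _ _).trans (key σ).1
  · rw [finsetSum_coeff]
    refine Finset.sum_congr rfl fun σ _ => ?_
    have h1 : (((Equiv.Perm.sign σ : ℤˣ) : ℤ) : R[X]) = C (((Equiv.Perm.sign σ : ℤˣ) : ℤ) : R) := by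
      simp
    rw [h1, coeff_C_mul, (key σ).2]
    rfl

end

end Pool.Agent.Helper730_PP
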