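import Pool.Agent.Helper730_PP.Hull2
import Pool.Agent.Helper730_PP.RatRB
import Pool.Agent.Helper730_PP.NoKernel

/-!
# The rows of a complex matrix as functionals on a real lattice
-/

open Polynomial

namespace Pool.Agent.Helper730_PP

noncomputable section

/-- A row vector times a matrix. -/
def rowmul {b c : ℕ} (lam : Fin b → ℂ[X]) (A : Fin b → Fin c → ℂ[X]) : Fin c → ℂ[X] :=
  fun j => ∑ k, lam k * A k j

theorem dotL_rowmul {b c : ℕ} (lam : Fin b → ℂ[X]) (A : Fin b → Fin c → ℂ[X])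
    (z : Fin c → ℂ[X]) : dotL z (rowmul lam A) = dotL (Ac A z) lam := by
  rw [dotL_apply, dotL_apply]
  unfold rowmul
  simp only [Ac_apply, Finset.sum_mul, Finset.mul_sum]
  rw [Finset.sum_comm]
  refine Finset.sum_congr rfl fun k _ => Finset.sum_congr rfl fun j _ => ?_
  ring

theorem rowmul_mem {b c D : ℕ} {w w' : Fin b → ℕ} (hw : ∀ i, w i + w' i = 1)
    {A : Fin b → Fin c → ℂ[X]} (hA : ∀ i j k, D + 1 ≤ k + w i → (A i j).coeff k = 0) {t : ℕ}
    {lam : Fin b → ℂ[X]} (hlam : lam ∈ Lv ℂ w' (t + 1)) : rowmul lam A ∈ Lv ℂ w0 (D + t) := by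
  intro j k hk
  have hk' : D + t ≤ k := hk
  unfold rowmul
  rw [finsetSum_coeff]
  refine Finset.sum_eq_zero fun i _ => ?_
  rw [coeff_mul]
  refine Finset.sum_eq_zero fun x hx => ?_
  rw [Finset.HasAntidiagonal.mem_antidiagonal] at hx
  have h1 := hw i
  by_cases h : t + 1 ≤ x.1 + w' i
  · rw [hlam i _ h, zero_mul]
  · rw [hA i j x.2 (by omega), mul_zero]

/-- The coordinate functionals on a real family. -/
def rho {cf r : ℕ} (û : Fin r → Fin cf × Fin 2 → ℝ[X]) (l : Fin cf) : Fin r → ℂ[X] :=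
  fun k => cx (û k) l

section

variable {c cf r K K1 K2 : ℕ} {y wF : Fin cf → ℕ} {δ1 wX : Fin r → ℕ}
  {π : Fin cf → Fin c → ℂ[X]} {û : Fin r → Fin cf × Fin 2 → ℝ[X]}

theorem rho_mem (hû : ∀ k, cx (û k) ∈ Lv ℂ wF (δ1 k + 1)) (hwF : ∀ l, wF l + y l = K1)
    (hwX : ∀ k, wX k + δ1 k = K2) (hK : K1 + K = K2) (l : Fin cf) :
    rho û l ∈ Lv ℂ wX (K + y l + 1) := by
  intro k j hj
  have h1 := hwF l
  have h2 := hwX k
  exact hû k l j (by omega)

/-- The functional on the real family attached to a functional on the quotient. -/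
def fun_ (û : Fin r → Fin cf × Fin 2 → ℝ[X]) (φ : Fin cf → ℂ[X]) : Fin r → ℂ[X] :=
  ∑ l, φ l • rho û l

theorem fun_mem (hû : ∀ k, cx (û k) ∈ Lv ℂ wF (δ1 k + 1)) (hwF : ∀ l, wF l + y l = K1)
    (hwX : ∀ k, wX k + δ1 k = K2) (hK : K1 + K = K2) {φ : Fin cf → ℂ[X]} {t : ℕ}
    (hφ : ∀ l k, t ≤ k + y l → (φ l).coeff k = 0) : fun_ û φ ∈ Lv ℂ wX (t + K) := by
  refine Submodule.sum_mem _ fun l _ => smul_mem_Lv (rho_mem hû hwF hwX hK l) fun k hk => ?_
  exact hφ l k (by omega)

theorem fun_eval {φ : Fin cf → ℂ[X]} {z : Fin c → ℂ[X]} {p : ℂ[X]} {B : Fin r → ℂ[X]}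
    (h : p • Ac π z = ∑ k, B k • cx (û k)) :
    p * dotL z (∑ l, φ l • π l) = dotL B (fun_ û φ) := by
  have h1 : p * dotL z (∑ l, φ l • π l) = ∑ l, φ l * (p • Ac π z) l := by
    rw [map_sum, Finset.mul_sum]
    refine Finset.sum_congr rfl fun l _ => ?_
    rw [map_smul, smul_eq_mul, Pi.smul_apply, smul_eq_mul, dotL_comm]
    show p * (φ l * dotL (π l) z) = φ l * (p * dotL (π l) z)
    ring
  rw [h1, h, dotL_apply]
  have h2 : ∀ k, fun_ û φ k = ∑ l, φ l * cx (û k) l := by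
    intro k
    unfold fun_ rho
    rw [Finset.sum_apply]
    rfl
  simp only [h2, Finset.sum_apply, Pi.smul_apply, smul_eq_mul, Finset.mul_sum, Finset.sum_mul]
  rw [Finset.sum_comm]
  refine Finset.sum_congr rfl fun k _ => Finset.sum_congr rfl fun l _ => ?_
  ring

end

/-- Existence of the coordinates of a row on the quotient. -/
theorem exists_phi {b c cf e D : ℕ} {w w' : Fin b → ℕ} (hw : ∀ i, w i + w' i = 1)
    {A : Fin b → Fin c → ℂ[X]} (hA : ∀ i j k, D + 1 ≤ k + w i → (A i j).coeff k = 0)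
    {ω : Fin e → Fin c → ℂ[X]} {y : Fin cf → ℕ} {π : Fin cf → Fin c → ℂ[X]} (hπ : RB w0 y π)
    (hπlat : lat π = perp (lat ω)) {lam : Fin b → ℂ[X]}
    (hlam : lam ∈ perp (lat fun j => Ac A (ω j))) :
    ∃ φ : Fin cf → ℂ[X], ∑ l, φ l • π l = rowmul lam A ∧
      ∀ t, lam ∈ Lv ℂ w' (t + 1) → ∀ l k, D + t ≤ k + y l → (φ l).coeff k = 0 := by
  have h1 : rowmul lam A ∈ lat π := by
    rw [hπlat, mem_perp_lat]
    intro j
    rw [dotL_rowmul]
    rw [mem_perp_lat] at hlam
    exact hlam j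
  obtain ⟨φ, hφ⟩ := mem_lat.mp h1
  refine ⟨φ, hφ, fun t ht l k hk => ?_⟩
  exact hπ.pd φ (D + t) (by rw [hφ]; exact rowmul_mem hw hA ht) l k hk

/-- The real and imaginary parts of a complex family. -/
def ri {r bp : ℕ} (a : Fin bp → Fin r → ℂ[X]) : Fin bp × Fin 2 → Fin r → ℝ[X] :=
  fun x => if x.2 = 0 then rev (a x.1) else imv (a x.1)

theorem ri_zero {r bp : ℕ} (a : Fin bp → Fin r → ℂ[X]) (i : Fin bp) : ri a (i, 0) = rev (a i) :=
  rfl

theorem ri_one {r bp : ℕ} (a : Fin bp → Fin r → ℂ[X]) (i : Fin bp) : ri a (i, 1) = imv (a i) :=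
  rfl

section rank

variable {bp : ℕ} {a : Fin bp → Fin (2 * bp) → ℂ[X]} {x' : Fin (2 * bp) → ℝ[X]}

theorem ri_perp (hax : ∀ i, dotL (iov x') (a i) = 0) (x : Fin bp × Fin 2) :
    dotL x' (ri a x) = 0 := by
  obtain ⟨i, s⟩ := x
  have h := dotL_iov_eq_zero.mp (hax i)
  fin_cases s
  · exact h.1
  · exact h.2

/-- The real rank is one less than the number of members. -/
theorem exists_star (hx0 : x' ≠ 0) (hax : ∀ i, dotL (iov x') (a i) = 0)
    (hker1 : ∀ β : Fin (2 * bp) → ℝ[X], (∀ i, dotL (iov β) (a i) = 0) →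
      ∃ p : ℝ[X], p ≠ 0 ∧ ∃ q : ℝ[X], p • β = q • x') :
    ∃ k0 : Fin bp × Fin 2, ∀ q : Fin bp × Fin 2 → ℝ[X], q k0 = 0 →
      ∑ x, q x • ri a x = 0 → q = 0 := by
  classical
  obtain ⟨T, hT1, hT2⟩ := exists_maximal_fun0 (R := ℝ[X]) (ri a)
  have hTli : LinearIndependent ℝ[X] (fun k : {k // k ∈ T} => ri a k) :=
    li_of_fun (fun k => k ∈ T) (ri a) fun p hp h => hT1 p hp h
  have hxli : LinearIndependent ℝ[X] (fun _ : Fin 1 => x') := by
    rw [Fintype.linearIndependent_iff]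
    intro g hg i
    rw [Fin.sum_univ_one] at hg
    rcases smul_eq_zero.mp hg with h1 | h1
    · rwa [Subsingleton.elim i 0]
    · exact absurd h1 hx0
  have hcardT : T.card + 1 ≤ 2 * bp := by
    have h1 := card_le_of_perp_real hxli hTli (fun k => by
      rw [mem_perp_lat]
      intro _
      exact ri_perp hax k)
    rw [Fintype.card_fin, Fintype.card_coe, Fintype.card_fin] at h1
    omega
  -- the orthogonal lattice of the subfamily
  have hfil : ∀ k : {k // k ∈ T}, ∃ t, ri a k ∈ Lv ℝ (w0 (ι := Fin (2 * bp))) (t + 1) :=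
    fun k => exists_lv_succ _ _
  choose τ hτ using hfil
  obtain ⟨n, θ, v, -, hv, hvlat⟩ := exists_RB (w0 (ι := Fin (2 * bp)))
    (perp (lat fun k : {k // k ∈ T} => ri a k))
  have h1 := (perp_le (c := 0) (w := w0) (w' := w0) (fun _ => rfl) hτ hv hvlat.symm).1
  rw [Fintype.card_fin, Fintype.card_coe, Fintype.card_fin] at h1
  have h2 : n ≤ 1 := by
    have h3 := card_le_of_torsion (f := fun _ : Fin 1 => x') hv.li (fun k => by
      have h4 : v k ∈ perp (lat fun k : {k // k ∈ T} => ri a k) := by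
        rw [← hvlat]; exact Submodule.subset_span ⟨k, rfl⟩
      rw [mem_perp_lat] at h4
      have h5 : ∀ x, dotL (v k) (ri a x) = 0 := by
        intro x
        by_cases hx : x ∈ T
        · rw [dotL_comm]; exact h4 ⟨x, hx⟩
        · obtain ⟨q, hq, hqx, hqs⟩ := hT2 x hx
          have h6 := congrArg (dotL (v k)) hqs
          rw [map_sum, map_zero, Finset.sum_eq_single x] at h6
          · rw [map_smul, smul_eq_mul] at h6
            exact (mul_eq_zero.mp h6).resolve_left hqx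
          · intro l _ hl
            rw [map_smul]
            by_cases hlT : l ∈ T
            · rw [dotL_comm]
              have := h4 ⟨l, hlT⟩
              rw [this, smul_zero]
            · rw [hq l (fun h => by
                rcases Finset.mem_insert.mp h with h | h
                · exact hl h
                · exact hlT h), zero_smul]
          · intro h; exact absurd (Finset.mem_univ _) h
      obtain ⟨p, hp, q, hpq⟩ := hker1 (v k) (fun i => dotL_iov_eq_zero.mpr ⟨h5 (i, 0), h5 (i, 1)⟩)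
      refine ⟨p, hp, ?_⟩
      rw [hpq]
      exact Submodule.smul_mem _ _ (Submodule.subset_span ⟨0, rfl⟩))
    rwa [Fintype.card_fin, Fintype.card_fin] at h3
  have hcompl : Tᶜ.card = 1 := by
    rw [Finset.card_compl, Fintype.card_prod, Fintype.card_fin, Fintype.card_fin]
    omega
  obtain ⟨k0, hk0⟩ := Finset.card_eq_one.mp hcompl
  refine ⟨k0, fun q hq0 hq => hT1 q (fun k hk => ?_) hq⟩
  have : k ∈ Tᶜ := Finset.mem_compl.mpr hk
  rw [hk0] at this
  rw [Finset.mem_singleton.mp this]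
  exact hq0

theorem rev_sum' (p : Fin bp → ℂ[X]) :
    rev (∑ i, p i • a i) = ∑ x : Fin bp × Fin 2,
      (if x.2 = 0 then reP (p x.1) else - imP (p x.1)) • ri a x := by
  funext j
  rw [Fintype.sum_prod_type]
  unfold rev
  simp only [Fin.sum_univ_two, Finset.sum_apply, Pi.add_apply, Pi.smul_apply, smul_eq_mul,
    reP_sum, reP_mul]
  refine Finset.sum_congr rfl fun i _ => ?_
  show reP (p i) * reP (a i j) - imP (p i) * imP (a i j)
    = reP (p i) * reP (a i j) + - imP (p i) * imP (a i j)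
  ring

theorem imv_sum' (p : Fin bp → ℂ[X]) :
    imv (∑ i, p i • a i) = ∑ x : Fin bp × Fin 2,
      (if x.2 = 0 then imP (p x.1) else reP (p x.1)) • ri a x := by
  funext j
  rw [Fintype.sum_prod_type]
  unfold imv
  simp only [Fin.sum_univ_two, Finset.sum_apply, Pi.add_apply, Pi.smul_apply, smul_eq_mul,
    imP_sum, imP_mul]
  refine Finset.sum_congr rfl fun i _ => ?_
  show reP (p i) * imP (a i j) + imP (p i) * reP (a i j)
    = imP (p i) * reP (a i j) + reP (p i) * imP (a i j)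
  ring

/-- The complex family is independent. -/
theorem li_of_star {k0 : Fin bp × Fin 2} (hk0 : ∀ q : Fin bp × Fin 2 → ℝ[X], q k0 = 0 →
      ∑ x, q x • ri a x = 0 → q = 0) : LinearIndependent ℂ[X] a := by
  rw [Fintype.linearIndependent_iff]
  intro p hp
  set R1 : Fin bp × Fin 2 → ℝ[X] := fun x => if x.2 = 0 then reP (p x.1) else - imP (p x.1)
    with hR1
  set R2 : Fin bp × Fin 2 → ℝ[X] := fun x => if x.2 = 0 then imP (p x.1) else reP (p x.1)
    with hR2
  have h1 : ∑ x, R1 x • ri a x = 0 := by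
    rw [← rev_sum', hp]
    funext j
    exact reP_zero
  have h2 : ∑ x, R2 x • ri a x = 0 := by
    rw [← imv_sum', hp]
    funext j
    exact imP_zero
  have h3 := hk0 (fun x => R2 k0 * R1 x - R1 k0 * R2 x) (by ring) (by
    have : ∑ x, (R2 k0 * R1 x - R1 k0 * R2 x) • ri a x
        = R2 k0 • ∑ x, R1 x • ri a x - R1 k0 • ∑ x, R2 x • ri a x := by
      rw [Finset.smul_sum, Finset.smul_sum, ← Finset.sum_sub_distrib]
      exact Finset.sum_congr rfl fun k _ => by rw [sub_smul, mul_smul, mul_smul]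
    rw [this, h1, h2, smul_zero, smul_zero, sub_zero])
  intro i
  have e0 := congrFun h3 (i, 0)
  have e1 := congrFun h3 (i, 1)
  simp only [Pi.zero_apply] at e0 e1
  have f1 : R1 (i, 0) = reP (p i) := rfl
  have f2 : R1 (i, 1) = - imP (p i) := rfl
  have f3 : R2 (i, 0) = imP (p i) := rfl
  have f4 : R2 (i, 1) = reP (p i) := rfl
  rw [f1, f3] at e0
  rw [f2, f4] at e1
  by_cases hz : R1 k0 = 0 ∧ R2 k0 = 0
  · have h4 := hk0 R1 hz.1 h1
    have h5 := congrFun h4 (i, 0)
    have h6 := congrFun h4 (i, 1)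
    rw [f1] at h5
    rw [f2] at h6
    rw [← io_reP_imP (p i), h5, neg_eq_zero.mp h6]
    simp
  · have hne : R1 k0 * R1 k0 + R2 k0 * R2 k0 ≠ 0 := by
      intro h
      apply hz
      have h4 := sum_sq_eq_zero (v := fun s : Fin 2 => if s = 0 then R1 k0 else R2 k0) (by
        rw [Fin.sum_univ_two]; simpa using h)
      exact ⟨by simpa using congrFun h4 0, by simpa using congrFun h4 1⟩
    have h4 : (R1 k0 * R1 k0 + R2 k0 * R2 k0) * reP (p i) = 0 := by
      linear_combination R2 k0 * e0 - R1 k0 * e1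
    have h5 : (R1 k0 * R1 k0 + R2 k0 * R2 k0) * imP (p i) = 0 := by
      linear_combination -R1 k0 * e0 - R2 k0 * e1
    rw [← io_reP_imP (p i), (mul_eq_zero.mp h4).resolve_left hne,
      (mul_eq_zero.mp h5).resolve_left hne]
    simp

end rank

end

end Pool.Agent.Helper730_PP
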