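import Pool.Agent.Helper730_PP.StepR

/-!
# Parameters: the graph lattice and the rows
-/

open Polynomial

namespace Pool.Agent.Helper730_PP

noncomputable section

/-- Degree of the values of a functional. -/
theorem t_deg {c cf r K K1 K2 : ℕ} {y wF : Fin cf → ℕ} {δ1 wX : Fin r → ℕ}
    {π : Fin cf → Fin c → ℂ[X]} {û : Fin r → Fin cf × Fin 2 → ℝ[X]}
    (hûc : RB wF δ1 (fun k => cx (û k))) (hπ : RB w0 y π) (hwF : ∀ l, wF l + y l = K1)
    (hwX : ∀ k, wX k + δ1 k = K2) (hK : K1 + K = K2) {ψ : Fin cf → ℂ[X]} {rm t0 : ℕ}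
    (hψ : fun_ û ψ ∈ Lv ℂ wX (rm + 1)) {z : Fin c → ℂ[X]} (hz : z ∈ Lv ℂ w0 (t0 + 1))
    {p : ℂ[X]} (hp : p ≠ 0) {B : Fin r → ℂ[X]} (hB : p • Ac π z = ∑ k, B k • cx (û k)) {k : ℕ}
    (hk : t0 + rm + 1 ≤ k + K) : (dotL (∑ l, ψ l • π l) z).coeff k = 0 := by
  set T : ℂ[X] := dotL (∑ l, ψ l • π l) z with hT
  have h1 : p * T = dotL B (fun_ û ψ) := by
    rw [hT, dotL_comm]
    exact fun_eval hB
  have h2 : B ∈ Lv ℂ δ1 (t0 + K1 + p.natDegree + 1) := by
    have h3 : p • Ac π z ∈ Lv ℂ wF (t0 + K1 + p.natDegree + 1) := by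
      have h4 := Acπ_mem hπ hwF hz
      rw [show t0 + 1 + K1 = t0 + K1 + 1 by omega] at h4
      refine smul_mem_Lv h4 fun l hl => coeff_eq_zero_of_natDegree_lt (by omega)
    rw [hB] at h3
    have h4 := hûc.pd B _ h3
    intro k j hj
    exact h4 k j (by omega)
  have h3 : p * T ∈ degreeLT ℂ (rm + 1 + (t0 + K1 + p.natDegree) - K2) := by
    rw [h1]
    exact dotL_mem_degreeLT hwX h2 hψ
  by_cases hT0 : T = 0
  · rw [hT0, coeff_zero]
  · rw [mem_degreeLT, degree_mul, degree_eq_natDegree hp, degree_eq_natDegree hT0] at h3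
    have h4 : p.natDegree + T.natDegree < rm + 1 + (t0 + K1 + p.natDegree) - K2 := by
      exact_mod_cast h3
    exact coeff_eq_zero_of_natDegree_lt (by omega)

section G

variable {ι : Type} [Fintype ι] {c : ℕ}

/-- The graph of a linear map. -/
def Gm (H : (Fin c → ℂ[X]) →ₗ[ℂ[X]] (ι → ℂ[X])) :
    (Fin c → ℂ[X]) →ₗ[ℂ[X]] (ι ⊕ Fin c → ℂ[X]) where
  toFun z := Sum.elim (H z) z
  map_add' z z' := by
    rw [map_add]
    funext x
    rcases x with x | x <;> rfl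
  map_smul' p z := by
    rw [map_smul, RingHom.id_apply]
    funext x
    rcases x with x | x <;> rfl

/-- Restriction to the first summand. -/
def inlL (F : Type*) [Field F] (ι κ : Type*) : (ι ⊕ κ → F[X]) →ₗ[F[X]] (ι → F[X]) where
  toFun v := fun x => v (Sum.inl x)
  map_add' _ _ := rfl
  map_smul' _ _ := rfl

/-- Restriction to the second summand. -/
def inrL (F : Type*) [Field F] (ι κ : Type*) : (ι ⊕ κ → F[X]) →ₗ[F[X]] (κ → F[X]) where
  toFun v := fun x => v (Sum.inr x)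
  map_add' _ _ := rfl
  map_smul' _ _ := rfl

theorem step_G [DecidableEq ι] {bp s K3 K4 : ℕ} {W Wv : ι → ℕ} (hW : ∀ x, W x + Wv x = K4)
    (hcard : Fintype.card ι = bp + s)
    {F₀ : Subfield ℝ} {L : Fin bp → ℕ} {ϑ : Fin bp → ι → ℂ[X]} (hϑ : RB Wv L ϑ)
    (hϑrat : ∀ i, IsRat (cplx F₀) (ϑ i)) (hϑsat : perp (perp (lat ϑ)) = lat ϑ)
    (H : (Fin c → ℂ[X]) →ₗ[ℂ[X]] (ι → ℂ[X])) {h : Fin s → ℕ} {ξ : Fin s → Fin c → ℂ[X]}
    (hh : Monotone h) (hξ : RB w0 h ξ) (hHdeg : ∀ i, H (ξ i) ∈ Lv ℂ W (h i + K3 + 1))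
    (hHperp : ∀ i, H (ξ i) ∈ perp (lat ϑ)) (hHinj : ∀ z ∈ lat ξ, H z = 0 → z = 0) :
    ∃ (hp : Fin s → ℕ) (S6 : Finset ℝ) (z : Fin s → Fin c → ℂ[X]),
      ∑ j, hp j + K4 * bp = ∑ x, W x + ∑ i, L i ∧ (∀ j, hp j ≤ h j + K3) ∧
      S6.card + 2 * ∑ i, ∑ l, (h i + 1 - h l)
        ≤ 2 * (∑ i, ∑ j, (h i + K3 + 1 - hp j) + ∑ i, c * (h i + 1)) ∧
      lat z = lat ξ ∧ ∀ F₁ : Subfield ℝ, F₀ ≤ F₁ → (∀ x ∈ S6, x ∈ F₁) →
        ∀ i, IsRat (cplx F₁) (z i) ∧ IsRat (cplx F₁) (H (z i)) := by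
  classical
  obtain ⟨n, hp, ζp, hhp, hζp, hζplat⟩ := exists_RB W (perp (lat ϑ))
  have hc1 := (perp_le hW hϑ.fil hζp hζplat.symm).1
  have hc2 := card_le_of_perp_complex hϑ.li hζp.li (fun k => by
    rw [← hζplat]; exact Submodule.subset_span ⟨k, rfl⟩)
  rw [Fintype.card_fin, Fintype.card_fin, hcard] at hc1 hc2
  obtain rfl : n = s := by omega
  have hsum := perp_eq hW hϑ hζp hζplat.symm (by rw [hζplat, hϑsat])
    (by rw [Fintype.card_fin, Fintype.card_fin, hcard])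
  rw [Fintype.card_fin] at hsum
  have hHξ : ∀ p : Fin n → ℂ[X], H (∑ i, p i • ξ i) = ∑ i, p i • H (ξ i) := by
    intro p
    rw [map_sum]
    exact Finset.sum_congr rfl fun i _ => map_smul _ _ _
  have hHli : LinearIndependent ℂ[X] (fun i => H (ξ i)) := by
    rw [Fintype.linearIndependent_iff]
    intro g hg
    rw [← hHξ] at hg
    have h1 := hHinj _ (mem_lat.mpr ⟨g, rfl⟩) hg
    have h2 := hξ.li
    rw [Fintype.linearIndependent_iff] at h2
    exact h2 g h1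
  have f4 : ∀ j, hp j ≤ h j + K3 := by
    intro j
    have h1 := hHli.comp (Fin.castLE j.2 : Fin (j + 1) → Fin n) (Fin.castLE_injective _)
    refine hζp.le_of_li hhp (by rw [Fintype.card_fin]; omega) _ h1 fun m => ?_
    rw [mem_lev, hζplat]
    refine ⟨hHperp _, ?_⟩
    have h4 : h (Fin.castLE j.2 m) ≤ h j := hh (by
      rw [Fin.le_def, Fin.val_castLE]; exact Nat.lt_succ_iff.mp m.2)
    exact Lv_mono (by omega) (hHdeg (Fin.castLE j.2 m))
  -- the graph family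
  set G : Fin n → ι ⊕ Fin c → ℂ[X] := fun i => Gm H (ξ i) with hG
  set WG : ι ⊕ Fin c → ℕ := Sum.elim W (fun _ => K3) with hWG
  have hGsum : ∀ p : Fin n → ℂ[X], ∑ i, p i • G i = Gm H (∑ i, p i • ξ i) := by
    intro p
    rw [map_sum]
    exact Finset.sum_congr rfl fun i _ => (map_smul _ _ _).symm
  have hGRB : RB WG (fun i => h i + K3) G := by
    refine ⟨fun i => ?_, fun p t hp i l hl => ?_⟩
    · rintro (x | j) k hk
      · exact hHdeg i x k hk
      · refine hξ.fil i j k ?_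
        have : h i + K3 + 1 ≤ k + K3 := hk
        show h i + 1 ≤ k + 0
        omega
    · rw [hGsum] at hp
      refine hξ.pd p (t - K3) (fun j k hk => ?_) i l (by omega)
      refine hp (Sum.inr j) k ?_
      have : t - K3 ≤ k + 0 := hk
      show t ≤ k + K3
      omega
  set Z' : Submodule ℂ[X] (ι ⊕ Fin c → ℂ[X]) :=
    perp (lat fun i => Sum.elim (ϑ i) (0 : Fin c → ℂ[X])) with hZ'
  have hdot : ∀ (i : Fin bp) (v : ι ⊕ Fin c → ℂ[X]),
      dotL (Sum.elim (ϑ i) (0 : Fin c → ℂ[X])) v = dotL (ϑ i) (inlL ℂ ι (Fin c) v) := by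
    intro i v
    rw [dotL_apply, dotL_apply, Fintype.sum_sum_type]
    simp only [Sum.elim_inl, Sum.elim_inr, Pi.zero_apply, mul_zero, Finset.sum_const_zero,
      add_zero]
    rfl
  have hmemZ : ∀ v, v ∈ Z' ↔ inlL ℂ ι (Fin c) v ∈ perp (lat ϑ) := by
    intro v
    rw [hZ', mem_perp_lat, mem_perp_lat]
    exact forall_congr' fun i => by rw [hdot]
  have hZD : ∀ t, Dfn (cplx F₀) (lev Z' WG t) := by
    intro t
    refine Dfn.perp (w := fun _ => 0) (fun t => dfn_lev_of_rat (fun i => ?_) _ t) WG t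
    rintro (x | j) k
    · exact hϑrat i x k
    · show (0 : ℂ[X]).coeff k ∈ _
      rw [coeff_zero]
      exact (cplx F₀).zero_mem
  have hle : lat G ≤ Z' := by
    unfold lat
    rw [Submodule.span_le]
    rintro _ ⟨i, rfl⟩
    rw [SetLike.mem_coe, hmemZ]
    exact hHperp i
  obtain ⟨S, hS, hSF⟩ := hGRB.exists_params' hle hZD
  have hfin : ∀ i, Module.finrank ℂ (lev Z' WG (h i + K3 + 1))
      ≤ ∑ j, (h i + K3 + 1 - hp j) + c * (h i + 1) := by
    intro i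
    set T : ℕ := h i + K3 + 1 with hT
    have h1 := finrank_le_one (lev Z' WG T) ((inrL ℂ ι (Fin c)).restrictScalars ℂ)
      (Lv ℂ w0 (h i + 1)) (fun v hv => by
        rw [mem_lev] at hv
        intro j k hk
        refine hv.2 (Sum.inr j) k ?_
        have : h i + 1 ≤ k + 0 := hk
        show T ≤ k + K3
        omega)
    have h2 : Module.finrank ℂ (Lv ℂ (w0 (ι := Fin c)) (h i + 1)) = c * (h i + 1) := by
      rw [finrank_Lv]; simp
    set W2 : Submodule ℂ (ι ⊕ Fin c → ℂ[X]) :=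
      lev Z' WG T ⊓ LinearMap.ker ((inrL ℂ ι (Fin c)).restrictScalars ℂ) with hW2
    have hfinW2 : Module.Finite ℂ W2 :=
      Submodule.finiteDimensional_of_le (inf_le_left : W2 ≤ lev Z' WG T)
    have h3 := finrank_le_one W2 ((inlL ℂ ι (Fin c)).restrictScalars ℂ)
      (lev (lat ζp) W T) (fun v hv => by
        have h4 := hv.1
        rw [SetLike.mem_coe, mem_lev] at h4
        show inlL ℂ ι (Fin c) v ∈ lev (lat ζp) W T
        rw [mem_lev, hζplat]
        exact ⟨(hmemZ v).mp h4.1, fun x k hk => h4.2 (Sum.inl x) k hk⟩)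
    have h4 : (W2 ⊓ LinearMap.ker ((inlL ℂ ι (Fin c)).restrictScalars ℂ)
        : Submodule ℂ (ι ⊕ Fin c → ℂ[X])) = ⊥ := by
      rw [eq_bot_iff]
      rintro v ⟨⟨-, hv1⟩, hv2⟩
      rw [Submodule.mem_bot]
      have h5 : inrL ℂ ι (Fin c) v = 0 := hv1
      have h6 : inlL ℂ ι (Fin c) v = 0 := hv2
      funext x
      rcases x with x | x
      · exact congrFun h6 x
      · exact congrFun h5 x
    rw [h4, finrank_bot, zero_add, hζp.finrank_lev] at h3
    omega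
  set F6 : Subfield ℝ := Subfield.closure ((F₀ : Set ℝ) ∪ (reim S id : Finset ℝ)) with hF6
  have h06 : F₀ ≤ F6 := fun x hx => Subfield.subset_closure (Or.inl hx)
  have hD := hSF (cplx F6) (cplx_mono h06) (fun s hs => reim_cplx (A := S) (g := id)
    (fun y hy => Subfield.subset_closure (Or.inr hy)) hs)
  obtain ⟨G', hG', hG'rat, hG'lat⟩ := hGRB.exists_rat (fun i j hij => by
    have := hh hij
    omega) hD
  refine ⟨hp, reim S id, fun i => inrL ℂ ι (Fin c) (G' i), ?_, f4, ?_, ?_, ?_⟩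
  · exact hsum
  · have h2 : (reim S id).card ≤ 2 * S.card := reim_card S id
    have h3 : ∑ i, ∑ l, (h i + K3 + 1 - (h l + K3)) = ∑ i, ∑ l, (h i + 1 - h l) :=
      Finset.sum_congr rfl fun i _ => Finset.sum_congr rfl fun l _ => by omega
    have h4 := hS.trans (Finset.sum_le_sum fun i _ => hfin i)
    rw [Finset.sum_add_distrib, h3] at h4
    omega
  · apply le_antisymm
    · unfold lat
      rw [Submodule.span_le]
      rintro _ ⟨i, rfl⟩
      have h1 : G' i ∈ lat G := by rw [← hG'lat]; exact Submodule.subset_span ⟨i, rfl⟩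
      obtain ⟨p, hp⟩ := mem_lat.mp h1
      rw [hGsum] at hp
      show inrL ℂ ι (Fin c) (G' i) ∈ lat ξ
      rw [← hp]
      exact mem_lat.mpr ⟨p, rfl⟩
    · have h0 : lat ξ ≤ lat (fun i => inrL ℂ ι (Fin c) (G' i)) := by
        unfold lat
        rw [Submodule.span_le]
        rintro _ ⟨i, rfl⟩
        have h1 : G i ∈ lat G' := by rw [hG'lat]; exact Submodule.subset_span ⟨i, rfl⟩
        obtain ⟨p, hp⟩ := mem_lat.mp h1
        have h2 : ξ i = inrL ℂ ι (Fin c) (G i) := rfl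
        rw [SetLike.mem_coe, h2, ← hp, map_sum]
        refine Submodule.sum_mem _ fun k _ => ?_
        rw [map_smul]
        exact Submodule.smul_mem _ _ (Submodule.subset_span ⟨k, rfl⟩)
      exact h0
  · intro F₁ hF hS' i
    have hle6 : F6 ≤ F₁ := by
      rw [hF6, Subfield.closure_le]
      rintro x (hx | hx)
      · exact hF hx
      · exact hS' x hx
    have h1 := (hG'rat i).mono (cplx_mono hle6)
    refine ⟨fun j k => h1 (Sum.inr j) k, ?_⟩
    have h2 : G' i ∈ lat G := by rw [← hG'lat]; exact Submodule.subset_span ⟨i, rfl⟩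
    obtain ⟨p, hp⟩ := mem_lat.mp h2
    rw [hGsum] at hp
    have h3 : H (inrL ℂ ι (Fin c) (G' i)) = inlL ℂ ι (Fin c) (G' i) := by
      rw [← hp]
      rfl
    rw [h3]
    exact fun j k => h1 (Sum.inl j) k

end G

theorem pi_rat {F : Type*} [Field F] {F₀ : Subfield F} {π : F →ₗ[F₀] F₀} (hπ : π 1 = 1) {x : F}
    (hx : x ∈ F₀) : ((π x : F₀) : F) = x := by
  have h : x = (⟨x, hx⟩ : F₀) • (1 : F) := by
    rw [Subfield.smul_def, smul_eq_mul, mul_one]
  rw [h, map_smul, hπ, smul_eq_mul, mul_one, ← h]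

theorem step_rows {b c D s ss : ℕ} {w : Fin b → ℕ} {A : Fin b → Fin c → ℂ[X]}
    (hA : ∀ i j k, D + 1 ≤ k + w i → (A i j).coeff k = 0) {hs : Fin ss → ℕ}
    {ξs : Fin ss → Fin c → ℂ[X]} (hξs : RB w0 hs ξs) {z : Fin s → Fin c → ℂ[X]}
    (hz : perp (lat z) = lat ξs) {F₀ : Subfield ℝ} (hzrat : ∀ i, IsRat (cplx F₀) (z i))
    (hAz : ∀ i, IsRat (cplx F₀) (Ac A (z i))) :
    ∃ S8 : Finset ℝ, S8.card ≤ 2 * ∑ i, ∑ l, (D + 1 - w i - hs l) ∧
      ∀ F₁ : Subfield ℝ, F₀ ≤ F₁ → (∀ x ∈ S8, x ∈ F₁) → ∀ i, IsRat (cplx F₁) (A i) := by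
  classical
  obtain ⟨π, hπ⟩ := exists_pi_one (cplx F₀)
  have hD : ∀ t, Dfn (cplx F₀) (lev (lat ξs) w0 t) := fun t => by
    rw [← hz]
    exact Dfn.perp (w := fun _ => 0) (fun t => dfn_lev_of_rat hzrat _ t) w0 t
  have hmem : ∀ i, A i - Pv π (A i) ∈ lev (lat ξs) w0 (D + 1 - w i) := by
    intro i
    rw [mem_lev]
    constructor
    · rw [← hz, mem_perp_lat]
      intro j
      rw [map_sub, dotL_Pv π (hzrat j), sub_eq_zero]
      have h1 : dotL (z j) (A i) = Ac A (z j) i := dotL_comm _ _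
      rw [h1]
      ext k
      rw [coeff_Pm, pi_rat hπ (hAz j i k)]
    · have h1 : A i ∈ Lv ℂ w0 (D + 1 - w i) := fun j k hk => by
        refine hA i j k ?_
        have : D + 1 - w i ≤ k + 0 := hk
        omega
      exact Submodule.sub_mem _ h1 (dfn_Lv _ _ π _ h1)
  have h1 : ∀ i, ∃ S : Finset ℂ, S.card ≤ ∑ l, (D + 1 - w i - hs l) ∧
      ∀ F₁ : Subfield ℂ, cplx F₀ ≤ F₁ → (∀ s ∈ S, s ∈ F₁) → IsRat F₁ (A i) := by
    intro i
    obtain ⟨S, hS, hSF⟩ := exists_params_mem (hD _) (hmem i)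
    rw [hξs.finrank_lev] at hS
    refine ⟨S, hS, fun F₁ hF hS' => ?_⟩
    have h2 := (hSF F₁ hF hS').add ((Pv_isRat π (A i)).mono hF)
    rwa [sub_add_cancel] at h2
  choose S hS hSF using h1
  refine ⟨Finset.univ.biUnion fun i => reim (S i) id, ?_, ?_⟩
  · have h2 : (Finset.univ.biUnion fun i => reim (S i) id).card ≤ ∑ i, 2 * (S i).card :=
      Finset.card_biUnion_le.trans (Finset.sum_le_sum fun i _ => reim_card _ _)
    have h3 := Finset.sum_le_sum (s := Finset.univ) fun i _ => hS i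
    rw [← Finset.mul_sum] at h2
    omega
  · intro F₁ hF hS' i
    refine hSF i (cplx F₁) (cplx_mono hF) fun s hs => ?_
    exact reim_cplx (A := S i) (g := id) (fun y hy => hS' y (Finset.mem_biUnion.mpr
      ⟨i, Finset.mem_univ i, hy⟩)) hs

end

end Pool.Agent.Helper730_PP
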