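import Pool.Agent.Helper730_PP.StepW

/-!
# Parameters: the complex lattice of functionals
-/

open Polynomial

namespace Pool.Agent.Helper730_PP

noncomputable section

section

variable {bp K2 : ℕ} {δ1 wX : Fin (2 * bp) → ℕ} {εR : Fin (2 * bp - 1) → ℕ}
  {χ : Fin (2 * bp - 1) → Fin (2 * bp) → ℝ[X]} {d2 : ℕ} {x2 ρs : Fin (2 * bp) → ℝ[X]}
  {Rb : Submodule ℂ[X] (Fin (2 * bp) → ℂ[X])}

/-- The kernel of evaluation at the real vector. -/
theorem mem_lat_iov_iff (hmem : ∀ z, z ∈ lat χ ↔ dotL x2 z = 0) (v : Fin (2 * bp) → ℂ[X]) :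
    v ∈ lat (fun l => iov (χ l)) ↔ dotL (iov x2) v = 0 := by
  rw [mem_lat_iov, dotL_iov_eq_zero, hmem, hmem]

theorem step_N (hbp : 1 ≤ bp) (hwX : ∀ k, wX k + δ1 k = K2) (hεR : Monotone εR)
    (hχ : RB wX εR χ) (hmem : ∀ z, z ∈ lat χ ↔ dotL x2 z = 0) (hx2 : x2 ∈ Lv ℝ δ1 (d2 + 1))
    (hx2ne : x2 ≠ 0) (hRperp : ∀ β, (∀ f ∈ Rb, dotL f β = 0) → β = 0) :
    ∃ (εC : Fin (2 * bp - 1) → ℕ) (ν : Fin (2 * bp - 1) → Fin (2 * bp) → ℂ[X])
      (rb : Fin (2 * bp) → ℕ) (ρb : Fin (2 * bp) → Fin (2 * bp) → ℂ[X]) (g : ℂ[X])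
      (f0 : Fin (2 * bp) → ℂ[X]),
      Monotone εC ∧ RB wX εC ν ∧ lat ν = Rb ⊓ lat (fun l => iov (χ l)) ∧
      Monotone rb ∧ RB wX rb ρb ∧ lat ρb = Rb ∧ g.Monic ∧ f0 ∈ Rb ∧ dotL (iov x2) f0 = g ∧
      (∀ f ∈ Rb, ∃ p, dotL (iov x2) f = p * g) ∧
      ∑ l, εC l + K2 + g.natDegree ≤ ∑ k, rb k + d2 ∧ (∀ l, εR l ≤ εC l) := by
  classical
  obtain ⟨nN, εC, ν, hεC, hν, hνlat⟩ := exists_RB wX (Rb ⊓ lat (fun l => iov (χ l)))
  obtain ⟨nR, rb, ρb, hrb, hρb, hρblat⟩ := exists_RB wX Rb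
  have hiov := hχ.complexify
  -- the generator
  set I : Ideal ℂ[X] := Rb.map (dotL (iov x2)) with hI
  obtain ⟨d, hd⟩ := (IsPrincipalIdealRing.principal I).principal
  have hd0 : d ≠ 0 := by
    rintro rfl
    apply hx2ne
    have h1 : iov x2 = 0 := hRperp _ (fun f hf => by
      have h2 : dotL (iov x2) f ∈ I := ⟨f, hf, rfl⟩
      rw [hd, Submodule.span_zero_singleton, Submodule.mem_bot] at h2
      rw [dotL_comm]; exact h2)
    funext k
    have h2 := congrFun h1 k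
    exact io_eq_zero.mp h2
  set g : ℂ[X] := C d.leadingCoeff⁻¹ * d with hg
  have hlead : d.leadingCoeff ≠ 0 := leadingCoeff_ne_zero.mpr hd0
  have hgm : g.Monic := by
    rw [hg, mul_comm]
    exact monic_mul_leadingCoeff_inv hd0
  have hgI : g ∈ I := by
    rw [hd, hg]
    exact Submodule.smul_mem _ _ (Submodule.mem_span_singleton_self d)
  obtain ⟨f0, hf0, hf0g⟩ := hgI
  have hdiv : ∀ f ∈ Rb, ∃ p, dotL (iov x2) f = p * g := by
    intro f hf
    have h2 : dotL (iov x2) f ∈ I := ⟨f, hf, rfl⟩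
    rw [hd, Submodule.mem_span_singleton] at h2
    obtain ⟨p, hp⟩ := h2
    refine ⟨p * C d.leadingCoeff, ?_⟩
    rw [← hp, hg, smul_eq_mul, mul_assoc, ← mul_assoc (C d.leadingCoeff), ← C_mul,
      mul_inv_cancel₀ hlead, C_1, one_mul]
  have hg0 : g ≠ 0 := hgm.ne_zero
  -- the dimension count
  have key : ∀ T, ∑ k, (T - rb k) ≤ ∑ l, (T - εC l) + (T + d2 - K2 - g.natDegree) := by
    intro T
    set Tgt : Submodule ℂ ℂ[X] :=
      (degreeLT ℂ (T + d2 - K2 - g.natDegree)).map (LinearMap.mulLeft ℂ g) with hTgt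
    have hfin : Module.Finite ℂ Tgt := by rw [hTgt]; infer_instance
    have h1 := finrank_le_one (lev Rb wX T) ((dotL (iov x2)).restrictScalars ℂ) Tgt (fun f hf => by
      rw [mem_lev] at hf
      have h2 : dotL (iov x2) f ∈ degreeLT ℂ (T + d2 - K2) :=
        dotL_mem_degreeLT hwX (iov_mem_Lv hx2) hf.2
      obtain ⟨p, hp⟩ := hdiv f hf.1
      refine ⟨p, ?_, ?_⟩
      · rw [SetLike.mem_coe, mem_degreeLT]
        rw [hp, mem_degreeLT] at h2
        by_cases hp0 : p = 0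
        · rw [hp0, degree_zero]
          exact WithBot.bot_lt_coe _
        · rw [degree_mul, degree_eq_natDegree hp0, degree_eq_natDegree hg0] at h2
          rw [degree_eq_natDegree hp0]
          have h3 : p.natDegree + g.natDegree < T + d2 - K2 := by exact_mod_cast h2
          have h4 : p.natDegree < T + d2 - K2 - g.natDegree := by omega
          exact_mod_cast h4
      · show g * p = dotL (iov x2) f
        rw [hp, mul_comm])
    have h2 : Module.finrank ℂ Tgt ≤ T + d2 - K2 - g.natDegree := by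
      have := Submodule.finrank_map_le (LinearMap.mulLeft ℂ g)
        (degreeLT ℂ (T + d2 - K2 - g.natDegree))
      rwa [finrank_degreeLT] at this
    have h3 : Module.finrank ℂ (lev Rb wX T ⊓ LinearMap.ker ((dotL (iov x2)).restrictScalars ℂ)
        : Submodule ℂ _) ≤ ∑ l, (T - εC l) := by
      rw [← hν.finrank_lev T]
      refine Submodule.finrank_mono ?_
      rintro x ⟨hx1, hx2⟩
      rw [SetLike.mem_coe, mem_lev] at hx1
      rw [mem_lev, hνlat]
      refine ⟨⟨hx1.1, ?_⟩, hx1.2⟩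
      rw [SetLike.mem_coe, mem_lat_iov_iff hmem]
      exact hx2
    rw [← hρblat, hρb.finrank_lev] at h1
    rw [← hρblat] at h3
    omega
  -- ranks
  have hnR1 : nR ≤ 2 * bp := by
    have h1 := hρb.li.fintype_card_le_finrank
    rwa [Fintype.card_fin, Module.finrank_fintype_fun_eq_card, Fintype.card_fin] at h1
  have hnR2 : 2 * bp ≤ nR := by
    have hfil : ∀ k, ρb k ∈ Lv ℂ wX (rb k + 1) := hρb.fil
    obtain ⟨n0, θ, v, -, hv, hvlat⟩ := exists_RB δ1 (perp (lat ρb))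
    have h1 := (perp_le (w := δ1) (w' := wX) (c := K2) (fun k => by
      rw [add_comm]; exact hwX k) hfil hv hvlat.symm).1
    rw [Fintype.card_fin, Fintype.card_fin, Fintype.card_fin] at h1
    have h2 : n0 = 0 := by
      by_contra hne
      have h3 : v ⟨0, by omega⟩ = 0 := hRperp _ (fun f hf => by
        have h4 : v ⟨0, by omega⟩ ∈ perp (lat ρb) := by
          rw [← hvlat]; exact Submodule.subset_span ⟨_, rfl⟩
        rw [hρblat] at h4
        exact h4 f hf)
      exact hv.li.ne_zero _ h3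
    omega
  obtain rfl : nR = 2 * bp := le_antisymm hnR1 hnR2
  have hνsub : ∀ l, ν l ∈ lat (fun l => iov (χ l)) := fun l => by
    have : ν l ∈ lat ν := Submodule.subset_span ⟨l, rfl⟩
    rw [hνlat] at this
    exact this.2
  have hnN1 : nN ≤ 2 * bp - 1 := by
    have h1 := card_le_of_torsion (f := fun l => iov (χ l)) hν.li (fun k =>
      ⟨1, one_ne_zero, by rw [one_smul]; exact hνsub k⟩)
    rwa [Fintype.card_fin, Fintype.card_fin] at h1
  have hex : ∀ s, ∃ T, s ≤ T ∧ (∀ k, rb k ≤ T) ∧ (∀ k, εC k ≤ T) ∧ K2 + g.natDegree ≤ T := by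
    intro s
    refine ⟨s + ∑ k, rb k + ∑ k, εC k + K2 + g.natDegree, by omega, fun k => ?_, fun k => ?_,
      by omega⟩
    · have := Finset.single_le_sum (f := rb) (fun _ _ => Nat.zero_le _) (Finset.mem_univ k)
      omega
    · have := Finset.single_le_sum (f := εC) (fun _ _ => Nat.zero_le _) (Finset.mem_univ k)
      omega
  have hnN2 : 2 * bp - 1 ≤ nN := by
    by_contra hcon
    push Not at hcon
    obtain ⟨T, h0, h3, h4, h5⟩ := hex (∑ k, rb k + d2 + 1)
    have h6 := key T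
    have h7 := sum_sub_add rb h3
    have h8 := sum_sub_add εC h4
    rw [Fintype.card_fin] at h7 h8
    have h10 : (nN + 2) * T ≤ 2 * bp * T := Nat.mul_le_mul_right _ (by omega)
    have h11 : (nN + 2) * T = nN * T + 2 * T := by ring
    omega
  obtain rfl : nN = 2 * bp - 1 := le_antisymm hnN1 hnN2
  refine ⟨εC, ν, rb, ρb, g, f0, hεC, hν, hνlat, hrb, hρb, hρblat, hgm, hf0, hf0g, hdiv, ?_, ?_⟩
  · obtain ⟨T, h0, h3, h4, h5⟩ := hex (∑ k, rb k + d2 + 1)
    have h6 := key T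
    have h7 := sum_sub_add rb h3
    have h8 := sum_sub_add εC h4
    rw [Fintype.card_fin] at h7 h8
    have h9 : 2 * bp * T = (2 * bp - 1) * T + T := by
      conv_lhs => rw [show 2 * bp = (2 * bp - 1) + 1 by omega]
      ring
    omega
  · intro l
    have h3 := hν.li.comp (Fin.castLE l.2 : Fin (l + 1) → Fin (2 * bp - 1))
      (Fin.castLE_injective _)
    refine hiov.le_of_li hεR (by rw [Fintype.card_fin]; omega) _ h3 fun m => ?_
    rw [mem_lev]
    have h4 : εC (Fin.castLE l.2 m) ≤ εC l := hεC (by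
      rw [Fin.le_def, Fin.val_castLE]; exact Nat.lt_succ_iff.mp m.2)
    exact ⟨hνsub _, Lv_mono (Nat.succ_le_succ h4) (hν.fil (Fin.castLE l.2 m))⟩

/-- Parameters for the complex lattice of functionals killing the real vector. -/
theorem step_N_params {εC : Fin (2 * bp - 1) → ℕ} {ν : Fin (2 * bp - 1) → Fin (2 * bp) → ℂ[X]}
    (hεC : Monotone εC) (hν : RB wX εC ν) (hχ : RB wX εR χ)
    (hνlat : lat ν ≤ lat (fun l => iov (χ l))) {F₂ : Subfield ℝ}
    (hχrat : ∀ l, IsRat F₂ (χ l)) :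
    ∃ (S3 : Finset ℝ) (ν' : Fin (2 * bp - 1) → Fin (2 * bp) → ℂ[X]),
      RB wX εC ν' ∧ lat ν' = lat ν ∧
      S3.card + 2 * ∑ l, ∑ m, (εC l + 1 - εC m) ≤ 2 * ∑ l, ∑ m, (εC l + 1 - εR m) ∧
      ∀ F₁ : Subfield ℝ, F₂ ≤ F₁ → (∀ s ∈ S3, s ∈ F₁) → ∀ l, IsRat (cplx F₁) (ν' l) := by
  classical
  have hiov := hχ.complexify
  obtain ⟨S, hS, hSF⟩ := hν.exists_params' (F₀ := cplx F₂) hνlat
    (fun t => dfn_lev_of_rat (fun l => iov_isRat (hχrat l)) wX t)
  set F3 : Subfield ℝ := Subfield.closure ((F₂ : Set ℝ) ∪ (reim S id : Finset ℝ)) with hF3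
  have h23 : F₂ ≤ F3 := fun x hx => Subfield.subset_closure (Or.inl hx)
  have hD := hSF (cplx F3) (cplx_mono h23) (fun s hs => reim_cplx (A := S) (g := id)
    (fun y hy => Subfield.subset_closure (Or.inr hy)) hs)
  obtain ⟨ν', hν', hν'rat, hν'lat⟩ := hν.exists_rat hεC hD
  refine ⟨reim S id, ν', hν', hν'lat, ?_, ?_⟩
  · have h5 : ∀ i, Module.finrank ℂ (lev (lat fun l => iov (χ l)) wX (εC i + 1))
        = ∑ l, (εC i + 1 - εR l) := fun i => hiov.finrank_lev _
    rw [Finset.sum_congr rfl fun i _ => h5 i] at hS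
    have h2 : (reim S id).card ≤ 2 * S.card := reim_card S id
    omega
  · intro F₁ hF hS' l
    refine (hν'rat l).mono (cplx_mono ?_)
    rw [hF3, Subfield.closure_le]
    rintro x (hx | hx)
    · exact hF hx
    · exact hS' x hx

/-- Parameters for the complex lattice of functionals. -/
theorem step_R_params {εC : Fin (2 * bp - 1) → ℕ} {ν : Fin (2 * bp - 1) → Fin (2 * bp) → ℂ[X]}
    (hν : RB wX εC ν) (hχ : RB wX εR χ) (hmem : ∀ z, z ∈ lat χ ↔ dotL x2 z = 0)
    (hρs : dotL x2 ρs = 1)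
    (hνlat : lat ν = Rb ⊓ lat (fun l => iov (χ l))) {rb : Fin (2 * bp) → ℕ}
    {ρb : Fin (2 * bp) → Fin (2 * bp) → ℂ[X]} (hrb : Monotone rb) (hρb : RB wX rb ρb)
    (hρblat : lat ρb = Rb) {g : ℂ[X]} (hgm : g.Monic) {f0 : Fin (2 * bp) → ℂ[X]} (hf0 : f0 ∈ Rb)
    (hf0g : dotL (iov x2) f0 = g) (hdiv : ∀ f ∈ Rb, ∃ p, dotL (iov x2) f = p * g) {ℓ : ℕ}
    (hℓ : ∑ l, εC l = ∑ l, εR l + ℓ) {F₃ : Subfield ℝ} (hχrat : ∀ l, IsRat F₃ (χ l))
    (hρsrat : IsRat F₃ ρs) (hνrat : ∀ l, IsRat (cplx F₃) (ν l)) :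
    ∃ (S5 : Finset ℝ) (ρb' : Fin (2 * bp) → Fin (2 * bp) → ℂ[X]),
      RB wX rb ρb' ∧ lat ρb' = Rb ∧ S5.card ≤ 2 * g.natDegree + 2 * ℓ ∧
      ∀ F₁ : Subfield ℝ, F₃ ≤ F₁ → (∀ s ∈ S5, s ∈ F₁) → ∀ l, IsRat (cplx F₁) (ρb' l) := by
  classical
  have hiov := hχ.complexify
  have hiovrat : ∀ l, IsRat (cplx F₃) (iov (χ l)) := fun l => iov_isRat (hχrat l)
  have hioρ : dotL (iov x2) (iov ρs) = 1 := by
    have h1 := dotL_iov x2 (iov ρs)
    have h2 : rev (iov ρs) = ρs := funext fun j => reP_io _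
    have h3 : imv (iov ρs) = 0 := funext fun j => imP_io _
    rw [h2, h3, hρs, map_zero] at h1
    rw [← io_reP_imP (dotL (iov x2) (iov ρs)), h1.1, h1.2]
    simp
  -- the correction term
  set om : Fin (2 * bp) → ℂ[X] := f0 - g • iov ρs with hom
  have homW : om ∈ lat (fun l => iov (χ l)) := by
    rw [mem_lat_iov_iff hmem, hom, map_sub, map_smul, hf0g, hioρ, smul_eq_mul, mul_one, sub_self]
  obtain ⟨T0, hT0⟩ := exists_mem_Lv wX om
  set T : ℕ := T0 + ∑ l, εC l + ∑ l, εR l with hT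
  have hT1 : ∀ l, εC l ≤ T := fun l => by
    have := Finset.single_le_sum (f := εC) (fun _ _ => Nat.zero_le _) (Finset.mem_univ l)
    omega
  have hT2 : ∀ l, εR l ≤ T := fun l => by
    have := Finset.single_le_sum (f := εR) (fun _ _ => Nat.zero_le _) (Finset.mem_univ l)
    omega
  have hνsub : lat ν ≤ lat (fun l => iov (χ l)) := by rw [hνlat]; exact inf_le_right
  obtain ⟨n, v, hvR, hvn, -, hvspan⟩ := exists_basis_mod
    (lev_mono (w := wX) (t := T) hνsub le_rfl)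
    (dfn_lev_of_rat (F₀ := cplx F₃) hiovrat wX T).eq_span
  rw [hν.finrank_lev, hiov.finrank_lev] at hvn
  have hnℓ : n = ℓ := by
    have h1 := sum_sub_add εC hT1
    have h2 := sum_sub_add εR hT2
    omega
  obtain ⟨cf, hcf⟩ := hvspan om (mem_lev.mpr ⟨homW, Lv_mono (by omega) hT0⟩)
  rw [mem_lev] at hcf
  set r0 : Fin (2 * bp) → ℂ[X] := g • iov ρs + ∑ i, cf i • v i with hr0
  have hr0f : f0 - r0 ∈ lat ν := by
    have : f0 - r0 = om - ∑ i, cf i • v i := by rw [hr0, hom]; abel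
    rw [this]
    exact hcf.1
  have hνRb : lat ν ≤ Rb := by rw [hνlat]; exact inf_le_left
  have hr0R : r0 ∈ Rb := by
    have h1 := Rb.sub_mem hf0 (hνRb hr0f)
    rwa [sub_sub_cancel] at h1
  have hr0g : dotL (iov x2) r0 = g := by
    have h1 : dotL (iov x2) (f0 - r0) = 0 := (mem_lat_iov_iff hmem _).mp (hνsub hr0f)
    rw [map_sub, hf0g, sub_eq_zero] at h1
    exact h1.symm
  have hlatR : lat (Sum.elim ν (fun _ : Unit => r0)) = Rb := by
    apply le_antisymm
    · unfold lat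
      rw [Submodule.span_le]
      rintro _ ⟨l | u, rfl⟩
      · exact hνRb (Submodule.subset_span ⟨l, rfl⟩)
      · exact hr0R
    · intro f hf
      obtain ⟨p, hp⟩ := hdiv f hf
      have h1 : f - p • r0 ∈ lat ν := by
        rw [hνlat]
        refine ⟨Rb.sub_mem hf (Rb.smul_mem _ hr0R), ?_⟩
        rw [SetLike.mem_coe, mem_lat_iov_iff hmem, map_sub, map_smul, hr0g, hp, smul_eq_mul,
          sub_self]
      have h2 : f = (f - p • r0) + p • r0 := by rw [sub_add_cancel]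
      rw [h2]
      have h3 : r0 ∈ lat (Sum.elim ν (fun _ : Unit => r0)) := by
        unfold lat
        exact Submodule.subset_span ⟨Sum.inr (), rfl⟩
      refine Submodule.add_mem _ ?_ (Submodule.smul_mem _ _ h3)
      have h5 : lat ν ≤ lat (Sum.elim ν (fun _ : Unit => r0)) := by
        unfold lat
        rw [Submodule.span_le]
        rintro _ ⟨l, rfl⟩
        exact Submodule.subset_span ⟨Sum.inl l, rfl⟩
      exact h5 h1
  -- the parameters
  set S5 : Finset ℝ := reim (Finset.univ : Finset (Fin n)) cf ∪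
    reim (Finset.range g.natDegree) g.coeff with hS5
  set F5 : Subfield ℝ := Subfield.closure ((F₃ : Set ℝ) ∪ (S5 : Finset ℝ)) with hF5
  have h35 : F₃ ≤ F5 := fun x hx => Subfield.subset_closure (Or.inl hx)
  have hgrat : ∀ k, g.coeff k ∈ cplx F5 := by
    intro k
    rcases lt_trichotomy k g.natDegree with hk | hk | hk
    · exact reim_cplx (A := Finset.range g.natDegree) (g := g.coeff) (fun s hs =>
        Subfield.subset_closure (Or.inr (Finset.mem_union_right _ hs))) (Finset.mem_range.mpr hk)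
    · rw [hk]
      have : g.coeff g.natDegree = 1 := hgm
      rw [this]
      exact (cplx F5).one_mem
    · rw [coeff_eq_zero_of_natDegree_lt hk]
      exact (cplx F5).zero_mem
  have hr0rat : IsRat (cplx F5) r0 := by
    refine IsRat.add (isRat_smul_poly hgrat (iov_isRat (hρsrat.mono h35))) (IsRat.sum _ fun i _ =>
      ((hvR i).2.mono (cplx_mono h35)).smul ?_)
    exact reim_cplx (A := (Finset.univ : Finset (Fin n))) (g := cf) (fun s hs =>
        Subfield.subset_closure (Or.inr (Finset.mem_union_left _ hs))) (Finset.mem_univ i)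
  have hDR : ∀ t, Dfn (cplx F5) (lev (lat ρb) wX t) := by
    intro t
    rw [hρblat, ← hlatR]
    refine dfn_lev_of_rat ?_ wX t
    rintro (l | u)
    · exact (hνrat l).mono (cplx_mono h35)
    · exact hr0rat
  obtain ⟨ρb', hρb', hρb'rat, hρb'lat⟩ := hρb.exists_rat hrb hDR
  refine ⟨S5, ρb', hρb', hρb'lat.trans hρblat, ?_, ?_⟩
  · have h1 := Finset.card_union_le (reim (Finset.univ : Finset (Fin n)) cf)
      (reim (Finset.range g.natDegree) g.coeff)
    have h2 := reim_card (Finset.univ : Finset (Fin n)) cf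
    have h3 := reim_card (Finset.range g.natDegree) g.coeff
    rw [Finset.card_univ, Fintype.card_fin] at h2
    rw [Finset.card_range] at h3
    rw [hS5]
    omega
  · intro F₁ hF hS' l
    refine (hρb'rat l).mono (cplx_mono ?_)
    rw [hF5, Subfield.closure_le]
    rintro x (hx | hx)
    · exact hF hx
    · exact hS' x hx

end

end

end Pool.Agent.Helper730_PP
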