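import Pool.Agent.Helper730_PP.Rows

/-!
# Parameters: the real lattice of functionals
-/

open Polynomial

namespace Pool.Agent.Helper730_PP

noncomputable section

theorem dotL_Pv {F : Type*} [Field F] {ι : Type*} [Fintype ι] {F₀ : Subfield F}
    (π : F →ₗ[F₀] F₀) {v : ι → F[X]} (hv : IsRat F₀ v) (r : ι → F[X]) :
    dotL v (Pv π r) = Pm π (dotL v r) := by
  rw [dotL_apply, dotL_apply, Pm_sum]
  refine Finset.sum_congr rfl fun j _ => ?_
  rw [mul_comm (r j), Pm_mul π (hv j), mul_comm]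
  rfl

theorem li_unit {F : Type*} [Field F] {ι : Type*} {x : ι → F[X]} (hx : x ≠ 0) :
    LinearIndependent F[X] (fun _ : Unit => x) := by
  rw [Fintype.linearIndependent_iff]
  intro g hg i
  rw [Fintype.sum_unique] at hg
  rcases smul_eq_zero.mp hg with h1 | h1
  · rwa [Subsingleton.elim i default]
  · exact absurd h1 hx

theorem step_W {bp K2 : ℕ} {δ1 wX : Fin (2 * bp) → ℕ} (hwX : ∀ k, wX k + δ1 k = K2)
    {x' : Fin (2 * bp) → ℝ[X]} (hx0 : x' ≠ 0) :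
    ∃ (εR : Fin (2 * bp - 1) → ℕ) (χ : Fin (2 * bp - 1) → Fin (2 * bp) → ℝ[X]) (d2 : ℕ)
      (x2 ρs : Fin (2 * bp) → ℝ[X]) (S2 : Finset ℝ),
      Monotone εR ∧ RB wX εR χ ∧ lat χ = perp (lat fun _ : Unit => x') ∧
      x2 ∈ Lv ℝ δ1 (d2 + 1) ∧ (∀ z, z ∈ perp (lat χ) ↔ ∃ p : ℝ[X], z = p • x2) ∧ x2 ≠ 0 ∧
      dotL x2 ρs = 1 ∧ ∑ l, εR l + K2 = ∑ k, wX k + d2 ∧
      S2.card + ∑ l, ∑ m, (εR l + 1 - εR m) ≤ ∑ l, ∑ k, (εR l + 1 - wX k) ∧
      ∀ F₁ : Subfield ℝ, (∀ s ∈ S2, s ∈ F₁) →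
        (∀ l, IsRat F₁ (χ l)) ∧ IsRat F₁ x2 ∧ IsRat F₁ ρs := by
  classical
  have hwX' : ∀ k, δ1 k + wX k = K2 := fun k => by rw [add_comm]; exact hwX k
  obtain ⟨n, εR, χ0, hεR, hχ0, hχ0lat⟩ := exists_RB wX (perp (lat fun _ : Unit => x'))
  obtain ⟨t, ht⟩ := exists_lv_succ δ1 x'
  have h1 := (perp_le hwX (δ := fun _ : Unit => t) (fun _ => ht) hχ0 hχ0lat.symm).1
  have h2 := card_le_of_perp_real (li_unit hx0) hχ0.li (fun k => by
    rw [← hχ0lat]; exact Submodule.subset_span ⟨k, rfl⟩)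
  rw [Fintype.card_fin, Fintype.card_unit, Fintype.card_fin] at h1 h2
  have hn : n = 2 * bp - 1 := by omega
  subst hn
  have hbp : 1 ≤ 2 * bp := by omega
  obtain ⟨S2, hS2, hS2F⟩ := hχ0.exists_params' (F₀ := ⊥) (Z := ⊤) le_top
    (fun t => dfn_lev_top wX t)
  set F2 : Subfield ℝ := Subfield.closure (S2 : Set ℝ) with hF2
  have hD := hS2F F2 bot_le (fun s hs => Subfield.subset_closure hs)
  obtain ⟨χ, hχ, hχrat, hχlat⟩ := hχ0.exists_rat hεR hD
  have hDχ : ∀ t, Dfn F2 (lev (lat χ) wX t) := by rw [hχlat]; exact hD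
  obtain ⟨n', θ, v, -, hv, hvrat, hvlat⟩ := exists_rat_RB δ1 (perp (lat χ))
    (Dfn.perp hDχ δ1)
  have h3 := (perp_le hwX' hχ.fil hv hvlat.symm).1
  have h4 := card_le_of_perp_real hχ.li hv.li (fun k => by
    rw [← hvlat]; exact Submodule.subset_span ⟨k, rfl⟩)
  rw [Fintype.card_fin, Fintype.card_fin, Fintype.card_fin] at h3 h4
  have hn' : n' = 1 := by omega
  subst hn'
  have hpp : perp (lat v) = lat χ := by
    rw [hvlat, hχlat, hχ0lat, perp_perp_perp]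
  have hsum := perp_eq hwX hv hχ hpp (by rw [hvlat])
    (by rw [Fintype.card_fin, Fintype.card_fin, Fintype.card_fin]; omega)
  rw [Fintype.card_fin, Fin.sum_univ_one, mul_one] at hsum
  have hv0 : v 0 ≠ 0 := hv.li.ne_zero 0
  have hmem : ∀ z, z ∈ perp (lat χ) ↔ ∃ p : ℝ[X], z = p • v 0 := by
    intro z
    rw [← hvlat, mem_lat]
    constructor
    · rintro ⟨p, hp⟩
      rw [Fin.sum_univ_one] at hp
      exact ⟨p 0, hp.symm⟩
    · rintro ⟨p, rfl⟩
      exact ⟨fun _ => p, by rw [Fin.sum_univ_one]⟩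
  -- Bezout
  obtain ⟨ρ0, hρ0⟩ : ∃ ρ0, dotL (v 0) ρ0 = 1 := by
    set I : Ideal ℝ[X] := LinearMap.range (dotL (v 0)) with hI
    obtain ⟨d, hd⟩ := (IsPrincipalIdealRing.principal I).principal
    have hcomp : ∀ k, ∃ y, v 0 k = d * y := by
      intro k
      have h5 : v 0 k ∈ I := by
        refine ⟨Pi.single k 1, ?_⟩
        rw [dotL_apply, Finset.sum_eq_single k]
        · rw [Pi.single_eq_same, one_mul]
        · intro l _ hl
          rw [Pi.single_eq_of_ne hl, zero_mul]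
        · intro h; exact absurd (Finset.mem_univ _) h
      rw [hd, Submodule.mem_span_singleton] at h5
      obtain ⟨y, hy⟩ := h5
      exact ⟨y, by rw [← hy, smul_eq_mul, mul_comm]⟩
    choose y hy using hcomp
    have hvy : v 0 = d • y := funext fun k => by rw [Pi.smul_apply, smul_eq_mul]; exact hy k
    have hd0 : d ≠ 0 := by
      rintro rfl
      rw [zero_smul] at hvy
      exact hv0 hvy
    have hyp : y ∈ perp (lat χ) := by
      rw [mem_perp_lat]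
      intro l
      have h5 : v 0 ∈ perp (lat χ) := by rw [← hvlat]; exact Submodule.subset_span ⟨0, rfl⟩
      rw [mem_perp_lat] at h5
      have h6 := h5 l
      rw [hvy, map_smul, smul_eq_mul] at h6
      exact (mul_eq_zero.mp h6).resolve_left hd0
    obtain ⟨p, hp⟩ := (hmem y).mp hyp
    have h5 : (1 - d * p) • v 0 = 0 := by
      rw [sub_smul, one_smul, mul_smul, ← hp, ← hvy, sub_self]
    have h6 : d * p = 1 := by
      rcases smul_eq_zero.mp h5 with h | h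
      · exact (sub_eq_zero.mp h).symm
      · exact absurd h hv0
    have h7 : (1 : ℝ[X]) ∈ I := by
      rw [hd, Submodule.mem_span_singleton]
      exact ⟨p, by rw [smul_eq_mul, mul_comm]; exact h6⟩
    exact h7
  obtain ⟨π, hπ⟩ := exists_pi_one F2
  refine ⟨εR, χ, θ 0, v 0, Pv π ρ0, S2, hεR, hχ, hχlat.trans hχ0lat, hv.fil 0, hmem, hv0, ?_,
    hsum, ?_, ?_⟩
  · rw [dotL_Pv π (hvrat 0), hρ0]
    ext k
    rw [coeff_Pm, coeff_one]
    split_ifs
    · rw [hπ]; rfl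
    · rw [map_zero]; rfl
  · have h5 : ∀ i, Module.finrank ℝ (lev (⊤ : Submodule ℝ[X] (Fin (2 * bp) → ℝ[X])) wX (εR i + 1))
        = ∑ l, (εR i + 1 - wX l) := fun i => by rw [lev_top, finrank_Lv]
    rwa [Finset.sum_congr rfl fun i _ => h5 i] at hS2
  · intro F₁ hF₁
    have hle : F2 ≤ F₁ := by
      rw [hF2, Subfield.closure_le]
      exact hF₁
    exact ⟨fun l => (hχrat l).mono hle, (hvrat 0).mono hle, (Pv_isRat _ _).mono hle⟩

theorem exists_params_mem_norm {F : Type*} [Field F] {ι : Type*} [Finite ι] {F₀ : Subfield F}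
    {Z : Submodule F (ι → F[X])} [Module.Finite F Z] (hZ : Dfn F₀ Z) {x : ι → F[X]} (hx : x ∈ Z)
    (hx0 : x ≠ 0) :
    ∃ ζ : F, ζ ≠ 0 ∧ ∃ S : Finset F, S.card + 1 ≤ Module.finrank F Z ∧
      ∀ F₁ : Subfield F, F₀ ≤ F₁ → (∀ s ∈ S, s ∈ F₁) → IsRat F₁ (ζ • x) := by
  classical
  obtain ⟨n, a, haR, han, -, haspan⟩ := exists_basis_mod (bot_le : ⊥ ≤ Z) hZ.eq_span
  obtain ⟨c, hc⟩ := haspan x hx
  rw [Submodule.mem_bot, sub_eq_zero] at hc
  obtain ⟨j, hj⟩ : ∃ j, c j ≠ 0 := by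
    by_contra hcon
    push Not at hcon
    apply hx0
    rw [hc]
    exact Finset.sum_eq_zero fun i _ => by rw [hcon i, zero_smul]
  refine ⟨(c j)⁻¹, inv_ne_zero hj, (Finset.univ.erase j).image fun i => (c j)⁻¹ * c i, ?_, ?_⟩
  · have h1 := Finset.card_image_le (s := Finset.univ.erase j) (f := fun i => (c j)⁻¹ * c i)
    rw [Finset.card_erase_of_mem (Finset.mem_univ j), Finset.card_univ, Fintype.card_fin] at h1
    rw [finrank_bot, add_zero] at han
    have := j.2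
    omega
  · intro F₁ hF hS
    rw [hc, Finset.smul_sum]
    refine IsRat.sum _ fun i _ => ?_
    rw [smul_smul]
    refine ((haR i).2.mono hF).smul ?_
    by_cases hij : i = j
    · rw [hij, inv_mul_cancel₀ hj]; exact F₁.one_mem
    · exact hS _ (Finset.mem_image.mpr ⟨i, Finset.mem_erase.mpr ⟨hij, Finset.mem_univ i⟩, rfl⟩)

theorem step_a {bp : ℕ} {n : ℕ} {ι : Type*} [Finite ι] {wX : ι → ℕ} {εC : Fin n → ℕ}
    {ν : Fin n → ι → ℂ[X]} (hν : RB wX εC ν) {E : Fin bp → ℕ} {a : Fin bp → ι → ℂ[X]}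
    (ha : ∀ i, a i ∈ lev (lat ν) wX (E i + 1)) (i0 : Fin bp) (ha0 : a i0 ≠ 0) {F₀ : Subfield ℝ}
    (hνrat : ∀ l, IsRat (cplx F₀) (ν l)) :
    ∃ (ζ : ℂ) (S4 : Finset ℝ), ζ ≠ 0 ∧ S4.card + 2 ≤ 2 * ∑ i, ∑ l, (E i + 1 - εC l) ∧
      ∀ F₁ : Subfield ℝ, F₀ ≤ F₁ → (∀ s ∈ S4, s ∈ F₁) →
        ∀ i, IsRat (cplx F₁) (ζ • a i) := by
  classical
  have hD : ∀ t, Dfn (cplx F₀) (lev (lat ν) wX t) := fun t => dfn_lev_of_rat hνrat wX t
  obtain ⟨ζ, hζ, S0, hS0, hS0F⟩ := exists_params_mem_norm (hD (E i0 + 1)) (ha i0) ha0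
  have h1 : ∀ i, ∃ S : Finset ℂ, S.card + (if i = i0 then 1 else 0) ≤ ∑ l, (E i + 1 - εC l) ∧
      ∀ F₁ : Subfield ℂ, cplx F₀ ≤ F₁ → (∀ s ∈ S, s ∈ F₁) → IsRat F₁ (ζ • a i) := by
    intro i
    by_cases hi : i = i0
    · subst hi
      refine ⟨S0, ?_, hS0F⟩
      rw [if_pos rfl, ← hν.finrank_lev]
      exact hS0
    · obtain ⟨S, hS, hSF⟩ := exists_params_mem (hD (E i + 1)) (x := ζ • a i)
        (Submodule.smul_mem _ _ (ha i))
      refine ⟨S, ?_, hSF⟩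
      rw [if_neg hi, add_zero, ← hν.finrank_lev]
      exact hS
  choose S hS hSF using h1
  refine ⟨ζ, Finset.univ.biUnion fun i => reim (S i) id, hζ, ?_, ?_⟩
  · have h2 : (Finset.univ.biUnion fun i => reim (S i) id).card ≤ ∑ i, 2 * (S i).card :=
      Finset.card_biUnion_le.trans (Finset.sum_le_sum fun i _ => reim_card _ _)
    have h3 := Finset.sum_le_sum (s := Finset.univ) fun i _ => hS i
    rw [Finset.sum_add_distrib, Finset.sum_ite_eq' Finset.univ i0 (fun _ => 1),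
      if_pos (Finset.mem_univ i0)] at h3
    rw [← Finset.mul_sum] at h2
    omega
  · intro F₁ hF hS' i
    refine hSF i (cplx F₁) (cplx_mono hF) fun s hs => ?_
    exact reim_cplx (A := S i) (g := id) (fun y hy => hS' y (Finset.mem_biUnion.mpr
      ⟨i, Finset.mem_univ i, hy⟩)) hs

end

end Pool.Agent.Helper730_PP
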