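import Pool.Agent.Helper730_PP.Compact

/-!
# The lattice attached to a system of Plücker coordinates
-/

open Polynomial Matrix

namespace Pool.Agent.Helper730_PP

noncomputable section

variable {m N q : ℕ}

/-- A lattice equal to its double orthogonal has a right inverse. -/
theorem exists_right_inverse {ι : Type*} [Fintype ι] [DecidableEq ι] {Y : Submodule ℝ[X] (ι → ℝ[X])}
    {B : Fin m → ι → ℝ[X]} (hB : LinearIndependent ℝ[X] B) (hlat : lat B = perp Y) :
    ∃ Ψ : ι → Fin m → ℝ[X], ∀ j k, ∑ l, B j l * Ψ l k = if j = k then 1 else 0 := by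
  classical
  set V : Submodule ℝ[X] (ι → ℝ[X]) := lat B with hV
  have htf : Module.IsTorsionFree ℝ[X] ((ι → ℝ[X]) ⧸ V) := by
    refine Module.isTorsionFree_iff_smul_eq_zero.mpr ?_
    intro r x
    obtain ⟨v, rfl⟩ := V.mkQ_surjective x
    intro hx
    by_cases hr : r = 0
    · exact Or.inl hr
    right
    rw [← map_smul, Submodule.mkQ_apply, Submodule.Quotient.mk_eq_zero, hlat] at hx
    rw [Submodule.mkQ_apply, Submodule.Quotient.mk_eq_zero, hlat]
    intro y hy
    have h1 := hx y hy
    rw [map_smul, smul_eq_mul] at h1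
    exact (mul_eq_zero.mp h1).resolve_left hr
  have hfree : Module.Free ℝ[X] ((ι → ℝ[X]) ⧸ V) := Module.free_of_finite_type_torsion_free'
  obtain ⟨g, hg⟩ := Module.projective_lifting_property V.mkQ
    (LinearMap.id : ((ι → ℝ[X]) ⧸ V) →ₗ[ℝ[X]] _) V.mkQ_surjective
  have hρ : ∀ v, v - g (V.mkQ v) ∈ V := by
    intro v
    rw [← Submodule.Quotient.mk_eq_zero, ← Submodule.mkQ_apply, map_sub]
    have h1 := LinearMap.congr_fun hg (V.mkQ v)
    rw [LinearMap.comp_apply, LinearMap.id_apply] at h1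
    rw [h1, sub_self]
  have hcoef : ∀ l : ι, ∃ p : Fin m → ℝ[X], ∑ k, p k • B k
      = (Pi.single l 1 : ι → ℝ[X]) - g (V.mkQ (Pi.single l 1)) := fun l => mem_lat.mp (hρ _)
  choose Ψ hΨ using hcoef
  refine ⟨Ψ, fun j k => ?_⟩
  have hsingle : ∀ v : ι → ℝ[X], v = ∑ l, v l • (Pi.single l 1 : ι → ℝ[X]) := by
    intro v
    funext i
    rw [Finset.sum_apply, Finset.sum_eq_single i]
    · simp
    · intro b _ hb
      rw [Pi.smul_apply, Pi.single_eq_of_ne (Ne.symm hb), smul_zero]
    · intro h; exact absurd (Finset.mem_univ _) h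
  have h1 : ∑ l, B j l • (∑ k, Ψ l k • B k) = B j := by
    have h2 : ∑ l, B j l • (∑ k, Ψ l k • B k) = B j - g (V.mkQ (B j)) := by
      conv_rhs => rw [hsingle (B j)]
      rw [map_sum, map_sum, ← Finset.sum_sub_distrib]
      refine Finset.sum_congr rfl fun l _ => ?_
      rw [hΨ, smul_sub, map_smul, map_smul]
    have h3 : V.mkQ (B j) = 0 := by
      rw [Submodule.mkQ_apply, Submodule.Quotient.mk_eq_zero]
      exact Submodule.subset_span ⟨j, rfl⟩
    rw [h2, h3, map_zero, sub_zero]
  have h2 : ∑ k, ((∑ l, B j l * Ψ l k) - if j = k then 1 else 0) • B k = 0 := by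
    have h3 : ∑ k, (∑ l, B j l * Ψ l k) • B k = B j := by
      refine Eq.trans ?_ h1
      simp only [Finset.smul_sum, Finset.sum_smul, smul_smul]
      rw [Finset.sum_comm]
    have h4 : ∑ k, (if j = k then (1 : ℝ[X]) else 0) • B k = B j := by
      rw [Finset.sum_eq_single j]
      · simp
      · intro k _ hk
        rw [if_neg (Ne.symm hk), zero_smul]
      · intro h; exact absurd (Finset.mem_univ _) h
    simp only [sub_smul, Finset.sum_sub_distrib]
    rw [h3, h4, sub_self]
  rw [Fintype.linearIndependent_iff] at hB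
  exact sub_eq_zero.mp (hB _ h2 k)

theorem det_mul_expand (P : PolyMat m N) (Ψ : Matrix (Fin N) (Fin m) ℝ[X]) :
    (P * Ψ).det = ∑ J : Fin m → Fin N, (∏ k, Ψ (J k) k) * fullMinor P J := by
  have h1 : (P * Ψ).det = Matrix.detRowAlternating (R := ℝ[X]) (n := Fin m)
      (fun k => ∑ l, Ψ l k • (fun i => P i l)) := by
    rw [← Matrix.det_transpose]
    show Matrix.detRowAlternating (R := ℝ[X]) (n := Fin m) _ = _
    congr 1
    funext k i
    rw [Matrix.transpose_apply, Matrix.mul_apply, Finset.sum_apply]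
    exact Finset.sum_congr rfl fun l _ => by
      rw [Pi.smul_apply, smul_eq_mul, mul_comm]
  rw [h1]
  have h3 := MultilinearMap.map_sum
    (Matrix.detRowAlternating (R := ℝ[X]) (n := Fin m)).toMultilinearMap
    (fun (k : Fin m) (l : Fin N) => Ψ l k • (fun i => P i l))
  have h4 : Matrix.detRowAlternating (R := ℝ[X]) (n := Fin m)
      (fun k => ∑ l, Ψ l k • (fun i => P i l))
      = ∑ r : Fin m → Fin N, Matrix.detRowAlternating (R := ℝ[X]) (n := Fin m)
        (fun k => Ψ (r k) k • (fun i => P i (r k))) := h3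
  rw [h4]
  refine Finset.sum_congr rfl fun J _ => ?_
  have h5 := MultilinearMap.map_smul_univ
    (Matrix.detRowAlternating (R := ℝ[X]) (n := Fin m)).toMultilinearMap
    (fun k => Ψ (J k) k) (fun k => fun i => P i (J k))
  have h6 : Matrix.detRowAlternating (R := ℝ[X]) (n := Fin m)
      (fun k => Ψ (J k) k • (fun i => P i (J k)))
      = (∏ k, Ψ (J k) k) • Matrix.detRowAlternating (R := ℝ[X]) (n := Fin m)
        (fun k => fun i => P i (J k)) := h5
  rw [h6, smul_eq_mul]
  congr 1
  unfold fullMinor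
  rw [← Matrix.det_transpose]
  rfl

/-- Reduced families have a full-size minor of the maximal possible degree. -/
theorem RB.exists_minor {δ : Fin m → ℕ} {B : Fin m → Fin N → ℝ[X]} (h : RB w0 δ B) :
    ∃ J : Fin m → Fin N, fullMinor (Matrix.of B) J ≠ 0 ∧
      (fullMinor (Matrix.of B) J).natDegree = ∑ k, δ k := by
  classical
  have hdeg : ∀ k j, (B k j).natDegree ≤ δ k := by
    intro k j
    rw [natDegree_le_iff_coeff_eq_zero]
    intro l hl
    exact h.fil k j l (by simpa using hl)
  have hlead : ∀ α : Fin m → ℝ, (∀ j, ∑ k, α k * (B k j).coeff (δ k) = 0) → α = 0 := by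
    intro α hα
    by_contra hne
    have hsupp : (Finset.univ.filter fun k => α k ≠ 0).Nonempty := by
      by_contra h
      rw [Finset.not_nonempty_iff_eq_empty] at h
      apply hne
      funext i
      by_contra hi
      have : i ∈ Finset.univ.filter fun i => α i ≠ 0 := by simpa using hi
      rw [h] at this
      exact absurd this (Finset.notMem_empty i)
    obtain ⟨k0, hk0, hmax⟩ := Finset.exists_max_image _ δ hsupp
    have hk0' : α k0 ≠ 0 := (Finset.mem_filter.mp hk0).2
    have hmax' : ∀ k, α k ≠ 0 → δ k ≤ δ k0 := fun k hk => hmax k (by simpa using hk)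
    have h1 := h.pd (fun k => C (α k) * X ^ (δ k0 - δ k)) (δ k0) (by
      intro j l hl
      have hl' : δ k0 ≤ l := by simpa using hl
      rw [Finset.sum_apply, finsetSum_coeff]
      rcases Nat.lt_or_ge (δ k0) l with h2 | h2
      · refine Finset.sum_eq_zero fun k _ => ?_
        rw [Pi.smul_apply, smul_eq_mul]
        by_cases hk : α k = 0
        · simp [hk]
        · have h3 := hmax' k hk
          rw [mul_assoc, coeff_C_mul, coeff_X_pow_mul', if_pos (by omega),
            coeff_eq_zero_of_natDegree_lt (lt_of_le_of_lt (hdeg k j) (by omega)), mul_zero]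
      · have hle : l = δ k0 := le_antisymm h2 hl'
        rw [← hα j]
        refine Finset.sum_congr rfl fun k _ => ?_
        rw [Pi.smul_apply, smul_eq_mul]
        by_cases hk : α k = 0
        · simp [hk]
        · have h3 := hmax' k hk
          rw [mul_assoc, coeff_C_mul, coeff_X_pow_mul', if_pos (by omega), hle]
          congr 2
          omega) k0 0 (by omega)
    simp only [Nat.sub_self, pow_zero, mul_one, coeff_C_zero] at h1
    exact hk0' h1
  obtain ⟨J, hJ⟩ := exists_minor_ne_zero (Matrix.of fun k j => (B k j).coeff (δ k)) (fun α hα =>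
    hlead α hα)
  have h1 := det_coeff_sum ((Matrix.of B).submatrix id J) δ (fun i j => hdeg i (J j))
  have h2 : ((Matrix.of B).submatrix id J).det.coeff (∑ k, δ k) ≠ 0 := by
    rw [h1.2]; exact hJ
  refine ⟨J, ?_, le_antisymm h1.1 (le_natDegree_of_ne_zero h2)⟩
  intro h0
  apply h2
  have : ((Matrix.of B).submatrix id J).det = 0 := h0
  rw [this, coeff_zero]

/-- The lattice attached to a system of Plücker coordinates. -/
theorem IsPl.exists_lattice {ξ : (Fin m → Fin N) → ℝ[X]} (h : IsPl ξ)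
    (hq : ∀ I, (ξ I).natDegree ≤ q) (hne : ∃ I, ξ I ≠ 0) :
    ∃ (δ : Fin m → ℕ) (B : Fin m → Fin N → ℝ[X]) (θ : ℝ[X]), RB w0 δ B ∧ θ ≠ 0 ∧
      θ.natDegree + ∑ k, δ k ≤ q ∧ ∀ J, ξ J = θ * fullMinor (Matrix.of B) J := by
  classical
  obtain ⟨I, hI⟩ := hne
  set Xr : Fin m → Fin N → ℝ[X] := fun j l => ξ (Function.update I j l) with hXr
  have hXminor : ∀ J, fullMinor (Matrix.of Xr) J = ξ I ^ (m - 1) * ξ J := fun J => h I J
  have hXli : LinearIndependent ℝ[X] Xr := by
    rw [Fintype.linearIndependent_iff]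
    intro g hg
    have h1 : Matrix.vecMul g ((Matrix.of Xr).submatrix id I) = 0 := by
      funext k
      have h2 := congrFun hg (I k)
      rw [Finset.sum_apply, Pi.zero_apply] at h2
      rw [Matrix.vecMul, dotProduct, Pi.zero_apply]
      exact h2
    by_contra hcon
    have hg0 : g ≠ 0 := fun h0 => hcon fun i => by rw [h0]; rfl
    have h2 := Matrix.exists_vecMul_eq_zero_iff.mp ⟨g, hg0, h1⟩
    have h3 : ξ I ^ (m - 1) * ξ I = 0 := by rw [← hXminor I]; exact h2
    exact mul_ne_zero (pow_ne_zero _ hI) hI h3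
  -- the saturation
  obtain ⟨y, δY, ηY, -, hηY, hYlat⟩ := exists_RB (w0 (ι := Fin N)) (perp (lat Xr))
  obtain ⟨r, δ, B, -, hB, hBlat⟩ := exists_RB (w0 (ι := Fin N)) (perp (lat ηY))
  have hlevX : ∀ k, ∃ t, Xr k ∈ Lv ℝ w0 (t + 1) := fun k => exists_lv_succ _ _
  choose τX hτX using hlevX
  have h1 := (perp_le (w := w0) (w' := w0) (c := 0) (fun _ => rfl) hτX hηY hYlat.symm).1
  have h2 := card_le_of_perp_real hηY.li hB.li (fun k => by
    rw [← hBlat]; exact Submodule.subset_span ⟨k, rfl⟩)
  have hXB : ∀ j, Xr j ∈ lat B := by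
    intro j
    rw [hBlat, hYlat]
    exact le_perp_perp _ (Submodule.subset_span ⟨j, rfl⟩)
  have h3 := card_le_of_torsion (f := B) hXli (fun j => ⟨1, one_ne_zero, by
    rw [one_smul]; exact hXB j⟩)
  rw [Fintype.card_fin, Fintype.card_fin, Fintype.card_fin] at h1
  rw [Fintype.card_fin, Fintype.card_fin, Fintype.card_fin] at h2
  rw [Fintype.card_fin, Fintype.card_fin] at h3
  have hr : r = m := by omega
  subst hr
  choose T hT using fun j => mem_lat.mp (hXB j)
  have hXTB : (Matrix.of Xr : PolyMat r N) = Matrix.of T * Matrix.of B := by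
    refine Matrix.ext fun j l => ?_
    have h4 := congrFun (hT j) l
    rw [Finset.sum_apply] at h4
    rw [Matrix.mul_apply, Matrix.of_apply, ← h4]
    rfl
  obtain ⟨Ψ, hΨ⟩ := exists_right_inverse hB.li hBlat
  have hBΨ : (Matrix.of B : Matrix (Fin r) (Fin N) ℝ[X]) * Matrix.of Ψ = 1 := by
    refine Matrix.ext fun j k => ?_
    rw [Matrix.mul_apply, Matrix.one_apply, ← hΨ j k]
    rfl
  set θ : ℝ[X] := ∑ J : Fin r → Fin N, (∏ k, Ψ (J k) k) * ξ J with hθ
  have hdetT : (Matrix.of T : Matrix (Fin r) (Fin r) ℝ[X]).det = ξ I ^ (r - 1) * θ := by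
    have h4 : (Matrix.of T : Matrix (Fin r) (Fin r) ℝ[X]) = Matrix.of Xr * Matrix.of Ψ := by
      rw [hXTB, Matrix.mul_assoc, hBΨ, Matrix.mul_one]
    rw [h4, det_mul_expand, hθ, Finset.mul_sum]
    refine Finset.sum_congr rfl fun J _ => ?_
    rw [hXminor]
    simp only [Matrix.of_apply]
    ring
  have hminor : ∀ J, ξ J = θ * fullMinor (Matrix.of B) J := by
    intro J
    have h4 := hXminor J
    have h5 : fullMinor (Matrix.of Xr) J
        = (Matrix.of T : Matrix (Fin r) (Fin r) ℝ[X]).det * fullMinor (Matrix.of B) J := by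
      unfold fullMinor
      rw [hXTB, ← Matrix.det_mul]
      congr 1
    rw [h5, hdetT, mul_assoc] at h4
    exact (mul_left_cancel₀ (pow_ne_zero _ hI) h4).symm
  have hθ0 : θ ≠ 0 := by
    intro h0
    apply hI
    rw [hminor, h0, zero_mul]
  obtain ⟨J, hJ0, hJd⟩ := hB.exists_minor
  refine ⟨δ, B, θ, hB, hθ0, ?_, hminor⟩
  have h4 := hq J
  rw [hminor, natDegree_mul hθ0 hJ0, hJd] at h4
  exact h4

end

end Pool.Agent.Helper730_PP
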