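import Pool.Agent.Helper730_PP.Pair
import Pool.Agent.Helper730_PP.Alg

/-!
# Right inverse, surjectivity, and free coordinates
-/

open Polynomial Matrix

namespace Pool.Agent.Helper730_PP

/-- All coefficients lie in `K`. -/
def InK (K : Subfield ℂ) (p : ℂ[X]) : Prop := ∀ k, p.coeff k ∈ K

namespace InK

variable {K : Subfield ℂ} {p q : ℂ[X]}

theorem zero : InK K 0 := fun k => by rw [coeff_zero]; exact K.zero_mem

theorem one : InK K 1 := fun k => by
  rw [coeff_one]; split_ifs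
  · exact K.one_mem
  · exact K.zero_mem

theorem C {a : ℂ} (ha : a ∈ K) : InK K (Polynomial.C a) := fun k => by
  rw [coeff_C]; split_ifs
  · exact ha
  · exact K.zero_mem

theorem add (hp : InK K p) (hq : InK K q) : InK K (p + q) := fun k => by
  rw [coeff_add]; exact K.add_mem (hp k) (hq k)

theorem neg (hp : InK K p) : InK K (-p) := fun k => by
  rw [coeff_neg]; exact K.neg_mem (hp k)

theorem sub (hp : InK K p) (hq : InK K q) : InK K (p - q) := fun k => by
  rw [coeff_sub]; exact K.sub_mem (hp k) (hq k)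

theorem mul (hp : InK K p) (hq : InK K q) : InK K (p * q) := fun k => by
  rw [coeff_mul]; exact K.sum_mem fun x _ => K.mul_mem (hp x.1) (hq x.2)

theorem X_pow (n : ℕ) : InK K (X ^ n) := fun k => by
  rw [coeff_X_pow]; split_ifs
  · exact K.one_mem
  · exact K.zero_mem

theorem sum {ι : Type*} (s : Finset ι) {f : ι → ℂ[X]} (h : ∀ i ∈ s, InK K (f i)) :
    InK K (∑ i ∈ s, f i) := fun k => by
  rw [finsetSum_coeff]; exact K.sum_mem fun i hi => h i hi k

end InK

namespace MinPair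

variable {c : ℕ} {H : Fin c → Fin c → ℂ[X]} {ξ1 ξ2 : Fin c → ℂ[X]} {x1 x2 : ℕ}

theorem bezout (h : MinPair H ξ1 ξ2 x1 x2) :
    ∃ e : Fin c → Fin c → ℂ[X], ∑ j, ∑ k, e j k * (ξ1 j * ξ2 k - ξ1 k * ξ2 j) = 1 := by
  set m : Fin c × Fin c → ℂ[X] := fun x => ξ1 x.1 * ξ2 x.2 - ξ1 x.2 * ξ2 x.1 with hm
  have htop : Ideal.span (Set.range m) = ⊤ := by
    by_contra hne
    set g : ℂ[X] := Submodule.IsPrincipal.generator (Ideal.span (Set.range m)) with hg
    have hspan : Ideal.span {g} = Ideal.span (Set.range m) :=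
      Ideal.span_singleton_generator _
    have hdvd : ∀ x, g ∣ m x := by
      intro x
      rw [← Ideal.mem_span_singleton, hspan]
      exact Ideal.subset_span ⟨x, rfl⟩
    have hg0 : g ≠ 0 := by
      intro h0
      obtain ⟨j, k, hjk⟩ := h.indep
      have := hdvd (j, k)
      rw [h0, zero_dvd_iff] at this
      exact hjk this
    have hdeg : g.degree ≠ 0 := by
      intro h1
      apply hne
      rw [← hspan, Ideal.span_singleton_eq_top]
      exact isUnit_iff_degree_eq_zero.mpr h1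
    obtain ⟨l, hl⟩ := IsAlgClosed.exists_root g hdeg
    have hroot : ∀ j k, (ξ1 j).eval l * (ξ2 k).eval l - (ξ1 k).eval l * (ξ2 j).eval l = 0 := by
      intro j k
      obtain ⟨r, hr⟩ := hdvd (j, k)
      have h1 := congrArg (eval l) hr
      rw [eval_mul, IsRoot.def.mp hl, zero_mul, hm] at h1
      simpa using h1
    obtain ⟨j, hj⟩ : ∃ j, (ξ1 j).eval l ≠ 0 := by
      by_contra hcon
      push Not at hcon
      have := (h.pointwise l 1 0 (fun k => by rw [hcon k]; ring)).1
      exact one_ne_zero this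
    have := (h.pointwise l (-(ξ2 j).eval l) ((ξ1 j).eval l)
      (fun k => by linear_combination hroot j k)).2
    exact hj this
  have h1 : (1 : ℂ[X]) ∈ Ideal.span (Set.range m) := by rw [htop]; trivial
  obtain ⟨e, he⟩ := Ideal.mem_span_range_iff_exists_fun.mp h1
  refine ⟨fun j k => e (j, k), ?_⟩
  rw [← he, Fintype.sum_prod_type]

/-- A polynomial right inverse. -/
theorem rightInv (h : MinPair H ξ1 ξ2 x1 x2) :
    ∃ η1 η2 : Fin c → ℂ[X], ∑ k, ξ1 k * η1 k = 1 ∧ ∑ k, ξ2 k * η1 k = 0 ∧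
      ∑ k, ξ1 k * η2 k = 0 ∧ ∑ k, ξ2 k * η2 k = 1 := by
  obtain ⟨e, he⟩ := h.bezout
  have hswap : ∀ (a b : Fin c → ℂ[X]), ∑ j, ∑ k, e k j * (a j * b k)
      = ∑ j, ∑ k, e j k * (a k * b j) := by
    intro a b
    rw [Finset.sum_comm]
  refine ⟨fun j => ∑ k, (e j k - e k j) * ξ2 k, fun k => ∑ j, (e j k - e k j) * ξ1 j,
    ?_, ?_, ?_, ?_⟩
  · have h1 : ∑ j, ξ1 j * ∑ k, (e j k - e k j) * ξ2 k
        = ∑ j, ∑ k, e j k * (ξ1 j * ξ2 k) - ∑ j, ∑ k, e k j * (ξ1 j * ξ2 k) := by
      rw [← Finset.sum_sub_distrib]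
      refine Finset.sum_congr rfl fun j _ => ?_
      rw [← Finset.sum_sub_distrib, Finset.mul_sum]
      exact Finset.sum_congr rfl fun k _ => by ring
    rw [h1, hswap, ← he, ← Finset.sum_sub_distrib]
    refine Finset.sum_congr rfl fun j _ => ?_
    rw [← Finset.sum_sub_distrib]
    exact Finset.sum_congr rfl fun k _ => by ring
  · have h1 : ∑ j, ξ2 j * ∑ k, (e j k - e k j) * ξ2 k
        = ∑ j, ∑ k, e j k * (ξ2 j * ξ2 k) - ∑ j, ∑ k, e k j * (ξ2 j * ξ2 k) := by
      rw [← Finset.sum_sub_distrib]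
      refine Finset.sum_congr rfl fun j _ => ?_
      rw [← Finset.sum_sub_distrib, Finset.mul_sum]
      exact Finset.sum_congr rfl fun k _ => by ring
    rw [h1, hswap, sub_eq_zero]
    exact Finset.sum_congr rfl fun j _ => Finset.sum_congr rfl fun k _ => by ring
  · have h1 : ∑ k, ξ1 k * ∑ j, (e j k - e k j) * ξ1 j
        = ∑ k, ∑ j, e j k * (ξ1 k * ξ1 j) - ∑ k, ∑ j, e k j * (ξ1 k * ξ1 j) := by
      rw [← Finset.sum_sub_distrib]
      refine Finset.sum_congr rfl fun j _ => ?_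
      rw [← Finset.sum_sub_distrib, Finset.mul_sum]
      exact Finset.sum_congr rfl fun k _ => by ring
    rw [h1, hswap, sub_eq_zero]
    exact Finset.sum_congr rfl fun j _ => Finset.sum_congr rfl fun k _ => by ring
  · have h1 : ∑ k, ξ2 k * ∑ j, (e j k - e k j) * ξ1 j
        = ∑ k, ∑ j, e j k * (ξ2 k * ξ1 j) - ∑ k, ∑ j, e k j * (ξ2 k * ξ1 j) := by
      rw [← Finset.sum_sub_distrib]
      refine Finset.sum_congr rfl fun j _ => ?_
      rw [← Finset.sum_sub_distrib, Finset.mul_sum]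
      exact Finset.sum_congr rfl fun k _ => by ring
    rw [h1, hswap, ← he, ← Finset.sum_sub_distrib]
    refine Finset.sum_congr rfl fun j _ => ?_
    rw [← Finset.sum_sub_distrib]
    exact Finset.sum_congr rfl fun k _ => by ring

theorem exists_lead (h : MinPair H ξ1 ξ2 x1 x2) :
    ∃ j k, (ξ1 j).coeff x1 * (ξ2 k).coeff x2 - (ξ1 k).coeff x1 * (ξ2 j).coeff x2 ≠ 0 := by
  by_contra hcon
  push Not at hcon
  obtain ⟨j, hj⟩ : ∃ j, (ξ1 j).coeff x1 ≠ 0 := by
    by_contra hc
    push Not at hc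
    have := (h.reduced 1 0 (fun k => by rw [hc k]; ring)).1
    exact one_ne_zero this
  have := (h.reduced (-(ξ2 j).coeff x2) ((ξ1 j).coeff x1)
    (fun k => by linear_combination hcon j k)).2
  exact hj this

/-- Surjectivity of `f ↦ (ξ₁ f, ξ₂ f)` with sharp degree bounds. -/
theorem surj (h : MinPair H ξ1 ξ2 x1 x2) {n : ℕ} (hn : x1 + x2 ≤ n + 1) {g1 g2 : ℂ[X]}
    (hg1 : g1.natDegree ≤ n + x1) (hg2 : g2.natDegree ≤ n + x2) :
    ∃ f : Fin c → ℂ[X], (∀ k, (f k).natDegree ≤ n) ∧ ∑ k, ξ1 k * f k = g1 ∧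
      ∑ k, ξ2 k * f k = g2 := by
  classical
  obtain ⟨η1, η2, e11, e21, e12, e22⟩ := h.rightInv
  obtain ⟨j, k, hjk⟩ := h.exists_lead
  have hne : j ≠ k := by
    rintro rfl
    apply hjk; ring
  set m : ℂ[X] := ξ1 j * ξ2 k - ξ1 k * ξ2 j with hm
  have hmc : m.coeff (x1 + x2) ≠ 0 := by
    rw [hm, coeff_sub, coeff_mul_add_eq_of_natDegree_le (h.deg1 j) (h.deg2 k),
      coeff_mul_add_eq_of_natDegree_le (h.deg1 k) (h.deg2 j)]
    exact hjk
  have hmd : m.natDegree = x1 + x2 := by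
    apply natDegree_eq_of_le_of_coeff_ne_zero _ hmc
    refine (natDegree_sub_le _ _).trans (max_le ?_ ?_)
    · exact natDegree_mul_le.trans (add_le_add (h.deg1 j) (h.deg2 k))
    · exact natDegree_mul_le.trans (add_le_add (h.deg1 k) (h.deg2 j))
  have hm0 : m ≠ 0 := by
    rintro h0
    rw [h0, coeff_zero] at hmc
    exact hmc rfl
  set p : Fin c → ℂ[X] := fun l => η1 l * g1 + η2 l * g2 with hp
  have hp1 : ∑ l, ξ1 l * p l = g1 := by
    have : ∑ l, ξ1 l * p l = (∑ l, ξ1 l * η1 l) * g1 + (∑ l, ξ1 l * η2 l) * g2 := by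
      rw [Finset.sum_mul, Finset.sum_mul, ← Finset.sum_add_distrib]
      exact Finset.sum_congr rfl fun l _ => by rw [hp]; ring
    rw [this, e11, e12]; ring
  have hp2 : ∑ l, ξ2 l * p l = g2 := by
    have : ∑ l, ξ2 l * p l = (∑ l, ξ2 l * η1 l) * g1 + (∑ l, ξ2 l * η2 l) * g2 := by
      rw [Finset.sum_mul, Finset.sum_mul, ← Finset.sum_add_distrib]
      exact Finset.sum_congr rfl fun l _ => by rw [hp]; ring
    rw [this, e21, e22]; ring
  -- remainders
  have hmod : ∀ l, m * (p l / m) + p l % m = p l := fun l => EuclideanDomain.div_add_mod _ _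
  have hrd : ∀ l, (p l % m).natDegree ≤ n := by
    intro l
    by_cases hr : p l % m = 0
    · rw [hr]; simp
    · have h1 : (p l % m).degree < m.degree := degree_mod_lt _ hm0
      have h2 : (p l % m).natDegree < m.natDegree := natDegree_lt_natDegree hr h1
      omega
  set R : Finset (Fin c) := (Finset.univ.erase j).erase k with hR
  set fj : ℂ[X] := p j + ∑ l ∈ R, (p l / m) * (ξ1 l * ξ2 k - ξ1 k * ξ2 l) with hfj
  set fk : ℂ[X] := p k + ∑ l ∈ R, (p l / m) * (ξ1 j * ξ2 l - ξ1 l * ξ2 j) with hfk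
  set f : Fin c → ℂ[X] := fun l => if l = j then fj else if l = k then fk else p l % m with hf
  have hfjv : f j = fj := by rw [hf]; simp
  have hfkv : f k = fk := by rw [hf]; simp [hne.symm]
  have hfl : ∀ l ∈ R, f l = p l % m := by
    intro l hl
    rw [hR, Finset.mem_erase, Finset.mem_erase] at hl
    rw [hf]; simp [hl.1, hl.2.1]
  have hsplit : ∀ a : Fin c → ℂ[X], ∑ l, a l = a j + a k + ∑ l ∈ R, a l := by
    intro a
    rw [← Finset.add_sum_erase Finset.univ a (Finset.mem_univ j),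
      ← Finset.add_sum_erase (Finset.univ.erase j) a
        (Finset.mem_erase.mpr ⟨hne.symm, Finset.mem_univ k⟩), hR]
    ring
  -- the two equations
  have key : ∀ ξ : Fin c → ℂ[X], (∀ l, m * ξ l = ξ j * (ξ1 l * ξ2 k - ξ1 k * ξ2 l)
      + ξ k * (ξ1 j * ξ2 l - ξ1 l * ξ2 j)) → ∑ l, ξ l * f l = ∑ l, ξ l * p l := by
    intro ξ hξ
    rw [hsplit, hsplit (fun l => ξ l * p l), hfjv, hfkv]
    have h1 : ∑ l ∈ R, ξ l * f l = ∑ l ∈ R, ξ l * p l - ∑ l ∈ R, (p l / m) * (m * ξ l) := by
      rw [← Finset.sum_sub_distrib]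
      refine Finset.sum_congr rfl fun l hl => ?_
      rw [hfl l hl]
      linear_combination (ξ l) * hmod l
    have h2 : ∑ l ∈ R, (p l / m) * (m * ξ l)
        = ξ j * ∑ l ∈ R, (p l / m) * (ξ1 l * ξ2 k - ξ1 k * ξ2 l)
          + ξ k * ∑ l ∈ R, (p l / m) * (ξ1 j * ξ2 l - ξ1 l * ξ2 j) := by
      rw [Finset.mul_sum, Finset.mul_sum, ← Finset.sum_add_distrib]
      refine Finset.sum_congr rfl fun l _ => ?_
      rw [hξ l]; ring
    rw [h1, h2, hfj, hfk]
    ring
  have k1 : ∑ l, ξ1 l * f l = g1 := by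
    rw [key ξ1 (fun l => by rw [hm]; ring), hp1]
  have k2 : ∑ l, ξ2 l * f l = g2 := by
    rw [key ξ2 (fun l => by rw [hm]; ring), hp2]
  -- degrees
  set G1 : ℂ[X] := g1 - ∑ l ∈ R, ξ1 l * (p l % m) with hG1
  set G2 : ℂ[X] := g2 - ∑ l ∈ R, ξ2 l * (p l % m) with hG2
  have e1 : ξ1 j * fj + ξ1 k * fk = G1 := by
    have h1 := k1
    rw [hsplit, hfjv, hfkv] at h1
    rw [hG1, ← h1]
    have : ∑ l ∈ R, ξ1 l * f l = ∑ l ∈ R, ξ1 l * (p l % m) :=
      Finset.sum_congr rfl fun l hl => by rw [hfl l hl]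
    rw [this]; ring
  have e2 : ξ2 j * fj + ξ2 k * fk = G2 := by
    have h1 := k2
    rw [hsplit, hfjv, hfkv] at h1
    rw [hG2, ← h1]
    have : ∑ l ∈ R, ξ2 l * f l = ∑ l ∈ R, ξ2 l * (p l % m) :=
      Finset.sum_congr rfl fun l hl => by rw [hfl l hl]
    rw [this]; ring
  have hG1d : G1.natDegree ≤ n + x1 := by
    refine (natDegree_sub_le _ _).trans (max_le hg1 ?_)
    refine natDegree_sum_le_of_forall_le _ _ fun l _ => ?_
    refine natDegree_mul_le.trans ?_
    have := h.deg1 l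
    have := hrd l
    omega
  have hG2d : G2.natDegree ≤ n + x2 := by
    refine (natDegree_sub_le _ _).trans (max_le hg2 ?_)
    refine natDegree_sum_le_of_forall_le _ _ fun l _ => ?_
    refine natDegree_mul_le.trans ?_
    have := h.deg2 l
    have := hrd l
    omega
  have hdivdeg : ∀ v w : ℂ[X], m * v = w → w.natDegree ≤ n + (x1 + x2) → v.natDegree ≤ n := by
    intro v w hvw hw
    by_cases hv : v = 0
    · rw [hv]; simp
    · rw [← hvw, natDegree_mul hm0 hv, hmd] at hw
      omega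
  have hfjd : fj.natDegree ≤ n := by
    refine hdivdeg fj (G1 * ξ2 k - G2 * ξ1 k) ?_ ?_
    · rw [hm]; linear_combination ξ2 k * e1 - ξ1 k * e2
    · refine (natDegree_sub_le _ _).trans (max_le ?_ ?_)
      · refine natDegree_mul_le.trans ?_
        have := h.deg2 k
        omega
      · refine natDegree_mul_le.trans ?_
        have := h.deg1 k
        omega
  have hfkd : fk.natDegree ≤ n := by
    refine hdivdeg fk (ξ1 j * G2 - ξ2 j * G1) ?_ ?_
    · rw [hm]; linear_combination ξ1 j * e2 - ξ2 j * e1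
    · refine (natDegree_sub_le _ _).trans (max_le ?_ ?_)
      · refine natDegree_mul_le.trans ?_
        have := h.deg1 j
        omega
      · refine natDegree_mul_le.trans ?_
        have := h.deg2 j
        omega
  refine ⟨f, fun l => ?_, k1, k2⟩
  by_cases hl : l = j
  · rw [hl, hfjv]; exact hfjd
  · by_cases hl2 : l = k
    · rw [hl2, hfkv]; exact hfkd
    · rw [hfl l (by rw [hR, Finset.mem_erase, Finset.mem_erase]; exact ⟨hl2, hl, Finset.mem_univ _⟩)]
      exact hrd l

end MinPair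

/-- A surjective matrix has as many pivot columns as rows; the pivot coordinates of a solution are
determined, over the field of the entries, by the others. -/
theorem exists_pivots {ι ρ : Type} [Fintype ι] [DecidableEq ι] [Fintype ρ] [DecidableEq ρ]
    (A : Matrix ρ ι ℂ) (hA : Function.Surjective A.mulVec) :
    ∃ P : Finset ι, P.card = Fintype.card ρ ∧ ∀ K : Subfield ℂ, (∀ r i, A r i ∈ K) →
      ∀ f : ι → ℂ, (∀ r, (A *ᵥ f) r ∈ K) → (∀ i, i ∉ P → f i ∈ K) → ∀ i, f i ∈ K := by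
  set v : ι → (ρ → ℂ) := fun i r => A r i with hv
  obtain ⟨κ, a, hainj, hspan, hli⟩ := exists_linearIndependent' ℂ v
  have hspanv : Submodule.span ℂ (Set.range v) = ⊤ := by
    rw [eq_top_iff]
    intro y _
    obtain ⟨f, rfl⟩ := hA y
    have : A *ᵥ f = ∑ i, f i • v i := by
      funext r
      simp only [Matrix.mulVec, dotProduct, Finset.sum_apply, Pi.smul_apply, smul_eq_mul, hv]
      exact Finset.sum_congr rfl fun i _ => mul_comm _ _
    rw [this]
    exact Submodule.sum_mem _ fun i _ => Submodule.smul_mem _ _ (Submodule.subset_span ⟨i, rfl⟩)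
  have hfin : Finite κ := Finite.of_injective a hainj
  let _ : Fintype κ := Fintype.ofFinite κ
  have hcard : Fintype.card κ = Fintype.card ρ := by
    have h1 := Module.finrank_eq_card_basis (Module.Basis.mk hli (by rw [hspan, hspanv]))
    rw [Module.finrank_fintype_fun_eq_card] at h1
    exact h1.symm
  obtain ⟨e⟩ : Nonempty (ρ ≃ κ) := ⟨Fintype.equivOfCardEq hcard.symm⟩
  classical
  refine ⟨Finset.univ.image a, ?_, ?_⟩
  · rw [Finset.card_image_of_injective _ hainj, Finset.card_univ, hcard]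
  · intro K hAK f hf hfree
    -- the square matrix
    set B : Matrix ρ ρ K := Matrix.of fun r s => ⟨A r (a (e s)), hAK _ _⟩ with hB
    have hBdet : (B.map K.subtype).det ≠ 0 := by
      intro h0
      obtain ⟨w, hw, hw0⟩ := Matrix.exists_mulVec_eq_zero_iff.mpr h0
      apply hw
      have h1 : ∑ s, w s • (v ∘ a) (e s) = 0 := by
        rw [← hw0]
        funext r
        simp only [Matrix.mulVec, dotProduct, Finset.sum_apply, Pi.smul_apply, smul_eq_mul]
        exact Finset.sum_congr rfl fun s _ => mul_comm _ _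
      have h2 : ∑ x, w (e.symm x) • (v ∘ a) x = 0 := by
        rw [← h1, ← Equiv.sum_comp e]
        exact Finset.sum_congr rfl fun s _ => by rw [Equiv.symm_apply_apply]
      have h3 := Fintype.linearIndependent_iff.mp hli (fun x => w (e.symm x)) h2
      funext s
      have h4 := h3 (e s)
      simpa using h4
    have hBdet' : B.det ≠ 0 := by
      intro h0
      apply hBdet
      have := RingHom.map_det K.subtype B
      rw [h0, map_zero] at this
      rw [← RingHom.mapMatrix_apply]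
      exact this.symm
    -- right-hand side
    have hh : ∀ r, (A *ᵥ f) r - ∑ i ∈ Finset.univ \ Finset.univ.image a, A r i * f i ∈ K := by
      intro r
      refine K.sub_mem (hf r) (K.sum_mem fun i hi => K.mul_mem (hAK r i) (hfree i ?_))
      exact (Finset.mem_sdiff.mp hi).2
    have hsum : ∀ r, ∑ s, A r (a (e s)) * f (a (e s))
        = (A *ᵥ f) r - ∑ i ∈ Finset.univ \ Finset.univ.image a, A r i * f i := by
      intro r
      have h1 : ∑ s, A r (a (e s)) * f (a (e s)) = ∑ i ∈ Finset.univ.image a, A r i * f i := by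
        rw [Finset.sum_image (fun x _ y _ hxy => hainj hxy)]
        exact Equiv.sum_comp e (fun x => A r (a x) * f (a x))
      rw [h1, eq_sub_iff_add_eq, add_comm, Finset.sum_sdiff (Finset.subset_univ _)]
      rfl
    set b : ρ → K := fun r => ⟨_, hh r⟩ with hb
    set x : ρ → K := B⁻¹ *ᵥ b with hx
    have hBx : B *ᵥ x = b := by
      rw [hx, Matrix.mulVec_mulVec, Matrix.mul_nonsing_inv _ (Ne.isUnit hBdet'),
        Matrix.one_mulVec]
    have hBx' : (B.map K.subtype) *ᵥ (fun s => (x s : ℂ)) = fun r => ((b r : K) : ℂ) := by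
      funext r
      have h1 := congrArg (fun y => ((y r : K) : ℂ)) hBx
      simp only [Matrix.mulVec, dotProduct] at h1 ⊢
      rw [← h1]
      push_cast
      rfl
    have hBf : (B.map K.subtype) *ᵥ (fun s => f (a (e s))) = fun r => ((b r : K) : ℂ) := by
      funext r
      exact hsum r
    have heq : (fun s => f (a (e s))) = fun s => (x s : ℂ) := by
      have h1 : (B.map K.subtype) *ᵥ ((fun s => f (a (e s))) - fun s => (x s : ℂ)) = 0 := by
        rw [Matrix.mulVec_sub, hBf, hBx', sub_self]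
      exact sub_eq_zero.mp (Matrix.eq_zero_of_mulVec_eq_zero hBdet h1)
    intro i
    by_cases hi : i ∈ Finset.univ.image a
    · obtain ⟨y, _, rfl⟩ := Finset.mem_image.mp hi
      have h1 := congrFun heq (e.symm y)
      simp only [Equiv.apply_symm_apply] at h1
      rw [h1]
      exact (x (e.symm y)).2
    · exact hfree i hi

/-- The coefficients of `f` are determined by those of `ξ₁`, `ξ₂`, `ξ₁ f`, `ξ₂ f` and all but
`(n + x₁ + 1) + (n + x₂ + 1)` coefficients of `f` itself. -/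
theorem MinPair.exists_free {c : ℕ} {H : Fin c → Fin c → ℂ[X]} {ξ1 ξ2 : Fin c → ℂ[X]}
    {x1 x2 : ℕ} (h : MinPair H ξ1 ξ2 x1 x2) {n : ℕ} (hn : x1 + x2 ≤ n + 1) :
    ∃ P : Finset (Fin c × Fin (n + 1)), P.card = (n + x1 + 1) + (n + x2 + 1) ∧
      ∀ K : Subfield ℂ, (∀ k, InK K (ξ1 k)) → (∀ k, InK K (ξ2 k)) →
      ∀ f : Fin c → ℂ[X], (∀ k, (f k).natDegree ≤ n) → InK K (∑ k, ξ1 k * f k) →
        InK K (∑ k, ξ2 k * f k) →
        (∀ i : Fin c × Fin (n + 1), i ∉ P → (f i.1).coeff i.2 ∈ K) →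
        ∀ i : Fin c × Fin (n + 1), (f i.1).coeff i.2 ∈ K := by
  set A : Matrix (Fin (n + x1 + 1) ⊕ Fin (n + x2 + 1)) (Fin c × Fin (n + 1)) ℂ :=
    Matrix.of fun r i => Sum.elim (fun r => (X ^ (i.2 : ℕ) * ξ1 i.1).coeff r)
      (fun r => (X ^ (i.2 : ℕ) * ξ2 i.1).coeff r) r with hA
  have hmul : ∀ (f : Fin c → ℂ[X]), (∀ k, (f k).natDegree ≤ n) →
      ∀ (ξ : Fin c → ℂ[X]) (r : ℕ),
      ∑ i : Fin c × Fin (n + 1), (X ^ (i.2 : ℕ) * ξ i.1).coeff r * (f i.1).coeff i.2
        = (∑ k, ξ k * f k).coeff r := by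
    intro f hf ξ r
    rw [Fintype.sum_prod_type, finsetSum_coeff]
    refine Finset.sum_congr rfl fun k _ => ?_
    have h1 : f k = ∑ l : Fin (n + 1), C ((f k).coeff l) * X ^ (l : ℕ) := by
      conv_lhs => rw [(f k).as_sum_range' (n + 1) (Nat.lt_succ_of_le (hf k))]
      rw [Finset.sum_range]
      exact Finset.sum_congr rfl fun l _ => by rw [C_mul_X_pow_eq_monomial]
    conv_rhs => rw [h1]
    rw [Finset.mul_sum, finsetSum_coeff]
    refine Finset.sum_congr rfl fun l _ => ?_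
    rw [show ξ k * (C ((f k).coeff l) * X ^ (l : ℕ)) = C ((f k).coeff l) * (X ^ (l : ℕ) * ξ k) by
      ring, coeff_C_mul, mul_comm]
  have hsurj : Function.Surjective A.mulVec := by
    intro y
    set g1 : ℂ[X] := ∑ r : Fin (n + x1 + 1), C (y (Sum.inl r)) * X ^ (r : ℕ) with hg1
    set g2 : ℂ[X] := ∑ r : Fin (n + x2 + 1), C (y (Sum.inr r)) * X ^ (r : ℕ) with hg2
    have d1 : g1.natDegree ≤ n + x1 := natDegree_sum_le_of_forall_le _ _ fun r _ =>
      (natDegree_C_mul_X_pow_le _ _).trans (Nat.lt_succ_iff.mp r.2)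
    have d2 : g2.natDegree ≤ n + x2 := natDegree_sum_le_of_forall_le _ _ fun r _ =>
      (natDegree_C_mul_X_pow_le _ _).trans (Nat.lt_succ_iff.mp r.2)
    have c1 : ∀ r : Fin (n + x1 + 1), g1.coeff r = y (Sum.inl r) := by
      intro r
      rw [hg1, finsetSum_coeff, Finset.sum_eq_single r]
      · rw [coeff_C_mul_X_pow, if_pos rfl]
      · intro b _ hb
        rw [coeff_C_mul_X_pow, if_neg (fun h => hb (Fin.ext h.symm))]
      · intro h; exact absurd (Finset.mem_univ _) h
    have c2 : ∀ r : Fin (n + x2 + 1), g2.coeff r = y (Sum.inr r) := by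
      intro r
      rw [hg2, finsetSum_coeff, Finset.sum_eq_single r]
      · rw [coeff_C_mul_X_pow, if_pos rfl]
      · intro b _ hb
        rw [coeff_C_mul_X_pow, if_neg (fun h => hb (Fin.ext h.symm))]
      · intro h; exact absurd (Finset.mem_univ _) h
    obtain ⟨f, hf, hf1, hf2⟩ := h.surj hn d1 d2
    refine ⟨fun i => (f i.1).coeff i.2, ?_⟩
    funext r
    rcases r with r | r
    · rw [← c1 r, ← hf1, ← hmul f hf ξ1 r]
      rfl
    · rw [← c2 r, ← hf2, ← hmul f hf ξ2 r]
      rfl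
  obtain ⟨P, hP, hPK⟩ := exists_pivots A hsurj
  refine ⟨P, by rw [hP, Fintype.card_sum, Fintype.card_fin, Fintype.card_fin], ?_⟩
  intro K h1 h2 f hf hg1 hg2 hfree
  refine hPK K ?_ (fun i => (f i.1).coeff i.2) ?_ hfree
  · intro r i
    rcases r with r | r
    · exact ((InK.X_pow _).mul (h1 _)) _
    · exact ((InK.X_pow _).mul (h2 _)) _
  · intro r
    rcases r with r | r
    · have : (A *ᵥ fun i => (f i.1).coeff i.2) (Sum.inl r) = (∑ k, ξ1 k * f k).coeff r :=
        hmul f hf ξ1 r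
      rw [this]; exact hg1 _
    · have : (A *ᵥ fun i => (f i.1).coeff i.2) (Sum.inr r) = (∑ k, ξ2 k * f k).coeff r :=
        hmul f hf ξ2 r
      rw [this]; exact hg2 _

end Pool.Agent.Helper730_PP
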