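import Pool.Agent.Helper730_PP.Robust
import Pool.Agent.Helper730_PP.BadG

/-!
# The alternating form attached to a plant when `m = 2`

For a plant `P₁` with `p` rows and `2 + p` columns, `(x, y) ↦ det (x; y; P₁)` is an alternating
form.
-/

open Polynomial Matrix

namespace Pool.Agent.Helper730_PP

noncomputable section

variable {p : ℕ}

/-- The form `(x, y) ↦ det (x; y; P₁)`. -/
def wform (P₁ : PolyMat p (2 + p)) (x y : Fin (2 + p) → ℝ[X]) : ℝ[X] :=
  (stack (two x y) P₁).det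

theorem stack_two_update_left' (P₁ : PolyMat p (2 + p)) (x x' y : Fin (2 + p) → ℝ[X]) :
    stack (two x' y) P₁ = (stack (two x y) P₁).updateRow (Fin.castAdd p 0) x' := by
  ext i j
  refine Fin.addCases (fun i => ?_) (fun i => ?_) i
  · fin_cases i
    · simp [stack_castAdd, two]
    · rw [Matrix.updateRow_ne]
      · simp [stack_castAdd, two]
      · intro h
        have := congrArg Fin.val h
        simp at this
  · rw [stack_natAdd, Matrix.updateRow_ne, stack_natAdd]
    intro h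
    have := congrArg Fin.val h
    simp at this

theorem stack_two_update_right' (P₁ : PolyMat p (2 + p)) (x y y' : Fin (2 + p) → ℝ[X]) :
    stack (two x y') P₁ = (stack (two x y) P₁).updateRow (Fin.castAdd p 1) y' := by
  ext i j
  refine Fin.addCases (fun i => ?_) (fun i => ?_) i
  · fin_cases i
    · rw [Matrix.updateRow_ne]
      · simp [stack_castAdd, two]
      · intro h
        have := congrArg Fin.val h
        simp at this
    · simp [stack_castAdd, two]
  · rw [stack_natAdd, Matrix.updateRow_ne, stack_natAdd]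
    intro h
    have := congrArg Fin.val h
    simp at this
    omega

theorem wform_add_left (P₁ : PolyMat p (2 + p)) (x x' y : Fin (2 + p) → ℝ[X]) :
    wform P₁ (x + x') y = wform P₁ x y + wform P₁ x' y := by
  unfold wform
  rw [stack_two_update_left' P₁ 0 (x + x') y, Matrix.det_updateRow_add,
    ← stack_two_update_left', ← stack_two_update_left']

theorem wform_smul_left (P₁ : PolyMat p (2 + p)) (c : ℝ[X]) (x y : Fin (2 + p) → ℝ[X]) :
    wform P₁ (c • x) y = c * wform P₁ x y := by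
  unfold wform
  rw [stack_two_update_left' P₁ 0 (c • x) y, Matrix.det_updateRow_smul,
    ← stack_two_update_left']

theorem wform_add_right (P₁ : PolyMat p (2 + p)) (x y y' : Fin (2 + p) → ℝ[X]) :
    wform P₁ x (y + y') = wform P₁ x y + wform P₁ x y' := by
  unfold wform
  rw [stack_two_update_right' P₁ x 0 (y + y'), Matrix.det_updateRow_add,
    ← stack_two_update_right', ← stack_two_update_right']

theorem wform_smul_right (P₁ : PolyMat p (2 + p)) (c : ℝ[X]) (x y : Fin (2 + p) → ℝ[X]) :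
    wform P₁ x (c • y) = c * wform P₁ x y := by
  unfold wform
  rw [stack_two_update_right' P₁ x 0 (c • y), Matrix.det_updateRow_smul,
    ← stack_two_update_right']

theorem wform_self (P₁ : PolyMat p (2 + p)) (x : Fin (2 + p) → ℝ[X]) : wform P₁ x x = 0 := by
  unfold wform
  apply Matrix.det_zero_of_row_eq (i := Fin.castAdd p 0) (j := Fin.castAdd p 1)
  · intro h
    have := congrArg Fin.val h
    simp at this
  · rw [stack_castAdd, stack_castAdd]; rfl

theorem wform_swap (P₁ : PolyMat p (2 + p)) (x y : Fin (2 + p) → ℝ[X]) :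
    wform P₁ x y = - wform P₁ y x := by
  have h := wform_self P₁ (x + y)
  rw [wform_add_left, wform_add_right, wform_add_right, wform_self, wform_self] at h
  linear_combination h

theorem wform_zero_left (P₁ : PolyMat p (2 + p)) (y : Fin (2 + p) → ℝ[X]) :
    wform P₁ 0 y = 0 := by
  have := wform_smul_left P₁ 0 0 y
  rwa [zero_smul, zero_mul] at this

theorem wform_zero_right (P₁ : PolyMat p (2 + p)) (y : Fin (2 + p) → ℝ[X]) :
    wform P₁ y 0 = 0 := by
  have := wform_smul_right P₁ 0 y 0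
  rwa [zero_smul, zero_mul] at this

theorem wform_sum_left {ι : Type*} (s : Finset ι) (P₁ : PolyMat p (2 + p))
    (x : ι → Fin (2 + p) → ℝ[X]) (y : Fin (2 + p) → ℝ[X]) :
    wform P₁ (∑ i ∈ s, x i) y = ∑ i ∈ s, wform P₁ (x i) y := by
  classical
  induction s using Finset.induction_on with
  | empty => simp [wform_zero_left]
  | insert a s ha ih => rw [Finset.sum_insert ha, Finset.sum_insert ha, wform_add_left, ih]

theorem wform_sum_right {ι : Type*} (s : Finset ι) (P₁ : PolyMat p (2 + p))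
    (x : Fin (2 + p) → ℝ[X]) (y : ι → Fin (2 + p) → ℝ[X]) :
    wform P₁ x (∑ i ∈ s, y i) = ∑ i ∈ s, wform P₁ x (y i) := by
  classical
  induction s using Finset.induction_on with
  | empty => simp [wform_zero_right]
  | insert a s ha ih => rw [Finset.sum_insert ha, Finset.sum_insert ha, wform_add_right, ih]

/-- The entries of the form. -/
def wentry (P₁ : PolyMat p (2 + p)) (i j : Fin (2 + p)) : ℝ[X] :=
  wform P₁ (Pi.single i 1) (Pi.single j 1)

theorem wform_eq_sum (P₁ : PolyMat p (2 + p)) (x y : Fin (2 + p) → ℝ[X]) :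
    wform P₁ x y = ∑ i, ∑ j, x i * y j * wentry P₁ i j := by
  have hx : x = ∑ i, x i • (Pi.single i (1 : ℝ[X]) : Fin (2 + p) → ℝ[X]) := by
    rw [← pi_eq_sum_univ' x]
  have hy : y = ∑ i, y i • (Pi.single i (1 : ℝ[X]) : Fin (2 + p) → ℝ[X]) := by
    rw [← pi_eq_sum_univ' y]
  conv_lhs => rw [hx, hy]
  rw [wform_sum_left]
  refine Finset.sum_congr rfl fun i _ => ?_
  rw [wform_sum_right]
  refine Finset.sum_congr rfl fun j _ => ?_
  rw [wform_smul_left, wform_smul_right, wentry]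
  ring

theorem two_rows' {N : ℕ} (P : PolyMat 2 N) : two (P 0) (P 1) = P := by
  ext i j
  fin_cases i <;> rfl

theorem det_stack_eq_wform (P₂ : PolyMat 2 (2 + p)) (P₁ : PolyMat p (2 + p)) :
    (stack P₂ P₁).det = wform P₁ (P₂ 0) (P₂ 1) := by
  unfold wform
  rw [two_rows']

/-- The `2 × 2` minors of a matrix with two rows. -/
def minors2 {N : ℕ} (P₂ : PolyMat 2 N) (i j : Fin N) : ℝ[X] :=
  P₂ 0 i * P₂ 1 j - P₂ 0 j * P₂ 1 i

theorem minors2_isPlucker {N : ℕ} (P₂ : PolyMat 2 N) : IsPlucker (minors2 P₂) := by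
  refine ⟨fun i j => ?_, fun i j k l => ?_⟩ <;> unfold minors2 <;> ring

theorem fullMinor_eq_minors2 {N : ℕ} (P₂ : PolyMat 2 N) (e : Fin 2 → Fin N) :
    fullMinor P₂ e = minors2 P₂ (e 0) (e 1) := by
  unfold fullMinor minors2
  rw [Matrix.det_fin_two]
  simp [Matrix.submatrix_apply]

theorem minors2_natDegree {N q : ℕ} {P₂ : PolyMat 2 N} (h : HasMcMillanDegree P₂ q)
    (i j : Fin N) : (minors2 P₂ i j).natDegree ≤ q := by
  have := h.1 ![i, j]
  rwa [fullMinor_eq_minors2] at this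

theorem exists_minors2_ne {N q : ℕ} {P₂ : PolyMat 2 N} (h : HasMcMillanDegree P₂ q) :
    ∃ i j, minors2 P₂ i j ≠ 0 := by
  obtain ⟨e, he, -⟩ := h.2
  exact ⟨e 0, e 1, by rwa [fullMinor_eq_minors2] at he⟩

/-- The pairing of two matrices. -/
def pairing {N : ℕ} (V M : Fin N → Fin N → ℝ[X]) : ℝ[X] := ∑ i, ∑ j, V i j * M i j

theorem two_det_stack (P₂ : PolyMat 2 (2 + p)) (P₁ : PolyMat p (2 + p)) :
    2 * (stack P₂ P₁).det = pairing (minors2 P₂) (wentry P₁) := by
  have h1 : (stack P₂ P₁).det = ∑ i, ∑ j, P₂ 0 i * P₂ 1 j * wentry P₁ i j := by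
    rw [det_stack_eq_wform, wform_eq_sum]
  have h2 : (stack P₂ P₁).det = -∑ i, ∑ j, P₂ 0 j * P₂ 1 i * wentry P₁ i j := by
    rw [h1, Finset.sum_comm, ← Finset.sum_neg_distrib]
    refine Finset.sum_congr rfl fun j _ => ?_
    rw [← Finset.sum_neg_distrib]
    refine Finset.sum_congr rfl fun i _ => ?_
    have : wentry P₁ i j = -wentry P₁ j i := wform_swap _ _ _
    rw [this]; ring
  have h3 : pairing (minors2 P₂) (wentry P₁)
      = ∑ i, ∑ j, P₂ 0 i * P₂ 1 j * wentry P₁ i j - ∑ i, ∑ j, P₂ 0 j * P₂ 1 i * wentry P₁ i j := by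
    unfold pairing minors2
    rw [← Finset.sum_sub_distrib]
    refine Finset.sum_congr rfl fun i _ => ?_
    rw [← Finset.sum_sub_distrib]
    refine Finset.sum_congr rfl fun j _ => ?_
    ring
  rw [h3, ← h1]
  linear_combination h2

/-- The form vanishes on pairs of vectors annihilated by a common kernel vector. -/
theorem wform_eq_zero_of_kernel {P₁ : PolyMat p (2 + p)} {a x y : Fin (2 + p) → ℝ[X]}
    (ha0 : a ≠ 0) (ha : ∀ i, P₁ i ⬝ᵥ a = 0) (hx : x ⬝ᵥ a = 0) (hy : y ⬝ᵥ a = 0) :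
    wform P₁ x y = 0 := by
  unfold wform
  apply Matrix.exists_mulVec_eq_zero_iff.mp
  refine ⟨a, ha0, ?_⟩
  funext i
  show stack (two x y) P₁ i ⬝ᵥ a = 0
  refine Fin.addCases (fun i => ?_) (fun i => ?_) i
  · rw [stack_castAdd]
    fin_cases i
    · exact hx
    · exact hy
  · rw [stack_natAdd]; exact ha i

/-- The form in terms of two vectors spanning the kernel of the plant. -/
theorem wform_dual {P₁ : PolyMat p (2 + p)} {a b g0 g1 : Fin (2 + p) → ℝ[X]}
    (ha : ∀ i, P₁ i ⬝ᵥ a = 0) (hb : ∀ i, P₁ i ⬝ᵥ b = 0) (h0a : g0 ⬝ᵥ a = 1) (h0b : g0 ⬝ᵥ b = 0)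
    (h1a : g1 ⬝ᵥ a = 0) (h1b : g1 ⬝ᵥ b = 1) (x y : Fin (2 + p) → ℝ[X]) :
    wform P₁ x y = wform P₁ g0 g1 * ((x ⬝ᵥ a) * (y ⬝ᵥ b) - (x ⬝ᵥ b) * (y ⬝ᵥ a)) := by
  have ha0 : a ≠ 0 := by
    rintro rfl
    rw [dotProduct_zero] at h0a
    exact zero_ne_one h0a
  have hb0 : b ≠ 0 := by
    rintro rfl
    rw [dotProduct_zero] at h1b
    exact zero_ne_one h1b
  -- the projections
  have key : ∀ z : Fin (2 + p) → ℝ[X], ∃ z' : Fin (2 + p) → ℝ[X],
      z = z' + (z ⬝ᵥ a) • g0 + (z ⬝ᵥ b) • g1 ∧ z' ⬝ᵥ a = 0 ∧ z' ⬝ᵥ b = 0 := by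
    intro z
    refine ⟨z - (z ⬝ᵥ a) • g0 - (z ⬝ᵥ b) • g1, by abel, ?_, ?_⟩
    · rw [sub_dotProduct, sub_dotProduct, smul_dotProduct, smul_dotProduct, h0a, h1a]
      simp
    · rw [sub_dotProduct, sub_dotProduct, smul_dotProduct, smul_dotProduct, h0b, h1b]
      simp
  obtain ⟨x', hx', hxa, hxb⟩ := key x
  obtain ⟨y', hy', hya, hyb⟩ := key y
  have e1 : wform P₁ x' y' = 0 := wform_eq_zero_of_kernel ha0 ha hxa hya
  have e2 : wform P₁ x' g0 = 0 := wform_eq_zero_of_kernel hb0 hb hxb h0b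
  have e3 : wform P₁ x' g1 = 0 := wform_eq_zero_of_kernel ha0 ha hxa h1a
  have e4 : wform P₁ g0 y' = 0 := wform_eq_zero_of_kernel hb0 hb h0b hyb
  have e5 : wform P₁ g1 y' = 0 := wform_eq_zero_of_kernel ha0 ha h1a hya
  have e6 := wform_swap P₁ g1 g0
  conv_lhs => rw [hx', hy']
  rw [wform_add_left, wform_add_left, wform_add_right, wform_add_right, wform_add_right,
    wform_add_right, wform_add_right, wform_add_right, wform_smul_left, wform_smul_left,
    wform_smul_left, wform_smul_left, wform_smul_left, wform_smul_left, wform_smul_right,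
    wform_smul_right, wform_smul_right, wform_smul_right, wform_smul_right, wform_smul_right,
    e1, e2, e3, e4, e5, e6, wform_self, wform_self]
  ring

theorem wentry_dual {P₁ : PolyMat p (2 + p)} {a b g0 g1 : Fin (2 + p) → ℝ[X]}
    (ha : ∀ i, P₁ i ⬝ᵥ a = 0) (hb : ∀ i, P₁ i ⬝ᵥ b = 0) (h0a : g0 ⬝ᵥ a = 1) (h0b : g0 ⬝ᵥ b = 0)
    (h1a : g1 ⬝ᵥ a = 0) (h1b : g1 ⬝ᵥ b = 1) (i j : Fin (2 + p)) :
    wentry P₁ i j = wform P₁ g0 g1 * (a i * b j - b i * a j) := by
  unfold wentry
  rw [wform_dual ha hb h0a h0b h1a h1b]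
  simp

theorem pairing_dual {N : ℕ} {V : Fin N → Fin N → ℝ[X]} (hV : IsPlucker V)
    {M : Fin N → Fin N → ℝ[X]} {D : ℝ[X]} {a b : Fin N → ℝ[X]}
    (hM : ∀ i j, M i j = D * (a i * b j - b i * a j)) :
    pairing V M = 2 * D * bval V a b := by
  have h1 : pairing V M = D * (∑ i, ∑ j, a i * b j * V i j)
      - D * (∑ i, ∑ j, b i * a j * V i j) := by
    unfold pairing
    rw [Finset.mul_sum, Finset.mul_sum, ← Finset.sum_sub_distrib]
    refine Finset.sum_congr rfl fun i _ => ?_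
    rw [Finset.mul_sum, Finset.mul_sum, ← Finset.sum_sub_distrib]
    refine Finset.sum_congr rfl fun j _ => ?_
    rw [hM]; ring
  have h2 : ∑ i, ∑ j, b i * a j * V i j = -∑ i, ∑ j, a i * b j * V i j := by
    rw [Finset.sum_comm, ← Finset.sum_neg_distrib]
    refine Finset.sum_congr rfl fun j _ => ?_
    rw [← Finset.sum_neg_distrib]
    refine Finset.sum_congr rfl fun i _ => ?_
    rw [hV.1 i j]; ring
  rw [h1, h2]
  unfold bval
  ring

end

end Pool.Agent.Helper730_PP
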